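import Pool.Agent.Lib.H68.Mem

/-! # Orthogonal root elements -/

namespace MP9bf44d

open Matrix

set_option linter.unusedSectionVars false

/-- signed basis vectors: `(i, true)` is `e_i`, `(i, false)` is `f_i` -/
abbrev WP (l : ℕ) := Fin l × Bool

/-- index type of the natural module of dimension `2l+1`; `none` is `v_0` -/
abbrev VB (l : ℕ) := Option (WP l)

/-- the opposite vector -/
def opp {l : ℕ} (u : WP l) : WP l := (u.1, !u.2)

variable {l : ℕ}

@[simp] lemma opp_opp (u : WP l) : opp (opp u) = u := by simp [opp]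
@[simp] lemma opp_fst (u : WP l) : (opp u).1 = u.1 := rfl
@[simp] lemma opp_mk (i : Fin l) (b : Bool) : opp (i, b) = (i, !b) := rfl

lemma opp_ne (u : WP l) : opp u ≠ u := by
  rcases u with ⟨i, b⟩
  simp [opp]

/-- root element for the root `u + v` (`u`, `v` in different planes) -/
def xB (u v : WP l) (t : ℤ) : Matrix (VB l) (VB l) ℤ :=
  1 + single (some v) (some (opp u)) t + single (some u) (some (opp v)) (-t)

/-- short root element for the root `u` -/
def xS (u : WP l) (t : ℤ) : Matrix (VB l) (VB l) ℤ :=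
  1 + single none (some (opp u)) t + single (some u) none (-2 * t)
    + single (some u) (some (opp u)) (-t ^ 2)

/-- local index map for the planes of `us` -/
def sg {r : ℕ} (us : Fin r → WP l) (k : Fin (2 * r)) : VB l :=
  some (if (k : ℕ) % 2 = 0 then us ⟨k / 2, by omega⟩ else opp (us ⟨k / 2, by omega⟩))

lemma sg_injective {r : ℕ} {us : Fin r → WP l} (h : Function.Injective fun i => (us i).1) :
    Function.Injective (sg us) := by
  intro k k' hk
  simp only [sg, Option.some.injEq] at hk
  have h1 : ((us ⟨k / 2, by omega⟩).1 : Fin l) = (us ⟨k' / 2, by omega⟩).1 := by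
    have := congrArg Prod.fst hk
    split_ifs at this <;> simpa using this
  have h2 : (⟨k / 2, by omega⟩ : Fin r) = ⟨k' / 2, by omega⟩ := h h1
  have h3 : (k : ℕ) / 2 = k' / 2 := by simpa using h2
  rw [h2] at hk
  have h4 : (k : ℕ) % 2 = k' % 2 := by
    split_ifs at hk with h5 h6 h6
    · omega
    · exact absurd hk.symm (opp_ne _)
    · exact absurd hk (opp_ne _)
    · omega
  ext; omega

/-- local index map including `v_0` as last index -/
def sgB {r : ℕ} (us : Fin r → WP l) (k : Fin (2 * r + 1)) : VB l :=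
  if h : (k : ℕ) < 2 * r then sg us ⟨k, h⟩ else none

lemma sgB_injective {r : ℕ} {us : Fin r → WP l} (h : Function.Injective fun i => (us i).1) :
    Function.Injective (sgB us) := by
  intro k k' hk
  unfold sgB at hk
  split_ifs at hk with h1 h2 h2
  · have := sg_injective h hk
    ext; simpa using this
  · simp [sg] at hk
  · simp [sg] at hk
  · ext; omega

lemma inj1 (u : WP l) : Function.Injective fun i => ((![u] : Fin 1 → WP l) i).1 := by
  intro i j _; exact Subsingleton.elim _ _

lemma inj2 {u v : WP l} (h : u.1 ≠ v.1) :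
    Function.Injective fun i => ((![u, v] : Fin 2 → WP l) i).1 := by
  intro i j hij
  fin_cases i <;> fin_cases j <;> simp_all [h.symm]

lemma inj3 {u v w : WP l} (h : u.1 ≠ v.1) (h' : u.1 ≠ w.1) (h'' : v.1 ≠ w.1) :
    Function.Injective fun i => ((![u, v, w] : Fin 3 → WP l) i).1 := by
  intro i j hij
  fin_cases i <;> fin_cases j <;> simp_all [h.symm, h'.symm, h''.symm]

lemma xB_eq_emb {r : ℕ} (us : Fin r → WP l) (a b c d : ℕ) {u v : WP l}
    (ha' : a < 2 * r) (hb' : b < 2 * r) (hc' : c < 2 * r) (hd' : d < 2 * r)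
    (ha : sg us ⟨a, ha'⟩ = some v) (hb : sg us ⟨b, hb'⟩ = some (opp u))
    (hc : sg us ⟨c, hc'⟩ = some u)
    (hd : sg us ⟨d, hd'⟩ = some (opp v)) (t t' : ℤ) (ht : t' = -t) :
    emb (sg us) (toMat (2 * r) (rootL (2 * r) a b t c d t')) = xB u v t := by
  subst ht
  have := emb_rootL (sg us) ⟨a, ha'⟩ ⟨b, hb'⟩ t ⟨c, hc'⟩ ⟨d, hd'⟩ (-t)
  rw [ha, hb, hc, hd] at this
  exact this

lemma xB_symm (u v : WP l) (t : ℤ) : xB v u t = xB u v (-t) := by
  unfold xB
  rw [neg_neg]; abel

lemma xB_mul {u v : WP l} (h : u.1 ≠ v.1) (s t : ℤ) : xB u v s * xB u v t = xB u v (s + t) := by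
  have h1 : opp u ≠ v := by rintro rfl; simp at h
  have h2 : opp v ≠ u := by rintro rfl; simp at h
  have h3 : u ≠ v := by rintro rfl; simp at h
  have e1 : ∀ a b : ℤ, single (some v) (some (opp u)) a * single (some v) (some (opp u)) b =
      (0 : Matrix (VB l) (VB l) ℤ) := by
    intro a b; rw [single_mul_single_of_ne]; simpa using h1
  have e2 : ∀ a b : ℤ, single (some v) (some (opp u)) a * single (some u) (some (opp v)) b =
      (0 : Matrix (VB l) (VB l) ℤ) := by
    intro a b; rw [single_mul_single_of_ne]; simpa using opp_ne u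
  have e3 : ∀ a b : ℤ, single (some u) (some (opp v)) a * single (some v) (some (opp u)) b =
      (0 : Matrix (VB l) (VB l) ℤ) := by
    intro a b; rw [single_mul_single_of_ne]; simpa using opp_ne v
  have e4 : ∀ a b : ℤ, single (some u) (some (opp v)) a * single (some u) (some (opp v)) b =
      (0 : Matrix (VB l) (VB l) ℤ) := by
    intro a b; rw [single_mul_single_of_ne]; simpa using h2
  unfold xB
  simp only [mul_add, add_mul, one_mul, mul_one, e1, e2, e3, e4, add_zero]
  rw [neg_add, single_add, single_add]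
  abel

lemma xB_zero (u v : WP l) : xB u v 0 = 1 := by simp [xB]

variable {G : Subgroup (Matrix (VB l) (VB l) ℤ)ˣ}

lemma Mem.xB_neg {u v : WP l} (h : u.1 ≠ v.1) {t : ℤ} (hm : Mem G (xB u v t)) :
    Mem G (xB u v (-t)) := by
  refine Mem.inv ?_ hm
  rw [xB_mul h, add_neg_cancel, xB_zero]

lemma Mem.xB_symm {u v : WP l} (h : u.1 ≠ v.1) (hm : Mem G (xB u v 1)) :
    Mem G (xB v u 1) := by
  rw [MP9bf44d.xB_symm]
  exact hm.xB_neg h

/-- the commutator rule -/
lemma Mem.xB_trans {u v w : WP l} (huv : u.1 ≠ v.1) (huw : u.1 ≠ w.1) (hvw : v.1 ≠ w.1)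
    (h1 : Mem G (xB u v 1)) (h2 : Mem G (xB (opp v) w 1)) : Mem G (xB u w 1) := by
  have hσ := sg_injective (inj3 huv huw hvw)
  have hP := closed_emb hσ G
  -- local indices: u=0, u'=1, v=2, v'=3, w=4, w'=5
  have g1 : Mem G (emb (sg ![u, v, w]) (toMat 6 (rootL 6 2 1 1 0 3 (-1)))) := by
    exact (xB_eq_emb ![u, v, w] 2 1 0 3 (u := u) (v := v) (by norm_num) (by norm_num)
      (by norm_num) (by norm_num) rfl rfl rfl rfl 1 (-1) rfl).symm ▸ h1
  have g2 : Mem G (emb (sg ![u, v, w]) (toMat 6 (rootL 6 4 2 1 3 5 (-1)))) := by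
    exact (xB_eq_emb ![u, v, w] 4 2 3 5 (u := opp v) (v := w) (by norm_num) (by norm_num)
      (by norm_num) (by norm_num) rfl (by simp [sg]) rfl rfl 1 (-1) rfl).symm ▸ h2
  have hst : Good 6 (fun M => Mem G (emb (sg ![u, v, w]) M))
      [(rootL 6 2 1 1 0 3 (-1), rootL 6 2 1 (-1) 0 3 1),
       (rootL 6 4 2 1 3 5 (-1), rootL 6 4 2 (-1) 3 5 1)] := by
    apply checkGens_good (by decide +kernel)
    intro p hp
    simp only [List.mem_cons, List.not_mem_nil, or_false] at hp
    rcases hp with rfl | rfl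
    · exact g1
    · exact g2
  have := check_good hP (rules := []) (by intro R hR; simp at hR)
    [⟨none, [(1, true), (0, true), (1, false), (0, false)], rootL 6 4 1 1 0 5 (-1),
      rootL 6 4 1 (-1) 0 5 1⟩] _ hst (by decide +kernel) _ (List.mem_singleton_self _)
  exact (xB_eq_emb ![u, v, w] 4 1 0 5 (u := u) (v := w) (by norm_num) (by norm_num)
      (by norm_num) (by norm_num) rfl rfl rfl rfl 1 (-1) rfl) ▸ this

end MP9bf44d
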