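import Pool.Agent.Lib.H68.BD

/-! # Plane permutations, moves -/

namespace MP9bf44d

open Matrix

set_option linter.unusedSectionVars false

variable {l : ℕ}

/-- the permutation of basis vectors induced by a permutation of planes -/
def planeP (π : Equiv.Perm (Fin l)) : Equiv.Perm (VB l) :=
  Equiv.optionCongr (Equiv.prodCongr π (Equiv.refl Bool))

@[simp] lemma planeP_some (π : Equiv.Perm (Fin l)) (u : WP l) :
    planeP π (some u) = some (π u.1, u.2) := rfl

@[simp] lemma planeP_none (π : Equiv.Perm (Fin l)) : planeP π none = none := rfl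

/-- action on signed vectors -/
def actW (π : Equiv.Perm (Fin l)) (u : WP l) : WP l := (π u.1, u.2)

lemma planeP_sg {r : ℕ} (π : Equiv.Perm (Fin l)) (us : Fin r → WP l) :
    planeP π ∘ sg us = sg (fun i => actW π (us i)) := by
  funext k
  simp only [Function.comp, sg]
  split_ifs <;> rfl

lemma planeP_sgB {r : ℕ} (π : Equiv.Perm (Fin l)) (us : Fin r → WP l) :
    planeP π ∘ sgB us = sgB (fun i => actW π (us i)) := by
  funext k
  simp only [Function.comp, sgB]
  split_ifs with h
  · exact congrFun (planeP_sg π us) ⟨k, h⟩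
  · rfl

lemma xB_eq (u v : WP l) (t : ℤ) :
    xB u v t = emb (sg ![u, v]) (toMat 4 (rootL 4 2 1 t 0 3 (-t))) :=
  (xB_eq_emb ![u, v] 2 1 0 3 (u := u) (v := v) (by norm_num) (by norm_num) (by norm_num)
    (by norm_num) rfl rfl rfl rfl t (-t) rfl).symm

lemma xS_eq (u : WP l) (t : ℤ) :
    xS u t = emb (sgB ![u]) (1 + (single 2 1 t + single 0 2 (-2 * t) + single 0 1 (-t ^ 2))) := by
  rw [emb_one_add, lift_add, lift_add, lift_single, lift_single, lift_single]
  unfold xS
  have h2 : sgB ![u] 2 = none := by simp [sgB]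
  have h0 : sgB ![u] 0 = some u := rfl
  have h1 : sgB ![u] 1 = some (opp u) := rfl
  rw [h2, h0, h1]
  abel

lemma conj_plane_xB (π : Equiv.Perm (Fin l)) (u v : WP l) (t : ℤ) :
    pmat (planeP π) * xB u v t * (pmat (planeP π))ᵀ = xB (actW π u) (actW π v) t := by
  rw [xB_eq, conj_pmat_emb, planeP_sg, xB_eq]
  congr 2
  funext i
  fin_cases i <;> rfl

lemma conj_plane_xS (π : Equiv.Perm (Fin l)) (u : WP l) (t : ℤ) :
    pmat (planeP π) * xS u t * (pmat (planeP π))ᵀ = xS (actW π u) t := by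
  rw [xS_eq, conj_pmat_emb, planeP_sgB, xS_eq]
  congr 2
  funext i
  fin_cases i; rfl

variable {N : Type*} [Fintype N] [DecidableEq N] {G : Subgroup (Matrix N N ℤ)ˣ}

/-- conjugation by `P * Z` where `Z` commutes with `M` -/
lemma Mem.conj_PZ {P Z Z' M : Matrix N N ℤ} (hP : P * Pᵀ = 1) (hZ : Z * Z' = 1)
    (hg : Mem G (P * Z)) (hM : Mem G M) (hc : Z * M = M * Z) : Mem G (P * M * Pᵀ) := by
  have h1 : P * Z * (Z' * Pᵀ) = 1 := by
    calc P * Z * (Z' * Pᵀ) = P * (Z * Z') * Pᵀ := by simp only [Matrix.mul_assoc]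
      _ = 1 := by rw [hZ, Matrix.mul_one, hP]
  have h2 := (hg.mul hM).mul (Mem.inv h1 hg)
  have h3 : P * Z * M * (Z' * Pᵀ) = P * M * Pᵀ := by
    calc P * Z * M * (Z' * Pᵀ) = P * (Z * M) * Z' * Pᵀ := by simp only [Matrix.mul_assoc]
      _ = P * M * (Z * Z') * Pᵀ := by rw [hc]; simp only [Matrix.mul_assoc]
      _ = _ := by rw [hZ, Matrix.mul_one]
  rwa [h3] at h2

lemma sg_disjoint {r r' : ℕ} {us : Fin r → WP l} {vs : Fin r' → WP l}
    (h : ∀ i j, (us i).1 ≠ (vs j).1) : ∀ i j, sg us i ≠ sg vs j := by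
  intro i j hij
  simp only [sg, Option.some.injEq] at hij
  have := congrArg Prod.fst hij
  split_ifs at this <;> exact h _ _ (by simpa using this)

lemma sg_sgB_disjoint {r r' : ℕ} {us : Fin r → WP l} {vs : Fin r' → WP l}
    (h : ∀ i j, (us i).1 ≠ (vs j).1) : ∀ i j, sg us i ≠ sgB vs j := by
  intro i j hij
  unfold sgB at hij
  split_ifs at hij with h1
  · exact sg_disjoint h _ _ hij
  · simp [sg] at hij

/-- The permutation `s ↔ s+1, s+2 ↔ s+3, …` (`k` pairs) on ℕ. -/
def pairFun (s k i : ℕ) : ℕ :=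
  if s ≤ i ∧ i < s + 2 * k then (if (i - s) % 2 = 0 then i + 1 else i - 1) else i

lemma pairFun_invol (s k i : ℕ) : pairFun s k (pairFun s k i) = i := by
  unfold pairFun
  split_ifs <;> omega

lemma pairFun_lt {s k i l : ℕ} (h : s + 2 * k ≤ l) (hi : i < l) : pairFun s k i < l := by
  unfold pairFun
  split_ifs <;> omega

/-- The permutation of planes. -/
def pairPerm (l s k : ℕ) (h : s + 2 * k ≤ l) : Equiv.Perm (Fin l) where
  toFun i := ⟨pairFun s k i, pairFun_lt h i.2⟩
  invFun i := ⟨pairFun s k i, pairFun_lt h i.2⟩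
  left_inv i := by ext; simp [pairFun_invol]
  right_inv i := by ext; simp [pairFun_invol]

@[simp] lemma pairPerm_val {l s k : ℕ} (h : s + 2 * k ≤ l) (i : Fin l) :
    ((pairPerm l s k h i : Fin l) : ℕ) = pairFun s k i := rfl

lemma pairPerm_mul_self {l s k : ℕ} (h : s + 2 * k ≤ l) :
    pairPerm l s k h * pairPerm l s k h = 1 := by
  ext i; simp [pairFun_invol]

lemma pmat_planeP_mul (π π' : Equiv.Perm (Fin l)) :
    pmat (planeP π) * pmat (planeP π') = pmat (planeP (π * π')) := by
  rw [pmat_comp]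
  congr 1
  funext x
  cases x <;> rfl

lemma pmat_planeP_one : pmat (planeP (1 : Equiv.Perm (Fin l))) = 1 := by
  ext i j
  have : planeP (1 : Equiv.Perm (Fin l)) j = j := by cases j <;> rfl
  simp [pmat, this, Matrix.one_apply]

lemma pmat_planeP_mul_transpose (π : Equiv.Perm (Fin l)) :
    pmat (planeP π) * (pmat (planeP π))ᵀ = 1 := pmat_equiv_mul_transpose _

/-- A permutation supported in the range of `σ` is an embedded local permutation. -/
lemma pmat_eq_emb {m N : Type*} [Fintype m] [DecidableEq m] [Fintype N] [DecidableEq N]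
    {σ : m → N} (hσ : Function.Injective σ) {e : N → N} {τ : m → m}
    (h1 : e ∘ σ = σ ∘ τ) (h2 : ∀ x, (∀ i, x ≠ σ i) → e x = x) :
    pmat e = emb σ (pmat τ) := by
  have hemb : emb σ (pmat τ) = 1 + pmat (σ ∘ τ) * (pmat σ)ᵀ - pmat σ * (pmat σ)ᵀ := by
    unfold emb lift
    rw [Matrix.mul_sub, Matrix.sub_mul, pmat_comp, Matrix.mul_one, add_sub_assoc]
  rw [hemb, ← h1, ← pmat_comp]
  ext i j
  simp only [Matrix.sub_apply, Matrix.add_apply, Matrix.mul_assoc]
  by_cases hj : ∃ k, j = σ k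
  · obtain ⟨k, rfl⟩ := hj
    have hs : ∀ i, (pmat σ * (pmat σ)ᵀ) i (σ k) = if i = σ k then 1 else 0 := by
      intro i
      simp only [Matrix.mul_apply, pmat, transpose_apply]
      rw [Finset.sum_eq_single k]
      · simp
      · intro b _ hb
        have : σ k ≠ σ b := fun h => hb (hσ h).symm
        simp [this]
      · simp
    rw [hs, Matrix.mul_apply]
    simp only [hs, Matrix.one_apply]
    simp
  · push Not at hj
    have hs : ∀ i, (pmat σ * (pmat σ)ᵀ) i j = 0 := by
      intro i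
      simp only [Matrix.mul_apply, pmat, transpose_apply]
      apply Finset.sum_eq_zero
      intro b _
      simp [hj b]
    rw [hs, Matrix.mul_apply]
    simp only [hs, Matrix.one_apply, pmat, h2 j hj]
    simp

end MP9bf44d
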