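import Pool.Agent.Lib.H68.BD2

/-! # Propagation of root elements -/

namespace MP9bf44d

open Matrix

set_option linter.unusedSectionVars false

variable {l : ℕ} {G : Subgroup (Matrix (VB l) (VB l) ℤ)ˣ}

/-- all long root elements on the planes `< k` lie in `G` -/
def Full (G : Subgroup (Matrix (VB l) (VB l) ℤ)ˣ) (k : ℕ) : Prop :=
  ∀ u v : WP l, u.1 ≠ v.1 → (u.1 : ℕ) < k → (v.1 : ℕ) < k → Mem G (xB u v 1)

/-- `π` moves root elements on planes `< S` -/
def Moves (G : Subgroup (Matrix (VB l) (VB l) ℤ)ˣ) (π : Equiv.Perm (Fin l)) (S : ℕ) : Prop :=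
  ∀ u v : WP l, u.1 ≠ v.1 → (u.1 : ℕ) < S → (v.1 : ℕ) < S → Mem G (xB u v 1) →
    Mem G (xB (actW π u) (actW π v) 1)

lemma Full.step {k : ℕ} (hk : k < l) (h2 : 2 ≤ k) (hF : Full G k) (π : Equiv.Perm (Fin l))
    (hm : Moves G π k) (hinv : ∀ i, π (π i) = i)
    (hk1 : ((π ⟨k - 1, by omega⟩ : Fin l) : ℕ) = k)
    (hlt : ∀ i : Fin l, (i : ℕ) < k - 1 → ((π i : Fin l) : ℕ) < k - 1) : Full G (k + 1) := by
  have hπk : π ⟨k, hk⟩ = ⟨k - 1, by omega⟩ := by
    have : π ⟨k - 1, by omega⟩ = ⟨k, hk⟩ := Fin.ext hk1
    rw [← this, hinv]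
  -- `u` on a plane `< k - 1`, `v` on the plane `k`
  have h1 : ∀ u v : WP l, (u.1 : ℕ) < k - 1 → (v.1 : ℕ) = k → Mem G (xB u v 1) := by
    intro u v hu hv
    have hv' : v.1 = ⟨k, hk⟩ := Fin.ext hv
    have hu' := hlt u.1 hu
    have hne : (actW π u).1 ≠ (actW π v).1 := by
      simp only [actW]
      rw [hv', hπk]
      intro h
      have := congrArg Fin.val h
      simp only at this
      omega
    have := hm (actW π u) (actW π v) hne (by simp only [actW]; omega)
      (by simp only [actW]; rw [hv', hπk]; simp only; omega)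
      (hF _ _ hne (by simp only [actW]; omega)
        (by simp only [actW]; rw [hv', hπk]; simp only; omega))
    simpa [actW, hinv] using this
  have h2' : ∀ u v : WP l, u.1 ≠ v.1 → (u.1 : ℕ) < k → (v.1 : ℕ) = k → Mem G (xB u v 1) := by
    intro u v huv hu hv
    by_cases hu1 : (u.1 : ℕ) < k - 1
    · exact h1 u v hu1 hv
    · have hu2 : (u.1 : ℕ) = k - 1 := by omega
      let w : WP l := (⟨0, by omega⟩, true)
      have huw : u.1 ≠ w.1 := by
        intro h; have := congrArg Fin.val h; simp only [w] at this; omega
      have hwv : w.1 ≠ v.1 := by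
        intro h; have := congrArg Fin.val h; simp only [w] at this; omega
      exact Mem.xB_trans huw huv hwv (hF u w huw (by omega) (by simp only [w]; omega))
        (h1 (opp w) v (by simp only [opp_fst, w]; omega) hv)
  intro u v huv hu hv
  rcases Nat.lt_succ_iff_lt_or_eq.mp hu with hu | hu
  · rcases Nat.lt_succ_iff_lt_or_eq.mp hv with hv | hv
    · exact hF u v huv hu hv
    · exact h2' u v huv hu hv
  · rcases Nat.lt_succ_iff_lt_or_eq.mp hv with hv | hv
    · exact (h2' v u huv.symm hv hu).xB_symm huv.symm
    · exact absurd (Fin.ext (hu.trans hv.symm)) huv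

lemma Moves.mono {π : Equiv.Perm (Fin l)} {S S' : ℕ} (h : Moves G π S) (hS : S' ≤ S) :
    Moves G π S' := fun u v huv hu hv => h u v huv (by omega) (by omega)

/-- Propagation along the two path involutions. -/
lemma Full.propagate {ka kc Sa Sc K : ℕ} (ha : 0 + 2 * ka ≤ l) (hc : 1 + 2 * kc ≤ l)
    (hMa : Moves G (pairPerm l 0 ka ha) Sa) (hMc : Moves G (pairPerm l 1 kc hc) Sc)
    (hK : K ≤ l) (h2 : Full G 2)
    (hKa : ∀ k, 2 ≤ k → k < K → k % 2 = 1 → k ≤ Sa ∧ k < 2 * ka)
    (hKc : ∀ k, 2 ≤ k → k < K → k % 2 = 0 → k ≤ Sc ∧ k < 1 + 2 * kc) :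
    ∀ k, 2 ≤ k → k ≤ K → Full G k := by
  intro k
  induction k with
  | zero => intro h; omega
  | succ k ih =>
    intro h1 h3
    rcases Nat.lt_or_ge k 2 with h4 | h4
    · have : k = 1 := by omega
      subst this; exact h2
    · have hF := ih h4 (by omega)
      rcases Nat.mod_two_eq_zero_or_one k with hk | hk
      · obtain ⟨g1, g2⟩ := hKc k h4 (by omega) hk
        refine hF.step (by omega) h4 (pairPerm l 1 kc hc) (hMc.mono g1) ?_ ?_ ?_
        · intro i; ext; simp [pairFun_invol]
        · simp only [pairPerm_val, pairFun]; split_ifs <;> omega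
        · intro i hi; simp only [pairPerm_val, pairFun]; split_ifs <;> omega
      · obtain ⟨g1, g2⟩ := hKa k h4 (by omega) hk
        refine hF.step (by omega) h4 (pairPerm l 0 ka ha) (hMa.mono g1) ?_ ?_ ?_
        · intro i; ext; simp [pairFun_invol]
        · simp only [pairPerm_val, pairFun]; split_ifs <;> omega
        · intro i hi; simp only [pairPerm_val, pairFun]; split_ifs <;> omega

/-- Moves for an element `P * Z` with `Z` supported on far planes. -/
lemma moves_of_mem {m : ℕ} {π : Equiv.Perm (Fin l)} {S : ℕ} {τ : Fin m → VB l}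
    (hτi : Function.Injective τ) {T T' : Matrix (Fin m) (Fin m) ℤ} (hT : T * T' = 1)
    (hg : Mem G (pmat (planeP π) * emb τ T))
    (hτ : ∀ (u v : WP l), (u.1 : ℕ) < S → (v.1 : ℕ) < S → ∀ i j, τ i ≠ sg ![u, v] j) :
    Moves G π S := by
  intro u v huv hu hv hm
  rw [← conj_plane_xB]
  refine Mem.conj_PZ (pmat_planeP_mul_transpose π) (Z' := emb τ T') ?_ hg hm ?_
  · rw [← emb_mul hτi, hT, emb_one]
  · rw [xB_eq, emb_commute (hτ u v hu hv)]

/-- Downward propagation from adjacent planes (used for the group generated by the simple root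
elements). -/
lemma full_of_adjacent (hl : 3 ≤ l)
    (hA : ∀ (i : ℕ) (hi : i + 1 < l), Mem G (xB (⟨i, by omega⟩, true) (⟨i + 1, hi⟩, false) 1) ∧
      Mem G (xB (⟨i, by omega⟩, false) (⟨i + 1, hi⟩, true) 1))
    (hP : Mem G (xB (⟨l - 2, by omega⟩, true) (⟨l - 1, by omega⟩, true) 1))
    (hN : Mem G (xB (⟨l - 2, by omega⟩, false) (⟨l - 1, by omega⟩, false) 1)) :
    Full G l := by
  have key : ∀ m, 2 ≤ m → m ≤ l → ∀ u v : WP l, u.1 ≠ v.1 → l - m ≤ (u.1 : ℕ) →
      l - m ≤ (v.1 : ℕ) → Mem G (xB u v 1) := by
    intro m
    induction m with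
    | zero => intro h; omega
    | succ m ih =>
      intro h1 h2
      rcases Nat.lt_or_ge m 2 with h4 | h4
      · -- the last two planes
        have hm : m = 1 := by omega
        subst hm
        have base : ∀ s t : Bool, Mem G (xB (⟨l - 2, by omega⟩, s) (⟨l - 1, by omega⟩, t) 1) := by
          have h3 := hA (l - 2) (by omega)
          have h5 : l - 2 + 1 = l - 1 := by omega
          simp only [h5] at h3
          intro s t
          cases s <;> cases t
          · exact hN
          · exact h3.2
          · exact h3.1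
          · exact hP
        rintro ⟨i, s⟩ ⟨j, t⟩ hij hi hj
        simp only at hi hj hij
        have hi' : (i : ℕ) = l - 2 ∨ (i : ℕ) = l - 1 := by have := i.2; omega
        have hj' : (j : ℕ) = l - 2 ∨ (j : ℕ) = l - 1 := by have := j.2; omega
        rcases hi' with hi' | hi' <;> rcases hj' with hj' | hj'
        · exact absurd (Fin.ext (hi'.trans hj'.symm)) hij
        · have e1 : i = ⟨l - 2, by omega⟩ := Fin.ext hi'
          have e2 : j = ⟨l - 1, by omega⟩ := Fin.ext hj'
          rw [e1, e2]; exact base s t
        · have e1 : i = ⟨l - 1, by omega⟩ := Fin.ext hi'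
          have e2 : j = ⟨l - 2, by omega⟩ := Fin.ext hj'
          rw [e1, e2]
          refine (base t s).xB_symm ?_
          intro h; have := congrArg Fin.val h; simp only at this; omega
        · exact absurd (Fin.ext (hi'.trans hj'.symm)) hij
      · have hF := ih h4 (by omega)
        -- new plane `p = l - (m+1)`, with `p + 1 = l - m`
        have hp : l - (m + 1) + 1 = l - m := by omega
        have hAp := hA (l - (m + 1)) (by omega)
        simp only [hp] at hAp
        -- from the new plane to planes `> p + 1`
        have h5 : ∀ u v : WP l, (u.1 : ℕ) = l - (m + 1) → l - m < (v.1 : ℕ) →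
            Mem G (xB u v 1) := by
          rintro ⟨i, s⟩ v hu hv
          simp only at hu
          have e1 : i = ⟨l - (m + 1), by omega⟩ := Fin.ext hu
          rw [e1]
          let w : WP l := (⟨l - m, by omega⟩, !s)
          have huw : (⟨l - (m + 1), by omega⟩ : Fin l) ≠ w.1 := by
            intro h; have := congrArg Fin.val h; simp only [w] at this; omega
          have huv : (⟨l - (m + 1), by omega⟩ : Fin l) ≠ v.1 := by
            intro h; have := congrArg Fin.val h; simp only at this; omega
          have hwv : w.1 ≠ v.1 := by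
            intro h; have := congrArg Fin.val h; simp only [w] at this; omega
          refine Mem.xB_trans (u := (⟨l - (m + 1), by omega⟩, s)) huw huv hwv ?_
            (hF (opp w) v hwv (by simp [w]) (by omega))
          cases s
          · exact hAp.2
          · exact hAp.1
        have h6 : ∀ u v : WP l, (u.1 : ℕ) = l - (m + 1) → l - m ≤ (v.1 : ℕ) →
            Mem G (xB u v 1) := by
          intro u v hu hv
          rcases Nat.eq_or_lt_of_le hv with hv | hv
          · let w : WP l := (⟨l - 1, by omega⟩, true)
            have huw : u.1 ≠ w.1 := by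
              intro h; have := congrArg Fin.val h; simp only [w] at this; omega
            have huv : u.1 ≠ v.1 := by
              intro h; have := congrArg Fin.val h; omega
            have hwv : w.1 ≠ v.1 := by
              intro h; have := congrArg Fin.val h; simp only [w] at this; omega
            exact Mem.xB_trans huw huv hwv (h5 u w hu (by simp only [w]; omega))
              (hF (opp w) v hwv (by simp only [opp_fst, w]; omega) (by omega))
          · exact h5 u v hu hv
        intro u v huv hu hv
        rcases Nat.eq_or_lt_of_le hu with hu | hu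
        · refine h6 u v hu.symm ?_
          rcases Nat.eq_or_lt_of_le hv with hv | hv
          · exact absurd (Fin.ext (hu.symm.trans hv)) huv
          · omega
        · rcases Nat.eq_or_lt_of_le hv with hv | hv
          · exact (h6 v u hv.symm (by omega)).xB_symm huv.symm
          · exact hF u v huv (by omega) (by omega)
  intro u v huv _ _
  exact key l (by omega) le_rfl u v huv (by omega) (by omega)

end MP9bf44d
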