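import Pool.Agent.Lib.H68.Fam

/-! # Symplectic root elements -/

namespace MP9bf44d

open Matrix

set_option linter.unusedSectionVars false
set_option linter.unusedSimpArgs false

/-! ## Action of pairs of inverse matrices on windows -/

section Act

variable {m m' m'' N : Type*} [Fintype m] [DecidableEq m] [Fintype m'] [DecidableEq m']
  [Fintype m''] [DecidableEq m''] [Fintype N] [DecidableEq N]

/-- `g` (with inverse `g'`) maps the window `σ` to the window `σ'` via `T` (inverse `T'`). -/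
structure Act (σ : m → N) (σ' : m' → N) (g g' : Matrix N N ℤ) (T : Matrix m' m ℤ)
    (T' : Matrix m m' ℤ) : Prop where
  left : g * pmat σ = pmat σ' * T
  right : (pmat σ)ᵀ * g' = T' * (pmat σ')ᵀ

lemma Act.comp {σ : m → N} {σ' : m' → N} {σ'' : m'' → N} {g g' h h' : Matrix N N ℤ}
    {T : Matrix m' m ℤ} {T' : Matrix m m' ℤ} {U : Matrix m'' m' ℤ} {U' : Matrix m' m'' ℤ}
    (h1 : Act σ σ' g g' T T') (h2 : Act σ' σ'' h h' U U') :
    Act σ σ'' (h * g) (g' * h') (U * T) (T' * U') where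
  left := by rw [Matrix.mul_assoc, h1.left, ← Matrix.mul_assoc, h2.left, Matrix.mul_assoc]
  right := by rw [← Matrix.mul_assoc, h1.right, Matrix.mul_assoc, h2.right, Matrix.mul_assoc]

lemma Act.of_disjoint {k : Type*} [Fintype k] [DecidableEq k] {σ : m → N} {τ : k → N}
    (h : ∀ i j, τ i ≠ σ j) (Z Z' : Matrix k k ℤ) :
    Act σ σ (emb τ Z) (emb τ Z') 1 1 where
  left := by
    unfold emb lift
    rw [Matrix.add_mul, Matrix.one_mul, Matrix.mul_assoc, Matrix.mul_assoc, pmat_disjoint τ σ h]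
    simp
  right := by
    have h2 := pmat_disjoint σ τ (fun i j => (h j i).symm)
    unfold emb lift
    rw [Matrix.mul_add, Matrix.mul_one, ← Matrix.mul_assoc, ← Matrix.mul_assoc, h2]
    simp

lemma Act.one (σ : m → N) : Act σ σ 1 1 1 1 where
  left := by rw [Matrix.one_mul, Matrix.mul_one]
  right := by rw [Matrix.one_mul, Matrix.mul_one]

lemma emb_mul_pmat {σ : m → N} (hσ : Function.Injective σ) (M : Matrix m m ℤ) :
    emb σ M * pmat σ = pmat σ * M := by
  unfold emb lift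
  rw [Matrix.add_mul, Matrix.one_mul, Matrix.mul_assoc, Matrix.mul_assoc,
    pmat_transpose_mul σ hσ, Matrix.mul_one, Matrix.mul_sub, Matrix.mul_one]
  abel

lemma pmat_mul_emb {σ : m → N} (hσ : Function.Injective σ) (M : Matrix m m ℤ) :
    (pmat σ)ᵀ * emb σ M = M * (pmat σ)ᵀ := by
  unfold emb lift
  rw [Matrix.mul_add, Matrix.mul_one, ← Matrix.mul_assoc, ← Matrix.mul_assoc,
    pmat_transpose_mul σ hσ, Matrix.one_mul, Matrix.sub_mul, Matrix.one_mul]
  abel

lemma Act.emb {σ : m → N} (hσ : Function.Injective σ) (M M' : Matrix m m ℤ) :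
    Act σ σ (emb σ M) (emb σ M') M M' where
  left := emb_mul_pmat hσ M
  right := pmat_mul_emb hσ M'

lemma Act.perm {σ : m → N} (e : N ≃ N) :
    Act σ (e ∘ σ) (pmat e) (pmat e)ᵀ 1 1 where
  left := by rw [pmat_comp, Matrix.mul_one]
  right := by rw [← Matrix.transpose_mul, pmat_comp, Matrix.one_mul]

lemma Act.diag {σ : m → N} (s : N → ℤ) :
    Act σ σ (diagonal s) (diagonal s) (diagonal (s ∘ σ)) (diagonal (s ∘ σ)) where
  left := by
    ext i j
    simp only [diagonal_mul, mul_diagonal, pmat, Function.comp]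
    split_ifs with h
    · rw [h]; ring
    · ring
  right := by
    ext i j
    simp only [diagonal_mul, mul_diagonal, pmat, transpose_apply, Function.comp]
    split_ifs with h
    · rw [h]; ring
    · ring

lemma Act.cast {σ σ₂ : m → N} {σ' σ₂' : m' → N} {g g' : Matrix N N ℤ} {T T₂ : Matrix m' m ℤ}
    {T' T₂' : Matrix m m' ℤ} (h : Act σ σ' g g' T T') (h1 : σ = σ₂) (h2 : σ' = σ₂')
    (h3 : T = T₂) (h4 : T' = T₂') : Act σ₂ σ₂' g g' T₂ T₂' := by
  subst h1 h2 h3 h4; exact h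

variable {G : Subgroup (Matrix N N ℤ)ˣ}

/-- Conjugation along an action. -/
lemma Mem.act {σ : m → N} {σ' : m' → N} {g g' : Matrix N N ℤ} {T : Matrix m' m ℤ}
    {T' : Matrix m m' ℤ} (h : Act σ σ' g g' T T') (hgg : g * g' = 1) (hT : T * T' = 1)
    (hg : Mem G g) {A : Matrix m m ℤ} (hA : Mem G (MP9bf44d.emb σ A)) :
    Mem G (MP9bf44d.emb σ' (T * A * T')) := by
  have h2 := (hg.mul hA).mul (Mem.inv hgg hg)
  have h3 : g * MP9bf44d.emb σ A * g' = MP9bf44d.emb σ' (T * A * T') := by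
    unfold MP9bf44d.emb lift
    rw [Matrix.mul_add, Matrix.add_mul, Matrix.mul_one, hgg]
    congr 1
    calc g * (pmat σ * (A - 1) * (pmat σ)ᵀ) * g'
        = (g * pmat σ) * (A - 1) * ((pmat σ)ᵀ * g') := by simp only [Matrix.mul_assoc]
      _ = pmat σ' * (T * (A - 1) * T') * (pmat σ')ᵀ := by
          rw [h.left, h.right]; simp only [Matrix.mul_assoc]
      _ = _ := by rw [Matrix.mul_sub, Matrix.sub_mul, Matrix.mul_one, hT]
  rwa [h3] at h2

end Act

variable {l : ℕ}

/-- sign attached to a vector -/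
def eps (u : WP l) : ℤ := if u.2 then -1 else 1

/-- short root element for the root `u + v` -/
def xC (u v : WP l) (t : ℤ) : Matrix (WP l) (WP l) ℤ :=
  1 + single v (opp u) (eps u * t) + single u (opp v) (eps v * t)

/-- long root element for the root `2 u` -/
def xL (u : WP l) (t : ℤ) : Matrix (WP l) (WP l) ℤ := 1 + single u (opp u) t

/-- window of the planes `ps` -/
def sgC {r : ℕ} (ps : Fin r → Fin l) (k : Fin (2 * r)) : WP l :=
  (ps ⟨k / 2, by omega⟩, decide ((k : ℕ) % 2 = 0))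

lemma sgC_injective {r : ℕ} {ps : Fin r → Fin l} (h : Function.Injective ps) :
    Function.Injective (sgC ps) := by
  intro k k' hk
  simp only [sgC, Prod.mk.injEq] at hk
  have h2 := h hk.1
  have h3 : (k : ℕ) / 2 = k' / 2 := by simpa using h2
  have h4 := hk.2
  rw [decide_eq_decide] at h4
  ext; omega

lemma opp_sgC {r : ℕ} (ps : Fin r → Fin l) (x : ℕ) (hx : x < 2 * r) :
    opp (sgC ps ⟨x, hx⟩) = sgC ps ⟨xr x, xr_lt hx⟩ := by
  simp only [sgC, opp, xr]
  by_cases h : x % 2 = 0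
  · have h1 : ¬ (x + 1) % 2 = 0 := by omega
    have h2 : (x + 1) / 2 = x / 2 := by omega
    simp only [h, h1, h2, if_true, decide_true, decide_false, Bool.not_true]
  · have h1 : (x - 1) % 2 = 0 := by omega
    have h2 : (x - 1) / 2 = x / 2 := by omega
    simp only [h, h1, h2, if_false, decide_true, decide_false, Bool.not_false]

/-- local sign -/
def epsN (x : ℕ) : ℤ := if x % 2 = 0 then -1 else 1

lemma eps_sgC {r : ℕ} (ps : Fin r → Fin l) (x : ℕ) (hx : x < 2 * r) :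
    eps (sgC ps ⟨x, hx⟩) = epsN x := by
  simp only [sgC, eps, epsN, decide_eq_true_eq]

/-- list form of short root elements -/
def rlC (n x y : ℕ) (t : ℤ) : LM := rootL n y (xr x) (epsN x * t) x (xr y) (epsN y * t)

/-- list form of long root elements -/
def llC (n x : ℕ) (t : ℤ) : LM := rootL n x (xr x) t x (xr x) 0

lemma xC_eq_emb {r : ℕ} (ps : Fin r → Fin l) (x y : ℕ) (hx : x < 2 * r) (hy : y < 2 * r) (t : ℤ) :
    emb (sgC ps) (toMat (2 * r) (rlC (2 * r) x y t)) = xC (sgC ps ⟨x, hx⟩) (sgC ps ⟨y, hy⟩) t := by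
  have := emb_rootL (sgC ps) ⟨y, hy⟩ ⟨xr x, xr_lt hx⟩ (epsN x * t) ⟨x, hx⟩ ⟨xr y, xr_lt hy⟩
    (epsN y * t)
  unfold xC
  rw [opp_sgC, opp_sgC, eps_sgC, eps_sgC]
  exact this

lemma xL_eq_emb {r : ℕ} (ps : Fin r → Fin l) (x : ℕ) (hx : x < 2 * r) (t : ℤ) :
    emb (sgC ps) (toMat (2 * r) (llC (2 * r) x t)) = xL (sgC ps ⟨x, hx⟩) t := by
  have := emb_rootL (sgC ps) ⟨x, hx⟩ ⟨xr x, xr_lt hx⟩ t ⟨x, hx⟩ ⟨xr x, xr_lt hx⟩ 0
  unfold xL
  rw [opp_sgC]
  rw [single_zero, add_zero] at this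
  exact this

lemma xC_symm (u v : WP l) (t : ℤ) : xC u v t = xC v u t := by
  unfold xC; abel

variable {G : Subgroup (Matrix (WP l) (WP l) ℤ)ˣ}

/-- code of a generator -/
def genC (n : ℕ) : ℕ × Option ℕ → LM × LM
  | (x, some y) => (rlC n x y 1, rlC n x y (-1))
  | (x, none) => (llC n x 1, llC n x (-1))

/-- membership of a generator -/
def GenMem (G : Subgroup (Matrix (WP l) (WP l) ℤ)ˣ) {r : ℕ} (ps : Fin r → Fin l)
    (c : ℕ × Option ℕ) : Prop :=
  match c with
  | (x, some y) => ∃ (hx : x < 2 * r) (hy : y < 2 * r),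
      Mem G (xC (sgC ps ⟨x, hx⟩) (sgC ps ⟨y, hy⟩) 1)
  | (x, none) => ∃ hx : x < 2 * r, Mem G (xL (sgC ps ⟨x, hx⟩) 1)

lemma GenMem.mem {r : ℕ} {ps : Fin r → Fin l} {c : ℕ × Option ℕ} (h : GenMem G ps c) :
    Mem G (emb (sgC ps) (toMat (2 * r) (genC (2 * r) c).1)) := by
  rcases c with ⟨x, _ | y⟩
  · obtain ⟨hx, h⟩ := h
    rw [← xL_eq_emb] at h
    exact h
  · obtain ⟨hx, hy, h⟩ := h
    rw [← xC_eq_emb] at h
    exact h

/-- A word in root elements of a window. -/
theorem mem_wordC {r : ℕ} {ps : Fin r → Fin l} (hps : Function.Injective ps)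
    (codes : List (ℕ × Option ℕ)) (hm : ∀ c ∈ codes, GenMem G ps c)
    (w : List (ℕ × Bool)) {M M' : LM}
    (hg : checkGens (2 * r) (codes.map (genC (2 * r))) = true)
    (h : checkStep (2 * r) [] (codes.map (genC (2 * r))) ⟨none, w, M, M'⟩ = true) :
    Mem G (emb (sgC ps) (toMat (2 * r) M)) := by
  refine Mem.word (sgC_injective hps) hg ?_ w h
  intro p hp
  obtain ⟨c, hc1, rfl⟩ := List.mem_map.mp hp
  exact (hm c hc1).mem

end MP9bf44d
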