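import Pool.Agent.Lib.H68.C1

/-! # Linear root elements in the symplectic group -/

namespace MP9bf44d

open Matrix

set_option linter.unusedSectionVars false
set_option linter.unusedSimpArgs false

variable {l : ℕ} {G : Subgroup (Matrix (WP l) (WP l) ℤ)ˣ}

/-- the root element of `e_i - e_j` is in `G` -/
def GLm (G : Subgroup (Matrix (WP l) (WP l) ℤ)ˣ) (i j : Fin l) : Prop :=
  Mem G (xC (i, true) (j, false) 1)

lemma vec2_inj {i j : Fin l} (h : i ≠ j) : Function.Injective (![i, j] : Fin 2 → Fin l) := by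
  intro a b hab
  fin_cases a <;> fin_cases b <;> simp_all [h.symm]

lemma vec3_inj {i j k : Fin l} (h : i ≠ j) (h' : i ≠ k) (h'' : j ≠ k) :
    Function.Injective (![i, j, k] : Fin 3 → Fin l) := by
  intro a b hab
  fin_cases a <;> fin_cases b <;> simp_all [h.symm, h'.symm, h''.symm]

/-- sign change for the local form -/
lemma GLm_of_neg {i j : Fin l} (h : i ≠ j)
    (hm : Mem G (emb (sgC ![i, j]) (toMat 4 (rlC 4 0 3 (-1))))) : GLm G i j := by
  have hσ := sgC_injective (vec2_inj h)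
  have h1 : Mem G (emb (sgC ![i, j]) (toMat 4 (rlC 4 0 3 1))) := by
    refine Mem.inv ?_ hm
    rw [← emb_mul hσ, ← mulL_toMat (by decide +kernel) (by decide +kernel)]
    have : mulL 4 (rlC 4 0 3 (-1)) (rlC 4 0 3 1) = oneL 4 := by decide +kernel
    rw [this, oneL_toMat, emb_one]
  have h2 := xC_eq_emb ![i, j] 0 3 (by norm_num) (by norm_num) 1
  change Mem G (xC (sgC ![i, j] ⟨0, by norm_num⟩) (sgC ![i, j] ⟨3, by norm_num⟩) 1)
  rw [← h2]
  exact h1

lemma GLm_iff {i j : Fin l} :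
    GLm G i j ↔ Mem G (emb (sgC ![i, j]) (toMat 4 (rlC 4 0 3 1))) := by
  have h2 := xC_eq_emb ![i, j] 0 3 (by norm_num) (by norm_num) 1
  change Mem G (xC (sgC ![i, j] ⟨0, by norm_num⟩) (sgC ![i, j] ⟨3, by norm_num⟩) 1) ↔ _
  rw [← h2]

/-- general window membership of `e_i - e_j`: codes `2 a`, `2 b + 1` -/
lemma GLm.gen {r : ℕ} {ps : Fin r → Fin l} {a b : ℕ} (ha : a < r) (hb : b < r)
    {i j : Fin l} (h : GLm G i j) (ei : ps ⟨a, ha⟩ = i)
    (ej : ps ⟨b, hb⟩ = j) : GenMem G ps (2 * a, some (2 * b + 1)) := by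
  refine ⟨by omega, by omega, ?_⟩
  have e1 : sgC ps ⟨2 * a, by omega⟩ = (ps ⟨a, ha⟩, true) := by
    simp only [sgC, Prod.mk.injEq]
    refine ⟨?_, by simp⟩
    congr 1; ext; simp
  have e2 : sgC ps ⟨2 * b + 1, by omega⟩ = (ps ⟨b, hb⟩, false) := by
    simp only [sgC, Prod.mk.injEq]
    refine ⟨?_, ?_⟩
    · congr 1; ext; simp only; omega
    · rw [decide_eq_false_iff_not]; omega
  rw [e1, e2, ei, ej]
  exact h

lemma GLm.trans {i j k : Fin l} (hij : i ≠ j) (hik : i ≠ k) (hjk : j ≠ k)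
    (h1 : GLm G i j) (h2 : GLm G j k) : GLm G i k := by
  have h3 : Mem G (emb (sgC ![i, j, k]) (toMat 6 (rlC 6 0 5 1))) := by
    refine mem_wordC (vec3_inj hij hik hjk) [(0, some 3), (2, some 5)] ?_
      [(0, true), (1, true), (0, false), (1, false)] (M := rlC 6 0 5 1) (M' := rlC 6 0 5 (-1))
      (by decide +kernel) (by decide +kernel)
    intro c hc
    simp only [List.mem_cons, List.not_mem_nil, or_false] at hc
    rcases hc with rfl | rfl
    · exact GLm.gen (a := 0) (b := 1) (by norm_num) (by norm_num) (h := h1) rfl rfl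
    · exact GLm.gen (a := 1) (b := 2) (by norm_num) (by norm_num) (h := h2) rfl rfl
  have h4 := xC_eq_emb ![i, j, k] 0 5 (by norm_num) (by norm_num) 1
  change Mem G (xC (sgC ![i, j, k] ⟨0, by norm_num⟩) (sgC ![i, j, k] ⟨5, by norm_num⟩) 1)
  rw [← h4]
  exact h3

/-- all `e_i - e_j`, `i, j < K` -/
def FullGL (G : Subgroup (Matrix (WP l) (WP l) ℤ)ˣ) (K : ℕ) : Prop :=
  ∀ i j : Fin l, i ≠ j → (i : ℕ) < K → (j : ℕ) < K → GLm G i j

def MovesC (G : Subgroup (Matrix (WP l) (WP l) ℤ)ˣ) (π : Equiv.Perm (Fin l)) (lo hi : ℕ) : Prop :=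
  ∀ i j : Fin l, i ≠ j → lo ≤ (i : ℕ) → (i : ℕ) < hi → lo ≤ (j : ℕ) → (j : ℕ) < hi →
    GLm G i j → GLm G (π i) (π j)

lemma FullGL.step {k lo hi : ℕ} (hk : k < l) (h3 : 3 ≤ k) (hlo : lo ≤ 1) (hhi : k ≤ hi)
    (hF : FullGL G k) (π : Equiv.Perm (Fin l)) (hm : MovesC G π lo hi) (hinv : ∀ i, π (π i) = i)
    (hk1 : ((π ⟨k - 1, by omega⟩ : Fin l) : ℕ) = k)
    (hlt : ∀ i : Fin l, lo ≤ (i : ℕ) → (i : ℕ) < k - 1 →
      lo ≤ ((π i : Fin l) : ℕ) ∧ ((π i : Fin l) : ℕ) < k - 1) : FullGL G (k + 1) := by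
  have hπk : π ⟨k, hk⟩ = ⟨k - 1, by omega⟩ := by
    have : π ⟨k - 1, by omega⟩ = ⟨k, hk⟩ := Fin.ext hk1
    rw [← this, hinv]
  have hk' : π ⟨k - 1, by omega⟩ = ⟨k, hk⟩ := Fin.ext hk1
  have h1 : ∀ i : Fin l, lo ≤ (i : ℕ) → (i : ℕ) < k - 1 →
      GLm G i ⟨k, hk⟩ ∧ GLm G ⟨k, hk⟩ i := by
    intro i hi1 hi2
    obtain ⟨g1, g2⟩ := hlt i hi1 hi2
    have hne : π i ≠ ⟨k - 1, by omega⟩ := by
      intro h; have := congrArg Fin.val h; simp only at this; omega
    constructor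
    · have := hm (π i) ⟨k - 1, by omega⟩ hne g1 (by omega) (by simp only; omega)
        (by simp only; omega) (hF _ _ hne (by omega) (by simp only; omega))
      rw [hinv, hk'] at this
      exact this
    · have := hm ⟨k - 1, by omega⟩ (π i) hne.symm (by simp only; omega) (by simp only; omega) g1
        (by omega) (hF _ _ hne.symm (by simp only; omega) (by omega))
      rw [hinv, hk'] at this
      exact this
  have h2 : ∀ i : Fin l, (i : ℕ) < k → GLm G i ⟨k, hk⟩ ∧ GLm G ⟨k, hk⟩ i := by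
    intro i hi
    by_cases hd : lo ≤ (i : ℕ) ∧ (i : ℕ) < k - 1
    · exact h1 i hd.1 hd.2
    · have hiw : i ≠ (⟨1, by omega⟩ : Fin l) := by
        intro h; have := congrArg Fin.val h; simp only at this; omega
      have hwk : (⟨1, by omega⟩ : Fin l) ≠ ⟨k, hk⟩ := by
        intro h; have := congrArg Fin.val h; simp only at this; omega
      have hik : i ≠ ⟨k, hk⟩ := by
        intro h; have := congrArg Fin.val h; simp only at this; omega
      obtain ⟨g1, g2⟩ := h1 ⟨1, by omega⟩ (by simp only; omega) (by simp only; omega)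
      exact ⟨(hF i _ hiw hi (by simp only; omega)).trans hiw hik hwk g1,
        g2.trans hwk.symm hik.symm hiw.symm (hF _ i hiw.symm (by simp only; omega) hi)⟩
  intro i j hij hi hj
  rcases Nat.lt_succ_iff_lt_or_eq.mp hi with hi | hi
  · rcases Nat.lt_succ_iff_lt_or_eq.mp hj with hj | hj
    · exact hF i j hij hi hj
    · have : j = ⟨k, hk⟩ := Fin.ext hj
      rw [this]; exact (h2 i hi).1
  · have hi' : i = ⟨k, hk⟩ := Fin.ext hi
    rw [hi']
    rcases Nat.lt_succ_iff_lt_or_eq.mp hj with hj | hj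
    · exact (h2 j hj).2
    · exact absurd (Fin.ext (hi.trans hj.symm)) hij

/-- propagation -/
lemma FullGL.propagate {ka kc Sa Sc K : ℕ} (ha : 0 + 2 * ka ≤ l) (hc : 1 + 2 * kc ≤ l)
    (hMa : MovesC G (pairPerm l 0 ka ha) 0 Sa) (hMc : MovesC G (pairPerm l 1 kc hc) 1 Sc)
    (hK : K ≤ l) (h3 : FullGL G 3)
    (hKa : ∀ k, 3 ≤ k → k < K → k % 2 = 1 → k ≤ Sa ∧ k < 2 * ka)
    (hKc : ∀ k, 3 ≤ k → k < K → k % 2 = 0 → k ≤ Sc ∧ k < 1 + 2 * kc) :
    ∀ k, 3 ≤ k → k ≤ K → FullGL G k := by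
  intro k
  induction k with
  | zero => intro h; omega
  | succ k ih =>
    intro h1 h2
    rcases Nat.lt_or_ge k 3 with h4 | h4
    · have : k = 2 := by omega
      subst this; exact h3
    · have hF := ih h4 (by omega)
      rcases Nat.mod_two_eq_zero_or_one k with hk | hk
      · obtain ⟨g1, g2⟩ := hKc k h4 (by omega) hk
        refine hF.step (by omega) h4 le_rfl g1 (pairPerm l 1 kc hc) hMc ?_ ?_ ?_
        · intro i; ext; simp [pairFun_invol]
        · simp only [pairPerm_val, pairFun]; split_ifs <;> omega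
        · intro i hi1 hi2; simp only [pairPerm_val, pairFun]; split_ifs <;> omega
      · obtain ⟨g1, g2⟩ := hKa k h4 (by omega) hk
        refine hF.step (by omega) h4 (by norm_num) g1 (pairPerm l 0 ka ha) hMa ?_ ?_ ?_
        · intro i; ext; simp [pairFun_invol]
        · simp only [pairPerm_val, pairFun]; split_ifs <;> omega
        · intro i hi1 hi2; simp only [pairPerm_val, pairFun]; split_ifs <;> omega

/-! ## plane permutations -/

/-- plane permutation on vectors -/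
def planeW (π : Equiv.Perm (Fin l)) : Equiv.Perm (WP l) := Equiv.prodCongr π (Equiv.refl Bool)

@[simp] lemma planeW_apply (π : Equiv.Perm (Fin l)) (u : WP l) : planeW π u = (π u.1, u.2) := rfl

lemma planeW_sgC {r : ℕ} (π : Equiv.Perm (Fin l)) (ps : Fin r → Fin l) :
    planeW π ∘ sgC ps = sgC (π ∘ ps) := by
  funext k; rfl

lemma pmat_planeW_mul (π π' : Equiv.Perm (Fin l)) :
    pmat (planeW π) * pmat (planeW π') = pmat (planeW (π * π')) := by
  rw [pmat_comp]
  congr 1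

lemma pmat_planeW_one : pmat (planeW (1 : Equiv.Perm (Fin l))) = 1 := by
  ext i j
  have : planeW (1 : Equiv.Perm (Fin l)) j = j := rfl
  simp [pmat, Matrix.one_apply, this]

/-- the signs of the signed pair permutation -/
def sgn (s k : ℕ) (u : WP l) : ℤ :=
  if s ≤ (u.1 : ℕ) ∧ (u.1 : ℕ) < s + 2 * k ∧ ((u.1 : ℕ) - s) % 2 = 0 then -1 else 1

/-- the signed pair permutation `e_i → -e_{i+1} → -e_i` -/
def PD (l s k : ℕ) (h : s + 2 * k ≤ l) : Matrix (WP l) (WP l) ℤ :=
  pmat (planeW (pairPerm l s k h)) * diagonal (sgn s k)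

/-- its inverse -/
def PD' (l s k : ℕ) (h : s + 2 * k ≤ l) : Matrix (WP l) (WP l) ℤ :=
  diagonal (sgn s k) * (pmat (planeW (pairPerm l s k h)))ᵀ

lemma diag_sgn_sq (s k : ℕ) : (diagonal (sgn s k) : Matrix (WP l) (WP l) ℤ) * diagonal (sgn s k) = 1
    := by
  rw [diagonal_mul_diagonal, ← diagonal_one]
  congr 1
  funext u
  simp only [sgn]
  split_ifs <;> norm_num

lemma PD_mul_PD' {s k : ℕ} (h : s + 2 * k ≤ l) : PD l s k h * PD' l s k h = 1 := by
  unfold PD PD'
  calc _ = pmat (planeW (pairPerm l s k h)) * (diagonal (sgn s k) * diagonal (sgn s k)) *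
        (pmat (planeW (pairPerm l s k h)))ᵀ := by simp only [Matrix.mul_assoc]
    _ = 1 := by rw [diag_sgn_sq, Matrix.mul_one, pmat_equiv_mul_transpose]

lemma act_PD {m : Type*} [Fintype m] [DecidableEq m] {s k : ℕ} (h : s + 2 * k ≤ l) (σ : m → WP l) :
    Act σ (planeW (pairPerm l s k h) ∘ σ) (PD l s k h) (PD' l s k h)
      (diagonal (sgn s k ∘ σ)) (diagonal (sgn s k ∘ σ)) := by
  have h1 := (Act.diag (σ := σ) (sgn (l := l) s k)).comp
    (Act.perm (σ := σ) (planeW (pairPerm l s k h)))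
  refine h1.cast rfl rfl ?_ ?_
  · rw [Matrix.one_mul]
  · rw [Matrix.mul_one]

end MP9bf44d
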