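import Pool.Agent.Lib.H68.C2

/-! # Membership of local elements (type C) -/

namespace MP9bf44d

open Matrix

set_option linter.unusedSectionVars false
set_option linter.unusedSimpArgs false

variable {l : ℕ} {G : Subgroup (Matrix (WP l) (WP l) ℤ)ˣ}

/-- all root elements -/
structure FullC (G : Subgroup (Matrix (WP l) (WP l) ℤ)ˣ) : Prop where
  sh : ∀ u v : WP l, u.1 ≠ v.1 → Mem G (xC u v 1)
  lo : ∀ u : WP l, Mem G (xL u 1)

/-- validity of codes -/
def okC (r : ℕ) (c : ℕ × Option ℕ) : Bool :=
  match c with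
  | (x, some y) => decide (x < 2 * r) && decide (y < 2 * r) && decide (x / 2 ≠ y / 2)
  | (x, none) => decide (x < 2 * r)

lemma FullC.gen (hF : FullC G) {r : ℕ} {ps : Fin r → Fin l} (hps : Function.Injective ps)
    {c : ℕ × Option ℕ} (hc : okC r c = true) : GenMem G ps c := by
  rcases c with ⟨x, _ | y⟩
  · simp only [okC, decide_eq_true_eq] at hc
    exact ⟨hc, hF.lo _⟩
  · simp only [okC, Bool.and_eq_true, decide_eq_true_eq] at hc
    obtain ⟨⟨hx, hy⟩, hxy⟩ := hc
    refine ⟨hx, hy, hF.sh _ _ ?_⟩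
    intro h
    simp only [sgC] at h
    have := hps h
    simp only [Fin.mk.injEq] at this
    exact hxy this

/-- A word in root elements. -/
theorem FullC.word (hF : FullC G) {r : ℕ} {ps : Fin r → Fin l} (hps : Function.Injective ps)
    (codes : List (ℕ × Option ℕ)) (w : List (ℕ × Bool)) {M M' : LM}
    (hc : codes.all (okC r) = true)
    (hg : checkGens (2 * r) (codes.map (genC (2 * r))) = true)
    (h : checkStep (2 * r) [] (codes.map (genC (2 * r))) ⟨none, w, M, M'⟩ = true) :
    Mem G (emb (sgC ps) (toMat (2 * r) M)) := by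
  refine mem_wordC hps codes ?_ w hg h
  intro c h1
  rw [List.all_eq_true] at hc
  exact hF.gen hps (hc c h1)

/-- plain swap of two planes -/
def swL : LM := [[0,0,1,0],[0,0,0,1],[1,0,0,0],[0,1,0,0]]
/-- signed swap of two planes -/
def sigL : LM := [[0,0,1,0],[0,0,0,1],[-1,0,0,0],[0,-1,0,0]]
def J1L : LM := [[1,-1],[2,-1]]
def J1L' : LM := [[-1,1],[-2,1]]
def J0L : LM := [[0,1],[-1,0]]
def J0L' : LM := [[0,-1],[1,0]]
def t1L : LM := [[0,0,0,-1],[-1,0,1,0],[0,-1,0,-1],[1,0,0,0]]
def t1L' : LM := [[0,0,0,1],[1,0,-1,0],[0,1,0,1],[-1,0,0,0]]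
def bC8 : LM := [[-1,0,0,0,1,0,0,0],[0,-1,0,0,0,0,0,0],[0,0,-1,0,0,0,1,0],[0,0,0,-1,0,0,0,0],
  [0,0,0,0,1,0,0,0],[0,1,0,0,0,1,0,0],[0,0,0,0,0,0,1,0],[0,0,0,1,0,0,0,1]]

theorem FullC.sw (hF : FullC G) {ps : Fin 2 → Fin l} (hps : Function.Injective ps) :
    Mem G (emb (sgC ps) (toMat 4 swL)) :=
  hF.word (r := 2) hps [(0, some 2), (1, some 3), (0, none), (1, none), (2, none), (3, none)]
    [(0, false), (1, false), (0, false), (2, false), (3, true), (2, false), (4, false),
    (5, true), (4, false)] (M' := swL) (by decide +kernel) (by decide +kernel) (by decide +kernel)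

theorem FullC.J1 (hF : FullC G) {ps : Fin 1 → Fin l} (hps : Function.Injective ps) :
    Mem G (emb (sgC ps) (toMat 2 J1L)) :=
  hF.word (r := 1) hps [(0, none), (1, none)]
    [(0, false), (1, true), (0, false), (0, false), (1, false)] (M' := J1L')
    (by decide +kernel) (by decide +kernel) (by decide +kernel)

theorem FullC.J0 (hF : FullC G) {ps : Fin 1 → Fin l} (hps : Function.Injective ps) :
    Mem G (emb (sgC ps) (toMat 2 J0L)) :=
  hF.word (r := 1) hps [(0, none), (1, none)]
    [(0, true), (1, false), (0, true)] (M' := J0L')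
    (by decide +kernel) (by decide +kernel) (by decide +kernel)

theorem FullC.t1 (hF : FullC G) {ps : Fin 2 → Fin l} (hps : Function.Injective ps) :
    Mem G (emb (sgC ps) (toMat 4 t1L)) :=
  hF.word (r := 2) hps [(0, some 2), (1, some 3), (1, some 2)]
    [(0, true), (1, true), (0, true), (2, false)] (M' := t1L')
    (by decide +kernel) (by decide +kernel) (by decide +kernel)

theorem FullC.b (hF : FullC G) {ps : Fin 8 → Fin l} (hps : Function.Injective ps) :
    Mem G (emb (sgC ps) (toMat 16 (extL 16 0 8 bC8))) :=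
  hF.word (r := 8) hps [(0, some 2), (1, some 3), (2, some 7), (0, some 5)]
    [(0, false), (1, false), (0, false), (0, false), (1, false), (0, false), (2, false),
    (3, false)] (M' := extL 16 0 8 bC8)
    (by decide +kernel) (by decide +kernel) (by decide +kernel)

/-- signed swaps from linear root elements -/
theorem GLm.sig {i j : Fin l} (h : i ≠ j) (h1 : GLm G i j) (h2 : GLm G j i) :
    Mem G (emb (sgC ![i, j]) (toMat 4 sigL)) := by
  refine mem_wordC (r := 2) (vec2_inj h) [(0, some 3), (2, some 1)] ?_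
    [(0, true), (1, false), (0, true)] (M' := [[0,0,-1,0],[0,0,0,-1],[1,0,0,0],[0,1,0,0]])
    (by decide +kernel) (by decide +kernel)
  intro c hc
  simp only [List.mem_cons, List.not_mem_nil, or_false] at hc
  rcases hc with rfl | rfl
  · exact GLm.gen (a := 0) (b := 1) (by norm_num) (by norm_num) (h := h1) rfl rfl
  · exact GLm.gen (a := 1) (b := 0) (by norm_num) (by norm_num) (h := h2) rfl rfl

/-- linear root elements from adjacent ones -/
lemma fullGL_of_adjacent
    (hA : ∀ (i : ℕ) (hi : i + 1 < l), GLm G ⟨i, by omega⟩ ⟨i + 1, hi⟩ ∧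
      GLm G ⟨i + 1, hi⟩ ⟨i, by omega⟩) : FullGL G l := by
  have key : ∀ d i : ℕ, ∀ hi : i + (d + 1) < l, GLm G ⟨i, by omega⟩ ⟨i + (d + 1), hi⟩ ∧
      GLm G ⟨i + (d + 1), hi⟩ ⟨i, by omega⟩ := by
    intro d
    induction d with
    | zero => intro i hi; exact hA i hi
    | succ d ih =>
      intro i hi
      obtain ⟨g1, g2⟩ := ih i (by omega)
      obtain ⟨g3, g4⟩ := hA (i + (d + 1)) (by omega)
      have n1 : (⟨i, by omega⟩ : Fin l) ≠ ⟨i + (d + 1), by omega⟩ := by
        intro h; have := congrArg Fin.val h; simp only at this; omega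
      have n2 : (⟨i, by omega⟩ : Fin l) ≠ ⟨i + (d + 1 + 1), hi⟩ := by
        intro h; have := congrArg Fin.val h; simp only at this; omega
      have n3 : (⟨i + (d + 1), by omega⟩ : Fin l) ≠ ⟨i + (d + 1 + 1), hi⟩ := by
        intro h; have := congrArg Fin.val h; simp only at this; omega
      exact ⟨g1.trans n1 n2 n3 g3, g4.trans n3.symm n2.symm n1.symm g2⟩
  intro i j hij _ _
  rcases Nat.lt_or_gt_of_ne (fun h => hij (Fin.ext h) : (i : ℕ) ≠ j) with h | h
  · have := (key ((j : ℕ) - i - 1) i (by omega)).1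
    have e : (⟨(i : ℕ) + ((j : ℕ) - i - 1 + 1), by omega⟩ : Fin l) = j := by ext; simp only; omega
    rw [e] at this
    exact this
  · have := (key ((i : ℕ) - j - 1) j (by omega)).2
    have e : (⟨(j : ℕ) + ((i : ℕ) - j - 1 + 1), by omega⟩ : Fin l) = i := by ext; simp only; omega
    rw [e] at this
    exact this

lemma sgC2_0 (i j : Fin l) (h : 0 < 2 * 2) : sgC (r := 2) ![i, j] ⟨0, h⟩ = (i, true) := by
  simp [sgC]
lemma sgC2_1 (i j : Fin l) (h : 1 < 2 * 2) : sgC (r := 2) ![i, j] ⟨1, h⟩ = (i, false) := by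
  simp [sgC]
lemma sgC2_2 (i j : Fin l) (h : 2 < 2 * 2) : sgC (r := 2) ![i, j] ⟨2, h⟩ = (j, true) := by
  simp [sgC]
lemma sgC2_3 (i j : Fin l) (h : 3 < 2 * 2) : sgC (r := 2) ![i, j] ⟨3, h⟩ = (j, false) := by
  simp [sgC]

lemma forall_memL {α : Type*} {p : α → Prop} {a b c : α} (ha : p a) (hb : p b) (hc : p c) :
    ∀ x ∈ [a, b, c], p x := by
  intro x hx
  simp only [List.mem_cons, List.not_mem_nil, or_false] at hx
  rcases hx with rfl | rfl | rfl <;> assumption

/-- everything from linear root elements and the long root elements of one plane -/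
theorem fullC_of (hF : FullGL G l) (q : Fin l) (h1 : Mem G (xL (q, true) 1))
    (h2 : Mem G (xL (q, false) 1)) : FullC G := by
  have lt : ∀ i : Fin l, Mem G (xL (i, true) 1) ∧ Mem G (xL (i, false) 1) := by
    intro i
    by_cases hi : i = q
    · rw [hi]; exact ⟨h1, h2⟩
    · have g1 := hF i q hi i.2 q.2
      have g2 := hF q i (Ne.symm hi) q.2 i.2
      constructor
      · have := mem_wordC (r := 2) (vec2_inj hi) [(0, some 3), (2, some 1), (2, none)]
          (forall_memL (GLm.gen (a := 0) (b := 1) (by norm_num) (by norm_num) (h := g1) rfl rfl)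
            (GLm.gen (a := 1) (b := 0) (by norm_num) (by norm_num) (h := g2) rfl rfl) ⟨by norm_num, by rw [sgC2_2]; exact h1⟩)
          [(1, true), (0, false), (2, true), (0, true), (1, false)] (M := llC 4 0 1)
          (M' := llC 4 0 (-1)) (by decide +kernel) (by decide +kernel)
        rw [← sgC2_0 i q (by norm_num), ← xL_eq_emb]
        exact this
      · have := mem_wordC (r := 2) (vec2_inj hi) [(0, some 3), (2, some 1), (3, none)]
          (forall_memL (GLm.gen (a := 0) (b := 1) (by norm_num) (by norm_num) (h := g1) rfl rfl)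
            (GLm.gen (a := 1) (b := 0) (by norm_num) (by norm_num) (h := g2) rfl rfl) ⟨by norm_num, by rw [sgC2_3]; exact h2⟩)
          [(0, true), (1, false), (2, true), (1, true), (0, false)] (M := llC 4 1 1)
          (M' := llC 4 1 (-1)) (by decide +kernel) (by decide +kernel)
        rw [← sgC2_1 i q (by norm_num), ← xL_eq_emb]
        exact this
  refine ⟨?_, ?_⟩
  · rintro ⟨i, s⟩ ⟨j, t⟩ hij
    simp only at hij
    have g1 := hF i j hij i.2 j.2
    have g2 := hF j i (Ne.symm hij) j.2 i.2
    cases s <;> cases t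
    · -- f_i, f_j
      have := mem_wordC (r := 2) (vec2_inj hij) [(2, some 1), (3, none), (1, none)]
          (forall_memL (GLm.gen (a := 1) (b := 0) (by norm_num) (by norm_num) (h := g2) rfl rfl)
            ⟨by norm_num, by rw [sgC2_3]; exact (lt j).2⟩
            ⟨by norm_num, by rw [sgC2_1]; exact (lt i).2⟩)
          [(0, true), (1, false), (0, false), (1, true), (2, true)] (M := rlC 4 1 3 1)
          (M' := rlC 4 1 3 (-1)) (by decide +kernel) (by decide +kernel)
      rw [← sgC2_1 i j (by norm_num), ← sgC2_3 i j (by norm_num), ← xC_eq_emb]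
      exact this
    · rw [xC_symm]; exact g2
    · exact g1
    · have := mem_wordC (r := 2) (vec2_inj hij) [(0, some 3), (2, none), (0, none)]
          (forall_memL (GLm.gen (a := 0) (b := 1) (by norm_num) (by norm_num) (h := g1) rfl rfl)
            ⟨by norm_num, by rw [sgC2_2]; exact (lt j).1⟩
            ⟨by norm_num, by rw [sgC2_0]; exact (lt i).1⟩)
          [(0, true), (1, false), (0, false), (1, true), (2, true)] (M := rlC 4 0 2 1)
          (M' := rlC 4 0 2 (-1)) (by decide +kernel) (by decide +kernel)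
      rw [← sgC2_0 i j (by norm_num), ← sgC2_2 i j (by norm_num), ← xC_eq_emb]
      exact this
  · rintro ⟨i, s⟩
    cases s
    · exact (lt i).2
    · exact (lt i).1

end MP9bf44d
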