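import Pool.Agent.Lib.H68.C3

/-! # Signed permutations (type C) -/

namespace MP9bf44d

open Matrix

set_option linter.unusedSectionVars false
set_option linter.unusedSimpArgs false

variable {l : ℕ} {G : Subgroup (Matrix (WP l) (WP l) ℤ)ˣ}

/-- `r` consecutive planes -/
def segC (l s r : ℕ) (h : s + r ≤ l) : Fin r → Fin l := fun j => ⟨s + j, by omega⟩

lemma segC_inj {s r : ℕ} (h : s + r ≤ l) : Function.Injective (segC l s r h) := by
  intro i j hij
  simp only [segC, Fin.mk.injEq] at hij
  ext; omega

lemma segC_two {s : ℕ} (h : s + 2 ≤ l) :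
    segC l s 2 h = ![⟨s, by omega⟩, ⟨s + 1, by omega⟩] := by
  funext j
  fin_cases j
  · rfl
  · rfl

lemma planeW_segC {s r k s' : ℕ} (h : s + r ≤ l) (hk : s' + 2 * k ≤ r)
    {π : Equiv.Perm (Fin l)} (hπ : ∀ i : Fin l, s ≤ (i : ℕ) → (i : ℕ) < s + r →
      ((π i : Fin l) : ℕ) = s + pairFun s' k ((i : ℕ) - s)) :
    planeW π ∘ sgC (segC l s r h) = sgC (segC l s r h) ∘ locN r s' k hk := by
  funext i
  simp only [Function.comp, sgC, planeW_apply, segC, locN, Equiv.coe_fn_mk, Prod.mk.injEq]
  constructor
  · apply Fin.ext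
    rw [hπ _ (by simp only; omega) (by simp only; omega)]
    simp only
    have h1 : (2 * pairFun s' k ((i : ℕ) / 2) + (i : ℕ) % 2) / 2 = pairFun s' k ((i : ℕ) / 2) := by
      omega
    rw [h1]
    congr 1
    congr 1
    omega
  · congr 1
    simp only [eq_iff_iff]
    omega

/-- a plane permutation supported in `r` consecutive planes -/
lemma pmat_segC {s r k s' : ℕ} (h : s + r ≤ l) (hk : s' + 2 * k ≤ r) (hl : s + s' + 2 * k ≤ l) :
    pmat (planeW (pairPerm l (s + s') k hl)) =
      emb (sgC (segC l s r h)) (pmat (locN r s' k hk)) := by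
  apply pmat_eq_emb (sgC_injective (segC_inj h))
  · apply planeW_segC
    intro i hi1 hi2
    simp only [pairPerm_val, pairFun]
    split_ifs <;> omega
  · rintro ⟨i, b⟩ hx
    have hu : ¬ (s ≤ (i : ℕ) ∧ (i : ℕ) < s + r) := by
      rintro ⟨h1, h2⟩
      apply hx ⟨2 * ((i : ℕ) - s) + (if b then 0 else 1), by split_ifs <;> omega⟩
      simp only [sgC, segC, Prod.mk.injEq]
      cases b
      · simp only [Bool.false_eq_true, if_false]
        constructor
        · ext; simp only; omega
        · symm; rw [decide_eq_false_iff_not]; omega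
      · simp only [if_true]
        constructor
        · ext; simp only; omega
        · symm; rw [decide_eq_true_iff]; omega
    simp only [planeW_apply, Prod.mk.injEq, and_true]
    apply Fin.ext
    simp only [pairPerm_val, pairFun]
    split_ifs <;> omega

lemma diag_eq_emb {m N : Type*} [Fintype m] [DecidableEq m] [Fintype N] [DecidableEq N]
    {σ : m → N} (hσ : Function.Injective σ) {w : N → ℤ} (h : ∀ x, (∀ i, x ≠ σ i) → w x = 1) :
    diagonal w = emb σ (diagonal (w ∘ σ)) := by
  ext i j
  by_cases hi : ∃ a, i = σ a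
  · obtain ⟨a, rfl⟩ := hi
    by_cases hj : ∃ b, j = σ b
    · obtain ⟨b, rfl⟩ := hj
      rw [emb_apply_range hσ, diagonal_apply, diagonal_apply]
      simp only [hσ.eq_iff, Function.comp]
    · push Not at hj
      rw [emb_apply_not _ _ _ (Or.inr hj), diagonal_apply]
      have : σ a ≠ j := fun h' => hj a h'.symm
      simp [this]
  · push Not at hi
    rw [emb_apply_not _ _ _ (Or.inl hi), diagonal_apply]
    split_ifs with h'
    · exact h i hi
    · rfl

lemma sgn_far {s r k s' : ℕ} (h : s + r ≤ l) (hk : s' + 2 * k ≤ r) (x : WP l)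
    (hx : ∀ i, x ≠ sgC (segC l s r h) i) : sgn (s + s') k x = 1 := by
  rcases x with ⟨i, b⟩
  have hu : ¬ (s ≤ (i : ℕ) ∧ (i : ℕ) < s + r) := by
    rintro ⟨h1, h2⟩
    apply hx ⟨2 * ((i : ℕ) - s) + (if b then 0 else 1), by split_ifs <;> omega⟩
    simp only [sgC, segC, Prod.mk.injEq]
    cases b
    · simp only [Bool.false_eq_true, if_false]
      constructor
      · ext; simp only; omega
      · symm; rw [decide_eq_false_iff_not]; omega
    · simp only [if_true]
      constructor
      · ext; simp only; omega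
      · symm; rw [decide_eq_true_iff]; omega
  simp only [sgn]
  split_ifs <;> omega

lemma toMat_diag {n : ℕ} (w : Fin n → ℤ) (T : LM)
    (hT : ∀ i j : Fin n, (T.getD i []).getD j 0 = if i = j then w i else 0) :
    diagonal w = toMat n T := by
  ext i j
  rw [diagonal_apply, toMat, hT]

/-- one signed swap -/
lemma PD_one {s : ℕ} (h : s + 2 * 1 ≤ l) :
    PD l s 1 h = emb (sgC (segC l s 2 (by omega))) (toMat 4 sigL) := by
  unfold PD
  have h1 := pmat_segC (l := l) (s := s) (r := 2) (k := 1) (s' := 0) (by omega) (by norm_num)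
    (by omega)
  simp only [Nat.add_zero] at h1
  have hfar : ∀ x, (∀ i, x ≠ sgC (segC l s 2 (by omega)) i) → sgn s 1 x = 1 := by
    intro x hx
    have := sgn_far (s' := 0) (k := 1) (by omega) (by norm_num) x hx
    simpa using this
  rw [h1, diag_eq_emb (sgC_injective (segC_inj (l := l) (s := s) (r := 2) (by omega))) hfar,
    ← emb_mul (sgC_injective (segC_inj _)), pmat_locN (by norm_num) swL (by decide +kernel)]
  congr 1
  have e : ∀ i : Fin (2 * 2), (sgn s 1 ∘ sgC (segC l s 2 (by omega))) i =
      if (i : ℕ) < 2 then -1 else 1 := by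
    intro i
    simp only [Function.comp, sgn, sgC, segC]
    split_ifs <;> omega
  rw [toMat_diag _ [[-1,0,0,0],[0,-1,0,0],[0,0,1,0],[0,0,0,1]] (fun i j => by
    rw [e]; revert i j; decide +kernel), ← mulL_toMat (by decide +kernel) (by decide +kernel)]
  have : mulL 4 swL [[-1,0,0,0],[0,-1,0,0],[0,0,1,0],[0,0,0,1]] = sigL := by decide +kernel
  rw [this]

lemma diagonal_mul_pmat {N : Type*} [Fintype N] [DecidableEq N] (d : N → ℤ) (e : N → N) :
    diagonal d * pmat e = pmat e * diagonal (d ∘ e) := by
  ext i j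
  simp only [diagonal_mul, mul_diagonal, pmat, Function.comp]
  split_ifs with h
  · rw [h]; ring
  · ring

lemma PD_add {s k : ℕ} (h : s + 2 * (k + 1) ≤ l) :
    PD l s (k + 1) h = PD l s k (by omega) * PD l (s + 2 * k) 1 (by omega) := by
  unfold PD
  rw [pairPerm_add h, ← pmat_planeW_mul]
  have h1 := diagonal_mul_pmat (sgn s k) (planeW (pairPerm l (s + 2 * k) 1 (by omega)))
  calc _ = pmat (planeW (pairPerm l s k (by omega))) *
        (pmat (planeW (pairPerm l (s + 2 * k) 1 (by omega))) * diagonal (sgn s (k + 1))) := by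
        simp only [Matrix.mul_assoc]
    _ = pmat (planeW (pairPerm l s k (by omega))) *
        ((pmat (planeW (pairPerm l (s + 2 * k) 1 (by omega))) *
          diagonal (sgn s k ∘ planeW (pairPerm l (s + 2 * k) 1 (by omega)))) *
          diagonal (sgn (s + 2 * k) 1)) := by
        congr 1
        rw [Matrix.mul_assoc, diagonal_mul_diagonal]
        congr 2
        funext x
        rcases x with ⟨i, b⟩
        simp only [Function.comp, planeW_apply, sgn, pairPerm_val, pairFun]
        split_ifs <;> omega
    _ = _ := by rw [← h1]; simp only [Matrix.mul_assoc]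

lemma PD_zero {s : ℕ} (h : s + 2 * 0 ≤ l) : PD l s 0 h = 1 := by
  unfold PD
  rw [pairPerm_zero, pmat_planeW_one, Matrix.one_mul, ← diagonal_one]
  congr 1
  funext x
  simp only [sgn]
  split_ifs <;> omega

theorem mem_PD {K : ℕ} (hF : FullGL G K) {s k : ℕ} (h : s + 2 * k ≤ l) (hK : s + 2 * k ≤ K) :
    Mem G (PD l s k h) := by
  induction k with
  | zero => rw [PD_zero]; exact Mem.one
  | succ k ih =>
    rw [PD_add]
    refine (ih (by omega) (by omega)).mul ?_
    rw [PD_one, segC_two]
    have hne : (⟨s + 2 * k, by omega⟩ : Fin l) ≠ ⟨s + 2 * k + 1, by omega⟩ := by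
      intro h; have := congrArg Fin.val h; simp only at this; omega
    exact GLm.sig hne (hF _ _ hne (by simp only; omega) (by simp only; omega))
      (hF _ _ hne.symm (by simp only; omega) (by simp only; omega))

theorem mem_PW (hF : FullC G) {s k : ℕ} (h : s + 2 * k ≤ l) :
    Mem G (pmat (planeW (pairPerm l s k h))) := by
  induction k with
  | zero => rw [pairPerm_zero, pmat_planeW_one]; exact Mem.one
  | succ k ih =>
    rw [pairPerm_add h, ← pmat_planeW_mul]
    refine (ih (by omega)).mul ?_
    have h1 := pmat_segC (l := l) (s := s + 2 * k) (r := 2) (k := 1) (s' := 0) (by omega)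
      (by norm_num) (by omega)
    simp only [Nat.add_zero] at h1
    rw [h1, pmat_locN (by norm_num) swL (by decide +kernel)]
    exact hF.sw (segC_inj _)

end MP9bf44d
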