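import Pool.Agent.Lib.H68.C4
import Pool.Agent.Lib.H68.NearCD

/-! # The element `c` of type C, moves and the near window -/

namespace MP9bf44d

open Matrix

set_option linter.unusedSectionVars false
set_option linter.unusedSimpArgs false

variable {l : ℕ} {G : Subgroup (Matrix (WP l) (WP l) ℤ)ˣ}

/-- `Z` (with inverse `Z'`) acts trivially on windows with planes in `[lo, hi)` -/
def FarAct (lo hi : ℕ) (Z Z' : Matrix (WP l) (WP l) ℤ) : Prop :=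
  ∀ (m : ℕ) (σ : Fin m → WP l), (∀ i, lo ≤ ((σ i).1 : ℕ) ∧ ((σ i).1 : ℕ) < hi) →
    Act σ σ Z Z' 1 1

lemma FarAct.sgC {r lo hi : ℕ} {qs : Fin r → Fin l} (h : ∀ i, hi ≤ (qs i : ℕ) ∨ (qs i : ℕ) < lo)
    (T T' : Matrix (Fin (2 * r)) (Fin (2 * r)) ℤ) :
    FarAct lo hi (emb (sgC qs) T) (emb (sgC qs) T') := by
  intro m σ hσ
  apply Act.of_disjoint
  intro i j hij
  have h1 := hσ j
  rw [← hij] at h1
  have h2 := h ⟨(i : ℕ) / 2, by omega⟩
  simp only [MP9bf44d.sgC] at h1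
  omega

lemma Act.absorb {m k N : Type*} [Fintype m] [DecidableEq m] [Fintype k] [DecidableEq k]
    [Fintype N] [DecidableEq N] {σ : m → N} {σ' : k → N} {e : m → k} {g g' : Matrix N N ℤ}
    {T T' : Matrix m m ℤ} (h : Act σ (σ' ∘ e) g g' T T') :
    Act σ σ' g g' (pmat e * T) (T' * (pmat e)ᵀ) where
  left := by rw [h.left, ← pmat_comp, Matrix.mul_assoc]
  right := by rw [h.right, ← pmat_comp, transpose_mul, Matrix.mul_assoc]

/-- the matrix of `c` and its inverse -/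
def cM (l kc : ℕ) (h1 : 1 ≤ l) (hc : 1 + 2 * kc ≤ l) (Z : Matrix (WP l) (WP l) ℤ) :
    Matrix (WP l) (WP l) ℤ :=
  emb (sgC (segC l 0 1 (by omega))) (toMat 2 J1L) * (PD l 1 kc hc * Z)

def cM' (l kc : ℕ) (h1 : 1 ≤ l) (hc : 1 + 2 * kc ≤ l) (Z' : Matrix (WP l) (WP l) ℤ) :
    Matrix (WP l) (WP l) ℤ :=
  (Z' * PD' l 1 kc hc) * emb (sgC (segC l 0 1 (by omega))) (toMat 2 J1L')

lemma cM_mul {kc : ℕ} (h1 : 1 ≤ l) (hc : 1 + 2 * kc ≤ l) {Z Z' : Matrix (WP l) (WP l) ℤ}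
    (hZ : Z * Z' = 1) : cM l kc h1 hc Z * cM' l kc h1 hc Z' = 1 := by
  unfold cM cM'
  have h2 : emb (sgC (segC l 0 1 (by omega))) (toMat 2 J1L) *
      emb (sgC (segC l 0 1 (by omega))) (toMat 2 J1L') = 1 := by
    rw [← emb_mul (sgC_injective (segC_inj _)), ← mulL_toMat (by decide +kernel)
      (by decide +kernel)]
    have : mulL 2 J1L J1L' = oneL 2 := by decide +kernel
    rw [this, oneL_toMat, emb_one]
  calc _ = emb (sgC (segC l 0 1 (by omega))) (toMat 2 J1L) * (PD l 1 kc hc * (Z * Z') *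
        PD' l 1 kc hc) * emb (sgC (segC l 0 1 (by omega))) (toMat 2 J1L') := by
        simp only [Matrix.mul_assoc]
    _ = 1 := by rw [hZ, Matrix.mul_one, PD_mul_PD', Matrix.mul_one, h2]

lemma J_far (h1 : 1 ≤ l) : FarAct 1 l (emb (sgC (segC l 0 1 (by omega))) (toMat 2 J1L))
    (emb (sgC (segC l 0 1 (by omega))) (toMat 2 J1L')) := by
  apply FarAct.sgC (r := 1)
  intro i
  right
  simp [segC]

lemma sgC_bd {r lo hi : ℕ} {ps : Fin r → Fin l} (h : ∀ i, lo ≤ (ps i : ℕ) ∧ (ps i : ℕ) < hi)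
    (i : Fin (2 * r)) : lo ≤ ((sgC ps i).1 : ℕ) ∧ ((sgC ps i).1 : ℕ) < hi := h _

lemma sgn_cases (s k : ℕ) (u : WP l) : sgn s k u = 1 ∨ sgn s k u = -1 := by
  unfold sgn
  split_ifs
  · right; rfl
  · left; rfl

/-- moves of `a` -/
lemma moves_a {π : Equiv.Perm (Fin l)} (ha : Mem G (pmat (planeW π))) : MovesC G π 0 l := by
  intro i j hij _ _ _ _ hm
  have h1 := Act.perm (σ := sgC ![i, j]) (planeW π)
  rw [planeW_sgC] at h1
  have h2 : (π ∘ ![i, j] : Fin 2 → Fin l) = ![π i, π j] := by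
    funext k; fin_cases k <;> rfl
  rw [h2] at h1
  have h3 := Mem.act h1 (pmat_equiv_mul_transpose _) (by rw [Matrix.one_mul]) ha
    (GLm_iff.mp hm)
  rw [Matrix.one_mul, Matrix.mul_one] at h3
  exact GLm_iff.mpr h3

/-- moves of `c` -/
lemma moves_c {kc S : ℕ} (h1 : 1 ≤ l) (hc : 1 + 2 * kc ≤ l) {Z Z' : Matrix (WP l) (WP l) ℤ}
    (hZ : Z * Z' = 1) (hfar : FarAct 1 S Z Z') (hg : Mem G (cM l kc h1 hc Z)) :
    MovesC G (pairPerm l 1 kc hc) 1 S := by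
  intro i j hij hi1 hi2 hj1 hj2 hm
  set π := pairPerm l 1 kc hc with hπ
  have hps : ∀ k, 1 ≤ ((![i, j] : Fin 2 → Fin l) k : ℕ) ∧ ((![i, j] : Fin 2 → Fin l) k : ℕ) < S := by
    intro k; fin_cases k
    · exact ⟨hi1, hi2⟩
    · exact ⟨hj1, hj2⟩
  have hπ1 : ∀ x : Fin l, 1 ≤ (x : ℕ) → 1 ≤ ((π x : Fin l) : ℕ) := by
    intro x hx
    simp only [hπ, pairPerm_val, pairFun]
    split_ifs <;> omega
  have h2 : (π ∘ ![i, j] : Fin 2 → Fin l) = ![π i, π j] := by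
    funext k; fin_cases k <;> rfl
  have A1 : Act (sgC ![i, j]) (sgC ![i, j]) Z Z' 1 1 := hfar _ _ (sgC_bd hps)
  have A2 := act_PD (m := Fin 4) hc (sgC ![i, j])
  rw [planeW_sgC, h2] at A2
  have hps' : ∀ k, 1 ≤ ((![π i, π j] : Fin 2 → Fin l) k : ℕ) ∧
      ((![π i, π j] : Fin 2 → Fin l) k : ℕ) < l := by
    intro k; fin_cases k
    · exact ⟨hπ1 i hi1, Fin.is_lt _⟩
    · exact ⟨hπ1 j hj1, Fin.is_lt _⟩
  have A3 := J_far (l := l) h1 _ _ (sgC_bd hps')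
  have A := (A1.comp A2).comp A3
  simp only [Matrix.one_mul, Matrix.mul_one] at A
  obtain ⟨s, hs, hs'⟩ : ∃ s : ℤ, (s = 1 ∨ s = -1) ∧ sgn 1 kc ((i, true) : WP l) = s ∧
      sgn 1 kc ((i, false) : WP l) = s := ⟨_, sgn_cases _ _ _, rfl, rfl⟩
  obtain ⟨t, ht, ht'⟩ : ∃ t : ℤ, (t = 1 ∨ t = -1) ∧ sgn 1 kc ((j, true) : WP l) = t ∧
      sgn 1 kc ((j, false) : WP l) = t := ⟨_, sgn_cases _ _ _, rfl, rfl⟩
  have hD : (diagonal (sgn 1 kc ∘ sgC ![i, j]) : Matrix (Fin 4) (Fin 4) ℤ) =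
      toMat 4 [[s,0,0,0],[0,s,0,0],[0,0,t,0],[0,0,0,t]] := by
    ext a b
    fin_cases a <;> fin_cases b <;>
      simp [diagonal_apply, toMat, sgC, hs'.1, hs'.2, ht'.1, ht'.2]
  rw [hD] at A
  have hDD : toMat 4 [[s,0,0,0],[0,s,0,0],[0,0,t,0],[0,0,0,t]] *
      toMat 4 [[s,0,0,0],[0,s,0,0],[0,0,t,0],[0,0,0,t]] = 1 := by
    rcases hs with rfl | rfl <;> rcases ht with rfl | rfl <;>
    · rw [← mulL_toMat (by decide +kernel) (by decide +kernel), ← oneL_toMat]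
      congr 1
  have hne : π i ≠ π j := fun h => hij (π.injective h)
  have h5 := Mem.act A (cM_mul h1 hc hZ) hDD hg (GLm_iff.mp hm)
  have e : toMat 4 [[s,0,0,0],[0,s,0,0],[0,0,t,0],[0,0,0,t]] * toMat 4 (rlC 4 0 3 1) *
      toMat 4 [[s,0,0,0],[0,s,0,0],[0,0,t,0],[0,0,0,t]] = toMat 4 (rlC 4 0 3 (s * t)) := by
    rcases hs with rfl | rfl <;> rcases ht with rfl | rfl <;>
    · rw [← mulL_toMat (by decide +kernel) (by decide +kernel),
        ← mulL_toMat (by decide +kernel) (by decide +kernel)]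
      congr 1
  rw [e] at h5
  rcases hs with rfl | rfl <;> rcases ht with rfl | rfl
  · exact GLm_iff.mpr h5
  · exact GLm_of_neg hne h5
  · exact GLm_of_neg hne h5
  · exact GLm_iff.mpr h5

end MP9bf44d
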