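import Pool.Agent.Lib.H68.C5

/-! # The near window of type C -/

namespace MP9bf44d

open Matrix

set_option linter.unusedSectionVars false
set_option linter.unusedSimpArgs false

variable {l : ℕ} {G : Subgroup (Matrix (WP l) (WP l) ℤ)ˣ}

/-- local matrices of `c` on seven planes -/
def perm14L : LM := [[1,0,0,0,0,0,0,0,0,0,0,0,0,0],[0,1,0,0,0,0,0,0,0,0,0,0,0,0],
  [0,0,0,0,1,0,0,0,0,0,0,0,0,0],[0,0,0,0,0,1,0,0,0,0,0,0,0,0],[0,0,1,0,0,0,0,0,0,0,0,0,0,0],
  [0,0,0,1,0,0,0,0,0,0,0,0,0,0],[0,0,0,0,0,0,0,0,1,0,0,0,0,0],[0,0,0,0,0,0,0,0,0,1,0,0,0,0],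
  [0,0,0,0,0,0,1,0,0,0,0,0,0,0],[0,0,0,0,0,0,0,1,0,0,0,0,0,0],[0,0,0,0,0,0,0,0,0,0,0,0,1,0],
  [0,0,0,0,0,0,0,0,0,0,0,0,0,1],[0,0,0,0,0,0,0,0,0,0,1,0,0,0],[0,0,0,0,0,0,0,0,0,0,0,1,0,0]]

def diag14L : LM := (List.range 14).map fun i => (List.range 14).map fun j =>
  if i = j then (if 2 ≤ i ∧ (i / 2 - 1) % 2 = 0 then -1 else 1) else 0

def c14L : LM := mulL 14 (extL 14 0 2 J1L) (mulL 14 perm14L diag14L)
def c14L' : LM := mulL 14 (mulL 14 diag14L perm14L) (extL 14 0 2 J1L')

lemma act_c7 {kc : ℕ} (h7 : 7 ≤ l) (hkc : 3 ≤ kc) (hc : 1 + 2 * kc ≤ l)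
    {Z Z' : Matrix (WP l) (WP l) ℤ} (hfar : FarAct 0 7 Z Z') :
    Act (sgC (segC l 0 7 (by omega))) (sgC (segC l 0 7 (by omega)))
      (cM l kc (by omega) hc Z) (cM' l kc (by omega) hc Z') (toMat 14 c14L) (toMat 14 c14L') := by
  have A1 : Act (sgC (segC l 0 7 (by omega))) (sgC (segC l 0 7 (by omega))) Z Z' 1 1 := by
    apply hfar
    apply sgC_bd
    intro i
    simp only [segC]
    omega
  have A2 := act_PD (m := Fin (2 * 7)) hc (sgC (segC l 0 7 (by omega)))
  rw [planeW_segC (s' := 1) (k := 3) (by omega) (by norm_num) (by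
    intro i hi1 hi2
    simp only [pairPerm_val, pairFun]
    split_ifs <;> omega)] at A2
  have A2' := A2.absorb
  have A3 := Act.emb (sgC_injective (segC_inj (l := l) (s := 0) (r := 7) (by omega)))
    (toMat 14 (extL 14 0 2 J1L)) (toMat 14 (extL 14 0 2 J1L'))
  have hJ : ∀ T : LM, emb (sgC (segC l 0 7 (by omega))) (toMat 14 (extL 14 0 2 T)) =
      emb (sgC (segC l 0 1 (by omega))) (toMat 2 T) := by
    intro T
    rw [toMat_extL (by norm_num), emb_comp]
    congr 1
    funext i
    simp only [Function.comp, sgC, segC, shiftF, Prod.mk.injEq]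
    constructor
    · apply Fin.ext; simp only; omega
    · congr 1; simp only [eq_iff_iff]; omega
  rw [hJ, hJ] at A3
  have A := (A1.comp A2').comp A3
  have e1 : pmat (locN 7 1 3 (by norm_num)) = toMat 14 perm14L :=
    pmat_locN (by norm_num) perm14L (by decide +kernel)
  have e2 : (pmat (locN 7 1 3 (by norm_num)))ᵀ = toMat 14 perm14L := by
    rw [e1]
    ext i j
    simp only [transpose_apply, toMat]
    revert i j
    decide +kernel
  have e3 : (diagonal (sgn 1 kc ∘ sgC (segC l 0 7 (by omega))) :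
      Matrix (Fin 14) (Fin 14) ℤ) = toMat 14 diag14L := by
    apply toMat_diag
    intro i j
    have : (sgn 1 kc ∘ sgC (segC l 0 7 (by omega))) i =
        if 2 ≤ (i : ℕ) ∧ ((i : ℕ) / 2 - 1) % 2 = 0 then -1 else 1 := by
      simp only [Function.comp, sgn, sgC, segC]
      split_ifs <;> omega
    rw [this]
    clear this
    revert i j
    decide +kernel
  refine A.cast rfl rfl ?_ ?_
  · rw [e1, e3, Matrix.mul_one, c14L, mulL_toMat (by decide +kernel) (by decide +kernel),
      mulL_toMat (by decide +kernel) (by decide +kernel)]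
  · rw [e2, e3, Matrix.one_mul, c14L', mulL_toMat (by decide +kernel) (by decide +kernel),
      mulL_toMat (by decide +kernel) (by decide +kernel)]

/-- the matrix of `b` -/
def bCM (h8 : 8 ≤ l) : Matrix (WP l) (WP l) ℤ :=
  emb (sgC (segC l 0 8 (by omega))) (toMat 16 (extL 16 0 8 bC8))

lemma segC_cast (h8 : 8 ≤ l) : sgC (segC l 0 7 (by omega)) =
    sgC (segC l 0 8 (by omega)) ∘ (Fin.castLE (by norm_num) : Fin 14 → Fin 16) := by
  funext i
  simp only [Function.comp, sgC, segC, Fin.val_castLE]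

lemma castLE_eq_shift (T : LM) : emb (Fin.castLE (by norm_num) : Fin 14 → Fin 16) (toMat 14 T) =
    toMat 16 (extL 16 0 14 T) := by
  rw [toMat_extL (by norm_num)]
  congr 1
  funext i
  ext; simp [shiftF]

lemma rulesNC_eq : rulesNC = [rulesNC.getD 0 ⟨0, [], []⟩, rulesNC.getD 1 ⟨0, [], []⟩] := rfl

/-- Near window of type C. -/
theorem nearC (h8 : 8 ≤ l) {πa : Equiv.Perm (Fin l)}
    (hπa : ∀ i : Fin l, (i : ℕ) < 8 → ((πa i : Fin l) : ℕ) = pairFun 0 4 i)
    (ha : Mem G (pmat (planeW πa))) {kc : ℕ} (hkc : 3 ≤ kc) (hc : 1 + 2 * kc ≤ l)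
    {Z Z' : Matrix (WP l) (WP l) ℤ} (hZ : Z * Z' = 1) (hfar : FarAct 0 7 Z Z')
    (hg : Mem G (cM l kc (by omega) hc Z)) (hb : Mem G (bCM h8)) :
    FullGL G 3 ∧ Mem G (xL ((⟨0, by omega⟩, true) : WP l) 1) ∧
      Mem G (xC ((⟨0, by omega⟩, true) : WP l) (⟨1, by omega⟩, true) 1) := by
  have hinj8 := sgC_injective (segC_inj (l := l) (s := 0) (r := 8) (by omega))
  have hP := closed_emb hinj8 G
  have hst : Good 16 (fun M => Mem G (emb (sgC (segC l 0 8 (by omega))) M)) gensNC := by
    apply checkGens_good checkGensNC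
    intro p hp
    have h1 : gensNC.all (fun p => p.1 == extL 16 0 8 bC8) = true := by decide +kernel
    rw [List.all_eq_true] at h1
    have h2 := h1 p hp
    rw [beq_iff_eq] at h2
    rw [h2]; exact hb
  have hR : RulesGood 16 (fun M => Mem G (emb (sgC (segC l 0 8 (by omega))) M)) rulesNC := by
    intro R hR
    rw [rulesNC_eq] at hR
    simp only [List.mem_cons, List.not_mem_nil, or_false] at hR
    rcases hR with hR | hR
    · rw [hR]
      refine ⟨by decide +kernel, by decide +kernel, ?_⟩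
      intro A _ hm
      have A1 := Act.perm (σ := sgC (segC l 0 8 (by omega))) (planeW πa)
      rw [planeW_segC (s' := 0) (k := 4) (by omega) (by norm_num) (by
        intro i hi1 hi2
        rw [hπa i (by omega)]
        simp)] at A1
      have A2 := A1.absorb
      have e1 : pmat (locN 8 0 4 (by norm_num)) =
          toMat 16 (rulesNC.getD 0 ⟨0, [], []⟩).T :=
        pmat_locN (by norm_num) _ (by decide +kernel)
      have e2 : (pmat (locN 8 0 4 (by norm_num)))ᵀ =
          toMat 16 (rulesNC.getD 0 ⟨0, [], []⟩).T' := by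
        rw [e1]
        ext i j
        simp only [transpose_apply, toMat]
        revert i j
        decide +kernel
      have h5 := Mem.act A2 (pmat_equiv_mul_transpose _) (by
        rw [Matrix.mul_one, Matrix.one_mul]
        exact pmat_equiv_mul_transpose (locN 8 0 4 (by norm_num))) ha hm
      rw [Matrix.mul_one, Matrix.one_mul, e2, e1] at h5
      exact h5
    · rw [hR]
      refine ⟨by decide +kernel, by decide +kernel, ?_⟩
      intro A hA hm
      have hA' : Supp 14 A := hA
      have h1 := Supp.eq_emb (k := 14) (n := 16) (by norm_num) hA'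
      have h14 : 14 ≤ 16 := by norm_num
      set A' := A.submatrix (Fin.castLE h14) (Fin.castLE h14)
      have h2 : emb (sgC (segC l 0 8 (by omega))) A = emb (sgC (segC l 0 7 (by omega))) A' := by
        rw [h1, emb_comp, segC_cast h8]
      have hm' : Mem G (emb (sgC (segC l 0 8 (by omega))) A) := hm
      rw [h2] at hm'
      have hT : toMat 14 c14L * toMat 14 c14L' = 1 := by
        rw [← mulL_toMat (by decide +kernel) (by decide +kernel)]
        have : mulL 14 c14L c14L' = oneL 14 := by decide +kernel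
        rw [this, oneL_toMat]
      have h5 := Mem.act (act_c7 (by omega) hkc hc hfar) (cM_mul (by omega) hc hZ) hT hg hm'
      have hci : Function.Injective (Fin.castLE (by norm_num) : Fin 14 → Fin 16) :=
        Fin.castLE_injective _
      rw [segC_cast h8, ← emb_comp, emb_mul hci, emb_mul hci, ← h1, castLE_eq_shift,
        castLE_eq_shift] at h5
      have e1 : extL 16 0 14 c14L = (rulesNC.getD 1 ⟨0, [], []⟩).T := by decide +kernel
      have e2 : extL 16 0 14 c14L' = (rulesNC.getD 1 ⟨0, [], []⟩).T' := by decide +kernel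
      rw [e1, e2] at h5
      exact h5
  have t1 := check_target hP hR hst checkNC targetNC_12
  have t2 := check_target hP hR hst checkNC targetNC_23
  have t3 := check_target hP hR hst checkNC targetNC_L
  have t4 := check_target hP hR hst checkNC targetNC_ee
  have v : ∀ (x : ℕ) (hx : x < 2 * 8) , sgC (segC l 0 8 (by omega)) ⟨x, hx⟩ =
      (⟨x / 2, by omega⟩, decide (x % 2 = 0)) := by
    intro x hx
    simp only [sgC, segC, Prod.mk.injEq, and_true]
    ext; simp
  have m1 : GLm G ⟨0, by omega⟩ ⟨1, by omega⟩ := by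
    have := xC_eq_emb (segC l 0 8 (by omega)) 0 3 (by norm_num) (by norm_num) 1
    rw [v, v] at this
    have h6 : rlC 16 0 3 1 = rootL 16 3 1 (-1) 0 2 1 := by decide +kernel
    rw [h6] at this
    exact (congrArg (Mem G) this).mp t1
  have m2 : GLm G ⟨1, by omega⟩ ⟨2, by omega⟩ := by
    have := xC_eq_emb (segC l 0 8 (by omega)) 2 5 (by norm_num) (by norm_num) 1
    rw [v, v] at this
    have h6 : rlC 16 2 5 1 = rootL 16 5 3 (-1) 2 4 1 := by decide +kernel
    rw [h6] at this
    exact (congrArg (Mem G) this).mp t2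
  have m3 : Mem G (xL ((⟨0, by omega⟩, true) : WP l) 1) := by
    have := xL_eq_emb (segC l 0 8 (by omega)) 0 (by norm_num) 1
    rw [v] at this
    have h6 : llC 16 0 1 = rootL 16 0 1 1 0 1 0 := by decide +kernel
    rw [h6] at this
    exact (congrArg (Mem G) this).mp t3
  have m4 : Mem G (xC ((⟨0, by omega⟩, true) : WP l) (⟨1, by omega⟩, true) 1) := by
    have := xC_eq_emb (segC l 0 8 (by omega)) 0 2 (by norm_num) (by norm_num) 1
    rw [v, v] at this
    have h6 : rlC 16 0 2 1 = rootL 16 2 1 (-1) 0 3 (-1) := by decide +kernel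
    rw [h6] at this
    exact (congrArg (Mem G) this).mp t4
  refine ⟨?_, m3, m4⟩
  have n01 : (⟨0, by omega⟩ : Fin l) ≠ ⟨1, by omega⟩ := by
    intro h; have := congrArg Fin.val h; simp only at this; omega
  have n12 : (⟨1, by omega⟩ : Fin l) ≠ ⟨2, by omega⟩ := by
    intro h; have := congrArg Fin.val h; simp only at this; omega
  have n02 : (⟨0, by omega⟩ : Fin l) ≠ ⟨2, by omega⟩ := by
    intro h; have := congrArg Fin.val h; simp only at this; omega
  have ea0 : πa ⟨0, by omega⟩ = ⟨1, by omega⟩ := by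
    ext; rw [hπa _ (by simp)]; simp [pairFun]
  have ea1 : πa ⟨1, by omega⟩ = ⟨0, by omega⟩ := by
    ext; rw [hπa _ (by simp)]; simp [pairFun]
  have m5 : GLm G ⟨1, by omega⟩ ⟨0, by omega⟩ := by
    have := moves_a ha _ _ n01 (by simp) (by simp only; omega) (by simp) (by simp only; omega) m1
    rw [ea0, ea1] at this
    exact this
  have ec1 : pairPerm l 1 kc hc ⟨1, by omega⟩ = ⟨2, by omega⟩ := by
    have h9 : pairFun 1 kc 1 = 2 := by unfold pairFun; split_ifs <;> omega
    exact Fin.ext h9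
  have ec2 : pairPerm l 1 kc hc ⟨2, by omega⟩ = ⟨1, by omega⟩ := by
    have h9 : pairFun 1 kc 2 = 1 := by
      have h10 : 1 ≤ 2 ∧ 2 < 1 + 2 * kc := by omega
      unfold pairFun
      rw [if_pos h10]
      rfl
    exact Fin.ext h9
  have hfar1 : FarAct 1 7 Z Z' := fun m σ hσ => hfar m σ (fun i => ⟨Nat.zero_le _, (hσ i).2⟩)
  have m6 : GLm G ⟨2, by omega⟩ ⟨1, by omega⟩ := by
    have := moves_c (by omega) hc hZ hfar1 hg _ _ n12 (by simp) (by simp) (by simp) (by simp) m2
    rw [ec1, ec2] at this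
    exact this
  have m7 := m1.trans n01 n02 n12 m2
  have m8 := m6.trans n12.symm n02.symm n01.symm m5
  intro i j hij hi hj
  have hi' : i = ⟨0, by omega⟩ ∨ i = ⟨1, by omega⟩ ∨ i = ⟨2, by omega⟩ := by
    simp only [Fin.ext_iff]; omega
  have hj' : j = ⟨0, by omega⟩ ∨ j = ⟨1, by omega⟩ ∨ j = ⟨2, by omega⟩ := by
    simp only [Fin.ext_iff]; omega
  rcases hi' with h | h | h <;> rcases hj' with h' | h' | h'
  · exact absurd (h.trans h'.symm) hij
  · rw [h, h']; exact m1
  · rw [h, h']; exact m7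
  · rw [h, h']; exact m5
  · exact absurd (h.trans h'.symm) hij
  · rw [h, h']; exact m2
  · rw [h, h']; exact m8
  · rw [h, h']; exact m6
  · exact absurd (h.trans h'.symm) hij

end MP9bf44d
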