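import Pool.Agent.Lib.H68.C3

/-! # Data: terminal straight-line programs (type C) -/

namespace MP9bf44d

set_option maxRecDepth 100000

def gensCE : List (LM × LM) := [
  ([[1,-1,0,0,0,0],[2,-1,0,0,0,0],[0,0,1,0,0,0],[0,0,0,1,0,0],[0,0,0,0,0,1],[0,0,0,0,-1,0]],
   [[-1,1,0,0,0,0],[-2,1,0,0,0,0],[0,0,1,0,0,0],[0,0,0,1,0,0],[0,0,0,0,0,-1],[0,0,0,0,1,0]]),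
  ([[1,0,0,0,0,0],[0,1,0,-1,0,0],[1,0,1,0,0,0],[0,0,0,1,0,0],[0,0,0,0,1,0],[0,0,0,0,0,1]],
   [[1,0,0,0,0,0],[0,1,0,1,0,0],[-1,0,1,0,0,0],[0,0,0,1,0,0],[0,0,0,0,1,0],[0,0,0,0,0,1]]),
  ([[1,0,0,0,1,0],[0,1,0,0,0,0],[0,0,1,0,0,0],[0,0,0,1,0,0],[0,0,0,0,1,0],[0,-1,0,0,0,1]],
   [[1,0,0,0,-1,0],[0,1,0,0,0,0],[0,0,1,0,0,0],[0,0,0,1,0,0],[0,0,0,0,1,0],[0,1,0,0,0,1]]),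
  ([[1,0,0,0,0,0],[0,1,0,0,0,-1],[0,0,1,0,0,0],[0,0,0,1,0,0],[1,0,0,0,1,0],[0,0,0,0,0,1]],
   [[1,0,0,0,0,0],[0,1,0,0,0,1],[0,0,1,0,0,0],[0,0,0,1,0,0],[-1,0,0,0,1,0],[0,0,0,0,0,1]]),
  ([[1,0,0,0,0,0],[0,1,0,0,0,0],[0,0,1,0,0,0],[0,0,0,1,0,-1],[0,0,1,0,1,0],[0,0,0,0,0,1]],
   [[1,0,0,0,0,0],[0,1,0,0,0,0],[0,0,1,0,0,0],[0,0,0,1,0,1],[0,0,-1,0,1,0],[0,0,0,0,0,1]])]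

def stepsCE : List Step := [
  ⟨none, [(0, true), (4, true), (0, false)], [[1,0,0,0,0,0],[0,1,0,0,0,0],[0,0,1,0,0,0],[0,0,0,1,-1,0],[0,0,0,0,1,0],[0,0,-1,0,0,1]],
   [[1,0,0,0,0,0],[0,1,0,0,0,0],[0,0,1,0,0,0],[0,0,0,1,1,0],[0,0,0,0,1,0],[0,0,1,0,0,1]]⟩,
  ⟨none, [(1, true), (5, true), (1, false), (5, false)], [[1,0,0,0,0,0],[0,1,0,0,1,0],[0,0,1,0,0,0],[0,0,0,1,0,0],[0,0,0,0,1,0],[1,0,0,0,0,1]],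
   [[1,0,0,0,0,0],[0,1,0,0,-1,0],[0,0,1,0,0,0],[0,0,0,1,0,0],[0,0,0,0,1,0],[-1,0,0,0,0,1]]⟩,
  ⟨none, [(0, true), (3, true), (0, false), (2, false), (6, false)], [[1,0,0,0,0,0],[0,1,0,0,0,0],[0,0,1,0,0,0],[0,0,0,1,0,0],[0,0,0,0,1,0],[0,0,0,0,-1,1]],
   [[1,0,0,0,0,0],[0,1,0,0,0,0],[0,0,1,0,0,0],[0,0,0,1,0,0],[0,0,0,0,1,0],[0,0,0,0,1,1]]⟩,
  ⟨none, [(0, true), (7, true), (0, false)], [[1,0,0,0,0,0],[0,1,0,0,0,0],[0,0,1,0,0,0],[0,0,0,1,0,0],[0,0,0,0,1,1],[0,0,0,0,0,1]],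
   [[1,0,0,0,0,0],[0,1,0,0,0,0],[0,0,1,0,0,0],[0,0,0,1,0,0],[0,0,0,0,1,-1],[0,0,0,0,0,1]]⟩]

def gensCO : List (LM × LM) := [
  ([[1,-1,0,0,0,0,0,0],[2,-1,0,0,0,0,0,0],[0,0,1,0,0,0,0,0],[0,0,0,1,0,0,0,0],[0,0,0,0,0,0,0,-1],[0,0,0,0,-1,0,1,0],[0,0,0,0,0,-1,0,-1],[0,0,0,0,1,0,0,0]],
   [[-1,1,0,0,0,0,0,0],[-2,1,0,0,0,0,0,0],[0,0,1,0,0,0,0,0],[0,0,0,1,0,0,0,0],[0,0,0,0,0,0,0,1],[0,0,0,0,1,0,-1,0],[0,0,0,0,0,1,0,1],[0,0,0,0,-1,0,0,0]]),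
  ([[1,0,1,0,0,0,0,0],[0,1,0,0,0,0,0,0],[0,0,1,0,0,0,0,0],[0,-1,0,1,0,0,0,0],[0,0,0,0,1,0,0,0],[0,0,0,0,0,1,0,0],[0,0,0,0,0,0,1,0],[0,0,0,0,0,0,0,1]],
   [[1,0,-1,0,0,0,0,0],[0,1,0,0,0,0,0,0],[0,0,1,0,0,0,0,0],[0,1,0,1,0,0,0,0],[0,0,0,0,1,0,0,0],[0,0,0,0,0,1,0,0],[0,0,0,0,0,0,1,0],[0,0,0,0,0,0,0,1]]),
  ([[1,0,0,0,0,0,0,0],[0,1,0,-1,0,0,0,0],[1,0,1,0,0,0,0,0],[0,0,0,1,0,0,0,0],[0,0,0,0,1,0,0,0],[0,0,0,0,0,1,0,0],[0,0,0,0,0,0,1,0],[0,0,0,0,0,0,0,1]],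
   [[1,0,0,0,0,0,0,0],[0,1,0,1,0,0,0,0],[-1,0,1,0,0,0,0,0],[0,0,0,1,0,0,0,0],[0,0,0,0,1,0,0,0],[0,0,0,0,0,1,0,0],[0,0,0,0,0,0,1,0],[0,0,0,0,0,0,0,1]]),
  ([[1,0,0,0,1,0,0,0],[0,1,0,0,0,0,0,0],[0,0,1,0,0,0,0,0],[0,0,0,1,0,0,0,0],[0,0,0,0,1,0,0,0],[0,-1,0,0,0,1,0,0],[0,0,0,0,0,0,1,0],[0,0,0,0,0,0,0,1]],
   [[1,0,0,0,-1,0,0,0],[0,1,0,0,0,0,0,0],[0,0,1,0,0,0,0,0],[0,0,0,1,0,0,0,0],[0,0,0,0,1,0,0,0],[0,1,0,0,0,1,0,0],[0,0,0,0,0,0,1,0],[0,0,0,0,0,0,0,1]]),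
  ([[1,0,0,0,0,0,0,0],[0,1,0,0,0,-1,0,0],[0,0,1,0,0,0,0,0],[0,0,0,1,0,0,0,0],[1,0,0,0,1,0,0,0],[0,0,0,0,0,1,0,0],[0,0,0,0,0,0,1,0],[0,0,0,0,0,0,0,1]],
   [[1,0,0,0,0,0,0,0],[0,1,0,0,0,1,0,0],[0,0,1,0,0,0,0,0],[0,0,0,1,0,0,0,0],[-1,0,0,0,1,0,0,0],[0,0,0,0,0,1,0,0],[0,0,0,0,0,0,1,0],[0,0,0,0,0,0,0,1]]),
  ([[1,0,0,0,0,0,0,0],[0,1,0,0,0,0,0,0],[0,0,1,0,1,0,0,0],[0,0,0,1,0,0,0,0],[0,0,0,0,1,0,0,0],[0,0,0,-1,0,1,0,0],[0,0,0,0,0,0,1,0],[0,0,0,0,0,0,0,1]],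
   [[1,0,0,0,0,0,0,0],[0,1,0,0,0,0,0,0],[0,0,1,0,-1,0,0,0],[0,0,0,1,0,0,0,0],[0,0,0,0,1,0,0,0],[0,0,0,1,0,1,0,0],[0,0,0,0,0,0,1,0],[0,0,0,0,0,0,0,1]]),
  ([[1,0,0,0,0,0,0,0],[0,1,0,0,0,0,0,0],[0,0,1,0,0,0,0,0],[0,0,0,1,0,-1,0,0],[0,0,1,0,1,0,0,0],[0,0,0,0,0,1,0,0],[0,0,0,0,0,0,1,0],[0,0,0,0,0,0,0,1]],
   [[1,0,0,0,0,0,0,0],[0,1,0,0,0,0,0,0],[0,0,1,0,0,0,0,0],[0,0,0,1,0,1,0,0],[0,0,-1,0,1,0,0,0],[0,0,0,0,0,1,0,0],[0,0,0,0,0,0,1,0],[0,0,0,0,0,0,0,1]]),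
  ([[1,1,0,0,0,0,0,0],[0,1,0,0,0,0,0,0],[0,0,1,0,0,0,0,0],[0,0,0,1,0,0,0,0],[0,0,0,0,1,0,0,0],[0,0,0,0,0,1,0,0],[0,0,0,0,0,0,1,0],[0,0,0,0,0,0,0,1]],
   [[1,-1,0,0,0,0,0,0],[0,1,0,0,0,0,0,0],[0,0,1,0,0,0,0,0],[0,0,0,1,0,0,0,0],[0,0,0,0,1,0,0,0],[0,0,0,0,0,1,0,0],[0,0,0,0,0,0,1,0],[0,0,0,0,0,0,0,1]]),
  ([[1,0,0,-1,0,0,0,0],[0,1,0,0,0,0,0,0],[0,-1,1,0,0,0,0,0],[0,0,0,1,0,0,0,0],[0,0,0,0,1,0,0,0],[0,0,0,0,0,1,0,0],[0,0,0,0,0,0,1,0],[0,0,0,0,0,0,0,1]],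
   [[1,0,0,1,0,0,0,0],[0,1,0,0,0,0,0,0],[0,1,1,0,0,0,0,0],[0,0,0,1,0,0,0,0],[0,0,0,0,1,0,0,0],[0,0,0,0,0,1,0,0],[0,0,0,0,0,0,1,0],[0,0,0,0,0,0,0,1]])]

def stepsCO : List Step := [
  ⟨none, [(4, true), (8, true), (4, false), (8, false)], [[1,0,0,0,0,0,0,0],[0,1,0,0,0,0,0,0],[0,0,1,0,0,-1,0,0],[0,0,0,1,0,0,0,0],[0,0,0,-1,1,0,0,0],[0,0,0,0,0,1,0,0],[0,0,0,0,0,0,1,0],[0,0,0,0,0,0,0,1]],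
   [[1,0,0,0,0,0,0,0],[0,1,0,0,0,0,0,0],[0,0,1,0,0,1,0,0],[0,0,0,1,0,0,0,0],[0,0,0,1,1,0,0,0],[0,0,0,0,0,1,0,0],[0,0,0,0,0,0,1,0],[0,0,0,0,0,0,0,1]]⟩,
  ⟨none, [(0, true), (9, true), (0, false), (5, true)], [[1,0,0,0,0,0,0,0],[0,1,0,0,0,0,0,0],[0,0,1,0,0,0,1,0],[0,0,0,1,0,0,0,0],[0,0,0,0,1,0,0,0],[0,0,0,0,0,1,0,0],[0,0,0,0,0,0,1,0],[0,0,0,-1,0,0,0,1]],
   [[1,0,0,0,0,0,0,0],[0,1,0,0,0,0,0,0],[0,0,1,0,0,0,-1,0],[0,0,0,1,0,0,0,0],[0,0,0,0,1,0,0,0],[0,0,0,0,0,1,0,0],[0,0,0,0,0,0,1,0],[0,0,0,1,0,0,0,1]]⟩,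
  ⟨none, [(1, true), (10, true), (1, false), (10, false)], [[1,0,0,0,0,0,1,0],[0,1,0,0,0,0,0,0],[0,0,1,0,0,0,0,0],[0,0,0,1,0,0,0,0],[0,0,0,0,1,0,0,0],[0,0,0,0,0,1,0,0],[0,0,0,0,0,0,1,0],[0,-1,0,0,0,0,0,1]],
   [[1,0,0,0,0,0,-1,0],[0,1,0,0,0,0,0,0],[0,0,1,0,0,0,0,0],[0,0,0,1,0,0,0,0],[0,0,0,0,1,0,0,0],[0,0,0,0,0,1,0,0],[0,0,0,0,0,0,1,0],[0,1,0,0,0,0,0,1]]⟩,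
  ⟨none, [(6, true), (10, true), (6, false), (10, false)], [[1,0,0,0,0,0,0,0],[0,1,0,0,0,0,0,0],[0,0,1,0,0,0,0,0],[0,0,0,1,0,0,0,0],[0,0,0,0,1,0,1,0],[0,0,0,0,0,1,0,0],[0,0,0,0,0,0,1,0],[0,0,0,0,0,-1,0,1]],
   [[1,0,0,0,0,0,0,0],[0,1,0,0,0,0,0,0],[0,0,1,0,0,0,0,0],[0,0,0,1,0,0,0,0],[0,0,0,0,1,0,-1,0],[0,0,0,0,0,1,0,0],[0,0,0,0,0,0,1,0],[0,0,0,0,0,1,0,1]]⟩,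
  ⟨none, [(12, false), (0, true), (12, true), (0, false), (12, true)], [[1,0,0,0,0,0,0,0],[0,1,0,0,0,0,0,0],[0,0,1,0,0,0,0,0],[0,0,0,1,0,0,0,0],[0,0,0,0,1,0,0,0],[0,0,0,0,0,1,0,-1],[0,0,0,0,1,0,1,0],[0,0,0,0,0,0,0,1]],
   [[1,0,0,0,0,0,0,0],[0,1,0,0,0,0,0,0],[0,0,1,0,0,0,0,0],[0,0,0,1,0,0,0,0],[0,0,0,0,1,0,0,0],[0,0,0,0,0,1,0,1],[0,0,0,0,-1,0,1,0],[0,0,0,0,0,0,0,1]]⟩,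
  ⟨none, [(4, true), (13, true), (4, false), (13, false)], [[1,0,0,0,0,0,0,0],[0,1,0,0,0,0,0,1],[0,0,1,0,0,0,0,0],[0,0,0,1,0,0,0,0],[0,0,0,0,1,0,0,0],[0,0,0,0,0,1,0,0],[-1,0,0,0,0,0,1,0],[0,0,0,0,0,0,0,1]],
   [[1,0,0,0,0,0,0,0],[0,1,0,0,0,0,0,-1],[0,0,1,0,0,0,0,0],[0,0,0,1,0,0,0,0],[0,0,0,0,1,0,0,0],[0,0,0,0,0,1,0,0],[1,0,0,0,0,0,1,0],[0,0,0,0,0,0,0,1]]⟩,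
  ⟨none, [(6, true), (13, true), (6, false), (13, false)], [[1,0,0,0,0,0,0,0],[0,1,0,0,0,0,0,0],[0,0,1,0,0,0,0,0],[0,0,0,1,0,0,0,1],[0,0,0,0,1,0,0,0],[0,0,0,0,0,1,0,0],[0,0,-1,0,0,0,1,0],[0,0,0,0,0,0,0,1]],
   [[1,0,0,0,0,0,0,0],[0,1,0,0,0,0,0,0],[0,0,1,0,0,0,0,0],[0,0,0,1,0,0,0,-1],[0,0,0,0,1,0,0,0],[0,0,0,0,0,1,0,0],[0,0,1,0,0,0,1,0],[0,0,0,0,0,0,0,1]]⟩,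
  ⟨none, [(0, true), (15, true), (0, false)], [[1,0,0,0,0,0,0,0],[0,1,0,0,0,0,0,0],[0,0,1,0,0,0,0,0],[0,0,0,1,-1,0,0,0],[0,0,0,0,1,0,0,0],[0,0,-1,0,0,1,0,0],[0,0,0,0,0,0,1,0],[0,0,0,0,0,0,0,1]],
   [[1,0,0,0,0,0,0,0],[0,1,0,0,0,0,0,0],[0,0,1,0,0,0,0,0],[0,0,0,1,1,0,0,0],[0,0,0,0,1,0,0,0],[0,0,1,0,0,1,0,0],[0,0,0,0,0,0,1,0],[0,0,0,0,0,0,0,1]]⟩,
  ⟨none, [(16, true), (2, true), (16, false), (2, false)], [[1,0,0,0,0,0,0,0],[0,1,0,0,-1,0,0,0],[0,0,1,0,0,0,0,0],[0,0,0,1,0,0,0,0],[0,0,0,0,1,0,0,0],[-1,0,0,0,0,1,0,0],[0,0,0,0,0,0,1,0],[0,0,0,0,0,0,0,1]],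
   [[1,0,0,0,0,0,0,0],[0,1,0,0,1,0,0,0],[0,0,1,0,0,0,0,0],[0,0,0,1,0,0,0,0],[0,0,0,0,1,0,0,0],[1,0,0,0,0,1,0,0],[0,0,0,0,0,0,1,0],[0,0,0,0,0,0,0,1]]⟩,
  ⟨none, [(17, true), (12, true), (17, false), (12, false)], [[1,0,0,0,0,0,0,0],[0,1,0,0,0,0,-1,0],[0,0,1,0,0,0,0,0],[0,0,0,1,0,0,0,0],[0,0,0,0,1,0,0,0],[0,0,0,0,0,1,0,0],[0,0,0,0,0,0,1,0],[-1,0,0,0,0,0,0,1]],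
   [[1,0,0,0,0,0,0,0],[0,1,0,0,0,0,1,0],[0,0,1,0,0,0,0,0],[0,0,0,1,0,0,0,0],[0,0,0,0,1,0,0,0],[0,0,0,0,0,1,0,0],[0,0,0,0,0,0,1,0],[1,0,0,0,0,0,0,1]]⟩,
  ⟨none, [(0, true), (14, true), (0, false), (3, false), (17, true)], [[1,0,0,0,0,0,0,0],[0,1,0,0,0,0,0,0],[0,0,1,0,0,0,0,0],[0,0,0,1,0,0,0,0],[0,0,0,0,1,0,0,0],[0,0,0,0,-1,1,0,0],[0,0,0,0,0,0,1,0],[0,0,0,0,0,0,0,1]],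
   [[1,0,0,0,0,0,0,0],[0,1,0,0,0,0,0,0],[0,0,1,0,0,0,0,0],[0,0,0,1,0,0,0,0],[0,0,0,0,1,0,0,0],[0,0,0,0,1,1,0,0],[0,0,0,0,0,0,1,0],[0,0,0,0,0,0,0,1]]⟩,
  ⟨none, [(0, true), (19, true), (0, false)], [[1,0,0,0,0,0,0,0],[0,1,0,0,0,0,0,0],[0,0,1,0,0,0,0,0],[0,0,0,1,0,0,0,0],[0,0,0,0,1,0,0,0],[0,0,0,0,0,1,0,0],[0,0,0,0,0,0,1,1],[0,0,0,0,0,0,0,1]],
   [[1,0,0,0,0,0,0,0],[0,1,0,0,0,0,0,0],[0,0,1,0,0,0,0,0],[0,0,0,1,0,0,0,0],[0,0,0,0,1,0,0,0],[0,0,0,0,0,1,0,0],[0,0,0,0,0,0,1,-1],[0,0,0,0,0,0,0,1]]⟩,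
  ⟨none, [(7, true), (18, true), (7, false), (11, true), (18, false)], [[1,0,0,0,0,0,0,0],[0,1,0,0,0,0,0,0],[0,0,1,0,0,0,0,0],[0,0,0,1,0,0,0,0],[0,0,0,0,1,0,0,0],[0,0,0,0,0,1,0,0],[0,0,0,0,0,0,1,0],[0,0,0,0,0,0,-1,1]],
   [[1,0,0,0,0,0,0,0],[0,1,0,0,0,0,0,0],[0,0,1,0,0,0,0,0],[0,0,0,1,0,0,0,0],[0,0,0,0,1,0,0,0],[0,0,0,0,0,1,0,0],[0,0,0,0,0,0,1,0],[0,0,0,0,0,0,1,1]]⟩]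


theorem checkCE : check 6 [] gensCE stepsCE = true := by decide +kernel
theorem checkCO : check 8 [] gensCO stepsCO = true := by decide +kernel

/-- local form of the generators -/
def zCE : LM := mulL 6 (extL 6 0 2 J1L) (extL 6 4 2 J0L)
def zCE' : LM := mulL 6 (extL 6 0 2 J1L') (extL 6 4 2 J0L')
def zCO : LM := mulL 8 (extL 8 0 2 J1L) (extL 8 4 4 t1L)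
def zCO' : LM := mulL 8 (extL 8 0 2 J1L') (extL 8 4 4 t1L')

theorem gensCE_eq : gensCE = (zCE, zCE') ::
    [(2, some 1), (0, some 5), (4, some 1), (4, some 3)].map (genC 6) := by decide +kernel
theorem gensCO_eq : gensCO = (zCO, zCO') ::
    [(0, some 3), (2, some 1), (0, some 5), (4, some 1), (2, some 5), (4, some 3), (0, none),
      (0, some 2)].map (genC 8) := by decide +kernel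

theorem checkGensCE : checkGens 6 gensCE = true := by decide +kernel
theorem checkGensCO : checkGens 8 gensCO = true := by decide +kernel

theorem targetCE_e : hasTarget stepsCE (llC 6 4 1) = true := by decide +kernel
theorem targetCE_f : hasTarget stepsCE (llC 6 5 1) = true := by decide +kernel
theorem targetCO_ef : hasTarget stepsCO (rlC 8 4 7 1) = true := by decide +kernel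
theorem targetCO_fe : hasTarget stepsCO (rlC 8 6 5 1) = true := by decide +kernel
theorem targetCO_e : hasTarget stepsCO (llC 8 6 1) = true := by decide +kernel
theorem targetCO_f : hasTarget stepsCO (llC 8 7 1) = true := by decide +kernel

end MP9bf44d
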