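import Pool.Agent.Lib.H68.C6
import Pool.Agent.Lib.H68.TermCD

/-! # Relations and terminal steps (type C) -/

namespace MP9bf44d

open Matrix

set_option linter.unusedSectionVars false
set_option linter.unusedSimpArgs false

section General

variable {m m' N : Type*} [Fintype m] [DecidableEq m] [Fintype m'] [DecidableEq m']
  [Fintype N] [DecidableEq N]

lemma conj_act {σ : m → N} {σ' : m' → N} {g g' : Matrix N N ℤ} {T : Matrix m' m ℤ}
    {T' : Matrix m m' ℤ} (h : Act σ σ' g g' T T') (hgg : g * g' = 1) (hT : T * T' = 1)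
    (A : Matrix m m ℤ) : g * emb σ A * g' = emb σ' (T * A * T') := by
  unfold emb lift
  rw [Matrix.mul_add, Matrix.add_mul, Matrix.mul_one, hgg]
  congr 1
  calc g * (pmat σ * (A - 1) * (pmat σ)ᵀ) * g'
      = (g * pmat σ) * (A - 1) * ((pmat σ)ᵀ * g') := by simp only [Matrix.mul_assoc]
    _ = pmat σ' * (T * (A - 1) * T') * (pmat σ')ᵀ := by
        rw [h.left, h.right]; simp only [Matrix.mul_assoc]
    _ = _ := by rw [Matrix.mul_sub, Matrix.sub_mul, Matrix.mul_one, hT]

lemma comm_of_conj {g g' E : Matrix N N ℤ} (hgg : g * g' = 1) (h : g * E * g' = E) :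
    g * E = E * g := by
  have hg' : g' * g = 1 := mul_eq_one_comm.mp hgg
  calc g * E = g * E * (g' * g) := by rw [hg', Matrix.mul_one]
    _ = (g * E * g') * g := by simp only [Matrix.mul_assoc]
    _ = _ := by rw [h]

lemma Act.comm {σ : m → N} {g g' : Matrix N N ℤ} (h : Act σ σ g g' 1 1) (hgg : g * g' = 1)
    (A : Matrix m m ℤ) : g * MP9bf44d.emb σ A = MP9bf44d.emb σ A * g := by
  apply comm_of_conj hgg
  rw [conj_act h hgg (by rw [Matrix.mul_one]), Matrix.one_mul, Matrix.mul_one]

end General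

variable {l : ℕ} {G : Subgroup (Matrix (WP l) (WP l) ℤ)ˣ}

/-- `PD` commutes with matrices on fixed planes -/
lemma PD_comm {s k : ℕ} (h : s + 2 * k ≤ l) {r : ℕ} {qs : Fin r → Fin l}
    (hq : ∀ i, (qs i : ℕ) < s ∨ s + 2 * k ≤ (qs i : ℕ)) (T : Matrix (Fin (2 * r)) (Fin (2 * r)) ℤ) :
    PD l s k h * emb (sgC qs) T = emb (sgC qs) T * PD l s k h := by
  have A := act_PD (m := Fin (2 * r)) h (sgC qs)
  have e1 : planeW (pairPerm l s k h) ∘ sgC qs = sgC qs := by
    rw [planeW_sgC]
    congr 1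
    funext i
    apply Fin.ext
    have := hq i
    simp only [Function.comp, pairPerm_val, pairFun]
    split_ifs <;> omega
  have e2 : (diagonal (sgn s k ∘ sgC qs) : Matrix (Fin (2 * r)) (Fin (2 * r)) ℤ) = 1 := by
    rw [← diagonal_one]
    congr 1
    funext i
    have := hq ⟨(i : ℕ) / 2, by omega⟩
    simp only [Function.comp, sgn, sgC]
    split_ifs <;> omega
  rw [e1, e2] at A
  exact A.comm (PD_mul_PD' h) T

/-- diagonal of signs on planes -/
def dg (l : ℕ) (p : ℕ → Prop) [DecidablePred p] : Matrix (WP l) (WP l) ℤ :=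
  diagonal fun u => if p (u.1 : ℕ) then -1 else 1

lemma PD_sq {s k : ℕ} (h : s + 2 * k ≤ l) :
    PD l s k h * PD l s k h = dg l (fun i => s ≤ i ∧ i < s + 2 * k) := by
  unfold PD
  have h1 := diagonal_mul_pmat (sgn s k) (planeW (pairPerm l s k h))
  have h2 : pmat (planeW (pairPerm l s k h)) * pmat (planeW (pairPerm l s k h)) = 1 := by
    rw [pmat_planeW_mul, pairPerm_mul_self, pmat_planeW_one]
  calc _ = pmat (planeW (pairPerm l s k h)) * (diagonal (sgn s k) *
        pmat (planeW (pairPerm l s k h))) * diagonal (sgn s k) := by simp only [Matrix.mul_assoc]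
    _ = (pmat (planeW (pairPerm l s k h)) * pmat (planeW (pairPerm l s k h))) *
        (diagonal (sgn s k ∘ planeW (pairPerm l s k h)) * diagonal (sgn s k)) := by
        rw [h1]; simp only [Matrix.mul_assoc]
    _ = _ := by
        rw [h2, Matrix.one_mul, diagonal_mul_diagonal, dg]
        congr 1
        funext u
        simp only [Function.comp, planeW_apply, sgn, pairPerm_val, pairFun]
        split_ifs <;> omega

/-- the square of a local matrix which is `-1` -/
lemma emb_neg {r : ℕ} {qs : Fin r → Fin l} (hq : Function.Injective qs) (p : ℕ → Prop)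
    [DecidablePred p] (hp : ∀ i : Fin l, p (i : ℕ) ↔ ∃ j, i = qs j) :
    emb (sgC qs) (-1 : Matrix (Fin (2 * r)) (Fin (2 * r)) ℤ) = dg l p := by
  unfold dg
  rw [diag_eq_emb (sgC_injective hq)]
  · congr 1
    rw [← diagonal_one, diagonal_neg]
    congr 1
    funext i
    have : p ((sgC qs i).1 : ℕ) := (hp _).mpr ⟨_, rfl⟩
    simp [this]
  · rintro ⟨i, b⟩ hx
    have : ¬ p (i : ℕ) := by
      rw [hp]
      rintro ⟨j, hj⟩
      apply hx ⟨2 * (j : ℕ) + (if b then 0 else 1), by split_ifs <;> omega⟩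
      simp only [sgC, Prod.mk.injEq]
      constructor
      · rw [hj]; congr 1; ext; simp only; split_ifs <;> omega
      · cases b
        · simp only [Bool.false_eq_true, if_false]; symm; rw [decide_eq_false_iff_not]; omega
        · simp only [if_true]; symm; rw [decide_eq_true_iff]; omega
    simp [this]

lemma emb_local_sq {r : ℕ} {qs : Fin r → Fin l} (hq : Function.Injective qs) (p : ℕ → Prop)
    [DecidablePred p] (hp : ∀ i : Fin l, p (i : ℕ) ↔ ∃ j, i = qs j) (T T2 : LM)
    (hT : WF (2 * r) T = true) (h : mulL (2 * r) T T = T2)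
    (h2 : toMat (2 * r) T2 = -1) :
    emb (sgC qs) (toMat (2 * r) T) * emb (sgC qs) (toMat (2 * r) T) = dg l p := by
  rw [← emb_mul (sgC_injective hq), ← mulL_toMat hT hT, h, h2, emb_neg hq p hp]

/-- `c² = -1` -/
lemma cM_sq {kc : ℕ} (h1 : 1 ≤ l) (hc : 1 + 2 * kc ≤ l) {r : ℕ} {qs : Fin r → Fin l} {T : LM}
    (hq : ∀ i, 1 + 2 * kc ≤ (qs i : ℕ))
    (hZ : emb (sgC qs) (toMat (2 * r) T) * emb (sgC qs) (toMat (2 * r) T) =
      dg l (fun i => 1 + 2 * kc ≤ i)) :
    cM l kc h1 hc (emb (sgC qs) (toMat (2 * r) T)) *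
      cM l kc h1 hc (emb (sgC qs) (toMat (2 * r) T)) = -1 := by
  unfold cM
  set J := emb (sgC (segC l 0 1 (by omega))) (toMat 2 J1L) with hJ
  set P := PD l 1 kc hc with hP
  set Z := emb (sgC qs) (toMat (2 * r) T) with hZdef
  have c1 : P * J = J * P := PD_comm hc (fun i => by simp only [segC]; omega) _
  have c2 : P * Z = Z * P := PD_comm hc (fun i => Or.inr (hq i)) _
  have c3 : J * Z = Z * J := by
    apply emb_commute
    intro i j hij
    have := congrArg (fun u : WP l => (u.1 : ℕ)) hij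
    simp only [sgC, segC] at this
    have h3 := hq ⟨(j : ℕ) / 2, by omega⟩
    omega
  have hJ2 : J * J = dg l (fun i => i = 0) := by
    rw [hJ]
    refine emb_local_sq (r := 1) (segC_inj _) _ ?_ J1L [[-1, 0], [0, -1]] (by decide +kernel)
      (by decide +kernel) ?_
    · intro i
      constructor
      · intro hi
        refine ⟨0, ?_⟩
        ext; simp [segC, hi]
      · rintro ⟨j, rfl⟩
        simp [segC]
    · ext i j; fin_cases i <;> fin_cases j <;> simp [toMat]
  calc J * (P * Z) * (J * (P * Z)) = J * P * (Z * J) * (P * Z) := by simp only [Matrix.mul_assoc]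
    _ = J * P * (J * Z) * (P * Z) := by rw [c3]
    _ = J * (P * J) * (Z * P) * Z := by simp only [Matrix.mul_assoc]
    _ = J * (J * P) * (P * Z) * Z := by rw [c1, c2]
    _ = (J * J) * (P * P) * (Z * Z) := by simp only [Matrix.mul_assoc]
    _ = -1 := by
        rw [hJ2, PD_sq, hZ]
        unfold dg
        rw [diagonal_mul_diagonal, diagonal_mul_diagonal, ← diagonal_one, diagonal_neg]
        congr 1
        funext u
        split_ifs <;> omega

lemma bCM_sq (h8 : 8 ≤ l) : bCM h8 * bCM h8 = 1 := by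
  unfold bCM
  rw [← emb_mul (sgC_injective (segC_inj _)), ← mulL_toMat (by decide +kernel)
    (by decide +kernel)]
  have : mulL 16 (extL 16 0 8 bC8) (extL 16 0 8 bC8) = oneL 16 := by decide +kernel
  rw [this, oneL_toMat, emb_one]

lemma bCM_comm (h8 : 8 ≤ l) {πa : Equiv.Perm (Fin l)}
    (hπa : ∀ i : Fin l, (i : ℕ) < 8 → ((πa i : Fin l) : ℕ) = pairFun 0 4 i) :
    pmat (planeW πa) * bCM h8 = bCM h8 * pmat (planeW πa) := by
  unfold bCM
  apply comm_of_conj (pmat_equiv_mul_transpose _)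
  have A1 := Act.perm (σ := sgC (segC l 0 8 (by omega))) (planeW πa)
  rw [planeW_segC (s' := 0) (k := 4) (by omega) (by norm_num) (by
    intro i hi1 hi2
    rw [hπa i (by omega)]
    simp)] at A1
  have A2 := A1.absorb
  have e1 : pmat (locN 8 0 4 (by norm_num)) =
      toMat 16 (rulesNC.getD 0 ⟨0, [], []⟩).T :=
    pmat_locN (by norm_num) _ (by decide +kernel)
  have e2 : (pmat (locN 8 0 4 (by norm_num)))ᵀ =
      toMat 16 (rulesNC.getD 0 ⟨0, [], []⟩).T' := by
    rw [e1]
    ext i j
    simp only [transpose_apply, toMat]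
    revert i j
    decide +kernel
  rw [conj_act A2 (pmat_equiv_mul_transpose _) (by
        rw [Matrix.mul_one, Matrix.one_mul]
        exact pmat_equiv_mul_transpose (locN 8 0 4 (by norm_num)))]
  rw [Matrix.mul_one, Matrix.one_mul, e2, e1, ← mulL_toMat (by decide +kernel)
    (by decide +kernel), ← mulL_toMat (by decide +kernel) (by decide +kernel)]
  congr 2

/-- the element `ζ` -/
lemma mem_zeta {K : ℕ} (hF : FullGL G K) {kc : ℕ} (h1 : 1 ≤ l) (hc : 1 + 2 * kc ≤ l)
    (hK : 1 + 2 * kc ≤ K) {Z : Matrix (WP l) (WP l) ℤ} (hg : Mem G (cM l kc h1 hc Z)) :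
    Mem G (emb (sgC (segC l 0 1 (by omega))) (toMat 2 J1L) * Z) := by
  have h2 := mem_PD hF hc hK
  have h3 := Mem.inv (PD_mul_PD' hc) h2
  have h4 := h3.mul hg
  have c1 := PD_comm hc (qs := segC l 0 1 (by omega)) (fun i => by simp only [segC]; omega)
    (toMat 2 J1L)
  have e : PD' l 1 kc hc * cM l kc h1 hc Z =
      emb (sgC (segC l 0 1 (by omega))) (toMat 2 J1L) * Z := by
    unfold cM
    calc _ = PD' l 1 kc hc * (emb (sgC (segC l 0 1 (by omega))) (toMat 2 J1L) * PD l 1 kc hc) *
          Z := by simp only [Matrix.mul_assoc]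
      _ = (PD' l 1 kc hc * PD l 1 kc hc) *
          (emb (sgC (segC l 0 1 (by omega))) (toMat 2 J1L) * Z) := by
          rw [← c1]; simp only [Matrix.mul_assoc]
      _ = _ := by rw [mul_eq_one_comm.mp (PD_mul_PD' hc), Matrix.one_mul]
  rwa [e] at h4

end MP9bf44d
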