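import Pool.Agent.Lib.H68.Transfer4

/-! # The transfer theorem -/

namespace MP9bf44d

open LieAlgebra LieSubalgebra Set

attribute [local instance] LieRing.ofAssociativeRing

section Final

variable {ι K L n : Type*} [Finite ι] [Field K] [CharZero K] [LieRing L] [LieAlgebra K L]
  [Fintype n] [DecidableEq n]
  {H : LieSubalgebra K L} (B : LieAlgebra.Basis ι H)

/-- Casting integer matrices to `K`. -/
abbrev castM (K n : Type*) [Field K] [Fintype n] [DecidableEq n] :
    Matrix n n ℤ →+* Matrix n n K := (Int.castRingHom K).mapMatrix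

lemma castM_injective : Function.Injective (castM K n) := by
  intro a b h
  ext i j
  have := congrFun (congrFun h i) j
  simpa using this

lemma castM_lie (a b : Matrix n n ℤ) : castM K n ⁅a, b⁆ = ⁅castM K n a, castM K n b⁆ := by
  rw [Ring.lie_def, Ring.lie_def, map_sub, map_mul, map_mul]

variable {e f : ι → Matrix n n ℤ} {X Y : ι → (Matrix n n ℤ)ˣ}

omit [Finite ι] in
lemma IsModel.chevRel {A : Matrix ι ι ℤ} (hM : IsModel A e f X Y) :
    ChevRel A (fun i => castM K n (e i)) (fun i => castM K n (f i)) where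
  ne i h := hM.e_ne_zero i (castM_injective (by rw [h, map_zero]))
  ef i j hij := by rw [← castM_lie, hM.lie_e_f_ne i j hij, map_zero]
  he i j := by rw [← castM_lie, ← castM_lie, hM.lie_h_e, map_zsmul]
  hf i j := by rw [← castM_lie, ← castM_lie, hM.lie_h_f, map_neg, map_zsmul]
  hh i j := by rw [← castM_lie, ← castM_lie, ← castM_lie, hM.lie_h_h, map_zero]

lemma cast_eq_E2 {e X : Matrix n n ℤ} (h : 2 • X = 2 • 1 + 2 • e + e * e) :
    castM K n X = E2 (castM K n e) := by
  have h1 := congrArg (castM K n) h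
  rw [map_nsmul, map_add, map_add, map_nsmul, map_nsmul, map_mul, map_one] at h1
  unfold E2
  have h2 : castM K n X = (2 : K)⁻¹ • ((2 : ℕ) • castM K n X) := by
    rw [← Nat.cast_smul_eq_nsmul K, smul_smul]; simp
  rw [h2, h1]
  simp only [← Nat.cast_smul_eq_nsmul K, smul_add, smul_smul]
  simp

lemma cast_cube {e : Matrix n n ℤ} (h : e * e * e = 0) :
    castM K n e * castM K n e * castM K n e = 0 := by
  rw [← map_mul, ← map_mul, h, map_zero]

/-- the induced map on units -/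
noncomputable abbrev castU (K n : Type*) [Field K] [Fintype n] [DecidableEq n] :
    (Matrix n n ℤ)ˣ →* (Matrix n n K)ˣ := Units.map (castM K n : Matrix n n ℤ →* Matrix n n K)

lemma E2_zero : E2 (0 : Matrix n n K) = 1 := by simp [E2]

lemma zpow_E2 {z : Matrix n n K} (hz : z * z * z = 0) {g : (Matrix n n K)ˣ}
    (hg : (g : Matrix n n K) = E2 z) (t : ℤ) :
    ((g ^ t : (Matrix n n K)ˣ) : Matrix n n K) = E2 (t • z) := by
  have hpow : ∀ m : ℕ, ((g ^ m : (Matrix n n K)ˣ) : Matrix n n K) = E2 ((m : K) • z) := by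
    intro m
    induction m with
    | zero => simp [E2_zero]
    | succ m ih =>
      rw [pow_succ, Units.val_mul, ih, hg]
      have := E2_mul hz (m : K) 1
      rw [one_smul] at this
      rw [this]
      push_cast; rfl
  have hinv : ∀ m : ℕ, ((g ^ (-(m : ℤ)) : (Matrix n n K)ˣ) : Matrix n n K) =
      E2 (-(m : K) • z) := by
    intro m
    have h1 : (g ^ (-(m : ℤ)) : (Matrix n n K)ˣ) = (g ^ m)⁻¹ := by simp
    rw [h1, Units.inv_eq_of_mul_eq_one_right]
    rw [hpow]
    have := E2_mul hz (m : K) (-(m : K))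
    rw [this]; simp [E2_zero]
  have hcast : (t • z : Matrix n n K) = (t : K) • z := (Int.cast_smul_eq_zsmul K t z).symm
  rw [hcast]
  obtain ⟨m, rfl | rfl⟩ := t.eq_nat_or_neg
  · rw [zpow_natCast, hpow]; simp
  · rw [hinv]; simp

lemma graph_zsmul_e (i : ι) (t : ℤ) (e' f' : ι → Matrix n n K) :
    (t • B.e i, t • e' i) ∈ graph B e' f' := by
  have := (graph B e' f').toSubmodule.toAddSubgroup.zsmul_mem (graph_e B e' f' i) t
  simpa using this

lemma graph_zsmul_f (i : ι) (t : ℤ) (e' f' : ι → Matrix n n K) :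
    (t • B.f i, t • f' i) ∈ graph B e' f' := by
  have := (graph B e' f').toSubmodule.toAddSubgroup.zsmul_mem (graph_f B e' f' i) t
  simpa using this

lemma zsmul_cube {z : Matrix n n K} (hz : z * z * z = 0) (t : ℤ) :
    (t • z) * (t • z) * (t • z) = 0 := by
  simp only [smul_mul_assoc, mul_smul_comm, hz, smul_zero]

section sl2

variable [IsSimple K L]

/-- Facts on the exponentials of an `sl₂`-triple. -/
lemma sl2_facts {h e f : L} (S : IsSl2Triple h e f) (he5 : (ad K L e) ^ 5 = 0)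
    (hf5 : (ad K L f) ^ 5 = 0) :
    expAd K e f = f + h - e ∧ expAd K e h = h - (2 : K) • e ∧ expAd K e e = e ∧
    expAd K f e = e - h - f ∧ expAd K f h = h + (2 : K) • f ∧ expAd K f f = f := by
  have hhe : ⁅h, e⁆ = (2 : K) • e := by
    rw [S.lie_h_e_nsmul, ← Nat.cast_smul_eq_nsmul K]; simp
  have hhf : ⁅h, f⁆ = -((2 : K) • f) := by
    rw [S.lie_h_f_nsmul, ← Nat.cast_smul_eq_nsmul K]; simp
  have heh : ⁅e, h⁆ = -((2 : K) • e) := by rw [← lie_skew, hhe]
  have hfh : ⁅f, h⁆ = (2 : K) • f := by rw [← lie_skew, hhf, neg_neg]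
  have hfe : ⁅f, e⁆ = -h := by rw [← lie_skew, S.lie_e_f]
  have hef : ⁅e, f⁆ = h := S.lie_e_f
  refine ⟨?_, ?_, ?_, ?_, ?_, ?_⟩
  · rw [expAd_apply he5, hef, heh]; simp; module
  · rw [expAd_apply he5, heh]; simp; module
  · rw [expAd_apply he5]; simp
  · rw [expAd_apply hf5, hfe]; simp [hfh]; module
  · rw [expAd_apply hf5, hfh]; simp
  · rw [expAd_apply hf5]; simp

lemma sl2_ne {h e f : L} (S : IsSl2Triple h e f) (t : K) (ht : t ≠ 0) (s : K) :
    s • h ≠ t • e := by
  intro h1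
  have hhe : ⁅h, e⁆ = (2 : K) • e := by
    rw [S.lie_h_e_nsmul, ← Nat.cast_smul_eq_nsmul K]; simp
  have h2 : ⁅h, s • h⁆ = ⁅h, t • e⁆ := by rw [h1]
  rw [lie_smul, lie_self, smul_zero, lie_smul, hhe, smul_smul] at h2
  have h3 : IsAddTorsionFree L := .of_isTorsionFree K L
  have : e ≠ 0 := S.e_ne_zero
  rcases smul_eq_zero.mp h2.symm with h4 | h4
  · simp [ht] at h4
  · exact this h4

end sl2

lemma lift_closure {e' f' : ι → Matrix n n K} {S : Set (Matrix n n ℤ)ˣ}
    (T : Subgroup (L →ₗ[K] L)ˣ)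
    (h : ∀ g ∈ S, ∃ θ ∈ T, (castU K n g, θ) ∈ compat B e' f') :
    ∀ g ∈ Subgroup.closure S, ∃ θ ∈ T, (castU K n g, θ) ∈ compat B e' f' := by
  intro g hg
  induction hg using Subgroup.closure_induction with
  | mem u hu => exact h u hu
  | one => exact ⟨1, one_mem _, by rw [map_one]; exact (compat B e' f').one_mem⟩
  | mul u v _ _ hu hv =>
    obtain ⟨θ, h1, h2⟩ := hu
    obtain ⟨θ', h1', h2'⟩ := hv
    refine ⟨θ * θ', mul_mem h1 h1', ?_⟩
    rw [map_mul]
    exact (compat B e' f').mul_mem h2 h2'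
  | inv u _ hu =>
    obtain ⟨θ, h1, h2⟩ := hu
    refine ⟨θ⁻¹, inv_mem h1, ?_⟩
    rw [map_inv]
    exact (compat B e' f').inv_mem h2

lemma castU_neg_one : castU K n (-1) = -1 := by ext1; simp

theorem threeInvolutions_of_model [Nonempty ι] [IsSimple K L] (hM : IsModel B.A e f X Y)
    (a b c : (Matrix n n ℤ)ˣ) (ha : a * a = 1 ∨ a * a = -1) (hb : b * b = 1 ∨ b * b = -1)
    (hc : c * c = 1 ∨ c * c = -1) (hab : a * b = b * a ∨ a * b = -(b * a))
    (hma : a ∈ Subgroup.closure (range X ∪ range Y ∪ {-1}))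
    (hmb : b ∈ Subgroup.closure (range X ∪ range Y ∪ {-1}))
    (hmc : c ∈ Subgroup.closure (range X ∪ range Y ∪ {-1}))
    (hX : ∀ i, X i ∈ Subgroup.closure {a, b, c, -1})
    (hY : ∀ i, Y i ∈ Subgroup.closure {a, b, c, -1}) :
    ThreeInvolutions (Gad B) := by
  classical
  set e' : ι → Matrix n n K := fun i => castM K n (e i) with he'
  set f' : ι → Matrix n n K := fun i => castM K n (f i) with hf'
  have R : ChevRel B.A e' f' := hM.chevRel
  have e3 : ∀ i, e' i * e' i * e' i = 0 := fun i => cast_cube (hM.e_cube i)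
  have f3 : ∀ i, f' i * f' i * f' i = 0 := fun i => cast_cube (hM.f_cube i)
  -- generators
  let x : ι → ℤ → (L →ₗ[K] L)ˣ := fun i t =>
    uexp B R (graph_zsmul_e B i t e' f') (zsmul_cube (e3 i) t)
  let y : ι → ℤ → (L →ₗ[K] L)ˣ := fun i t =>
    uexp B R (graph_zsmul_f B i t e' f') (zsmul_cube (f3 i) t)
  have hx : ∀ i t, (castU K n (X i) ^ t, x i t) ∈ compat B e' f' := fun i t =>
    compat_exp B R _ _ _ (zpow_E2 (e3 i) (cast_eq_E2 (hM.X_eq i)) t)
  have hy : ∀ i t, (castU K n (Y i) ^ t, y i t) ∈ compat B e' f' := fun i t =>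
    compat_exp B R _ _ _ (zpow_E2 (f3 i) (cast_eq_E2 (hM.Y_eq i)) t)
  have hxG : ∀ i t, x i t ∈ Gad B := fun i t => Subgroup.subset_closure ⟨t, i, Or.inl rfl⟩
  have hyG : ∀ i t, y i t ∈ Gad B := fun i t => Subgroup.subset_closure ⟨t, i, Or.inr rfl⟩
  have hneg : castU K n (-1) = -1 := castU_neg_one
  -- lifting elements of the model
  have lift : ∀ g ∈ Subgroup.closure (range X ∪ range Y ∪ {-1}),
      ∃ θ ∈ Gad B, (castU K n g, θ) ∈ compat B e' f' := by
    apply lift_closure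
    rintro u ((⟨i, rfl⟩ | ⟨i, rfl⟩) | hu)
    · have := hx i 1
      rw [zpow_one] at this
      exact ⟨_, hxG i 1, this⟩
    · have := hy i 1
      rw [zpow_one] at this
      exact ⟨_, hyG i 1, this⟩
    · rw [mem_singleton_iff] at hu
      subst hu
      refine ⟨1, one_mem _, ?_⟩
      rw [hneg]
      exact compat_neg_one B
  obtain ⟨α, hαG, hα⟩ := lift a hma
  obtain ⟨β, hβG, hβ⟩ := lift b hmb
  obtain ⟨γ, hγG, hγ⟩ := lift c hmc
  have lift2 : ∀ g ∈ Subgroup.closure {a, b, c, -1},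
      ∃ θ ∈ Subgroup.closure {α, β, γ}, (castU K n g, θ) ∈ compat B e' f' := by
    apply lift_closure
    rintro u (rfl | rfl | rfl | hu)
    · exact ⟨α, Subgroup.subset_closure (by simp), hα⟩
    · exact ⟨β, Subgroup.subset_closure (by simp), hβ⟩
    · exact ⟨γ, Subgroup.subset_closure (by simp), hγ⟩
    · rw [mem_singleton_iff] at hu
      subst hu
      refine ⟨1, one_mem _, ?_⟩
      rw [hneg]
      exact compat_neg_one B
  have hxc : ∀ i t, x i t ∈ Subgroup.closure {α, β, γ} := by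
    intro i t
    obtain ⟨θ, h1, h2⟩ := lift2 _ (zpow_mem (hX i) t)
    rw [map_zpow] at h2
    rw [compat_unique B R (hx i t) h2]
    exact h1
  have hyc : ∀ i t, y i t ∈ Subgroup.closure {α, β, γ} := by
    intro i t
    obtain ⟨θ, h1, h2⟩ := lift2 _ (zpow_mem (hY i) t)
    rw [map_zpow] at h2
    rw [compat_unique B R (hy i t) h2]
    exact h1
  have hGle : Gad B ≤ Subgroup.closure {α, β, γ} := by
    unfold Gad
    rw [Subgroup.closure_le]
    rintro g ⟨t, i, h | h⟩
    · have : g = x i t := Units.ext h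
      rw [this]; exact hxc i t
    · have : g = y i t := Units.ext h
      rw [this]; exact hyc i t
  have hGe : Subgroup.closure {α, β, γ} = Gad B := by
    apply le_antisymm _ hGle
    rw [Subgroup.closure_le]
    rintro g (rfl | rfl | rfl) <;> assumption
  -- relations
  have one_of : ∀ (g : (Matrix n n ℤ)ˣ) (θ : (L →ₗ[K] L)ˣ), (g = 1 ∨ g = -1) →
      (castU K n g, θ) ∈ compat B e' f' → θ = 1 := by
    intro g θ hg hθ
    rcases hg with rfl | rfl
    · rw [map_one] at hθ
      exact compat_unique B R hθ (compat B e' f').one_mem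
    · rw [hneg] at hθ
      exact compat_unique B R hθ (compat_neg_one B)
  have sq : ∀ (g : (Matrix n n ℤ)ˣ) (θ : (L →ₗ[K] L)ˣ), (g * g = 1 ∨ g * g = -1) →
      (castU K n g, θ) ∈ compat B e' f' → θ * θ = 1 := by
    intro g θ hg hθ
    apply one_of _ _ hg
    rw [map_mul]
    exact (compat B e' f').mul_mem hθ hθ
  have hα2 := sq a α ha hα
  have hβ2 := sq b β hb hβ
  have hγ2 := sq c γ hc hγ
  have hαβ : α * β = β * α := by
    have h1 : (castU K n (a * b * (b * a)⁻¹), α * β * (β * α)⁻¹) ∈ compat B e' f' := by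
      rw [map_mul, map_mul, map_inv, map_mul]
      exact (compat B e' f').mul_mem ((compat B e' f').mul_mem hα hβ)
        ((compat B e' f').inv_mem ((compat B e' f').mul_mem hβ hα))
    have h2 : a * b * (b * a)⁻¹ = 1 ∨ a * b * (b * a)⁻¹ = -1 := by
      rcases hab with h | h
      · left; rw [h, mul_inv_cancel]
      · right; rw [h, neg_mul, mul_inv_cancel]
    exact mul_inv_eq_one.mp (one_of _ _ h2 h1)
  -- nontriviality
  obtain ⟨i⟩ := ‹Nonempty ι›
  have S := B.sl2 i
  have he5 : (ad K L (B.e i)) ^ 5 = 0 := ad_pow_five B R (graph_e B e' f' i) (e3 i)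
  have hf5 : (ad K L (B.f i)) ^ 5 = 0 := ad_pow_five B R (graph_f B e' f' i) (f3 i)
  obtain ⟨g1, g2, g3, g4, g5, g6⟩ := sl2_facts S he5 hf5
  have hX1 : ∀ v, (x i 1 : L →ₗ[K] L) v = expAd K (B.e i) v := by
    intro v
    change expAd K ((1 : ℤ) • B.e i) v = _
    rw [one_smul]
  have hY1 : ∀ v, (y i 1 : L →ₗ[K] L) v = expAd K (B.f i) v := by
    intro v
    change expAd K ((1 : ℤ) • B.f i) v = _
    rw [one_smul]
  have hxx : x i 1 * x i 1 ≠ 1 := by
    intro h
    have h1 := congrArg (fun g : (L →ₗ[K] L)ˣ => (g : L →ₗ[K] L) (B.f i)) h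
    simp only [Units.val_mul, Module.End.mul_apply, hX1, g1, map_add, map_sub, g2, g3,
      Units.val_one, Module.End.one_apply] at h1
    apply sl2_ne S (K := K) 4 (by norm_num) 2
    have h2 : (2 : K) • B.h i - (4 : K) • B.e i =
      (B.f i + B.h i - B.e i + (B.h i - (2 : K) • B.e i) - B.e i) - B.f i := by module
    rw [h1, sub_self] at h2
    exact sub_eq_zero.mp h2
  have hyy : y i 1 * y i 1 ≠ 1 := by
    intro h
    have h1 := congrArg (fun g : (L →ₗ[K] L)ˣ => (g : L →ₗ[K] L) (B.e i)) h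
    simp only [Units.val_mul, Module.End.mul_apply, hY1, g4, map_add, map_sub, g5, g6,
      Units.val_one, Module.End.one_apply] at h1
    apply sl2_ne S.symm (K := K) 4 (by norm_num) 2
    have h2 : (2 : K) • (-B.h i) - (4 : K) • B.f i =
      (B.e i - B.h i - B.f i - (B.h i + (2 : K) • B.f i) - B.f i) - B.e i := by module
    rw [h1, sub_self] at h2
    exact sub_eq_zero.mp h2
  have hxy : x i 1 * y i 1 ≠ y i 1 * x i 1 := by
    intro h
    have h1 := congrArg (fun g : (L →ₗ[K] L)ˣ => (g : L →ₗ[K] L) (B.e i)) h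
    simp only [Units.val_mul, Module.End.mul_apply, hX1, hY1, g1, g4, map_add, map_sub, g2, g3]
      at h1
    apply sl2_ne S (K := K) 3 (by norm_num) 1
    have h2 : (1 : K) • B.h i - (3 : K) • B.e i =
      (B.e i - B.h i - B.f i) - (B.e i - (B.h i - (2 : K) • B.e i) - (B.f i + B.h i - B.e i)) := by
      module
    rw [h1, sub_self] at h2
    exact sub_eq_zero.mp h2
  have hxm : x i 1 ∈ Subgroup.closure {α, β, γ} := hxc i 1
  have hym : y i 1 ∈ Subgroup.closure {α, β, γ} := hyc i 1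
  have hα1 : α ≠ 1 := by
    rintro rfl
    rw [Subgroup.closure_insert_one] at hxm hym
    exact hxy (two_inv_comm hβ2 hγ2 hxm hym hxx hyy)
  have hβ1 : β ≠ 1 := by
    rintro rfl
    rw [Set.insert_comm, Subgroup.closure_insert_one] at hxm hym
    exact hxy (two_inv_comm hα2 hγ2 hxm hym hxx hyy)
  have hγ1 : γ ≠ 1 := by
    rintro rfl
    have hs : ({α, β, 1} : Set (L →ₗ[K] L)ˣ) = {1, α, β} := by
      rw [Set.insert_comm, Set.pair_comm, Set.insert_comm]
      ext; simp [or_comm, or_left_comm]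
    rw [hs, Subgroup.closure_insert_one] at hxm hym
    exact hxy (two_inv_comm hα2 hβ2 hxm hym hxx hyy)
  have ord : ∀ (θ : (L →ₗ[K] L)ˣ) (hθ : θ ∈ Gad B), θ * θ = 1 → θ ≠ 1 →
      orderOf (⟨θ, hθ⟩ : Gad B) = 2 := by
    intro θ hθ h2 h1
    rw [Subgroup.orderOf_mk]
    exact orderOf_eq_prime (by rw [pow_two, h2]) h1
  refine ⟨⟨α, hαG⟩, ⟨β, hβG⟩, ⟨γ, hγG⟩, ord _ _ hα2 hα1, ord _ _ hβ2 hβ1, ord _ _ hγ2 hγ1,
    Subtype.ext hαβ, ?_⟩
  rw [eq_top_iff]
  rintro ⟨θ, hθ⟩ -
  have h1 : θ ∈ Subgroup.closure {α, β, γ} := hGle hθ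
  have h2 : Subgroup.map (Gad B).subtype (Subgroup.closure
      ({⟨α, hαG⟩, ⟨β, hβG⟩, ⟨γ, hγG⟩} : Set (Gad B))) = Subgroup.closure {α, β, γ} := by
    rw [MonoidHom.map_closure]
    congr 1
    simp [Set.image_insert_eq]
  rw [← h2] at h1
  obtain ⟨w, hw, hw2⟩ := h1
  have : w = ⟨θ, hθ⟩ := Subtype.ext hw2
  rw [← this]; exact hw

end Final

end MP9bf44d
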