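import Pool.Agent.Lib.H68.MemV
import Pool.Agent.Lib.H68.Transfer5

/-! # The natural models of types B and D -/

namespace MP9bf44d

open Matrix

set_option linter.unusedSectionVars false
set_option linter.unusedSimpArgs false

variable {l : ℕ}

section Single

variable {N : Type*} [Fintype N] [DecidableEq N]

lemma single_mul_single' (a b c d : N) (x y : ℤ) :
    single a b x * single c d y = if b = c then single a d (x * y) else 0 := by
  split_ifs with h
  · subst h; rw [single_mul_single_same]
  · rw [single_mul_single_of_ne _ _ _ _ h]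

lemma diagonal_lie_single (w : N → ℤ) (a b : N) (x : ℤ) :
    ⁅(diagonal w : Matrix N N ℤ), single a b x⁆ = (w a - w b) • single a b x := by
  rw [Ring.lie_def]
  ext i j
  simp only [Matrix.sub_apply, diagonal_mul, mul_diagonal, Matrix.smul_apply, smul_eq_mul,
    single_apply]
  split_ifs with h
  · rw [← h.1, ← h.2]; ring
  · ring

lemma diagonal_lie_diagonal (w w' : N → ℤ) :
    ⁅(diagonal w : Matrix N N ℤ), diagonal w'⁆ = 0 := by
  rw [Ring.lie_def, diagonal_mul_diagonal, diagonal_mul_diagonal]
  ext i j
  by_cases h : i = j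
  · subst h; simp [mul_comm]
  · simp [h]

end Single

/-- long nilpotent elements -/
def NB (u v : WP l) : Matrix (VB l) (VB l) ℤ :=
  single (some v) (some (opp u)) 1 + single (some u) (some (opp v)) (-1)

/-- short nilpotent elements -/
def SB (u : WP l) : Matrix (VB l) (VB l) ℤ :=
  single none (some (opp u)) 1 + single (some u) none (-2)

/-- weight of the coroot `u + v` -/
def wtL (u v : WP l) : VB l → ℤ
  | none => 0
  | some x => (if x = u then 1 else 0) + (if x = v then 1 else 0) - (if x = opp u then 1 else 0)
      - (if x = opp v then 1 else 0)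

/-- weight of the coroot of the short root `u` -/
def wtS (u : WP l) : VB l → ℤ
  | none => 0
  | some x => (if x = u then 2 else 0) - (if x = opp u then 2 else 0)

lemma opp_eq_iff (x u : WP l) : opp x = u ↔ x = opp u := by
  constructor
  · rintro rfl; simp
  · rintro rfl; simp

lemma wtL_opp (u v x : WP l) : wtL u v (some (opp x)) = - wtL u v (some x) := by
  simp only [wtL, opp_eq_iff, opp_opp]; ring

lemma wtS_opp (u x : WP l) : wtS u (some (opp x)) = - wtS u (some x) := by
  simp only [wtS, opp_eq_iff, opp_opp]; ring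

lemma NB_sq {u v : WP l} (h : u.1 ≠ v.1) : NB u v * NB u v = 0 := by
  have h1 : opp u ≠ v := by rintro rfl; simp at h
  have h2 : opp v ≠ u := by rintro rfl; simp at h
  have h3 := opp_ne u
  have h4 := opp_ne v
  simp [NB, mul_add, add_mul, single_mul_single', h1, h2, h3, h4]

lemma SB_sq (u : WP l) : SB u * SB u = single (some u) (some (opp u)) (-2) := by
  have h3 := opp_ne u
  simp [SB, mul_add, add_mul, single_mul_single', h3]

lemma SB_cube (u : WP l) : SB u * SB u * SB u = 0 := by
  rw [SB_sq]
  have h3 := opp_ne u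
  simp [SB, mul_add, single_mul_single', h3]

lemma lie_NB (u v : WP l) (h : u.1 ≠ v.1) :
    ⁅NB v u, NB (opp u) (opp v)⁆ = diagonal (wtL u v) := by
  have h1 : opp u ≠ v := by rintro rfl; simp at h
  have h2 : opp v ≠ u := by rintro rfl; simp at h
  have h0 : u ≠ v := by rintro rfl; simp at h
  have h3 := opp_ne u
  have h4 := opp_ne v
  have h5 : opp u ≠ opp v := by
    intro h'; apply h0; have := congrArg opp h'; simpa using this
  rw [Ring.lie_def]
  have e1 : NB v u * NB (opp u) (opp v) = single (some u) (some u) 1 +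
      single (some v) (some v) 1 := by
    simp [NB, mul_add, add_mul, single_mul_single', h0, h0.symm, h5, h5.symm]
  have e2 : NB (opp u) (opp v) * NB v u = single (some (opp v)) (some (opp v)) 1 +
      single (some (opp u)) (some (opp u)) 1 := by
    simp [NB, mul_add, add_mul, single_mul_single', h0, h0.symm, h5, h5.symm]
  rw [e1, e2]
  ext i j
  simp only [Matrix.sub_apply, Matrix.add_apply, single_apply, diagonal_apply]
  by_cases hij : i = j
  · subst hij
    rcases i with _ | x
    · simp [wtL]
    · simp only [wtL, Option.some.injEq, and_self, if_true]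
      simp only [eq_comm (a := x)]
      ring
  · have g : ∀ y : VB l, ¬ (y = i ∧ y = j) := by
      rintro y ⟨rfl, rfl⟩; exact hij rfl
    simp [hij, g]

lemma lie_SB (u : WP l) : ⁅SB u, -SB (opp u)⁆ = diagonal (wtS u) := by
  have h3 := opp_ne u
  rw [Ring.lie_def]
  have e1 : SB u * SB (opp u) = single none none (-2) + single (some u) (some u) (-2) := by
    rw [add_comm]
    simp [SB, mul_add, add_mul, single_mul_single']
  have e2 : SB (opp u) * SB u = single none none (-2) +
      single (some (opp u)) (some (opp u)) (-2) := by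
    rw [add_comm (single none none (-2))]
    simp [SB, mul_add, add_mul, single_mul_single']
  rw [mul_neg, neg_mul, e1, e2]
  ext i j
  simp only [Matrix.sub_apply, Matrix.neg_apply, Matrix.add_apply, single_apply, diagonal_apply]
  by_cases hij : i = j
  · subst hij
    rcases i with _ | x
    · simp [wtS]
    · simp only [wtS, Option.some.injEq, and_self, if_true]
      simp only [eq_comm (a := x)]
      simp
      split_ifs <;> simp_all
  · have g : ∀ y : VB l, ¬ (y = i ∧ y = j) := by
      rintro y ⟨rfl, rfl⟩; exact hij rfl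
    simp [hij, g]

/-- action of a diagonal matrix with odd weight on `NB` -/
lemma diag_lie_NB {w : VB l → ℤ} (hw : ∀ x : WP l, w (some (opp x)) = - w (some x)) (u v : WP l) :
    ⁅(diagonal w : Matrix (VB l) (VB l) ℤ), NB u v⁆ = (w (some u) + w (some v)) • NB u v := by
  unfold NB
  rw [Ring.lie_def, mul_add, add_mul, add_sub_add_comm, ← Ring.lie_def, ← Ring.lie_def,
    diagonal_lie_single, diagonal_lie_single, hw, hw, smul_add]
  congr 1
  · congr 1; ring
  · congr 1; ring

lemma diag_lie_SB {w : VB l → ℤ} (hw : ∀ x : WP l, w (some (opp x)) = - w (some x))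
    (hw0 : w none = 0) (u : WP l) :
    ⁅(diagonal w : Matrix (VB l) (VB l) ℤ), SB u⁆ = (w (some u)) • SB u := by
  unfold SB
  rw [Ring.lie_def, mul_add, add_mul, add_sub_add_comm, ← Ring.lie_def, ← Ring.lie_def,
    diagonal_lie_single, diagonal_lie_single, hw, hw0, smul_add]
  congr 1
  · congr 1; ring
  · congr 1; ring

/-- units -/
noncomputable def xBu (u v : WP l) (h : u.1 ≠ v.1) (t : ℤ) : (Matrix (VB l) (VB l) ℤ)ˣ where
  val := xB u v t
  inv := xB u v (-t)
  val_inv := by rw [xB_mul h, add_neg_cancel, xB_zero]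
  inv_val := by rw [xB_mul h, neg_add_cancel, xB_zero]

lemma xS_mul (u : WP l) (s t : ℤ) : xS u s * xS u t = xS u (s + t) := by
  have h3 := opp_ne u
  have h3' : u ≠ opp u := h3.symm
  unfold xS
  simp only [mul_add, add_mul, one_mul, mul_one, single_mul_single', Option.some.injEq,
    reduceCtorEq, if_false, if_true, h3, add_zero]
  have e1 : (-(s + t) ^ 2 : ℤ) = -t ^ 2 + -s ^ 2 + (-2 * s) * t := by ring
  rw [e1]
  simp only [single_add]
  abel

lemma xS_zero (u : WP l) : xS u 0 = 1 := by simp [xS]

/-- units -/
noncomputable def xSu (u : WP l) (t : ℤ) : (Matrix (VB l) (VB l) ℤ)ˣ where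
  val := xS u t
  inv := xS u (-t)
  val_inv := by rw [xS_mul, add_neg_cancel, xS_zero]
  inv_val := by rw [xS_mul, neg_add_cancel, xS_zero]

lemma xB_exp {u v : WP l} (h : u.1 ≠ v.1) :
    2 • xB u v 1 = 2 • (1 : Matrix (VB l) (VB l) ℤ) + 2 • NB u v + NB u v * NB u v := by
  rw [NB_sq h, add_zero, ← smul_add]
  congr 1
  unfold xB NB
  rw [add_assoc]

lemma xS_exp (u : WP l) :
    2 • xS u 1 = 2 • (1 : Matrix (VB l) (VB l) ℤ) + 2 • SB u + SB u * SB u := by
  rw [SB_sq]
  unfold xS SB
  have e1 : single (some u) (some (opp u)) (-2 : ℤ) =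
      2 • single (some u) (some (opp u)) (-1 : ℤ) := by
    rw [smul_single]; rfl
  rw [e1]
  norm_num
  abel

lemma xS_exp_neg (u : WP l) :
    2 • xS u (-1) = 2 • (1 : Matrix (VB l) (VB l) ℤ) + 2 • (-SB u) + (-SB u) * (-SB u) := by
  rw [neg_mul_neg, SB_sq]
  unfold xS SB
  have e1 : single (some u) (some (opp u)) (-2 : ℤ) =
      2 • single (some u) (some (opp u)) (-1 : ℤ) := by
    rw [smul_single]; rfl
  have e2 : single (none : VB l) (some (opp u)) (-1 : ℤ) = -single none (some (opp u)) 1 := by
    rw [← single_neg]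
  have e3 : single (some u) (none : VB l) (4 : ℤ) = -single (some u) none (-4) := by
    have := single_neg (some u) (none : VB l) (-4 : ℤ)
    rw [neg_neg] at this
    exact this.symm
  rw [e1, e2]
  norm_num
  rw [e3]
  abel

lemma NB_ne_zero {u v : WP l} (h : u.1 ≠ v.1) : NB u v ≠ 0 := by
  intro h0
  have h1 : u ≠ v := by rintro rfl; simp at h
  have := congrFun (congrFun h0 (some v)) (some (opp u))
  simp [NB, single_apply, h1] at this

lemma SB_ne_zero (u : WP l) : SB u ≠ 0 := by
  intro h0
  have := congrFun (congrFun h0 none) (some (opp u))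
  simp [SB, single_apply] at this

end MP9bf44d
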