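import Pool.Agent.Lib.H68.Fam
import Pool.Agent.Lib.H68.ModelBD

/-! # Relations for the families, and the reduction to matrix membership -/

namespace MP9bf44d

open Matrix Set

set_option linter.unusedSectionVars false
set_option linter.unusedSimpArgs false

section General

variable {N : Type*} [Fintype N] [DecidableEq N]

lemma pmat_comm_emb {m : Type*} [Fintype m] [DecidableEq m] {e : N ≃ N} {σ : m → N}
    (h : e ∘ σ = σ) (T : Matrix m m ℤ) : pmat e * emb σ T = emb σ T * pmat e := by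
  have h1 := conj_pmat_emb e σ T
  rw [h] at h1
  have h2 : (pmat e)ᵀ * pmat e = 1 := pmat_transpose_mul e e.injective
  calc pmat e * emb σ T = pmat e * emb σ T * ((pmat e)ᵀ * pmat e) := by rw [h2, Matrix.mul_one]
    _ = (pmat e * emb σ T * (pmat e)ᵀ) * pmat e := by simp only [Matrix.mul_assoc]
    _ = _ := by rw [h1]

lemma emb_equiv {m : Type*} [Fintype m] [DecidableEq m] (e : m ≃ m) (T : Matrix m m ℤ) :
    emb e T = pmat e * T * (pmat e)ᵀ := by
  unfold emb lift
  rw [Matrix.mul_sub, Matrix.sub_mul, Matrix.mul_one, pmat_equiv_mul_transpose]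
  abel

lemma sq_PZ {P Z : Matrix N N ℤ} (hP : P * P = 1) (hZ : Z * Z = 1) (hc : P * Z = Z * P) :
    P * Z * (P * Z) = 1 := by
  calc P * Z * (P * Z) = P * (Z * P) * Z := by simp only [Matrix.mul_assoc]
    _ = P * (P * Z) * Z := by rw [hc]
    _ = (P * P) * (Z * Z) := by simp only [Matrix.mul_assoc]
    _ = 1 := by rw [hP, hZ, Matrix.mul_one]

variable {ι K L : Type*} [Finite ι] [Field K] [CharZero K] [LieRing L] [LieAlgebra K L]
  {H : LieSubalgebra K L} (B : LieAlgebra.Basis ι H)
  {e f : ι → Matrix N N ℤ} {X Y : ι → (Matrix N N ℤ)ˣ}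

/-- The transfer theorem in terms of matrices. -/
theorem three_of_mem [Nonempty ι] [LieAlgebra.IsSimple K L] (hM : IsModel B.A e f X Y)
    {MA MB MC : Matrix N N ℤ}
    (hA : Mem (Subgroup.closure (range X ∪ range Y ∪ {-1})) MA)
    (hB : Mem (Subgroup.closure (range X ∪ range Y ∪ {-1})) MB)
    (hC : Mem (Subgroup.closure (range X ∪ range Y ∪ {-1})) MC)
    (ha : MA * MA = 1 ∨ MA * MA = -1) (hb : MB * MB = 1 ∨ MB * MB = -1)
    (hc : MC * MC = 1 ∨ MC * MC = -1) (hab : MA * MB = MB * MA ∨ MA * MB = -(MB * MA))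
    (hgen : ∀ G : Subgroup (Matrix N N ℤ)ˣ, Mem G MA → Mem G MB → Mem G MC → Mem G (-1) →
      ∀ i, Mem G (X i : Matrix N N ℤ) ∧ Mem G (Y i : Matrix N N ℤ)) :
    ThreeInvolutions (Gad B) := by
  obtain ⟨a, ha', rfl⟩ := hA
  obtain ⟨b, hb', rfl⟩ := hB
  obtain ⟨c, hc', rfl⟩ := hC
  have key := hgen (Subgroup.closure {a, b, c, -1})
    (Mem.of_unit (Subgroup.subset_closure (by simp)))
    (Mem.of_unit (Subgroup.subset_closure (by simp)))
    (Mem.of_unit (Subgroup.subset_closure (by simp)))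
    (by
      have := Mem.of_unit (Subgroup.subset_closure (show (-1 : (Matrix N N ℤ)ˣ) ∈
        ({a, b, c, -1} : Set (Matrix N N ℤ)ˣ) by simp))
      simpa using this)
  refine threeInvolutions_of_model B hM a b c ?_ ?_ ?_ ?_ ha' hb' hc' (fun i => (key i).1.unit)
    (fun i => (key i).2.unit)
  · rcases ha with h | h
    · left; ext1; simpa using h
    · right; ext1; simpa using h
  · rcases hb with h | h
    · left; ext1; simpa using h
    · right; ext1; simpa using h
  · rcases hc with h | h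
    · left; ext1; simpa using h
    · right; ext1; simpa using h
  · rcases hab with h | h
    · left; ext1; simpa using h
    · right; ext1; simpa using h

end General

variable {l : ℕ} {G : Subgroup (Matrix (VB l) (VB l) ℤ)ˣ}

lemma planeP_comm_sg {r : ℕ} {π : Equiv.Perm (Fin l)} {us : Fin r → WP l}
    (h : ∀ i, π (us i).1 = (us i).1) (T : Matrix (Fin (2 * r)) (Fin (2 * r)) ℤ) :
    pmat (planeP π) * emb (sg us) T = emb (sg us) T * pmat (planeP π) := by
  apply pmat_comm_emb
  rw [planeP_sg]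
  congr 1
  funext i
  unfold actW
  rw [h]

lemma planeP_comm_sgB {r : ℕ} {π : Equiv.Perm (Fin l)} {us : Fin r → WP l}
    (h : ∀ i, π (us i).1 = (us i).1) (T : Matrix (Fin (2 * r + 1)) (Fin (2 * r + 1)) ℤ) :
    pmat (planeP π) * emb (sgB us) T = emb (sgB us) T * pmat (planeP π) := by
  apply pmat_comm_emb
  rw [planeP_sgB]
  congr 1
  funext i
  unfold actW
  rw [h]

lemma planeP_pair_sq {s k : ℕ} (h : s + 2 * k ≤ l) :
    pmat (planeP (pairPerm l s k h)) * pmat (planeP (pairPerm l s k h)) = 1 := by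
  rw [pmat_planeP_mul, pairPerm_mul_self, pmat_planeP_one]

/-- the matrix of `b` -/
def bM (h8 : 8 ≤ l) : Matrix (VB l) (VB l) ℤ := emb (sg (us8 h8)) (toMat 16 b16)

lemma bM_sq (h8 : 8 ≤ l) : bM h8 * bM h8 = 1 := by
  unfold bM
  rw [← emb_mul (sg_injective (us8_inj h8)), ← mulL_toMat (by decide +kernel) (by decide +kernel)]
  have : mulL 16 b16 b16 = oneL 16 := by decide +kernel
  rw [this, oneL_toMat, emb_one]

/-- list form of the local permutation of `a` -/
def loc16L : LM := (rulesND.getD 0 ⟨0, [], []⟩).T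

lemma comm_b16 (h8 : 8 ≤ l) {π : Equiv.Perm (Fin l)}
    (hπ : ∀ i : Fin l, (i : ℕ) < 8 → ((π i : Fin l) : ℕ) = pairFun 0 4 i) :
    pmat (planeP π) * bM h8 = bM h8 * pmat (planeP π) := by
  unfold bM
  have h1 := conj_pmat_emb (planeP π) (sg (us8 h8)) (toMat 16 b16)
  have h2 : planeP π ∘ sg (us8 h8) = sg (us8 h8) ∘ loc16 0 4 (by norm_num) := by
    funext i
    rw [Function.comp, Function.comp, sg_us8, sg_us8, planeP_some]
    congr 1
    have h1 : pairFun 0 4 ((i : ℕ) / 2) < 8 := pairFun_lt (by norm_num) (by omega)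
    apply Prod.ext
    · apply Fin.ext
      rw [hπ _ (by simp only; omega)]
      simp only [loc16, Equiv.coe_fn_mk]
      omega
    · simp only [loc16, Equiv.coe_fn_mk]
      congr 1
      simp only [eq_iff_iff]
      omega
  have e1 : pmat (loc16 0 4 (by norm_num)) = toMat 16 loc16L :=
    (toMat_loc 0 4 (by norm_num) loc16L (by decide +kernel)).symm
  have e2 : mulL 16 (mulL 16 loc16L b16) loc16L = b16 := by decide +kernel
  have h3 : emb (sg (us8 h8) ∘ loc16 0 4 (by norm_num)) (toMat 16 b16) =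
      emb (sg (us8 h8)) (toMat 16 b16) := by
    rw [← emb_comp, emb_equiv, loc16_transpose, e1, ← mulL_toMat (by decide +kernel)
      (by decide +kernel), ← mulL_toMat (by decide +kernel) (by decide +kernel), e2]
  rw [h2, h3] at h1
  have h4 : (pmat (planeP π))ᵀ * pmat (planeP π) = 1 :=
    pmat_transpose_mul (planeP π) (planeP π).injective
  set E := emb (sg (us8 h8)) (toMat 16 b16)
  calc pmat (planeP π) * E = pmat (planeP π) * E * ((pmat (planeP π))ᵀ * pmat (planeP π)) := by
        rw [h4, Matrix.mul_one]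
    _ = (pmat (planeP π) * E * (pmat (planeP π))ᵀ) * pmat (planeP π) := by
        simp only [Matrix.mul_assoc]
    _ = _ := by rw [h1]

lemma comm_PZ_b16 (h8 : 8 ≤ l) {π : Equiv.Perm (Fin l)}
    (hπ : ∀ i : Fin l, (i : ℕ) < 8 → ((π i : Fin l) : ℕ) = pairFun 0 4 i)
    {Z : Matrix (VB l) (VB l) ℤ} (hZ : FarZ 8 Z) :
    pmat (planeP π) * Z * bM h8 = bM h8 * (pmat (planeP π) * Z) := by
  have h1 : Z * bM h8 = bM h8 * Z := by
    apply hZ
    intro i
    refine ⟨_, sg_us8 h8 i, ?_⟩
    simp only; omega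
  rw [Matrix.mul_assoc, h1, ← Matrix.mul_assoc, comm_b16 h8 hπ, Matrix.mul_assoc]

end MP9bf44d
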