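import Pool.Agent.Lib.H68.ModelBD

/-! # The natural models of types B and D: Chevalley relations -/

namespace MP9bf44d

open Matrix

set_option linter.unusedSectionVars false
set_option linter.unusedSimpArgs false

variable {l : ℕ}

lemma NB_mul_NB (a b c d : WP l) (h1 : opp a ≠ c) (h2 : opp a ≠ d) (h3 : opp b ≠ c)
    (h4 : opp b ≠ d) : NB a b * NB c d = 0 := by
  simp [NB, mul_add, add_mul, single_mul_single', h1, h2, h3, h4]

lemma opp_ne_iff {a c : WP l} : opp a ≠ c ↔ opp c ≠ a := by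
  constructor
  · rintro h rfl; simp at h
  · rintro h rfl; simp at h

lemma lie_NB_zero (a b c d : WP l) (h1 : opp a ≠ c) (h2 : opp a ≠ d) (h3 : opp b ≠ c)
    (h4 : opp b ≠ d) : ⁅NB a b, NB c d⁆ = 0 := by
  rw [Ring.lie_def, NB_mul_NB a b c d h1 h2 h3 h4, NB_mul_NB c d a b (opp_ne_iff.mp h1)
    (opp_ne_iff.mp h3) (opp_ne_iff.mp h2) (opp_ne_iff.mp h4), sub_zero]

/-- the two roots sharing one vector at the branch node of type D -/
lemma lie_NB_branch (u v : WP l) (h : u.1 ≠ v.1) : ⁅NB v u, NB (opp u) v⁆ = 0 := by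
  have h1 : opp u ≠ v := by rintro rfl; simp at h
  have h2 : opp v ≠ u := by rintro rfl; simp at h
  have h0 : u ≠ v := by rintro rfl; simp at h
  have h3 := opp_ne u
  have h4 := opp_ne v
  have h5 : opp u ≠ opp v := by
    intro h'; apply h0; have := congrArg opp h'; simpa using this
  rw [Ring.lie_def]
  simp [NB, mul_add, add_mul, single_mul_single', h0, h0.symm, h5, h5.symm, h1, h2, h3, h4]

lemma lie_NB_branch' (u v : WP l) (h : u.1 ≠ v.1) : ⁅NB (opp v) u, NB (opp u) (opp v)⁆ = 0 := by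
  have := lie_NB_branch u (opp v) (by simpa using h)
  exact this

lemma lie_SB_NB (u a b : WP l) (h1 : opp a ≠ u) (h2 : opp b ≠ u) : ⁅SB u, NB a b⁆ = 0 := by
  have h1' := opp_ne_iff.mp h1
  have h2' := opp_ne_iff.mp h2
  rw [Ring.lie_def]
  simp [SB, NB, mul_add, add_mul, single_mul_single', h1, h2, h1', h2']

lemma lie_skew' {N : Type*} [Fintype N] (A B : Matrix N N ℤ) : ⁅A, B⁆ = -⁅B, A⁆ := by
  rw [Ring.lie_def, Ring.lie_def, neg_sub]

lemma lie_neg' {N : Type*} [Fintype N] (A B : Matrix N N ℤ) : ⁅A, -B⁆ = -⁅A, B⁆ := by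
  rw [Ring.lie_def, Ring.lie_def, mul_neg, neg_mul, neg_sub_neg, neg_sub]

lemma lie_NB_SB (u a b : WP l) (h1 : opp a ≠ u) (h2 : opp b ≠ u) : ⁅NB a b, SB u⁆ = 0 := by
  rw [lie_skew', lie_SB_NB u a b h1 h2, neg_zero]

/-! ## type D -/

/-- first vector of a simple root of type D -/
def suD (i : Fin l) : WP l :=
  if (i : ℕ) + 1 < l then (i, true) else (⟨l - 2, by have := i.2; omega⟩, true)

/-- second vector of a simple root of type D -/
def svD (i : Fin l) : WP l :=
  if h : (i : ℕ) + 1 < l then (⟨i + 1, h⟩, false) else (⟨l - 1, by have := i.2; omega⟩, true)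

lemma suvD_ne (h2 : 2 ≤ l) (i : Fin l) : (suD i).1 ≠ (svD i).1 := by
  rcases i with ⟨i, hi⟩
  by_cases h : i + 1 < l
  · simp [suD, svD, h, Fin.ext_iff]
  · simp [suD, svD, h, Fin.ext_iff]; omega

lemma wtD (h4 : 4 ≤ l) (i j : Fin l) : wtL (suD j) (svD j) (some (svD i)) +
    wtL (suD j) (svD j) (some (suD i)) = CartanMatrix.D l i j := by
  rcases i with ⟨i, hi⟩
  rcases j with ⟨j, hj⟩
  by_cases h : i + 1 < l <;> by_cases h' : j + 1 < l
  · simp [wtL, suD, svD, h, h', CartanMatrix.D, opp, Prod.ext_iff, Fin.ext_iff]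
    grind
  · simp [wtL, suD, svD, h, h', CartanMatrix.D, opp, Prod.ext_iff, Fin.ext_iff]
    grind
  · simp [wtL, suD, svD, h, h', CartanMatrix.D, opp, Prod.ext_iff, Fin.ext_iff]
    grind
  · simp [wtL, suD, svD, h, h', CartanMatrix.D, opp, Prod.ext_iff, Fin.ext_iff]
    grind

/-- simple root vectors of type D -/
def eD (i : Fin l) : Matrix (VB l) (VB l) ℤ := NB (svD i) (suD i)
def fD (i : Fin l) : Matrix (VB l) (VB l) ℤ := NB (opp (suD i)) (opp (svD i))

/-- simple root elements of type D -/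
noncomputable def XD (h2 : 2 ≤ l) (i : Fin l) : (Matrix (VB l) (VB l) ℤ)ˣ :=
  xBu (svD i) (suD i) (suvD_ne h2 i).symm 1
noncomputable def YD (h2 : 2 ≤ l) (i : Fin l) : (Matrix (VB l) (VB l) ℤ)ˣ :=
  xBu (opp (suD i)) (opp (svD i)) (suvD_ne h2 i) 1

lemma lieD_ef (i : Fin l) (h2 : 2 ≤ l) : ⁅eD i, fD i⁆ = diagonal (wtL (suD i) (svD i)) :=
  lie_NB _ _ (suvD_ne h2 i)

lemma lieD_ne (h4 : 4 ≤ l) (i j : Fin l) (hij : i ≠ j) : ⁅eD i, fD j⁆ = 0 := by
  unfold eD fD
  by_cases hb : (i : ℕ) + 1 < l ∧ ¬ (j : ℕ) + 1 < l ∧ (i : ℕ) = l - 2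
  · obtain ⟨h1, h2, h3⟩ := hb
    have e1 : suD j = suD i := by
      simp only [suD, h1, h2, if_true, if_false]
      apply Prod.ext
      · apply Fin.ext; simp only; omega
      · rfl
    have e2 : svD j = opp (svD i) := by
      simp only [svD, h1, h2, dite_true, dite_false]
      apply Prod.ext
      · apply Fin.ext; simp only [opp_fst]; omega
      · rfl
    rw [e1, e2, opp_opp]
    exact lie_NB_branch _ _ (suvD_ne (by omega) i)
  by_cases hb' : (j : ℕ) + 1 < l ∧ ¬ (i : ℕ) + 1 < l ∧ (j : ℕ) = l - 2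
  · obtain ⟨h1, h2, h3⟩ := hb'
    have e1 : suD i = suD j := by
      simp only [suD, h1, h2, if_true, if_false]
      apply Prod.ext
      · apply Fin.ext; simp only; omega
      · rfl
    have e2 : svD i = opp (svD j) := by
      simp only [svD, h1, h2, dite_true, dite_false]
      apply Prod.ext
      · apply Fin.ext; simp only [opp_fst]; omega
      · rfl
    rw [e1, e2]
    exact lie_NB_branch' _ _ (suvD_ne (by omega) j)
  rcases i with ⟨i, hi⟩
  rcases j with ⟨j, hj⟩
  simp only [ne_eq, Fin.mk.injEq] at hij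
  simp only at hb hb'
  apply lie_NB_zero
  all_goals
    by_cases h : i + 1 < l <;> by_cases h' : j + 1 < l <;>
    simp [suD, svD, h, h', opp, Prod.ext_iff, Fin.ext_iff] <;> omega

theorem isModelD (h4 : 4 ≤ l) : IsModel (CartanMatrix.D l) eD fD (XD (l := l) (by omega))
    (YD (by omega)) where
  e_cube i := by rw [eD, NB_sq (suvD_ne (by omega) i).symm, zero_mul]
  f_cube i := by rw [fD, NB_sq (by simpa using suvD_ne (by omega) i), zero_mul]
  X_eq i := xB_exp (suvD_ne (by omega) i).symm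
  Y_eq i := xB_exp (by simpa using suvD_ne (by omega) i)
  e_ne_zero i := NB_ne_zero (suvD_ne (by omega) i).symm
  lie_e_f_ne i j hij := lieD_ne h4 i j hij
  lie_h_e i j := by
    rw [lieD_ef j (by omega), eD, diag_lie_NB (wtL_opp _ _), wtD h4]
  lie_h_f i j := by
    rw [lieD_ef j (by omega), fD, diag_lie_NB (wtL_opp _ _), wtL_opp, wtL_opp, ← wtD h4 i j,
      ← neg_smul]
    congr 1
    ring
  lie_h_h i j := by
    rw [lieD_ef i (by omega), lieD_ef j (by omega), diagonal_lie_diagonal]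

/-! ## type B -/

/-- simple root vectors of type B -/
def eB (i : Fin l) : Matrix (VB l) (VB l) ℤ :=
  if h : (i : ℕ) + 1 < l then NB (⟨i + 1, h⟩, false) (i, true) else SB (i, true)
def fB (i : Fin l) : Matrix (VB l) (VB l) ℤ :=
  if h : (i : ℕ) + 1 < l then NB (i, false) (⟨i + 1, h⟩, true) else -SB (i, false)

/-- simple root elements of type B -/
noncomputable def XB (i : Fin l) : (Matrix (VB l) (VB l) ℤ)ˣ :=
  if h : (i : ℕ) + 1 < l then xBu (⟨i + 1, h⟩, false) (i, true) (by simp [Fin.ext_iff]) 1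
  else xSu (i, true) 1
noncomputable def YB (i : Fin l) : (Matrix (VB l) (VB l) ℤ)ˣ :=
  if h : (i : ℕ) + 1 < l then xBu (i, false) (⟨i + 1, h⟩, true) (by simp [Fin.ext_iff]) 1
  else xSu (i, false) (-1)

/-- weights -/
def wB (i : Fin l) : VB l → ℤ :=
  if h : (i : ℕ) + 1 < l then wtL (i, true) (⟨i + 1, h⟩, false) else wtS (i, true)

lemma wB_opp (i : Fin l) (x : WP l) : wB i (some (opp x)) = - wB i (some x) := by
  unfold wB
  split_ifs
  · exact wtL_opp _ _ _
  · exact wtS_opp _ _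

lemma wB_none (i : Fin l) : wB i (none : VB l) = 0 := by
  unfold wB
  split_ifs <;> rfl

lemma lieB_ef (i : Fin l) : ⁅eB i, fB i⁆ = diagonal (wB i) := by
  unfold eB fB wB
  split_ifs with h
  · exact lie_NB (i, true) (⟨i + 1, h⟩, false) (by simp [Fin.ext_iff])
  · exact lie_SB (i, true)

lemma lieB_ne (i j : Fin l) (hij : i ≠ j) : ⁅eB i, fB j⁆ = 0 := by
  unfold eB fB
  have hij' : (i : ℕ) ≠ j := fun h => hij (Fin.ext h)
  by_cases h : (i : ℕ) + 1 < l <;> by_cases h' : (j : ℕ) + 1 < l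
  · simp only [h, h', dite_true]
    apply lie_NB_zero <;> simp [opp, Prod.ext_iff, Fin.ext_iff] <;> omega
  · simp only [h, h', dite_true, dite_false]
    rw [lie_neg', lie_NB_SB, neg_zero] <;> simp [opp, Prod.ext_iff, Fin.ext_iff] <;> omega
  · simp only [h, h', dite_true, dite_false]
    rw [lie_SB_NB] <;> simp [opp, Prod.ext_iff, Fin.ext_iff] <;> omega
  · omega

lemma diag_lie_eB (j i : Fin l) : ⁅(diagonal (wB j) : Matrix (VB l) (VB l) ℤ), eB i⁆ =
    CartanMatrix.B l i j • eB i := by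
  unfold eB
  by_cases h : (i : ℕ) + 1 < l
  · simp only [h, dite_true]
    rw [diag_lie_NB (wB_opp j)]
    congr 1
    rcases i with ⟨i, hi⟩
    rcases j with ⟨j, hj⟩
    simp only at h
    by_cases h' : j + 1 < l
    · simp [wB, wtL, h, h', CartanMatrix.B, opp, Prod.ext_iff, Fin.ext_iff]
      split_ifs <;> omega
    · simp [wB, wtS, h, h', CartanMatrix.B, opp, Prod.ext_iff, Fin.ext_iff]
      split_ifs <;> omega
  · simp only [h, dite_false]
    rw [diag_lie_SB (wB_opp j) (wB_none j)]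
    congr 1
    rcases i with ⟨i, hi⟩
    rcases j with ⟨j, hj⟩
    simp only at h
    by_cases h' : j + 1 < l
    · simp [wB, wtL, h, h', CartanMatrix.B, opp, Prod.ext_iff, Fin.ext_iff]
      split_ifs <;> omega
    · simp [wB, wtS, h, h', CartanMatrix.B, opp, Prod.ext_iff, Fin.ext_iff]
      split_ifs <;> omega

lemma diag_lie_fB (j i : Fin l) : ⁅(diagonal (wB j) : Matrix (VB l) (VB l) ℤ), fB i⁆ =
    -(CartanMatrix.B l i j • fB i) := by
  rw [← neg_smul]
  unfold fB
  by_cases h : (i : ℕ) + 1 < l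
  · simp only [h, dite_true]
    rw [diag_lie_NB (wB_opp j)]
    congr 1
    rcases i with ⟨i, hi⟩
    rcases j with ⟨j, hj⟩
    simp only at h
    by_cases h' : j + 1 < l
    · simp [wB, wtL, h, h', CartanMatrix.B, opp, Prod.ext_iff, Fin.ext_iff]
      split_ifs <;> omega
    · simp [wB, wtS, h, h', CartanMatrix.B, opp, Prod.ext_iff, Fin.ext_iff]
      split_ifs <;> omega
  · simp only [h, dite_false]
    rw [lie_neg', diag_lie_SB (wB_opp j) (wB_none j), smul_neg, ← neg_smul, ← neg_smul, neg_neg]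
    congr 1
    rcases i with ⟨i, hi⟩
    rcases j with ⟨j, hj⟩
    simp only at h
    by_cases h' : j + 1 < l
    · simp [wB, wtL, h, h', CartanMatrix.B, opp, Prod.ext_iff, Fin.ext_iff]
      split_ifs <;> omega
    · simp [wB, wtS, h, h', CartanMatrix.B, opp, Prod.ext_iff, Fin.ext_iff]
      split_ifs <;> omega

theorem isModelB : IsModel (CartanMatrix.B l) eB fB (XB (l := l)) YB where
  e_cube i := by
    unfold eB
    split_ifs with h
    · rw [NB_sq (by simp [Fin.ext_iff]), zero_mul]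
    · exact SB_cube _
  f_cube i := by
    unfold fB
    split_ifs with h
    · rw [NB_sq (by simp [Fin.ext_iff]), zero_mul]
    · rw [neg_mul_neg, mul_neg, SB_cube, neg_zero]
  X_eq i := by
    unfold XB eB
    split_ifs with h
    · exact xB_exp (by simp [Fin.ext_iff])
    · exact xS_exp _
  Y_eq i := by
    unfold YB fB
    split_ifs with h
    · exact xB_exp (by simp [Fin.ext_iff])
    · exact xS_exp_neg _
  e_ne_zero i := by
    unfold eB
    split_ifs with h
    · exact NB_ne_zero (by simp [Fin.ext_iff])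
    · exact SB_ne_zero _
  lie_e_f_ne i j hij := lieB_ne i j hij
  lie_h_e i j := by rw [lieB_ef, diag_lie_eB]
  lie_h_f i j := by rw [lieB_ef, diag_lie_fB]
  lie_h_h i j := by rw [lieB_ef, lieB_ef, diagonal_lie_diagonal]

end MP9bf44d
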