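import Pool.Agent.Lib.H68.C3
import Pool.Agent.Lib.H68.ModelD

/-! # The natural model of type C -/

namespace MP9bf44d

open Matrix

set_option linter.unusedSectionVars false
set_option linter.unusedSimpArgs false

variable {l : ℕ}

/-- nilpotent element of the short root `u + v` -/
def NC (u v : WP l) : Matrix (WP l) (WP l) ℤ :=
  single v (opp u) (eps u) + single u (opp v) (eps v)

/-- nilpotent element of the long root `2 u` -/
def LC (u : WP l) : Matrix (WP l) (WP l) ℤ := single u (opp u) 1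

lemma eps_opp (u : WP l) : eps (opp u) = -eps u := by
  rcases u with ⟨i, b⟩
  cases b <;> simp [eps, opp]

lemma eps_mul_self (u : WP l) : eps u * eps u = 1 := by
  rcases u with ⟨i, b⟩
  cases b <;> simp [eps]

/-- weights -/
def wC (u v x : WP l) : ℤ :=
  (if x = u then 1 else 0) + (if x = v then 1 else 0) - (if x = opp u then 1 else 0)
      - (if x = opp v then 1 else 0)

def wCl (u x : WP l) : ℤ := (if x = u then 1 else 0) - (if x = opp u then 1 else 0)

lemma wC_opp (u v x : WP l) : wC u v (opp x) = - wC u v x := by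
  simp only [wC, opp_eq_iff, opp_opp]; ring

lemma wCl_opp (u x : WP l) : wCl u (opp x) = - wCl u x := by
  simp only [wCl, opp_eq_iff, opp_opp]; ring

lemma NC_sq {u v : WP l} (h : u.1 ≠ v.1) : NC u v * NC u v = 0 := by
  have h1 : opp u ≠ v := by rintro rfl; simp at h
  have h2 : opp v ≠ u := by rintro rfl; simp at h
  have h3 := opp_ne u
  have h4 := opp_ne v
  simp [NC, mul_add, add_mul, single_mul_single', h1, h2, h3, h4]

lemma LC_sq (u : WP l) : LC u * LC u = 0 := by
  have h3 := opp_ne u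
  simp [LC, single_mul_single', h3]

lemma lie_NC (u v : WP l) (h : u.1 ≠ v.1) (huv : eps u * eps v = -1) :
    ⁅NC u v, NC (opp u) (opp v)⁆ = diagonal (wC u v) := by
  have h1 : opp u ≠ v := by rintro rfl; simp at h
  have h2 : opp v ≠ u := by rintro rfl; simp at h
  have h0 : u ≠ v := by rintro rfl; simp at h
  have h3 := opp_ne u
  have h4 := opp_ne v
  have h5 : opp u ≠ opp v := by
    intro h'; apply h0; have := congrArg opp h'; simpa using this
  have hvu : eps v * eps u = -1 := by rw [mul_comm]; exact huv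
  rw [Ring.lie_def]
  have e1 : NC u v * NC (opp u) (opp v) = single u u 1 + single v v 1 := by
    simp [NC, mul_add, add_mul, single_mul_single', h0, h0.symm, h5, h5.symm, eps_opp, huv, hvu,
      add_comm]
  have e2 : NC (opp u) (opp v) * NC u v = single (opp v) (opp v) 1 + single (opp u) (opp u) 1 := by
    simp [NC, mul_add, add_mul, single_mul_single', h0, h0.symm, h5, h5.symm, eps_opp, huv, hvu,
      add_comm]
  rw [e1, e2]
  ext i j
  simp only [Matrix.sub_apply, Matrix.add_apply, single_apply, diagonal_apply]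
  by_cases hij : i = j
  · subst hij
    simp only [wC, and_self, if_true]
    simp only [eq_comm (a := i)]
    ring
  · have g : ∀ y : WP l, ¬ (y = i ∧ y = j) := by
      rintro y ⟨rfl, rfl⟩; exact hij rfl
    simp [hij, g]

lemma lie_LC (u : WP l) : ⁅LC u, LC (opp u)⁆ = diagonal (wCl u) := by
  have h3 := opp_ne u
  rw [Ring.lie_def]
  have e1 : LC u * LC (opp u) = single u u 1 := by simp [LC, single_mul_single']
  have e2 : LC (opp u) * LC u = single (opp u) (opp u) 1 := by simp [LC, single_mul_single']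
  rw [e1, e2]
  ext i j
  simp only [Matrix.sub_apply, single_apply, diagonal_apply]
  by_cases hij : i = j
  · subst hij
    simp only [wCl, and_self, if_true]
    simp only [eq_comm (a := i)]
  · have g : ∀ y : WP l, ¬ (y = i ∧ y = j) := by
      rintro y ⟨rfl, rfl⟩; exact hij rfl
    simp [hij, g]

lemma diag_lie_NC {w : WP l → ℤ} (hw : ∀ x : WP l, w (opp x) = - w x) (u v : WP l) :
    ⁅(diagonal w : Matrix (WP l) (WP l) ℤ), NC u v⁆ = (w u + w v) • NC u v := by
  unfold NC
  rw [Ring.lie_def, mul_add, add_mul, add_sub_add_comm, ← Ring.lie_def, ← Ring.lie_def,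
    diagonal_lie_single, diagonal_lie_single, hw, hw, smul_add]
  congr 1
  · congr 1; ring
  · congr 1; ring

lemma diag_lie_LC {w : WP l → ℤ} (hw : ∀ x : WP l, w (opp x) = - w x) (u : WP l) :
    ⁅(diagonal w : Matrix (WP l) (WP l) ℤ), LC u⁆ = (2 * w u) • LC u := by
  unfold LC
  rw [diagonal_lie_single, hw]
  congr 1; ring

lemma xC_mul {u v : WP l} (h : u.1 ≠ v.1) (s t : ℤ) : xC u v s * xC u v t = xC u v (s + t) := by
  have h1 : opp u ≠ v := by rintro rfl; simp at h
  have h2 : opp v ≠ u := by rintro rfl; simp at h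
  have h3 := opp_ne u
  have h4 := opp_ne v
  unfold xC
  simp only [mul_add, add_mul, one_mul, mul_one, single_mul_single', h1, h2, h3, h4, if_false,
    add_zero]
  simp only [mul_add, single_add]
  abel

lemma xC_zero (u v : WP l) : xC u v 0 = 1 := by simp [xC]

lemma xL_mul (u : WP l) (s t : ℤ) : xL u s * xL u t = xL u (s + t) := by
  have h3 := opp_ne u
  unfold xL
  simp only [mul_add, add_mul, one_mul, mul_one, single_mul_single', h3, if_false,
    add_zero, single_add]
  abel

lemma xL_zero (u : WP l) : xL u 0 = 1 := by simp [xL]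

/-- units -/
noncomputable def xCu (u v : WP l) (h : u.1 ≠ v.1) (t : ℤ) : (Matrix (WP l) (WP l) ℤ)ˣ where
  val := xC u v t
  inv := xC u v (-t)
  val_inv := by rw [xC_mul h, add_neg_cancel, xC_zero]
  inv_val := by rw [xC_mul h, neg_add_cancel, xC_zero]

noncomputable def xLu (u : WP l) (t : ℤ) : (Matrix (WP l) (WP l) ℤ)ˣ where
  val := xL u t
  inv := xL u (-t)
  val_inv := by rw [xL_mul, add_neg_cancel, xL_zero]
  inv_val := by rw [xL_mul, neg_add_cancel, xL_zero]

lemma xC_exp {u v : WP l} (h : u.1 ≠ v.1) :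
    2 • xC u v 1 = 2 • (1 : Matrix (WP l) (WP l) ℤ) + 2 • NC u v + NC u v * NC u v := by
  rw [NC_sq h, add_zero, ← smul_add]
  congr 1
  unfold xC NC
  rw [add_assoc, mul_one, mul_one]

lemma xL_exp (u : WP l) :
    2 • xL u 1 = 2 • (1 : Matrix (WP l) (WP l) ℤ) + 2 • LC u + LC u * LC u := by
  rw [LC_sq, add_zero, ← smul_add]
  rfl

lemma NC_ne_zero {u v : WP l} (h : u.1 ≠ v.1) : NC u v ≠ 0 := by
  intro h0
  have h1 : u ≠ v := by rintro rfl; simp at h
  have := congrFun (congrFun h0 v) (opp u)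
  rcases u with ⟨i, b⟩
  cases b <;> simp [NC, single_apply, h1, eps] at this

lemma LC_ne_zero (u : WP l) : LC u ≠ 0 := by
  intro h0
  have := congrFun (congrFun h0 u) (opp u)
  simp [LC, single_apply] at this

lemma lie_NC_zero (a b c d : WP l) (h1 : opp a ≠ c) (h2 : opp a ≠ d) (h3 : opp b ≠ c)
    (h4 : opp b ≠ d) : ⁅NC a b, NC c d⁆ = 0 := by
  have h1' := opp_ne_iff.mp h1
  have h2' := opp_ne_iff.mp h2
  have h3' := opp_ne_iff.mp h3
  have h4' := opp_ne_iff.mp h4
  rw [Ring.lie_def]
  simp [NC, mul_add, add_mul, single_mul_single', h1, h2, h3, h4, h1', h2', h3', h4']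

lemma lie_LC_NC (u a b : WP l) (h1 : opp a ≠ u) (h2 : opp b ≠ u) : ⁅LC u, NC a b⁆ = 0 := by
  have h1' := opp_ne_iff.mp h1
  have h2' := opp_ne_iff.mp h2
  rw [Ring.lie_def]
  simp [LC, NC, mul_add, add_mul, single_mul_single', h1, h2, h1', h2']

lemma lie_NC_LC (u a b : WP l) (h1 : opp a ≠ u) (h2 : opp b ≠ u) : ⁅NC a b, LC u⁆ = 0 := by
  rw [lie_skew', lie_LC_NC u a b h1 h2, neg_zero]

/-! ## the model -/

def eC (i : Fin l) : Matrix (WP l) (WP l) ℤ :=
  if h : (i : ℕ) + 1 < l then NC (i, true) (⟨i + 1, h⟩, false) else LC (i, true)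
def fC (i : Fin l) : Matrix (WP l) (WP l) ℤ :=
  if h : (i : ℕ) + 1 < l then NC (i, false) (⟨i + 1, h⟩, true) else LC (i, false)

noncomputable def XC (i : Fin l) : (Matrix (WP l) (WP l) ℤ)ˣ :=
  if h : (i : ℕ) + 1 < l then xCu (i, true) (⟨i + 1, h⟩, false) (by simp [Fin.ext_iff]) 1
  else xLu (i, true) 1
noncomputable def YC (i : Fin l) : (Matrix (WP l) (WP l) ℤ)ˣ :=
  if h : (i : ℕ) + 1 < l then xCu (i, false) (⟨i + 1, h⟩, true) (by simp [Fin.ext_iff]) 1
  else xLu (i, false) 1

/-- weights -/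
def wCC (i : Fin l) : WP l → ℤ :=
  if h : (i : ℕ) + 1 < l then wC (i, true) (⟨i + 1, h⟩, false) else wCl (i, true)

lemma wCC_opp (i : Fin l) (x : WP l) : wCC i (opp x) = - wCC i x := by
  unfold wCC
  split_ifs
  · exact wC_opp _ _ _
  · exact wCl_opp _ _

lemma lieC_ef (i : Fin l) : ⁅eC i, fC i⁆ = diagonal (wCC i) := by
  unfold eC fC wCC
  split_ifs with h
  · exact lie_NC (i, true) (⟨i + 1, h⟩, false) (by simp [Fin.ext_iff]) (by simp [eps])
  · exact lie_LC (i, true)

lemma lieC_ne (i j : Fin l) (hij : i ≠ j) : ⁅eC i, fC j⁆ = 0 := by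
  unfold eC fC
  have hij' : (i : ℕ) ≠ j := fun h => hij (Fin.ext h)
  by_cases h : (i : ℕ) + 1 < l <;> by_cases h' : (j : ℕ) + 1 < l
  · simp only [h, h', dite_true]
    apply lie_NC_zero <;> simp [opp, Prod.ext_iff, Fin.ext_iff] <;> omega
  · simp only [h, h', dite_true, dite_false]
    rw [lie_NC_LC] <;> simp [opp, Prod.ext_iff, Fin.ext_iff] <;> omega
  · simp only [h, h', dite_true, dite_false]
    rw [lie_LC_NC] <;> simp [opp, Prod.ext_iff, Fin.ext_iff] <;> omega
  · omega

lemma diag_lie_eC (j i : Fin l) : ⁅(diagonal (wCC j) : Matrix (WP l) (WP l) ℤ), eC i⁆ =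
    CartanMatrix.C l i j • eC i := by
  unfold eC
  by_cases h : (i : ℕ) + 1 < l
  · simp only [h, dite_true]
    rw [diag_lie_NC (wCC_opp j)]
    congr 1
    rcases i with ⟨i, hi⟩
    rcases j with ⟨j, hj⟩
    simp only at h
    by_cases h' : j + 1 < l
    · simp [wCC, wC, h, h', CartanMatrix.C, opp, Prod.ext_iff, Fin.ext_iff]
      grind
    · simp [wCC, wCl, h, h', CartanMatrix.C, opp, Prod.ext_iff, Fin.ext_iff]
      grind
  · simp only [h, dite_false]
    rw [diag_lie_LC (wCC_opp j)]
    congr 1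
    rcases i with ⟨i, hi⟩
    rcases j with ⟨j, hj⟩
    simp only at h
    by_cases h' : j + 1 < l
    · simp [wCC, wC, h, h', CartanMatrix.C, opp, Prod.ext_iff, Fin.ext_iff]
      grind
    · simp [wCC, wCl, h, h', CartanMatrix.C, opp, Prod.ext_iff, Fin.ext_iff]
      grind

lemma diag_lie_fC (j i : Fin l) : ⁅(diagonal (wCC j) : Matrix (WP l) (WP l) ℤ), fC i⁆ =
    -(CartanMatrix.C l i j • fC i) := by
  rw [← neg_smul]
  unfold fC
  by_cases h : (i : ℕ) + 1 < l
  · simp only [h, dite_true]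
    rw [diag_lie_NC (wCC_opp j)]
    congr 1
    rcases i with ⟨i, hi⟩
    rcases j with ⟨j, hj⟩
    simp only at h
    by_cases h' : j + 1 < l
    · simp [wCC, wC, h, h', CartanMatrix.C, opp, Prod.ext_iff, Fin.ext_iff]
      grind
    · simp [wCC, wCl, h, h', CartanMatrix.C, opp, Prod.ext_iff, Fin.ext_iff]
      grind
  · simp only [h, dite_false]
    rw [diag_lie_LC (wCC_opp j)]
    congr 1
    rcases i with ⟨i, hi⟩
    rcases j with ⟨j, hj⟩
    simp only at h
    by_cases h' : j + 1 < l
    · simp [wCC, wC, h, h', CartanMatrix.C, opp, Prod.ext_iff, Fin.ext_iff]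
      grind
    · simp [wCC, wCl, h, h', CartanMatrix.C, opp, Prod.ext_iff, Fin.ext_iff]
      grind

theorem isModelC : IsModel (CartanMatrix.C l) eC fC (XC (l := l)) YC where
  e_cube i := by
    unfold eC
    split_ifs with h
    · rw [NC_sq (by simp [Fin.ext_iff]), zero_mul]
    · rw [LC_sq, zero_mul]
  f_cube i := by
    unfold fC
    split_ifs with h
    · rw [NC_sq (by simp [Fin.ext_iff]), zero_mul]
    · rw [LC_sq, zero_mul]
  X_eq i := by
    unfold XC eC
    split_ifs with h
    · exact xC_exp (by simp [Fin.ext_iff])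
    · exact xL_exp _
  Y_eq i := by
    unfold YC fC
    split_ifs with h
    · exact xC_exp (by simp [Fin.ext_iff])
    · exact xL_exp _
  e_ne_zero i := by
    unfold eC
    split_ifs with h
    · exact NC_ne_zero (by simp [Fin.ext_iff])
    · exact LC_ne_zero _
  lie_e_f_ne i j hij := lieC_ne i j hij
  lie_h_e i j := by rw [lieC_ef, diag_lie_eC]
  lie_h_f i j := by rw [lieC_ef, diag_lie_fC]
  lie_h_h i j := by rw [lieC_ef, lieC_ef, diagonal_lie_diagonal]

end MP9bf44d
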