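import Pool.Agent.Lib.H68.C7
import Pool.Agent.Lib.H68.ModelC
import Pool.Agent.Lib.H68.Fam2

/-! # Type C, rank at least 8 -/

namespace MP9bf44d

open Matrix Set

set_option linter.unusedSectionVars false
set_option linter.unusedSimpArgs false

variable {l : ℕ} {G : Subgroup (Matrix (WP l) (WP l) ℤ)ˣ}

lemma emb_eq_shift {r r' off : ℕ} {ps : Fin r → Fin l} {qs : Fin r' → Fin l}
    (h : 2 * off + 2 * r' ≤ 2 * r)
    (hq : ∀ i : Fin r', qs i = ps ⟨off + i, by omega⟩) (T : LM) :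
    emb (sgC qs) (toMat (2 * r') T) =
      emb (sgC ps) (toMat (2 * r) (extL (2 * r) (2 * off) (2 * r') T)) := by
  rw [toMat_extL h, emb_comp]
  congr 1
  funext i
  simp only [Function.comp, sgC, shiftF, hq, Prod.mk.injEq]
  constructor
  · congr 1; ext; simp only; omega
  · congr 1; simp only [eq_iff_iff]; omega

lemma sgC3_4 (i j k : Fin l) (h : 4 < 2 * 3) : sgC (r := 3) ![i, j, k] ⟨4, h⟩ = (k, true) := by
  simp [sgC]
lemma sgC3_5 (i j k : Fin l) (h : 5 < 2 * 3) : sgC (r := 3) ![i, j, k] ⟨5, h⟩ = (k, false) := by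
  simp [sgC]
lemma sgC4_0 (i j k m : Fin l) (h : 0 < 2 * 4) :
    sgC (r := 4) ![i, j, k, m] ⟨0, h⟩ = (i, true) := by
  simp [sgC]
lemma sgC4_2 (i j k m : Fin l) (h : 2 < 2 * 4) :
    sgC (r := 4) ![i, j, k, m] ⟨2, h⟩ = (j, true) := by
  simp [sgC]
lemma sgC4_4 (i j k m : Fin l) (h : 4 < 2 * 4) :
    sgC (r := 4) ![i, j, k, m] ⟨4, h⟩ = (k, true) := by
  simp [sgC]
lemma sgC4_5 (i j k m : Fin l) (h : 5 < 2 * 4) :
    sgC (r := 4) ![i, j, k, m] ⟨5, h⟩ = (k, false) := by
  simp [sgC]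
lemma sgC4_6 (i j k m : Fin l) (h : 6 < 2 * 4) :
    sgC (r := 4) ![i, j, k, m] ⟨6, h⟩ = (m, true) := by
  simp [sgC]
lemma sgC4_7 (i j k m : Fin l) (h : 7 < 2 * 4) :
    sgC (r := 4) ![i, j, k, m] ⟨7, h⟩ = (m, false) := by
  simp [sgC]

theorem termE (h3 : 3 ≤ l) (hF : FullGL G l)
    (hz : Mem G (emb (sgC (segC l 0 1 (by omega))) (toMat 2 J1L) *
      emb (sgC ![(⟨l - 1, by omega⟩ : Fin l)]) (toMat 2 J0L))) :
    Mem G (xL ((⟨l - 1, by omega⟩, true) : WP l) 1) ∧
      Mem G (xL ((⟨l - 1, by omega⟩, false) : WP l) 1) := by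
  set q : Fin l := ⟨l - 1, by omega⟩ with hq
  have n01 : (⟨0, by omega⟩ : Fin l) ≠ ⟨1, by omega⟩ := by
    intro h; have := congrArg Fin.val h; simp only at this; omega
  have n0q : (⟨0, by omega⟩ : Fin l) ≠ q := by
    intro h; have := congrArg Fin.val h; simp only [hq] at this; omega
  have n1q : (⟨1, by omega⟩ : Fin l) ≠ q := by
    intro h; have := congrArg Fin.val h; simp only [hq] at this; omega
  have hinj := sgC_injective (vec3_inj n01 n0q n1q)
  have hP := closed_emb hinj G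
  have e1 : emb (sgC (segC l 0 1 (by omega))) (toMat 2 J1L) =
      emb (sgC ![(⟨0, by omega⟩ : Fin l), ⟨1, by omega⟩, q]) (toMat 6 (extL 6 0 2 J1L)) :=
    emb_eq_shift (r' := 1) (r := 3) (off := 0) (by norm_num)
      (by intro i; fin_cases i; rfl) J1L
  have e2 : emb (sgC ![q]) (toMat 2 J0L) =
      emb (sgC ![(⟨0, by omega⟩ : Fin l), ⟨1, by omega⟩, q]) (toMat 6 (extL 6 4 2 J0L)) :=
    emb_eq_shift (r' := 1) (r := 3) (off := 2) (by norm_num)
      (by intro i; fin_cases i; rfl) J0L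
  have mz : Mem G (emb (sgC ![(⟨0, by omega⟩ : Fin l), ⟨1, by omega⟩, q]) (toMat 6 zCE)) := by
    rw [e1, e2, ← emb_mul hinj, ← mulL_toMat (by decide +kernel) (by decide +kernel)] at hz
    exact hz
  have g21 := hF ⟨1, by omega⟩ ⟨0, by omega⟩ n01.symm (Fin.is_lt _) (Fin.is_lt _)
  have g13 := hF ⟨0, by omega⟩ q n0q (Fin.is_lt _) (Fin.is_lt _)
  have g31 := hF q ⟨0, by omega⟩ n0q.symm (Fin.is_lt _) (Fin.is_lt _)
  have g32 := hF q ⟨1, by omega⟩ n1q.symm (Fin.is_lt _) (Fin.is_lt _)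
  have hst : Good 6 (fun M => Mem G (emb (sgC ![(⟨0, by omega⟩ : Fin l), ⟨1, by omega⟩, q]) M))
      gensCE := by
    apply checkGens_good checkGensCE
    rw [gensCE_eq]
    intro p hp
    rcases List.mem_cons.mp hp with rfl | hp
    · exact mz
    · obtain ⟨c, hc1, rfl⟩ := List.mem_map.mp hp
      have hall : ∀ c ∈ [(2, some 1), (0, some 5), (4, some 1), (4, some 3)],
          GenMem G ![(⟨0, by omega⟩ : Fin l), ⟨1, by omega⟩, q] c :=
        forall_mem4 (GLm.gen (a := 1) (b := 0) (by norm_num) (by norm_num) (h := g21) rfl rfl)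
          (GLm.gen (a := 0) (b := 2) (by norm_num) (by norm_num) (h := g13) rfl rfl)
          (GLm.gen (a := 2) (b := 0) (by norm_num) (by norm_num) (h := g31) rfl rfl)
          (GLm.gen (a := 2) (b := 1) (by norm_num) (by norm_num) (h := g32) rfl rfl)
      exact (hall c hc1).mem
  have t1 := check_target hP (rules := []) (by intro R hR; simp at hR) hst checkCE targetCE_e
  have t2 := check_target hP (rules := []) (by intro R hR; simp at hR) hst checkCE targetCE_f
  constructor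
  · rw [← sgC3_4 ⟨0, by omega⟩ ⟨1, by omega⟩ q (by norm_num), ← xL_eq_emb]
    exact t1
  · rw [← sgC3_5 ⟨0, by omega⟩ ⟨1, by omega⟩ q (by norm_num), ← xL_eq_emb]
    exact t2

lemma vec4_inj {i j k m : Fin l} (h1 : i ≠ j) (h2 : i ≠ k) (h3 : i ≠ m) (h4 : j ≠ k) (h5 : j ≠ m)
    (h6 : k ≠ m) : Function.Injective (![i, j, k, m] : Fin 4 → Fin l) := by
  intro a b hab
  fin_cases a <;> fin_cases b <;>
    simp_all [h1.symm, h2.symm, h3.symm, h4.symm, h5.symm, h6.symm]

theorem termO (h4 : 4 ≤ l) (hF : FullGL G (l - 1))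
    (hL : Mem G (xL ((⟨0, by omega⟩, true) : WP l) 1))
    (hy : Mem G (xC ((⟨0, by omega⟩, true) : WP l) (⟨1, by omega⟩, true) 1))
    (hz : Mem G (emb (sgC (segC l 0 1 (by omega))) (toMat 2 J1L) *
      emb (sgC ![(⟨l - 2, by omega⟩ : Fin l), ⟨l - 1, by omega⟩]) (toMat 4 t1L))) :
    GLm G (⟨l - 2, by omega⟩ : Fin l) ⟨l - 1, by omega⟩ ∧
    GLm G (⟨l - 1, by omega⟩ : Fin l) ⟨l - 2, by omega⟩ ∧
    Mem G (xL ((⟨l - 1, by omega⟩, true) : WP l) 1) ∧
      Mem G (xL ((⟨l - 1, by omega⟩, false) : WP l) 1) := by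
  set q : Fin l := ⟨l - 1, by omega⟩ with hq
  set p : Fin l := ⟨l - 2, by omega⟩ with hp
  have n01 : (⟨0, by omega⟩ : Fin l) ≠ ⟨1, by omega⟩ := by
    intro h; have := congrArg Fin.val h; simp only at this; omega
  have n0q : (⟨0, by omega⟩ : Fin l) ≠ q := by
    intro h; have := congrArg Fin.val h; simp only [hq] at this; omega
  have n1q : (⟨1, by omega⟩ : Fin l) ≠ q := by
    intro h; have := congrArg Fin.val h; simp only [hq] at this; omega
  have n0p : (⟨0, by omega⟩ : Fin l) ≠ p := by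
    intro h; have := congrArg Fin.val h; simp only [hp] at this; omega
  have n1p : (⟨1, by omega⟩ : Fin l) ≠ p := by
    intro h; have := congrArg Fin.val h; simp only [hp] at this; omega
  have npq : p ≠ q := by
    intro h; have := congrArg Fin.val h; simp only [hp, hq] at this; omega
  have hinj := sgC_injective (vec4_inj n01 n0p n0q n1p n1q npq)
  have hP := closed_emb hinj G
  have e1 : emb (sgC (segC l 0 1 (by omega))) (toMat 2 J1L) =
      emb (sgC ![(⟨0, by omega⟩ : Fin l), ⟨1, by omega⟩, p, q]) (toMat 8 (extL 8 0 2 J1L)) :=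
    emb_eq_shift (r' := 1) (r := 4) (off := 0) (by norm_num)
      (by intro i; fin_cases i; rfl) J1L
  have e2 : emb (sgC ![p, q]) (toMat 4 t1L) =
      emb (sgC ![(⟨0, by omega⟩ : Fin l), ⟨1, by omega⟩, p, q]) (toMat 8 (extL 8 4 4 t1L)) :=
    emb_eq_shift (r' := 2) (r := 4) (off := 2) (by norm_num)
      (by intro i; fin_cases i <;> rfl) t1L
  have mz : Mem G (emb (sgC ![(⟨0, by omega⟩ : Fin l), ⟨1, by omega⟩, p, q]) (toMat 8 zCO)) := by
    rw [e1, e2, ← emb_mul hinj, ← mulL_toMat (by decide +kernel) (by decide +kernel)] at hz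
    exact hz
  have g12 := hF ⟨0, by omega⟩ ⟨1, by omega⟩ n01 (by simp only; omega) (by simp only; omega)
  have g21 := hF ⟨1, by omega⟩ ⟨0, by omega⟩ n01.symm (by simp only; omega) (by simp only; omega)
  have g13 := hF ⟨0, by omega⟩ p n0p (by simp only; omega) (by simp only [hp]; omega)
  have g31 := hF p ⟨0, by omega⟩ n0p.symm (by simp only [hp]; omega) (by simp only; omega)
  have g23 := hF ⟨1, by omega⟩ p n1p (by simp only; omega) (by simp only [hp]; omega)
  have g32 := hF p ⟨1, by omega⟩ n1p.symm (by simp only [hp]; omega) (by simp only; omega)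
  have hst : Good 8 (fun M => Mem G (emb (sgC ![(⟨0, by omega⟩ : Fin l), ⟨1, by omega⟩, p, q]) M))
      gensCO := by
    apply checkGens_good checkGensCO
    rw [gensCO_eq]
    intro p' hp'
    rcases List.mem_cons.mp hp' with rfl | hp'
    · exact mz
    · obtain ⟨c, hc1, rfl⟩ := List.mem_map.mp hp'
      have hall1 : ∀ c ∈ [(0, some 3), (2, some 1), (0, some 5), (4, some 1)],
          GenMem G ![(⟨0, by omega⟩ : Fin l), ⟨1, by omega⟩, p, q] c :=
        forall_mem4 (GLm.gen (a := 0) (b := 1) (by norm_num) (by norm_num) (h := g12) rfl rfl)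
          (GLm.gen (a := 1) (b := 0) (by norm_num) (by norm_num) (h := g21) rfl rfl)
          (GLm.gen (a := 0) (b := 2) (by norm_num) (by norm_num) (h := g13) rfl rfl)
          (GLm.gen (a := 2) (b := 0) (by norm_num) (by norm_num) (h := g31) rfl rfl)
      have hL' : GenMem G ![(⟨0, by omega⟩ : Fin l), ⟨1, by omega⟩, p, q] (0, none) :=
        ⟨by norm_num, by rw [sgC4_0]; exact hL⟩
      have hy' : GenMem G ![(⟨0, by omega⟩ : Fin l), ⟨1, by omega⟩, p, q] (0, some 2) :=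
        ⟨by norm_num, by norm_num, by rw [sgC4_0, sgC4_2]; exact hy⟩
      have hall2 : ∀ c ∈ [(2, some 5), (4, some 3), (0, none), (0, some 2)],
          GenMem G ![(⟨0, by omega⟩ : Fin l), ⟨1, by omega⟩, p, q] c :=
        forall_mem4 (GLm.gen (a := 1) (b := 2) (by norm_num) (by norm_num) (h := g23) rfl rfl)
          (GLm.gen (a := 2) (b := 1) (by norm_num) (by norm_num) (h := g32) rfl rfl) hL' hy'
      have hc2 : c ∈ [(0, some 3), (2, some 1), (0, some 5), (4, some 1)] ∨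
          c ∈ [(2, some 5), (4, some 3), (0, none), (0, some 2)] := by
        simp only [List.mem_cons, List.not_mem_nil, or_false] at hc1 ⊢
        tauto
      rcases hc2 with hc2 | hc2
      · exact (hall1 c hc2).mem
      · exact (hall2 c hc2).mem
  have t1 := check_target hP (rules := []) (by intro R hR; simp at hR) hst checkCO targetCO_ef
  have t2 := check_target hP (rules := []) (by intro R hR; simp at hR) hst checkCO targetCO_fe
  have t3 := check_target hP (rules := []) (by intro R hR; simp at hR) hst checkCO targetCO_e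
  have t4 := check_target hP (rules := []) (by intro R hR; simp at hR) hst checkCO targetCO_f
  refine ⟨?_, ?_, ?_, ?_⟩
  · unfold GLm
    rw [← sgC4_4 ⟨0, by omega⟩ ⟨1, by omega⟩ p q (by norm_num),
      ← sgC4_7 ⟨0, by omega⟩ ⟨1, by omega⟩ p q (by norm_num), ← xC_eq_emb]
    exact t1
  · unfold GLm
    rw [← sgC4_6 ⟨0, by omega⟩ ⟨1, by omega⟩ p q (by norm_num),
      ← sgC4_5 ⟨0, by omega⟩ ⟨1, by omega⟩ p q (by norm_num), ← xC_eq_emb]
    exact t2
  · rw [← sgC4_6 ⟨0, by omega⟩ ⟨1, by omega⟩ p q (by norm_num), ← xL_eq_emb]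
    exact t3
  · rw [← sgC4_7 ⟨0, by omega⟩ ⟨1, by omega⟩ p q (by norm_num), ← xL_eq_emb]
    exact t4

lemma fullC_V (h2 : 2 ≤ l)
    (hX : ∀ i : Fin l, Mem G (XC i : Matrix (WP l) (WP l) ℤ))
    (hY : ∀ i : Fin l, Mem G (YC i : Matrix (WP l) (WP l) ℤ)) : FullC G := by
  have hA : FullGL G l := by
    apply fullGL_of_adjacent
    intro i hi
    have h1 := hX ⟨i, by omega⟩
    have h2 := hY ⟨i, by omega⟩
    simp only [XC, YC, xCu, hi, dite_true] at h1 h2
    rw [xC_symm] at h2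
    exact ⟨h1, h2⟩
  have hn : ¬ l - 1 + 1 < l := by omega
  refine fullC_of hA ⟨l - 1, by omega⟩ ?_ ?_
  · have h1 := hX ⟨l - 1, by omega⟩
    simp only [XC, xLu, hn, dite_false] at h1
    exact h1
  · have h1 := hY ⟨l - 1, by omega⟩
    simp only [YC, xLu, hn, dite_false] at h1
    exact h1

lemma genC_XY (h2 : 2 ≤ l)
    (hA : ∀ (i : ℕ) (hi : i + 1 < l), GLm G ⟨i, by omega⟩ ⟨i + 1, hi⟩ ∧
      GLm G ⟨i + 1, hi⟩ ⟨i, by omega⟩)
    (h1 : Mem G (xL ((⟨l - 1, by omega⟩, true) : WP l) 1))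
    (h2 : Mem G (xL ((⟨l - 1, by omega⟩, false) : WP l) 1)) (i : Fin l) :
    Mem G (XC i : Matrix (WP l) (WP l) ℤ) ∧ Mem G (YC i : Matrix (WP l) (WP l) ℤ) := by
  rcases i with ⟨i, hi⟩
  unfold XC YC
  by_cases h : i + 1 < l
  · simp only [h, dite_true]
    refine ⟨(hA i h).1, ?_⟩
    have := (hA i h).2
    unfold GLm at this
    rw [xC_symm] at this
    exact this
  · simp only [h, dite_false]
    have : i = l - 1 := by omega
    subst this
    exact ⟨h1, h2⟩

end MP9bf44d
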