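import Pool.Agent.Lib.H68.Defs

/-! # Exponentials of nilpotent inner derivations -/

namespace MP9bf44d

open LieAlgebra Finset

section Exp

variable {K L : Type*} [Field K] [CharZero K] [LieRing L] [LieAlgebra K L]

lemma expAd_eq_exp [Module ℚ L] (x : L) :
    expAd K x = IsNilpotent.exp (ad K L x) := by
  unfold expAd IsNilpotent.exp
  apply Finset.sum_congr rfl
  intro i _
  ext y
  simp only [LinearMap.smul_apply]
  have h : ∀ (n : ℕ) (z : L), ((n : K)⁻¹) • z = ((n : ℚ)⁻¹) • z := by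
    intro n z
    rcases Nat.eq_zero_or_pos n with rfl | hn
    · simp
    · have h1 : (n : K) ≠ 0 := by exact_mod_cast hn.ne'
      have h2 : (n : ℚ) ≠ 0 := by exact_mod_cast hn.ne'
      have h3 : (n : K) • (((n : K)⁻¹) • z) = z := by rw [smul_smul, mul_inv_cancel₀ h1, one_smul]
      have h4 : (n : ℚ) • (((n : ℚ)⁻¹) • z) = z := by rw [smul_smul, mul_inv_cancel₀ h2, one_smul]
      rw [Nat.cast_smul_eq_nsmul] at h3 h4
      have h5 : (n : K) • (((n : ℚ)⁻¹) • z) = z := by rw [Nat.cast_smul_eq_nsmul]; exact h4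
      calc ((n : K)⁻¹) • z = ((n : K)⁻¹) • ((n : K) • (((n : ℚ)⁻¹) • z)) := by rw [h5]
        _ = _ := by rw [smul_smul, inv_mul_cancel₀ h1, one_smul]
  exact h _ _

/-- The `ℚ`-module structure. -/
abbrev ratMod (K L : Type*) [Field K] [CharZero K] [LieRing L] [LieAlgebra K L] : Module ℚ L :=
  Module.compHom L (algebraMap ℚ K)

lemma expAd_apply_sum {x : L} (hx : IsNilpotent (ad K L x)) {y : L} {k : ℕ}
    (hk : ((ad K L x) ^ k) y = 0) :
    expAd K x y = ∑ i ∈ range k, ((i.factorial : K)⁻¹) • ((ad K L x) ^ i) y := by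
  unfold expAd
  set N := nilpotencyClass (ad K L x) with hN
  rw [LinearMap.sum_apply]
  simp only [LinearMap.smul_apply]
  have h1 : ∀ i, N ≤ i → ((ad K L x) ^ i) y = 0 := by
    intro i hi
    rw [pow_eq_zero_of_le hi (pow_nilpotencyClass hx)]; rfl
  have h2 : ∀ i, k ≤ i → ((ad K L x) ^ i) y = 0 := by
    intro i hi
    obtain ⟨j, rfl⟩ := Nat.exists_eq_add_of_le hi
    rw [add_comm, pow_add, Module.End.mul_apply, hk, map_zero]
  rcases le_total N k with h | h
  · apply Finset.sum_subset (range_subset_range.mpr h)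
    intro i _ hi
    rw [h1 i (by simpa using hi), smul_zero]
  · symm
    apply Finset.sum_subset (range_subset_range.mpr h)
    intro i _ hi
    rw [h2 i (by simpa using hi), smul_zero]

lemma expAd_mul_neg_self {x : L} (hx : IsNilpotent (ad K L x)) :
    expAd K x * expAd K (-x) = 1 := by
  letI := ratMod K L
  rw [expAd_eq_exp, expAd_eq_exp, map_neg]
  exact IsNilpotent.exp_mul_exp_neg_self hx

lemma expAd_neg_mul_self {x : L} (hx : IsNilpotent (ad K L x)) :
    expAd K (-x) * expAd K x = 1 := by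
  letI := ratMod K L
  rw [expAd_eq_exp, expAd_eq_exp, map_neg]
  exact IsNilpotent.exp_neg_mul_exp_self hx

lemma expAd_lie {x : L} (hx : IsNilpotent (ad K L x)) (y z : L) :
    expAd K x ⁅y, z⁆ = ⁅expAd K x y, expAd K x z⁆ := by
  letI := ratMod K L
  rw [expAd_eq_exp]
  let _i := LieRing.toNonUnitalNonAssocRing L
  have : SMulCommClass K L L := LieAlgebra.smulCommClass K L
  have : IsScalarTower K L L := LieAlgebra.isScalarTower K L
  exact Module.End.exp_mul_of_derivation K L (ad K L x)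
    (fun a b => by
      change ⁅x, ⁅a, b⁆⁆ = ⁅a, ⁅x, b⁆⁆ + ⁅⁅x, a⁆, b⁆
      rw [leibniz_lie, add_comm]) hx y z

/-- `exp (ad x)` as an automorphism of the Lie algebra. -/
noncomputable def expE {x : L} (hx : IsNilpotent (ad K L x)) : L ≃ₗ⁅K⁆ L :=
  { toLinearMap := expAd K x
    map_lie' := fun {y z} => expAd_lie hx y z
    invFun := fun y => expAd K (-x) y
    left_inv := fun y => by
      change expAd K (-x) (expAd K x y) = y
      rw [← Module.End.mul_apply, expAd_neg_mul_self hx]; rfl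
    right_inv := fun y => by
      change expAd K x (expAd K (-x) y) = y
      rw [← Module.End.mul_apply, expAd_mul_neg_self hx]; rfl }

@[simp] lemma expE_apply {x : L} (hx : IsNilpotent (ad K L x)) (y : L) :
    expE hx y = expAd K x y := rfl

lemma map_ad_pow (g : L ≃ₗ⁅K⁆ L) (x y : L) (n : ℕ) :
    g (((ad K L x) ^ n) y) = ((ad K L (g x)) ^ n) (g y) := by
  induction n with
  | zero => simp
  | succ n ih =>
    rw [pow_succ', pow_succ', Module.End.mul_apply, Module.End.mul_apply, ad_apply, ad_apply,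
      ← ih]
    exact LieEquiv.map_lie g x _

lemma isNilpotent_map (g : L ≃ₗ⁅K⁆ L) {x : L} (hx : IsNilpotent (ad K L x)) :
    IsNilpotent (ad K L (g x)) := by
  obtain ⟨n, hn⟩ := hx
  refine ⟨n, ?_⟩
  ext y
  have := map_ad_pow g x (g.symm y) n
  rw [LieEquiv.apply_symm_apply] at this
  rw [← this, hn]
  simp

lemma map_expAd (g : L ≃ₗ⁅K⁆ L) {x : L} (hx : IsNilpotent (ad K L x)) (y : L) :
    g (expAd K x y) = expAd K (g x) (g y) := by
  obtain ⟨n, hn⟩ := hx
  have h1 : ((ad K L x) ^ n) y = 0 := by rw [hn]; rfl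
  have h2 : ((ad K L (g x)) ^ n) (g y) = 0 := by
    rw [← map_ad_pow, h1]; simp
  rw [expAd_apply_sum ⟨n, hn⟩ h1, expAd_apply_sum (isNilpotent_map g ⟨n, hn⟩) h2]
  have : g (∑ i ∈ range n, ((i.factorial : K)⁻¹) • ((ad K L x) ^ i) y) =
      ∑ i ∈ range n, g (((i.factorial : K)⁻¹) • ((ad K L x) ^ i) y) :=
    map_sum g.toLinearEquiv _ _
  rw [this]
  apply Finset.sum_congr rfl
  intro i _
  rw [← map_ad_pow]
  exact map_smul g.toLinearEquiv _ _

lemma isNilpotent_smul {x : L} (hx : IsNilpotent (ad K L x)) (c : K) :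
    IsNilpotent (ad K L (c • x)) := by
  rw [map_smul]; exact hx.smul c

lemma isNilpotent_zsmul {x : L} (hx : IsNilpotent (ad K L x)) (c : ℤ) :
    IsNilpotent (ad K L (c • x)) := by
  rw [← Int.cast_smul_eq_zsmul K]; exact isNilpotent_smul hx _

lemma isNilpotent_neg' {x : L} (hx : IsNilpotent (ad K L x)) :
    IsNilpotent (ad K L (-x)) := by
  rw [map_neg]; exact hx.neg

end Exp

end MP9bf44d
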