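import Pool.Agent.Lib.H68.Chev9

/-! # The Chevalley group acting on the lattice -/

namespace MP9bf44d

open LieAlgebra LieAlgebra.IsKilling LieModule Module

lemma ThreeInvolutions.of_mulEquiv {G G' : Type*} [Group G] [Group G'] (e : G ≃* G')
    (h : ThreeInvolutions G) : ThreeInvolutions G' := by
  obtain ⟨a, b, c, ha, hb, hc, hab, hcl⟩ := h
  refine ⟨e a, e b, e c, ?_, ?_, ?_, ?_, ?_⟩
  · rw [MulEquiv.orderOf_eq, ha]
  · rw [MulEquiv.orderOf_eq, hb]
  · rw [MulEquiv.orderOf_eq, hc]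
  · rw [← map_mul, hab, map_mul]
  · have h1 := congrArg (Subgroup.map e.toMonoidHom) hcl
    rw [MonoidHom.map_closure, Subgroup.map_top_of_surjective _ e.surjective] at h1
    rw [← h1]
    congr 1
    simp [Set.image_insert_eq]

section

variable {K L : Type*} [Field K] [CharZero K] [LieRing L] [LieAlgebra K L]
  [FiniteDimensional K L] [IsKilling K L]
  {H : LieSubalgebra K L} [H.IsCartanSubalgebra] [IsTriangularizable K H L]
  {x : Weight K H L → L} (hx : IsChevalleyBasis x) (b : (rootSystem H).Base)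

/-- The stabilizer of a lattice in `GL(L)`. -/
def stabZ (M : Submodule ℤ L) : Subgroup (L →ₗ[K] L)ˣ where
  carrier := {g | (∀ v ∈ M, (g : L →ₗ[K] L) v ∈ M) ∧
    (∀ v ∈ M, ((g⁻¹ : (L →ₗ[K] L)ˣ) : L →ₗ[K] L) v ∈ M)}
  mul_mem' := by
    rintro g g' ⟨h1, h2⟩ ⟨h3, h4⟩
    refine ⟨fun v hv => h1 _ (h3 v hv), fun v hv => ?_⟩
    rw [mul_inv_rev]
    exact h4 _ (h2 v hv)
  one_mem' := ⟨fun v hv => hv, fun v hv => by rw [inv_one]; exact hv⟩
  inv_mem' := by
    rintro g ⟨h1, h2⟩
    exact ⟨h2, fun v hv => by rw [inv_inv]; exact h1 v hv⟩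

/-- Restriction to the lattice. -/
def resZ (M : Submodule ℤ L) : stabZ (K := K) M →* (M ≃ₗ[ℤ] M) where
  toFun g :=
    { toFun := fun v => ⟨(g.1 : L →ₗ[K] L) v, g.2.1 v v.2⟩
      map_add' := fun u v => Subtype.ext (map_add _ _ _)
      map_smul' := fun n v => Subtype.ext (map_zsmul _ _ _)
      invFun := fun v => ⟨((g.1⁻¹ : (L →ₗ[K] L)ˣ) : L →ₗ[K] L) v, g.2.2 v v.2⟩
      left_inv := fun v => Subtype.ext (by
        change ((g.1⁻¹ : (L →ₗ[K] L)ˣ) : L →ₗ[K] L) ((g.1 : L →ₗ[K] L) v) = v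
        rw [← Module.End.mul_apply, Units.inv_mul]; rfl)
      right_inv := fun v => Subtype.ext (by
        change (g.1 : L →ₗ[K] L) (((g.1⁻¹ : (L →ₗ[K] L)ˣ) : L →ₗ[K] L) v) = v
        rw [← Module.End.mul_apply, Units.mul_inv]; rfl) }
  map_one' := by ext v; rfl
  map_mul' g g' := by ext v; rfl

@[simp] lemma resZ_apply (M : Submodule ℤ L) (g : stabZ (K := K) M) (v : M) :
    (resZ M g v : L) = (g.1 : L →ₗ[K] L) v := rfl

include hx

lemma GadRoots_le_stab : GadRoots x ≤ stabZ (K := K) (latticeZ b x) := by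
  unfold GadRoots
  rw [Subgroup.closure_le]
  rintro g ⟨t, α, hα, h⟩
  have hn : IsNilpotent (ad K L (t • x α)) := isNilpotent_zsmul (hx.isChevSys.nil hα) t
  refine ⟨fun v hv => ?_, fun v hv => ?_⟩
  · rw [h]; exact exp_mem hx b t hα hv
  · have h2 : ((g⁻¹ : (L →ₗ[K] L)ˣ) : L →ₗ[K] L) = expAd K ((-t) • x α) := by
      have h3 : g⁻¹ = (ue hn)⁻¹ := by
        congr 1
        exact Units.ext h
      rw [h3, neg_smul]; rfl
    rw [h2]; exact exp_mem hx b (-t) hα hv

/-- The restriction homomorphism. -/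
noncomputable def resG : GadRoots x →* (latticeZ b x ≃ₗ[ℤ] latticeZ b x) :=
  (resZ (latticeZ b x)).comp (Subgroup.inclusion (GadRoots_le_stab hx b))

lemma resG_injective : Function.Injective (resG hx b) := by
  intro g g' h
  have h1 : ∀ v ∈ latticeZ b x, ((g : (L →ₗ[K] L)ˣ) : L →ₗ[K] L) v =
      ((g' : (L →ₗ[K] L)ˣ) : L →ₗ[K] L) v := by
    intro v hv
    exact congrArg Subtype.val (LinearEquiv.congr_fun h ⟨v, hv⟩)
  apply Subtype.ext
  apply Units.ext
  ext v
  have S := hx.isChevSys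
  have hH : ∀ t : H, ((g : (L →ₗ[K] L)ˣ) : L →ₗ[K] L) (t : L) =
      ((g' : (L →ₗ[K] L)ˣ) : L →ₗ[K] L) (t : L) := by
    intro t
    have ht : (t : L) ∈ Submodule.span K
      (Set.range fun i : b.support => ((coroot (i : Weight K H L) : H) : L)) := by
      rw [span_simple_coroots]; exact t.2
    generalize (t : L) = t' at ht
    induction ht using Submodule.span_induction with
    | mem y hy =>
      obtain ⟨i, rfl⟩ := hy
      exact h1 _ (coroot_mem_lattice b (root_nz (i : H.root)))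
    | zero => rw [map_zero, map_zero]
    | add u v _ _ hu hv => rw [map_add, map_add, hu, hv]
    | smul c u _ hu => rw [map_smul, map_smul, hu]
  refine L_induction (x := x) hx.mem_rootSpace (fun α hα => hx.ne_zero hα)
    (p := fun v => ((g : (L →ₗ[K] L)ˣ) : L →ₗ[K] L) v = ((g' : (L →ₗ[K] L)ˣ) : L →ₗ[K] L) v)
    ?_ ?_ hH ?_ v
  · intro u v hu hv; rw [map_add, map_add, hu, hv]
  · intro c u hu; rw [map_smul, map_smul, hu]
  · intro α hα
    exact h1 _ (root_mem_lattice b hα)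

lemma resG_range : (resG hx b).range = GadZ b x := by
  apply le_antisymm
  · rintro - ⟨⟨g, hg⟩, rfl⟩
    have key : ∀ g (hg : g ∈ GadRoots x), resG hx b ⟨g, hg⟩ ∈ GadZ b x := by
      intro g hg
      unfold GadRoots at hg
      induction hg using Subgroup.closure_induction with
      | mem g hg =>
        obtain ⟨t, α, hα, h⟩ := hg
        refine Subgroup.subset_closure ⟨t, α, hα, fun v => ?_⟩
        exact LinearMap.congr_fun h (v : L)
      | one =>
        have : resG hx b ⟨1, one_mem _⟩ = 1 := map_one (resG hx b)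
        rw [this]; exact one_mem _
      | mul u v hu hv h1 h2 =>
        have : resG hx b ⟨u * v, mul_mem hu hv⟩ = resG hx b ⟨u, hu⟩ * resG hx b ⟨v, hv⟩ :=
          map_mul (resG hx b) ⟨u, hu⟩ ⟨v, hv⟩
        rw [this]; exact mul_mem h1 h2
      | inv u hu h1 =>
        have : resG hx b ⟨u⁻¹, inv_mem hu⟩ = (resG hx b ⟨u, hu⟩)⁻¹ :=
          map_inv (resG hx b) ⟨u, hu⟩
        rw [this]; exact inv_mem h1
    exact key g hg
  · unfold GadZ
    rw [Subgroup.closure_le]
    rintro g ⟨t, α, hα, h⟩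
    have hn : IsNilpotent (ad K L (t • x α)) := isNilpotent_zsmul (hx.isChevSys.nil hα) t
    refine ⟨⟨ue hn, Subgroup.subset_closure ⟨t, α, hα, rfl⟩⟩, ?_⟩
    ext v
    rw [h v]
    rfl

/-- The group generated by the root elements in `GL(L)` and the one in `GL(L_ℤ)` are isomorphic. -/
noncomputable def gadEquiv : GadRoots x ≃* GadZ b x :=
  (MonoidHom.ofInjective (resG_injective hx b)).trans
    (MulEquiv.subgroupCongr (resG_range hx b))

end

end MP9bf44d
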