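import Pool.Agent.Lib.H68.Chev1

/-! # The Weyl element of an `sl₂`-triple -/

namespace MP9bf44d

open LieAlgebra Finset

section Weyl

variable {K L : Type*} [Field K] [CharZero K] [LieRing L] [LieAlgebra K L]

lemma expAd_one {x y : L} (hx : IsNilpotent (ad K L x)) (h : ⁅x, y⁆ = 0) :
    expAd K x y = y := by
  rw [expAd_apply_sum (k := 1) hx (by simp [h])]
  simp

lemma expAd_two {x y : L} (hx : IsNilpotent (ad K L x)) (h : ⁅x, ⁅x, y⁆⁆ = 0) :
    expAd K x y = y + ⁅x, y⁆ := by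
  rw [expAd_apply_sum (k := 2) hx (by simp [pow_succ, h])]
  simp [Finset.sum_range_succ]

lemma expAd_three {x y : L} (hx : IsNilpotent (ad K L x)) (h : ⁅x, ⁅x, ⁅x, y⁆⁆⁆ = 0) :
    expAd K x y = y + ⁅x, y⁆ + (2 : K)⁻¹ • ⁅x, ⁅x, y⁆⁆ := by
  rw [expAd_apply_sum (k := 3) hx (by simp [pow_succ, h])]
  simp [Finset.sum_range_succ, pow_succ, Nat.factorial]

lemma expAd_four {x y : L} (hx : IsNilpotent (ad K L x)) (h : ⁅x, ⁅x, ⁅x, ⁅x, y⁆⁆⁆⁆ = 0) :
    expAd K x y = y + ⁅x, y⁆ + (2 : K)⁻¹ • ⁅x, ⁅x, y⁆⁆ + (6 : K)⁻¹ • ⁅x, ⁅x, ⁅x, y⁆⁆⁆ := by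
  rw [expAd_apply_sum (k := 4) hx (by simp [pow_succ, h])]
  simp [Finset.sum_range_succ, pow_succ, Nat.factorial]

variable {h e f : L}

/-- The Weyl element `exp (ad e) exp (- ad f) exp (ad e)`. -/
noncomputable def wE (he : IsNilpotent (ad K L e)) (hf : IsNilpotent (ad K L f)) : L ≃ₗ⁅K⁆ L :=
  (expE he).trans ((expE (isNilpotent_neg' hf)).trans (expE he))

lemma wE_apply (he : IsNilpotent (ad K L e)) (hf : IsNilpotent (ad K L f)) (y : L) :
    wE he hf y = expAd K e (expAd K (-f) (expAd K e y)) := rfl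

lemma exp_e_e (he : IsNilpotent (ad K L e)) : expAd K e e = e :=
  expAd_one he (lie_self e)

lemma exp_e_cartan (he : IsNilpotent (ad K L e)) {t : L} {c : K} (hc : ⁅t, e⁆ = c • e) :
    expAd K e t = t - c • e := by
  have h1 : ⁅e, t⁆ = -(c • e) := by rw [← lie_skew, hc]
  rw [expAd_two he (by rw [h1]; simp), h1]
  abel

lemma exp_e_f (S : IsSl2Triple h e f) (he : IsNilpotent (ad K L e)) :
    expAd K e f = f + h - e := by
  have heh : ⁅e, h⁆ = -((2 : K) • e) := by rw [← lie_skew, S.lie_h_e_smul K]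
  rw [expAd_three he (by rw [S.lie_e_f, heh]; simp), S.lie_e_f, heh]
  module

lemma exp_nf_f (hf : IsNilpotent (ad K L f)) : expAd K (-f) f = f :=
  expAd_one (isNilpotent_neg' hf) (by simp)

lemma exp_nf_cartan (hf : IsNilpotent (ad K L f)) {t : L} {c : K} (hc : ⁅t, f⁆ = -(c • f)) :
    expAd K (-f) t = t - c • f := by
  have h1 : ⁅-f, t⁆ = -(c • f) := by rw [neg_lie, lie_skew, hc]
  rw [expAd_two (isNilpotent_neg' hf) (by rw [h1]; simp), h1]
  abel

lemma exp_nf_e (S : IsSl2Triple h e f) (hf : IsNilpotent (ad K L f)) :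
    expAd K (-f) e = e + h - f := by
  have h0 : ⁅-f, e⁆ = h := by rw [neg_lie, lie_skew, S.lie_e_f]
  have h1 : ⁅-f, h⁆ = -((2 : K) • f) := by rw [neg_lie, lie_skew, S.lie_lie_smul_f K]
  rw [expAd_three (isNilpotent_neg' hf) (by rw [h0, h1]; simp), h0, h1]
  module

variable (S : IsSl2Triple h e f) (he : IsNilpotent (ad K L e)) (hf : IsNilpotent (ad K L f))

include S

lemma wE_e : wE he hf e = -f := by
  rw [wE_apply, exp_e_e he, exp_nf_e S hf, map_sub, map_add, exp_e_e he,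
    exp_e_cartan he (S.lie_h_e_smul K), exp_e_f S he]
  module

lemma wE_f : wE he hf f = -e := by
  rw [wE_apply, exp_e_f S he, map_sub, map_add, exp_nf_f hf,
    exp_nf_cartan hf (S.lie_lie_smul_f K), exp_nf_e S hf]
  have : f + (h - (2 : K) • f) - (e + h - f) = -e := by module
  rw [this, map_neg, exp_e_e he]

lemma wE_cartan {t : L} {c : K} (hc : ⁅t, e⁆ = c • e) (hc' : ⁅t, f⁆ = -(c • f)) :
    wE he hf t = t - c • h := by
  rw [wE_apply, exp_e_cartan he hc, map_sub, map_smul, exp_nf_cartan hf hc', exp_nf_e S hf,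
    map_sub, map_sub, map_smul, map_smul, exp_e_cartan he hc, map_sub, map_add, exp_e_e he,
    exp_e_cartan he (S.lie_h_e_smul K), exp_e_f S he]
  module

lemma wE_h : wE he hf h = -h := by
  rw [wE_cartan S he hf (S.lie_h_e_smul K) (S.lie_lie_smul_f K)]
  module

include he hf in
/-- The braid relation. -/
lemma braid (y : L) :
    expAd K e (expAd K (-f) (expAd K e y)) = expAd K (-f) (expAd K e (expAd K (-f) y)) := by
  have h1 : ∀ z, wE he hf (expAd K e z) = expAd K (-f) (wE he hf z) := by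
    intro z
    rw [map_expAd (wE he hf) he, wE_e S he hf]
  have h2 := h1 (expAd K (-e) y)
  rw [← Module.End.mul_apply (expAd K e) (expAd K (-e)), expAd_mul_neg_self he,
    Module.End.one_apply] at h2
  rw [← wE_apply he hf, h2, wE_apply he hf, ← Module.End.mul_apply (expAd K e) (expAd K (-e)),
    expAd_mul_neg_self he, Module.End.one_apply]

end Weyl

end MP9bf44d
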