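import Pool.Agent.Lib.H68.Chev2

/-! # Chevalley systems: the action of the Weyl elements -/

namespace MP9bf44d

open LieAlgebra LieAlgebra.IsKilling LieModule Module

section

variable {K L : Type*} [Field K] [CharZero K] [LieRing L] [LieAlgebra K L]
  [FiniteDimensional K L] [IsKilling K L]
  {H : LieSubalgebra K L} [H.IsCartanSubalgebra] [IsTriangularizable K H L]

/-- A Chevalley system, with the sign convention `[x_α, x_{-α}] = h_α`. -/
structure IsChevSys (x : Weight K H L → L) : Prop where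
  mem (α : Weight K H L) (hα : α.IsNonZero) : x α ∈ rootSpace H α
  lie (α : Weight K H L) (hα : α.IsNonZero) : ⁅x α, x (-α)⁆ = (coroot α : L)
  inv : ∃ θ : L ≃ₗ⁅K⁆ L, ∀ α : Weight K H L, α.IsNonZero → θ (x α) = -x (-α)

lemma mem_rootSpace_iff' {β : H → K} {v : L} :
    v ∈ rootSpace H β ↔ ∀ t : H, ⁅(t : L), v⁆ = β t • v := by
  constructor
  · intro h t
    exact lie_eq_smul_of_mem_rootSpace h t
  · intro h
    rw [LieModule.mem_genWeightSpace]
    intro t
    refine ⟨1, ?_⟩
    have := h t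
    simp only [pow_one, LinearMap.sub_apply, toEnd_apply_apply, LinearMap.smul_apply,
      Module.End.one_apply]
    rw [sub_eq_zero]
    exact this

variable {x : Weight K H L → L} (hx : IsChevSys x) {α β : Weight K H L}
  (hα : α.IsNonZero) (hβ : β.IsNonZero)

include hx

lemma IsChevSys.cartan_lie (hα : α.IsNonZero) (t : H) : ⁅(t : L), x α⁆ = α t • x α :=
  mem_rootSpace_iff'.mp (hx.mem α hα) t

lemma IsChevSys.cartan_lie_neg (hα : α.IsNonZero) (t : H) :
    ⁅(t : L), x (-α)⁆ = -(α t • x (-α)) := by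
  rw [hx.cartan_lie (Weight.IsNonZero.neg hα) t]
  simp

lemma IsChevSys.sl2 (hα : α.IsNonZero) : IsSl2Triple (coroot α : L) (x α) (x (-α)) where
  h_ne_zero := by
    intro h
    exact hα (coroot_eq_zero_iff.mp (by ext; simpa using h))
  lie_e_f := hx.lie α hα
  lie_h_e_nsmul := by
    rw [hx.cartan_lie hα, root_apply_coroot hα, two_smul, two_smul]
  lie_h_f_nsmul := by
    rw [hx.cartan_lie_neg hα, root_apply_coroot hα, two_smul, two_smul]

lemma IsChevSys.nil (hα : α.IsNonZero) : IsNilpotent (ad K L (x α)) :=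
  LieAlgebra.isNilpotent_ad_of_mem_rootSpace H (χ := α)
    (by rwa [ne_eq, Weight.coe_eq_zero_iff]) (hx.mem α hα)

lemma IsChevSys.nil_neg (hα : α.IsNonZero) : IsNilpotent (ad K L (x (-α))) :=
  hx.nil (Weight.IsNonZero.neg hα)

lemma IsChevSys.ne_zero (hα : α.IsNonZero) : x α ≠ 0 := (hx.sl2 hα).e_ne_zero

omit hx in
/-- The Weyl element attached to the root `α`. -/
noncomputable def wα (hx : IsChevSys x) (hα : α.IsNonZero) : L ≃ₗ⁅K⁆ L :=
  wE (hx.nil hα) (hx.nil_neg hα)

lemma w_cartan (t : H) :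
    wα hx hα (t : L) = ((t - α t • coroot α : H) : L) := by
  unfold wα
  rw [wE_cartan (hx.sl2 hα) _ _ (hx.cartan_lie hα t) (hx.cartan_lie_neg hα t)]
  simp

omit hx in
lemma reflect_apply (t : H) : reflectRoot α β t = β t - β (coroot α) * α t := rfl

omit hx in
lemma weight_reflect (α β : Weight K H L) (t : H) :
    β (t - α t • coroot α) = reflectRoot α β t := by
  rw [map_sub, map_smul, smul_eq_mul, reflect_apply, mul_comm]

lemma w_cartan' (t : H) :
    wα hx hα (((t - α t • coroot α : H)) : L) = t := by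
  rw [w_cartan]
  congr 1
  rw [map_sub, map_smul, root_apply_coroot hα, smul_eq_mul, sub_eq_iff_eq_add, sub_eq_add_neg,
    add_right_inj]
  module

lemma w_mem {v : L} (hv : v ∈ rootSpace H β) :
    wα hx hα v ∈ rootSpace H (reflectRoot α β) := by
  rw [mem_rootSpace_iff'] at hv ⊢
  intro t
  rw [← w_cartan' hx hα t, ← LieEquiv.map_lie, hv, weight_reflect]
  exact map_smul (wα hx hα).toLinearEquiv _ _

omit hx in
lemma reflect_neg : reflectRoot α (-β) = -reflectRoot α β := by
  ext t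
  simp only [reflect_apply, Weight.coe_neg, Pi.neg_apply]
  ring

lemma exists_smul_of_mem (hβ : β.IsNonZero) {v : L} (hv : v ∈ rootSpace H β) :
    ∃ c : K, v = c • x β := by
  have h1 := finrank_rootSpace_eq_one β hβ
  have h2 : (⟨x β, hx.mem β hβ⟩ : rootSpace H β) ≠ 0 := by
    intro h
    exact hx.ne_zero hβ (congrArg Subtype.val h)
  obtain ⟨c, hc⟩ := (finrank_eq_one_iff_of_nonzero' _ h2).mp h1 ⟨v, hv⟩
  exact ⟨c, (congrArg Subtype.val hc).symm⟩

include hβ in
/-- The Weyl elements permute the root vectors up to sign. -/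
lemma w_root : ∃ ε : K, (ε = 1 ∨ ε = -1) ∧
    wα hx hα (x β) = ε • x (reflectRoot α β) ∧
    wα hx hα (x (-β)) = ε • x (-reflectRoot α β) := by
  set γ := reflectRoot α β with hγdef
  have hγ : γ.IsNonZero := reflectRoot_isNonZero α β hβ
  obtain ⟨c, hc⟩ := exists_smul_of_mem hx hγ (w_mem hx hα (hx.mem β hβ))
  obtain ⟨θ, hθ⟩ := hx.inv
  have hθw : ∀ y, θ (wα hx hα y) = wα hx hα (θ y) := by
    intro y
    have h1 := hθ α hα
    have h2 := hθ (-α) (Weight.IsNonZero.neg hα)
    rw [neg_neg] at h2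
    change θ (expAd K (x α) (expAd K (-x (-α)) (expAd K (x α) y))) =
      expAd K (x α) (expAd K (-x (-α)) (expAd K (x α) (θ y)))
    rw [map_expAd θ (hx.nil hα), map_expAd θ (isNilpotent_neg' (hx.nil_neg hα)),
      map_expAd θ (hx.nil hα), h1]
    have h3 : θ (-x (-α)) = x α := by
      have : θ (-x (-α)) = -θ (x (-α)) := map_neg θ.toLinearEquiv _
      rw [this, h2, neg_neg]
    rw [h3]
    exact (braid (hx.sl2 hα) (hx.nil hα) (hx.nil_neg hα) (θ y)).symm
  have hc' : wα hx hα (x (-β)) = c • x (-γ) := by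
    have h1 : θ (wα hx hα (x β)) = wα hx hα (-x (-β)) := by rw [hθw, hθ β hβ]
    have h2 : wα hx hα (-x (-β)) = - wα hx hα (x (-β)) :=
      map_neg (wα hx hα).toLinearEquiv _
    have h3 : θ (c • x γ) = c • θ (x γ) := map_smul θ.toLinearEquiv _ _
    rw [h2, hc, h3, hθ γ hγ, smul_neg] at h1
    exact (neg_injective h1).symm
  refine ⟨c, ?_, hc, hc'⟩
  have h4 : wα hx hα ⁅x β, x (-β)⁆ = ⁅wα hx hα (x β), wα hx hα (x (-β))⁆ :=
    LieEquiv.map_lie _ _ _
  rw [hc, hc', hx.lie β hβ, w_cartan, smul_lie, lie_smul, smul_smul, hx.lie γ hγ] at h4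
  have h5 : (coroot β - α (coroot β) • coroot α : H) = (c * c) • coroot γ := by
    apply Subtype.ext
    rw [h4]; rfl
  have h6 := congrArg γ h5
  rw [map_smul, root_apply_coroot hγ, ← weight_reflect, map_sub, map_smul, map_sub, map_smul,
    map_sub, map_smul, root_apply_coroot hα, root_apply_coroot hβ] at h6
  have h7 : (c - 1) * (c + 1) = 0 := by
    simp only [smul_eq_mul] at h6
    have h8 : (2 : K) * (c * c) = 2 := by
      rw [mul_comm, ← h6]; ring
    have h9 : (2 : K) ≠ 0 := two_ne_zero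
    have : c * c = 1 := mul_left_cancel₀ h9 (by rw [h8, mul_one])
    rw [← sub_eq_zero] at this
    rw [← this]; ring
  rcases mul_eq_zero.mp h7 with h | h
  · left; exact sub_eq_zero.mp h
  · right; exact eq_neg_of_add_eq_zero_left h

end

end MP9bf44d
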