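import Pool.Agent.Lib.H68.Chev3

/-! # Chevalley systems and bases of the Lie algebra -/

namespace MP9bf44d

open LieAlgebra LieAlgebra.IsKilling LieModule Module Set

section

variable {K L : Type*} [Field K] [CharZero K] [LieRing L] [LieAlgebra K L]
  [FiniteDimensional K L] [IsKilling K L]
  {H : LieSubalgebra K L} [H.IsCartanSubalgebra] [IsTriangularizable K H L]

lemma root_nz (i : H.root) : (i : Weight K H L).IsNonZero :=
  LieSubalgebra.isNonZero_coe_root i

/-- A nonzero weight as a root. -/
def toRoot {α : Weight K H L} (hα : α.IsNonZero) : H.root := ⟨α, by simpa using hα⟩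

lemma coe_reflectionPerm (i j : H.root) :
    (((rootSystem H).reflectionPerm j i : H.root) : Weight K H L) = reflectRoot j i := by
  ext t
  have h := (rootSystem H).root_reflectionPerm j i
  have h2 := LinearMap.congr_fun h t
  rw [rootSystem_root_apply] at h2
  rw [(rootSystem H).reflection_apply_root] at h2
  simpa [reflectRoot] using h2

lemma coe_reflectionPerm_self (i : H.root) :
    (((rootSystem H).reflectionPerm i i : H.root) : Weight K H L) = -(i : Weight K H L) := by
  rw [coe_reflectionPerm]
  ext t
  rw [reflect_apply, root_apply_coroot (root_nz i)]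
  simp
  ring

/-- Induction on roots by simple reflections. -/
lemma root_induction (b : (rootSystem H).Base) {p : Weight K H L → Prop}
    (h0 : ∀ α, α.IsNonZero → p α → p (-α))
    (h1 : ∀ i ∈ b.support, p i)
    (h2 : ∀ (α : Weight K H L) (j : H.root), j ∈ b.support → α.IsNonZero → p α →
      p (reflectRoot j α))
    (β : Weight K H L) (hβ : β.IsNonZero) : p β := by
  have := b.induction_reflect (toRoot hβ) (p := fun i => p i)
    (fun i hi => by rw [coe_reflectionPerm_self]; exact h0 _ (root_nz i) hi) h1
    (fun i j hi hj => by rw [coe_reflectionPerm]; exact h2 _ j hj (root_nz i) hi)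
  exact this

lemma span_simple_coroots (b : (rootSystem H).Base) :
    Submodule.span K (range fun i : b.support => ((coroot (i : Weight K H L) : H) : L)) =
      H.toSubmodule := by
  have h1 := b.span_coroot_support
  have h2 : (rootSystem H).corootSpan K = ⊤ := RootPairing.IsRootSystem.span_coroot_eq_top
  rw [h2] at h1
  have h3 := congrArg (Submodule.map H.toSubmodule.subtype) h1
  rw [Submodule.map_span, Submodule.map_top, Submodule.range_subtype] at h3
  rw [← h3]
  congr 1
  ext v
  simp

lemma lieSpan_simple_coroots (b : (rootSystem H).Base) :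
    H = LieSubalgebra.lieSpan K L
      (range fun i : b.support => ((coroot (i : Weight K H L) : H) : L)) := by
  have h := LieSubalgebra.coe_lieSpan_eq_span_of_forall_lie_eq_zero (R := K)
    (s := range fun i : b.support => ((coroot (i : Weight K H L) : H) : L)) ?_
  · rw [span_simple_coroots] at h
    exact (LieSubalgebra.toSubmodule_injective h).symm
  · rintro - ⟨i, rfl⟩ - ⟨j, rfl⟩
    have : ⁅(coroot (i : Weight K H L) : H), (coroot (j : Weight K H L) : H)⁆ = 0 :=
      trivial_lie_zero _ _ _ _
    exact congrArg Subtype.val this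

variable {x : Weight K H L → L} (hx : IsChevSys x)

include hx

/-- Subalgebras containing the simple root vectors and their negatives are everything. -/
lemma lieSpan_simple (b : (rootSystem H).Base) :
    LieSubalgebra.lieSpan K L ((range fun i : b.support => x (i : Weight K H L)) ∪
      (range fun i : b.support => x (-(i : Weight K H L)))) = ⊤ := by
  set M := LieSubalgebra.lieSpan K L ((range fun i : b.support => x (i : Weight K H L)) ∪
      (range fun i : b.support => x (-(i : Weight K H L)))) with hM
  have hsub := LieSubalgebra.subset_lieSpan (R := K) (L := L)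
    (s := (range fun i : b.support => x (i : Weight K H L)) ∪
      (range fun i : b.support => x (-(i : Weight K H L))))
  have hexp : ∀ y ∈ M, IsNilpotent (ad K L y) → ∀ v ∈ M, expAd K y v ∈ M := by
    intro y hy hn v hv
    obtain ⟨n, hn⟩ := hn
    rw [expAd_apply_sum (k := n) ⟨n, hn⟩ (by rw [hn]; rfl)]
    refine sum_mem fun i _ => M.smul_mem _ ?_
    clear * - hy hv
    induction i with
    | zero => simpa using hv
    | succ i ih => rw [pow_succ', Module.End.mul_apply, ad_apply]; exact M.lie_mem hy ih
  have hroot : ∀ β : Weight K H L, β.IsNonZero → (x β ∈ M ∧ x (-β) ∈ M) := by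
    refine root_induction b ?_ ?_ ?_
    · rintro α hα ⟨h1, h2⟩
      rw [neg_neg]; exact ⟨h2, h1⟩
    · intro i hi
      exact ⟨hsub (Or.inl ⟨⟨i, hi⟩, rfl⟩), hsub (Or.inr ⟨⟨i, hi⟩, rfl⟩)⟩
    · rintro α j hj hα ⟨h1, h2⟩
      have hj1 : x j ∈ M := hsub (Or.inl ⟨⟨j, hj⟩, rfl⟩)
      have hj2 : x (-j) ∈ M := hsub (Or.inr ⟨⟨j, hj⟩, rfl⟩)
      obtain ⟨ε, hε, h3, h4⟩ := w_root hx (root_nz j) hα
      have hw : ∀ v ∈ M, wα hx (root_nz j) v ∈ M := by
        intro v hv
        refine hexp _ hj1 (hx.nil (root_nz j)) _ (hexp _ (M.neg_mem hj2)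
          (isNilpotent_neg' (hx.nil_neg (root_nz j))) _ (hexp _ hj1 (hx.nil (root_nz j)) _ hv))
      have hε2 : ε * ε = 1 := by rcases hε with rfl | rfl <;> ring
      constructor
      · have := M.smul_mem ε (hw _ h1)
        rwa [h3, smul_smul, hε2, one_smul] at this
      · have := M.smul_mem ε (hw _ h2)
        rwa [h4, smul_smul, hε2, one_smul] at this
  have hH : ∀ t : H, (t : L) ∈ M := by
    intro t
    have ht : (t : L) ∈ Submodule.span K
      (range fun i : b.support => ((coroot (i : Weight K H L) : H) : L)) := by
      rw [span_simple_coroots]; exact t.2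
    have : Submodule.span K
      (range fun i : b.support => ((coroot (i : Weight K H L) : H) : L)) ≤ M.toSubmodule := by
      rw [Submodule.span_le]
      rintro - ⟨i, rfl⟩
      simp only
      rw [← hx.lie _ (root_nz i)]
      exact M.lie_mem (hroot _ (root_nz i)).1 (hroot _ (root_nz i)).2
    exact this ht
  rw [eq_top_iff]
  intro v _
  have hv : v ∈ (⨆ χ : Weight K H L, genWeightSpace L χ : LieSubmodule K H L) := by
    rw [iSup_genWeightSpace_eq_top' K H L]; trivial
  induction hv using LieSubmodule.iSup_induction' with
  | zero => exact M.zero_mem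
  | mem χ v hv =>
    by_cases hχ : χ.IsZero
    · have : v ∈ rootSpace H (0 : H → K) := by rw [← hχ.eq]; exact hv
      rw [rootSpace_zero_eq] at this
      exact hH ⟨v, this⟩
    · obtain ⟨c, rfl⟩ := exists_smul_of_mem hx hχ hv
      exact M.smul_mem _ (hroot _ hχ).1
  | add v w _ _ hv hw => exact M.add_mem (hv trivial) (hw trivial)

end

end MP9bf44d
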