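import Pool.Agent.Lib.H68.Chev4

/-! # The group generated by all root elements -/

namespace MP9bf44d

open LieAlgebra LieAlgebra.IsKilling LieModule Module Set

section

variable {K L : Type*} [Field K] [CharZero K] [LieRing L] [LieAlgebra K L]
  [FiniteDimensional K L] [IsKilling K L]
  {H : LieSubalgebra K L} [H.IsCartanSubalgebra] [IsTriangularizable K H L]
  {x : Weight K H L → L} (hx : IsChevSys x)

lemma cartan_eq_pairing (b : (rootSystem H).Base) (i j : b.support) :
    ((b.cartanMatrix i j : ℤ) : K) = (i : Weight K H L) (coroot (j : Weight K H L)) := by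
  have := b.algebraMap_cartanMatrixIn_apply ℤ i j
  rw [rootSystem_pairing_apply] at this
  simpa using this

include hx in
lemma lie_simple_neg (b : (rootSystem H).Base) (i j : b.support) (hij : i ≠ j) :
    ⁅x (i : Weight K H L), x (-(j : Weight K H L))⁆ = 0 := by
  by_contra hne
  have h1 := hx.mem _ (root_nz (i : H.root))
  have h2 := hx.mem _ (Weight.IsNonZero.neg (root_nz (j : H.root)))
  have h3 := lie_mem_genWeightSpace_of_mem_genWeightSpace h1 h2
  have hbot : rootSpace H ((i : Weight K H L) + ((-(j : Weight K H L) : Weight K H L)) : H → K)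
      ≠ ⊥ := by
    intro h
    have h4 : ⁅x (i : Weight K H L), x (-(j : Weight K H L))⁆ ∈
      rootSpace H ((i : Weight K H L) + ((-(j : Weight K H L) : Weight K H L)) : H → K) := h3
    rw [h] at h4
    exact hne (by simpa using h4)
  let γ : Weight K H L := ⟨_, hbot⟩
  have hγc : ∀ t, γ t = (i : Weight K H L) t - (j : Weight K H L) t := by
    intro t
    change (i : Weight K H L) t + ((-(j : Weight K H L) : Weight K H L)) t = _
    rw [Weight.coe_neg, Pi.neg_apply, sub_eq_add_neg]
  have hγ : γ.IsNonZero := by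
    intro h
    apply hij
    apply Subtype.ext
    apply Subtype.ext
    ext t
    have := congrFun h.eq t
    rw [hγc] at this
    exact sub_eq_zero.mp this
  apply b.sub_notMem_range_root i.2 j.2
  refine ⟨toRoot hγ, ?_⟩
  ext t
  simp only [rootSystem_root_apply, LinearMap.sub_apply]
  exact hγc t

/-- The basis of the Lie algebra attached to a Chevalley system and a base. -/
noncomputable def IsChevSys.toBasis (b : (rootSystem H).Base) : LieAlgebra.Basis b.support H where
  A := b.cartanMatrix
  h i := ((coroot (i : Weight K H L) : H) : L)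
  e i := x (i : Weight K H L)
  f i := x (-(i : Weight K H L))
  cartan_eq_lieSpan := lieSpan_simple_coroots b
  span_ef := lieSpan_simple hx b
  linInd := by
    have h := b.linearIndepOn_coroot
    have h2 := h.map' H.toSubmodule.subtype (Submodule.ker_subtype _)
    exact h2
  nondegen := b.cartanMatrix_nondegenerate
  sl2 i := hx.sl2 (root_nz (i : H.root))
  lie_h_h i j := by
    have : ⁅(coroot (i : Weight K H L) : H), (coroot (j : Weight K H L) : H)⁆ = 0 :=
      trivial_lie_zero _ _ _ _
    exact congrArg Subtype.val this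
  lie_h_e i j := by
    rw [hx.cartan_lie (root_nz (i : H.root)), ← cartan_eq_pairing, Int.cast_smul_eq_zsmul]
  lie_h_f i j := by
    rw [hx.cartan_lie_neg (root_nz (i : H.root)), ← cartan_eq_pairing, Int.cast_smul_eq_zsmul,
      neg_smul]
  lie_e_f_ne i j hij := lie_simple_neg hx b i j hij

@[simp] lemma toBasis_A (b : (rootSystem H).Base) : (hx.toBasis b).A = b.cartanMatrix := rfl

/-- The group generated by all root elements, as a subgroup of `GL(L)`. -/
noncomputable def GadRoots (x : Weight K H L → L) : Subgroup (L →ₗ[K] L)ˣ :=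
  Subgroup.closure {g | ∃ (t : ℤ) (α : Weight K H L), α.IsNonZero ∧
    (g : L →ₗ[K] L) = expAd K (t • x α)}

/-- `exp (ad y)` as a unit. -/
noncomputable def ue {y : L} (hy : IsNilpotent (ad K L y)) : (L →ₗ[K] L)ˣ :=
  ⟨expAd K y, expAd K (-y), expAd_mul_neg_self hy, expAd_neg_mul_self hy⟩

lemma ue_conj {y : L} (hy : IsNilpotent (ad K L y)) (u : (L →ₗ[K] L)ˣ) (g : L ≃ₗ⁅K⁆ L)
    (hu : ∀ v, (u : L →ₗ[K] L) v = g v) :
    u * ue hy * u⁻¹ = ue (isNilpotent_map g hy) := by
  rw [mul_inv_eq_iff_eq_mul]
  ext v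
  simp only [Units.val_mul, Module.End.mul_apply, hu]
  change g (expAd K y v) = expAd K (g y) (g v)
  exact map_expAd g hy v

/-- The Weyl element as a unit. -/
noncomputable def uw {α : Weight K H L} (hα : α.IsNonZero) : (L →ₗ[K] L)ˣ :=
  ue (hx.nil hα) * (ue (isNilpotent_neg' (hx.nil_neg hα)) * ue (hx.nil hα))

lemma uw_apply {α : Weight K H L} (hα : α.IsNonZero) (v : L) :
    (uw hx hα : L →ₗ[K] L) v = wα hx hα v := rfl

lemma ue_ext {y z : L} (hy : IsNilpotent (ad K L y)) (hz : IsNilpotent (ad K L z))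
    (h : y = z) : ue hy = ue hz := by
  subst h; rfl

lemma Gad_toBasis (b : (rootSystem H).Base) : Gad (hx.toBasis b) = GadRoots x := by
  apply le_antisymm
  · unfold Gad
    rw [Subgroup.closure_le]
    rintro g ⟨t, i, h | h⟩
    · exact Subgroup.subset_closure ⟨t, _, root_nz (i : H.root), h⟩
    · exact Subgroup.subset_closure ⟨t, _, Weight.IsNonZero.neg (root_nz (i : H.root)), h⟩
  · unfold GadRoots
    rw [Subgroup.closure_le]
    set G := Gad (hx.toBasis b) with hG
    have key : ∀ β : Weight K H L, β.IsNonZero → ((∀ (t : ℤ) (g : (L →ₗ[K] L)ˣ),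
        (g : L →ₗ[K] L) = expAd K (t • x β) → g ∈ G) ∧ (∀ (t : ℤ) (g : (L →ₗ[K] L)ˣ),
        (g : L →ₗ[K] L) = expAd K (t • x (-β)) → g ∈ G)) := by
      have simp1 : ∀ i ∈ b.support, ((∀ (t : ℤ) (g : (L →ₗ[K] L)ˣ),
        (g : L →ₗ[K] L) = expAd K (t • x (i : Weight K H L)) → g ∈ G) ∧
        (∀ (t : ℤ) (g : (L →ₗ[K] L)ˣ),
        (g : L →ₗ[K] L) = expAd K (t • x (-(i : Weight K H L))) → g ∈ G)) := by
        intro i hi
        exact ⟨fun t g h => Subgroup.subset_closure ⟨t, ⟨i, hi⟩, Or.inl h⟩,
          fun t g h => Subgroup.subset_closure ⟨t, ⟨i, hi⟩, Or.inr h⟩⟩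
      refine root_induction b ?_ simp1 ?_
      · rintro α hα ⟨h1, h2⟩
        rw [neg_neg]; exact ⟨h2, h1⟩
      · rintro α j hj hα ⟨h1, h2⟩
        obtain ⟨hj1, hj2⟩ := simp1 j hj
        have hw : uw hx (root_nz j) ∈ G := by
          unfold uw
          refine mul_mem (hj1 1 _ ?_) (mul_mem (hj2 (-1) _ ?_) (hj1 1 _ ?_))
          · rw [one_smul]; rfl
          · rw [neg_smul, one_smul]; rfl
          · rw [one_smul]; rfl
        obtain ⟨ε, hε, h3, h4⟩ := w_root hx (root_nz j) hα
        have step : ∀ (α' : Weight K H L) (γ : Weight K H L) (hα' : α'.IsNonZero),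
            (∀ (t : ℤ) (g : (L →ₗ[K] L)ˣ), (g : L →ₗ[K] L) = expAd K (t • x α') → g ∈ G) →
            wα hx (root_nz j) (x α') = ε • x γ → ∀ (t : ℤ) (g : (L →ₗ[K] L)ˣ),
            (g : L →ₗ[K] L) = expAd K (t • x γ) → g ∈ G := by
          intro α' γ hα' h5 h6 t g hg
          obtain ⟨s, hs⟩ : ∃ s : ℤ, wα hx (root_nz j) (s • x α') = t • x γ := by
            rcases hε with rfl | rfl
            · refine ⟨t, ?_⟩
              have : wα hx (root_nz j) (t • x α') = t • wα hx (root_nz j) (x α') :=
                map_zsmul (wα hx (root_nz j)).toLinearEquiv _ _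
              rw [this, h6, one_smul]
            · refine ⟨-t, ?_⟩
              have : wα hx (root_nz j) ((-t) • x α') = (-t) • wα hx (root_nz j) (x α') :=
                map_zsmul (wα hx (root_nz j)).toLinearEquiv _ _
              rw [this, h6, neg_smul, neg_smul, one_smul, smul_neg, neg_neg]
          have hn := isNilpotent_zsmul (hx.nil hα') s
          have h7 := ue_conj hn (uw hx (root_nz j)) (wα hx (root_nz j))
            (uw_apply hx (root_nz j))
          have h8 : g = ue (isNilpotent_map (wα hx (root_nz j)) hn) := by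
            apply Units.ext
            rw [hg, ← hs]; rfl
          rw [h8, ← h7]
          exact mul_mem (mul_mem hw (h5 s _ rfl)) (inv_mem hw)
        exact ⟨step α _ hα h1 h3, step (-α) _ (Weight.IsNonZero.neg hα) h2 h4⟩
    rintro g ⟨t, β, hβ, h⟩
    exact (key β hβ).1 t g h

end

end MP9bf44d
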