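import Pool.Agent.Lib.H68.Defs

/-! # Chevalley bases and the adjoint Chevalley group over the integers -/

namespace MP9bf44d

open LieAlgebra LieAlgebra.IsKilling LieModule

variable {K L : Type*} [Field K] [CharZero K] [LieRing L] [LieAlgebra K L]
  [FiniteDimensional K L] [IsKilling K L]
  {H : LieSubalgebra K L} [H.IsCartanSubalgebra] [IsTriangularizable K H L]

/-- `x` is the family of root vectors of a Chevalley basis of `L` (relative to the splitting Cartan
subalgebra `H`): `x α` lies in the root space of `α`, `[x α, x (-α)]` is the coroot `h_α`, and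
whenever `α`, `β`, `γ = α + β` are roots, `[x α, x β] = c • x γ` and `[x (-α), x (-β)] = -c • x (-γ)`
for some scalar `c`. (`x` is indexed by all weights, its value at the weight `0` being irrelevant.) -/
structure IsChevalleyBasis (x : Weight K H L → L) : Prop where
  mem_rootSpace (α : Weight K H L) (hα : α.IsNonZero) : x α ∈ rootSpace H α
  lie_neg (α : Weight K H L) (hα : α.IsNonZero) : ⁅x α, x (-α)⁆ = (coroot α : L)
  lie_add (α β γ : Weight K H L) (hα : α.IsNonZero) (hβ : β.IsNonZero) (hγ : γ.IsNonZero)
    (h : (γ : H → K) = α + β) :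
    ∃ c : K, ⁅x α, x β⁆ = c • x γ ∧ ⁅x (-α), x (-β)⁆ = -(c • x (-γ))

/-- The lattice `L_ℤ`: the `ℤ`-span of the simple coroots `h_i` (for the base `b`) and all the
root vectors `x α`. -/
def latticeZ (b : (rootSystem H).Base) (x : Weight K H L → L) : Submodule ℤ L :=
  Submodule.span ℤ ({y | ∃ i ∈ b.support, y = (coroot (i : Weight K H L) : L)} ∪
    {y | ∃ α : Weight K H L, α.IsNonZero ∧ y = x α})

/-- The adjoint Chevalley group over `ℤ`: the subgroup of `GL(L_ℤ)` generated by the (restrictions
to `L_ℤ` of the) root elements `exp (t ad x_α)`, `α` a root, `t ∈ ℤ`. -/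
noncomputable def GadZ (b : (rootSystem H).Base) (x : Weight K H L → L) :
    Subgroup (latticeZ b x ≃ₗ[ℤ] latticeZ b x) :=
  Subgroup.closure {g | ∃ (t : ℤ) (α : Weight K H L), α.IsNonZero ∧
    ∀ v : latticeZ b x, (g v : L) = expAd K (t • x α) v}

end MP9bf44d
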