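import Pool.Agent.Lib.H68.Chev5
import Pool.Agent.Lib.H68.ChevDefs

/-! # From structure constants to the Chevalley involution -/

namespace MP9bf44d

open LieAlgebra LieAlgebra.IsKilling LieModule Module Set

section

variable {K L : Type*} [Field K] [CharZero K] [LieRing L] [LieAlgebra K L]
  [FiniteDimensional K L] [IsKilling K L]
  {H : LieSubalgebra K L} [H.IsCartanSubalgebra] [IsTriangularizable K H L]
  {x : Weight K H L → L}

/-- Induction over `L = H ⊕ ⊕ K x_α`. -/
lemma L_induction (hm : ∀ α : Weight K H L, α.IsNonZero → x α ∈ rootSpace H α)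
    (h0 : ∀ α : Weight K H L, α.IsNonZero → x α ≠ 0) {p : L → Prop}
    (hadd : ∀ u v, p u → p v → p (u + v)) (hsmul : ∀ (c : K) u, p u → p (c • u))
    (hH : ∀ t : H, p (t : L)) (hx : ∀ α : Weight K H L, α.IsNonZero → p (x α)) (v : L) : p v := by
  have hv : v ∈ (⨆ χ : Weight K H L, genWeightSpace L χ : LieSubmodule K H L) := by
    rw [iSup_genWeightSpace_eq_top' K H L]; trivial
  induction hv using LieSubmodule.iSup_induction' with
  | zero => exact hH 0
  | mem χ v hv =>
    by_cases hχ : χ.IsZero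
    · have : v ∈ rootSpace H (0 : H → K) := by rw [← hχ.eq]; exact hv
      rw [rootSpace_zero_eq] at this
      exact hH ⟨v, this⟩
    · have h1 := finrank_rootSpace_eq_one χ hχ
      have h2 : (⟨x χ, hm χ hχ⟩ : rootSpace H χ) ≠ 0 := by
        intro h
        exact h0 χ hχ (congrArg Subtype.val h)
      obtain ⟨c, hc⟩ := (finrank_eq_one_iff_of_nonzero' _ h2).mp h1 ⟨v, hv⟩
      have : v = c • x χ := (congrArg Subtype.val hc).symm
      rw [this]
      exact hsmul _ _ (hx χ hχ)
  | add v w _ _ hv hw => exact hadd _ _ hv hw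

lemma coroot_ne_zero' {α : Weight K H L} (hα : α.IsNonZero) : ((coroot α : H) : L) ≠ 0 := by
  intro h
  exact hα (coroot_eq_zero_iff.mp (by ext; simpa using h))

variable (hx : IsChevalleyBasis x)

include hx

lemma IsChevalleyBasis.ne_zero {α : Weight K H L} (hα : α.IsNonZero) : x α ≠ 0 := by
  intro h
  have := hx.lie_neg α hα
  rw [h, zero_lie] at this
  exact coroot_ne_zero' hα this.symm

lemma IsChevalleyBasis.killing_ne {α : Weight K H L} (hα : α.IsNonZero) :
    killingForm K L (x (-α)) (x α) ≠ 0 := by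
  intro h
  have h2 : x α ∈ rootSpace H (-((-α : Weight K H L) : H → K)) := by
    rw [Weight.coe_neg, neg_neg]; exact hx.mem_rootSpace α hα
  have h1 := lie_eq_killingForm_smul_of_mem_rootSpace_of_mem_rootSpace_neg
    (hx.mem_rootSpace _ (Weight.IsNonZero.neg hα)) h2
  rw [h, zero_smul, ← lie_skew, hx.lie_neg α hα] at h1
  exact coroot_ne_zero' hα (neg_eq_zero.mp h1)

omit [CharZero K] in
lemma IsChevalleyBasis.killing_eq {α β : Weight K H L} (hα : α.IsNonZero) (hβ : β.IsNonZero)
    (h : β ≠ α) : killingForm K L (x (-α)) (x β) = 0 := by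
  apply killingForm_apply_eq_zero_of_mem_rootSpace_of_add_ne_zero K L H
    (hx.mem_rootSpace _ (Weight.IsNonZero.neg hα)) (hx.mem_rootSpace β hβ)
  intro h1
  apply h
  ext t
  have := congrFun h1 t
  rw [Pi.add_apply, Weight.coe_neg, Pi.neg_apply, Pi.zero_apply] at this
  exact (neg_add_eq_zero.mp this).symm

omit [CharZero K] in
lemma IsChevalleyBasis.killing_cartan {α : Weight K H L} (hα : α.IsNonZero) (t : H) :
    killingForm K L (x (-α)) (t : L) = 0 := by
  apply killingForm_apply_eq_zero_of_mem_rootSpace_of_add_ne_zero K L H (β := 0)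
    (hx.mem_rootSpace _ (Weight.IsNonZero.neg hα)) (by rw [rootSpace_zero_eq]; exact t.2)
  rw [add_zero]
  have : (-α).IsNonZero := Weight.IsNonZero.neg hα
  rwa [ne_eq, Weight.coe_eq_zero_iff]

omit hx in
open Classical in
/-- The Chevalley involution as a linear map. -/
noncomputable def thetaL (x : Weight K H L → L) : L →ₗ[K] L :=
  -LinearMap.id + ∑ α : H.root, ((killingForm K L (x (-(α : Weight K H L))) (x α))⁻¹ •
    (killingForm K L (x (-(α : Weight K H L))))).smulRight
      (x (α : Weight K H L) - x (-(α : Weight K H L)))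

lemma thetaL_cartan (t : H) : thetaL x (t : L) = -(t : L) := by
  unfold thetaL
  rw [LinearMap.add_apply, LinearMap.neg_apply, LinearMap.id_apply, LinearMap.sum_apply,
    add_eq_left]
  apply Finset.sum_eq_zero
  intro α _
  rw [LinearMap.smulRight_apply, LinearMap.smul_apply,
    hx.killing_cartan (root_nz α) t, smul_zero, zero_smul]

lemma thetaL_root {β : Weight K H L} (hβ : β.IsNonZero) : thetaL x (x β) = -x (-β) := by
  unfold thetaL
  rw [LinearMap.add_apply, LinearMap.neg_apply, LinearMap.id_apply, LinearMap.sum_apply,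
    Finset.sum_eq_single (toRoot hβ)]
  · rw [LinearMap.smulRight_apply, LinearMap.smul_apply, smul_eq_mul]
    have h1 : ((toRoot hβ : H.root) : Weight K H L) = β := rfl
    rw [h1, inv_mul_cancel₀ (hx.killing_ne hβ), one_smul]
    abel
  · intro α _ hα
    rw [LinearMap.smulRight_apply, LinearMap.smul_apply,
      hx.killing_eq (root_nz α) hβ, smul_zero, zero_smul]
    intro h
    exact hα (Subtype.ext h.symm)
  · intro h
    exact absurd (Finset.mem_univ _) h

lemma thetaL_theta (v : L) : thetaL x (thetaL x v) = v := by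
  refine L_induction (x := x) hx.mem_rootSpace (fun α hα => hx.ne_zero hα)
    (p := fun v => thetaL x (thetaL x v) = v) ?_ ?_ ?_ ?_ v
  · intro u v hu hv
    rw [map_add, map_add, hu, hv]
  · intro c u hu
    rw [map_smul, map_smul, hu]
  · intro t
    rw [thetaL_cartan hx, map_neg, thetaL_cartan hx, neg_neg]
  · intro α hα
    rw [thetaL_root hx hα, map_neg, thetaL_root hx (Weight.IsNonZero.neg hα), neg_neg, neg_neg]

omit hx in
lemma lie_mem_add {α β : Weight K H L} {u v : L} (hu : u ∈ rootSpace H α)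
    (hv : v ∈ rootSpace H β) : ⁅u, v⁆ ∈ rootSpace H ((α : H → K) + β) :=
  lie_mem_genWeightSpace_of_mem_genWeightSpace hu hv

lemma thetaL_lie_root {α β : Weight K H L} (hα : α.IsNonZero) (hβ : β.IsNonZero) :
    thetaL x ⁅x α, x β⁆ = ⁅x (-α), x (-β)⁆ := by
  have hnα := Weight.IsNonZero.neg hα
  have hnβ := Weight.IsNonZero.neg hβ
  by_cases h0 : (β : Weight K H L) = -α
  · subst h0
    have h1 := hx.lie_neg _ hnα
    rw [neg_neg] at h1 ⊢
    rw [hx.lie_neg α hα, thetaL_cartan hx, h1, coroot_neg]
    rfl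
  by_cases h1 : rootSpace H ((α : H → K) + β) = ⊥
  · have h2 := lie_mem_add (hx.mem_rootSpace α hα) (hx.mem_rootSpace β hβ)
    rw [h1] at h2
    have h3 := lie_mem_add (hx.mem_rootSpace _ hnα) (hx.mem_rootSpace _ hnβ)
    have h4 : rootSpace H (((-α : Weight K H L) : H → K) + (-β : Weight K H L)) = ⊥ := by
      by_contra hne
      let γ : Weight K H L := ⟨_, hne⟩
      have h5 := (-γ).genWeightSpace_ne_bot
      apply h5
      have h6 : ((-γ : Weight K H L) : H → K) = (α : H → K) + β := by
        ext t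
        change -(((-α : Weight K H L) : H → K) t + ((-β : Weight K H L) : H → K) t) = _
        simp only [Weight.coe_neg, Pi.neg_apply, Pi.add_apply]
        ring
      rw [h6]
      exact h1
    rw [h4] at h3
    rw [(by simpa using h2 : ⁅x α, x β⁆ = 0), (by simpa using h3 : ⁅x (-α), x (-β)⁆ = 0), map_zero]
  · let γ : Weight K H L := ⟨_, h1⟩
    have hγ : γ.IsNonZero := by
      intro h
      apply h0
      ext t
      have h2 : (α : H → K) t + β t = 0 := congrFun h.eq t
      rw [Weight.coe_neg, Pi.neg_apply]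
      exact eq_neg_of_add_eq_zero_right h2
    obtain ⟨c, h2, h3⟩ := hx.lie_add α β γ hα hβ hγ rfl
    rw [h2, h3, map_smul, thetaL_root hx hγ, smul_neg]

lemma IsChevalleyBasis.cartan_lie {α : Weight K H L} (hα : α.IsNonZero) (t : H) :
    ⁅(t : L), x α⁆ = α t • x α :=
  mem_rootSpace_iff'.mp (hx.mem_rootSpace α hα) t

lemma thetaL_lie (u v : L) : thetaL x ⁅u, v⁆ = ⁅thetaL x u, thetaL x v⁆ := by
  refine L_induction (x := x) hx.mem_rootSpace (fun α hα => hx.ne_zero hα)
    (p := fun u => thetaL x ⁅u, v⁆ = ⁅thetaL x u, thetaL x v⁆) ?_ ?_ ?_ ?_ u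
  · intro u u' hu hu'
    rw [add_lie, map_add, hu, hu', map_add, add_lie]
  · intro c u hu
    rw [smul_lie, map_smul, hu, map_smul, smul_lie]
  · intro t
    refine L_induction (x := x) hx.mem_rootSpace (fun α hα => hx.ne_zero hα)
      (p := fun v => thetaL x ⁅(t : L), v⁆ = ⁅thetaL x t, thetaL x v⁆) ?_ ?_ ?_ ?_ v
    · intro v v' hv hv'
      rw [lie_add, map_add, hv, hv', map_add, lie_add]
    · intro c v hv
      rw [lie_smul, map_smul, hv, map_smul, lie_smul]
    · intro t'
      have : ⁅(t : L), (t' : L)⁆ = 0 := congrArg Subtype.val (trivial_lie_zero H H t t')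
      rw [this, map_zero, thetaL_cartan hx, thetaL_cartan hx, neg_lie, lie_neg, this]
      simp
    · intro β hβ
      rw [hx.cartan_lie hβ, map_smul, thetaL_root hx hβ, thetaL_cartan hx, neg_lie, lie_neg,
        hx.cartan_lie (Weight.IsNonZero.neg hβ)]
      simp
  · intro α hα
    refine L_induction (x := x) hx.mem_rootSpace (fun α hα => hx.ne_zero hα)
      (p := fun v => thetaL x ⁅x α, v⁆ = ⁅thetaL x (x α), thetaL x v⁆) ?_ ?_ ?_ ?_ v
    · intro v v' hv hv'
      rw [lie_add, map_add, hv, hv', map_add, lie_add]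
    · intro c v hv
      rw [lie_smul, map_smul, hv, map_smul, lie_smul]
    · intro t
      rw [← lie_skew, hx.cartan_lie hα, map_neg, map_smul, thetaL_root hx hα, thetaL_cartan hx,
        neg_lie, lie_neg, ← lie_skew, hx.cartan_lie (Weight.IsNonZero.neg hα)]
      simp
    · intro β hβ
      rw [thetaL_lie_root hx hα hβ, thetaL_root hx hα, thetaL_root hx hβ, neg_lie, lie_neg,
        neg_neg]

/-- The Chevalley involution. -/
noncomputable def IsChevalleyBasis.theta : L ≃ₗ⁅K⁆ L :=
  { toLinearMap := thetaL x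
    map_lie' := fun {y z} => thetaL_lie hx y z
    invFun := thetaL x
    left_inv := thetaL_theta hx
    right_inv := thetaL_theta hx }

theorem IsChevalleyBasis.isChevSys : IsChevSys x where
  mem := hx.mem_rootSpace
  lie := hx.lie_neg
  inv := ⟨hx.theta, fun _ hα => thetaL_root hx hα⟩

end

end MP9bf44d
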