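import Pool.Agent.Lib.H68.Chev6

/-! # Root strings -/

namespace MP9bf44d

open LieAlgebra LieModule Module

section Low

variable {K L : Type*} [Field K] [CharZero K] [LieRing L] [LieAlgebra K L]
  [FiniteDimensional K L] {h e f : L} (S : IsSl2Triple h e f)
  (he : IsNilpotent (ad K L e)) (hf : IsNilpotent (ad K L f)) {v : L} {p : ℕ}
  (hv : v ≠ 0) (hfv : ⁅f, v⁆ = 0) (hhv : ⁅h, v⁆ = -((p : K) • v))

include S hv hfv hhv

lemma low_prim : S.symm.HasPrimitiveVectorWith v (p : K) where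
  ne_zero := hv
  lie_h := by rw [neg_lie, hhv, neg_neg]
  lie_e := hfv

lemma low_f (n : ℕ) : ⁅f, ((ad K L e) ^ (n + 1)) v⁆ =
    (((n : K) + 1) * ((p : K) - n)) • ((ad K L e) ^ n) v :=
  (low_prim S hv hfv hhv).lie_e_pow_succ_toEnd_f n

lemma low_top : ((ad K L e) ^ (p + 1)) v = 0 :=
  (low_prim S hv hfv hhv).pow_toEnd_f_eq_zero_of_eq_nat rfl

/-- The Weyl element maps a lowest weight vector to the top of the string. -/
lemma w_low (hp : p ≤ 3) :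
    wE he hf v = ((p.factorial : K)⁻¹) • ((ad K L e) ^ p) v := by
  have htop := low_top S hv hfv hhv
  have hlow := low_f S hv hfv hhv
  have hnv : expAd K (-f) v = v := expAd_one (isNilpotent_neg' hf) (by rw [neg_lie, hfv, neg_zero])
  rw [wE_apply]
  rcases (by omega : p = 0 ∨ p = 1 ∨ p = 2 ∨ p = 3) with rfl | rfl | rfl | rfl
  · have h1 : ⁅e, v⁆ = 0 := by simpa using htop
    rw [expAd_one he h1, hnv, expAd_one he h1]
    simp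
  · have h2 : ⁅e, ⁅e, v⁆⁆ = 0 := by simpa [pow_succ] using htop
    have f1 : ⁅f, ⁅e, v⁆⁆ = v := by simpa using hlow 0
    have g1 : ⁅-f, ⁅e, v⁆⁆ = -v := by rw [neg_lie, f1]
    have g0 : ⁅-f, v⁆ = 0 := by rw [neg_lie, hfv, neg_zero]
    rw [expAd_two he h2, map_add, hnv, expAd_two (isNilpotent_neg' hf) (by rw [g1, lie_neg, g0,
      neg_zero]), g1]
    have : v + (⁅e, v⁆ + -v) = ⁅e, v⁆ := by abel
    rw [this, expAd_one he h2]
    simp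
  · have h3 : ⁅e, ⁅e, ⁅e, v⁆⁆⁆ = 0 := by simpa [pow_succ] using htop
    have f1 : ⁅f, ⁅e, v⁆⁆ = (2 : K) • v := by simpa using hlow 0
    have f2 : ⁅f, ⁅e, ⁅e, v⁆⁆⁆ = (2 : K) • ⁅e, v⁆ := by
      have := hlow 1
      norm_num [pow_succ] at this
      exact this
    have g0 : ⁅-f, v⁆ = 0 := by rw [neg_lie, hfv, neg_zero]
    have g1 : ⁅-f, ⁅e, v⁆⁆ = -((2 : K) • v) := by rw [neg_lie, f1]
    have g2 : ⁅-f, ⁅e, ⁅e, v⁆⁆⁆ = -((2 : K) • ⁅e, v⁆) := by rw [neg_lie, f2]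
    have k1 : expAd K (-f) ⁅e, v⁆ = ⁅e, v⁆ - (2 : K) • v := by
      rw [expAd_two (isNilpotent_neg' hf) (by rw [g1, lie_neg, lie_smul, g0]; simp), g1]
      module
    have k2 : expAd K (-f) ⁅e, ⁅e, v⁆⁆ = ⁅e, ⁅e, v⁆⁆ - (2 : K) • ⁅e, v⁆ + (2 : K) • v := by
      rw [expAd_three (isNilpotent_neg' hf) (by
        rw [g2, lie_neg, lie_smul, g1, lie_neg, lie_smul, lie_neg, lie_smul, g0]; simp), g2,
        lie_neg, lie_smul, g1]
      module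
    have : expAd K (-f) (v + ⁅e, v⁆ + (2 : K)⁻¹ • ⁅e, ⁅e, v⁆⁆) = (2 : K)⁻¹ • ⁅e, ⁅e, v⁆⁆ := by
      rw [map_add, map_add, map_smul, hnv, k1, k2]
      module
    rw [expAd_three he h3, this, map_smul, expAd_one he h3]
    simp [pow_succ, Nat.factorial]
  · have h4 : ⁅e, ⁅e, ⁅e, ⁅e, v⁆⁆⁆⁆ = 0 := by simpa [pow_succ] using htop
    have f1 : ⁅f, ⁅e, v⁆⁆ = (3 : K) • v := by simpa using hlow 0
    have f2 : ⁅f, ⁅e, ⁅e, v⁆⁆⁆ = (4 : K) • ⁅e, v⁆ := by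
      have := hlow 1
      norm_num [pow_succ] at this
      exact this
    have f3 : ⁅f, ⁅e, ⁅e, ⁅e, v⁆⁆⁆⁆ = (3 : K) • ⁅e, ⁅e, v⁆⁆ := by
      have := hlow 2
      norm_num [pow_succ] at this
      exact this
    have g0 : ⁅-f, v⁆ = 0 := by rw [neg_lie, hfv, neg_zero]
    have g1 : ⁅-f, ⁅e, v⁆⁆ = -((3 : K) • v) := by rw [neg_lie, f1]
    have g2 : ⁅-f, ⁅e, ⁅e, v⁆⁆⁆ = -((4 : K) • ⁅e, v⁆) := by rw [neg_lie, f2]
    have g3 : ⁅-f, ⁅e, ⁅e, ⁅e, v⁆⁆⁆⁆ = -((3 : K) • ⁅e, ⁅e, v⁆⁆) := by rw [neg_lie, f3]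
    have k1 : expAd K (-f) ⁅e, v⁆ = ⁅e, v⁆ - (3 : K) • v := by
      rw [expAd_two (isNilpotent_neg' hf) (by rw [g1, lie_neg, lie_smul, g0]; simp), g1]
      module
    have k2 : expAd K (-f) ⁅e, ⁅e, v⁆⁆ = ⁅e, ⁅e, v⁆⁆ - (4 : K) • ⁅e, v⁆ + (6 : K) • v := by
      rw [expAd_three (isNilpotent_neg' hf) (by
        rw [g2, lie_neg, lie_smul, g1, lie_neg, lie_smul, lie_neg, lie_smul, g0]; simp), g2,
        lie_neg, lie_smul, g1]
      module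
    have k3 : expAd K (-f) ⁅e, ⁅e, ⁅e, v⁆⁆⁆ =
        ⁅e, ⁅e, ⁅e, v⁆⁆⁆ - (3 : K) • ⁅e, ⁅e, v⁆⁆ + (6 : K) • ⁅e, v⁆ - (6 : K) • v := by
      rw [expAd_four (isNilpotent_neg' hf) (by
        rw [g3]; simp only [lie_neg, lie_smul, g2, g1, g0]; simp), g3]
      simp only [lie_neg, lie_smul, g2, g1]
      module
    have : expAd K (-f) (v + ⁅e, v⁆ + (2 : K)⁻¹ • ⁅e, ⁅e, v⁆⁆ + (6 : K)⁻¹ • ⁅e, ⁅e, ⁅e, v⁆⁆⁆) =
        (6 : K)⁻¹ • ⁅e, ⁅e, ⁅e, v⁆⁆⁆ := by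
      rw [map_add, map_add, map_add, map_smul, map_smul, hnv, k1, k2, k3]
      module
    rw [expAd_four he h4, this, map_smul, expAd_one he h4]
    simp [pow_succ, Nat.factorial]

/-- The Weyl element on the next vector of the string. -/
lemma w_low_next (hp : p ≤ 3) (hp1 : 1 ≤ p) :
    wE he hf ⁅e, v⁆ = -((((p - 1).factorial : K)⁻¹) • ((ad K L e) ^ (p - 1)) v) := by
  obtain ⟨q, rfl⟩ : ∃ q, p = q + 1 := ⟨p - 1, by omega⟩
  rw [LieEquiv.map_lie, wE_e S he hf, w_low S he hf hv hfv hhv hp, neg_lie, lie_smul,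
    low_f S hv hfv hhv q, smul_smul, Nat.add_sub_cancel]
  congr 2
  have h1 : ((q.factorial : ℕ) : K) ≠ 0 := by exact_mod_cast Nat.factorial_ne_zero q
  have h2 : ((q + 1 : ℕ) : K) ≠ 0 := by exact_mod_cast Nat.succ_ne_zero q
  rw [Nat.factorial_succ]
  push_cast at h2 ⊢
  field_simp
  ring

end Low

end MP9bf44d
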