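import Pool.Agent.Lib.H68.Chev7

/-! # Root strings: the divided powers of root vectors -/

namespace MP9bf44d

open LieAlgebra LieAlgebra.IsKilling LieModule Module

section

variable {K L : Type*} [Field K] [CharZero K] [LieRing L] [LieAlgebra K L]
  [FiniteDimensional K L] [IsKilling K L]
  {H : LieSubalgebra K L} [H.IsCartanSubalgebra] [IsTriangularizable K H L]
  {x : Weight K H L → L} (hx : IsChevalleyBasis x)

lemma pairing_constraint {α β : Weight K H L} (hα : α.IsNonZero) (hβ : β.IsNonZero)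
    (h1 : β ≠ α) (h2 : β ≠ -α) : ∃ m n : ℤ, β (coroot α) = m ∧ α (coroot β) = n ∧
    (m, n) ∈ ({(0, 0), (1, 1), (-1, -1), (1, 2), (2, 1), (-1, -2), (-2, -1), (1, 3), (3, 1),
      (-1, -3), (-3, -1)} : Set (ℤ × ℤ)) := by
  have h3 : (rootSystem H).root (toRoot hβ) ≠ (rootSystem H).root (toRoot hα) := by
    intro h
    apply h1
    ext t
    exact LinearMap.congr_fun h t
  have h4 : (rootSystem H).root (toRoot hβ) ≠ -(rootSystem H).root (toRoot hα) := by
    intro h
    apply h2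
    ext t
    exact LinearMap.congr_fun h t
  have h5 := (rootSystem H).pairingIn_pairingIn_mem_set_of_isCrystal_of_isRed' _ _ h3 h4
  refine ⟨_, _, ?_, ?_, h5⟩
  · have := (rootSystem H).algebraMap_pairingIn ℤ (toRoot hβ) (toRoot hα)
    rw [rootSystem_pairing_apply] at this
    exact this.symm
  · have := (rootSystem H).algebraMap_pairingIn ℤ (toRoot hα) (toRoot hβ)
    rw [rootSystem_pairing_apply] at this
    exact this.symm

include hx in
lemma nsq {α β γ : Weight K H L} (hα : α.IsNonZero) (hβ : β.IsNonZero) (hγ : γ.IsNonZero)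
    (hγ' : (γ : H → K) = α + β) (hbot : ⁅x (-α), x β⁆ = 0) {N : K} (hN : ⁅x α, x β⁆ = N • x γ) :
    N * N = -(β (coroot α)) * α (coroot β) - α (coroot β) - β (coroot α) := by
  have hnα := Weight.IsNonZero.neg hα
  have hnβ := Weight.IsNonZero.neg hβ
  have S := hx.isChevSys
  have hbot' : ⁅x α, x (-β)⁆ = 0 := by
    have := thetaL_lie_root hx hnα hβ
    rw [hbot, map_zero, neg_neg] at this
    exact this.symm
  have hN' : ⁅x (-α), x (-β)⁆ = -(N • x (-γ)) := by
    rw [← thetaL_lie_root hx hα hβ, hN, map_smul, thetaL_root hx hγ, smul_neg]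
  have key : ⁅⁅x α, x β⁆, ⁅x (-α), x (-β)⁆⁆ = ((α (coroot β) • coroot α +
      β (coroot α) • coroot β : H) : L) := by
    have e1 : ⁅x β, ⁅x (-α), x (-β)⁆⁆ = α (coroot β) • x (-α) := by
      rw [leibniz_lie, ← lie_skew (x β), hbot, neg_zero, zero_lie, zero_add, hx.lie_neg β hβ,
        ← lie_skew, hx.cartan_lie hnα]
      simp
    have e2 : ⁅x α, ⁅x (-α), x (-β)⁆⁆ = -(β (coroot α) • x (-β)) := by
      rw [leibniz_lie, hbot', lie_zero, add_zero, hx.lie_neg α hα, hx.cartan_lie hnβ]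
      simp
    rw [lie_lie, e1, e2, lie_smul, hx.lie_neg α hα, lie_neg, lie_smul, hx.lie_neg β hβ,
      sub_neg_eq_add]
    rfl
  rw [hN, hN', lie_neg, smul_lie, lie_smul, hx.lie_neg γ hγ, smul_smul] at key
  have key2 : (-((N * N) • coroot γ) : H) = α (coroot β) • coroot α + β (coroot α) • coroot β := by
    apply Subtype.ext
    rw [← key]; rfl
  have key3 := congrArg γ key2
  have hg : ∀ t, γ t = α t + β t := fun t => congrFun hγ' t
  rw [map_neg, map_smul, root_apply_coroot hγ, map_add, map_smul, map_smul, hg, hg,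
    root_apply_coroot hα, root_apply_coroot hβ] at key3
  simp only [smul_eq_mul] at key3
  have h2 : (2 : K) ≠ 0 := two_ne_zero
  apply mul_left_cancel₀ h2
  linear_combination -key3

omit [FiniteDimensional K L] [IsKilling K L] [H.IsCartanSubalgebra] [CharZero K]
  [IsTriangularizable K H L] in
lemma fun_zsmul_apply (n : ℤ) (f : H → K) (t : H) : (n • f) t = (n : K) * f t := by
  rw [Pi.smul_apply, zsmul_eq_mul]

include hx in
lemma bot_lie {α β : Weight K H L} (hα : α.IsNonZero) (hβ : β.IsNonZero)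
    (hb : chainBotCoeff α β = 0) : ⁅x (-α), x β⁆ = 0 := by
  have hnα := Weight.IsNonZero.neg hα
  have h3 : rootSpace H (((-α : Weight K H L) : H → K) + β) = ⊥ := by
    by_contra hne
    have := (rootSpace_zsmul_add_ne_bot_iff α β hα (-1)).mp (by
      rw [neg_smul, one_smul]; rwa [Weight.coe_neg] at hne)
    rw [hb] at this
    omega
  have h4 := lie_mem_add (hx.mem_rootSpace _ hnα) (hx.mem_rootSpace β hβ)
  rw [h3] at h4
  simpa using h4

include hx in
lemma bot_weight {α β : Weight K H L} (hβ : β.IsNonZero)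
    (hb : chainBotCoeff α β = 0) :
    ⁅(coroot α : L), x β⁆ = -((chainTopCoeff α β : K) • x β) := by
  rw [hx.cartan_lie hβ, apply_coroot_eq_cast α β, hb, ← neg_smul]
  congr 1
  push_cast; ring

include hx in
/-- Root vectors along a root string, up to sign, are divided powers of the bottom one. -/
lemma string_mem {α β : Weight K H L} (hα : α.IsNonZero) (hβ : β.IsNonZero)
    (h1 : β ≠ α) (h2 : β ≠ -α) (hb : chainBotCoeff α β = 0) (j : ℕ)
    (hj : j ≤ chainTopCoeff α β) (γ : Weight K H L) (hγ : (γ : H → K) = (j : ℤ) • (α : H → K) + β) :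
    ∃ ε : K, (ε = 1 ∨ ε = -1) ∧
      x γ = ε • (((j.factorial : K)⁻¹) • ((ad K L (x α)) ^ j) (x β)) := by
  have S := hx.isChevSys
  have hnα := Weight.IsNonZero.neg hα
  set p := chainTopCoeff α β with hp
  have hβα : β (coroot α) = -(p : K) := by
    rw [apply_coroot_eq_cast α β, hb, ← hp]
    push_cast; ring
  obtain ⟨m, n, hm, hn, hmn⟩ := pairing_constraint hα hβ h1 h2
  have hmp : m = -(p : ℤ) := by
    have : ((m : ℤ) : K) = ((-(p : ℤ) : ℤ) : K) := by rw [← hm, hβα]; push_cast; ring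
    exact_mod_cast this
  have hp3 : p ≤ 3 := by
    simp only [Set.mem_insert_iff, Set.mem_singleton_iff, Prod.mk.injEq] at hmn
    omega
  have hbot : ⁅x (-α), x β⁆ = 0 := by
    have h3 : rootSpace H (((-α : Weight K H L) : H → K) + β) = ⊥ := by
      by_contra hne
      have := (rootSpace_zsmul_add_ne_bot_iff α β hα (-1)).mp (by
        rw [neg_smul, one_smul]; rwa [Weight.coe_neg] at hne)
      rw [hb] at this
      omega
    have h4 := lie_mem_add (hx.mem_rootSpace _ hnα) (hx.mem_rootSpace β hβ)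
    rw [h3] at h4
    simpa using h4
  have hhv : ⁅(coroot α : L), x β⁆ = -((p : K) • x β) := by
    rw [hx.cartan_lie hβ, hβα, neg_smul]
  have hv : x β ≠ 0 := hx.ne_zero hβ
  -- nonvanishing of the weights
  have hnz : ∀ (i : ℕ) (δ : Weight K H L), (δ : H → K) = (i : ℤ) • (α : H → K) + β →
      δ.IsNonZero := by
    intro i δ hδ hz
    have h5 : (β : H → K) = (-(i : K)) • (α : H → K) := by
      have h6 : (0 : H → K) = (i : ℤ) • (α : H → K) + β := by rw [← hδ]; exact hz.eq.symm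
      ext t
      have h7 := congrFun h6 t
      rw [Pi.zero_apply, Pi.add_apply, fun_zsmul_apply, Int.cast_natCast] at h7
      rw [Pi.smul_apply, smul_eq_mul]
      linear_combination -h7
    rcases eq_neg_or_eq_of_eq_smul α β hβ _ h5 with h6 | h6
    · exact h2 h6
    · exact h1 h6
  have hγ0 : γ.IsNonZero := hnz j γ hγ
  -- the vector next to the bottom
  have next : ∀ δ : Weight K H L, (δ : H → K) = (1 : ℤ) • (α : H → K) + β → 1 ≤ p →
      ∃ ε : K, (ε = 1 ∨ ε = -1) ∧ x δ = ε • ⁅x α, x β⁆ := by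
    intro δ hδ hp1
    have hδ0 : δ.IsNonZero := hnz 1 δ (by rw [hδ]; rfl)
    have hδ' : (δ : H → K) = α + β := by rw [hδ, one_smul]
    obtain ⟨N, hN, -⟩ := hx.lie_add α β δ hα hβ hδ0 hδ'
    have h3 := nsq hx hα hβ hδ0 hδ' hbot hN
    rw [hm, hn] at h3
    have h4 : N * N = 1 := by
      rw [h3]
      simp only [Set.mem_insert_iff, Set.mem_singleton_iff, Prod.mk.injEq] at hmn
      rcases hmn with ⟨rfl, rfl⟩ | ⟨rfl, rfl⟩ | ⟨rfl, rfl⟩ | ⟨rfl, rfl⟩ | ⟨rfl, rfl⟩ | ⟨rfl, rfl⟩ |
        ⟨rfl, rfl⟩ | ⟨rfl, rfl⟩ | ⟨rfl, rfl⟩ | ⟨rfl, rfl⟩ | ⟨rfl, rfl⟩ <;>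
        first | omega | (push_cast; norm_num)
    refine ⟨N, ?_, ?_⟩
    · have h7 : (N - 1) * (N + 1) = 0 := by linear_combination h4
      rcases mul_eq_zero.mp h7 with h | h
      · left; exact sub_eq_zero.mp h
      · right; exact eq_neg_of_add_eq_zero_left h
    · rw [hN, smul_smul, h4, one_smul]
  have hsign : ∀ {ε ε' : K}, (ε = 1 ∨ ε = -1) → (ε' = 1 ∨ ε' = -1) → (ε * ε' = 1 ∨ ε * ε' = -1) := by
    rintro ε ε' (rfl | rfl) (rfl | rfl) <;> simp
  have hinv : ∀ {ε : K}, (ε = 1 ∨ ε = -1) → ε * ε = 1 := by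
    rintro ε (rfl | rfl) <;> simp
  rcases (by omega : j = 0 ∨ (j = 1 ∧ 1 ≤ p) ∨ (j = p ∧ 2 ≤ p) ∨ (j = p - 1 ∧ 2 ≤ p)) with
    rfl | ⟨rfl, hp1⟩ | ⟨rfl, hp1⟩ | ⟨rfl, hp1⟩
  · refine ⟨1, Or.inl rfl, ?_⟩
    have : γ = β := by
      ext t
      have := congrFun hγ t
      simpa using this
    simp [this]
  · obtain ⟨ε, hε, h3⟩ := next γ (by rw [hγ]; rfl) hp1
    exact ⟨ε, hε, by rw [h3]; simp⟩
  · obtain ⟨ε, hε, h3, -⟩ := w_root S hα hβ
    have h4 : γ = reflectRoot α β := by
      ext t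
      rw [reflect_apply, hβα]
      have := congrFun hγ t
      rw [this, Pi.add_apply, fun_zsmul_apply, Int.cast_natCast]
      ring
    have h5 := w_low (S.sl2 hα) (S.nil hα) (S.nil_neg hα) hv hbot hhv hp3
    have h6 : wα S hα (x β) = wE (S.nil hα) (S.nil_neg hα) (x β) := rfl
    refine ⟨ε, hε, ?_⟩
    rw [← h5, ← h6, h3, smul_smul, hinv hε, one_smul, h4]
  · have hne : rootSpace H ((1 : ℤ) • (α : H → K) + β) ≠ ⊥ :=
      (rootSpace_zsmul_add_ne_bot_iff α β hα 1).mpr ⟨by omega, by omega⟩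
    let δ : Weight K H L := ⟨_, hne⟩
    have hδ : (δ : H → K) = (1 : ℤ) • (α : H → K) + β := rfl
    have hδ0 : δ.IsNonZero := hnz 1 δ (by rw [hδ]; rfl)
    obtain ⟨ε, hε, h3⟩ := next δ hδ (by omega)
    obtain ⟨ε', hε', h4, -⟩ := w_root S hα hδ0
    have h5 := w_low_next (S.sl2 hα) (S.nil hα) (S.nil_neg hα) hv hbot hhv hp3 (by omega)
    have h6 : ∀ v, wα S hα v = wE (S.nil hα) (S.nil_neg hα) v := fun _ => rfl
    have h7 : γ = reflectRoot α δ := by
      ext t
      rw [reflect_apply]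
      have e1 : ∀ s, δ s = α s + β s := fun s => by
        have := congrFun hδ s
        simpa using this
      rw [e1, e1, root_apply_coroot hα, hβα]
      have := congrFun hγ t
      rw [this, Pi.add_apply, fun_zsmul_apply, Int.cast_natCast, Nat.cast_sub (by omega)]
      push_cast
      ring
    have h8 : wα S hα (x δ) = -(ε • ((((p - 1).factorial : K)⁻¹) •
        ((ad K L (x α)) ^ (p - 1)) (x β))) := by
      rw [h3]
      have : wα S hα (ε • ⁅x α, x β⁆) = ε • wα S hα ⁅x α, x β⁆ :=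
        map_smul (wα S hα).toLinearEquiv _ _
      rw [this, h6, h5, smul_neg]
    rw [h4, ← h7] at h8
    refine ⟨ε' * -ε, hsign hε' ?_, ?_⟩
    · rcases hε with rfl | rfl
      · right; rfl
      · left; simp
    · have h9 := congrArg (fun v => ε' • v) h8
      simp only [smul_smul, hinv hε', one_smul] at h9
      rw [h9]
      module

end

end MP9bf44d
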