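import Pool.Agent.Lib.H68.Chev8

/-! # The lattice is stable under the root elements -/

namespace MP9bf44d

open LieAlgebra LieAlgebra.IsKilling LieModule Module

section

variable {K L : Type*} [Field K] [CharZero K] [LieRing L] [LieAlgebra K L]
  [FiniteDimensional K L] [IsKilling K L]
  {H : LieSubalgebra K L} [H.IsCartanSubalgebra] [IsTriangularizable K H L]
  {x : Weight K H L → L} (hx : IsChevalleyBasis x) (b : (rootSystem H).Base)

lemma root_mem_lattice {α : Weight K H L} (hα : α.IsNonZero) : x α ∈ latticeZ b x :=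
  Submodule.subset_span (Or.inr ⟨α, hα, rfl⟩)

lemma coroot_mem_lattice {α : Weight K H L} (hα : α.IsNonZero) :
    ((coroot α : H) : L) ∈ latticeZ b x := by
  have h1 := b.coroot_mem_span_int (toRoot hα)
  rw [rootSystem_coroot_apply] at h1
  have h2 : ∀ y ∈ Submodule.span ℤ ((rootSystem H).coroot '' b.support),
      ((y : H) : L) ∈ latticeZ b x := by
    intro y hy
    induction hy using Submodule.span_induction with
    | mem y hy =>
      obtain ⟨i, hi, rfl⟩ := hy
      exact Submodule.subset_span (Or.inl ⟨i, hi, rfl⟩)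
    | zero => exact Submodule.zero_mem _
    | add u v _ _ hu hv => exact Submodule.add_mem _ hu hv
    | smul n u _ hu => exact Submodule.smul_mem _ n hu
  exact h2 _ h1

include hx in
/-- Divided powers of root vectors. -/
lemma divpow_mem {α β : Weight K H L} (hα : α.IsNonZero) (hβ : β.IsNonZero)
    (h1 : β ≠ α) (h2 : β ≠ -α) (k : ℕ) :
    ((k.factorial : K)⁻¹) • ((ad K L (x α)) ^ k) (x β) ∈ latticeZ b x := by
  set r := chainBotCoeff α β with hr
  set β₀ := chainBot α β with hβ₀
  have hcoe : (β₀ : H → K) = (-(r : ℤ)) • (α : H → K) + β := coe_chainBot _ _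
  have hcoe' : ∀ t, β t = (r : K) * α t + β₀ t := by
    intro t
    rw [congrFun hcoe t, Pi.add_apply, fun_zsmul_apply]
    push_cast; ring
  have hprop : ∀ c : K, (∀ t, β t = c * α t) → False := by
    intro c hc
    rcases eq_neg_or_eq_of_eq_smul α β hβ c (by ext t; exact hc t) with h | h
    · exact h2 h
    · exact h1 h
  have h0 : β₀.IsNonZero := by
    intro hz
    apply hprop r
    intro t
    have : β₀ t = 0 := congrFun hz.eq t
    rw [hcoe', this, add_zero]
  have h1' : β₀ ≠ α := by
    intro h
    apply hprop (r + 1)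
    intro t
    rw [hcoe', h]; ring
  have h2' : β₀ ≠ -α := by
    intro h
    apply hprop (r - 1)
    intro t
    rw [hcoe', h, Weight.coe_neg, Pi.neg_apply]; ring
  have hbot : chainBotCoeff α β₀ = 0 := by
    have := chainBotCoeff_of_eq_zsmul_add α β hα β₀ (-(r : ℤ)) hcoe
    rw [← hr] at this
    omega
  have htop : chainTopCoeff α β₀ = chainTopCoeff α β + r := by
    have := chainTopCoeff_of_eq_zsmul_add α β hα β₀ (-(r : ℤ)) hcoe
    omega
  have S := hx.isChevSys
  obtain ⟨ε, hε, h3⟩ := string_mem hx hα h0 h1' h2' hbot r (by omega) β (by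
    ext t
    rw [Pi.add_apply, fun_zsmul_apply, Int.cast_natCast]
    exact hcoe' t)
  have hvj : ∀ j : ℕ, ((j.factorial : K)⁻¹) • ((ad K L (x α)) ^ j) (x β₀) ∈ latticeZ b x := by
    intro j
    by_cases hj : j ≤ chainTopCoeff α β₀
    · have hne : rootSpace H ((j : ℤ) • (α : H → K) + β₀) ≠ ⊥ :=
        (rootSpace_zsmul_add_ne_bot_iff α β₀ hα j).mpr ⟨by omega, by omega⟩
      let γ : Weight K H L := ⟨_, hne⟩
      have hγ : γ.IsNonZero := by
        intro hz
        apply hprop ((r : K) - j)
        intro t
        have h4 : (j : K) * α t + β₀ t = 0 := by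
          have := congrFun hz.eq t
          change ((j : ℤ) • (α : H → K) + β₀) t = 0 at this
          rw [Pi.add_apply, fun_zsmul_apply] at this
          exact_mod_cast this
        rw [hcoe']
        linear_combination h4
      obtain ⟨ε', hε', h4⟩ := string_mem hx hα h0 h1' h2' hbot j hj γ rfl
      have h5 : ((j.factorial : K)⁻¹) • ((ad K L (x α)) ^ j) (x β₀) = ε' • x γ := by
        rw [h4, smul_smul ε' ε']
        rcases hε' with rfl | rfl <;> simp
      rw [h5]
      rcases hε' with rfl | rfl
      · rw [one_smul]; exact root_mem_lattice b hγ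
      · rw [neg_smul, one_smul]; exact Submodule.neg_mem _ (root_mem_lattice b hγ)
    · have h4 := low_top (S.sl2 hα) (hx.ne_zero h0) (bot_lie hx hα h0 hbot)
        (bot_weight hx h0 hbot)
      obtain ⟨i, hi⟩ : ∃ i, j = i + (chainTopCoeff α β₀ + 1) := ⟨j - (chainTopCoeff α β₀ + 1),
        by omega⟩
      rw [hi, pow_add, Module.End.mul_apply, h4, map_zero, smul_zero]
      exact Submodule.zero_mem _
  have h6 : ((k.factorial : K)⁻¹) • ((ad K L (x α)) ^ k) (x β) =
      ε • (((k + r).choose r : ℕ) : K) •
        ((((k + r).factorial : K)⁻¹) • ((ad K L (x α)) ^ (k + r)) (x β₀)) := by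
    rw [h3, map_smul, map_smul, ← Module.End.mul_apply, ← pow_add, smul_smul, smul_smul, smul_smul,
      smul_smul]
    congr 1
    have h7 := Nat.add_choose_mul_factorial_mul_factorial k r
    have h8 : (((k + r).choose r : ℕ) : K) * (k.factorial : K) * (r.factorial : K) =
      ((k + r).factorial : K) := by exact_mod_cast h7
    have e1 : ((k.factorial : ℕ) : K) ≠ 0 := by exact_mod_cast Nat.factorial_ne_zero k
    have e2 : ((r.factorial : ℕ) : K) ≠ 0 := by exact_mod_cast Nat.factorial_ne_zero r
    have e3 : (((k + r).factorial : ℕ) : K) ≠ 0 := by exact_mod_cast Nat.factorial_ne_zero (k + r)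
    field_simp
    rw [← h8]; ring
  rw [h6]
  have h9 : (((k + r).choose r : ℕ) : K) •
        ((((k + r).factorial : K)⁻¹) • ((ad K L (x α)) ^ (k + r)) (x β₀)) ∈ latticeZ b x := by
    rw [Nat.cast_smul_eq_nsmul]
    exact Submodule.smul_of_tower_mem _ _ (hvj _)
  rcases hε with rfl | rfl
  · rw [one_smul]; exact h9
  · rw [neg_smul, one_smul]; exact Submodule.neg_mem _ h9

include hx in
/-- The root elements preserve the lattice. -/
lemma exp_mem (t : ℤ) {α : Weight K H L} (hα : α.IsNonZero) {v : L} (hv : v ∈ latticeZ b x) :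
    expAd K (t • x α) v ∈ latticeZ b x := by
  have S := hx.isChevSys
  have hn : IsNilpotent (ad K L (t • x α)) := isNilpotent_zsmul (S.nil hα) t
  induction hv using Submodule.span_induction with
  | zero => rw [map_zero]; exact Submodule.zero_mem _
  | add u v _ _ hu hv => rw [map_add]; exact Submodule.add_mem _ hu hv
  | smul n u _ hu => rw [map_zsmul]; exact Submodule.smul_mem _ n hu
  | mem y hy =>
    rcases hy with ⟨i, hi, rfl⟩ | ⟨β, hβ, rfl⟩
    · have h1 : ⁅((coroot (i : Weight K H L) : H) : L), t • x α⁆ =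
          α (coroot (i : Weight K H L)) • (t • x α) := by
        rw [lie_zsmul, hx.cartan_lie hα, smul_comm]
      rw [exp_e_cartan hn h1, apply_coroot_eq_cast (i : Weight K H L) α, Int.cast_smul_eq_zsmul]
      exact Submodule.sub_mem _ (coroot_mem_lattice b (root_nz i))
        (Submodule.smul_mem _ _ (Submodule.smul_mem _ _ (root_mem_lattice b hα)))
    · by_cases h1 : β = α
      · subst h1
        rw [expAd_one hn (by rw [zsmul_lie, lie_self, smul_zero])]
        exact root_mem_lattice b hβ
      by_cases h2 : β = -α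
      · subst h2
        have e1 : ⁅t • x α, x (-α)⁆ = t • ((coroot α : H) : L) := by
          rw [zsmul_lie, hx.lie_neg α hα]
        have e2 : ⁅t • x α, ⁅t • x α, x (-α)⁆⁆ = -((2 * t * t) • x α) := by
          rw [e1, lie_zsmul, zsmul_lie, ← lie_skew, hx.cartan_lie hα, root_apply_coroot hα,
            smul_neg, smul_neg]
          congr 1
          rw [← Int.cast_smul_eq_zsmul K, ← Int.cast_smul_eq_zsmul K, ← Int.cast_smul_eq_zsmul K,
            smul_smul, smul_smul]
          congr 1
          push_cast; ring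
        have e3 : ⁅t • x α, ⁅t • x α, ⁅t • x α, x (-α)⁆⁆⁆ = 0 := by
          rw [e2, lie_neg, lie_zsmul, zsmul_lie, lie_self, smul_zero, smul_zero, neg_zero]
        rw [expAd_three hn e3, e2, e1]
        have e4 : (2 : K)⁻¹ • -((2 * t * t) • x α) = -((t * t) • x α) := by
          rw [smul_neg, ← Int.cast_smul_eq_zsmul K, ← Int.cast_smul_eq_zsmul K, smul_smul]
          congr 2
          push_cast
          field_simp
        rw [e4]
        exact Submodule.add_mem _ (Submodule.add_mem _ (root_mem_lattice b hβ)
          (Submodule.smul_mem _ _ (coroot_mem_lattice b hα)))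
          (Submodule.neg_mem _ (Submodule.smul_mem _ _ (root_mem_lattice b hα)))
      · obtain ⟨n, hn'⟩ := hn
        rw [expAd_apply_sum (k := n) ⟨n, hn'⟩ (by rw [hn']; rfl)]
        refine Submodule.sum_mem _ fun k _ => ?_
        have e1 : ((ad K L (t • x α)) ^ k) (x β) = (t ^ k) • ((ad K L (x α)) ^ k) (x β) := by
          have : ad K L (t • x α) = (t : ℤ) • ad K L (x α) := map_zsmul _ _ _
          rw [this, smul_pow, LinearMap.smul_apply]
        rw [e1, smul_comm]
        exact Submodule.smul_mem _ _ (divpow_mem hx b hα hβ h1 h2 k)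

end

end MP9bf44d
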