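import Mathlib

/-! # Integral adjoint Chevalley groups and (2,2×2)-generation: definitions -/

namespace MP9bf44d

open Subgroup

/-- `G` is generated by three involutions two of which commute. -/
def ThreeInvolutions (G : Type*) [Group G] : Prop :=
  ∃ a b c : G, orderOf a = 2 ∧ orderOf b = 2 ∧ orderOf c = 2 ∧ a * b = b * a ∧
    Subgroup.closure {a, b, c} = ⊤

section Lie

variable {K L : Type*} [Field K] [LieRing L] [LieAlgebra K L]

/-- The exponential `∑ (ad x)^k / k!` of a (nilpotent) inner derivation, as a linear map. -/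
noncomputable def expAd (K : Type*) {L : Type*} [Field K] [LieRing L] [LieAlgebra K L] (x : L) :
    L →ₗ[K] L :=
  ∑ k ∈ Finset.range (nilpotencyClass (LieAlgebra.ad K L x)),
    ((k.factorial : K)⁻¹) • (LieAlgebra.ad K L x) ^ k

/-- The adjoint Chevalley group over `ℤ` attached to the Chevalley generators `e i, f i` of `L`:
the subgroup of `GL(L)` generated by all `exp (t ad e_i)`, `exp (t ad f_i)`, `t ∈ ℤ`. -/
noncomputable def Gad {ι : Type*} [Finite ι] {H : LieSubalgebra K L} (B : LieAlgebra.Basis ι H) :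
    Subgroup (L →ₗ[K] L)ˣ :=
  Subgroup.closure {g | ∃ (t : ℤ) (i : ι),
    (g : L →ₗ[K] L) = expAd K (t • B.e i) ∨ (g : L →ₗ[K] L) = expAd K (t • B.f i)}

end Lie

/-- An integral matrix model of a Cartan matrix `A`: integer matrices `e i`, `f i` satisfying the
Chevalley relations, with `(e i)^3 = (f i)^3 = 0` and integral exponentials `X i`, `Y i`. -/
structure IsModel {ι n : Type*} [Fintype n] [DecidableEq n]
    (A : Matrix ι ι ℤ) (e f : ι → Matrix n n ℤ) (X Y : ι → (Matrix n n ℤ)ˣ) : Prop where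
  e_cube : ∀ i, e i * e i * e i = 0
  f_cube : ∀ i, f i * f i * f i = 0
  X_eq : ∀ i, 2 • (X i : Matrix n n ℤ) = 2 • 1 + 2 • e i + e i * e i
  Y_eq : ∀ i, 2 • (Y i : Matrix n n ℤ) = 2 • 1 + 2 • f i + f i * f i
  e_ne_zero : ∀ i, e i ≠ 0
  lie_e_f_ne : ∀ i j, i ≠ j → ⁅e i, f j⁆ = 0
  lie_h_e : ∀ i j, ⁅⁅e j, f j⁆, e i⁆ = A i j • e i
  lie_h_f : ∀ i j, ⁅⁅e j, f j⁆, f i⁆ = -(A i j • f i)
  lie_h_h : ∀ i j, ⁅⁅e i, f i⁆, ⁅e j, f j⁆⁆ = 0

end MP9bf44d
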