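import Mathlib

/-! # Block embeddings of integer matrices along an injection of index types -/

namespace MP9bf44d

open Matrix

set_option linter.unusedSectionVars false
set_option linter.unusedSimpArgs false

variable {m m' n : Type*} [Fintype m] [DecidableEq m] [Fintype m'] [DecidableEq m']
  [Fintype n] [DecidableEq n]

/-- The 0/1 matrix of a map. -/
def pmat (s : m → n) : Matrix n m ℤ := fun i j => if i = s j then 1 else 0

lemma pmat_transpose_mul (s : m → n) (hs : Function.Injective s) :
    (pmat s)ᵀ * pmat s = 1 := by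
  ext i j
  simp only [pmat, mul_apply, transpose_apply, one_apply]
  rw [Finset.sum_eq_single (s i)]
  · simp [hs.eq_iff]
  · intro b _ hb; simp [hb]
  · simp

lemma pmat_comp (s : m → n) (t : m' → m) : pmat s * pmat t = pmat (s ∘ t) := by
  ext i j
  simp only [pmat, mul_apply]
  rw [Finset.sum_eq_single (t j)]
  · simp
  · intro b _ hb; simp [hb]
  · simp

lemma pmat_disjoint (s : m → n) (t : m' → n) (h : ∀ i j, s i ≠ t j) :
    (pmat s)ᵀ * pmat t = 0 := by
  ext i j
  simp only [pmat, mul_apply, transpose_apply, Matrix.zero_apply]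
  apply Finset.sum_eq_zero
  intro k _
  by_cases h1 : k = s i
  · have : k ≠ t j := by rw [h1]; exact h i j
    simp [this]
  · simp [h1]

/-- Transport of a matrix along a map (zero outside the range). -/
def lift (s : m → n) (M : Matrix m m ℤ) : Matrix n n ℤ := pmat s * M * (pmat s)ᵀ

/-- Block embedding: `M` on the range of `s` and the identity elsewhere. -/
def emb (s : m → n) (M : Matrix m m ℤ) : Matrix n n ℤ := 1 + lift s (M - 1)

lemma lift_add (s : m → n) (M N : Matrix m m ℤ) : lift s (M + N) = lift s M + lift s N := by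
  simp [lift, Matrix.mul_add, Matrix.add_mul]

lemma lift_sub (s : m → n) (M N : Matrix m m ℤ) : lift s (M - N) = lift s M - lift s N := by
  simp [lift, Matrix.mul_sub, Matrix.sub_mul]

lemma lift_zero (s : m → n) : lift s (0 : Matrix m m ℤ) = 0 := by simp [lift]

lemma lift_smul (s : m → n) (c : ℤ) (M : Matrix m m ℤ) : lift s (c • M) = c • lift s M := by
  simp only [lift, Matrix.mul_smul, Matrix.smul_mul]

lemma lift_mul {s : m → n} (hs : Function.Injective s) (M N : Matrix m m ℤ) :
    lift s M * lift s N = lift s (M * N) := by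
  unfold lift
  calc pmat s * M * (pmat s)ᵀ * (pmat s * N * (pmat s)ᵀ)
      = pmat s * M * ((pmat s)ᵀ * pmat s) * N * (pmat s)ᵀ := by simp only [Matrix.mul_assoc]
    _ = _ := by rw [pmat_transpose_mul s hs]; simp only [Matrix.mul_assoc, Matrix.one_mul]

lemma lift_mul_disjoint {s : m → n} {t : m' → n} (h : ∀ i j, s i ≠ t j)
    (M : Matrix m m ℤ) (N : Matrix m' m' ℤ) : lift s M * lift t N = 0 := by
  unfold lift
  calc pmat s * M * (pmat s)ᵀ * (pmat t * N * (pmat t)ᵀ)
      = pmat s * M * ((pmat s)ᵀ * pmat t) * N * (pmat t)ᵀ := by simp only [Matrix.mul_assoc]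
    _ = _ := by rw [pmat_disjoint s t h]; simp

lemma lift_single (s : m → n) (i j : m) (c : ℤ) :
    lift s (single i j c) = single (s i) (s j) c := by
  ext a b
  simp only [lift, pmat, mul_apply, transpose_apply, single_apply]
  rw [Finset.sum_eq_single j]
  · rw [Finset.sum_eq_single i]
    · by_cases h1 : a = s i <;> by_cases h2 : b = s j <;> simp [h1, h2, eq_comm]
    · intro k _ hk; simp [hk.symm]
    · simp
  · intro k _ hk
    rw [Finset.sum_eq_zero]
    · simp
    · intro x _; simp [hk.symm]
  · simp

lemma lift_comp (s : m → n) (t : m' → m) (M : Matrix m' m' ℤ) :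
    lift s (lift t M) = lift (s ∘ t) M := by
  unfold lift
  rw [← pmat_comp, transpose_mul]
  simp only [Matrix.mul_assoc]

@[simp] lemma emb_one (s : m → n) : emb s (1 : Matrix m m ℤ) = 1 := by simp [emb, lift_zero]

lemma emb_mul {s : m → n} (hs : Function.Injective s) (M N : Matrix m m ℤ) :
    emb s (M * N) = emb s M * emb s N := by
  unfold emb
  rw [mul_add, add_mul, add_mul, lift_mul hs, one_mul, one_mul, mul_one]
  rw [add_assoc, ← lift_add, ← lift_add]
  congr 2
  noncomm_ring

lemma emb_comp (s : m → n) (t : m' → m) (M : Matrix m' m' ℤ) :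
    emb s (emb t M) = emb (s ∘ t) M := by
  unfold emb
  rw [add_sub_cancel_left, lift_comp]

lemma emb_commute {s : m → n} {t : m' → n} (h : ∀ i j, s i ≠ t j)
    (M : Matrix m m ℤ) (N : Matrix m' m' ℤ) : emb s M * emb t N = emb t N * emb s M := by
  unfold emb
  rw [mul_add, add_mul, add_mul, mul_add, add_mul, add_mul, lift_mul_disjoint h,
    lift_mul_disjoint (fun i j => (h j i).symm)]
  simp; abel

lemma emb_one_add (s : m → n) (N : Matrix m m ℤ) : emb s (1 + N) = 1 + lift s N := by
  simp [emb]

/-- Permutation matrix of an equivalence. -/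
lemma pmat_equiv_mul_transpose (e : n ≃ n) : pmat e * (pmat e)ᵀ = 1 := by
  ext i j
  simp only [pmat, mul_apply, transpose_apply, one_apply]
  rw [Finset.sum_eq_single (e.symm i)]
  · simp [eq_comm]
  · intro b _ hb
    have : i ≠ e b := by rintro rfl; simp at hb
    simp [this]
  · simp

lemma conj_pmat_emb (e : n ≃ n) (s : m → n) (M : Matrix m m ℤ) :
    pmat e * emb s M * (pmat e)ᵀ = emb (e ∘ s) M := by
  unfold emb
  rw [mul_add, add_mul, mul_one, pmat_equiv_mul_transpose]
  congr 1
  unfold lift
  rw [← pmat_comp, transpose_mul]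
  simp only [Matrix.mul_assoc]

lemma emb_equiv_pmat (s : m → n) (hs : Function.Injective s) (e : m ≃ m) :
    emb s (pmat e) = 1 + pmat (s ∘ e) * (pmat s)ᵀ - pmat s * (pmat s)ᵀ := by
  unfold emb lift
  rw [Matrix.mul_sub, Matrix.sub_mul, pmat_comp, Matrix.mul_one, add_sub_assoc]

end MP9bf44d
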