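import Pool.Agent.Lib.H68.MemV

/-! # Plane permutations inside groups containing all long root elements -/

namespace MP9bf44d

open Matrix

set_option linter.unusedSectionVars false
set_option linter.unusedSimpArgs false

variable {l : ℕ} {G : Subgroup (Matrix (VB l) (VB l) ℤ)ˣ}

lemma pairPerm_add {s k j : ℕ} (h : s + 2 * (k + j) ≤ l) :
    pairPerm l s (k + j) h = pairPerm l s k (by omega) * pairPerm l (s + 2 * k) j (by omega) := by
  ext i
  simp only [Equiv.Perm.coe_mul, Function.comp, pairPerm_val, pairFun]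
  split_ifs <;> omega

lemma pairPerm_zero {s : ℕ} (h : s + 2 * 0 ≤ l) : pairPerm l s 0 h = 1 := by
  ext i
  simp only [pairPerm_val, pairFun, Equiv.Perm.coe_one, id]
  split_ifs <;> omega

/-- `r` consecutive planes -/
def seg (l s r : ℕ) (h : s + r ≤ l) : Fin r → WP l := fun j => (⟨s + j, by omega⟩, true)

lemma seg_inj {s r : ℕ} (h : s + r ≤ l) : Function.Injective fun i => (seg l s r h i).1 := by
  intro i j hij
  simp only [seg, Fin.mk.injEq] at hij
  ext; omega

lemma sg_seg {s r : ℕ} (h : s + r ≤ l) (i : Fin (2 * r)) : sg (seg l s r h) i =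
    some (⟨s + (i : ℕ) / 2, by omega⟩, decide ((i : ℕ) % 2 = 0)) := by
  simp only [sg, seg]
  split_ifs with h
  · simp [h]
  · simp [h]

/-- local plane permutation on `2 r` indices -/
def locN (r s m : ℕ) (h : s + 2 * m ≤ r) : Fin (2 * r) ≃ Fin (2 * r) where
  toFun i := ⟨2 * pairFun s m (i / 2) + i % 2, by
    have := pairFun_lt (i := (i : ℕ) / 2) h (by omega); omega⟩
  invFun i := ⟨2 * pairFun s m (i / 2) + i % 2, by
    have := pairFun_lt (i := (i : ℕ) / 2) h (by omega); omega⟩
  left_inv i := by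
    ext
    simp only
    have h1 : (2 * pairFun s m (i / 2) + (i : ℕ) % 2) / 2 = pairFun s m (i / 2) := by omega
    have h2 : (2 * pairFun s m (i / 2) + (i : ℕ) % 2) % 2 = (i : ℕ) % 2 := by omega
    rw [h1, h2, pairFun_invol]; omega
  right_inv i := by
    ext
    simp only
    have h1 : (2 * pairFun s m (i / 2) + (i : ℕ) % 2) / 2 = pairFun s m (i / 2) := by omega
    have h2 : (2 * pairFun s m (i / 2) + (i : ℕ) % 2) % 2 = (i : ℕ) % 2 := by omega
    rw [h1, h2, pairFun_invol]; omega

lemma pmat_locN {r s m : ℕ} (h : s + 2 * m ≤ r) (T : LM)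
    (hT : ∀ i j : Fin (2 * r), (T.getD i []).getD j 0 =
      if (i : ℕ) = 2 * pairFun s m (j / 2) + j % 2 then 1 else 0) :
    pmat (locN r s m h) = toMat (2 * r) T := by
  ext i j
  simp only [toMat, pmat, hT, Fin.ext_iff]
  rfl

/-- a plane permutation supported in `r` consecutive planes -/
lemma pmat_seg {s r k s' : ℕ} (h : s + r ≤ l) (hk : s' + 2 * k ≤ r) (hl : s + s' + 2 * k ≤ l) :
    pmat (planeP (pairPerm l (s + s') k hl)) = emb (sg (seg l s r h)) (pmat (locN r s' k hk)) := by
  apply pmat_eq_emb (sg_injective (seg_inj h))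
  · funext i
    simp only [Function.comp]
    rw [sg_seg, sg_seg, planeP_some]
    congr 1
    apply Prod.ext
    · apply Fin.ext
      simp only [pairPerm_val, locN, Equiv.coe_fn_mk]
      have h1 : (2 * pairFun s' k ((i : ℕ) / 2) + (i : ℕ) % 2) / 2 = pairFun s' k ((i : ℕ) / 2) := by
        omega
      rw [h1]
      simp only [pairFun]
      split_ifs <;> omega
    · simp only [locN, Equiv.coe_fn_mk]
      congr 1
      simp only [eq_iff_iff]
      omega
  · intro x hx
    cases x with
    | none => rfl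
    | some u =>
      rw [planeP_some]
      have hu : ¬ (s ≤ (u.1 : ℕ) ∧ (u.1 : ℕ) < s + r) := by
        rintro ⟨h1, h2⟩
        apply hx ⟨2 * ((u.1 : ℕ) - s) + (if u.2 then 0 else 1), by split_ifs <;> omega⟩
        rw [sg_seg]
        congr 1
        rcases u with ⟨i, b⟩
        simp only at h1 h2 ⊢
        cases b
        · simp only [Bool.false_eq_true, if_false]
          apply Prod.ext
          · apply Fin.ext; simp only; omega
          · simp only
            symm; rw [decide_eq_false_iff_not]; omega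
        · simp only [if_true]
          apply Prod.ext
          · apply Fin.ext; simp only; omega
          · simp only
            symm; rw [decide_eq_true_iff]; omega
      congr 1
      apply Prod.ext
      · apply Fin.ext
        simp only [pairPerm_val, pairFun]
        split_ifs <;> omega
      · rfl

/-- even pair permutations are in the group -/
theorem mem_pair_even (hF : Full G l) {s m : ℕ} (h : s + 2 * (2 * m) ≤ l) :
    Mem G (pmat (planeP (pairPerm l s (2 * m) h))) := by
  induction m with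
  | zero =>
    have : pairPerm l s (2 * 0) h = 1 := pairPerm_zero (by omega)
    rw [this, pmat_planeP_one]
    exact Mem.one
  | succ m ih =>
    have e1 : pairPerm l s (2 * (m + 1)) h =
        pairPerm l s (2 * m) (by omega) * pairPerm l (s + 2 * (2 * m)) 2 (by omega) :=
      pairPerm_add (k := 2 * m) (j := 2) (by omega)
    rw [e1, ← pmat_planeP_mul]
    refine (ih _).mul ?_
    have e2 := pmat_seg (l := l) (s := s + 2 * (2 * m)) (r := 4) (k := 2) (s' := 0) (by omega)
      (by norm_num) (by omega)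
    simp only [Nat.add_zero] at e2
    rw [e2, pmat_locN (by norm_num) dswL (by decide +kernel)]
    exact mem_dsw hF (seg_inj _)

/-- the three planes `l-3, l-2, l-1` -/
lemma seg3_shift (hl : 3 ≤ l) : sg ![((⟨l - 1, by omega⟩, true) : WP l)] =
    sg (seg l (l - 3) 3 (by omega)) ∘ shiftF 6 4 2 (by norm_num) := by
  funext k
  rw [Function.comp, sg_seg]
  fin_cases k
  · simp only [sg, shiftF]
    simp
    omega
  · simp only [sg, shiftF]
    simp [opp]
    omega

lemma segB3_shift (hl : 3 ≤ l) : sgB ![((⟨l - 1, by omega⟩, true) : WP l)] =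
    sgB (seg l (l - 3) 3 (by omega)) ∘ shiftF 7 4 3 (by norm_num) := by
  funext k
  rw [Function.comp]
  fin_cases k
  · simp [sg, sgB, shiftF, seg]
    omega
  · simp [sg, sgB, shiftF, seg, opp]
    omega
  · simp [sg, sgB, shiftF, seg, opp]

lemma sgB_cast {r : ℕ} (us : Fin r → WP l) :
    sg us = sgB us ∘ (Fin.castLE (by omega) : Fin (2 * r) → Fin (2 * r + 1)) := by
  funext k
  simp only [Function.comp, sgB, Fin.val_castLE]
  rw [dif_pos k.2]

/-- odd pair permutations, with `-1` on the last plane -/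
theorem mem_pair_neg (hF : Full G l) (hl : 3 ≤ l) {s m : ℕ} (h : s + 2 * (2 * m + 1) ≤ l)
    (hs : s + 2 * (2 * m) = l - 3) :
    Mem G (pmat (planeP (pairPerm l s (2 * m + 1) h)) *
      emb (sg ![((⟨l - 1, by omega⟩, true) : WP l)]) (toMat 2 [[-1, 0], [0, -1]])) := by
  have e1 : pairPerm l s (2 * m + 1) h =
      pairPerm l s (2 * m) (by omega) * pairPerm l (s + 2 * (2 * m)) 1 (by omega) :=
    pairPerm_add (k := 2 * m) (j := 1) (by omega)
  rw [e1, ← pmat_planeP_mul, Matrix.mul_assoc]
  refine (mem_pair_even hF _).mul ?_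
  have e2 := pmat_seg (l := l) (s := l - 3) (r := 3) (k := 1) (s' := 0) (by omega)
    (by norm_num) (by omega)
  simp only [Nat.add_zero] at e2
  simp only [hs]
  rw [e2, pmat_locN (by norm_num) [[0,0,1,0,0,0],[0,0,0,1,0,0],[1,0,0,0,0,0],[0,1,0,0,0,0],
    [0,0,0,0,1,0],[0,0,0,0,0,1]] (by decide +kernel), seg3_shift hl, ← emb_comp,
    ← toMat_extL, ← emb_mul (sg_injective (seg_inj _)), ← mulL_toMat (by decide +kernel)
    (by decide +kernel)]
  have e3 : mulL 6 [[0,0,1,0,0,0],[0,0,0,1,0,0],[1,0,0,0,0,0],[0,1,0,0,0,0],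
    [0,0,0,0,1,0],[0,0,0,0,0,1]] (extL 6 4 2 [[-1, 0], [0, -1]]) = swnL := by decide +kernel
  rw [e3]
  exact mem_swn hF (seg_inj _)

/-- odd pair permutations, with `T2` on the last plane and `v_0` -/
theorem mem_pair_T2 (hF : Full G l) (hS : ∀ u, Mem G (xS u 1)) (hl : 3 ≤ l) {s m : ℕ}
    (h : s + 2 * (2 * m + 1) ≤ l) (hs : s + 2 * (2 * m) = l - 3) :
    Mem G (pmat (planeP (pairPerm l s (2 * m + 1) h)) *
      emb (sgB ![((⟨l - 1, by omega⟩, true) : WP l)]) (toMat 3 T2L)) := by
  have e1 : pairPerm l s (2 * m + 1) h =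
      pairPerm l s (2 * m) (by omega) * pairPerm l (s + 2 * (2 * m)) 1 (by omega) :=
    pairPerm_add (k := 2 * m) (j := 1) (by omega)
  rw [e1, ← pmat_planeP_mul, Matrix.mul_assoc]
  refine (mem_pair_even hF _).mul ?_
  have e2 := pmat_seg (l := l) (s := l - 3) (r := 3) (k := 1) (s' := 0) (by omega)
    (by norm_num) (by omega)
  simp only [Nat.add_zero] at e2
  simp only [hs]
  have e4 : emb (Fin.castLE (by norm_num) : Fin 6 → Fin 7)
      (toMat 6 [[0,0,1,0,0,0],[0,0,0,1,0,0],[1,0,0,0,0,0],[0,1,0,0,0,0],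
      [0,0,0,0,1,0],[0,0,0,0,0,1]]) = toMat 7 (extL 7 0 6 [[0,0,1,0,0,0],[0,0,0,1,0,0],
      [1,0,0,0,0,0],[0,1,0,0,0,0], [0,0,0,0,1,0],[0,0,0,0,0,1]]) := by
    rw [toMat_extL (by norm_num)]
    congr 1
    funext i
    ext; simp [shiftF]
  rw [e2, pmat_locN (by norm_num) [[0,0,1,0,0,0],[0,0,0,1,0,0],[1,0,0,0,0,0],[0,1,0,0,0,0],
    [0,0,0,0,1,0],[0,0,0,0,0,1]] (by decide +kernel), sgB_cast, ← emb_comp, segB3_shift hl,
    ← emb_comp, ← toMat_extL, e4, ← emb_mul (sgB_injective (seg_inj _)),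
    ← mulL_toMat (by decide +kernel) (by decide +kernel)]
  have e3 : mulL 7 (extL 7 0 6 [[0,0,1,0,0,0],[0,0,0,1,0,0],
      [1,0,0,0,0,0],[0,1,0,0,0,0], [0,0,0,0,1,0],[0,0,0,0,0,1]]) (extL 7 4 3 T2L) = swtL := by
    decide +kernel
  rw [e3]
  exact mem_swt hF hS (seg_inj _)

end MP9bf44d
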