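import Pool.Agent.Lib.H68.FamD2

/-! # Type B, rank at least 8 -/

namespace MP9bf44d

open Matrix Set

set_option linter.unusedSectionVars false
set_option linter.unusedSimpArgs false

variable {l : ℕ}

section B

variable {K L : Type*} [Field K] [CharZero K] [LieRing L] [LieAlgebra K L]
  {H : LieSubalgebra K L} (B : LieAlgebra.Basis (Fin l) H)

theorem familyB [LieAlgebra.IsSimple K L] (h8 : 8 ≤ l) (hB : B.A = CartanMatrix.B l) :
    ThreeInvolutions (Gad B) := by
  have hM : IsModel B.A eB fB (XB (l := l)) YB := hB ▸ isModelB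
  have hne : Nonempty (Fin l) := ⟨⟨0, by omega⟩⟩
  obtain ⟨hF, hS⟩ : Full (Subgroup.closure (range (XB (l := l)) ∪ range YB ∪ {-1})) l ∧
      ∀ u, Mem (Subgroup.closure (range (XB (l := l)) ∪ range YB ∪ {-1})) (xS (l := l) u 1) :=
    fullB (by omega)
      (fun i => Mem.of_unit (Subgroup.subset_closure (Or.inl (Or.inl (mem_range_self i)))))
      (fun i => Mem.of_unit (Subgroup.subset_closure (Or.inl (Or.inr (mem_range_self i)))))
  have hb := mem_b16 hF (us8_inj h8)
  have hqi : Function.Injective fun i => ((![qL (l := l) (by omega)] : Fin 1 → WP l) i).1 :=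
    inj1 _
  have h1 : emb (sgB ![qL (l := l) (by omega)]) (toMat 3 T1L) *
      emb (sgB ![qL (l := l) (by omega)]) (toMat 3 T1L) = 1 :=
    emb_sq (sgB_injective hqi) (by decide +kernel) (by decide +kernel)
  have h2 : emb (sgB ![qL (l := l) (by omega)]) (toMat 3 T2L) *
      emb (sgB ![qL (l := l) (by omega)]) (toMat 3 T2L) = 1 :=
    emb_sq (sgB_injective hqi) (by decide +kernel) (by decide +kernel)
  have hT : emb (sg ![pL (l := l) (by omega), qL (by omega)]) (toMat 4 tauL) *
      emb (sg ![pL (l := l) (by omega), qL (by omega)]) (toMat 4 tauL) = 1 :=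
    emb_sq (sg_injective (pq_inj _)) (by decide +kernel) (by decide +kernel)
  have far1 : ∀ S, S ≤ l - 1 → FarZ S (emb (sgB ![qL (l := l) (by omega)]) (toMat 3 T1L)) := by
    intro S hS
    exact FarZ.sgB (forall_fin1 (by simpa [qL] using hS)) _
  have far2 : ∀ S, S ≤ l - 1 → FarZ S (emb (sgB ![qL (l := l) (by omega)]) (toMat 3 T2L)) := by
    intro S hS
    exact FarZ.sgB (forall_fin1 (by simpa [qL] using hS)) _
  have farT : ∀ S, S ≤ l - 2 → FarZ S (emb (sg ![pL (l := l) (by omega), qL (by omega)])
      (toMat 4 tauL)) := by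
    intro S hS
    exact FarZ.sg (forall_fin2 (by simpa [pL] using hS) (by simp [qL]; omega)) _
  have hu : ((⟨0, by omega⟩, true) : WP l).1 ≠ (qL (l := l) (by omega)).1 := by
    intro h
    have := congrArg Fin.val h
    simp only [qL] at this
    omega
  have hr : l % 4 = 0 ∨ l % 4 = 1 ∨ l % 4 = 2 ∨ l % 4 = 3 := by omega
  rcases hr with hr | hr | hr | hr
  · -- l = 4 n + 4
    obtain ⟨n, rfl⟩ : ∃ n, l = 4 * n + 4 := ⟨l / 4 - 1, by omega⟩
    refine family B hM h8 (ka := 2 * (n + 1)) (kc := 2 * n + 1) (by omega) (by omega) (by omega)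
      (by omega) (mul_one _) h2 (FarZ.one 8) (far2 7 (by omega)) (by rw [mul_one, one_mul])
      (planeP_comm_sgB (forall_fin1 (pair_fix_q _ (by omega) (by omega))) _)
      (by rw [mul_one]; exact mem_pair_even hF _) hb
      (mem_pair_T2 hF hS (by omega) (by omega) (by omega)) ?_
    intro G hA hC hG2
    have hG : Full G (4 * n + 4) :=
      Full.propagate _ _ ((FarZ.one (4 * n + 4)).moves (mul_one _) hA)
        ((far2 _ le_rfl).moves h2 hC) le_rfl hG2 (by intros; omega) (by intros; omega) _
        (by omega) le_rfl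
    have hs := v0_step2 hG (π := pairPerm _ 1 (2 * n + 1) (by omega))
      (by intro i; ext; simp [pairFun_invol]) hu (pair_fix_q _ (by omega) (by omega)) hC
    exact genB hG (xS_all (by omega) hG hs)
  · -- l = 4 n + 1
    obtain ⟨n, rfl⟩ : ∃ n, l = 4 * n + 1 := ⟨l / 4, by omega⟩
    refine family B hM h8 (ka := 2 * n) (kc := 2 * n) (by omega) (by omega) (by omega)
      (by omega) h1 (mul_one _) (far1 8 (by omega)) (FarZ.one 7)
      (planeP_comm_sgB (forall_fin1 (pair_fix_q _ (by omega) (by omega))) _)
      (by rw [mul_one, one_mul])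
      ((mem_pair_even hF _).mul (mem_T1 hF hS hqi)) hb
      (by rw [mul_one]; exact mem_pair_even hF _) ?_
    intro G hA hC hG2
    have hG : Full G (4 * n + 1) :=
      Full.propagate _ _ ((far1 _ le_rfl).moves h1 hA)
        ((FarZ.one (4 * n + 1)).moves (mul_one _) hC) le_rfl hG2 (by intros; omega)
        (by intros; omega) _ (by omega) le_rfl
    have hs := v0_step1 hG (π := pairPerm _ 0 (2 * n) (by omega))
      (by intro i; ext; simp [pairFun_invol]) hu (pair_fix_q _ (by omega) (by omega)) hA
    exact genB hG (xS_all (by omega) hG hs)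
  · -- l = 4 n + 2
    obtain ⟨n, rfl⟩ : ∃ n, l = 4 * n + 2 := ⟨l / 4, by omega⟩
    refine family B hM h8 (ka := 2 * n) (kc := 2 * n) (by omega) (by omega) (by omega)
      (by omega) hT h1 (farT 8 (by omega)) (far1 7 (by omega))
      (planeP_comm_sg (forall_fin2 (pair_fix_p _ (by omega) (by omega))
        (pair_fix_q _ (by omega) (by omega))) _)
      (planeP_comm_sgB (forall_fin1 (pair_fix_q _ (by omega) (by omega))) _)
      ((mem_pair_even hF _).mul (mem_tau hF (pq_inj _))) hb
      ((mem_pair_even hF _).mul (mem_T1 hF hS hqi)) ?_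
    intro G hA hC hG2
    have h3 : Full G (4 * n + 2 - 1) :=
      Full.propagate _ _ ((farT _ le_rfl).moves hT hA)
        ((far1 _ le_rfl).moves h1 hC)
        (by omega) hG2 (by intros; omega) (by intros; omega) _ (by omega) le_rfl
    have hG : Full G (4 * n + 2) := by
      refine tau_step (by omega) h3 (π := pairPerm _ 0 (2 * n) (by omega)) ?_ ?_
        (p := pL (by omega)) (q := qL (by omega)) rfl rfl (pair_fix_p _ (by omega) (by omega))
        (pair_fix_q _ (by omega) (by omega)) hA
      · intro i; ext; simp [pairFun_invol]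
      · intro i hi; simp only [pairPerm_val, pairFun]; split_ifs <;> omega
    have hs := v0_step1 hG (π := pairPerm _ 1 (2 * n) (by omega))
      (by intro i; ext; simp [pairFun_invol]) hu (pair_fix_q _ (by omega) (by omega)) hC
    exact genB hG (xS_all (by omega) hG hs)
  · -- l = 4 n + 3
    obtain ⟨n, rfl⟩ : ∃ n, l = 4 * n + 3 := ⟨l / 4, by omega⟩
    refine family B hM h8 (ka := 2 * n + 1) (kc := 2 * n) (by omega) (by omega) (by omega)
      (by omega) h2 hT (far2 8 (by omega)) (farT 7 (by omega))
      (planeP_comm_sgB (forall_fin1 (pair_fix_q _ (by omega) (by omega))) _)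
      (planeP_comm_sg (forall_fin2 (pair_fix_p _ (by omega) (by omega))
        (pair_fix_q _ (by omega) (by omega))) _)
      (mem_pair_T2 hF hS (by omega) (by omega) (by omega)) hb
      ((mem_pair_even hF _).mul (mem_tau hF (pq_inj _))) ?_
    intro G hA hC hG2
    have h3 : Full G (4 * n + 3 - 1) :=
      Full.propagate _ _ ((far2 _ le_rfl).moves h2 hA) ((farT _ le_rfl).moves hT hC)
        (by omega) hG2 (by intros; omega) (by intros; omega) _ (by omega) le_rfl
    have hG : Full G (4 * n + 3) := by
      refine tau_step (by omega) h3 (π := pairPerm _ 1 (2 * n) (by omega)) ?_ ?_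
        (p := pL (by omega)) (q := qL (by omega)) rfl rfl (pair_fix_p _ (by omega) (by omega))
        (pair_fix_q _ (by omega) (by omega)) hC
      · intro i; ext; simp [pairFun_invol]
      · intro i hi; simp only [pairPerm_val, pairFun]; split_ifs <;> omega
    have hs := v0_step2 hG (π := pairPerm _ 0 (2 * n + 1) (by omega))
      (by intro i; ext; simp [pairFun_invol]) hu (pair_fix_q _ (by omega) (by omega)) hA
    exact genB hG (xS_all (by omega) hG hs)

end B

end MP9bf44d
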