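import Pool.Agent.Lib.H68.C8

/-! # Type C, rank at least 8: the family -/

namespace MP9bf44d

open Matrix Set

set_option linter.unusedSectionVars false
set_option linter.unusedSimpArgs false

variable {l : ℕ}

section C

variable {K L : Type*} [Field K] [CharZero K] [LieRing L] [LieAlgebra K L]
  {H : LieSubalgebra K L} (B : LieAlgebra.Basis (Fin l) H)

lemma FarAct.mono {lo hi lo' hi' : ℕ} {Z Z' : Matrix (WP l) (WP l) ℤ} (h : FarAct lo hi Z Z')
    (h1 : lo ≤ lo') (h2 : hi' ≤ hi) : FarAct lo' hi' Z Z' := fun m σ hσ =>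
  h m σ (fun i => ⟨h1.trans (hσ i).1, lt_of_lt_of_le (hσ i).2 h2⟩)

theorem familyC [LieAlgebra.IsSimple K L] (h8 : 8 ≤ l) (hB : B.A = CartanMatrix.C l) :
    ThreeInvolutions (Gad B) := by
  have hM : IsModel B.A eC fC (XC (l := l)) YC := hB ▸ isModelC
  have hne : Nonempty (Fin l) := ⟨⟨0, by omega⟩⟩
  have hV : FullC (Subgroup.closure (range (XC (l := l)) ∪ range YC ∪ {-1})) :=
    fullC_V (by omega)
      (fun i => Mem.of_unit (Subgroup.subset_closure (Or.inl (Or.inl (mem_range_self i)))))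
      (fun i => Mem.of_unit (Subgroup.subset_closure (Or.inl (Or.inr (mem_range_self i)))))
  have hVG : FullGL (Subgroup.closure (range (XC (l := l)) ∪ range YC ∪ {-1})) l :=
    fun i j hij _ _ => hV.sh _ _ hij
  have hmb := hV.b (segC_inj (l := l) (s := 0) (r := 8) (by omega))
  have hmJ := hV.J1 (segC_inj (l := l) (s := 0) (r := 1) (by omega))
  have hr : l % 2 = 0 ∨ l % 2 = 1 := by omega
  rcases hr with hr | hr
  · -- l = 2 n + 2
    obtain ⟨n, rfl⟩ : ∃ n, l = 2 * n + 2 := ⟨l / 2 - 1, by omega⟩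
    set q : Fin (2 * n + 2) := ⟨2 * n + 2 - 1, by omega⟩ with hq
    have hqi : Function.Injective (![q] : Fin 1 → Fin (2 * n + 2)) := by
      intro i j _; exact Subsingleton.elim _ _
    have ha : 0 + 2 * (n + 1) ≤ 2 * n + 2 := by omega
    have hc : 1 + 2 * n ≤ 2 * n + 2 := by omega
    have hπa : ∀ i : Fin (2 * n + 2), (i : ℕ) < 8 →
        ((pairPerm _ 0 (n + 1) ha i : Fin (2 * n + 2)) : ℕ) = pairFun 0 4 i := by
      intro i hi
      simp only [pairPerm_val, pairFun]
      split_ifs <;> omega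
    have hZ : emb (sgC ![q]) (toMat 2 J0L) * emb (sgC ![q]) (toMat 2 J0L') = 1 := by
      rw [← emb_mul (sgC_injective hqi), ← mulL_toMat (by decide +kernel) (by decide +kernel)]
      have : mulL 2 J0L J0L' = oneL 2 := by decide +kernel
      rw [this, oneL_toMat, emb_one]
    have hfar : FarAct 0 (2 * n + 1) (emb (sgC ![q]) (toMat 2 J0L))
        (emb (sgC ![q]) (toMat 2 J0L')) := by
      apply FarAct.sgC (r := 1)
      intro i
      left
      fin_cases i
      simp [hq]
    have hZ2 : emb (sgC ![q]) (toMat 2 J0L) * emb (sgC ![q]) (toMat 2 J0L) =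
        dg (2 * n + 2) (fun i => 1 + 2 * n ≤ i) := by
      refine emb_local_sq (r := 1) hqi _ ?_ J0L [[-1, 0], [0, -1]] (by decide +kernel)
        (by decide +kernel) ?_
      · intro i
        constructor
        · intro hi
          refine ⟨0, ?_⟩
          ext; simp only [hq, Matrix.cons_val_zero]; omega
        · rintro ⟨j, rfl⟩
          fin_cases j
          simp only [hq, Fin.zero_eta, Matrix.cons_val_zero]; omega
      · ext i j; fin_cases i <;> fin_cases j <;> simp [toMat]
    have hcc := cM_sq (l := 2 * n + 2) (kc := n) (by omega) hc (r := 1) (qs := ![q]) (T := J0L)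
      (by intro i; fin_cases i; simp only [hq, Fin.zero_eta, Matrix.cons_val_zero]; omega) hZ2
    refine three_of_mem B hM (MA := pmat (planeW (pairPerm _ 0 (n + 1) ha)))
      (MB := bCM h8) (MC := cM _ n (by omega) hc (emb (sgC ![q]) (toMat 2 J0L)))
      (mem_PW hV ha) hmb (hmJ.mul ((mem_PD hVG hc (by omega)).mul (hV.J0 hqi)))
      (Or.inl (by rw [pmat_planeW_mul, pairPerm_mul_self, pmat_planeW_one]))
      (Or.inl (bCM_sq h8)) (Or.inr hcc) (Or.inl (bCM_comm h8 hπa)) ?_
    intro G hA hB hC _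
    obtain ⟨g3, _, _⟩ := nearC h8 hπa hA (by omega) hc hZ (hfar.mono le_rfl (by omega)) hC hB
    have hG : FullGL G (2 * n + 2) :=
      FullGL.propagate ha hc (moves_a hA) (moves_c (by omega) hc hZ
        (hfar.mono (Nat.zero_le _) le_rfl) hC) le_rfl g3 (by intros; omega) (by intros; omega) _
        (by omega) le_rfl
    obtain ⟨t1, t2⟩ := termE (by omega) hG (mem_zeta hG (by omega) hc (by omega) hC)
    refine genC_XY (by omega) ?_ t1 t2
    intro i hi
    have hne : (⟨i, by omega⟩ : Fin (2 * n + 2)) ≠ ⟨i + 1, hi⟩ := by simp [Fin.ext_iff]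
    exact ⟨hG _ _ hne (Fin.is_lt _) (Fin.is_lt _), hG _ _ hne.symm (Fin.is_lt _) (Fin.is_lt _)⟩
  · -- l = 2 n + 3
    obtain ⟨n, rfl⟩ : ∃ n, l = 2 * n + 3 := ⟨l / 2 - 1, by omega⟩
    set q : Fin (2 * n + 3) := ⟨2 * n + 3 - 1, by omega⟩ with hq
    set p : Fin (2 * n + 3) := ⟨2 * n + 3 - 2, by omega⟩ with hp
    have hpq : p ≠ q := by
      intro h; have := congrArg Fin.val h; simp only [hp, hq] at this; omega
    have hqi : Function.Injective (![p, q] : Fin 2 → Fin (2 * n + 3)) := vec2_inj hpq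
    have ha : 0 + 2 * (n + 1) ≤ 2 * n + 3 := by omega
    have hc : 1 + 2 * n ≤ 2 * n + 3 := by omega
    have hπa : ∀ i : Fin (2 * n + 3), (i : ℕ) < 8 →
        ((pairPerm _ 0 (n + 1) ha i : Fin (2 * n + 3)) : ℕ) = pairFun 0 4 i := by
      intro i hi
      simp only [pairPerm_val, pairFun]
      split_ifs <;> omega
    have hZ : emb (sgC ![p, q]) (toMat 4 t1L) * emb (sgC ![p, q]) (toMat 4 t1L') = 1 := by
      rw [← emb_mul (sgC_injective hqi), ← mulL_toMat (by decide +kernel) (by decide +kernel)]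
      have : mulL 4 t1L t1L' = oneL 4 := by decide +kernel
      rw [this, oneL_toMat, emb_one]
    have hfar : FarAct 0 (2 * n + 1) (emb (sgC ![p, q]) (toMat 4 t1L))
        (emb (sgC ![p, q]) (toMat 4 t1L')) := by
      apply FarAct.sgC (r := 2)
      intro i
      left
      fin_cases i
      · simp only [hp, Fin.zero_eta, Matrix.cons_val_zero]; omega
      · simp only [hq, Fin.mk_one, Matrix.cons_val_one, Matrix.cons_val_fin_one]; omega
    have hZ2 : emb (sgC ![p, q]) (toMat 4 t1L) * emb (sgC ![p, q]) (toMat 4 t1L) =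
        dg (2 * n + 3) (fun i => 1 + 2 * n ≤ i) := by
      refine emb_local_sq (r := 2) hqi _ ?_ t1L
        [[-1, 0, 0, 0], [0, -1, 0, 0], [0, 0, -1, 0], [0, 0, 0, -1]] (by decide +kernel)
        (by decide +kernel) ?_
      · intro i
        constructor
        · intro hi
          have h2 : (i : ℕ) = 2 * n + 3 - 2 ∨ (i : ℕ) = 2 * n + 3 - 1 := by
            have := i.2; omega
          rcases h2 with h2 | h2
          · exact ⟨0, Fin.ext h2⟩
          · exact ⟨1, Fin.ext h2⟩
        · rintro ⟨j, rfl⟩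
          fin_cases j
          · simp only [hp, Fin.zero_eta, Matrix.cons_val_zero]; omega
          · simp only [hq, Fin.mk_one, Matrix.cons_val_one, Matrix.cons_val_fin_one]; omega
      · ext i j; fin_cases i <;> fin_cases j <;> simp [toMat]
    have hcc := cM_sq (l := 2 * n + 3) (kc := n) (by omega) hc (r := 2) (qs := ![p, q])
      (T := t1L) (by
        intro i; fin_cases i
        · simp only [hp, Fin.zero_eta, Matrix.cons_val_zero]; omega
        · simp only [hq, Fin.mk_one, Matrix.cons_val_one, Matrix.cons_val_fin_one]; omega) hZ2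
    refine three_of_mem B hM (MA := pmat (planeW (pairPerm _ 0 (n + 1) ha)))
      (MB := bCM h8) (MC := cM _ n (by omega) hc (emb (sgC ![p, q]) (toMat 4 t1L)))
      (mem_PW hV ha) hmb (hmJ.mul ((mem_PD hVG hc (by omega)).mul (hV.t1 hqi)))
      (Or.inl (by rw [pmat_planeW_mul, pairPerm_mul_self, pmat_planeW_one]))
      (Or.inl (bCM_sq h8)) (Or.inr hcc) (Or.inl (bCM_comm h8 hπa)) ?_
    intro G hA hB hC _
    obtain ⟨g3, g4, g5⟩ := nearC h8 hπa hA (by omega) hc hZ (hfar.mono le_rfl (by omega)) hC hB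
    have hG : FullGL G (2 * n + 3 - 1) :=
      FullGL.propagate ha hc (moves_a hA) (moves_c (by omega) hc hZ
        (hfar.mono (Nat.zero_le _) le_rfl) hC) (by omega) g3 (by intros; omega)
        (by intros; omega) _ (by omega) le_rfl
    obtain ⟨t1, t2, t3, t4⟩ := termO (by omega) hG g4 g5
      (mem_zeta hG (by omega) hc (by omega) hC)
    refine genC_XY (by omega) ?_ t3 t4
    intro i hi
    have hne : (⟨i, by omega⟩ : Fin (2 * n + 3)) ≠ ⟨i + 1, hi⟩ := by simp [Fin.ext_iff]
    by_cases h : i + 1 < 2 * n + 3 - 1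
    · exact ⟨hG _ _ hne (by simp only; omega) (by simp only; omega),
        hG _ _ hne.symm (by simp only; omega) (by simp only; omega)⟩
    · have e1 : i = 2 * n + 3 - 2 := by omega
      subst e1
      exact ⟨t1, t2⟩

end C

end MP9bf44d
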