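import Pool.Agent.Lib.H68.Fam2
import Pool.Agent.Lib.H68.ModelD

/-! # Types D and B, rank at least 8 -/

namespace MP9bf44d

open Matrix Set

set_option linter.unusedSectionVars false
set_option linter.unusedSimpArgs false

variable {l : ℕ}

section Family

variable {ι K L : Type*} [Finite ι] [Field K] [CharZero K] [LieRing L] [LieAlgebra K L]
  {H : LieSubalgebra K L} (B : LieAlgebra.Basis ι H)
  {e f : ι → Matrix (VB l) (VB l) ℤ} {X Y : ι → (Matrix (VB l) (VB l) ℤ)ˣ}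

/-- The common part of all families. -/
theorem family [Nonempty ι] [LieAlgebra.IsSimple K L] (hM : IsModel B.A e f X Y) (h8 : 8 ≤ l)
    {ka kc : ℕ} (ha : 0 + 2 * ka ≤ l) (hc : 1 + 2 * kc ≤ l) (hka : 4 ≤ ka) (hkc : 3 ≤ kc)
    {Za Zc : Matrix (VB l) (VB l) ℤ} (hZa : Za * Za = 1) (hZc : Zc * Zc = 1)
    (hFa : FarZ 8 Za) (hFc : FarZ 7 Zc)
    (hca : pmat (planeP (pairPerm l 0 ka ha)) * Za = Za * pmat (planeP (pairPerm l 0 ka ha)))
    (hcc : pmat (planeP (pairPerm l 1 kc hc)) * Zc = Zc * pmat (planeP (pairPerm l 1 kc hc)))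
    (hma : Mem (Subgroup.closure (range X ∪ range Y ∪ {-1}))
      (pmat (planeP (pairPerm l 0 ka ha)) * Za))
    (hmb : Mem (Subgroup.closure (range X ∪ range Y ∪ {-1})) (bM h8))
    (hmc : Mem (Subgroup.closure (range X ∪ range Y ∪ {-1}))
      (pmat (planeP (pairPerm l 1 kc hc)) * Zc))
    (hgen : ∀ G : Subgroup (Matrix (VB l) (VB l) ℤ)ˣ,
      Mem G (pmat (planeP (pairPerm l 0 ka ha)) * Za) →
      Mem G (pmat (planeP (pairPerm l 1 kc hc)) * Zc) → Full G 2 →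
      ∀ i, Mem G (X i : Matrix (VB l) (VB l) ℤ) ∧ Mem G (Y i : Matrix (VB l) (VB l) ℤ)) :
    ThreeInvolutions (Gad B) := by
  have hπa : ∀ i : Fin l, (i : ℕ) < 8 → ((pairPerm l 0 ka ha i : Fin l) : ℕ) = pairFun 0 4 i := by
    intro i hi
    simp only [pairPerm_val, pairFun]
    split_ifs <;> omega
  have hπc : ∀ i : Fin l, (i : ℕ) < 7 → ((pairPerm l 1 kc hc i : Fin l) : ℕ) = pairFun 1 3 i := by
    intro i hi
    simp only [pairPerm_val, pairFun]
    split_ifs <;> omega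
  refine three_of_mem B hM hma hmb hmc (Or.inl (sq_PZ (planeP_pair_sq ha) hZa hca))
    (Or.inl (bM_sq h8)) (Or.inl (sq_PZ (planeP_pair_sq hc) hZc hcc))
    (Or.inl (comm_PZ_b16 h8 hπa hFa)) ?_
  intro G hA hB hC _
  exact hgen G hA hC (near_full2 h8 hπa hπc hZa hZc hFa hFc hA hC hB)

end Family

/-! ## type D: the group generated by the simple root elements -/

lemma fullD {G : Subgroup (Matrix (VB l) (VB l) ℤ)ˣ} (h4 : 4 ≤ l)
    (hX : ∀ i, Mem G (XD (l := l) (by omega) i : Matrix (VB l) (VB l) ℤ))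
    (hY : ∀ i, Mem G (YD (l := l) (by omega) i : Matrix (VB l) (VB l) ℤ)) : Full G l := by
  apply full_of_adjacent (by omega)
  · intro i hi
    have h1 := hX ⟨i, by omega⟩
    have h2 := hY ⟨i, by omega⟩
    simp only [XD, YD, xBu, suD, svD, hi, dite_true, if_true] at h1 h2
    exact ⟨h1.xB_symm (by simp [Fin.ext_iff]), h2⟩
  · have h1 := hX ⟨l - 1, by omega⟩
    have hn : ¬ l - 1 + 1 < l := by omega
    simp only [XD, xBu, suD, svD, hn, dite_false, if_false] at h1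
    exact h1.xB_symm (by simp [Fin.ext_iff]; omega)
  · have h1 := hY ⟨l - 1, by omega⟩
    have hn : ¬ l - 1 + 1 < l := by omega
    simp only [YD, xBu, suD, svD, hn, dite_false, if_false] at h1
    exact h1

lemma genD {G : Subgroup (Matrix (VB l) (VB l) ℤ)ˣ} (h2 : 2 ≤ l) (hF : Full G l) (i : Fin l) :
    Mem G (XD h2 i : Matrix (VB l) (VB l) ℤ) ∧ Mem G (YD h2 i : Matrix (VB l) (VB l) ℤ) :=
  ⟨hF _ _ (suvD_ne h2 i).symm (Fin.is_lt _) (Fin.is_lt _),
    hF _ _ (suvD_ne h2 i) (Fin.is_lt _) (Fin.is_lt _)⟩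

/-! ## type B -/

lemma fullB {G : Subgroup (Matrix (VB l) (VB l) ℤ)ˣ} (h3 : 3 ≤ l)
    (hX : ∀ i : Fin l, Mem G (XB i : Matrix (VB l) (VB l) ℤ))
    (hY : ∀ i : Fin l, Mem G (YB i : Matrix (VB l) (VB l) ℤ)) :
    Full G l ∧ ∀ u, Mem G (xS (l := l) u 1) := by
  have hA : ∀ (i : ℕ) (hi : i + 1 < l), Mem G (xB (⟨i, by omega⟩, true) (⟨i + 1, hi⟩, false) 1) ∧
      Mem G (xB (⟨i, by omega⟩, false) (⟨i + 1, hi⟩, true) 1) := by
    intro i hi
    have h1 := hX ⟨i, by omega⟩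
    have h2 := hY ⟨i, by omega⟩
    simp only [XB, YB, xBu, hi, dite_true] at h1 h2
    exact ⟨h1.xB_symm (by simp [Fin.ext_iff]), h2⟩
  have hn : ¬ l - 1 + 1 < l := by omega
  have s1 : Mem G (xS ((⟨l - 1, by omega⟩, true) : WP l) 1) := by
    have h1 := hX ⟨l - 1, by omega⟩
    simp only [XB, xSu, hn, dite_false] at h1
    exact h1
  have s2 : Mem G (xS ((⟨l - 1, by omega⟩, false) : WP l) 1) := by
    have h1 := hY ⟨l - 1, by omega⟩
    simp only [YB, xSu, hn, dite_false] at h1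
    refine Mem.inv ?_ h1
    rw [xS_mul, neg_add_cancel, xS_zero]
  have h5 : l - 2 + 1 = l - 1 := by omega
  have h6 := hA (l - 2) (by omega)
  simp only [h5] at h6
  have hne : (⟨l - 2, by omega⟩ : Fin l) ≠ ⟨l - 1, by omega⟩ := by
    intro h; have := congrArg Fin.val h; simp only at this; omega
  have hF : Full G l := by
    apply full_of_adjacent h3 hA
    · exact xB_of_short (u := (⟨l - 2, by omega⟩, true)) (v := (⟨l - 1, by omega⟩, true)) hne
        h6.1 s1 s2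
    · exact xB_of_short (u := (⟨l - 2, by omega⟩, false)) (v := (⟨l - 1, by omega⟩, false)) hne
        h6.2 s2 s1
  exact ⟨hF, xS_all (by omega) hF s1⟩

lemma genB {G : Subgroup (Matrix (VB l) (VB l) ℤ)ˣ} (hF : Full G l)
    (hS : ∀ u, Mem G (xS (l := l) u 1)) (i : Fin l) :
    Mem G (XB i : Matrix (VB l) (VB l) ℤ) ∧ Mem G (YB i : Matrix (VB l) (VB l) ℤ) := by
  unfold XB YB
  split_ifs with h
  · exact ⟨hF _ _ (by simp [Fin.ext_iff]) (Fin.is_lt _) (Fin.is_lt _),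
      hF _ _ (by simp [Fin.ext_iff]) (Fin.is_lt _) (Fin.is_lt _)⟩
  · refine ⟨hS _, Mem.inv ?_ (hS (i, false))⟩
    change xS _ 1 * xS _ (-1) = 1
    rw [xS_mul, add_neg_cancel, xS_zero]

end MP9bf44d
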