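import Pool.Agent.Lib.H68.FamD

/-! # Type D, rank at least 8 -/

namespace MP9bf44d

open Matrix Set

set_option linter.unusedSectionVars false
set_option linter.unusedSimpArgs false

variable {l : ℕ}

/-- last plane -/
def qL (h : 1 ≤ l) : WP l := (⟨l - 1, by omega⟩, true)
/-- last but one plane -/
def pL (h : 2 ≤ l) : WP l := (⟨l - 2, by omega⟩, true)

lemma emb_sq {n : ℕ} {σ : Fin n → VB l} (hσ : Function.Injective σ) {T : LM}
    (hT : WF n T = true) (h : mulL n T T = oneL n) :
    emb σ (toMat n T) * emb σ (toMat n T) = 1 := by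
  rw [← emb_mul hσ, ← mulL_toMat hT hT, h, oneL_toMat, emb_one]

lemma pq_inj (h : 2 ≤ l) : Function.Injective fun i =>
    ((![pL h, qL (by omega)] : Fin 2 → WP l) i).1 := by
  apply inj2
  intro h'
  have := congrArg Fin.val h'
  simp only [pL, qL] at this
  omega

lemma pair_fix_q {s k : ℕ} (h : s + 2 * k ≤ l) (hl : 1 ≤ l) (h' : s + 2 * k ≤ l - 1) :
    pairPerm l s k h (qL hl).1 = (qL hl).1 := by
  apply Fin.ext
  simp only [pairPerm_val, pairFun, qL]
  split_ifs <;> omega

lemma pair_fix_p {s k : ℕ} (h : s + 2 * k ≤ l) (hl : 2 ≤ l) (h' : s + 2 * k ≤ l - 2) :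
    pairPerm l s k h (pL hl).1 = (pL hl).1 := by
  apply Fin.ext
  simp only [pairPerm_val, pairFun, pL]
  split_ifs <;> omega

lemma forall_fin1 {p : Fin 1 → Prop} (h : p 0) : ∀ i, p i := by
  intro i; fin_cases i; exact h

lemma forall_fin2 {p : Fin 2 → Prop} (h : p 0) (h' : p 1) : ∀ i, p i := by
  intro i; fin_cases i
  · exact h
  · exact h'

section D

variable {K L : Type*} [Field K] [CharZero K] [LieRing L] [LieAlgebra K L]
  {H : LieSubalgebra K L} (B : LieAlgebra.Basis (Fin l) H)

theorem familyD [LieAlgebra.IsSimple K L] (h8 : 8 ≤ l) (hB : B.A = CartanMatrix.D l) :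
    ThreeInvolutions (Gad B) := by
  have hM : IsModel B.A eD fD (XD (l := l) (by omega)) (YD (by omega)) :=
    hB ▸ isModelD (by omega)
  have hne : Nonempty (Fin l) := ⟨⟨0, by omega⟩⟩
  have hF : Full (Subgroup.closure (range (XD (l := l) (by omega)) ∪
      range (YD (l := l) (by omega)) ∪ {-1})) l :=
    fullD (by omega)
      (fun i => Mem.of_unit (Subgroup.subset_closure (Or.inl (Or.inl (mem_range_self i)))))
      (fun i => Mem.of_unit (Subgroup.subset_closure (Or.inl (Or.inr (mem_range_self i)))))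
  have hb := mem_b16 hF (us8_inj h8)
  have hqi : Function.Injective fun i => ((![qL (l := l) (by omega)] : Fin 1 → WP l) i).1 :=
    inj1 _
  have hN : emb (sg ![qL (l := l) (by omega)]) (toMat 2 [[-1, 0], [0, -1]]) *
      emb (sg ![qL (l := l) (by omega)]) (toMat 2 [[-1, 0], [0, -1]]) = 1 :=
    emb_sq (sg_injective hqi) (by decide +kernel) (by decide +kernel)
  have hT : emb (sg ![pL (l := l) (by omega), qL (by omega)]) (toMat 4 tauL) *
      emb (sg ![pL (l := l) (by omega), qL (by omega)]) (toMat 4 tauL) = 1 :=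
    emb_sq (sg_injective (pq_inj _)) (by decide +kernel) (by decide +kernel)
  have farN : ∀ S, S ≤ l - 1 → FarZ S (emb (sg ![qL (l := l) (by omega)])
      (toMat 2 [[-1, 0], [0, -1]])) := by
    intro S hS
    exact FarZ.sg (forall_fin1 (by simpa [qL] using hS)) _
  have farT : ∀ S, S ≤ l - 2 → FarZ S (emb (sg ![pL (l := l) (by omega), qL (by omega)])
      (toMat 4 tauL)) := by
    intro S hS
    exact FarZ.sg (forall_fin2 (by simpa [pL] using hS) (by simp [qL]; omega)) _
  have hr : l % 4 = 0 ∨ l % 4 = 1 ∨ l % 4 = 2 ∨ l % 4 = 3 := by omega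
  rcases hr with hr | hr | hr | hr
  · -- l = 4 n + 4
    obtain ⟨n, rfl⟩ : ∃ n, l = 4 * n + 4 := ⟨l / 4 - 1, by omega⟩
    refine family B hM h8 (ka := 2 * (n + 1)) (kc := 2 * n + 1) (by omega) (by omega) (by omega)
      (by omega) (mul_one _) hN (FarZ.one 8) (farN 7 (by omega)) (by rw [mul_one, one_mul])
      (planeP_comm_sg (forall_fin1 (pair_fix_q _ (by omega) (by omega))) _)
      (by rw [mul_one]; exact mem_pair_even hF _) hb
      (mem_pair_neg hF (by omega) (by omega) (by omega)) ?_
    intro G hA hC h2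
    exact genD (by omega) (Full.propagate _ _ ((FarZ.one (4 * n + 4)).moves (mul_one _) hA)
      ((farN _ le_rfl).moves hN hC) le_rfl h2 (by intros; omega) (by intros; omega) _
      (by omega) le_rfl)
  · -- l = 4 n + 1
    obtain ⟨n, rfl⟩ : ∃ n, l = 4 * n + 1 := ⟨l / 4, by omega⟩
    refine family B hM h8 (ka := 2 * n) (kc := 2 * n) (by omega) (by omega) (by omega)
      (by omega) (mul_one _) (mul_one _) (FarZ.one 8) (FarZ.one 7) (by rw [mul_one, one_mul])
      (by rw [mul_one, one_mul])
      (by rw [mul_one]; exact mem_pair_even hF _) hb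
      (by rw [mul_one]; exact mem_pair_even hF _) ?_
    intro G hA hC h2
    exact genD (by omega) (Full.propagate _ _ ((FarZ.one (4 * n + 1)).moves (mul_one _) hA)
      ((FarZ.one (4 * n + 1)).moves (mul_one _) hC) le_rfl h2 (by intros; omega) (by intros; omega) _
      (by omega) le_rfl)
  · -- l = 4 n + 2
    obtain ⟨n, rfl⟩ : ∃ n, l = 4 * n + 2 := ⟨l / 4, by omega⟩
    refine family B hM h8 (ka := 2 * n) (kc := 2 * n) (by omega) (by omega) (by omega)
      (by omega) hT (mul_one _) (farT 8 (by omega)) (FarZ.one 7)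
      (planeP_comm_sg (forall_fin2 (pair_fix_p _ (by omega) (by omega))
        (pair_fix_q _ (by omega) (by omega))) _)
      (by rw [mul_one, one_mul])
      ((mem_pair_even hF _).mul (mem_tau hF (pq_inj _))) hb
      (by rw [mul_one]; exact mem_pair_even hF _) ?_
    intro G hA hC h2
    refine genD (by omega) ?_
    have h3 : Full G (4 * n + 2 - 1) :=
      Full.propagate _ _ ((farT _ le_rfl).moves hT hA)
        ((FarZ.one (4 * n + 2)).moves (mul_one _) hC)
        (by omega) h2 (by intros; omega) (by intros; omega) _ (by omega) le_rfl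
    refine tau_step (by omega) h3 (π := pairPerm _ 0 (2 * n) (by omega)) ?_ ?_ (p := pL (by omega))
      (q := qL (by omega)) rfl rfl (pair_fix_p _ (by omega) (by omega))
      (pair_fix_q _ (by omega) (by omega)) hA
    · intro i; ext; simp [pairFun_invol]
    · intro i hi; simp only [pairPerm_val, pairFun]; split_ifs <;> omega
  · -- l = 4 n + 3
    obtain ⟨n, rfl⟩ : ∃ n, l = 4 * n + 3 := ⟨l / 4, by omega⟩
    refine family B hM h8 (ka := 2 * n + 1) (kc := 2 * n) (by omega) (by omega) (by omega)
      (by omega) hN hT (farN 8 (by omega)) (farT 7 (by omega))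
      (planeP_comm_sg (forall_fin1 (pair_fix_q _ (by omega) (by omega))) _)
      (planeP_comm_sg (forall_fin2 (pair_fix_p _ (by omega) (by omega))
        (pair_fix_q _ (by omega) (by omega))) _)
      (mem_pair_neg hF (by omega) (by omega) (by omega)) hb
      ((mem_pair_even hF _).mul (mem_tau hF (pq_inj _))) ?_
    intro G hA hC h2
    refine genD (by omega) ?_
    have h3 : Full G (4 * n + 3 - 1) :=
      Full.propagate _ _ ((farN _ le_rfl).moves hN hA) ((farT _ le_rfl).moves hT hC)
        (by omega) h2 (by intros; omega) (by intros; omega) _ (by omega) le_rfl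
    refine tau_step (by omega) h3 (π := pairPerm _ 1 (2 * n) (by omega)) ?_ ?_ (p := pL (by omega))
      (q := qL (by omega)) rfl rfl (pair_fix_p _ (by omega) (by omega))
      (pair_fix_q _ (by omega) (by omega)) hC
    · intro i; ext; simp [pairFun_invol]
    · intro i hi; simp only [pairPerm_val, pairFun]; split_ifs <;> omega

end D

end MP9bf44d
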