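import Mathlib

/-! # Integer matrices as lists, for kernel evaluation -/

namespace MP9bf44d

/-- `a * x + y` entrywise. -/
def axpy (a : ℤ) : List ℤ → List ℤ → List ℤ
  | x :: xs, y :: ys => (a * x + y) :: axpy a xs ys
  | _, _ => []

/-- row times matrix, accumulating. -/
def rowMul : List ℤ → List (List ℤ) → List ℤ → List ℤ
  | a :: as, r :: rs, acc => rowMul as rs (if a = 0 then acc else axpy a r acc)
  | _, _, acc => acc

/-- Product of matrices given by lists of rows. -/
def mulL (n : ℕ) (A B : List (List ℤ)) : List (List ℤ) :=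
  A.map fun r => rowMul r B (List.replicate n 0)

/-- Well-formedness: `n` rows of length `n`. -/
def WF (n : ℕ) (A : List (List ℤ)) : Bool :=
  A.length == n && A.all fun r => r.length == n

/-- The matrix of a list of rows. -/
def toMat (n : ℕ) (A : List (List ℤ)) : Matrix (Fin n) (Fin n) ℤ :=
  fun i j => (A.getD i []).getD j 0

lemma axpy_length (a : ℤ) : ∀ (x y : List ℤ), x.length = y.length →
    (axpy a x y).length = x.length
  | [], [], _ => rfl
  | _ :: xs, _ :: ys, h => by
    simp only [axpy, List.length_cons] at h ⊢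
    rw [axpy_length a xs ys (by omega)]
  | [], _ :: _, h => by simp at h
  | _ :: _, [], h => by simp at h

lemma axpy_getD (a : ℤ) : ∀ (x y : List ℤ), x.length = y.length → ∀ j,
    (axpy a x y).getD j 0 = a * x.getD j 0 + y.getD j 0
  | [], [], _, j => by simp [axpy]
  | u :: xs, v :: ys, h, j => by
    simp only [List.length_cons] at h
    cases j with
    | zero => simp [axpy]
    | succ j => simpa [axpy] using axpy_getD a xs ys (by omega) j
  | [], _ :: _, h, _ => by simp at h
  | _ :: _, [], h, _ => by simp at h

lemma rowMul_spec (n : ℕ) : ∀ (r : List ℤ) (B : List (List ℤ)) (acc : List ℤ),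
    r.length = B.length → (∀ x ∈ B, x.length = n) → acc.length = n →
    (rowMul r B acc).length = n ∧ ∀ j, (rowMul r B acc).getD j 0 =
      acc.getD j 0 + ∑ k ∈ Finset.range r.length, r.getD k 0 * (B.getD k []).getD j 0
  | [], [], acc, _, _, h => by simp [rowMul, h]
  | a :: as, b :: bs, acc, h1, h2, h3 => by
    simp only [List.length_cons] at h1
    have hb : b.length = n := h2 b (by simp)
    have hbs : ∀ x ∈ bs, x.length = n := fun x hx => h2 x (by simp [hx])
    have hax : (if a = 0 then acc else axpy a b acc).length = n := by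
      split_ifs
      · exact h3
      · rw [axpy_length a b acc (by rw [hb, h3]), hb]
    obtain ⟨g1, g2⟩ := rowMul_spec n as bs (if a = 0 then acc else axpy a b acc)
      (by omega) hbs hax
    refine ⟨g1, fun j => ?_⟩
    rw [rowMul, g2 j, List.length_cons, Finset.sum_range_succ']
    have h4 : (if a = 0 then acc else axpy a b acc).getD j 0 = a * b.getD j 0 + acc.getD j 0 := by
      split_ifs with h0
      · simp [h0]
      · exact axpy_getD a b acc (by rw [hb, h3]) j
    rw [h4]
    simp only [List.getD_cons_succ, List.getD_cons_zero]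
    ring
  | [], _ :: _, _, h, _, _ => by simp at h
  | _ :: _, [], _, h, _, _ => by simp at h

lemma WF_iff {n : ℕ} {A : List (List ℤ)} : WF n A = true ↔
    A.length = n ∧ ∀ r ∈ A, r.length = n := by
  simp [WF, List.all_eq_true]

lemma getD_map_aux {α β : Type*} (f : α → β) (A : List α) (i : ℕ) (hi : i < A.length) (d : β) :
    (A.map f).getD i d = f A[i] := by
  rw [List.getD_eq_getElem _ _ (by simpa using hi), List.getElem_map]

lemma mulL_toMat {n : ℕ} {A B : List (List ℤ)} (hA : WF n A = true) (hB : WF n B = true) :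
    toMat n (mulL n A B) = toMat n A * toMat n B := by
  rw [WF_iff] at hA hB
  ext i j
  have hi : (i : ℕ) < A.length := by rw [hA.1]; exact i.2
  simp only [toMat, mulL, Matrix.mul_apply]
  rw [getD_map_aux _ _ _ hi]
  have hr : (A[(i : ℕ)]).length = n := hA.2 _ (List.getElem_mem _)
  obtain ⟨_, h2⟩ := rowMul_spec n A[(i : ℕ)] B (List.replicate n 0) (by rw [hr, hB.1]) hB.2
    (by simp)
  rw [h2 j, hr]
  have : (List.replicate n (0 : ℤ)).getD (j : ℕ) 0 = 0 := by
    simp [List.getD_eq_getElem?_getD]
  rw [this, zero_add, Finset.sum_range]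
  apply Finset.sum_congr rfl
  intro k _
  rw [List.getD_eq_getElem A _ hi]

lemma mulL_WF {n : ℕ} {A B : List (List ℤ)} (hA : WF n A = true) (hB : WF n B = true) :
    WF n (mulL n A B) = true := by
  rw [WF_iff] at *
  refine ⟨by simp [mulL, hA.1], ?_⟩
  intro r hr
  simp only [mulL, List.mem_map] at hr
  obtain ⟨x, hx, rfl⟩ := hr
  exact (rowMul_spec n x B (List.replicate n 0) (by rw [hA.2 x hx, hB.1]) hB.2 (by simp)).1

/-- identity -/
def oneL (n : ℕ) : List (List ℤ) :=
  (List.range n).map fun i => (List.range n).map fun j => if i = j then 1 else 0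

lemma oneL_toMat (n : ℕ) : toMat n (oneL n) = 1 := by
  ext i j
  simp only [toMat, oneL]
  rw [getD_map_aux _ _ _ (by simp), getD_map_aux _ _ _ (by simp)]
  simp only [List.getElem_range, Matrix.one_apply, Fin.ext_iff]

end MP9bf44d
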