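import Pool.Agent.Lib.H68.Near

/-! # Local computations -/

namespace MP9bf44d

open Matrix

set_option linter.unusedSectionVars false

section General

variable {m n N : Type*} [Fintype m] [DecidableEq m] [Fintype N] [DecidableEq N]

lemma emb_apply_range {σ : m → N} (hσ : Function.Injective σ) (M : Matrix m m ℤ) (a b : m) :
    emb σ M (σ a) (σ b) = M a b := by
  unfold emb lift
  rw [Matrix.add_apply, Matrix.mul_apply]
  simp only [pmat, transpose_apply, Matrix.mul_apply, Matrix.sub_apply]
  rw [Finset.sum_eq_single b]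
  · rw [Finset.sum_eq_single a]
    · simp only [Matrix.one_apply, hσ.eq_iff]
      simp
    · intro x _ hx
      have : σ a ≠ σ x := fun h => hx (hσ h).symm
      simp [this]
    · simp
  · intro x _ hx
    have : σ b ≠ σ x := fun h => hx (hσ h).symm
    simp [this]
  · simp

lemma emb_apply_not {σ : m → N} (M : Matrix m m ℤ) (i j : N)
    (h : (∀ a, i ≠ σ a) ∨ (∀ b, j ≠ σ b)) : emb σ M i j = if i = j then 1 else 0 := by
  unfold emb lift
  rw [Matrix.add_apply, Matrix.mul_apply, Matrix.one_apply]
  simp only [pmat, transpose_apply, Matrix.mul_apply]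
  rw [Finset.sum_eq_zero]
  · simp
  · intro x _
    rcases h with h | h
    · rw [Finset.sum_eq_zero]
      · simp
      · intro y _
        simp [h y]
    · simp [h x]

end General

/-- place the `m × m` block `B` at offset `off` in the `n × n` identity -/
def extL (n off m : ℕ) (B : LM) : LM :=
  (List.range n).map fun i => (List.range n).map fun j =>
    if off ≤ i ∧ i < off + m ∧ off ≤ j ∧ j < off + m then (B.getD (i - off) []).getD (j - off) 0
    else if i = j then 1 else 0

/-- shift -/
def shiftF (n off m : ℕ) (h : off + m ≤ n) (i : Fin m) : Fin n := ⟨off + i, by omega⟩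

lemma shiftF_inj (n off m : ℕ) (h : off + m ≤ n) : Function.Injective (shiftF n off m h) := by
  intro i j hij
  simp only [shiftF, Fin.ext_iff] at hij
  ext; omega

lemma toMat_extL {n off m : ℕ} (h : off + m ≤ n) (B : LM) :
    toMat n (extL n off m B) = emb (shiftF n off m h) (toMat m B) := by
  ext i j
  simp only [toMat, extL]
  rw [getD_map_aux _ _ _ (by simp), getD_map_aux _ _ _ (by simp)]
  simp only [List.getElem_range]
  split_ifs with h1 h2
  · have hi : i = shiftF n off m h ⟨i - off, by omega⟩ := by ext; simp [shiftF]; omega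
    have hj : j = shiftF n off m h ⟨j - off, by omega⟩ := by ext; simp [shiftF]; omega
    have h3 := emb_apply_range (shiftF_inj n off m h) (toMat m B) ⟨i - off, by omega⟩
      ⟨j - off, by omega⟩
    rw [← hi, ← hj] at h3
    rw [h3]
    rfl
  · have hij : i = j := Fin.ext h2
    rw [emb_apply_not, if_pos hij]
    left
    intro a ha
    simp only [shiftF, Fin.ext_iff] at ha
    apply h1
    have := a.2
    omega
  · have hij : i ≠ j := fun h => h2 (congrArg Fin.val h)
    rw [emb_apply_not, if_neg hij]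
    by_cases h3 : off ≤ (i : ℕ) ∧ (i : ℕ) < off + m
    · right
      intro a ha
      simp only [shiftF, Fin.ext_iff] at ha
      apply h1
      have := a.2
      omega
    · left
      intro a ha
      simp only [shiftF, Fin.ext_iff] at ha
      apply h3
      have := a.2
      omega

variable {l : ℕ}

/-- xS as an embedded local matrix (plane number `p` of `r` planes) -/
lemma xS_eq_emb {r : ℕ} (us : Fin r → WP l) (a b : ℕ) {u : WP l}
    (ha' : a < 2 * r) (hb' : b < 2 * r)
    (ha : sg us ⟨a, ha'⟩ = some u) (hb : sg us ⟨b, hb'⟩ = some (opp u)) (t : ℤ) :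
    emb (sgB us) (1 + (single (⟨2 * r, by omega⟩ : Fin (2 * r + 1)) ⟨b, by omega⟩ t
      + single ⟨a, by omega⟩ ⟨2 * r, by omega⟩ (-2 * t) +
        single ⟨a, by omega⟩ ⟨b, by omega⟩ (-t ^ 2))) = xS u t := by
  rw [emb_one_add, lift_add, lift_add, lift_single, lift_single, lift_single]
  unfold xS
  have h2 : sgB us ⟨2 * r, by omega⟩ = none := by simp [sgB]
  have h0 : sgB us ⟨a, by omega⟩ = some u := by simp only [sgB, ha', dite_true]; exact ha
  have h1 : sgB us ⟨b, by omega⟩ = some (opp u) := by simp only [sgB, hb', dite_true]; exact hb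
  rw [h2, h0, h1]
  abel

/-- list version of the local matrix of `xS`: `v0` has index `z` -/
def shortL (n z a b : ℕ) (t : ℤ) : LM :=
  (List.range n).map fun i => (List.range n).map fun j =>
    (if i = j then 1 else 0) + ((if i = z ∧ j = b then t else 0) +
      (if i = a ∧ j = z then -2 * t else 0) + (if i = a ∧ j = b then -t ^ 2 else 0))

lemma toMat_shortL {n : ℕ} (z a b : Fin n) (t : ℤ) :
    toMat n (shortL n z a b t) = 1 + (single z b t + single a z (-2 * t) +
      single a b (-t ^ 2)) := by
  ext i j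
  simp only [toMat, shortL]
  rw [getD_map_aux _ _ _ (by simp), getD_map_aux _ _ _ (by simp)]
  simp only [List.getElem_range, Matrix.add_apply, Matrix.one_apply, single_apply, Fin.ext_iff]
  congr 1
  congr 1
  · congr 1
    · split_ifs <;> first | rfl | omega
    · split_ifs <;> first | rfl | omega
  · split_ifs <;> first | rfl | omega

lemma xS_eq_emb' {r : ℕ} (us : Fin r → WP l) (a b : ℕ) {u : WP l}
    (ha' : a < 2 * r) (hb' : b < 2 * r)
    (ha : sg us ⟨a, ha'⟩ = some u) (hb : sg us ⟨b, hb'⟩ = some (opp u)) (t : ℤ) :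
    emb (sgB us) (toMat (2 * r + 1) (shortL (2 * r + 1) (2 * r) a b t)) = xS u t := by
  have h := toMat_shortL (n := 2 * r + 1) ⟨2 * r, by omega⟩ ⟨a, by omega⟩ ⟨b, by omega⟩ t
  simp only at h
  rw [h]
  exact xS_eq_emb us a b ha' hb' ha hb t

lemma xB_eq_embB {r : ℕ} (us : Fin r → WP l) (a b c d : ℕ) {u v : WP l}
    (ha' : a < 2 * r) (hb' : b < 2 * r) (hc' : c < 2 * r) (hd' : d < 2 * r)
    (ha : sg us ⟨a, ha'⟩ = some v) (hb : sg us ⟨b, hb'⟩ = some (opp u))
    (hc : sg us ⟨c, hc'⟩ = some u)
    (hd : sg us ⟨d, hd'⟩ = some (opp v)) (t t' : ℤ) (ht : t' = -t) :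
    emb (sgB us) (toMat (2 * r + 1) (rootL (2 * r + 1) a b t c d t')) = xB u v t := by
  subst ht
  have := emb_rootL (sgB us) ⟨a, by omega⟩ ⟨b, by omega⟩ t ⟨c, by omega⟩ ⟨d, by omega⟩ (-t)
  simp only at this
  rw [this]
  have h0 : sgB us ⟨a, by omega⟩ = some v := by simp only [sgB, ha', dite_true]; exact ha
  have h1 : sgB us ⟨b, by omega⟩ = some (opp u) := by simp only [sgB, hb', dite_true]; exact hb
  have h2 : sgB us ⟨c, by omega⟩ = some u := by simp only [sgB, hc', dite_true]; exact hc
  have h3 : sgB us ⟨d, by omega⟩ = some (opp v) := by simp only [sgB, hd', dite_true]; exact hd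
  rw [h0, h1, h2, h3]; rfl

section Rules

variable {N : Type*} [Fintype N] [DecidableEq N] {G : Subgroup (Matrix N N ℤ)ˣ}

/-- A one-word consequence. -/
lemma Mem.word {n : ℕ} {σ : Fin n → N} (hσ : Function.Injective σ) {st : List (LM × LM)}
    (hc : checkGens n st = true) (hm : ∀ p ∈ st, Mem G (emb σ (toMat n p.1)))
    (w : List (ℕ × Bool)) {M M' : LM}
    (h : checkStep n [] st ⟨none, w, M, M'⟩ = true) : Mem G (emb σ (toMat n M)) := by
  have hst : Good n (fun M => Mem G (emb σ M)) st := checkGens_good hc hm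
  exact (checkStep_good (closed_emb hσ G) (rules := []) (by intro R hR; simp at hR) hst h).2.2.2

/-- conjugation by `pmat e * emb σ T` of an element in the window of `σ`. -/
lemma Mem.conj_local {n : ℕ} {σ : Fin n → N} (hσ : Function.Injective σ) {e : N ≃ N}
    {T T' M : Matrix (Fin n) (Fin n) ℤ} (hT : T * T' = 1)
    (hg : Mem G (pmat e * emb σ T)) (hM : Mem G (emb σ M)) :
    Mem G (emb (e ∘ σ) (T * M * T')) := by
  have h1 : pmat e * emb σ T * (emb σ T' * (pmat e)ᵀ) = 1 := by
    calc pmat e * emb σ T * (emb σ T' * (pmat e)ᵀ)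
        = pmat e * (emb σ T * emb σ T') * (pmat e)ᵀ := by simp only [Matrix.mul_assoc]
      _ = 1 := by rw [← emb_mul hσ, hT, emb_one, Matrix.mul_one, pmat_equiv_mul_transpose]
  have h2 := (hg.mul hM).mul (Mem.inv h1 hg)
  have h3 : pmat e * emb σ T * emb σ M * (emb σ T' * (pmat e)ᵀ) =
      emb (e ∘ σ) (T * M * T') := by
    rw [← conj_pmat_emb, emb_mul hσ, emb_mul hσ]
    simp only [Matrix.mul_assoc]
  rwa [h3] at h2

end Rules

end MP9bf44d
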