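import Pool.Agent.Lib.H68.ListMat

/-! # Straight-line programs for membership, checked by kernel evaluation -/

namespace MP9bf44d

/-- Matrices as lists of rows. -/
abbrev LM := List (List ℤ)

/-- A conjugation rule: conjugation by `T` (with inverse `T'`) preserves membership of matrices
supported on the first `k` coordinates. -/
structure ConjRule where
  k : ℕ
  T : LM
  T' : LM

/-- A step of a straight-line program: `rule = none`: the product of the elements in `word`;
`rule = some t`: the conjugate by rule `t` of the first element in the word.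
`M` is the claimed result, `M'` its inverse. -/
structure Step where
  rule : Option ℕ
  word : List (ℕ × Bool)
  M : LM
  M' : LM

/-- lookup -/
def getM (st : List (LM × LM)) (i : ℕ × Bool) : LM :=
  match st.getD i.1 ([], []) with
  | (a, b) => if i.2 then a else b

/-- evaluate a word -/
def evalW (n : ℕ) (st : List (LM × LM)) : List (ℕ × Bool) → LM
  | [] => oneL n
  | [i] => getM st i
  | i :: is => mulL n (getM st i) (evalW n st is)

/-- row `i` of the identity, starting at column `j`, of given length -/
def isIdRow (i : ℕ) : ℕ → List ℤ → Bool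
  | _, [] => true
  | j, x :: xs => (x == if i = j then 1 else 0) && isIdRow i (j + 1) xs

/-- columns `≥ k` of row `i < k` vanish -/
def zeroFrom (k : ℕ) (r : List ℤ) : Bool := (r.drop k).all (· == 0)

/-- support in the first `k` coordinates -/
def suppAux (k : ℕ) : ℕ → LM → Bool
  | _, [] => true
  | i, r :: rs => (if i < k then zeroFrom k r else isIdRow i 0 r) && suppAux k (i + 1) rs

/-- support in the first `k` coordinates -/
def supp (k : ℕ) (M : LM) : Bool := suppAux k 0 M

/-- checking one step -/
def checkStep (n : ℕ) (rules : List ConjRule) (st : List (LM × LM)) (s : Step) : Bool :=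
  WF n s.M && WF n s.M' && (mulL n s.M s.M' == oneL n) &&
  match s.rule with
  | none => (evalW n st s.word == s.M) && s.word.all (fun i => decide (i.1 < st.length))
  | some t =>
    match rules[t]?, s.word with
    | some R, [i] => decide (i.1 < st.length) && supp R.k (getM st i) &&
        (mulL n (mulL n R.T (getM st i)) R.T' == s.M)
    | _, _ => false

/-- checking a program -/
def check (n : ℕ) (rules : List ConjRule) : List (LM × LM) → List Step → Bool
  | _, [] => true
  | st, s :: rest => checkStep n rules st s && check n rules (st ++ [(s.M, s.M')]) rest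

/-- A predicate on matrices closed under the operations of the checker. -/
structure Closed (n : ℕ) (P : Matrix (Fin n) (Fin n) ℤ → Prop) : Prop where
  one : P 1
  mul : ∀ A B, P A → P B → P (A * B)
  inv : ∀ A B, A * B = 1 → P A → P B

/-- `A` is supported in the first `k` coordinates. -/
def Supp {n : ℕ} (k : ℕ) (A : Matrix (Fin n) (Fin n) ℤ) : Prop :=
  ∀ i j : Fin n, (k ≤ i ∨ k ≤ j) → A i j = if i = j then 1 else 0

lemma isIdRow_spec (i : ℕ) : ∀ (r : List ℤ) (j : ℕ), isIdRow i j r = true →
    ∀ c < r.length, r.getD c 0 = if i = j + c then 1 else 0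
  | [], _, _, c, hc => by simp at hc
  | x :: xs, j, h, c, hc => by
    simp only [isIdRow, Bool.and_eq_true, beq_iff_eq] at h
    cases c with
    | zero => simpa using h.1
    | succ c =>
      have := isIdRow_spec i xs (j + 1) h.2 c (by simpa using hc)
      simpa [add_assoc, add_comm, add_left_comm] using this

lemma suppAux_spec (k : ℕ) : ∀ (A : LM) (i : ℕ), suppAux k i A = true →
    ∀ a < A.length, (i + a < k → zeroFrom k (A.getD a []) = true) ∧
      (¬ i + a < k → isIdRow (i + a) 0 (A.getD a []) = true)
  | [], _, _, a, ha => by simp at ha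
  | r :: rs, i, h, a, ha => by
    simp only [suppAux, Bool.and_eq_true] at h
    cases a with
    | zero =>
      simp only [List.getD_cons_zero, add_zero]
      constructor
      · intro hk; simpa [hk] using h.1
      · intro hk; simpa [hk] using h.1
    | succ a =>
      have := suppAux_spec k rs (i + 1) h.2 a (by simpa using ha)
      simp only [List.getD_cons_succ]
      rw [show i + (a + 1) = i + 1 + a by ring]
      exact this

lemma supp_toMat {n k : ℕ} {A : LM} (hA : WF n A = true) (h : supp k A = true) :
    Supp k (toMat n A) := by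
  rw [WF_iff] at hA
  intro i j hij
  obtain ⟨h1, h2⟩ := suppAux_spec k A 0 h i (by rw [hA.1]; exact i.2)
  have hlen : (A.getD i []).length = n := by
    rw [List.getD_eq_getElem _ _ (by rw [hA.1]; exact i.2)]
    exact hA.2 _ (List.getElem_mem _)
  simp only [zero_add] at h1 h2
  by_cases hik : (i : ℕ) < k
  · have hjk : k ≤ (j : ℕ) := by
      rcases hij with h | h
      · omega
      · exact h
    have h3 := h1 hik
    simp only [zeroFrom, List.all_eq_true, beq_iff_eq] at h3
    have hij' : i ≠ j := by rintro rfl; omega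
    rw [if_neg hij']
    have hj : (j : ℕ) < (A.getD i []).length := by rw [hlen]; exact j.2
    show (A.getD i []).getD j 0 = 0
    rw [List.getD_eq_getElem _ _ hj]
    apply h3
    rw [List.mem_drop_iff_getElem]
    exact ⟨(j : ℕ) - k, by omega, by congr 1; omega⟩
  · have h3 := isIdRow_spec i _ 0 (h2 hik) j (by rw [hlen]; exact j.2)
    show (A.getD i []).getD j 0 = _
    rw [h3]
    simp [Fin.ext_iff]

/-- soundness invariant for states -/
def Good (n : ℕ) (P : Matrix (Fin n) (Fin n) ℤ → Prop) (st : List (LM × LM)) : Prop :=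
  ∀ p ∈ st, WF n p.1 = true ∧ WF n p.2 = true ∧ toMat n p.1 * toMat n p.2 = 1 ∧ P (toMat n p.1)

lemma getM_good {n : ℕ} {P : Matrix (Fin n) (Fin n) ℤ → Prop} (hP : Closed n P)
    {st : List (LM × LM)} (hst : Good n P st) (i : ℕ × Bool) (hi : i.1 < st.length) :
    WF n (getM st i) = true ∧ P (toMat n (getM st i)) := by
  obtain ⟨h1, h2, h3, h4⟩ := hst st[i.1] (List.getElem_mem hi)
  unfold getM
  rw [List.getD_eq_getElem _ _ hi]
  rcases i with ⟨i, b⟩
  cases b
  · exact ⟨h2, hP.inv _ _ h3 h4⟩
  · exact ⟨h1, h4⟩

lemma evalW_good {n : ℕ} {P : Matrix (Fin n) (Fin n) ℤ → Prop} (hP : Closed n P)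
    {st : List (LM × LM)} (hst : Good n P st) : ∀ (w : List (ℕ × Bool)),
    (∀ i ∈ w, i.1 < st.length) → WF n (evalW n st w) = true ∧ P (toMat n (evalW n st w))
  | [], _ => by
    refine ⟨?_, by rw [evalW, oneL_toMat]; exact hP.one⟩
    rw [evalW, WF_iff]
    simp [oneL]
  | [i], h => getM_good hP hst i (h i (by simp))
  | i :: j :: is, h => by
    obtain ⟨h1, h2⟩ := getM_good hP hst i (h i (by simp))
    obtain ⟨h3, h4⟩ := evalW_good hP hst (j :: is) (fun x hx => h x (by simp [hx]))
    rw [evalW]
    · exact ⟨mulL_WF h1 h3, by rw [mulL_toMat h1 h3]; exact hP.mul _ _ h2 h4⟩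
    · simp

/-- Soundness of the conjugation rules. -/
def RulesGood (n : ℕ) (P : Matrix (Fin n) (Fin n) ℤ → Prop) (rules : List ConjRule) : Prop :=
  ∀ R ∈ rules, WF n R.T = true ∧ WF n R.T' = true ∧
    ∀ A, Supp R.k A → P A → P (toMat n R.T * A * toMat n R.T')

lemma checkStep_good {n : ℕ} {P : Matrix (Fin n) (Fin n) ℤ → Prop} (hP : Closed n P)
    {rules : List ConjRule} (hR : RulesGood n P rules)
    {st : List (LM × LM)} (hst : Good n P st) {s : Step} (h : checkStep n rules st s = true) :
    WF n s.M = true ∧ WF n s.M' = true ∧ toMat n s.M * toMat n s.M' = 1 ∧ P (toMat n s.M) := by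
  unfold checkStep at h
  simp only [Bool.and_eq_true, beq_iff_eq] at h
  obtain ⟨⟨⟨h1, h2⟩, h3⟩, h4⟩ := h
  have h5 : toMat n s.M * toMat n s.M' = 1 := by
    rw [← mulL_toMat h1 h2, h3, oneL_toMat]
  refine ⟨h1, h2, h5, ?_⟩
  rcases hs : s.rule with _ | t
  · rw [hs] at h4
    simp only [Bool.and_eq_true, beq_iff_eq, List.all_eq_true, decide_eq_true_eq] at h4
    rw [← h4.1]
    exact (evalW_good hP hst s.word h4.2).2
  · rw [hs] at h4
    rcases hr : rules[t]? with _ | R
    · simp [hr] at h4
    · rcases hw : s.word with _ | ⟨i, _ | ⟨j, w⟩⟩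
      · simp [hr, hw] at h4
      · simp only [hr, hw, Bool.and_eq_true, beq_iff_eq, decide_eq_true_eq] at h4
        obtain ⟨⟨h6, h7⟩, h8⟩ := h4
        obtain ⟨g1, g2⟩ := getM_good hP hst i h6
        obtain ⟨r1, r2, r3⟩ := hR R (List.mem_of_getElem? hr)
        rw [← h8, mulL_toMat (mulL_WF r1 g1) r2, mulL_toMat r1 g1]
        exact r3 _ (supp_toMat g1 h7) g2
      · simp [hr, hw] at h4

theorem check_good {n : ℕ} {P : Matrix (Fin n) (Fin n) ℤ → Prop} (hP : Closed n P)
    {rules : List ConjRule} (hR : RulesGood n P rules) : ∀ (steps : List Step)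
    (st : List (LM × LM)), Good n P st → check n rules st steps = true →
    ∀ s ∈ steps, P (toMat n s.M)
  | [], _, _, _, s, hs => by simp at hs
  | s :: rest, st, hst, h, s', hs' => by
    simp only [check, Bool.and_eq_true] at h
    obtain ⟨h1, h2, h3, h4⟩ := checkStep_good hP hR hst h.1
    rcases List.mem_cons.mp hs' with rfl | hs'
    · exact h4
    · refine check_good hP hR rest _ ?_ h.2 s' hs'
      intro p hp
      rcases List.mem_append.mp hp with hp | hp
      · exact hst p hp
      · rw [List.mem_singleton] at hp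
        subst hp
        exact ⟨h1, h2, h3, h4⟩

theorem check_good' {n : ℕ} {P : Matrix (Fin n) (Fin n) ℤ → Prop} (hP : Closed n P)
    {rules : List ConjRule} (hR : RulesGood n P rules) : ∀ (steps : List Step)
    (st : List (LM × LM)), Good n P st → check n rules st steps = true →
    ∀ s ∈ steps, P (toMat n s.M) ∧ toMat n s.M * toMat n s.M' = 1
  | [], _, _, _, s, hs => by simp at hs
  | s :: rest, st, hst, h, s', hs' => by
    simp only [check, Bool.and_eq_true] at h
    obtain ⟨h1, h2, h3, h4⟩ := checkStep_good hP hR hst h.1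
    rcases List.mem_cons.mp hs' with rfl | hs'
    · exact ⟨h4, h3⟩
    · refine check_good' hP hR rest _ ?_ h.2 s' hs'
      intro p hp
      rcases List.mem_append.mp hp with hp | hp
      · exact hst p hp
      · rw [List.mem_singleton] at hp
        subst hp
        exact ⟨h1, h2, h3, h4⟩

/-- checking that the initial state is well formed and consists of inverse pairs -/
def checkGens (n : ℕ) (st : List (LM × LM)) : Bool :=
  st.all fun p => WF n p.1 && WF n p.2 && (mulL n p.1 p.2 == oneL n)

lemma checkGens_good {n : ℕ} {P : Matrix (Fin n) (Fin n) ℤ → Prop} {st : List (LM × LM)}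
    (h : checkGens n st = true) (hP : ∀ p ∈ st, P (toMat n p.1)) : Good n P st := by
  intro p hp
  simp only [checkGens, List.all_eq_true, Bool.and_eq_true, beq_iff_eq] at h
  obtain ⟨⟨h1, h2⟩, h3⟩ := h p hp
  exact ⟨h1, h2, by rw [← mulL_toMat h1 h2, h3, oneL_toMat], hP p hp⟩

end MP9bf44d
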