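import Pool.Agent.Lib.H68.Emb
import Pool.Agent.Lib.H68.Slp

/-! # Membership predicates -/

namespace MP9bf44d

open Matrix

set_option linter.unusedSectionVars false

variable {N : Type*} [Fintype N] [DecidableEq N]

/-- `M` is (the matrix of) an element of the subgroup `G`. -/
def Mem (G : Subgroup (Matrix N N ℤ)ˣ) (M : Matrix N N ℤ) : Prop :=
  ∃ g ∈ G, (g : Matrix N N ℤ) = M

variable {G : Subgroup (Matrix N N ℤ)ˣ}

lemma Mem.one : Mem G 1 := ⟨1, G.one_mem, rfl⟩

lemma Mem.mul {A B : Matrix N N ℤ} (hA : Mem G A) (hB : Mem G B) : Mem G (A * B) := by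
  obtain ⟨a, ha, rfl⟩ := hA
  obtain ⟨b, hb, rfl⟩ := hB
  exact ⟨a * b, G.mul_mem ha hb, rfl⟩

lemma Mem.inv {A B : Matrix N N ℤ} (hAB : A * B = 1) (hA : Mem G A) : Mem G B := by
  obtain ⟨a, ha, rfl⟩ := hA
  refine ⟨a⁻¹, G.inv_mem ha, ?_⟩
  exact Units.inv_eq_of_mul_eq_one_right hAB

lemma Mem.of_unit {g : (Matrix N N ℤ)ˣ} (hg : g ∈ G) : Mem G (g : Matrix N N ℤ) := ⟨g, hg, rfl⟩

lemma Mem.unit {g : (Matrix N N ℤ)ˣ} (hg : Mem G (g : Matrix N N ℤ)) : g ∈ G := by
  obtain ⟨a, ha, h⟩ := hg
  rwa [Units.ext h] at ha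

lemma Mem.neg {A : Matrix N N ℤ} (h1 : (-1 : (Matrix N N ℤ)ˣ) ∈ G) (hA : Mem G A) :
    Mem G (-A) := by
  have := Mem.mul (Mem.of_unit h1) hA
  simpa using this

/-- The local membership predicate along an embedding is closed. -/
lemma closed_emb {n : ℕ} {σ : Fin n → N} (hσ : Function.Injective σ)
    (G : Subgroup (Matrix N N ℤ)ˣ) : Closed n (fun M => Mem G (emb σ M)) where
  one := by rw [emb_one]; exact Mem.one
  mul A B hA hB := by rw [emb_mul hσ]; exact hA.mul hB
  inv A B hAB hA := by
    refine Mem.inv ?_ hA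
    rw [← emb_mul hσ, hAB, emb_one]

lemma closed_mem {n : ℕ} (G : Subgroup (Matrix (Fin n) (Fin n) ℤ)ˣ) :
    Closed n (fun M => Mem G M) where
  one := Mem.one
  mul _ _ hA hB := hA.mul hB
  inv _ _ hAB hA := Mem.inv hAB hA

/-- some step produces `T` or its inverse -/
def hasTarget (steps : List Step) (T : LM) : Bool := steps.any fun s => s.M == T || s.M' == T

theorem check_target {n : ℕ} {P : Matrix (Fin n) (Fin n) ℤ → Prop} (hP : Closed n P)
    {rules : List ConjRule} (hR : RulesGood n P rules) {steps : List Step}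
    {st : List (LM × LM)} (hst : Good n P st) (hc : check n rules st steps = true)
    {T : LM} (hT : hasTarget steps T = true) : P (toMat n T) := by
  unfold hasTarget at hT
  rw [List.any_eq_true] at hT
  obtain ⟨s, hs, h⟩ := hT
  obtain ⟨h1, h2⟩ := check_good' hP hR steps st hst hc s hs
  simp only [Bool.or_eq_true, beq_iff_eq] at h
  rcases h with h | h
  · rw [← h]; exact h1
  · rw [← h]; exact hP.inv _ _ h2 h1

/-- The matrix `1 + s E_{ab} + t E_{cd}` as a list of rows. -/
def rootL (n a b : ℕ) (s : ℤ) (c d : ℕ) (t : ℤ) : LM :=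
  (List.range n).map fun i => (List.range n).map fun j =>
    (if i = j then 1 else 0) + (if i = a ∧ j = b then s else 0) + (if i = c ∧ j = d then t else 0)

lemma toMat_rootL {n : ℕ} (a b : Fin n) (s : ℤ) (c d : Fin n) (t : ℤ) :
    toMat n (rootL n a b s c d t) = 1 + single a b s + single c d t := by
  ext i j
  simp only [toMat, rootL]
  rw [getD_map_aux _ _ _ (by simp), getD_map_aux _ _ _ (by simp)]
  simp only [List.getElem_range, Matrix.add_apply, Matrix.one_apply, single_apply, Fin.ext_iff]
  congr 1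
  · congr 1
    split_ifs <;> first | rfl | omega
  · split_ifs <;> first | rfl | omega

lemma emb_rootL {n : ℕ} (σ : Fin n → N) (a b : Fin n) (s : ℤ) (c d : Fin n) (t : ℤ) :
    emb σ (toMat n (rootL n a b s c d t)) =
      1 + single (σ a) (σ b) s + single (σ c) (σ d) t := by
  rw [toMat_rootL, add_assoc, emb_one_add, lift_add, lift_single, lift_single, add_assoc]

lemma Supp.eq_emb {n k : ℕ} (hk : k ≤ n) {A : Matrix (Fin n) (Fin n) ℤ} (hA : Supp k A) :
    A = emb (Fin.castLE hk) (A.submatrix (Fin.castLE hk) (Fin.castLE hk)) := by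
  ext i j
  unfold emb lift
  rw [Matrix.add_apply, Matrix.mul_apply]
  simp only [pmat, transpose_apply, Matrix.mul_apply, Matrix.sub_apply, submatrix_apply]
  by_cases hi : (i : ℕ) < k
  · by_cases hj : (j : ℕ) < k
    · rw [Finset.sum_eq_single (⟨j, hj⟩ : Fin k)]
      · rw [Finset.sum_eq_single (⟨i, hi⟩ : Fin k)]
        · have h1 : Fin.castLE hk ⟨i, hi⟩ = i := rfl
          have h2 : Fin.castLE hk ⟨j, hj⟩ = j := rfl
          simp only [h1, h2, Matrix.one_apply, Fin.ext_iff]
          split_ifs <;> ring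
        · intro x _ hx
          have : i ≠ Fin.castLE hk x := by
            intro h; apply hx; ext; simp [h]
          simp [this]
        · simp
      · intro x _ hx
        have : j ≠ Fin.castLE hk x := by
          intro h; apply hx; ext; simp [h]
        simp [this]
      · simp
    · rw [Finset.sum_eq_zero, hA i j (Or.inr (by omega)), Matrix.one_apply]
      · simp
      · intro x _
        have : j ≠ Fin.castLE hk x := by
          intro h; apply hj; rw [h]; simp
        simp [this]
  · rw [Finset.sum_eq_zero, hA i j (Or.inl (by omega)), Matrix.one_apply]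
    · simp
    · intro x _
      rw [Finset.sum_eq_zero]
      · simp
      · intro y _
        have : i ≠ Fin.castLE hk y := by
          intro h; apply hi; rw [h]; simp
        simp [this]

end MP9bf44d
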