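import Pool.Agent.Lib.H68.Term

/-! # Membership of local elements in groups containing all root elements (types B, D) -/

namespace MP9bf44d

open Matrix

set_option linter.unusedSectionVars false

variable {l : ℕ} {G : Subgroup (Matrix (VB l) (VB l) ℤ)ˣ}

/-- code of the opposite vector -/
def xr (x : ℕ) : ℕ := if x % 2 = 0 then x + 1 else x - 1

lemma xr_lt {x r : ℕ} (h : x < 2 * r) : xr x < 2 * r := by unfold xr; split_ifs <;> omega

/-- list form of the root element of the local vectors `x`, `y` -/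
def rl (n x y : ℕ) : LM := rootL n y (xr x) 1 x (xr y) (-1)

/-- vector with a given code -/
def vec {r : ℕ} (us : Fin r → WP l) (x : ℕ) (hx : x < 2 * r) : WP l :=
  if x % 2 = 0 then us ⟨x / 2, by omega⟩ else opp (us ⟨x / 2, by omega⟩)

lemma sg_vec {r : ℕ} (us : Fin r → WP l) (x : ℕ) (hx : x < 2 * r) :
    sg us ⟨x, hx⟩ = some (vec us x hx) := rfl

lemma sg_xr {r : ℕ} (us : Fin r → WP l) (x : ℕ) (hx : x < 2 * r) :
    sg us ⟨xr x, xr_lt hx⟩ = some (opp (vec us x hx)) := by
  simp only [sg, vec, Option.some.injEq, xr]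
  by_cases h : x % 2 = 0
  · have h1 : ¬ (x + 1) % 2 = 0 := by omega
    have h2 : (x + 1) / 2 = x / 2 := by omega
    simp only [h, h1, h2, if_true, if_false]
  · have h1 : (x - 1) % 2 = 0 := by omega
    have h2 : (x - 1) / 2 = x / 2 := by omega
    simp only [h, h1, h2, if_true, if_false, opp_opp]

lemma vec_fst {r : ℕ} (us : Fin r → WP l) (x : ℕ) (hx : x < 2 * r) :
    (vec us x hx).1 = (us ⟨x / 2, by omega⟩).1 := by
  unfold vec
  split_ifs <;> rfl

/-- a root element (`some`) or short root element (`none`) in list form, with its inverse -/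
def gen (n z : ℕ) : ℕ × Option ℕ → LM × LM
  | (x, some y) => (rl n x y, rl n y x)
  | (x, none) => (shortL n z x (xr x) 1, shortL n z x (xr x) (-1))

/-- validity of codes for long roots -/
def okL (r : ℕ) (c : ℕ × Option ℕ) : Bool :=
  match c with
  | (x, some y) => decide (x < 2 * r) && decide (y < 2 * r) && decide (x / 2 ≠ y / 2)
  | (_, none) => false

def okS (r : ℕ) (c : ℕ × Option ℕ) : Bool :=
  match c with
  | (x, some y) => decide (x < 2 * r) && decide (y < 2 * r) && decide (x / 2 ≠ y / 2)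
  | (x, none) => decide (x < 2 * r)

lemma gen_mem_sg {r : ℕ} {us : Fin r → WP l} (hus : Function.Injective fun i => (us i).1)
    (hF : Full G l) {z : ℕ} {c : ℕ × Option ℕ} (hc : okL r c = true) :
    Mem G (emb (sg us) (toMat (2 * r) (gen (2 * r) z c).1)) := by
  rcases c with ⟨x, _ | y⟩
  · simp [okL] at hc
  · simp only [okL, Bool.and_eq_true, decide_eq_true_eq] at hc
    obtain ⟨⟨hx, hy⟩, hxy⟩ := hc
    have h1 := xB_eq_emb us y (xr x) x (xr y) (u := vec us x hx) (v := vec us y hy) hy
      (xr_lt hx) hx (xr_lt hy) (sg_vec us y hy) (sg_xr us x hx) (sg_vec us x hx) (sg_xr us y hy)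
      1 (-1) rfl
    have h2 : (vec us x hx).1 ≠ (vec us y hy).1 := by
      rw [vec_fst, vec_fst]
      intro h
      have := hus h
      simp only [Fin.mk.injEq] at this
      exact hxy this
    exact h1.symm ▸ hF _ _ h2 (Fin.is_lt _) (Fin.is_lt _)

lemma gen_mem_sgB {r : ℕ} {us : Fin r → WP l} (hus : Function.Injective fun i => (us i).1)
    (hF : Full G l) (hS : ∀ u, Mem G (xS u 1)) {c : ℕ × Option ℕ} (hc : okS r c = true) :
    Mem G (emb (sgB us) (toMat (2 * r + 1) (gen (2 * r + 1) (2 * r) c).1)) := by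
  rcases c with ⟨x, _ | y⟩
  · simp only [okS, decide_eq_true_eq] at hc
    have h1 := xS_eq_emb' us x (xr x) (u := vec us x hc) hc (xr_lt hc) (sg_vec us x hc)
      (sg_xr us x hc) 1
    exact h1.symm ▸ hS _
  · simp only [okS, Bool.and_eq_true, decide_eq_true_eq] at hc
    obtain ⟨⟨hx, hy⟩, hxy⟩ := hc
    have h1 := xB_eq_embB us y (xr x) x (xr y) (u := vec us x hx) (v := vec us y hy) hy
      (xr_lt hx) hx (xr_lt hy) (sg_vec us y hy) (sg_xr us x hx) (sg_vec us x hx) (sg_xr us y hy)
      1 (-1) rfl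
    have h2 : (vec us x hx).1 ≠ (vec us y hy).1 := by
      rw [vec_fst, vec_fst]
      intro h
      have := hus h
      simp only [Fin.mk.injEq] at this
      exact hxy this
    exact h1.symm ▸ hF _ _ h2 (Fin.is_lt _) (Fin.is_lt _)

/-- A word in long root elements. -/
theorem mem_word_sg {r : ℕ} {us : Fin r → WP l} (hus : Function.Injective fun i => (us i).1)
    (hF : Full G l) (codes : List (ℕ × Option ℕ)) (w : List (ℕ × Bool)) {M M' : LM}
    (hc : codes.all (okL r) = true)
    (hg : checkGens (2 * r) (codes.map (gen (2 * r) 0)) = true)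
    (h : checkStep (2 * r) [] (codes.map (gen (2 * r) 0)) ⟨none, w, M, M'⟩ = true) :
    Mem G (emb (sg us) (toMat (2 * r) M)) := by
  refine Mem.word (sg_injective hus) hg ?_ w h
  intro p hp
  obtain ⟨c, hc1, rfl⟩ := List.mem_map.mp hp
  rw [List.all_eq_true] at hc
  exact gen_mem_sg hus hF (hc c hc1)

/-- A word in long and short root elements. -/
theorem mem_word_sgB {r : ℕ} {us : Fin r → WP l} (hus : Function.Injective fun i => (us i).1)
    (hF : Full G l) (hS : ∀ u, Mem G (xS u 1)) (codes : List (ℕ × Option ℕ))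
    (w : List (ℕ × Bool)) {M M' : LM}
    (hc : codes.all (okS r) = true)
    (hg : checkGens (2 * r + 1) (codes.map (gen (2 * r + 1) (2 * r))) = true)
    (h : checkStep (2 * r + 1) [] (codes.map (gen (2 * r + 1) (2 * r))) ⟨none, w, M, M'⟩ = true) :
    Mem G (emb (sgB us) (toMat (2 * r + 1) M)) := by
  refine Mem.word (sgB_injective hus) hg ?_ w h
  intro p hp
  obtain ⟨c, hc1, rfl⟩ := List.mem_map.mp hp
  rw [List.all_eq_true] at hc
  exact gen_mem_sgB hus hF hS (hc c hc1)

/-- double swap of planes -/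
def dswL : LM := [[0,0,1,0,0,0,0,0],[0,0,0,1,0,0,0,0],[1,0,0,0,0,0,0,0],[0,1,0,0,0,0,0,0],
  [0,0,0,0,0,0,1,0],[0,0,0,0,0,0,0,1],[0,0,0,0,1,0,0,0],[0,0,0,0,0,1,0,0]]

/-- swap of two planes and `-1` on a third one -/
def swnL : LM := [[0,0,1,0,0,0],[0,0,0,1,0,0],[1,0,0,0,0,0],[0,1,0,0,0,0],[0,0,0,0,-1,0],
  [0,0,0,0,0,-1]]

/-- swap of two planes and `T2` on a third one -/
def swtL : LM := [[0,0,1,0,0,0,0],[0,0,0,1,0,0,0],[1,0,0,0,0,0,0],[0,1,0,0,0,0,0],
  [0,0,0,0,-1,1,2],[0,0,0,0,0,-1,0],[0,0,0,0,0,1,1]]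

theorem mem_dsw (hF : Full G l) {us : Fin 4 → WP l} (hus : Function.Injective fun i => (us i).1) :
    Mem G (emb (sg us) (toMat 8 dswL)) :=
  mem_word_sg (r := 4) hus hF [(0, some 3), (1, some 2), (2, some 4), (3, some 5), (4, some 7),
    (5, some 6)] [(0, true), (1, true), (0, true), (2, false), (3, false), (2, false), (2, false),
    (3, false), (2, false), (4, true), (5, true), (4, true)] (M' := dswL) (by decide +kernel)
    (by decide +kernel) (by decide +kernel)

theorem mem_swn (hF : Full G l) {us : Fin 3 → WP l} (hus : Function.Injective fun i => (us i).1) :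
    Mem G (emb (sg us) (toMat 6 swnL)) :=
  mem_word_sg (r := 3) hus hF [(0, some 3), (1, some 2), (0, some 4), (1, some 5)]
    [(0, false), (1, false), (0, false), (2, false), (3, false), (2, false), (2, false),
    (3, false), (2, false)] (M' := swnL) (by decide +kernel) (by decide +kernel)
    (by decide +kernel)

theorem mem_tau (hF : Full G l) {us : Fin 2 → WP l} (hus : Function.Injective fun i => (us i).1) :
    Mem G (emb (sg us) (toMat 4 tauL)) :=
  mem_word_sg (r := 2) hus hF [(0, some 3), (0, some 2), (1, some 3), (1, some 2)]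
    [(0, true), (1, false), (2, false), (1, false), (0, false), (3, false), (0, false), (0, false)]
    (M' := tauL) (by decide +kernel) (by decide +kernel) (by decide +kernel)

theorem mem_b16 (hF : Full G l) {us : Fin 8 → WP l} (hus : Function.Injective fun i => (us i).1) :
    Mem G (emb (sg us) (toMat 16 b16)) :=
  mem_word_sg (r := 8) hus hF [(1, some 4), (3, some 6), (0, some 4), (1, some 5), (2, some 4),
    (3, some 5), (2, some 6), (3, some 7)] [(0, false), (1, false), (2, false), (3, false),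
    (2, false), (4, false), (5, false), (4, false), (4, false), (5, false), (4, false), (6, false),
    (7, false), (6, false)]
    (M' := b16) (by decide +kernel) (by decide +kernel) (by decide +kernel)

theorem mem_T1 (hF : Full G l) (hS : ∀ u, Mem G (xS u 1)) {us : Fin 1 → WP l}
    (hus : Function.Injective fun i => (us i).1) : Mem G (emb (sgB us) (toMat 3 T1L)) :=
  mem_word_sgB (r := 1) hus hF hS [(1, none), (0, none)] [(0, false), (0, false), (1, false)]
    (M' := T1L) (by decide +kernel) (by decide +kernel) (by decide +kernel)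

theorem mem_swt (hF : Full G l) (hS : ∀ u, Mem G (xS u 1)) {us : Fin 3 → WP l}
    (hus : Function.Injective fun i => (us i).1) : Mem G (emb (sgB us) (toMat 7 swtL)) :=
  mem_word_sgB (r := 3) hus hF hS [(4, none), (0, some 3), (1, some 2), (0, some 4), (1, some 5)]
    [(0, false), (1, false), (2, false), (1, false), (3, false), (4, false), (3, false),
    (3, false), (4, false), (3, false)]
    (M' := swtL) (by decide +kernel) (by decide +kernel) (by decide +kernel)

/-- propagation of short root elements -/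
theorem xS_prop {u v : WP l} (huv : u.1 ≠ v.1) (h1 : Mem G (xB u (opp v) 1))
    (h2 : Mem G (xB (opp u) v 1)) (h3 : Mem G (xS v 1)) : Mem G (xS u 1) := by
  have hσ := sgB_injective (inj2 huv)
  -- indices: u 0, u' 1, v 2, v' 3
  have m1 : Mem G (emb (sgB ![u, v]) (toMat 5 (rl 5 0 3))) := by
    have := xB_eq_embB ![u, v] 3 1 0 2 (u := u) (v := opp v) (by norm_num) (by norm_num)
      (by norm_num) (by norm_num) rfl rfl rfl (by simp [sg]) 1 (-1) rfl
    exact this.symm ▸ h1
  have m2 : Mem G (emb (sgB ![u, v]) (toMat 5 (rl 5 1 2))) := by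
    have := xB_eq_embB ![u, v] 2 0 1 3 (u := opp u) (v := v) (by norm_num) (by norm_num)
      (by norm_num) (by norm_num) rfl (by simp [sg]) rfl rfl 1 (-1) rfl
    exact this.symm ▸ h2
  have m3 : Mem G (emb (sgB ![u, v]) (toMat 5 (shortL 5 4 2 3 1))) := by
    have := xS_eq_emb' ![u, v] 2 3 (u := v) (by norm_num) (by norm_num) rfl rfl 1
    exact this.symm ▸ h3
  have := Mem.word hσ (st := [(rl 5 0 3, rl 5 3 0), (rl 5 1 2, rl 5 2 1),
      (shortL 5 4 2 3 1, shortL 5 4 2 3 (-1))]) (by decide +kernel)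
    (forall_mem3 (p := fun x : LM × LM => Mem G (emb (sgB ![u, v]) (toMat 5 x.1))) m1 m2 m3)
    [(0, true), (1, true), (0, true), (2, false), (0, false), (1, false), (0, false)]
    (M := shortL 5 4 0 1 1) (M' := shortL 5 4 0 1 (-1)) (by decide +kernel)
  have h4 := xS_eq_emb' ![u, v] 0 1 (u := u) (by norm_num) (by norm_num) rfl rfl 1
  exact h4 ▸ this

/-- all short root elements from one -/
theorem xS_all (hl : 2 ≤ l) (hF : Full G l) {u : WP l} (h : Mem G (xS u 1)) :
    ∀ v, Mem G (xS v 1) := by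
  have key : ∀ v w : WP l, v.1 ≠ w.1 → Mem G (xS v 1) → Mem G (xS w 1) := by
    intro v w hvw hv
    exact xS_prop hvw.symm (hF _ _ (by simpa using hvw.symm) (Fin.is_lt _) (Fin.is_lt _))
      (hF _ _ (by simpa using hvw.symm) (Fin.is_lt _) (Fin.is_lt _)) hv
  intro v
  by_cases huv : u.1 = v.1
  · -- another plane
    obtain ⟨i, hi⟩ : ∃ i : Fin l, i ≠ u.1 := by
      by_cases h0 : (u.1 : ℕ) = 0
      · exact ⟨⟨1, by omega⟩, fun h => by have := congrArg Fin.val h; simp only at this; omega⟩
      · exact ⟨⟨0, by omega⟩, fun h => by have := congrArg Fin.val h; simp only at this; omega⟩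
    exact key (i, true) v (by rw [← huv]; exact hi) (key u (i, true) hi.symm h)
  · exact key u v huv h

/-- type B: from the short root elements of one plane to `E(u,v)` -/
theorem xB_of_short {u v : WP l} (huv : u.1 ≠ v.1) (h1 : Mem G (xB u (opp v) 1))
    (h3 : Mem G (xS v 1)) (h4 : Mem G (xS (opp v) 1)) : Mem G (xB u v 1) := by
  have hσ := sgB_injective (inj2 huv)
  have m1 : Mem G (emb (sgB ![u, v]) (toMat 5 (rl 5 0 3))) := by
    have := xB_eq_embB ![u, v] 3 1 0 2 (u := u) (v := opp v) (by norm_num) (by norm_num)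
      (by norm_num) (by norm_num) rfl rfl rfl (by simp [sg]) 1 (-1) rfl
    exact this.symm ▸ h1
  have m3 : Mem G (emb (sgB ![u, v]) (toMat 5 (shortL 5 4 2 3 1))) := by
    have := xS_eq_emb' ![u, v] 2 3 (u := v) (by norm_num) (by norm_num) rfl rfl 1
    exact this.symm ▸ h3
  have m4 : Mem G (emb (sgB ![u, v]) (toMat 5 (shortL 5 4 3 2 1))) := by
    have := xS_eq_emb' ![u, v] 3 2 (u := opp v) (by norm_num) (by norm_num) rfl (by simp [sg]) 1
    exact this.symm ▸ h4
  have := Mem.word hσ (st := [(rl 5 0 3, rl 5 3 0), (shortL 5 4 2 3 1, shortL 5 4 2 3 (-1)),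
      (shortL 5 4 3 2 1, shortL 5 4 3 2 (-1))]) (by decide +kernel)
    (forall_mem3 (p := fun x : LM × LM => Mem G (emb (sgB ![u, v]) (toMat 5 x.1))) m1 m3 m4)
    [(1, true), (2, true), (1, true), (0, false), (1, false), (2, false), (1, false)]
    (M := rl 5 0 2) (M' := rl 5 2 0) (by decide +kernel)
  have h5 := xB_eq_embB ![u, v] 2 1 0 3 (u := u) (v := v) (by norm_num) (by norm_num)
      (by norm_num) (by norm_num) rfl rfl rfl rfl 1 (-1) rfl
  exact h5 ▸ this

end MP9bf44d
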