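import Pool.Agent.Lib.H68.BD3
import Pool.Agent.Lib.H68.NearD

/-! # Use of the near window for types B and D -/

namespace MP9bf44d

open Matrix

set_option linter.unusedSectionVars false

section General

variable {N : Type*} [Fintype N] [DecidableEq N] {G : Subgroup (Matrix N N ℤ)ˣ}

/-- A conjugation rule from a global element `pmat e * Z`. -/
lemma rule_good {n k : ℕ} {σ : Fin n → N} (e : N ≃ N)
    (τ : Fin n ≃ Fin n) (hk : k ≤ n) (hcomm : ∀ i : Fin n, (i : ℕ) < k → e (σ i) = σ (τ i))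
    {Z Z' : Matrix N N ℤ} (hZ : Z * Z' = 1) (hg : Mem G (pmat e * Z))
    (hc : ∀ A : Matrix (Fin k) (Fin k) ℤ, Z * emb (σ ∘ Fin.castLE hk) A =
      emb (σ ∘ Fin.castLE hk) A * Z)
    {A : Matrix (Fin n) (Fin n) ℤ} (hA : Supp k A) (hm : Mem G (emb σ A)) :
    Mem G (emb σ (pmat τ * A * (pmat τ)ᵀ)) := by
  have h1 := hA.eq_emb hk
  set A' := A.submatrix (Fin.castLE hk) (Fin.castLE hk)
  have h2 : emb σ A = emb (σ ∘ Fin.castLE hk) A' := by
    rw [h1, emb_comp]
  have h3 := Mem.conj_PZ (pmat_equiv_mul_transpose e) hZ hg hm (by rw [h2]; exact hc A')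
  have h4 : pmat e * emb σ A * (pmat e)ᵀ = emb σ (pmat τ * A * (pmat τ)ᵀ) := by
    rw [h2, conj_pmat_emb, h1, conj_pmat_emb, emb_comp]
    congr 1
    funext i
    simp only [Function.comp]
    exact hcomm _ (by simp)
  rwa [h4] at h3

end General

variable {l : ℕ} {G : Subgroup (Matrix (VB l) (VB l) ℤ)ˣ}

/-- `Z` commutes with everything supported on the planes `< S`. -/
def FarZ (S : ℕ) (Z : Matrix (VB l) (VB l) ℤ) : Prop :=
  ∀ (m : ℕ) (σ : Fin m → VB l), (∀ i, ∃ u : WP l, σ i = some u ∧ (u.1 : ℕ) < S) →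
    ∀ A : Matrix (Fin m) (Fin m) ℤ, Z * emb σ A = emb σ A * Z

lemma FarZ.one (S : ℕ) : FarZ S (1 : Matrix (VB l) (VB l) ℤ) := by
  intro m σ _ A; rw [Matrix.one_mul, Matrix.mul_one]

lemma FarZ.sg {r S : ℕ} {vs : Fin r → WP l} (h : ∀ i, S ≤ ((vs i).1 : ℕ))
    (T : Matrix (Fin (2 * r)) (Fin (2 * r)) ℤ) : FarZ S (emb (sg vs) T) := by
  intro m σ hσ A
  apply emb_commute
  intro i j hij
  obtain ⟨u, hu, hu2⟩ := hσ j
  rw [hu] at hij
  simp only [MP9bf44d.sg, Option.some.injEq] at hij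
  have := congrArg Prod.fst hij
  split_ifs at this
  · have h2 := h ⟨i / 2, by omega⟩
    rw [this] at h2; omega
  · have h2 := h ⟨i / 2, by omega⟩
    simp only [opp_fst] at this
    rw [this] at h2; omega

lemma FarZ.sgB {r S : ℕ} {vs : Fin r → WP l} (h : ∀ i, S ≤ ((vs i).1 : ℕ))
    (T : Matrix (Fin (2 * r + 1)) (Fin (2 * r + 1)) ℤ) : FarZ S (emb (sgB vs) T) := by
  intro m σ hσ A
  apply emb_commute
  intro i j hij
  obtain ⟨u, hu, hu2⟩ := hσ j
  rw [hu] at hij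
  unfold MP9bf44d.sgB at hij
  split_ifs at hij with h1
  · simp only [MP9bf44d.sg, Option.some.injEq] at hij
    have := congrArg Prod.fst hij
    split_ifs at this
    · have h2 := h ⟨i / 2, by omega⟩
      rw [this] at h2; omega
    · have h2 := h ⟨i / 2, by omega⟩
      simp only [opp_fst] at this
      rw [this] at h2; omega

lemma FarZ.xB {S : ℕ} {Z : Matrix (VB l) (VB l) ℤ} (hZ : FarZ S Z) {u v : WP l}
    (hu : (u.1 : ℕ) < S) (hv : (v.1 : ℕ) < S) (t : ℤ) :
    Z * MP9bf44d.xB u v t = MP9bf44d.xB u v t * Z := by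
  rw [xB_eq]
  apply hZ
  intro i
  refine ⟨_, rfl, ?_⟩
  have h2 : (i : ℕ) / 2 = 0 ∨ (i : ℕ) / 2 = 1 := by have := i.2; omega
  rcases h2 with h2 | h2
  · have : (⟨(i : ℕ) / 2, by omega⟩ : Fin 2) = 0 := Fin.ext h2
    rw [this]
    split_ifs <;> simpa using hu
  · have : (⟨(i : ℕ) / 2, by omega⟩ : Fin 2) = 1 := Fin.ext h2
    rw [this]
    split_ifs <;> simpa using hv

lemma FarZ.moves {π : Equiv.Perm (Fin l)} {S : ℕ} {Z Z' : Matrix (VB l) (VB l) ℤ}
    (hZ : FarZ S Z) (hZZ : Z * Z' = 1) (hg : Mem G (pmat (planeP π) * Z)) : Moves G π S := by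
  intro u v huv hu hv hm
  rw [← conj_plane_xB]
  exact Mem.conj_PZ (pmat_planeP_mul_transpose π) hZZ hg hm (hZ.xB hu hv 1)

/-- the first eight planes -/
def us8 (h : 8 ≤ l) : Fin 8 → WP l := fun i => (⟨i, by omega⟩, true)

lemma us8_inj (h : 8 ≤ l) : Function.Injective fun i => (us8 h i).1 := by
  intro i j hij
  simpa [us8, Fin.ext_iff] using hij

/-- local plane permutation on 16 indices -/
def loc16 (s m : ℕ) (h : s + 2 * m ≤ 8) : Fin 16 ≃ Fin 16 where
  toFun i := ⟨2 * pairFun s m (i / 2) + i % 2, by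
    have := pairFun_lt (i := (i : ℕ) / 2) h (by omega); omega⟩
  invFun i := ⟨2 * pairFun s m (i / 2) + i % 2, by
    have := pairFun_lt (i := (i : ℕ) / 2) h (by omega); omega⟩
  left_inv i := by
    ext
    simp only
    have h1 : (2 * pairFun s m (i / 2) + (i : ℕ) % 2) / 2 = pairFun s m (i / 2) := by omega
    have h2 : (2 * pairFun s m (i / 2) + (i : ℕ) % 2) % 2 = (i : ℕ) % 2 := by omega
    rw [h1, h2, pairFun_invol]; omega
  right_inv i := by
    ext
    simp only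
    have h1 : (2 * pairFun s m (i / 2) + (i : ℕ) % 2) / 2 = pairFun s m (i / 2) := by omega
    have h2 : (2 * pairFun s m (i / 2) + (i : ℕ) % 2) % 2 = (i : ℕ) % 2 := by omega
    rw [h1, h2, pairFun_invol]; omega

/-- the local matrix of `b` -/
def b16 : LM := (gensND.getD 0 ([], [])).1

lemma toMat_loc (s m : ℕ) (h : s + 2 * m ≤ 8) (T : LM)
    (hT : ∀ i j : Fin 16, (T.getD i []).getD j 0 =
      if (i : ℕ) = 2 * pairFun s m (j / 2) + j % 2 then 1 else 0) :
    toMat 16 T = pmat (loc16 s m h) := by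
  ext i j
  simp only [toMat, pmat, hT, Fin.ext_iff]
  rfl

lemma loc16_transpose (s m : ℕ) (h : s + 2 * m ≤ 8) :
    (pmat (loc16 s m h))ᵀ = pmat (loc16 s m h) := by
  have h1 : pmat (loc16 s m h) * pmat (loc16 s m h) = 1 := by
    rw [pmat_comp]
    ext i j
    have : (loc16 s m h ∘ loc16 s m h) j = j := (loc16 s m h).left_inv j
    simp only [pmat, this, Matrix.one_apply]
  have h2 := pmat_equiv_mul_transpose (loc16 s m h)
  calc (pmat (loc16 s m h))ᵀ = (pmat (loc16 s m h) * pmat (loc16 s m h)) *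
        (pmat (loc16 s m h))ᵀ := by rw [h1, Matrix.one_mul]
    _ = pmat (loc16 s m h) := by rw [Matrix.mul_assoc, h2, Matrix.mul_one]

lemma sg_us8 (h8 : 8 ≤ l) (i : Fin 16) : sg (us8 h8) i =
    some (⟨(i : ℕ) / 2, by omega⟩, decide ((i : ℕ) % 2 = 0)) := by
  simp only [sg, us8]
  split_ifs with h
  · simp [h]
  · simp [h]

lemma rule16_good (h8 : 8 ≤ l) {π : Equiv.Perm (Fin l)} {Z Z' : Matrix (VB l) (VB l) ℤ}
    {s m S : ℕ} (hsm : s + 2 * m ≤ 8) (hS : S ≤ 8)
    (hπ : ∀ i : Fin l, (i : ℕ) < S → ((π i : Fin l) : ℕ) = pairFun s m i)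
    (hZ : Z * Z' = 1) (hF : FarZ S Z) (hg : Mem G (pmat (planeP π) * Z)) (R : ConjRule)
    (hk : R.k = 2 * S) (hW : WF 16 R.T = true) (hW' : WF 16 R.T' = true)
    (hT : ∀ i j : Fin 16, (R.T.getD i []).getD j 0 =
      if (i : ℕ) = 2 * pairFun s m (j / 2) + j % 2 then 1 else 0)
    (hT' : ∀ i j : Fin 16, (R.T'.getD i []).getD j 0 =
      if (i : ℕ) = 2 * pairFun s m (j / 2) + j % 2 then 1 else 0) :
    WF 16 R.T = true ∧ WF 16 R.T' = true ∧ ∀ A, Supp R.k A →
      Mem G (emb (sg (us8 h8)) A) → Mem G (emb (sg (us8 h8)) (toMat 16 R.T * A * toMat 16 R.T')) := by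
  refine ⟨hW, hW', ?_⟩
  intro A hA hm
  have e1 := toMat_loc s m hsm R.T hT
  have e2 := toMat_loc s m hsm R.T' hT'
  rw [hk] at hA
  have h2S : 2 * S ≤ 16 := by omega
  have := rule_good (planeP π) (loc16 s m hsm) h2S ?_ hZ hg ?_ hA hm
  · rw [e1, e2]
    rw [loc16_transpose] at this
    exact this
  · intro i hi
    rw [sg_us8, sg_us8, planeP_some]
    congr 1
    have h1 : pairFun s m ((i : ℕ) / 2) < 8 := pairFun_lt hsm (by omega)
    apply Prod.ext
    · apply Fin.ext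
      rw [hπ _ (by simp only; omega)]
      simp only [loc16, Equiv.coe_fn_mk]
      omega
    · simp only [loc16, Equiv.coe_fn_mk]
      congr 1
      simp only [eq_iff_iff]
      omega
  · intro A'
    apply hF
    intro i
    refine ⟨_, sg_us8 h8 _, ?_⟩
    simp only [Fin.val_castLE]; omega

lemma rulesND_eq : rulesND = [rulesND.getD 0 ⟨0, [], []⟩, rulesND.getD 1 ⟨0, [], []⟩] := rfl

/-- Near window: `a` acts plainly on the planes `< 8`, `c` on the planes `< 7`. -/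
theorem near_full2 (h8 : 8 ≤ l) {πa πc : Equiv.Perm (Fin l)} {Za Za' Zc Zc' : Matrix (VB l) (VB l) ℤ}
    (hπa : ∀ i : Fin l, (i : ℕ) < 8 → ((πa i : Fin l) : ℕ) = pairFun 0 4 i)
    (hπc : ∀ i : Fin l, (i : ℕ) < 7 → ((πc i : Fin l) : ℕ) = pairFun 1 3 i)
    (hZa : Za * Za' = 1) (hZc : Zc * Zc' = 1) (hFa : FarZ 8 Za) (hFc : FarZ 7 Zc)
    (ha : Mem G (pmat (planeP πa) * Za)) (hc : Mem G (pmat (planeP πc) * Zc))
    (hb : Mem G (emb (sg (us8 h8)) (toMat 16 b16))) : Full G 2 := by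
  have hσ := sg_injective (us8_inj h8)
  have hP := closed_emb hσ G
  have hst : Good 16 (fun M => Mem G (emb (sg (us8 h8)) M)) gensND := by
    apply checkGens_good checkGensND
    intro p hp
    have : p = gensND.getD 0 ([], []) := by
      simp only [gensND, List.mem_singleton] at hp
      rw [hp]; rfl
    rw [this]; exact hb
  have hR : RulesGood 16 (fun M => Mem G (emb (sg (us8 h8)) M)) rulesND := by
    intro R hR
    rw [rulesND_eq] at hR
    simp only [List.mem_cons, List.not_mem_nil, or_false] at hR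
    rcases hR with hR | hR
    · rw [hR]
      exact rule16_good h8 (s := 0) (m := 4) (S := 8) (by norm_num) (by norm_num) hπa hZa hFa ha
        _ (by decide +kernel) (by decide +kernel) (by decide +kernel) (by decide +kernel)
        (by decide +kernel)
    · rw [hR]
      exact rule16_good h8 (s := 1) (m := 3) (S := 7) (by norm_num) (by norm_num) hπc hZc hFc hc
        _ (by decide +kernel) (by decide +kernel) (by decide +kernel) (by decide +kernel)
        (by decide +kernel)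
  have t1 := check_target hP hR hst checkND targetND_ef
  have t2 := check_target hP hR hst checkND targetND_ee
  have t3 := check_target hP hR hst checkND targetND_ff
  have p0 : (0 : ℕ) < l := by omega
  have p1 : (1 : ℕ) < l := by omega
  have m1 : Mem G (xB ((⟨0, p0⟩, true) : WP l) (⟨1, p1⟩, false) 1) :=
    (xB_eq_emb (us8 h8) 3 1 0 2 (u := (⟨0, p0⟩, true)) (v := (⟨1, p1⟩, false)) (by norm_num)
      (by norm_num) (by norm_num) (by norm_num) rfl rfl rfl rfl 1 (-1) rfl) ▸ t1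
  have m2 : Mem G (xB ((⟨0, p0⟩, true) : WP l) (⟨1, p1⟩, true) 1) :=
    (xB_eq_emb (us8 h8) 2 1 0 3 (u := (⟨0, p0⟩, true)) (v := (⟨1, p1⟩, true)) (by norm_num)
      (by norm_num) (by norm_num) (by norm_num) rfl rfl rfl rfl 1 (-1) rfl) ▸ t2
  have m3 : Mem G (xB ((⟨0, p0⟩, false) : WP l) (⟨1, p1⟩, false) 1) :=
    (xB_eq_emb (us8 h8) 3 0 1 2 (u := (⟨0, p0⟩, false)) (v := (⟨1, p1⟩, false)) (by norm_num)
      (by norm_num) (by norm_num) (by norm_num) rfl rfl rfl rfl 1 (-1) rfl) ▸ t3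
  have hne : (⟨0, p0⟩ : Fin l) ≠ ⟨1, p1⟩ := by simp
  have ea0 : πa ⟨0, p0⟩ = ⟨1, p1⟩ := by
    ext; rw [hπa _ (by simp)]; simp [pairFun]
  have ea1 : πa ⟨1, p1⟩ = ⟨0, p0⟩ := by
    ext; rw [hπa _ (by simp)]; simp [pairFun]
  have m4 : Mem G (xB ((⟨0, p0⟩, false) : WP l) (⟨1, p1⟩, true) 1) := by
    have := hFa.moves hZa ha ((⟨0, p0⟩, true) : WP l) (⟨1, p1⟩, false) hne (by simp) (by simp) m1
    simp only [actW, ea0, ea1] at this
    exact this.xB_symm hne.symm
  have base : ∀ s t : Bool, Mem G (xB ((⟨0, p0⟩, s) : WP l) (⟨1, p1⟩, t) 1) := by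
    intro s t
    cases s <;> cases t
    · exact m3
    · exact m4
    · exact m1
    · exact m2
  rintro ⟨i, s⟩ ⟨j, t⟩ hij hi hj
  simp only at hij hi hj
  have hi' : (i : ℕ) = 0 ∨ (i : ℕ) = 1 := by omega
  have hj' : (j : ℕ) = 0 ∨ (j : ℕ) = 1 := by omega
  rcases hi' with hi' | hi' <;> rcases hj' with hj' | hj'
  · exact absurd (Fin.ext (hi'.trans hj'.symm)) hij
  · have e1 : i = ⟨0, p0⟩ := Fin.ext hi'
    have e2 : j = ⟨1, p1⟩ := Fin.ext hj'
    rw [e1, e2]; exact base s t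
  · have e1 : i = ⟨1, p1⟩ := Fin.ext hi'
    have e2 : j = ⟨0, p0⟩ := Fin.ext hj'
    rw [e1, e2]; exact (base t s).xB_symm hne
  · exact absurd (Fin.ext (hi'.trans hj'.symm)) hij

end MP9bf44d
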