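import Pool.Agent.Lib.H68.FamC
import Pool.Agent.Lib.H68.FamB2

/-! # Small ranks: from certificates to the statement -/

namespace MP9bf44d

open Matrix Set

set_option linter.unusedSectionVars false
set_option linter.unusedSimpArgs false

variable {l : ℕ}

/-- the list of negated identity -/
def negL (n : ℕ) : LM :=
  (List.range n).map fun i => (List.range n).map fun j => if i = j then -1 else 0

lemma negL_toMat (n : ℕ) : toMat n (negL n) = -1 := by
  ext i j
  simp only [toMat, negL]
  rw [getD_map_aux _ _ _ (by simp), getD_map_aux _ _ _ (by simp)]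
  simp only [List.getElem_range, Matrix.neg_apply, Matrix.one_apply, Fin.ext_iff]
  split_ifs <;> rfl

/-- membership of all targets -/
def hasAll (steps : List Step) (T : List LM) : Bool := T.all (hasTarget steps)

/-- target lists -/
def targetsD (l : ℕ) : List LM :=
  (List.range (l - 1)).flatMap (fun i => [rl (2 * l) (2 * i) (2 * (i + 1) + 1),
    rl (2 * l) (2 * i + 1) (2 * (i + 1))]) ++
    [rl (2 * l) (2 * (l - 2)) (2 * (l - 1)), rl (2 * l) (2 * (l - 2) + 1) (2 * (l - 1) + 1)]

def targetsB (l : ℕ) : List LM :=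
  (List.range (l - 1)).flatMap (fun i => [rl (2 * l + 1) (2 * i) (2 * (i + 1) + 1),
    rl (2 * l + 1) (2 * i + 1) (2 * (i + 1))]) ++
    [shortL (2 * l + 1) (2 * l) (2 * (l - 1)) (2 * (l - 1) + 1) 1,
      shortL (2 * l + 1) (2 * l) (2 * (l - 1) + 1) (2 * (l - 1)) 1]

def targetsC (l : ℕ) : List LM :=
  (List.range (l - 1)).flatMap (fun i => [rlC (2 * l) (2 * i) (2 * (i + 1) + 1) 1,
    rlC (2 * l) (2 * (i + 1)) (2 * i + 1) 1]) ++
    [llC (2 * l) (2 * (l - 1)) 1, llC (2 * l) (2 * (l - 1) + 1) 1]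

lemma check_all {n : ℕ} {P : Matrix (Fin n) (Fin n) ℤ → Prop} (hP : Closed n P)
    {steps : List Step} {st : List (LM × LM)} (hst : Good n P st)
    (hc : check n [] st steps = true) {T : List LM} (hT : hasAll steps T = true) :
    ∀ M ∈ T, P (toMat n M) := by
  intro M hM
  unfold hasAll at hT
  rw [List.all_eq_true] at hT
  exact check_target hP (rules := []) (by intro R hR; simp at hR) hst hc (hT M hM)

section D

variable {K L : Type*} [Field K] [CharZero K] [LieRing L] [LieAlgebra K L]
  {H : LieSubalgebra K L} (B : LieAlgebra.Basis (Fin l) H)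

lemma emb_mul_eq {N : Type*} [Fintype N] [DecidableEq N] {n : ℕ} {σ : Fin n → N}
    (hσ : Function.Injective σ) {a b c d : LM}
    (ha : WF n a = true) (hb : WF n b = true) (hc : WF n c = true) (hd : WF n d = true)
    (h : mulL n a b = mulL n c d) : emb σ (toMat n a) * emb σ (toMat n b) =
      emb σ (toMat n c) * emb σ (toMat n d) := by
  rw [← emb_mul hσ, ← emb_mul hσ, ← mulL_toMat ha hb, ← mulL_toMat hc hd, h]

lemma emb_mul_one {N : Type*} [Fintype N] [DecidableEq N] {n : ℕ} {σ : Fin n → N}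
    (hσ : Function.Injective σ) {a b : LM} (ha : WF n a = true) (hb : WF n b = true)
    (h : mulL n a b = oneL n) : emb σ (toMat n a) * emb σ (toMat n b) = 1 := by
  rw [← emb_mul hσ, ← mulL_toMat ha hb, h, oneL_toMat, emb_one]

theorem smallD [LieAlgebra.IsSimple K L] (h4 : 4 ≤ l) (hB : B.A = CartanMatrix.D l)
    (a b c : LM) (steps : List Step)
    (wa : WF (2 * l) a = true) (wb : WF (2 * l) b = true) (wc : WF (2 * l) c = true)
    (haa : mulL (2 * l) a a = oneL (2 * l)) (hbb : mulL (2 * l) b b = oneL (2 * l))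
    (hcc : mulL (2 * l) c c = oneL (2 * l)) (hab : mulL (2 * l) a b = mulL (2 * l) b a)
    (hva : ∀ G : Subgroup (Matrix (VB l) (VB l) ℤ)ˣ, Full G l →
      Mem G (emb (sg (seg l 0 l (by omega))) (toMat (2 * l) a)))
    (hvb : ∀ G : Subgroup (Matrix (VB l) (VB l) ℤ)ˣ, Full G l →
      Mem G (emb (sg (seg l 0 l (by omega))) (toMat (2 * l) b)))
    (hvc : ∀ G : Subgroup (Matrix (VB l) (VB l) ℤ)ˣ, Full G l →
      Mem G (emb (sg (seg l 0 l (by omega))) (toMat (2 * l) c)))
    (hcs : check (2 * l) [] [(a, a), (b, b), (c, c)] steps = true)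
    (ht : hasAll steps (targetsD l) = true) : ThreeInvolutions (Gad B) := by
  have hM : IsModel B.A eD fD (XD (l := l) (by omega)) (YD (by omega)) :=
    hB ▸ isModelD (by omega)
  have hne : Nonempty (Fin l) := ⟨⟨0, by omega⟩⟩
  have hF : Full (Subgroup.closure (range (XD (l := l) (by omega)) ∪
      range (YD (l := l) (by omega)) ∪ {-1})) l :=
    fullD (by omega)
      (fun i => Mem.of_unit (Subgroup.subset_closure (Or.inl (Or.inl (mem_range_self i)))))
      (fun i => Mem.of_unit (Subgroup.subset_closure (Or.inl (Or.inr (mem_range_self i)))))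
  have hσ := sg_injective (seg_inj (l := l) (s := 0) (r := l) (by omega))
  refine three_of_mem B hM (hva _ hF) (hvb _ hF) (hvc _ hF)
    (Or.inl (emb_mul_one hσ wa wa haa)) (Or.inl (emb_mul_one hσ wb wb hbb))
    (Or.inl (emb_mul_one hσ wc wc hcc)) (Or.inl (emb_mul_eq hσ wa wb wb wa hab)) ?_
  intro G hA hB' hC _
  have hst : Good (2 * l) (fun M => Mem G (emb (sg (seg l 0 l (by omega))) M))
      [(a, a), (b, b), (c, c)] := by
    intro p hp
    simp only [List.mem_cons, List.not_mem_nil, or_false] at hp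
    rcases hp with rfl | rfl | rfl
    · exact ⟨wa, wa, by rw [← mulL_toMat wa wa, haa, oneL_toMat], hA⟩
    · exact ⟨wb, wb, by rw [← mulL_toMat wb wb, hbb, oneL_toMat], hB'⟩
    · exact ⟨wc, wc, by rw [← mulL_toMat wc wc, hcc, oneL_toMat], hC⟩
  have key := check_all (closed_emb hσ G) hst hcs ht
  have key2 : ∀ x y : ℕ, ∀ hx : x < 2 * l, ∀ hy : y < 2 * l, rl (2 * l) x y ∈ targetsD l →
      Mem G (xB (vec (seg l 0 l (by omega)) x hx) (vec (seg l 0 l (by omega)) y hy) 1) := by
    intro x y hx hy h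
    have h1 := key _ h
    have h2 := xB_eq_emb (seg l 0 l (by omega)) y (xr x) x (xr y)
      (u := vec (seg l 0 l (by omega)) x hx) (v := vec (seg l 0 l (by omega)) y hy) hy
      (xr_lt hx) hx (xr_lt hy) (sg_vec _ y hy) (sg_xr _ x hx) (sg_vec _ x hx) (sg_xr _ y hy)
      1 (-1) rfl
    exact h2 ▸ h1
  have v0 : ∀ i : ℕ, ∀ hi : i < l, vec (seg l 0 l (by omega)) (2 * i) (by omega) =
      ((⟨i, hi⟩, true) : WP l) := by
    intro i hi
    simp only [vec, seg]
    rw [if_pos (by omega)]
    congr 1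
    ext; simp only; omega
  have v1 : ∀ i : ℕ, ∀ hi : i < l, vec (seg l 0 l (by omega)) (2 * i + 1) (by omega) =
      ((⟨i, hi⟩, false) : WP l) := by
    intro i hi
    simp only [vec, seg]
    rw [if_neg (by omega)]
    simp only [opp, Bool.not_true]
    congr 1
    ext; simp only; omega
  have hG : Full G l := by
    apply full_of_adjacent (by omega)
    · intro i hi
      have m1 : rl (2 * l) (2 * i) (2 * (i + 1) + 1) ∈ targetsD l := by
        simp only [targetsD, List.mem_append, List.mem_flatMap, List.mem_range]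
        left
        exact ⟨i, by omega, by simp⟩
      have m2 : rl (2 * l) (2 * i + 1) (2 * (i + 1)) ∈ targetsD l := by
        simp only [targetsD, List.mem_append, List.mem_flatMap, List.mem_range]
        left
        exact ⟨i, by omega, by simp⟩
      have g1 := key2 _ _ (by omega) (by omega) m1
      have g2 := key2 _ _ (by omega) (by omega) m2
      rw [v0 i (by omega), v1 (i + 1) hi] at g1
      rw [v1 i (by omega), v0 (i + 1) hi] at g2
      exact ⟨g1, g2⟩
    · have m1 : rl (2 * l) (2 * (l - 2)) (2 * (l - 1)) ∈ targetsD l := by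
        simp [targetsD]
      have g1 := key2 _ _ (by omega) (by omega) m1
      rw [v0 (l - 2) (by omega), v0 (l - 1) (by omega)] at g1
      exact g1
    · have m1 : rl (2 * l) (2 * (l - 2) + 1) (2 * (l - 1) + 1) ∈ targetsD l := by
        simp [targetsD]
      have g1 := key2 _ _ (by omega) (by omega) m1
      rw [v1 (l - 2) (by omega), v1 (l - 1) (by omega)] at g1
      exact g1
  exact genD (by omega) hG

theorem smallB [LieAlgebra.IsSimple K L] (h3 : 3 ≤ l) (hB : B.A = CartanMatrix.B l)
    (a b c : LM) (steps : List Step)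
    (wa : WF (2 * l + 1) a = true) (wb : WF (2 * l + 1) b = true) (wc : WF (2 * l + 1) c = true)
    (haa : mulL (2 * l + 1) a a = oneL (2 * l + 1)) (hbb : mulL (2 * l + 1) b b = oneL (2 * l + 1))
    (hcc : mulL (2 * l + 1) c c = oneL (2 * l + 1))
    (hab : mulL (2 * l + 1) a b = mulL (2 * l + 1) b a)
    (hva : ∀ G : Subgroup (Matrix (VB l) (VB l) ℤ)ˣ, Full G l → (∀ u, Mem G (xS u 1)) →
      Mem G (emb (sgB (seg l 0 l (by omega))) (toMat (2 * l + 1) a)))
    (hvb : ∀ G : Subgroup (Matrix (VB l) (VB l) ℤ)ˣ, Full G l → (∀ u, Mem G (xS u 1)) →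
      Mem G (emb (sgB (seg l 0 l (by omega))) (toMat (2 * l + 1) b)))
    (hvc : ∀ G : Subgroup (Matrix (VB l) (VB l) ℤ)ˣ, Full G l → (∀ u, Mem G (xS u 1)) →
      Mem G (emb (sgB (seg l 0 l (by omega))) (toMat (2 * l + 1) c)))
    (hcs : check (2 * l + 1) [] [(a, a), (b, b), (c, c)] steps = true)
    (ht : hasAll steps (targetsB l) = true) : ThreeInvolutions (Gad B) := by
  have hM : IsModel B.A eB fB (XB (l := l)) YB := hB ▸ isModelB
  have hne : Nonempty (Fin l) := ⟨⟨0, by omega⟩⟩
  obtain ⟨hF, hS⟩ : Full (Subgroup.closure (range (XB (l := l)) ∪ range YB ∪ {-1})) l ∧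
      ∀ u, Mem (Subgroup.closure (range (XB (l := l)) ∪ range YB ∪ {-1})) (xS (l := l) u 1) :=
    fullB (by omega)
      (fun i => Mem.of_unit (Subgroup.subset_closure (Or.inl (Or.inl (mem_range_self i)))))
      (fun i => Mem.of_unit (Subgroup.subset_closure (Or.inl (Or.inr (mem_range_self i)))))
  have hσ := sgB_injective (seg_inj (l := l) (s := 0) (r := l) (by omega))
  refine three_of_mem B hM (hva _ hF hS) (hvb _ hF hS) (hvc _ hF hS)
    (Or.inl (emb_mul_one hσ wa wa haa)) (Or.inl (emb_mul_one hσ wb wb hbb))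
    (Or.inl (emb_mul_one hσ wc wc hcc)) (Or.inl (emb_mul_eq hσ wa wb wb wa hab)) ?_
  intro G hA hB' hC _
  have hst : Good (2 * l + 1) (fun M => Mem G (emb (sgB (seg l 0 l (by omega))) M))
      [(a, a), (b, b), (c, c)] := by
    intro p hp
    simp only [List.mem_cons, List.not_mem_nil, or_false] at hp
    rcases hp with rfl | rfl | rfl
    · exact ⟨wa, wa, by rw [← mulL_toMat wa wa, haa, oneL_toMat], hA⟩
    · exact ⟨wb, wb, by rw [← mulL_toMat wb wb, hbb, oneL_toMat], hB'⟩
    · exact ⟨wc, wc, by rw [← mulL_toMat wc wc, hcc, oneL_toMat], hC⟩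
  have key := check_all (closed_emb hσ G) hst hcs ht
  have key2 : ∀ x y : ℕ, ∀ hx : x < 2 * l, ∀ hy : y < 2 * l, rl (2 * l + 1) x y ∈ targetsB l →
      Mem G (xB (vec (seg l 0 l (by omega)) x hx) (vec (seg l 0 l (by omega)) y hy) 1) := by
    intro x y hx hy h
    have h1 := key _ h
    have h2 := xB_eq_embB (seg l 0 l (by omega)) y (xr x) x (xr y)
      (u := vec (seg l 0 l (by omega)) x hx) (v := vec (seg l 0 l (by omega)) y hy) hy
      (xr_lt hx) hx (xr_lt hy) (sg_vec _ y hy) (sg_xr _ x hx) (sg_vec _ x hx) (sg_xr _ y hy)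
      1 (-1) rfl
    exact h2 ▸ h1
  have v0 : ∀ i : ℕ, ∀ hi : i < l, vec (seg l 0 l (by omega)) (2 * i) (by omega) =
      ((⟨i, hi⟩, true) : WP l) := by
    intro i hi
    simp only [vec, seg]
    rw [if_pos (by omega)]
    congr 1
    ext; simp only; omega
  have v1 : ∀ i : ℕ, ∀ hi : i < l, vec (seg l 0 l (by omega)) (2 * i + 1) (by omega) =
      ((⟨i, hi⟩, false) : WP l) := by
    intro i hi
    simp only [vec, seg]
    rw [if_neg (by omega)]
    simp only [opp, Bool.not_true]
    congr 1
    ext; simp only; omega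
  have hA' : ∀ (i : ℕ) (hi : i + 1 < l), Mem G (xB (⟨i, by omega⟩, true) (⟨i + 1, hi⟩, false) 1) ∧
      Mem G (xB (⟨i, by omega⟩, false) (⟨i + 1, hi⟩, true) 1) := by
    intro i hi
    have m1 : rl (2 * l + 1) (2 * i) (2 * (i + 1) + 1) ∈ targetsB l := by
      simp only [targetsB, List.mem_append, List.mem_flatMap, List.mem_range]
      left
      exact ⟨i, by omega, by simp⟩
    have m2 : rl (2 * l + 1) (2 * i + 1) (2 * (i + 1)) ∈ targetsB l := by
      simp only [targetsB, List.mem_append, List.mem_flatMap, List.mem_range]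
      left
      exact ⟨i, by omega, by simp⟩
    have g1 := key2 _ _ (by omega) (by omega) m1
    have g2 := key2 _ _ (by omega) (by omega) m2
    rw [v0 i (by omega), v1 (i + 1) hi] at g1
    rw [v1 i (by omega), v0 (i + 1) hi] at g2
    exact ⟨g1, g2⟩
  have s1 : Mem G (xS ((⟨l - 1, by omega⟩, true) : WP l) 1) := by
    have m1 : shortL (2 * l + 1) (2 * l) (2 * (l - 1)) (2 * (l - 1) + 1) 1 ∈ targetsB l := by
      simp [targetsB]
    have h1 := key _ m1
    have h2 := xS_eq_emb' (seg l 0 l (by omega)) (2 * (l - 1)) (2 * (l - 1) + 1)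
      (u := ((⟨l - 1, by omega⟩, true) : WP l)) (by omega) (by omega)
      (by rw [sg_vec, v0 (l - 1) (by omega)]) (by rw [sg_vec, v1 (l - 1) (by omega)]; rfl) 1
    exact h2 ▸ h1
  have s2 : Mem G (xS ((⟨l - 1, by omega⟩, false) : WP l) 1) := by
    have m1 : shortL (2 * l + 1) (2 * l) (2 * (l - 1) + 1) (2 * (l - 1)) 1 ∈ targetsB l := by
      simp [targetsB]
    have h1 := key _ m1
    have h2 := xS_eq_emb' (seg l 0 l (by omega)) (2 * (l - 1) + 1) (2 * (l - 1))
      (u := ((⟨l - 1, by omega⟩, false) : WP l)) (by omega) (by omega)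
      (by rw [sg_vec, v1 (l - 1) (by omega)]) (by rw [sg_vec, v0 (l - 1) (by omega)]; rfl) 1
    exact h2 ▸ h1
  have h5 : l - 2 + 1 = l - 1 := by omega
  have h6 := hA' (l - 2) (by omega)
  simp only [h5] at h6
  have hne : (⟨l - 2, by omega⟩ : Fin l) ≠ ⟨l - 1, by omega⟩ := by
    intro h; have := congrArg Fin.val h; simp only at this; omega
  have hG : Full G l := by
    apply full_of_adjacent h3 hA'
    · exact xB_of_short (u := (⟨l - 2, by omega⟩, true)) (v := (⟨l - 1, by omega⟩, true)) hne
        h6.1 s1 s2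
    · exact xB_of_short (u := (⟨l - 2, by omega⟩, false)) (v := (⟨l - 1, by omega⟩, false)) hne
        h6.2 s2 s1
  exact genB hG (xS_all (by omega) hG s1)

/-- a list matrix squares to `± 1` -/
def sqOK (n : ℕ) (a : LM) : Bool := mulL n a a == oneL n || mulL n a a == negL n

lemma emb_negOne : emb (sgC (segC l 0 l (by omega)))
    (-1 : Matrix (Fin (2 * l)) (Fin (2 * l)) ℤ) = -1 := by
  rw [emb_neg (segC_inj _) (fun _ => True)]
  · unfold dg
    rw [← diagonal_one, diagonal_neg]
    congr 1
  · intro i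
    simp only [true_iff]
    exact ⟨i, by ext; simp [segC]⟩

lemma sqOK_emb {a : LM} (wa : WF (2 * l) a = true) (h : sqOK (2 * l) a = true) :
    emb (sgC (segC l 0 l (by omega))) (toMat (2 * l) a) *
      emb (sgC (segC l 0 l (by omega))) (toMat (2 * l) a) = 1 ∨
    emb (sgC (segC l 0 l (by omega))) (toMat (2 * l) a) *
      emb (sgC (segC l 0 l (by omega))) (toMat (2 * l) a) = -1 := by
  simp only [sqOK, Bool.or_eq_true, beq_iff_eq] at h
  rw [← emb_mul (sgC_injective (segC_inj _)), ← mulL_toMat wa wa]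
  rcases h with h | h
  · left; rw [h, oneL_toMat, emb_one]
  · right; rw [h, negL_toMat, emb_negOne]

/-- commutation up to sign -/
def commOK (n : ℕ) (a b : LM) : Bool :=
  mulL n a b == mulL n b a || mulL n a b == mulL n (negL n) (mulL n b a)

theorem smallC [LieAlgebra.IsSimple K L] (h2 : 2 ≤ l) (hB : B.A = CartanMatrix.C l)
    (a b c a' b' c' : LM) (steps : List Step)
    (wa : WF (2 * l) a = true) (wb : WF (2 * l) b = true) (wc : WF (2 * l) c = true)
    (haa : sqOK (2 * l) a = true) (hbb : sqOK (2 * l) b = true) (hcc : sqOK (2 * l) c = true)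
    (hab : commOK (2 * l) a b = true)
    (hva : ∀ G : Subgroup (Matrix (WP l) (WP l) ℤ)ˣ, FullC G →
      Mem G (emb (sgC (segC l 0 l (by omega))) (toMat (2 * l) a)))
    (hvb : ∀ G : Subgroup (Matrix (WP l) (WP l) ℤ)ˣ, FullC G →
      Mem G (emb (sgC (segC l 0 l (by omega))) (toMat (2 * l) b)))
    (hvc : ∀ G : Subgroup (Matrix (WP l) (WP l) ℤ)ˣ, FullC G →
      Mem G (emb (sgC (segC l 0 l (by omega))) (toMat (2 * l) c)))
    (hcg : checkGens (2 * l) [(a, a'), (b, b'), (c, c'), (negL (2 * l), negL (2 * l))] = true)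
    (hcs : check (2 * l) [] [(a, a'), (b, b'), (c, c'), (negL (2 * l), negL (2 * l))] steps = true)
    (ht : hasAll steps (targetsC l) = true) : ThreeInvolutions (Gad B) := by
  have hM : IsModel B.A eC fC (XC (l := l)) YC := hB ▸ isModelC
  have hne : Nonempty (Fin l) := ⟨⟨0, by omega⟩⟩
  have hV : FullC (Subgroup.closure (range (XC (l := l)) ∪ range YC ∪ {-1})) :=
    fullC_V (by omega)
      (fun i => Mem.of_unit (Subgroup.subset_closure (Or.inl (Or.inl (mem_range_self i)))))
      (fun i => Mem.of_unit (Subgroup.subset_closure (Or.inl (Or.inr (mem_range_self i)))))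
  have hσ := sgC_injective (segC_inj (l := l) (s := 0) (r := l) (by omega))
  refine three_of_mem B hM (hva _ hV) (hvb _ hV) (hvc _ hV)
    (sqOK_emb wa haa) (sqOK_emb wb hbb) (sqOK_emb wc hcc) ?_ ?_
  · simp only [commOK, Bool.or_eq_true, beq_iff_eq] at hab
    rcases hab with h | h
    · left; exact emb_mul_eq hσ wa wb wb wa h
    · right
      have wn : WF (2 * l) (negL (2 * l)) = true := by
        rw [WF_iff]; simp [negL]
      rw [← emb_mul hσ, ← mulL_toMat wa wb, h, mulL_toMat wn (mulL_WF wb wa), emb_mul hσ,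
        negL_toMat, emb_negOne, mulL_toMat wb wa, emb_mul hσ, neg_one_mul]
  intro G hA hB' hC hn
  have hst : Good (2 * l) (fun M => Mem G (emb (sgC (segC l 0 l (by omega))) M))
      [(a, a'), (b, b'), (c, c'), (negL (2 * l), negL (2 * l))] := by
    apply checkGens_good hcg
    intro p hp
    simp only [List.mem_cons, List.not_mem_nil, or_false] at hp
    rcases hp with rfl | rfl | rfl | rfl
    · exact hA
    · exact hB'
    · exact hC
    · simp only
      rw [negL_toMat, emb_negOne]
      exact hn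
  have key := check_all (closed_emb hσ G) hst hcs ht
  have v0 : ∀ i : ℕ, ∀ hi : i < l, sgC (segC l 0 l (by omega)) ⟨2 * i, by omega⟩ =
      ((⟨i, hi⟩, true) : WP l) := by
    intro i hi
    simp only [sgC, segC, Prod.mk.injEq]
    constructor
    · ext; simp only; omega
    · rw [decide_eq_true_iff]; omega
  have v1 : ∀ i : ℕ, ∀ hi : i < l, sgC (segC l 0 l (by omega)) ⟨2 * i + 1, by omega⟩ =
      ((⟨i, hi⟩, false) : WP l) := by
    intro i hi
    simp only [sgC, segC, Prod.mk.injEq]
    constructor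
    · ext; simp only; omega
    · rw [decide_eq_false_iff_not]; omega
  refine genC_XY (by omega) ?_ ?_ ?_
  · intro i hi
    have m1 : rlC (2 * l) (2 * i) (2 * (i + 1) + 1) 1 ∈ targetsC l := by
      simp only [targetsC, List.mem_append, List.mem_flatMap, List.mem_range]
      left
      exact ⟨i, by omega, by simp⟩
    have m2 : rlC (2 * l) (2 * (i + 1)) (2 * i + 1) 1 ∈ targetsC l := by
      simp only [targetsC, List.mem_append, List.mem_flatMap, List.mem_range]
      left
      exact ⟨i, by omega, by simp⟩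
    have g1 := key _ m1
    have g2 := key _ m2
    rw [xC_eq_emb _ _ _ (by omega) (by omega), v0 i (by omega), v1 (i + 1) hi] at g1
    rw [xC_eq_emb _ _ _ (by omega) (by omega), v0 (i + 1) hi, v1 i (by omega)] at g2
    exact ⟨g1, g2⟩
  · have m1 : llC (2 * l) (2 * (l - 1)) 1 ∈ targetsC l := by simp [targetsC]
    have g1 := key _ m1
    rw [xL_eq_emb _ _ (by omega), v0 (l - 1) (by omega)] at g1
    exact g1
  · have m1 : llC (2 * l) (2 * (l - 1) + 1) 1 ∈ targetsC l := by simp [targetsC]
    have g1 := key _ m1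
    rw [xL_eq_emb _ _ (by omega), v1 (l - 1) (by omega)] at g1
    exact g1

end D

end MP9bf44d
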