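import Pool.Agent.Lib.H68.Small

/-! # Certificate for type B_3 (computer found) -/

namespace MP9bf44d

open Matrix

set_option maxRecDepth 100000

def aB3 : LM := [[-1,0,0,0,0,0,0],[0,-1,0,0,0,0,0],[0,0,0,0,1,0,0],[0,0,0,0,0,1,0],[0,0,1,0,0,0,0],[0,0,0,1,0,0,0],[0,0,0,0,0,0,1]]
def bB3 : LM := [[0,-1,0,0,0,0,0],[-1,0,0,0,0,0,0],[0,0,-1,1,-1,0,2],[0,0,1,-1,0,-1,-2],[0,0,-1,0,-1,1,2],[0,0,0,-1,1,-1,-2],[0,0,-1,1,-1,1,3]]
def cB3 : LM := [[1,0,1,0,0,0,0],[0,1,0,0,0,0,0],[0,0,-1,0,0,0,0],[0,1,0,-1,0,0,0],[0,0,0,0,0,1,0],[0,0,0,0,1,0,0],[0,0,0,0,0,0,-1]]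

def stepsB3 : List Step := [
  ⟨none, [(0, true), (2, true), (1, true), (2, true), (0, true), (2, true), (0, true), (2, true), (1, true), (0, true), (0, true), (2, true), (1, true), (2, true), (0, true), (2, true), (0, true), (2, true), (1, true), (0, true), (0, true), (2, true), (1, true), (2, true), (0, true), (2, true), (0, true), (2, true), (1, true), (0, true)], [[1,0,0,0,0,0,0],[0,1,0,0,-1,0,0],[0,0,1,0,0,0,0],[0,0,0,1,0,0,0],[0,0,0,0,1,0,0],[1,0,0,0,0,1,0],[0,0,0,0,0,0,1]],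
   [[1,0,0,0,0,0,0],[0,1,0,0,1,0,0],[0,0,1,0,0,0,0],[0,0,0,1,0,0,0],[0,0,0,0,1,0,0],[-1,0,0,0,0,1,0],[0,0,0,0,0,0,1]]⟩,
  ⟨none, [(1, true), (2, true), (1, true), (2, true), (1, true), (2, true), (0, true), (2, true), (1, true), (0, true), (1, true), (2, true), (1, true), (2, true), (1, true), (2, true), (0, true), (2, true), (1, true), (0, true), (1, true), (2, true), (1, true), (2, true), (1, true), (2, true), (0, true), (2, true), (1, true), (0, true)], [[1,0,0,0,0,0,0],[0,1,0,1,0,0,0],[-1,0,1,0,0,0,0],[0,0,0,1,0,0,0],[0,0,0,0,1,0,0],[0,0,0,0,0,1,0],[0,0,0,0,0,0,1]],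
   [[1,0,0,0,0,0,0],[0,1,0,-1,0,0,0],[1,0,1,0,0,0,0],[0,0,0,1,0,0,0],[0,0,0,0,1,0,0],[0,0,0,0,0,1,0],[0,0,0,0,0,0,1]]⟩,
  ⟨none, [(1, true), (2, true), (0, true), (2, true), (1, true), (2, true), (1, true), (2, true), (1, true), (0, true), (1, true), (2, true), (0, true), (2, true), (1, true), (2, true), (1, true), (2, true), (1, true), (0, true), (1, true), (2, true), (0, true), (2, true), (1, true), (2, true), (1, true), (2, true), (1, true), (0, true)], [[1,0,0,0,0,0,0],[0,1,0,0,0,1,0],[0,0,1,0,0,0,0],[0,0,0,1,0,0,0],[-1,0,0,0,1,0,0],[0,0,0,0,0,1,0],[0,0,0,0,0,0,1]],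
   [[1,0,0,0,0,0,0],[0,1,0,0,0,-1,0],[0,0,1,0,0,0,0],[0,0,0,1,0,0,0],[1,0,0,0,1,0,0],[0,0,0,0,0,1,0],[0,0,0,0,0,0,1]]⟩,
  ⟨none, [(0, true), (2, true), (0, true), (2, true), (1, true), (2, true), (0, true), (2, true), (0, true), (2, true), (1, true), (0, true), (2, true), (0, true), (0, true), (2, true), (0, true), (2, true), (1, true), (2, true), (0, true), (2, true), (0, true), (2, true), (1, true), (0, true), (2, true), (0, true), (0, true), (2, true), (0, true), (2, true), (1, true), (2, true), (0, true), (2, true), (0, true), (2, true), (1, true), (0, true), (2, true), (0, true)], [[1,0,0,0,0,0,0],[0,1,0,1,0,0,0],[-1,0,1,0,1,0,0],[0,0,0,1,0,0,0],[0,0,0,0,1,0,0],[0,0,0,-1,0,1,0],[0,0,0,0,0,0,1]],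
   [[1,0,0,0,0,0,0],[0,1,0,-1,0,0,0],[1,0,1,0,-1,0,0],[0,0,0,1,0,0,0],[0,0,0,0,1,0,0],[0,0,0,1,0,1,0],[0,0,0,0,0,0,1]]⟩,
  ⟨none, [(5, true), (6, true), (5, false)], [[1,0,0,0,0,0,0],[0,1,0,0,0,0,0],[0,0,1,0,1,0,0],[0,0,0,1,0,0,0],[0,0,0,0,1,0,0],[0,0,0,-1,0,1,0],[0,0,0,0,0,0,1]],
   [[1,0,0,0,0,0,0],[0,1,0,0,0,0,0],[0,0,1,0,-1,0,0],[0,0,0,1,0,0,0],[0,0,0,0,1,0,0],[0,0,0,1,0,1,0],[0,0,0,0,0,0,1]]⟩,
  ⟨none, [(0, true), (2, true), (1, true), (2, true), (0, true), (2, true), (1, true), (2, true), (1, true), (2, true), (1, true), (0, true), (2, true), (0, true), (0, true), (2, true), (1, true), (2, true), (0, true), (2, true), (1, true), (2, true), (1, true), (2, true), (1, true), (0, true), (2, true), (0, true), (0, true), (2, true), (1, true), (2, true), (0, true), (2, true), (1, true), (2, true), (1, true), (2, true), (1, true), (0, true), (2, true),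 (0, true)], [[1,0,0,0,0,0,0],[0,1,-1,0,0,0,0],[0,0,1,0,0,0,0],[1,0,0,1,-1,0,0],[0,0,0,0,1,0,0],[0,0,1,0,0,1,0],[0,0,0,0,0,0,1]],
   [[1,0,0,0,0,0,0],[0,1,1,0,0,0,0],[0,0,1,0,0,0,0],[-1,0,0,1,1,0,0],[0,0,0,0,1,0,0],[0,0,-1,0,0,1,0],[0,0,0,0,0,0,1]]⟩,
  ⟨none, [(5, true), (8, true), (5, false)], [[1,0,0,0,0,0,0],[0,1,0,0,0,0,0],[0,0,1,0,0,0,0],[0,0,0,1,-1,0,0],[0,0,0,0,1,0,0],[0,0,1,0,0,1,0],[0,0,0,0,0,0,1]],
   [[1,0,0,0,0,0,0],[0,1,0,0,0,0,0],[0,0,1,0,0,0,0],[0,0,0,1,1,0,0],[0,0,0,0,1,0,0],[0,0,-1,0,0,1,0],[0,0,0,0,0,0,1]]⟩,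
  ⟨none, [(2, true), (0, true), (2, true), (1, true), (2, true), (0, true), (2, true), (1, true), (2, true), (1, true), (2, true), (1, true), (0, true), (2, true), (0, true), (2, true), (2, true), (0, true), (2, true), (1, true), (2, true), (0, true), (2, true), (1, true), (2, true), (1, true), (2, true), (1, true), (0, true), (2, true), (0, true), (2, true), (2, true), (0, true), (2, true), (1, true), (2, true), (0, true), (2, true), (1, true), (2, true), (1, true), (2, true), (1, true), (0, true), (2, true), (0, true), (2, true)], [[1,0,0,0,0,0,0],[0,1,1,0,0,0,0],[0,0,1,0,0,0,0],[-1,0,0,1,0,1,0],[0,0,-1,0,1,0,0],[0,0,0,0,0,1,0],[0,0,0,0,0,0,1]],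
   [[1,0,0,0,0,0,0],[0,1,-1,0,0,0,0],[0,0,1,0,0,0,0],[1,0,0,1,0,-1,0],[0,0,1,0,1,0,0],[0,0,0,0,0,1,0],[0,0,0,0,0,0,1]]⟩,
  ⟨none, [(3, false), (10, true), (3, true)], [[1,0,0,0,0,0,0],[0,1,0,0,0,0,0],[0,0,1,0,0,0,0],[0,0,0,1,0,1,0],[0,0,-1,0,1,0,0],[0,0,0,0,0,1,0],[0,0,0,0,0,0,1]],
   [[1,0,0,0,0,0,0],[0,1,0,0,0,0,0],[0,0,1,0,0,0,0],[0,0,0,1,0,-1,0],[0,0,1,0,1,0,0],[0,0,0,0,0,1,0],[0,0,0,0,0,0,1]]⟩,
  ⟨none, [(0, true), (2, true), (1, true), (2, true), (1, true), (2, true), (1, true), (2, true), (0, true), (2, true), (1, true), (0, true), (2, true), (0, true), (0, true), (2, true), (1, true), (2, true), (1, true), (2, true), (1, true), (2, true), (0, true), (2, true), (1, true), (0, true), (2, true), (0, true), (0, true), (2, true), (1, true), (2, true), (1, true), (2, true), (1, true), (2, true), (0, true), (2, true), (1, true), (0, true), (2, true),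 (0, true)], [[0,0,0,0,1,0,0],[0,2,0,0,0,1,0],[0,0,1,0,0,0,0],[0,0,0,1,0,0,0],[-1,0,0,0,2,0,0],[0,-1,0,0,0,0,0],[0,0,0,0,0,0,1]],
   [[2,0,0,0,-1,0,0],[0,0,0,0,0,-1,0],[0,0,1,0,0,0,0],[0,0,0,1,0,0,0],[1,0,0,0,0,0,0],[0,1,0,0,0,2,0],[0,0,0,0,0,0,1]]⟩,
  ⟨none, [(5, true), (12, true), (5, false)], [[1,0,0,0,1,0,0],[0,1,0,0,0,0,0],[0,0,1,0,0,0,0],[0,0,0,1,0,0,0],[0,0,0,0,1,0,0],[0,-1,0,0,0,1,0],[0,0,0,0,0,0,1]],
   [[1,0,0,0,-1,0,0],[0,1,0,0,0,0,0],[0,0,1,0,0,0,0],[0,0,0,1,0,0,0],[0,0,0,0,1,0,0],[0,1,0,0,0,1,0],[0,0,0,0,0,0,1]]⟩,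
  ⟨none, [(0, true), (13, true), (0, false)], [[1,0,-1,0,0,0,0],[0,1,0,0,0,0,0],[0,0,1,0,0,0,0],[0,1,0,1,0,0,0],[0,0,0,0,1,0,0],[0,0,0,0,0,1,0],[0,0,0,0,0,0,1]],
   [[1,0,1,0,0,0,0],[0,1,0,0,0,0,0],[0,0,1,0,0,0,0],[0,-1,0,1,0,0,0],[0,0,0,0,1,0,0],[0,0,0,0,0,1,0],[0,0,0,0,0,0,1]]⟩,
  ⟨none, [(2, true), (13, true), (2, false)], [[1,0,0,0,0,1,0],[0,1,0,0,0,0,0],[0,0,1,0,0,0,0],[0,0,0,1,0,0,0],[0,-1,0,0,1,0,0],[0,0,0,0,0,1,0],[0,0,0,0,0,0,1]],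
   [[1,0,0,0,0,-1,0],[0,1,0,0,0,0,0],[0,0,1,0,0,0,0],[0,0,0,1,0,0,0],[0,1,0,0,1,0,0],[0,0,0,0,0,1,0],[0,0,0,0,0,0,1]]⟩,
  ⟨none, [(4, true), (15, true), (4, false), (15, false)], [[1,0,0,0,0,0,0],[0,1,0,0,0,0,0],[0,0,1,0,0,-1,0],[0,0,0,1,0,0,0],[0,0,0,1,1,0,0],[0,0,0,0,0,1,0],[0,0,0,0,0,0,1]],
   [[1,0,0,0,0,0,0],[0,1,0,0,0,0,0],[0,0,1,0,0,1,0],[0,0,0,1,0,0,0],[0,0,0,-1,1,0,0],[0,0,0,0,0,1,0],[0,0,0,0,0,0,1]]⟩,
  ⟨none, [(9, false), (1, true), (7, true), (1, false), (9, true), (7, false), (16, false)], [[1,0,0,0,0,0,0],[0,1,0,0,0,0,0],[0,0,1,-1,0,0,-2],[0,0,0,1,0,0,0],[0,0,0,0,1,0,0],[0,0,0,0,0,1,0],[0,0,0,1,0,0,1]],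
   [[1,0,0,0,0,0,0],[0,1,0,0,0,0,0],[0,0,1,-1,0,0,2],[0,0,0,1,0,0,0],[0,0,0,0,1,0,0],[0,0,0,0,0,1,0],[0,0,0,-1,0,0,1]]⟩,
  ⟨none, [(0, true), (17, true), (0, false)], [[1,0,0,0,0,0,0],[0,1,0,0,0,0,0],[0,0,1,0,0,0,0],[0,0,0,1,0,0,0],[0,0,0,0,1,-1,-2],[0,0,0,0,0,1,0],[0,0,0,0,0,1,1]],
   [[1,0,0,0,0,0,0],[0,1,0,0,0,0,0],[0,0,1,0,0,0,0],[0,0,0,1,0,0,0],[0,0,0,0,1,-1,2],[0,0,0,0,0,1,0],[0,0,0,0,0,-1,1]]⟩,
  ⟨none, [(2, true), (18, true), (2, false)], [[1,0,0,0,0,0,0],[0,1,0,0,0,0,0],[0,0,1,0,0,0,0],[0,0,0,1,0,0,0],[0,0,0,0,1,0,0],[0,0,0,0,-1,1,2],[0,0,0,0,-1,0,1]],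
   [[1,0,0,0,0,0,0],[0,1,0,0,0,0,0],[0,0,1,0,0,0,0],[0,0,0,1,0,0,0],[0,0,0,0,1,0,0],[0,0,0,0,-1,1,-2],[0,0,0,0,1,0,1]]⟩]

theorem chkB3 : check 7 [] [(aB3, aB3), (bB3, bB3), (cB3, cB3)] stepsB3 = true := by decide +kernel

theorem tgtB3 : hasAll stepsB3 (targetsB 3) = true := by decide +kernel

theorem vaB3 (G : Subgroup (Matrix (VB 3) (VB 3) ℤ)ˣ) (hF : Full G 3)
    (hS : ∀ u, Mem G (xS u 1)) :
    Mem G (emb (sgB (seg 3 0 3 (by norm_num))) (toMat 7 aB3)) :=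
  mem_word_sgB (r := 3) (seg_inj _) hF hS [(0, some 2), (1, some 3), (2, some 5), (3, some 4)]
    [(0, false), (1, false), (0, false), (0, false), (1, false), (0, false), (2, true), (3, true), (2, true)] (M' := aB3)
    (by decide +kernel) (by decide +kernel) (by decide +kernel)

theorem vbB3 (G : Subgroup (Matrix (VB 3) (VB 3) ℤ)ˣ) (hF : Full G 3)
    (hS : ∀ u, Mem G (xS u 1)) :
    Mem G (emb (sgB (seg 3 0 3 (by norm_num))) (toMat 7 bB3)) :=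
  mem_word_sgB (r := 3) (seg_inj _) hF hS [(5, none), (2, some 4), (3, some 4), (0, some 2), (1, some 3), (0, some 3), (1, some 2), (3, some 5), (2, none)]
    [(0, true), (1, false), (2, true), (3, false), (4, false), (3, false), (5, false), (6, false), (5, false), (1, false), (7, false), (1, false), (8, true)] (M' := bB3)
    (by decide +kernel) (by decide +kernel) (by decide +kernel)

theorem vcB3 (G : Subgroup (Matrix (VB 3) (VB 3) ℤ)ˣ) (hF : Full G 3)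
    (hS : ∀ u, Mem G (xS u 1)) :
    Mem G (emb (sgB (seg 3 0 3 (by norm_num))) (toMat 7 cB3)) :=
  mem_word_sgB (r := 3) (seg_inj _) hF hS [(2, some 4), (3, some 5), (4, none), (5, none), (0, some 3)]
    [(0, false), (1, false), (0, false), (0, false), (1, false), (0, false), (2, false), (3, false), (2, false), (4, false)] (M' := cB3)
    (by decide +kernel) (by decide +kernel) (by decide +kernel)

theorem resB3 {K L : Type*} [Field K] [CharZero K] [LieRing L] [LieAlgebra K L]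
    {H : LieSubalgebra K L} (B : LieAlgebra.Basis (Fin 3) H) [LieAlgebra.IsSimple K L]
    (hB : B.A = CartanMatrix.B 3) : ThreeInvolutions (Gad B) :=
  smallB B (by norm_num) hB aB3 bB3 cB3 stepsB3 (by decide +kernel)
    (by decide +kernel) (by decide +kernel) (by decide +kernel) (by decide +kernel)
    (by decide +kernel) (by decide +kernel) vaB3 vbB3 vcB3 chkB3 tgtB3

end MP9bf44d
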