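import Pool.Agent.Lib.H68.SmallB3

/-! # Certificate for type B_4 (computer found) -/

namespace MP9bf44d

open Matrix

set_option maxRecDepth 100000

def aB4 : LM := [[0,0,0,0,0,0,0,-1,0],[0,0,0,0,0,0,-1,0,0],[0,0,0,0,-1,0,0,0,0],[0,0,0,0,0,-1,0,0,0],[0,0,-1,0,0,0,0,0,0],[0,0,0,-1,0,0,0,0,0],[0,-1,0,0,0,0,0,0,0],[-1,0,0,0,0,0,0,0,0],[0,0,0,0,0,0,0,0,1]]
def bB4 : LM := [[0,0,0,0,1,0,0,1,0],[0,0,0,0,0,0,1,0,0],[0,0,0,0,-1,0,0,0,0],[0,0,0,0,0,-1,1,0,0],[0,0,-1,0,0,0,0,0,0],[0,1,0,-1,0,0,0,0,0],[0,1,0,0,0,0,0,0,0],[1,0,1,0,0,0,0,0,0],[0,0,0,0,0,0,0,0,1]]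
def cB4 : LM := [[0,0,0,0,0,-1,0,0,0],[0,0,0,0,-1,0,0,0,0],[0,0,1,0,0,0,0,0,0],[0,0,-1,1,0,0,0,0,2],[0,-1,0,0,0,0,0,0,0],[-1,0,0,0,0,0,0,0,0],[0,0,0,0,0,0,0,1,0],[0,0,0,0,0,0,1,0,0],[0,0,1,0,0,0,0,0,-1]]

def stepsB4 : List Step := [
  ⟨none, [(2, true), (1, true), (2, true), (0, true), (2, true), (2, true), (1, true), (2, true), (0, true), (2, true), (2, true), (1, true), (2, true), (0, true), (2, true), (2, true), (1, true), (2, true), (0, true), (2, true)], [[1,0,0,0,0,0,0,0,0],[0,1,0,0,0,0,0,0,0],[0,0,1,0,0,0,0,0,0],[0,0,0,1,0,0,0,1,0],[0,0,0,0,1,0,0,0,0],[0,0,0,0,0,1,0,0,0],[0,0,-1,0,0,0,1,0,0],[0,0,0,0,0,0,0,1,0],[0,0,0,0,0,0,0,0,1]],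
   [[1,0,0,0,0,0,0,0,0],[0,1,0,0,0,0,0,0,0],[0,0,1,0,0,0,0,0,0],[0,0,0,1,0,0,0,-1,0],[0,0,0,0,1,0,0,0,0],[0,0,0,0,0,1,0,0,0],[0,0,1,0,0,0,1,0,0],[0,0,0,0,0,0,0,1,0],[0,0,0,0,0,0,0,0,1]]⟩,
  ⟨none, [(0, true), (2, true), (1, true), (2, true), (0, true), (2, true), (0, true), (0, true), (2, true), (1, true), (2, true), (0, true), (2, true), (0, true), (0, true), (2, true), (1, true), (2, true), (0, true), (2, true), (0, true), (0, true), (2, true), (1, true), (2, true), (0, true), (2, true), (0, true)], [[1,0,0,0,0,0,0,0,0],[0,1,0,0,-1,0,0,0,0],[0,0,1,0,0,0,0,0,0],[0,0,0,1,0,0,0,0,0],[0,0,0,0,1,0,0,0,0],[1,0,0,0,0,1,0,0,0],[0,0,0,0,0,0,1,0,0],[0,0,0,0,0,0,0,1,0],[0,0,0,0,0,0,0,0,1]],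
   [[1,0,0,0,0,0,0,0,0],[0,1,0,0,1,0,0,0,0],[0,0,1,0,0,0,0,0,0],[0,0,0,1,0,0,0,0,0],[0,0,0,0,1,0,0,0,0],[-1,0,0,0,0,1,0,0,0],[0,0,0,0,0,0,1,0,0],[0,0,0,0,0,0,0,1,0],[0,0,0,0,0,0,0,0,1]]⟩,
  ⟨none, [(0, true), (2, true), (0, true), (2, true), (1, true), (2, true), (0, true), (2, true), (0, true), (2, true), (0, true), (0, true), (2, true), (0, true), (2, true), (1, true), (2, true), (0, true), (2, true), (0, true), (2, true), (0, true), (0, true), (2, true), (0, true), (2, true), (1, true), (2, true), (0, true), (2, true), (0, true), (2, true), (0, true), (0, true), (2, true), (0, true), (2, true), (1, true), (2, true), (0, true), (2, true), (0, true), (2, true), (0, true)], [[1,0,0,0,0,0,0,0,0],[0,1,0,0,0,0,0,0,0],[0,0,1,0,0,0,-1,0,0],[0,0,0,1,0,0,0,0,0],[0,0,0,0,1,0,0,0,0],[0,0,0,0,0,1,0,0,0],[0,0,0,0,0,0,1,0,0],[0,0,0,1,0,0,0,1,0],[0,0,0,0,0,0,0,0,1]],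
   [[1,0,0,0,0,0,0,0,0],[0,1,0,0,0,0,0,0,0],[0,0,1,0,0,0,1,0,0],[0,0,0,1,0,0,0,0,0],[0,0,0,0,1,0,0,0,0],[0,0,0,0,0,1,0,0,0],[0,0,0,0,0,0,1,0,0],[0,0,0,-1,0,0,0,1,0],[0,0,0,0,0,0,0,0,1]]⟩,
  ⟨none, [(1, true), (3, true), (1, false), (4, true)], [[1,0,0,0,0,0,0,0,0],[0,1,0,0,0,0,0,0,0],[0,0,1,0,0,0,0,0,0],[0,0,0,1,1,0,0,0,0],[0,0,0,0,1,0,0,0,0],[0,0,-1,0,0,1,0,0,0],[0,0,0,0,0,0,1,0,0],[0,0,0,0,0,0,0,1,0],[0,0,0,0,0,0,0,0,1]],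
   [[1,0,0,0,0,0,0,0,0],[0,1,0,0,0,0,0,0,0],[0,0,1,0,0,0,0,0,0],[0,0,0,1,-1,0,0,0,0],[0,0,0,0,1,0,0,0,0],[0,0,1,0,0,1,0,0,0],[0,0,0,0,0,0,1,0,0],[0,0,0,0,0,0,0,1,0],[0,0,0,0,0,0,0,0,1]]⟩,
  ⟨none, [(2, true), (6, true), (2, false)], [[1,0,1,0,0,0,0,0,0],[0,1,0,0,0,0,0,0,0],[0,0,1,0,0,0,0,0,0],[0,-1,0,1,0,0,0,0,0],[0,0,0,0,1,0,0,0,0],[0,0,0,0,0,1,0,0,0],[0,0,0,0,0,0,1,0,0],[0,0,0,0,0,0,0,1,0],[0,0,0,0,0,0,0,0,1]],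
   [[1,0,-1,0,0,0,0,0,0],[0,1,0,0,0,0,0,0,0],[0,0,1,0,0,0,0,0,0],[0,1,0,1,0,0,0,0,0],[0,0,0,0,1,0,0,0,0],[0,0,0,0,0,1,0,0,0],[0,0,0,0,0,0,1,0,0],[0,0,0,0,0,0,0,1,0],[0,0,0,0,0,0,0,0,1]]⟩,
  ⟨none, [(5, true), (6, true), (5, false), (6, false)], [[1,0,0,0,0,0,0,0,0],[0,1,0,0,0,0,0,0,0],[0,0,1,0,0,0,0,0,0],[0,0,0,1,0,0,0,0,0],[0,0,0,0,1,0,0,0,0],[0,0,0,0,0,1,-1,0,0],[0,0,0,0,0,0,1,0,0],[0,0,0,0,1,0,0,1,0],[0,0,0,0,0,0,0,0,1]],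
   [[1,0,0,0,0,0,0,0,0],[0,1,0,0,0,0,0,0,0],[0,0,1,0,0,0,0,0,0],[0,0,0,1,0,0,0,0,0],[0,0,0,0,1,0,0,0,0],[0,0,0,0,0,1,1,0,0],[0,0,0,0,0,0,1,0,0],[0,0,0,0,-1,0,0,1,0],[0,0,0,0,0,0,0,0,1]]⟩,
  ⟨none, [(5, true), (7, true), (5, false), (7, false)], [[1,0,0,0,0,0,1,0,0],[0,1,0,0,0,0,0,0,0],[0,0,1,0,0,0,0,0,0],[0,0,0,1,0,0,0,0,0],[0,0,0,0,1,0,0,0,0],[0,0,0,0,0,1,0,0,0],[0,0,0,0,0,0,1,0,0],[0,-1,0,0,0,0,0,1,0],[0,0,0,0,0,0,0,0,1]],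
   [[1,0,0,0,0,0,-1,0,0],[0,1,0,0,0,0,0,0,0],[0,0,1,0,0,0,0,0,0],[0,0,0,1,0,0,0,0,0],[0,0,0,0,1,0,0,0,0],[0,0,0,0,0,1,0,0,0],[0,0,0,0,0,0,1,0,0],[0,1,0,0,0,0,0,1,0],[0,0,0,0,0,0,0,0,1]]⟩,
  ⟨none, [(2, true), (8, true), (2, false)], [[1,0,0,0,0,0,0,1,0],[0,1,0,0,0,0,0,0,0],[0,0,1,0,0,0,0,0,0],[0,0,0,1,0,0,0,0,0],[0,0,0,0,1,0,0,0,0],[0,0,0,0,0,1,0,0,0],[0,-1,0,0,0,0,1,0,0],[0,0,0,0,0,0,0,1,0],[0,0,0,0,0,0,0,0,1]],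
   [[1,0,0,0,0,0,0,-1,0],[0,1,0,0,0,0,0,0,0],[0,0,1,0,0,0,0,0,0],[0,0,0,1,0,0,0,0,0],[0,0,0,0,1,0,0,0,0],[0,0,0,0,0,1,0,0,0],[0,1,0,0,0,0,1,0,0],[0,0,0,0,0,0,0,1,0],[0,0,0,0,0,0,0,0,1]]⟩,
  ⟨none, [(2, true), (9, true), (2, false)], [[1,0,0,0,0,0,0,0,0],[0,1,0,0,0,0,0,0,0],[0,0,1,0,0,0,0,0,0],[0,0,0,1,0,0,0,0,0],[0,0,0,0,1,0,0,0,0],[0,0,0,0,0,1,0,-1,0],[0,0,0,0,1,0,1,0,0],[0,0,0,0,0,0,0,1,0],[0,0,0,0,0,0,0,0,1]],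
   [[1,0,0,0,0,0,0,0,0],[0,1,0,0,0,0,0,0,0],[0,0,1,0,0,0,0,0,0],[0,0,0,1,0,0,0,0,0],[0,0,0,0,1,0,0,0,0],[0,0,0,0,0,1,0,1,0],[0,0,0,0,-1,0,1,0,0],[0,0,0,0,0,0,0,1,0],[0,0,0,0,0,0,0,0,1]]⟩,
  ⟨none, [(0, true), (10, true), (0, false)], [[1,0,0,0,0,0,0,0,0],[0,1,0,0,0,0,-1,0,0],[0,0,1,0,0,0,0,0,0],[0,0,0,1,0,0,0,0,0],[0,0,0,0,1,0,0,0,0],[0,0,0,0,0,1,0,0,0],[0,0,0,0,0,0,1,0,0],[1,0,0,0,0,0,0,1,0],[0,0,0,0,0,0,0,0,1]],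
   [[1,0,0,0,0,0,0,0,0],[0,1,0,0,0,0,1,0,0],[0,0,1,0,0,0,0,0,0],[0,0,0,1,0,0,0,0,0],[0,0,0,0,1,0,0,0,0],[0,0,0,0,0,1,0,0,0],[0,0,0,0,0,0,1,0,0],[-1,0,0,0,0,0,0,1,0],[0,0,0,0,0,0,0,0,1]]⟩,
  ⟨none, [(0, true), (11, true), (0, false)], [[1,0,0,0,0,0,0,0,0],[0,1,1,0,0,0,0,0,0],[0,0,1,0,0,0,0,0,0],[-1,0,0,1,0,0,0,0,0],[0,0,0,0,1,0,0,0,0],[0,0,0,0,0,1,0,0,0],[0,0,0,0,0,0,1,0,0],[0,0,0,0,0,0,0,1,0],[0,0,0,0,0,0,0,0,1]],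
   [[1,0,0,0,0,0,0,0,0],[0,1,-1,0,0,0,0,0,0],[0,0,1,0,0,0,0,0,0],[1,0,0,1,0,0,0,0,0],[0,0,0,0,1,0,0,0,0],[0,0,0,0,0,1,0,0,0],[0,0,0,0,0,0,1,0,0],[0,0,0,0,0,0,0,1,0],[0,0,0,0,0,0,0,0,1]]⟩,
  ⟨none, [(10, true), (5, true), (10, false), (5, false)], [[1,0,0,1,0,0,0,0,0],[0,1,0,0,0,0,0,0,0],[0,-1,1,0,0,0,0,0,0],[0,0,0,1,0,0,0,0,0],[0,0,0,0,1,0,0,0,0],[0,0,0,0,0,1,0,0,0],[0,0,0,0,0,0,1,0,0],[0,0,0,0,0,0,0,1,0],[0,0,0,0,0,0,0,0,1]],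
   [[1,0,0,-1,0,0,0,0,0],[0,1,0,0,0,0,0,0,0],[0,1,1,0,0,0,0,0,0],[0,0,0,1,0,0,0,0,0],[0,0,0,0,1,0,0,0,0],[0,0,0,0,0,1,0,0,0],[0,0,0,0,0,0,1,0,0],[0,0,0,0,0,0,0,1,0],[0,0,0,0,0,0,0,0,1]]⟩,
  ⟨none, [(11, true), (5, true), (11, false), (5, false)], [[1,0,0,0,0,0,0,0,0],[0,1,0,0,0,0,0,0,0],[0,0,1,0,1,0,0,0,0],[0,0,0,1,0,0,0,0,0],[0,0,0,0,1,0,0,0,0],[0,0,0,-1,0,1,0,0,0],[0,0,0,0,0,0,1,0,0],[0,0,0,0,0,0,0,1,0],[0,0,0,0,0,0,0,0,1]],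
   [[1,0,0,0,0,0,0,0,0],[0,1,0,0,0,0,0,0,0],[0,0,1,0,-1,0,0,0,0],[0,0,0,1,0,0,0,0,0],[0,0,0,0,1,0,0,0,0],[0,0,0,1,0,1,0,0,0],[0,0,0,0,0,0,1,0,0],[0,0,0,0,0,0,0,1,0],[0,0,0,0,0,0,0,0,1]]⟩,
  ⟨none, [(2, true), (12, true), (2, false)], [[1,0,0,0,0,0,0,0,0],[0,1,0,0,0,0,0,0,0],[0,0,1,0,0,0,0,0,0],[0,0,0,1,0,0,0,0,0],[0,0,0,0,1,0,0,1,0],[0,0,0,0,0,1,0,0,0],[0,0,0,0,0,-1,1,0,0],[0,0,0,0,0,0,0,1,0],[0,0,0,0,0,0,0,0,1]],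
   [[1,0,0,0,0,0,0,0,0],[0,1,0,0,0,0,0,0,0],[0,0,1,0,0,0,0,0,0],[0,0,0,1,0,0,0,0,0],[0,0,0,0,1,0,0,-1,0],[0,0,0,0,0,1,0,0,0],[0,0,0,0,0,1,1,0,0],[0,0,0,0,0,0,0,1,0],[0,0,0,0,0,0,0,0,1]]⟩,
  ⟨none, [(2, true), (13, true), (2, false)], [[1,0,0,0,0,0,0,0,0],[0,1,0,0,0,0,0,0,0],[0,0,1,0,0,0,0,0,0],[0,0,0,1,0,1,0,0,0],[0,0,-1,0,1,0,0,0,0],[0,0,0,0,0,1,0,0,0],[0,0,0,0,0,0,1,0,0],[0,0,0,0,0,0,0,1,0],[0,0,0,0,0,0,0,0,1]],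
   [[1,0,0,0,0,0,0,0,0],[0,1,0,0,0,0,0,0,0],[0,0,1,0,0,0,0,0,0],[0,0,0,1,0,-1,0,0,0],[0,0,1,0,1,0,0,0,0],[0,0,0,0,0,1,0,0,0],[0,0,0,0,0,0,1,0,0],[0,0,0,0,0,0,0,1,0],[0,0,0,0,0,0,0,0,1]]⟩,
  ⟨none, [(0, true), (14, true), (0, false)], [[1,0,0,0,0,0,0,0,0],[0,1,0,0,0,0,0,0,0],[0,0,1,0,0,0,0,0,0],[0,0,0,1,0,0,0,0,0],[0,0,0,0,1,0,-1,0,0],[0,0,0,0,0,1,0,0,0],[0,0,0,0,0,0,1,0,0],[0,0,0,0,0,1,0,1,0],[0,0,0,0,0,0,0,0,1]],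
   [[1,0,0,0,0,0,0,0,0],[0,1,0,0,0,0,0,0,0],[0,0,1,0,0,0,0,0,0],[0,0,0,1,0,0,0,0,0],[0,0,0,0,1,0,1,0,0],[0,0,0,0,0,1,0,0,0],[0,0,0,0,0,0,1,0,0],[0,0,0,0,0,-1,0,1,0],[0,0,0,0,0,0,0,0,1]]⟩,
  ⟨none, [(15, true), (16, true), (15, false), (16, false)], [[1,0,0,0,0,0,0,0,0],[0,1,0,0,0,0,0,0,0],[0,0,1,0,0,0,0,1,0],[0,0,0,1,0,0,0,0,0],[0,0,0,0,1,0,0,0,0],[0,0,0,0,0,1,0,0,0],[0,0,0,-1,0,0,1,0,0],[0,0,0,0,0,0,0,1,0],[0,0,0,0,0,0,0,0,1]],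
   [[1,0,0,0,0,0,0,0,0],[0,1,0,0,0,0,0,0,0],[0,0,1,0,0,0,0,-1,0],[0,0,0,1,0,0,0,0,0],[0,0,0,0,1,0,0,0,0],[0,0,0,0,0,1,0,0,0],[0,0,0,1,0,0,1,0,0],[0,0,0,0,0,0,0,1,0],[0,0,0,0,0,0,0,0,1]]⟩,
  ⟨none, [(0, true), (16, true), (0, false)], [[1,0,0,0,0,0,0,0,0],[0,1,0,-1,0,0,0,0,0],[1,0,1,0,0,0,0,0,0],[0,0,0,1,0,0,0,0,0],[0,0,0,0,1,0,0,0,0],[0,0,0,0,0,1,0,0,0],[0,0,0,0,0,0,1,0,0],[0,0,0,0,0,0,0,1,0],[0,0,0,0,0,0,0,0,1]],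
   [[1,0,0,0,0,0,0,0,0],[0,1,0,1,0,0,0,0,0],[-1,0,1,0,0,0,0,0,0],[0,0,0,1,0,0,0,0,0],[0,0,0,0,1,0,0,0,0],[0,0,0,0,0,1,0,0,0],[0,0,0,0,0,0,1,0,0],[0,0,0,0,0,0,0,1,0],[0,0,0,0,0,0,0,0,1]]⟩,
  ⟨none, [(2, true), (5, true), (2, false), (3, false), (19, true)], [[1,0,0,0,0,0,0,0,0],[0,1,0,0,0,0,0,0,0],[0,0,1,0,0,0,0,0,0],[0,0,0,1,0,0,0,0,0],[0,0,0,0,1,0,0,0,0],[0,0,0,0,0,1,0,0,0],[0,0,0,0,0,0,1,-1,2],[0,0,0,0,0,0,0,1,0],[0,0,0,0,0,0,0,-1,1]],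
   [[1,0,0,0,0,0,0,0,0],[0,1,0,0,0,0,0,0,0],[0,0,1,0,0,0,0,0,0],[0,0,0,1,0,0,0,0,0],[0,0,0,0,1,0,0,0,0],[0,0,0,0,0,1,0,0,0],[0,0,0,0,0,0,1,-1,-2],[0,0,0,0,0,0,0,1,0],[0,0,0,0,0,0,0,1,1]]⟩,
  ⟨none, [(2, true), (15, true), (2, false), (7, true), (14, false)], [[1,-1,0,0,0,0,0,0,2],[0,1,0,0,0,0,0,0,0],[0,0,1,0,0,0,0,0,0],[0,0,0,1,0,0,0,0,0],[0,0,0,0,1,0,0,0,0],[0,0,0,0,0,1,0,0,0],[0,0,0,0,0,0,1,0,0],[0,0,0,0,0,0,0,1,0],[0,-1,0,0,0,0,0,0,1]],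
   [[1,-1,0,0,0,0,0,0,-2],[0,1,0,0,0,0,0,0,0],[0,0,1,0,0,0,0,0,0],[0,0,0,1,0,0,0,0,0],[0,0,0,0,1,0,0,0,0],[0,0,0,0,0,1,0,0,0],[0,0,0,0,0,0,1,0,0],[0,0,0,0,0,0,0,1,0],[0,1,0,0,0,0,0,0,1]]⟩,
  ⟨none, [(0, true), (22, true), (0, false)], [[1,0,0,0,0,0,0,0,0],[0,1,0,0,0,0,0,0,0],[0,0,1,0,0,0,0,0,0],[0,0,0,1,0,0,0,0,0],[0,0,0,0,1,0,0,0,0],[0,0,0,0,0,1,0,0,0],[0,0,0,0,0,0,1,0,0],[0,0,0,0,0,0,-1,1,-2],[0,0,0,0,0,0,1,0,1]],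
   [[1,0,0,0,0,0,0,0,0],[0,1,0,0,0,0,0,0,0],[0,0,1,0,0,0,0,0,0],[0,0,0,1,0,0,0,0,0],[0,0,0,0,1,0,0,0,0],[0,0,0,0,0,1,0,0,0],[0,0,0,0,0,0,1,0,0],[0,0,0,0,0,0,-1,1,2],[0,0,0,0,0,0,-1,0,1]]⟩]

theorem chkB4 : check 9 [] [(aB4, aB4), (bB4, bB4), (cB4, cB4)] stepsB4 = true := by decide +kernel

theorem tgtB4 : hasAll stepsB4 (targetsB 4) = true := by decide +kernel

theorem vaB4 (G : Subgroup (Matrix (VB 4) (VB 4) ℤ)ˣ) (hF : Full G 4)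
    (hS : ∀ u, Mem G (xS u 1)) :
    Mem G (emb (sgB (seg 4 0 4 (by norm_num))) (toMat 9 aB4)) :=
  mem_word_sgB (r := 4) (seg_inj _) hF hS [(0, some 6), (1, some 7), (2, some 5), (3, some 4), (4, some 6), (5, some 7)]
    [(0, false), (1, false), (0, false), (2, false), (3, false), (2, false), (4, false), (5, false), (4, false), (4, false), (5, false), (4, false)] (M' := aB4)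
    (by decide +kernel) (by decide +kernel) (by decide +kernel)

theorem vbB4 (G : Subgroup (Matrix (VB 4) (VB 4) ℤ)ˣ) (hF : Full G 4)
    (hS : ∀ u, Mem G (xS u 1)) :
    Mem G (emb (sgB (seg 4 0 4 (by norm_num))) (toMat 9 bB4)) :=
  mem_word_sgB (r := 4) (seg_inj _) hF hS [(0, some 3), (0, some 6), (1, some 7), (2, some 5), (3, some 4), (4, some 6), (5, some 7)]
    [(0, true), (1, true), (2, true), (1, true), (3, false), (4, false), (3, false), (5, false), (6, false), (5, false), (5, false), (6, false), (5, false), (0, false)] (M' := bB4)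
    (by decide +kernel) (by decide +kernel) (by decide +kernel)

theorem vcB4 (G : Subgroup (Matrix (VB 4) (VB 4) ℤ)ˣ) (hF : Full G 4)
    (hS : ∀ u, Mem G (xS u 1)) :
    Mem G (emb (sgB (seg 4 0 4 (by norm_num))) (toMat 9 cB4)) :=
  mem_word_sgB (r := 4) (seg_inj _) hF hS [(0, some 4), (1, some 5), (4, some 6), (5, some 7), (6, none), (7, none), (3, none)]
    [(0, false), (1, false), (0, false), (2, false), (3, false), (2, false), (2, false), (3, false), (2, false), (4, false), (5, false), (4, false), (6, false)] (M' := cB4)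
    (by decide +kernel) (by decide +kernel) (by decide +kernel)

theorem resB4 {K L : Type*} [Field K] [CharZero K] [LieRing L] [LieAlgebra K L]
    {H : LieSubalgebra K L} (B : LieAlgebra.Basis (Fin 4) H) [LieAlgebra.IsSimple K L]
    (hB : B.A = CartanMatrix.B 4) : ThreeInvolutions (Gad B) :=
  smallB B (by norm_num) hB aB4 bB4 cB4 stepsB4 (by decide +kernel)
    (by decide +kernel) (by decide +kernel) (by decide +kernel) (by decide +kernel)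
    (by decide +kernel) (by decide +kernel) vaB4 vbB4 vcB4 chkB4 tgtB4

end MP9bf44d
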