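import Pool.Agent.Lib.H68.SmallB5

/-! # Certificate for type B_6 (computer found) -/

namespace MP9bf44d

open Matrix

set_option maxRecDepth 100000

def aB6 : LM := [[0,0,0,0,1,0,0,0,0,0,0,0,0],[0,0,0,0,0,1,0,0,0,0,0,0,0],[0,0,0,0,0,0,-1,0,0,0,0,0,0],[0,0,0,0,0,0,0,-1,0,0,0,0,0],[1,0,0,0,0,0,0,0,0,0,0,0,0],[0,1,0,0,0,0,0,0,0,0,0,0,0],[0,0,-1,0,0,0,0,0,0,0,0,0,0],[0,0,0,-1,0,0,0,0,0,0,0,0,0],[0,0,0,0,0,0,0,0,0,1,0,0,0],[0,0,0,0,0,0,0,0,1,0,0,0,0],[0,0,0,0,0,0,0,0,0,0,-1,0,0],[0,0,0,0,0,0,0,0,0,0,0,-1,0],[0,0,0,0,0,0,0,0,0,0,0,0,-1]]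
def bB6 : LM := [[-1,0,0,0,0,0,-1,0,0,0,0,0,0],[0,-1,0,0,0,0,0,0,0,0,0,0,0],[0,0,1,0,0,0,0,0,0,0,0,0,0],[0,0,0,1,0,1,0,0,0,0,0,0,0],[0,0,1,0,-1,0,0,0,0,0,0,0,0],[0,0,0,0,0,-1,0,0,0,0,0,0,0],[0,0,0,0,0,0,1,0,0,0,0,0,0],[0,-1,0,0,0,0,0,1,0,0,0,0,0],[0,0,0,0,0,0,0,0,-1,0,0,0,0],[0,0,0,0,0,0,0,0,0,-1,0,0,0],[0,0,0,0,0,0,0,0,0,0,-1,1,2],[0,0,0,0,0,0,0,0,0,0,0,-1,0],[0,0,0,0,0,0,0,0,0,0,0,1,1]]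
def cB6 : LM := [[0,-1,0,0,0,0,0,0,0,0,0,0,0],[-1,0,0,0,0,0,0,0,0,0,0,0,0],[0,0,0,0,0,0,0,0,0,0,0,1,0],[0,0,0,0,0,0,0,0,0,0,1,0,0],[0,0,0,0,0,-1,0,0,0,0,0,0,0],[0,0,0,0,-1,0,0,0,0,0,0,0,0],[0,0,0,0,0,0,0,0,-1,0,0,0,0],[0,0,0,0,0,0,0,0,0,-1,0,0,0],[0,0,0,0,0,0,-1,0,0,0,0,0,0],[0,0,0,0,0,0,0,-1,0,0,0,0,0],[0,0,0,1,0,0,0,0,0,0,0,0,0],[0,0,1,0,0,0,0,0,0,0,0,0,0],[0,0,0,0,0,0,0,0,0,0,0,0,1]]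

def stepsB6 : List Step := [
  ⟨none, [(2, true), (1, true), (2, true), (0, true), (2, true), (1, true), (2, true), (1, true), (2, true), (1, true), (2, true), (1, true), (0, true), (2, true), (1, true), (2, true), (0, true), (2, true), (1, true), (2, true), (1, true), (2, true), (1, true), (2, true), (1, true), (0, true)], [[1,0,0,0,0,0,0,0,0,0,0,0,0],[0,1,1,0,0,0,0,0,0,0,0,0,0],[0,0,1,0,0,0,0,0,0,0,0,0,0],[-1,0,0,1,0,0,0,0,0,0,0,0,0],[0,0,0,0,1,0,0,0,0,0,0,0,0],[0,0,0,0,0,1,0,0,0,0,0,0,0],[0,0,0,0,0,0,1,0,0,0,0,0,0],[0,0,0,0,0,0,0,1,0,0,0,0,0],[0,0,0,0,0,0,0,0,1,0,0,0,0],[0,0,0,0,0,0,0,0,0,1,0,0,0],[0,0,0,0,0,0,0,0,0,0,1,0,0],[0,0,0,0,0,0,0,0,0,0,0,1,0],[0,0,0,0,0,0,0,0,0,0,0,0,1]],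
   [[1,0,0,0,0,0,0,0,0,0,0,0,0],[0,1,-1,0,0,0,0,0,0,0,0,0,0],[0,0,1,0,0,0,0,0,0,0,0,0,0],[1,0,0,1,0,0,0,0,0,0,0,0,0],[0,0,0,0,1,0,0,0,0,0,0,0,0],[0,0,0,0,0,1,0,0,0,0,0,0,0],[0,0,0,0,0,0,1,0,0,0,0,0,0],[0,0,0,0,0,0,0,1,0,0,0,0,0],[0,0,0,0,0,0,0,0,1,0,0,0,0],[0,0,0,0,0,0,0,0,0,1,0,0,0],[0,0,0,0,0,0,0,0,0,0,1,0,0],[0,0,0,0,0,0,0,0,0,0,0,1,0],[0,0,0,0,0,0,0,0,0,0,0,0,1]]⟩,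
  ⟨none, [(2, true), (0, true), (2, true), (1, true), (2, true), (1, true), (2, true), (1, true), (2, true), (1, true), (0, true), (2, true), (1, true), (2, true), (0, true), (2, true), (1, true), (2, true), (1, true), (2, true), (1, true), (2, true), (1, true), (0, true), (2, true), (1, true)], [[1,0,0,0,0,0,0,0,0,0,0,-1,0],[0,1,0,0,0,0,0,0,0,0,0,0,0],[0,0,1,0,0,0,0,0,0,0,0,0,0],[0,0,0,1,0,0,0,0,0,0,0,0,0],[0,0,0,0,1,0,0,0,0,0,0,0,0],[0,0,0,0,0,1,0,0,0,0,0,0,0],[0,0,0,0,0,0,1,0,0,0,0,0,0],[0,0,0,0,0,0,0,1,0,0,0,0,0],[0,0,0,0,0,0,0,0,1,0,0,0,0],[0,0,0,0,0,0,0,0,0,1,0,0,0],[0,1,0,0,0,0,0,0,0,0,1,0,0],[0,0,0,0,0,0,0,0,0,0,0,1,0],[0,0,0,0,0,0,0,0,0,0,0,0,1]],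
   [[1,0,0,0,0,0,0,0,0,0,0,1,0],[0,1,0,0,0,0,0,0,0,0,0,0,0],[0,0,1,0,0,0,0,0,0,0,0,0,0],[0,0,0,1,0,0,0,0,0,0,0,0,0],[0,0,0,0,1,0,0,0,0,0,0,0,0],[0,0,0,0,0,1,0,0,0,0,0,0,0],[0,0,0,0,0,0,1,0,0,0,0,0,0],[0,0,0,0,0,0,0,1,0,0,0,0,0],[0,0,0,0,0,0,0,0,1,0,0,0,0],[0,0,0,0,0,0,0,0,0,1,0,0,0],[0,-1,0,0,0,0,0,0,0,0,1,0,0],[0,0,0,0,0,0,0,0,0,0,0,1,0],[0,0,0,0,0,0,0,0,0,0,0,0,1]]⟩,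
  ⟨none, [(2, true), (1, true), (2, true), (1, true), (2, true), (1, true), (0, true), (2, true), (1, true), (2, true), (0, true), (2, true), (1, true), (2, true), (1, true), (2, true), (1, true), (2, true), (1, true), (0, true), (2, true), (1, true), (2, true), (0, true), (2, true), (1, true)], [[1,0,0,0,0,0,0,0,0,0,0,0,0],[0,1,0,0,0,0,0,0,0,0,0,0,0],[0,0,1,0,0,0,0,0,0,0,0,0,0],[0,0,0,1,0,0,0,0,0,0,0,0,0],[0,0,0,0,1,0,0,0,-1,0,0,0,0],[0,0,0,0,0,1,0,0,0,0,0,0,0],[0,0,0,0,0,0,1,0,0,0,0,0,0],[0,0,0,0,0,0,0,1,0,0,0,0,0],[0,0,0,0,0,0,0,0,1,0,0,0,0],[0,0,0,0,0,1,0,0,0,1,0,0,0],[0,0,0,0,0,0,0,0,0,0,1,0,0],[0,0,0,0,0,0,0,0,0,0,0,1,0],[0,0,0,0,0,0,0,0,0,0,0,0,1]],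
   [[1,0,0,0,0,0,0,0,0,0,0,0,0],[0,1,0,0,0,0,0,0,0,0,0,0,0],[0,0,1,0,0,0,0,0,0,0,0,0,0],[0,0,0,1,0,0,0,0,0,0,0,0,0],[0,0,0,0,1,0,0,0,1,0,0,0,0],[0,0,0,0,0,1,0,0,0,0,0,0,0],[0,0,0,0,0,0,1,0,0,0,0,0,0],[0,0,0,0,0,0,0,1,0,0,0,0,0],[0,0,0,0,0,0,0,0,1,0,0,0,0],[0,0,0,0,0,-1,0,0,0,1,0,0,0],[0,0,0,0,0,0,0,0,0,0,1,0,0],[0,0,0,0,0,0,0,0,0,0,0,1,0],[0,0,0,0,0,0,0,0,0,0,0,0,1]]⟩,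
  ⟨none, [(0, true), (2, true), (0, true), (2, true), (1, true), (2, true), (1, true), (2, true), (1, true), (2, true), (1, true), (0, true), (2, true), (1, true), (0, true), (0, true), (2, true), (0, true), (2, true), (1, true), (2, true), (1, true), (2, true), (1, true), (2, true), (1, true), (0, true), (2, true), (1, true), (0, true)], [[1,0,0,0,0,0,0,0,0,0,0,0,0],[0,1,0,0,0,0,0,0,0,0,0,0,0],[0,0,1,0,0,0,0,0,0,0,0,0,0],[0,0,0,1,0,0,0,0,0,0,0,0,0],[0,0,0,0,1,0,0,0,0,0,0,1,0],[0,0,0,0,0,1,0,0,0,0,0,0,0],[0,0,0,0,0,0,1,0,0,0,0,0,0],[0,0,0,0,0,0,0,1,0,0,0,0,0],[0,0,0,0,0,0,0,0,1,0,0,0,0],[0,0,0,0,0,0,0,0,0,1,0,0,0],[0,0,0,0,0,-1,0,0,0,0,1,0,0],[0,0,0,0,0,0,0,0,0,0,0,1,0],[0,0,0,0,0,0,0,0,0,0,0,0,1]],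
   [[1,0,0,0,0,0,0,0,0,0,0,0,0],[0,1,0,0,0,0,0,0,0,0,0,0,0],[0,0,1,0,0,0,0,0,0,0,0,0,0],[0,0,0,1,0,0,0,0,0,0,0,0,0],[0,0,0,0,1,0,0,0,0,0,0,-1,0],[0,0,0,0,0,1,0,0,0,0,0,0,0],[0,0,0,0,0,0,1,0,0,0,0,0,0],[0,0,0,0,0,0,0,1,0,0,0,0,0],[0,0,0,0,0,0,0,0,1,0,0,0,0],[0,0,0,0,0,0,0,0,0,1,0,0,0],[0,0,0,0,0,1,0,0,0,0,1,0,0],[0,0,0,0,0,0,0,0,0,0,0,1,0],[0,0,0,0,0,0,0,0,0,0,0,0,1]]⟩,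
  ⟨none, [(0, true), (2, true), (1, true), (2, true), (1, true), (2, true), (1, true), (0, true), (2, true), (1, true), (2, true), (0, true), (2, true), (1, true), (0, true), (0, true), (2, true), (1, true), (2, true), (1, true), (2, true), (1, true), (0, true), (2, true), (1, true), (2, true), (0, true), (2, true), (1, true), (0, true)], [[1,0,0,0,0,0,0,0,0,-1,0,0,0],[0,1,0,0,0,0,0,0,0,0,0,0,0],[0,0,1,0,0,0,0,0,0,0,0,0,0],[0,0,0,1,0,0,0,0,0,0,0,0,0],[0,0,0,0,1,0,0,0,0,0,0,0,0],[0,0,0,0,0,1,0,0,0,0,0,0,0],[0,0,0,0,0,0,1,0,0,0,0,0,0],[0,0,0,0,0,0,0,1,0,0,0,0,0],[0,1,0,0,0,0,0,0,1,0,0,0,0],[0,0,0,0,0,0,0,0,0,1,0,0,0],[0,0,0,0,0,0,0,0,0,0,1,0,0],[0,0,0,0,0,0,0,0,0,0,0,1,0],[0,0,0,0,0,0,0,0,0,0,0,0,1]],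
   [[1,0,0,0,0,0,0,0,0,1,0,0,0],[0,1,0,0,0,0,0,0,0,0,0,0,0],[0,0,1,0,0,0,0,0,0,0,0,0,0],[0,0,0,1,0,0,0,0,0,0,0,0,0],[0,0,0,0,1,0,0,0,0,0,0,0,0],[0,0,0,0,0,1,0,0,0,0,0,0,0],[0,0,0,0,0,0,1,0,0,0,0,0,0],[0,0,0,0,0,0,0,1,0,0,0,0,0],[0,-1,0,0,0,0,0,0,1,0,0,0,0],[0,0,0,0,0,0,0,0,0,1,0,0,0],[0,0,0,0,0,0,0,0,0,0,1,0,0],[0,0,0,0,0,0,0,0,0,0,0,1,0],[0,0,0,0,0,0,0,0,0,0,0,0,1]]⟩,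
  ⟨none, [(2, true), (6, true), (2, false)], [[1,0,0,0,0,0,0,0,0,0,0,0,0],[0,1,0,0,0,0,0,0,0,0,0,0,0],[0,0,1,0,0,0,0,0,0,0,0,0,0],[0,0,0,1,1,0,0,0,0,0,0,0,0],[0,0,0,0,1,0,0,0,0,0,0,0,0],[0,0,-1,0,0,1,0,0,0,0,0,0,0],[0,0,0,0,0,0,1,0,0,0,0,0,0],[0,0,0,0,0,0,0,1,0,0,0,0,0],[0,0,0,0,0,0,0,0,1,0,0,0,0],[0,0,0,0,0,0,0,0,0,1,0,0,0],[0,0,0,0,0,0,0,0,0,0,1,0,0],[0,0,0,0,0,0,0,0,0,0,0,1,0],[0,0,0,0,0,0,0,0,0,0,0,0,1]],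
   [[1,0,0,0,0,0,0,0,0,0,0,0,0],[0,1,0,0,0,0,0,0,0,0,0,0,0],[0,0,1,0,0,0,0,0,0,0,0,0,0],[0,0,0,1,-1,0,0,0,0,0,0,0,0],[0,0,0,0,1,0,0,0,0,0,0,0,0],[0,0,1,0,0,1,0,0,0,0,0,0,0],[0,0,0,0,0,0,1,0,0,0,0,0,0],[0,0,0,0,0,0,0,1,0,0,0,0,0],[0,0,0,0,0,0,0,0,1,0,0,0,0],[0,0,0,0,0,0,0,0,0,1,0,0,0],[0,0,0,0,0,0,0,0,0,0,1,0,0],[0,0,0,0,0,0,0,0,0,0,0,1,0],[0,0,0,0,0,0,0,0,0,0,0,0,1]]⟩,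
  ⟨none, [(2, true), (7, true), (2, false)], [[1,0,0,0,0,0,0,0,0,0,0,0,0],[0,1,0,0,0,0,0,-1,0,0,0,0,0],[0,0,1,0,0,0,0,0,0,0,0,0,0],[0,0,0,1,0,0,0,0,0,0,0,0,0],[0,0,0,0,1,0,0,0,0,0,0,0,0],[0,0,0,0,0,1,0,0,0,0,0,0,0],[1,0,0,0,0,0,1,0,0,0,0,0,0],[0,0,0,0,0,0,0,1,0,0,0,0,0],[0,0,0,0,0,0,0,0,1,0,0,0,0],[0,0,0,0,0,0,0,0,0,1,0,0,0],[0,0,0,0,0,0,0,0,0,0,1,0,0],[0,0,0,0,0,0,0,0,0,0,0,1,0],[0,0,0,0,0,0,0,0,0,0,0,0,1]],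
   [[1,0,0,0,0,0,0,0,0,0,0,0,0],[0,1,0,0,0,0,0,1,0,0,0,0,0],[0,0,1,0,0,0,0,0,0,0,0,0,0],[0,0,0,1,0,0,0,0,0,0,0,0,0],[0,0,0,0,1,0,0,0,0,0,0,0,0],[0,0,0,0,0,1,0,0,0,0,0,0,0],[-1,0,0,0,0,0,1,0,0,0,0,0,0],[0,0,0,0,0,0,0,1,0,0,0,0,0],[0,0,0,0,0,0,0,0,1,0,0,0,0],[0,0,0,0,0,0,0,0,0,1,0,0,0],[0,0,0,0,0,0,0,0,0,0,1,0,0],[0,0,0,0,0,0,0,0,0,0,0,1,0],[0,0,0,0,0,0,0,0,0,0,0,0,1]]⟩,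
  ⟨none, [(3, true), (4, true), (3, false), (4, false)], [[1,0,0,0,0,0,0,0,0,0,0,0,0],[0,1,0,0,0,0,0,0,0,0,0,0,0],[0,0,1,0,0,0,0,0,0,0,0,0,0],[0,0,0,1,0,0,0,0,0,0,0,1,0],[0,0,0,0,1,0,0,0,0,0,0,0,0],[0,0,0,0,0,1,0,0,0,0,0,0,0],[0,0,0,0,0,0,1,0,0,0,0,0,0],[0,0,0,0,0,0,0,1,0,0,0,0,0],[0,0,0,0,0,0,0,0,1,0,0,0,0],[0,0,0,0,0,0,0,0,0,1,0,0,0],[0,0,-1,0,0,0,0,0,0,0,1,0,0],[0,0,0,0,0,0,0,0,0,0,0,1,0],[0,0,0,0,0,0,0,0,0,0,0,0,1]],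
   [[1,0,0,0,0,0,0,0,0,0,0,0,0],[0,1,0,0,0,0,0,0,0,0,0,0,0],[0,0,1,0,0,0,0,0,0,0,0,0,0],[0,0,0,1,0,0,0,0,0,0,0,-1,0],[0,0,0,0,1,0,0,0,0,0,0,0,0],[0,0,0,0,0,1,0,0,0,0,0,0,0],[0,0,0,0,0,0,1,0,0,0,0,0,0],[0,0,0,0,0,0,0,1,0,0,0,0,0],[0,0,0,0,0,0,0,0,1,0,0,0,0],[0,0,0,0,0,0,0,0,0,1,0,0,0],[0,0,1,0,0,0,0,0,0,0,1,0,0],[0,0,0,0,0,0,0,0,0,0,0,1,0],[0,0,0,0,0,0,0,0,0,0,0,0,1]]⟩,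
  ⟨none, [(3, true), (7, true), (3, false), (7, false)], [[1,0,0,0,0,0,0,0,0,0,0,0,0],[0,1,0,0,0,0,0,0,0,0,0,0,0],[0,0,1,0,0,0,0,0,0,0,0,0,0],[0,0,0,1,0,0,0,0,0,1,0,0,0],[0,0,0,0,1,0,0,0,0,0,0,0,0],[0,0,0,0,0,1,0,0,0,0,0,0,0],[0,0,0,0,0,0,1,0,0,0,0,0,0],[0,0,0,0,0,0,0,1,0,0,0,0,0],[0,0,-1,0,0,0,0,0,1,0,0,0,0],[0,0,0,0,0,0,0,0,0,1,0,0,0],[0,0,0,0,0,0,0,0,0,0,1,0,0],[0,0,0,0,0,0,0,0,0,0,0,1,0],[0,0,0,0,0,0,0,0,0,0,0,0,1]],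
   [[1,0,0,0,0,0,0,0,0,0,0,0,0],[0,1,0,0,0,0,0,0,0,0,0,0,0],[0,0,1,0,0,0,0,0,0,0,0,0,0],[0,0,0,1,0,0,0,0,0,-1,0,0,0],[0,0,0,0,1,0,0,0,0,0,0,0,0],[0,0,0,0,0,1,0,0,0,0,0,0,0],[0,0,0,0,0,0,1,0,0,0,0,0,0],[0,0,0,0,0,0,0,1,0,0,0,0,0],[0,0,1,0,0,0,0,0,1,0,0,0,0],[0,0,0,0,0,0,0,0,0,1,0,0,0],[0,0,0,0,0,0,0,0,0,0,1,0,0],[0,0,0,0,0,0,0,0,0,0,0,1,0],[0,0,0,0,0,0,0,0,0,0,0,0,1]]⟩,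
  ⟨none, [(4, true), (9, true), (4, false), (9, false)], [[1,0,0,0,0,0,0,0,0,0,0,0,0],[0,1,0,0,0,0,0,0,0,0,0,0,0],[0,0,1,0,0,0,0,0,0,0,0,0,0],[0,0,0,1,0,0,0,0,0,0,0,0,0],[0,0,0,0,1,0,0,0,0,0,0,0,0],[0,0,0,0,0,1,0,0,0,0,0,0,0],[0,0,0,0,0,0,1,0,0,0,0,1,0],[0,0,0,0,0,0,0,1,0,0,0,0,0],[0,0,0,0,0,0,0,0,1,0,0,0,0],[0,0,0,0,0,0,0,0,0,1,0,0,0],[0,0,0,0,0,0,0,-1,0,0,1,0,0],[0,0,0,0,0,0,0,0,0,0,0,1,0],[0,0,0,0,0,0,0,0,0,0,0,0,1]],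
   [[1,0,0,0,0,0,0,0,0,0,0,0,0],[0,1,0,0,0,0,0,0,0,0,0,0,0],[0,0,1,0,0,0,0,0,0,0,0,0,0],[0,0,0,1,0,0,0,0,0,0,0,0,0],[0,0,0,0,1,0,0,0,0,0,0,0,0],[0,0,0,0,0,1,0,0,0,0,0,0,0],[0,0,0,0,0,0,1,0,0,0,0,-1,0],[0,0,0,0,0,0,0,1,0,0,0,0,0],[0,0,0,0,0,0,0,0,1,0,0,0,0],[0,0,0,0,0,0,0,0,0,1,0,0,0],[0,0,0,0,0,0,0,1,0,0,1,0,0],[0,0,0,0,0,0,0,0,0,0,0,1,0],[0,0,0,0,0,0,0,0,0,0,0,0,1]]⟩,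
  ⟨none, [(5, true), (7, true), (5, false), (7, false)], [[1,0,0,0,0,1,0,0,0,0,0,0,0],[0,1,0,0,0,0,0,0,0,0,0,0,0],[0,0,1,0,0,0,0,0,0,0,0,0,0],[0,0,0,1,0,0,0,0,0,0,0,0,0],[0,-1,0,0,1,0,0,0,0,0,0,0,0],[0,0,0,0,0,1,0,0,0,0,0,0,0],[0,0,0,0,0,0,1,0,0,0,0,0,0],[0,0,0,0,0,0,0,1,0,0,0,0,0],[0,0,0,0,0,0,0,0,1,0,0,0,0],[0,0,0,0,0,0,0,0,0,1,0,0,0],[0,0,0,0,0,0,0,0,0,0,1,0,0],[0,0,0,0,0,0,0,0,0,0,0,1,0],[0,0,0,0,0,0,0,0,0,0,0,0,1]],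
   [[1,0,0,0,0,-1,0,0,0,0,0,0,0],[0,1,0,0,0,0,0,0,0,0,0,0,0],[0,0,1,0,0,0,0,0,0,0,0,0,0],[0,0,0,1,0,0,0,0,0,0,0,0,0],[0,1,0,0,1,0,0,0,0,0,0,0,0],[0,0,0,0,0,1,0,0,0,0,0,0,0],[0,0,0,0,0,0,1,0,0,0,0,0,0],[0,0,0,0,0,0,0,1,0,0,0,0,0],[0,0,0,0,0,0,0,0,1,0,0,0,0],[0,0,0,0,0,0,0,0,0,1,0,0,0],[0,0,0,0,0,0,0,0,0,0,1,0,0],[0,0,0,0,0,0,0,0,0,0,0,1,0],[0,0,0,0,0,0,0,0,0,0,0,0,1]]⟩,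
  ⟨none, [(5, true), (8, true), (5, false), (8, false)], [[1,0,0,0,0,0,0,0,0,0,0,0,0],[0,1,0,0,0,0,0,0,0,0,0,0,0],[0,0,1,0,0,0,0,0,0,0,0,0,0],[0,0,0,1,0,0,0,0,1,0,0,0,0],[0,0,0,0,1,0,0,0,0,0,0,0,0],[0,0,0,0,0,1,0,0,0,0,0,0,0],[0,0,0,0,0,0,1,0,0,0,0,0,0],[0,0,0,0,0,0,0,1,0,0,0,0,0],[0,0,0,0,0,0,0,0,1,0,0,0,0],[0,0,-1,0,0,0,0,0,0,1,0,0,0],[0,0,0,0,0,0,0,0,0,0,1,0,0],[0,0,0,0,0,0,0,0,0,0,0,1,0],[0,0,0,0,0,0,0,0,0,0,0,0,1]],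
   [[1,0,0,0,0,0,0,0,0,0,0,0,0],[0,1,0,0,0,0,0,0,0,0,0,0,0],[0,0,1,0,0,0,0,0,0,0,0,0,0],[0,0,0,1,0,0,0,0,-1,0,0,0,0],[0,0,0,0,1,0,0,0,0,0,0,0,0],[0,0,0,0,0,1,0,0,0,0,0,0,0],[0,0,0,0,0,0,1,0,0,0,0,0,0],[0,0,0,0,0,0,0,1,0,0,0,0,0],[0,0,0,0,0,0,0,0,1,0,0,0,0],[0,0,1,0,0,0,0,0,0,1,0,0,0],[0,0,0,0,0,0,0,0,0,0,1,0,0],[0,0,0,0,0,0,0,0,0,0,0,1,0],[0,0,0,0,0,0,0,0,0,0,0,0,1]]⟩,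
  ⟨none, [(7, true), (9, true), (7, false), (9, false)], [[1,0,0,0,0,0,0,0,0,0,0,0,0],[0,1,0,0,0,0,0,0,0,0,0,0,0],[0,0,1,0,0,0,0,0,0,0,0,0,0],[0,0,0,1,0,0,0,0,0,0,0,0,0],[0,0,0,0,1,0,0,0,0,0,0,0,0],[0,0,0,0,0,1,0,0,0,0,0,0,0],[0,0,0,0,0,0,1,0,0,1,0,0,0],[0,0,0,0,0,0,0,1,0,0,0,0,0],[0,0,0,0,0,0,0,-1,1,0,0,0,0],[0,0,0,0,0,0,0,0,0,1,0,0,0],[0,0,0,0,0,0,0,0,0,0,1,0,0],[0,0,0,0,0,0,0,0,0,0,0,1,0],[0,0,0,0,0,0,0,0,0,0,0,0,1]],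
   [[1,0,0,0,0,0,0,0,0,0,0,0,0],[0,1,0,0,0,0,0,0,0,0,0,0,0],[0,0,1,0,0,0,0,0,0,0,0,0,0],[0,0,0,1,0,0,0,0,0,0,0,0,0],[0,0,0,0,1,0,0,0,0,0,0,0,0],[0,0,0,0,0,1,0,0,0,0,0,0,0],[0,0,0,0,0,0,1,0,0,-1,0,0,0],[0,0,0,0,0,0,0,1,0,0,0,0,0],[0,0,0,0,0,0,0,1,1,0,0,0,0],[0,0,0,0,0,0,0,0,0,1,0,0,0],[0,0,0,0,0,0,0,0,0,0,1,0,0],[0,0,0,0,0,0,0,0,0,0,0,1,0],[0,0,0,0,0,0,0,0,0,0,0,0,1]]⟩,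
  ⟨none, [(0, true), (8, true), (0, false)], [[1,0,0,0,0,0,0,0,0,0,0,0,0],[0,1,0,0,0,0,1,0,0,0,0,0,0],[0,0,1,0,0,0,0,0,0,0,0,0,0],[0,0,0,1,0,0,0,0,0,0,0,0,0],[0,0,0,0,1,0,0,0,0,0,0,0,0],[0,0,0,0,0,1,0,0,0,0,0,0,0],[0,0,0,0,0,0,1,0,0,0,0,0,0],[-1,0,0,0,0,0,0,1,0,0,0,0,0],[0,0,0,0,0,0,0,0,1,0,0,0,0],[0,0,0,0,0,0,0,0,0,1,0,0,0],[0,0,0,0,0,0,0,0,0,0,1,0,0],[0,0,0,0,0,0,0,0,0,0,0,1,0],[0,0,0,0,0,0,0,0,0,0,0,0,1]],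
   [[1,0,0,0,0,0,0,0,0,0,0,0,0],[0,1,0,0,0,0,-1,0,0,0,0,0,0],[0,0,1,0,0,0,0,0,0,0,0,0,0],[0,0,0,1,0,0,0,0,0,0,0,0,0],[0,0,0,0,1,0,0,0,0,0,0,0,0],[0,0,0,0,0,1,0,0,0,0,0,0,0],[0,0,0,0,0,0,1,0,0,0,0,0,0],[1,0,0,0,0,0,0,1,0,0,0,0,0],[0,0,0,0,0,0,0,0,1,0,0,0,0],[0,0,0,0,0,0,0,0,0,1,0,0,0],[0,0,0,0,0,0,0,0,0,0,1,0,0],[0,0,0,0,0,0,0,0,0,0,0,1,0],[0,0,0,0,0,0,0,0,0,0,0,0,1]]⟩,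
  ⟨none, [(0, true), (9, true), (0, false)], [[1,0,0,0,0,0,0,0,0,0,0,0,0],[0,1,0,0,0,0,0,0,0,0,0,0,0],[0,0,1,0,-1,0,0,0,0,0,0,0,0],[0,0,0,1,0,0,0,0,0,0,0,0,0],[0,0,0,0,1,0,0,0,0,0,0,0,0],[0,0,0,1,0,1,0,0,0,0,0,0,0],[0,0,0,0,0,0,1,0,0,0,0,0,0],[0,0,0,0,0,0,0,1,0,0,0,0,0],[0,0,0,0,0,0,0,0,1,0,0,0,0],[0,0,0,0,0,0,0,0,0,1,0,0,0],[0,0,0,0,0,0,0,0,0,0,1,0,0],[0,0,0,0,0,0,0,0,0,0,0,1,0],[0,0,0,0,0,0,0,0,0,0,0,0,1]],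
   [[1,0,0,0,0,0,0,0,0,0,0,0,0],[0,1,0,0,0,0,0,0,0,0,0,0,0],[0,0,1,0,1,0,0,0,0,0,0,0,0],[0,0,0,1,0,0,0,0,0,0,0,0,0],[0,0,0,0,1,0,0,0,0,0,0,0,0],[0,0,0,-1,0,1,0,0,0,0,0,0,0],[0,0,0,0,0,0,1,0,0,0,0,0,0],[0,0,0,0,0,0,0,1,0,0,0,0,0],[0,0,0,0,0,0,0,0,1,0,0,0,0],[0,0,0,0,0,0,0,0,0,1,0,0,0],[0,0,0,0,0,0,0,0,0,0,1,0,0],[0,0,0,0,0,0,0,0,0,0,0,1,0],[0,0,0,0,0,0,0,0,0,0,0,0,1]]⟩,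
  ⟨none, [(0, true), (12, true), (0, false)], [[1,0,0,0,0,0,0,0,0,0,0,0,0],[0,1,0,0,0,0,0,0,0,0,0,0,0],[0,0,1,0,0,0,0,0,0,0,0,1,0],[0,0,0,1,0,0,0,0,0,0,0,0,0],[0,0,0,0,1,0,0,0,0,0,0,0,0],[0,0,0,0,0,1,0,0,0,0,0,0,0],[0,0,0,0,0,0,1,0,0,0,0,0,0],[0,0,0,0,0,0,0,1,0,0,0,0,0],[0,0,0,0,0,0,0,0,1,0,0,0,0],[0,0,0,0,0,0,0,0,0,1,0,0,0],[0,0,0,-1,0,0,0,0,0,0,1,0,0],[0,0,0,0,0,0,0,0,0,0,0,1,0],[0,0,0,0,0,0,0,0,0,0,0,0,1]],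
   [[1,0,0,0,0,0,0,0,0,0,0,0,0],[0,1,0,0,0,0,0,0,0,0,0,0,0],[0,0,1,0,0,0,0,0,0,0,0,-1,0],[0,0,0,1,0,0,0,0,0,0,0,0,0],[0,0,0,0,1,0,0,0,0,0,0,0,0],[0,0,0,0,0,1,0,0,0,0,0,0,0],[0,0,0,0,0,0,1,0,0,0,0,0,0],[0,0,0,0,0,0,0,1,0,0,0,0,0],[0,0,0,0,0,0,0,0,1,0,0,0,0],[0,0,0,0,0,0,0,0,0,1,0,0,0],[0,0,0,1,0,0,0,0,0,0,1,0,0],[0,0,0,0,0,0,0,0,0,0,0,1,0],[0,0,0,0,0,0,0,0,0,0,0,0,1]]⟩,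
  ⟨none, [(0, true), (14, true), (0, false)], [[1,0,0,0,0,0,0,0,0,0,0,0,0],[0,1,0,0,0,0,0,0,0,0,0,0,0],[0,0,1,0,0,0,0,0,0,0,0,0,0],[0,0,0,1,0,0,0,0,0,0,0,0,0],[0,0,0,0,1,0,0,0,0,0,0,0,0],[0,0,0,0,0,1,0,0,0,0,0,0,0],[0,0,0,0,0,0,1,0,0,0,0,0,0],[0,0,0,0,0,0,0,1,0,-1,0,0,0],[0,0,0,0,0,0,1,0,1,0,0,0,0],[0,0,0,0,0,0,0,0,0,1,0,0,0],[0,0,0,0,0,0,0,0,0,0,1,0,0],[0,0,0,0,0,0,0,0,0,0,0,1,0],[0,0,0,0,0,0,0,0,0,0,0,0,1]],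
   [[1,0,0,0,0,0,0,0,0,0,0,0,0],[0,1,0,0,0,0,0,0,0,0,0,0,0],[0,0,1,0,0,0,0,0,0,0,0,0,0],[0,0,0,1,0,0,0,0,0,0,0,0,0],[0,0,0,0,1,0,0,0,0,0,0,0,0],[0,0,0,0,0,1,0,0,0,0,0,0,0],[0,0,0,0,0,0,1,0,0,0,0,0,0],[0,0,0,0,0,0,0,1,0,1,0,0,0],[0,0,0,0,0,0,-1,0,1,0,0,0,0],[0,0,0,0,0,0,0,0,0,1,0,0,0],[0,0,0,0,0,0,0,0,0,0,1,0,0],[0,0,0,0,0,0,0,0,0,0,0,1,0],[0,0,0,0,0,0,0,0,0,0,0,0,1]]⟩,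
  ⟨none, [(0, true), (15, true), (0, false)], [[1,0,0,0,0,0,0,0,0,0,0,0,0],[0,1,0,0,0,0,0,0,0,0,0,0,0],[0,0,1,0,0,0,0,0,-1,0,0,0,0],[0,0,0,1,0,0,0,0,0,0,0,0,0],[0,0,0,0,1,0,0,0,0,0,0,0,0],[0,0,0,0,0,1,0,0,0,0,0,0,0],[0,0,0,0,0,0,1,0,0,0,0,0,0],[0,0,0,0,0,0,0,1,0,0,0,0,0],[0,0,0,0,0,0,0,0,1,0,0,0,0],[0,0,0,1,0,0,0,0,0,1,0,0,0],[0,0,0,0,0,0,0,0,0,0,1,0,0],[0,0,0,0,0,0,0,0,0,0,0,1,0],[0,0,0,0,0,0,0,0,0,0,0,0,1]],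
   [[1,0,0,0,0,0,0,0,0,0,0,0,0],[0,1,0,0,0,0,0,0,0,0,0,0,0],[0,0,1,0,0,0,0,0,1,0,0,0,0],[0,0,0,1,0,0,0,0,0,0,0,0,0],[0,0,0,0,1,0,0,0,0,0,0,0,0],[0,0,0,0,0,1,0,0,0,0,0,0,0],[0,0,0,0,0,0,1,0,0,0,0,0,0],[0,0,0,0,0,0,0,1,0,0,0,0,0],[0,0,0,0,0,0,0,0,1,0,0,0,0],[0,0,0,-1,0,0,0,0,0,1,0,0,0],[0,0,0,0,0,0,0,0,0,0,1,0,0],[0,0,0,0,0,0,0,0,0,0,0,1,0],[0,0,0,0,0,0,0,0,0,0,0,0,1]]⟩,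
  ⟨none, [(8, true), (13, true), (8, false), (13, false)], [[1,0,1,0,0,0,0,0,0,0,0,0,0],[0,1,0,0,0,0,0,0,0,0,0,0,0],[0,0,1,0,0,0,0,0,0,0,0,0,0],[0,-1,0,1,0,0,0,0,0,0,0,0,0],[0,0,0,0,1,0,0,0,0,0,0,0,0],[0,0,0,0,0,1,0,0,0,0,0,0,0],[0,0,0,0,0,0,1,0,0,0,0,0,0],[0,0,0,0,0,0,0,1,0,0,0,0,0],[0,0,0,0,0,0,0,0,1,0,0,0,0],[0,0,0,0,0,0,0,0,0,1,0,0,0],[0,0,0,0,0,0,0,0,0,0,1,0,0],[0,0,0,0,0,0,0,0,0,0,0,1,0],[0,0,0,0,0,0,0,0,0,0,0,0,1]],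
   [[1,0,-1,0,0,0,0,0,0,0,0,0,0],[0,1,0,0,0,0,0,0,0,0,0,0,0],[0,0,1,0,0,0,0,0,0,0,0,0,0],[0,1,0,1,0,0,0,0,0,0,0,0,0],[0,0,0,0,1,0,0,0,0,0,0,0,0],[0,0,0,0,0,1,0,0,0,0,0,0,0],[0,0,0,0,0,0,1,0,0,0,0,0,0],[0,0,0,0,0,0,0,1,0,0,0,0,0],[0,0,0,0,0,0,0,0,1,0,0,0,0],[0,0,0,0,0,0,0,0,0,1,0,0,0],[0,0,0,0,0,0,0,0,0,0,1,0,0],[0,0,0,0,0,0,0,0,0,0,0,1,0],[0,0,0,0,0,0,0,0,0,0,0,0,1]]⟩,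
  ⟨none, [(10, true), (20, true), (10, false), (20, false)], [[1,0,0,0,0,0,0,0,0,0,0,0,0],[0,1,0,0,0,0,0,0,0,0,0,0,0],[0,0,1,0,0,0,0,0,0,0,0,0,0],[0,0,0,1,0,0,0,0,0,0,0,0,0],[0,0,0,0,1,0,0,0,0,0,0,0,0],[0,0,0,0,0,1,0,0,0,0,0,0,0],[0,0,0,0,0,0,1,0,0,0,0,0,0],[0,0,0,0,0,0,0,1,0,0,0,0,0],[0,0,0,0,0,0,0,0,1,0,0,0,0],[0,0,0,0,0,0,0,0,0,1,0,-1,0],[0,0,0,0,0,0,0,0,1,0,1,0,0],[0,0,0,0,0,0,0,0,0,0,0,1,0],[0,0,0,0,0,0,0,0,0,0,0,0,1]],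
   [[1,0,0,0,0,0,0,0,0,0,0,0,0],[0,1,0,0,0,0,0,0,0,0,0,0,0],[0,0,1,0,0,0,0,0,0,0,0,0,0],[0,0,0,1,0,0,0,0,0,0,0,0,0],[0,0,0,0,1,0,0,0,0,0,0,0,0],[0,0,0,0,0,1,0,0,0,0,0,0,0],[0,0,0,0,0,0,1,0,0,0,0,0,0],[0,0,0,0,0,0,0,1,0,0,0,0,0],[0,0,0,0,0,0,0,0,1,0,0,0,0],[0,0,0,0,0,0,0,0,0,1,0,1,0],[0,0,0,0,0,0,0,0,-1,0,1,0,0],[0,0,0,0,0,0,0,0,0,0,0,1,0],[0,0,0,0,0,0,0,0,0,0,0,0,1]]⟩,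
  ⟨none, [(11, true), (5, true), (11, false), (5, false)], [[1,0,0,0,0,0,0,0,0,0,0,0,0],[0,1,0,0,0,0,0,0,0,0,0,0,0],[0,0,1,0,0,0,0,0,0,0,0,0,0],[0,0,0,1,0,1,0,0,0,0,0,0,0],[0,0,-1,0,1,0,0,0,0,0,0,0,0],[0,0,0,0,0,1,0,0,0,0,0,0,0],[0,0,0,0,0,0,1,0,0,0,0,0,0],[0,0,0,0,0,0,0,1,0,0,0,0,0],[0,0,0,0,0,0,0,0,1,0,0,0,0],[0,0,0,0,0,0,0,0,0,1,0,0,0],[0,0,0,0,0,0,0,0,0,0,1,0,0],[0,0,0,0,0,0,0,0,0,0,0,1,0],[0,0,0,0,0,0,0,0,0,0,0,0,1]],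
   [[1,0,0,0,0,0,0,0,0,0,0,0,0],[0,1,0,0,0,0,0,0,0,0,0,0,0],[0,0,1,0,0,0,0,0,0,0,0,0,0],[0,0,0,1,0,-1,0,0,0,0,0,0,0],[0,0,1,0,1,0,0,0,0,0,0,0,0],[0,0,0,0,0,1,0,0,0,0,0,0,0],[0,0,0,0,0,0,1,0,0,0,0,0,0],[0,0,0,0,0,0,0,1,0,0,0,0,0],[0,0,0,0,0,0,0,0,1,0,0,0,0],[0,0,0,0,0,0,0,0,0,1,0,0,0],[0,0,0,0,0,0,0,0,0,0,1,0,0],[0,0,0,0,0,0,0,0,0,0,0,1,0],[0,0,0,0,0,0,0,0,0,0,0,0,1]]⟩,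
  ⟨none, [(13, true), (16, true), (13, false), (16, false)], [[1,0,0,0,0,0,0,0,0,0,0,0,0],[0,1,0,0,0,0,0,0,0,0,0,0,0],[0,0,1,0,0,0,0,0,0,0,0,0,0],[0,0,0,1,0,0,0,0,0,0,0,0,0],[0,0,0,0,1,0,-1,0,0,0,0,0,0],[0,0,0,0,0,1,0,0,0,0,0,0,0],[0,0,0,0,0,0,1,0,0,0,0,0,0],[0,0,0,0,0,1,0,1,0,0,0,0,0],[0,0,0,0,0,0,0,0,1,0,0,0,0],[0,0,0,0,0,0,0,0,0,1,0,0,0],[0,0,0,0,0,0,0,0,0,0,1,0,0],[0,0,0,0,0,0,0,0,0,0,0,1,0],[0,0,0,0,0,0,0,0,0,0,0,0,1]],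
   [[1,0,0,0,0,0,0,0,0,0,0,0,0],[0,1,0,0,0,0,0,0,0,0,0,0,0],[0,0,1,0,0,0,0,0,0,0,0,0,0],[0,0,0,1,0,0,0,0,0,0,0,0,0],[0,0,0,0,1,0,1,0,0,0,0,0,0],[0,0,0,0,0,1,0,0,0,0,0,0,0],[0,0,0,0,0,0,1,0,0,0,0,0,0],[0,0,0,0,0,-1,0,1,0,0,0,0,0],[0,0,0,0,0,0,0,0,1,0,0,0,0],[0,0,0,0,0,0,0,0,0,1,0,0,0],[0,0,0,0,0,0,0,0,0,0,1,0,0],[0,0,0,0,0,0,0,0,0,0,0,1,0],[0,0,0,0,0,0,0,0,0,0,0,0,1]]⟩,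
  ⟨none, [(14, true), (15, true), (14, false), (15, false)], [[1,0,0,0,0,0,0,0,0,0,0,0,0],[0,1,0,0,0,0,0,0,0,0,0,0,0],[0,0,1,0,0,0,0,0,0,0,0,0,0],[0,0,0,1,0,0,0,-1,0,0,0,0,0],[0,0,0,0,1,0,0,0,0,0,0,0,0],[0,0,0,0,0,1,0,0,0,0,0,0,0],[0,0,1,0,0,0,1,0,0,0,0,0,0],[0,0,0,0,0,0,0,1,0,0,0,0,0],[0,0,0,0,0,0,0,0,1,0,0,0,0],[0,0,0,0,0,0,0,0,0,1,0,0,0],[0,0,0,0,0,0,0,0,0,0,1,0,0],[0,0,0,0,0,0,0,0,0,0,0,1,0],[0,0,0,0,0,0,0,0,0,0,0,0,1]],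
   [[1,0,0,0,0,0,0,0,0,0,0,0,0],[0,1,0,0,0,0,0,0,0,0,0,0,0],[0,0,1,0,0,0,0,0,0,0,0,0,0],[0,0,0,1,0,0,0,1,0,0,0,0,0],[0,0,0,0,1,0,0,0,0,0,0,0,0],[0,0,0,0,0,1,0,0,0,0,0,0,0],[0,0,-1,0,0,0,1,0,0,0,0,0,0],[0,0,0,0,0,0,0,1,0,0,0,0,0],[0,0,0,0,0,0,0,0,1,0,0,0,0],[0,0,0,0,0,0,0,0,0,1,0,0,0],[0,0,0,0,0,0,0,0,0,0,1,0,0],[0,0,0,0,0,0,0,0,0,0,0,1,0],[0,0,0,0,0,0,0,0,0,0,0,0,1]]⟩,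
  ⟨none, [(15, true), (20, true), (15, false), (20, false)], [[1,0,0,0,0,0,0,0,0,0,0,0,0],[0,1,0,0,0,0,0,0,0,0,0,0,0],[0,0,1,0,0,0,0,-1,0,0,0,0,0],[0,0,0,1,0,0,0,0,0,0,0,0,0],[0,0,0,0,1,0,0,0,0,0,0,0,0],[0,0,0,0,0,1,0,0,0,0,0,0,0],[0,0,0,1,0,0,1,0,0,0,0,0,0],[0,0,0,0,0,0,0,1,0,0,0,0,0],[0,0,0,0,0,0,0,0,1,0,0,0,0],[0,0,0,0,0,0,0,0,0,1,0,0,0],[0,0,0,0,0,0,0,0,0,0,1,0,0],[0,0,0,0,0,0,0,0,0,0,0,1,0],[0,0,0,0,0,0,0,0,0,0,0,0,1]],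
   [[1,0,0,0,0,0,0,0,0,0,0,0,0],[0,1,0,0,0,0,0,0,0,0,0,0,0],[0,0,1,0,0,0,0,1,0,0,0,0,0],[0,0,0,1,0,0,0,0,0,0,0,0,0],[0,0,0,0,1,0,0,0,0,0,0,0,0],[0,0,0,0,0,1,0,0,0,0,0,0,0],[0,0,0,-1,0,0,1,0,0,0,0,0,0],[0,0,0,0,0,0,0,1,0,0,0,0,0],[0,0,0,0,0,0,0,0,1,0,0,0,0],[0,0,0,0,0,0,0,0,0,1,0,0,0],[0,0,0,0,0,0,0,0,0,0,1,0,0],[0,0,0,0,0,0,0,0,0,0,0,1,0],[0,0,0,0,0,0,0,0,0,0,0,0,1]]⟩,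
  ⟨none, [(2, true), (18, true), (2, false)], [[1,0,0,0,0,0,0,0,0,0,0,0,0],[0,1,0,0,0,0,0,0,0,0,0,0,0],[0,0,1,0,0,0,0,0,0,0,0,0,0],[0,0,0,1,0,0,0,0,0,0,-1,0,0],[0,0,0,0,1,0,0,0,0,0,0,0,0],[0,0,0,0,0,1,0,0,0,0,0,0,0],[0,0,0,0,0,0,1,0,0,0,0,0,0],[0,0,0,0,0,0,0,1,0,0,0,0,0],[0,0,0,0,0,0,0,0,1,0,0,0,0],[0,0,0,0,0,0,0,0,0,1,0,0,0],[0,0,0,0,0,0,0,0,0,0,1,0,0],[0,0,1,0,0,0,0,0,0,0,0,1,0],[0,0,0,0,0,0,0,0,0,0,0,0,1]],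
   [[1,0,0,0,0,0,0,0,0,0,0,0,0],[0,1,0,0,0,0,0,0,0,0,0,0,0],[0,0,1,0,0,0,0,0,0,0,0,0,0],[0,0,0,1,0,0,0,0,0,0,1,0,0],[0,0,0,0,1,0,0,0,0,0,0,0,0],[0,0,0,0,0,1,0,0,0,0,0,0,0],[0,0,0,0,0,0,1,0,0,0,0,0,0],[0,0,0,0,0,0,0,1,0,0,0,0,0],[0,0,0,0,0,0,0,0,1,0,0,0,0],[0,0,0,0,0,0,0,0,0,1,0,0,0],[0,0,0,0,0,0,0,0,0,0,1,0,0],[0,0,-1,0,0,0,0,0,0,0,0,1,0],[0,0,0,0,0,0,0,0,0,0,0,0,1]]⟩,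
  ⟨none, [(2, true), (19, true), (2, false)], [[1,0,0,0,0,0,0,0,0,0,0,0,0],[0,1,0,0,0,0,0,0,0,0,0,0,0],[0,0,1,0,0,0,0,0,0,0,0,0,0],[0,0,0,1,0,0,0,0,0,0,0,0,0],[0,0,0,0,1,0,0,0,0,0,0,0,0],[0,0,0,0,0,1,0,0,0,0,0,0,0],[0,0,0,0,0,0,1,0,1,0,0,0,0],[0,0,0,0,0,0,0,1,0,0,0,0,0],[0,0,0,0,0,0,0,0,1,0,0,0,0],[0,0,0,0,0,0,0,-1,0,1,0,0,0],[0,0,0,0,0,0,0,0,0,0,1,0,0],[0,0,0,0,0,0,0,0,0,0,0,1,0],[0,0,0,0,0,0,0,0,0,0,0,0,1]],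
   [[1,0,0,0,0,0,0,0,0,0,0,0,0],[0,1,0,0,0,0,0,0,0,0,0,0,0],[0,0,1,0,0,0,0,0,0,0,0,0,0],[0,0,0,1,0,0,0,0,0,0,0,0,0],[0,0,0,0,1,0,0,0,0,0,0,0,0],[0,0,0,0,0,1,0,0,0,0,0,0,0],[0,0,0,0,0,0,1,0,-1,0,0,0,0],[0,0,0,0,0,0,0,1,0,0,0,0,0],[0,0,0,0,0,0,0,0,1,0,0,0,0],[0,0,0,0,0,0,0,1,0,1,0,0,0],[0,0,0,0,0,0,0,0,0,0,1,0,0],[0,0,0,0,0,0,0,0,0,0,0,1,0],[0,0,0,0,0,0,0,0,0,0,0,0,1]]⟩,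
  ⟨none, [(2, true), (26, true), (2, false)], [[1,0,0,0,0,0,0,0,0,0,0,0,0],[0,1,0,0,0,0,0,0,0,0,0,0,0],[0,0,1,0,0,0,0,0,0,0,0,0,0],[0,0,0,1,0,0,0,0,0,0,0,0,0],[0,0,0,0,1,0,0,0,0,0,0,0,0],[0,0,0,0,0,1,0,0,0,0,0,0,0],[0,0,0,0,0,0,1,0,0,0,0,0,0],[0,0,0,0,0,0,0,1,0,0,0,0,0],[0,0,0,0,0,0,0,0,1,0,-1,0,0],[0,0,0,0,0,0,0,0,0,1,0,0,0],[0,0,0,0,0,0,0,0,0,0,1,0,0],[0,0,0,0,0,0,0,0,0,1,0,1,0],[0,0,0,0,0,0,0,0,0,0,0,0,1]],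
   [[1,0,0,0,0,0,0,0,0,0,0,0,0],[0,1,0,0,0,0,0,0,0,0,0,0,0],[0,0,1,0,0,0,0,0,0,0,0,0,0],[0,0,0,1,0,0,0,0,0,0,0,0,0],[0,0,0,0,1,0,0,0,0,0,0,0,0],[0,0,0,0,0,1,0,0,0,0,0,0,0],[0,0,0,0,0,0,1,0,0,0,0,0,0],[0,0,0,0,0,0,0,1,0,0,0,0,0],[0,0,0,0,0,0,0,0,1,0,1,0,0],[0,0,0,0,0,0,0,0,0,1,0,0,0],[0,0,0,0,0,0,0,0,0,0,1,0,0],[0,0,0,0,0,0,0,0,0,-1,0,1,0],[0,0,0,0,0,0,0,0,0,0,0,0,1]]⟩,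
  ⟨none, [(16, true), (26, true), (16, false), (26, false)], [[1,0,0,0,0,0,0,0,0,0,0,0,0],[0,1,0,1,0,0,0,0,0,0,0,0,0],[-1,0,1,0,0,0,0,0,0,0,0,0,0],[0,0,0,1,0,0,0,0,0,0,0,0,0],[0,0,0,0,1,0,0,0,0,0,0,0,0],[0,0,0,0,0,1,0,0,0,0,0,0,0],[0,0,0,0,0,0,1,0,0,0,0,0,0],[0,0,0,0,0,0,0,1,0,0,0,0,0],[0,0,0,0,0,0,0,0,1,0,0,0,0],[0,0,0,0,0,0,0,0,0,1,0,0,0],[0,0,0,0,0,0,0,0,0,0,1,0,0],[0,0,0,0,0,0,0,0,0,0,0,1,0],[0,0,0,0,0,0,0,0,0,0,0,0,1]],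
   [[1,0,0,0,0,0,0,0,0,0,0,0,0],[0,1,0,-1,0,0,0,0,0,0,0,0,0],[1,0,1,0,0,0,0,0,0,0,0,0,0],[0,0,0,1,0,0,0,0,0,0,0,0,0],[0,0,0,0,1,0,0,0,0,0,0,0,0],[0,0,0,0,0,1,0,0,0,0,0,0,0],[0,0,0,0,0,0,1,0,0,0,0,0,0],[0,0,0,0,0,0,0,1,0,0,0,0,0],[0,0,0,0,0,0,0,0,1,0,0,0,0],[0,0,0,0,0,0,0,0,0,1,0,0,0],[0,0,0,0,0,0,0,0,0,0,1,0,0],[0,0,0,0,0,0,0,0,0,0,0,1,0],[0,0,0,0,0,0,0,0,0,0,0,0,1]]⟩,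
  ⟨none, [(17, true), (25, true), (17, false), (25, false)], [[1,0,0,0,0,0,0,0,0,0,0,0,0],[0,1,0,0,0,0,0,0,0,0,0,0,0],[0,0,1,0,0,0,0,0,0,0,0,0,0],[0,0,0,1,0,0,0,0,0,0,0,0,0],[0,0,0,0,1,0,0,0,0,0,0,0,0],[0,0,0,0,0,1,0,-1,0,0,0,0,0],[0,0,0,0,1,0,1,0,0,0,0,0,0],[0,0,0,0,0,0,0,1,0,0,0,0,0],[0,0,0,0,0,0,0,0,1,0,0,0,0],[0,0,0,0,0,0,0,0,0,1,0,0,0],[0,0,0,0,0,0,0,0,0,0,1,0,0],[0,0,0,0,0,0,0,0,0,0,0,1,0],[0,0,0,0,0,0,0,0,0,0,0,0,1]],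
   [[1,0,0,0,0,0,0,0,0,0,0,0,0],[0,1,0,0,0,0,0,0,0,0,0,0,0],[0,0,1,0,0,0,0,0,0,0,0,0,0],[0,0,0,1,0,0,0,0,0,0,0,0,0],[0,0,0,0,1,0,0,0,0,0,0,0,0],[0,0,0,0,0,1,0,1,0,0,0,0,0],[0,0,0,0,-1,0,1,0,0,0,0,0,0],[0,0,0,0,0,0,0,1,0,0,0,0,0],[0,0,0,0,0,0,0,0,1,0,0,0,0],[0,0,0,0,0,0,0,0,0,1,0,0,0],[0,0,0,0,0,0,0,0,0,0,1,0,0],[0,0,0,0,0,0,0,0,0,0,0,1,0],[0,0,0,0,0,0,0,0,0,0,0,0,1]]⟩,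
  ⟨none, [(1, true), (27, true), (1, false), (10, true), (27, true)], [[1,0,0,0,0,0,0,0,0,0,0,0,0],[0,1,0,0,0,0,0,0,0,0,0,0,0],[0,0,1,0,0,0,0,0,0,0,0,0,0],[0,0,-1,1,0,0,0,0,0,0,0,0,-2],[0,0,0,0,1,0,0,0,0,0,0,0,0],[0,0,0,0,0,1,0,0,0,0,0,0,0],[0,0,0,0,0,0,1,0,0,0,0,0,0],[0,0,0,0,0,0,0,1,0,0,0,0,0],[0,0,0,0,0,0,0,0,1,0,0,0,0],[0,0,0,0,0,0,0,0,0,1,0,0,0],[0,0,0,0,0,0,0,0,0,0,1,0,0],[0,0,0,0,0,0,0,0,0,0,0,1,0],[0,0,1,0,0,0,0,0,0,0,0,0,1]],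
   [[1,0,0,0,0,0,0,0,0,0,0,0,0],[0,1,0,0,0,0,0,0,0,0,0,0,0],[0,0,1,0,0,0,0,0,0,0,0,0,0],[0,0,-1,1,0,0,0,0,0,0,0,0,2],[0,0,0,0,1,0,0,0,0,0,0,0,0],[0,0,0,0,0,1,0,0,0,0,0,0,0],[0,0,0,0,0,0,1,0,0,0,0,0,0],[0,0,0,0,0,0,0,1,0,0,0,0,0],[0,0,0,0,0,0,0,0,1,0,0,0,0],[0,0,0,0,0,0,0,0,0,1,0,0,0],[0,0,0,0,0,0,0,0,0,0,1,0,0],[0,0,0,0,0,0,0,0,0,0,0,1,0],[0,0,-1,0,0,0,0,0,0,0,0,0,1]]⟩,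
  ⟨none, [(0, true), (32, true), (0, false)], [[1,0,0,0,0,0,0,0,0,0,0,0,0],[0,1,0,0,0,0,0,0,0,0,0,0,0],[0,0,1,0,0,0,0,0,0,0,0,0,0],[0,0,0,1,0,0,0,0,0,0,0,0,0],[0,0,0,0,1,0,0,0,0,0,0,0,0],[0,0,0,0,0,1,0,0,0,0,0,0,0],[0,0,0,0,0,0,1,0,0,0,0,0,0],[0,0,0,0,0,0,-1,1,0,0,0,0,-2],[0,0,0,0,0,0,0,0,1,0,0,0,0],[0,0,0,0,0,0,0,0,0,1,0,0,0],[0,0,0,0,0,0,0,0,0,0,1,0,0],[0,0,0,0,0,0,0,0,0,0,0,1,0],[0,0,0,0,0,0,1,0,0,0,0,0,1]],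
   [[1,0,0,0,0,0,0,0,0,0,0,0,0],[0,1,0,0,0,0,0,0,0,0,0,0,0],[0,0,1,0,0,0,0,0,0,0,0,0,0],[0,0,0,1,0,0,0,0,0,0,0,0,0],[0,0,0,0,1,0,0,0,0,0,0,0,0],[0,0,0,0,0,1,0,0,0,0,0,0,0],[0,0,0,0,0,0,1,0,0,0,0,0,0],[0,0,0,0,0,0,-1,1,0,0,0,0,2],[0,0,0,0,0,0,0,0,1,0,0,0,0],[0,0,0,0,0,0,0,0,0,1,0,0,0],[0,0,0,0,0,0,0,0,0,0,1,0,0],[0,0,0,0,0,0,0,0,0,0,0,1,0],[0,0,0,0,0,0,-1,0,0,0,0,0,1]]⟩,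
  ⟨none, [(2, true), (32, true), (2, false)], [[1,0,0,0,0,0,0,0,0,0,0,0,0],[0,1,0,0,0,0,0,0,0,0,0,0,0],[0,0,1,0,0,0,0,0,0,0,0,0,0],[0,0,0,1,0,0,0,0,0,0,0,0,0],[0,0,0,0,1,0,0,0,0,0,0,0,0],[0,0,0,0,0,1,0,0,0,0,0,0,0],[0,0,0,0,0,0,1,0,0,0,0,0,0],[0,0,0,0,0,0,0,1,0,0,0,0,0],[0,0,0,0,0,0,0,0,1,0,0,0,0],[0,0,0,0,0,0,0,0,0,1,0,0,0],[0,0,0,0,0,0,0,0,0,0,1,-1,-2],[0,0,0,0,0,0,0,0,0,0,0,1,0],[0,0,0,0,0,0,0,0,0,0,0,1,1]],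
   [[1,0,0,0,0,0,0,0,0,0,0,0,0],[0,1,0,0,0,0,0,0,0,0,0,0,0],[0,0,1,0,0,0,0,0,0,0,0,0,0],[0,0,0,1,0,0,0,0,0,0,0,0,0],[0,0,0,0,1,0,0,0,0,0,0,0,0],[0,0,0,0,0,1,0,0,0,0,0,0,0],[0,0,0,0,0,0,1,0,0,0,0,0,0],[0,0,0,0,0,0,0,1,0,0,0,0,0],[0,0,0,0,0,0,0,0,1,0,0,0,0],[0,0,0,0,0,0,0,0,0,1,0,0,0],[0,0,0,0,0,0,0,0,0,0,1,-1,2],[0,0,0,0,0,0,0,0,0,0,0,1,0],[0,0,0,0,0,0,0,0,0,0,0,-1,1]]⟩,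
  ⟨none, [(2, true), (33, true), (2, false)], [[1,0,0,0,0,0,0,0,0,0,0,0,0],[0,1,0,0,0,0,0,0,0,0,0,0,0],[0,0,1,0,0,0,0,0,0,0,0,0,0],[0,0,0,1,0,0,0,0,0,0,0,0,0],[0,0,0,0,1,0,0,0,0,0,0,0,0],[0,0,0,0,0,1,0,0,0,0,0,0,0],[0,0,0,0,0,0,1,0,0,0,0,0,0],[0,0,0,0,0,0,0,1,0,0,0,0,0],[0,0,0,0,0,0,0,0,1,0,0,0,0],[0,0,0,0,0,0,0,0,-1,1,0,0,2],[0,0,0,0,0,0,0,0,0,0,1,0,0],[0,0,0,0,0,0,0,0,0,0,0,1,0],[0,0,0,0,0,0,0,0,-1,0,0,0,1]],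
   [[1,0,0,0,0,0,0,0,0,0,0,0,0],[0,1,0,0,0,0,0,0,0,0,0,0,0],[0,0,1,0,0,0,0,0,0,0,0,0,0],[0,0,0,1,0,0,0,0,0,0,0,0,0],[0,0,0,0,1,0,0,0,0,0,0,0,0],[0,0,0,0,0,1,0,0,0,0,0,0,0],[0,0,0,0,0,0,1,0,0,0,0,0,0],[0,0,0,0,0,0,0,1,0,0,0,0,0],[0,0,0,0,0,0,0,0,1,0,0,0,0],[0,0,0,0,0,0,0,0,-1,1,0,0,-2],[0,0,0,0,0,0,0,0,0,0,1,0,0],[0,0,0,0,0,0,0,0,0,0,0,1,0],[0,0,0,0,0,0,0,0,1,0,0,0,1]]⟩,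
  ⟨none, [(0, true), (35, true), (0, false)], [[1,0,0,0,0,0,0,0,0,0,0,0,0],[0,1,0,0,0,0,0,0,0,0,0,0,0],[0,0,1,0,0,0,0,0,0,0,0,0,0],[0,0,0,1,0,0,0,0,0,0,0,0,0],[0,0,0,0,1,0,0,0,0,0,0,0,0],[0,0,0,0,0,1,0,0,0,0,0,0,0],[0,0,0,0,0,0,1,0,0,0,0,0,0],[0,0,0,0,0,0,0,1,0,0,0,0,0],[0,0,0,0,0,0,0,0,1,-1,0,0,-2],[0,0,0,0,0,0,0,0,0,1,0,0,0],[0,0,0,0,0,0,0,0,0,0,1,0,0],[0,0,0,0,0,0,0,0,0,0,0,1,0],[0,0,0,0,0,0,0,0,0,1,0,0,1]],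
   [[1,0,0,0,0,0,0,0,0,0,0,0,0],[0,1,0,0,0,0,0,0,0,0,0,0,0],[0,0,1,0,0,0,0,0,0,0,0,0,0],[0,0,0,1,0,0,0,0,0,0,0,0,0],[0,0,0,0,1,0,0,0,0,0,0,0,0],[0,0,0,0,0,1,0,0,0,0,0,0,0],[0,0,0,0,0,0,1,0,0,0,0,0,0],[0,0,0,0,0,0,0,1,0,0,0,0,0],[0,0,0,0,0,0,0,0,1,-1,0,0,2],[0,0,0,0,0,0,0,0,0,1,0,0,0],[0,0,0,0,0,0,0,0,0,0,1,0,0],[0,0,0,0,0,0,0,0,0,0,0,1,0],[0,0,0,0,0,0,0,0,0,-1,0,0,1]]⟩,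
  ⟨none, [(2, true), (36, true), (2, false)], [[1,0,0,0,0,0,0,0,0,0,0,0,0],[0,1,0,0,0,0,0,0,0,0,0,0,0],[0,0,1,0,0,0,0,0,0,0,0,0,0],[0,0,0,1,0,0,0,0,0,0,0,0,0],[0,0,0,0,1,0,0,0,0,0,0,0,0],[0,0,0,0,0,1,0,0,0,0,0,0,0],[0,0,0,0,0,0,1,-1,0,0,0,0,2],[0,0,0,0,0,0,0,1,0,0,0,0,0],[0,0,0,0,0,0,0,0,1,0,0,0,0],[0,0,0,0,0,0,0,0,0,1,0,0,0],[0,0,0,0,0,0,0,0,0,0,1,0,0],[0,0,0,0,0,0,0,0,0,0,0,1,0],[0,0,0,0,0,0,0,-1,0,0,0,0,1]],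
   [[1,0,0,0,0,0,0,0,0,0,0,0,0],[0,1,0,0,0,0,0,0,0,0,0,0,0],[0,0,1,0,0,0,0,0,0,0,0,0,0],[0,0,0,1,0,0,0,0,0,0,0,0,0],[0,0,0,0,1,0,0,0,0,0,0,0,0],[0,0,0,0,0,1,0,0,0,0,0,0,0],[0,0,0,0,0,0,1,-1,0,0,0,0,-2],[0,0,0,0,0,0,0,1,0,0,0,0,0],[0,0,0,0,0,0,0,0,1,0,0,0,0],[0,0,0,0,0,0,0,0,0,1,0,0,0],[0,0,0,0,0,0,0,0,0,0,1,0,0],[0,0,0,0,0,0,0,0,0,0,0,1,0],[0,0,0,0,0,0,0,1,0,0,0,0,1]]⟩,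
  ⟨none, [(0, true), (37, true), (0, false)], [[1,0,0,0,0,0,0,0,0,0,0,0,0],[0,1,0,0,0,0,0,0,0,0,0,0,0],[0,0,1,-1,0,0,0,0,0,0,0,0,2],[0,0,0,1,0,0,0,0,0,0,0,0,0],[0,0,0,0,1,0,0,0,0,0,0,0,0],[0,0,0,0,0,1,0,0,0,0,0,0,0],[0,0,0,0,0,0,1,0,0,0,0,0,0],[0,0,0,0,0,0,0,1,0,0,0,0,0],[0,0,0,0,0,0,0,0,1,0,0,0,0],[0,0,0,0,0,0,0,0,0,1,0,0,0],[0,0,0,0,0,0,0,0,0,0,1,0,0],[0,0,0,0,0,0,0,0,0,0,0,1,0],[0,0,0,-1,0,0,0,0,0,0,0,0,1]],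
   [[1,0,0,0,0,0,0,0,0,0,0,0,0],[0,1,0,0,0,0,0,0,0,0,0,0,0],[0,0,1,-1,0,0,0,0,0,0,0,0,-2],[0,0,0,1,0,0,0,0,0,0,0,0,0],[0,0,0,0,1,0,0,0,0,0,0,0,0],[0,0,0,0,0,1,0,0,0,0,0,0,0],[0,0,0,0,0,0,1,0,0,0,0,0,0],[0,0,0,0,0,0,0,1,0,0,0,0,0],[0,0,0,0,0,0,0,0,1,0,0,0,0],[0,0,0,0,0,0,0,0,0,1,0,0,0],[0,0,0,0,0,0,0,0,0,0,1,0,0],[0,0,0,0,0,0,0,0,0,0,0,1,0],[0,0,0,1,0,0,0,0,0,0,0,0,1]]⟩,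
  ⟨none, [(2, true), (38, true), (2, false)], [[1,0,0,0,0,0,0,0,0,0,0,0,0],[0,1,0,0,0,0,0,0,0,0,0,0,0],[0,0,1,0,0,0,0,0,0,0,0,0,0],[0,0,0,1,0,0,0,0,0,0,0,0,0],[0,0,0,0,1,0,0,0,0,0,0,0,0],[0,0,0,0,0,1,0,0,0,0,0,0,0],[0,0,0,0,0,0,1,0,0,0,0,0,0],[0,0,0,0,0,0,0,1,0,0,0,0,0],[0,0,0,0,0,0,0,0,1,0,0,0,0],[0,0,0,0,0,0,0,0,0,1,0,0,0],[0,0,0,0,0,0,0,0,0,0,1,0,0],[0,0,0,0,0,0,0,0,0,0,-1,1,2],[0,0,0,0,0,0,0,0,0,0,-1,0,1]],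
   [[1,0,0,0,0,0,0,0,0,0,0,0,0],[0,1,0,0,0,0,0,0,0,0,0,0,0],[0,0,1,0,0,0,0,0,0,0,0,0,0],[0,0,0,1,0,0,0,0,0,0,0,0,0],[0,0,0,0,1,0,0,0,0,0,0,0,0],[0,0,0,0,0,1,0,0,0,0,0,0,0],[0,0,0,0,0,0,1,0,0,0,0,0,0],[0,0,0,0,0,0,0,1,0,0,0,0,0],[0,0,0,0,0,0,0,0,1,0,0,0,0],[0,0,0,0,0,0,0,0,0,1,0,0,0],[0,0,0,0,0,0,0,0,0,0,1,0,0],[0,0,0,0,0,0,0,0,0,0,-1,1,-2],[0,0,0,0,0,0,0,0,0,0,1,0,1]]⟩]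

theorem chkB6 : check 13 [] [(aB6, aB6), (bB6, bB6), (cB6, cB6)] stepsB6 = true := by decide +kernel

theorem tgtB6 : hasAll stepsB6 (targetsB 6) = true := by decide +kernel

theorem vaB6 (G : Subgroup (Matrix (VB 6) (VB 6) ℤ)ˣ) (hF : Full G 6)
    (hS : ∀ u, Mem G (xS u 1)) :
    Mem G (emb (sgB (seg 6 0 6 (by norm_num))) (toMat 13 aB6)) :=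
  mem_word_sgB (r := 6) (seg_inj _) hF hS [(0, some 5), (1, some 4), (2, some 7), (3, some 6), (4, some 6), (5, some 7), (8, some 10), (9, some 11), (8, none), (9, none)]
    [(0, true), (1, true), (0, true), (2, false), (3, false), (2, false), (4, false), (5, false), (4, false), (4, false), (5, false), (4, false), (6, false), (7, false), (6, false), (6, false), (7, false), (6, false), (8, false), (9, false), (8, false)] (M' := aB6)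
    (by decide +kernel) (by decide +kernel) (by decide +kernel)

theorem vbB6 (G : Subgroup (Matrix (VB 6) (VB 6) ℤ)ˣ) (hF : Full G 6)
    (hS : ∀ u, Mem G (xS u 1)) :
    Mem G (emb (sgB (seg 6 0 6 (by norm_num))) (toMat 13 bB6)) :=
  mem_word_sgB (r := 6) (seg_inj _) hF hS [(10, none), (0, some 2), (1, some 3), (2, some 4), (3, some 5), (8, some 10), (9, some 11), (3, some 4), (0, some 7)]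
    [(0, false), (1, false), (2, false), (1, false), (1, false), (2, false), (1, false), (3, false), (4, false), (3, false), (3, false), (4, false), (3, false), (5, false), (6, false), (5, false), (5, false), (6, false), (5, false), (7, false), (8, false)] (M' := bB6)
    (by decide +kernel) (by decide +kernel) (by decide +kernel)

theorem vcB6 (G : Subgroup (Matrix (VB 6) (VB 6) ℤ)ˣ) (hF : Full G 6)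
    (hS : ∀ u, Mem G (xS u 1)) :
    Mem G (emb (sgB (seg 6 0 6 (by norm_num))) (toMat 13 cB6)) :=
  mem_word_sgB (r := 6) (seg_inj _) hF hS [(0, none), (1, none), (2, some 10), (3, some 11), (4, none), (5, none), (6, some 9), (7, some 8), (8, some 10), (9, some 11)]
    [(0, false), (1, false), (0, false), (2, true), (3, true), (2, true), (4, false), (5, false), (4, false), (6, false), (7, false), (6, false), (8, false), (9, false), (8, false), (8, false), (9, false), (8, false)] (M' := cB6)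
    (by decide +kernel) (by decide +kernel) (by decide +kernel)

theorem resB6 {K L : Type*} [Field K] [CharZero K] [LieRing L] [LieAlgebra K L]
    {H : LieSubalgebra K L} (B : LieAlgebra.Basis (Fin 6) H) [LieAlgebra.IsSimple K L]
    (hB : B.A = CartanMatrix.B 6) : ThreeInvolutions (Gad B) :=
  smallB B (by norm_num) hB aB6 bB6 cB6 stepsB6 (by decide +kernel)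
    (by decide +kernel) (by decide +kernel) (by decide +kernel) (by decide +kernel)
    (by decide +kernel) (by decide +kernel) vaB6 vbB6 vcB6 chkB6 tgtB6

end MP9bf44d
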