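import Pool.Agent.Lib.H68.Small

/-! # Certificate for type C_3 (computer found) -/

namespace MP9bf44d

open Matrix

set_option maxRecDepth 100000

def aC3 : LM := [[1,0,0,0,0,0],[0,1,0,0,0,0],[0,0,0,0,0,1],[0,0,0,0,-1,0],[0,0,0,-1,0,0],[0,0,1,0,0,0]]
def aC3' : LM := [[1,0,0,0,0,0],[0,1,0,0,0,0],[0,0,0,0,0,1],[0,0,0,0,-1,0],[0,0,0,-1,0,0],[0,0,1,0,0,0]]
def bC3 : LM := [[-1,1,0,0,0,0],[-2,1,0,0,0,0],[0,0,0,0,-1,0],[0,0,0,0,0,-1],[0,0,1,0,0,0],[0,0,0,1,0,0]]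
def bC3' : LM := [[1,-1,0,0,0,0],[2,-1,0,0,0,0],[0,0,0,0,1,0],[0,0,0,0,0,1],[0,0,-1,0,0,0],[0,0,0,-1,0,0]]
def cC3 : LM := [[0,1,0,1,-1,0],[0,0,-1,0,0,0],[0,1,0,0,0,0],[-1,0,0,0,0,1],[0,0,-1,0,0,1],[0,1,0,0,-1,0]]
def cC3' : LM := [[0,-1,0,-1,1,0],[0,0,1,0,0,0],[0,-1,0,0,0,0],[1,0,0,0,0,-1],[0,0,1,0,0,-1],[0,-1,0,0,1,0]]

def stepsC3 : List Step := [
  ⟨none, [(2, true), (1, true), (2, true), (0, true), (2, true), (1, true), (2, true), (0, true), (2, true), (0, true), (2, true), (0, true), (2, true), (1, true), (2, true), (0, true), (2, true), (1, true), (2, true), (0, true), (2, true), (0, true), (2, true), (0, true)], [[1,0,0,1,0,0],[0,1,0,2,0,0],[-2,1,1,2,-1,3],[0,0,0,1,0,0],[0,0,0,3,1,0],[0,0,0,1,0,1]],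
   [[1,0,0,-1,0,0],[0,1,0,-2,0,0],[2,-1,1,-2,1,-3],[0,0,0,1,0,0],[0,0,0,-3,1,0],[0,0,0,-1,0,1]]⟩,
  ⟨none, [(2, true), (0, true), (2, true), (0, true), (2, true), (1, true), (2, true), (0, true), (2, true), (1, true), (2, true), (0, true), (2, true), (0, true), (2, true), (0, true), (2, true), (1, true), (2, true), (0, true), (2, true), (1, true), (2, true), (0, true)], [[1,0,0,0,1,0],[0,1,0,0,2,0],[0,0,1,0,1,0],[0,0,0,1,-3,0],[0,0,0,0,1,0],[2,-1,-3,-1,2,1]],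
   [[1,0,0,0,-1,0],[0,1,0,0,-2,0],[0,0,1,0,-1,0],[0,0,0,1,3,0],[0,0,0,0,1,0],[-2,1,3,1,-2,1]]⟩,
  ⟨none, [(2, true), (1, true), (2, true), (0, true), (2, true), (0, true), (2, true), (0, true), (2, true), (1, true), (2, true), (0, true), (2, true), (1, true), (2, true), (0, true), (2, true), (0, true), (2, true), (0, true), (2, true), (1, true), (2, true), (0, true)], [[1,0,0,1,1,0],[0,1,0,1,1,0],[-1,1,2,2,0,1],[0,0,0,0,-1,0],[0,0,0,1,2,0],[1,-1,-1,0,2,0]],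
   [[1,0,0,-1,-1,0],[0,1,0,-1,-1,0],[1,-1,0,-2,0,-1],[0,0,0,2,1,0],[0,0,0,-1,0,0],[-1,1,1,0,-2,2]]⟩,
  ⟨none, [(2, true), (0, true), (2, true), (0, true), (2, true), (0, true), (2, true), (1, true), (2, true), (0, true), (2, true), (1, true), (2, true), (0, true), (2, true), (0, true), (2, true), (0, true), (2, true), (1, true), (2, true), (0, true), (2, true), (1, true)], [[2,0,0,0,0,-1],[2,0,0,2,1,-1],[-2,0,1,0,0,2],[0,0,0,1,0,0],[1,-1,0,2,2,0],[1,0,0,0,0,0]],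
   [[0,0,0,0,0,1],[-2,2,0,-2,-1,1],[2,0,1,0,0,-2],[0,0,0,1,0,0],[-1,1,0,-2,0,0],[-1,0,0,0,0,2]]⟩,
  ⟨none, [(0, true), (2, true), (0, true), (2, true), (0, true), (2, true), (0, true), (2, true), (1, true), (2, true), (0, true), (2, true), (1, true), (0, true), (0, true), (2, true), (0, true), (2, true), (0, true), (2, true), (0, true), (2, true), (1, true), (2, true), (0, true), (2, true), (1, true), (0, true)], [[2,0,-1,0,0,0],[2,0,-1,-1,-2,0],[1,0,0,0,0,0],[-1,1,0,2,2,0],[0,0,0,0,1,0],[-2,0,2,0,0,1]],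
   [[0,0,1,0,0,0],[-2,2,1,1,2,0],[-1,0,2,0,0,0],[1,-1,0,0,-2,0],[0,0,0,0,1,0],[2,0,-2,0,0,1]]⟩,
  ⟨none, [(6, true), (5, true), (0, true), (6, true), (5, true), (0, true)], [[1,0,0,1,0,0],[0,1,0,-1,0,0],[1,1,1,2,-1,0],[0,0,0,1,0,0],[0,0,0,0,1,0],[0,0,0,1,0,1]],
   [[1,0,0,-1,0,0],[0,1,0,1,0,0],[-1,-1,1,-2,1,0],[0,0,0,1,0,0],[0,0,0,0,1,0],[0,0,0,-1,0,1]]⟩,
  ⟨none, [(4, true), (7, true), (4, false)], [[2,0,0,0,0,-1],[2,0,0,0,1,-1],[0,0,1,0,0,0],[0,0,0,1,0,0],[1,-1,0,0,2,0],[1,0,0,0,0,0]],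
   [[0,0,0,0,0,1],[-2,2,0,0,-1,1],[0,0,1,0,0,0],[0,0,0,1,0,0],[-1,1,0,0,0,0],[-1,0,0,0,0,2]]⟩,
  ⟨none, [(2, true), (10, true), (2, false)], [[1,0,0,-1,0,0],[0,1,0,0,0,0],[0,-1,1,-2,1,-1],[0,0,0,1,0,0],[0,0,0,-1,1,0],[0,0,0,-1,0,1]],
   [[1,0,0,1,0,0],[0,1,0,0,0,0],[0,1,1,2,-1,1],[0,0,0,1,0,0],[0,0,0,1,1,0],[0,0,0,1,0,1]]⟩,
  ⟨none, [(5, false), (8, true), (5, true)], [[2,0,-1,0,0,0],[2,0,-1,-1,0,0],[1,0,0,0,0,0],[-1,1,0,2,0,0],[0,0,0,0,1,0],[0,0,0,0,0,1]],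
   [[0,0,1,0,0,0],[-2,2,1,1,0,0],[-1,0,2,0,0,0],[1,-1,0,0,0,0],[0,0,0,0,1,0],[0,0,0,0,0,1]]⟩,
  ⟨none, [(11, true), (9, true)], [[1,0,0,0,0,0],[0,1,0,-1,0,0],[1,0,1,0,0,-1],[0,0,0,1,0,0],[0,0,0,-1,1,0],[0,0,0,0,0,1]],
   [[1,0,0,0,0,0],[0,1,0,1,0,0],[-1,0,1,0,0,1],[0,0,0,1,0,0],[0,0,0,1,1,0],[0,0,0,0,0,1]]⟩,
  ⟨none, [(13, false), (12, true), (13, true)], [[1,0,-1,0,0,1],[0,1,-1,0,0,1],[0,0,1,0,0,0],[-1,1,0,1,0,0],[-1,1,0,0,1,0],[0,0,0,0,0,1]],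
   [[1,0,1,0,0,-1],[0,1,1,0,0,-1],[0,0,1,0,0,0],[1,-1,0,1,0,0],[1,-1,0,0,1,0],[0,0,0,0,0,1]]⟩,
  ⟨none, [(1, true), (14, true), (1, false)], [[1,0,0,0,0,0],[0,1,0,1,1,0],[-1,0,1,0,0,0],[0,0,0,1,0,0],[0,0,0,0,1,0],[1,0,0,0,0,1]],
   [[1,0,0,0,0,0],[0,1,0,-1,-1,0],[1,0,1,0,0,0],[0,0,0,1,0,0],[0,0,0,0,1,0],[-1,0,0,0,0,1]]⟩,
  ⟨none, [(13, false), (15, true), (13, true)], [[1,0,0,0,0,0],[0,1,0,0,1,0],[0,0,1,0,0,0],[0,0,0,1,0,0],[0,0,0,0,1,0],[1,0,0,0,0,1]],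
   [[1,0,0,0,0,0],[0,1,0,0,-1,0],[0,0,1,0,0,0],[0,0,0,1,0,0],[0,0,0,0,1,0],[-1,0,0,0,0,1]]⟩,
  ⟨none, [(15, true), (12, true), (15, false)], [[1,0,-1,0,0,0],[0,1,-1,0,0,0],[0,0,1,0,0,0],[-1,1,0,1,-1,0],[0,0,0,0,1,0],[0,0,-1,0,0,1]],
   [[1,0,1,0,0,0],[0,1,1,0,0,0],[0,0,1,0,0,0],[1,-1,0,1,1,0],[0,0,0,0,1,0],[0,0,1,0,0,1]]⟩,
  ⟨none, [(1, true), (17, true), (1, false)], [[1,0,0,0,0,0],[0,1,0,0,1,0],[0,0,1,0,0,0],[0,0,0,1,1,0],[0,0,0,0,1,0],[1,0,1,0,0,1]],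
   [[1,0,0,0,0,0],[0,1,0,0,-1,0],[0,0,1,0,0,0],[0,0,0,1,-1,0],[0,0,0,0,1,0],[-1,0,-1,0,0,1]]⟩,
  ⟨none, [(15, false), (18, true), (15, true)], [[1,0,0,0,0,0],[0,1,0,0,0,0],[0,0,1,0,0,0],[0,0,0,1,1,0],[0,0,0,0,1,0],[0,0,1,0,0,1]],
   [[1,0,0,0,0,0],[0,1,0,0,0,0],[0,0,1,0,0,0],[0,0,0,1,-1,0],[0,0,0,0,1,0],[0,0,-1,0,0,1]]⟩,
  ⟨none, [(3, true), (1, true), (12, true), (1, true)], [[0,0,0,0,0,-1],[-2,2,0,0,1,-1],[0,0,1,0,0,0],[0,0,0,1,0,0],[1,-1,0,0,0,0],[1,0,0,0,0,2]],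
   [[2,0,0,0,0,1],[2,0,0,0,-1,1],[0,0,1,0,0,0],[0,0,0,1,0,0],[-1,1,0,0,2,0],[-1,0,0,0,0,0]]⟩,
  ⟨none, [(16, true), (20, true), (16, false)], [[1,0,0,0,0,-1],[0,1,0,0,0,-1],[0,0,1,0,0,0],[0,0,0,1,0,0],[1,-1,0,0,1,0],[0,0,0,0,0,1]],
   [[1,0,0,0,0,1],[0,1,0,0,0,1],[0,0,1,0,0,0],[0,0,0,1,0,0],[-1,1,0,0,1,0],[0,0,0,0,0,1]]⟩,
  ⟨none, [(1, true), (21, true), (1, false)], [[1,0,0,0,0,0],[0,1,0,-1,0,0],[1,0,1,0,0,0],[0,0,0,1,0,0],[0,0,0,0,1,0],[0,0,0,0,0,1]],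
   [[1,0,0,0,0,0],[0,1,0,1,0,0],[-1,0,1,0,0,0],[0,0,0,1,0,0],[0,0,0,0,1,0],[0,0,0,0,0,1]]⟩,
  ⟨none, [(0, true), (19, true), (0, false)], [[1,0,0,0,0,0],[0,1,0,0,0,0],[0,0,1,0,0,1],[0,0,0,1,0,0],[0,0,0,1,1,0],[0,0,0,0,0,1]],
   [[1,0,0,0,0,0],[0,1,0,0,0,0],[0,0,1,0,0,-1],[0,0,0,1,0,0],[0,0,0,-1,1,0],[0,0,0,0,0,1]]⟩,
  ⟨none, [(19, false), (2, true), (16, true), (2, false), (19, true), (23, true)], [[1,0,0,0,0,-1],[0,1,0,0,0,0],[0,0,1,0,0,0],[0,0,0,1,0,0],[0,-1,0,0,1,0],[0,0,0,0,0,1]],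
   [[1,0,0,0,0,1],[0,1,0,0,0,0],[0,0,1,0,0,0],[0,0,0,1,0,0],[0,1,0,0,1,0],[0,0,0,0,0,1]]⟩,
  ⟨none, [(0, true), (24, true), (0, false)], [[1,0,-1,0,0,0],[0,1,0,0,0,0],[0,0,1,0,0,0],[0,1,0,1,0,0],[0,0,0,0,1,0],[0,0,0,0,0,1]],
   [[1,0,1,0,0,0],[0,1,0,0,0,0],[0,0,1,0,0,0],[0,-1,0,1,0,0],[0,0,0,0,1,0],[0,0,0,0,0,1]]⟩,
  ⟨none, [(22, false), (1, true), (24, true), (1, false), (22, false)], [[1,0,0,-1,0,0],[0,1,0,0,0,0],[0,-1,1,0,0,0],[0,0,0,1,0,0],[0,0,0,0,1,0],[0,0,0,0,0,1]],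
   [[1,0,0,1,0,0],[0,1,0,0,0,0],[0,1,1,0,0,0],[0,0,0,1,0,0],[0,0,0,0,1,0],[0,0,0,0,0,1]]⟩,
  ⟨none, [(16, true), (26, true), (16, false), (26, false)], [[1,0,0,0,0,0],[0,1,0,0,0,0],[0,0,1,0,1,0],[0,0,0,1,0,0],[0,0,0,0,1,0],[0,0,0,-1,0,1]],
   [[1,0,0,0,0,0],[0,1,0,0,0,0],[0,0,1,0,-1,0],[0,0,0,1,0,0],[0,0,0,0,1,0],[0,0,0,1,0,1]]⟩,
  ⟨none, [(1, true), (27, true), (1, false)], [[1,0,0,0,0,0],[0,1,0,0,0,0],[0,0,1,0,0,0],[0,0,0,1,0,1],[0,0,-1,0,1,0],[0,0,0,0,0,1]],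
   [[1,0,0,0,0,0],[0,1,0,0,0,0],[0,0,1,0,0,0],[0,0,0,1,0,-1],[0,0,1,0,1,0],[0,0,0,0,0,1]]⟩,
  ⟨none, [(28, true), (16, true), (28, false), (16, false)], [[1,0,0,0,0,0],[0,1,1,0,0,0],[0,0,1,0,0,0],[1,0,0,1,0,0],[0,0,0,0,1,0],[0,0,0,0,0,1]],
   [[1,0,0,0,0,0],[0,1,-1,0,0,0],[0,0,1,0,0,0],[-1,0,0,1,0,0],[0,0,0,0,1,0],[0,0,0,0,0,1]]⟩,
  ⟨none, [(1, true), (16, true), (1, false), (25, false), (29, true)], [[1,0,0,0,0,0],[0,1,0,0,0,0],[0,0,1,0,0,0],[0,0,-1,1,0,0],[0,0,0,0,1,0],[0,0,0,0,0,1]],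
   [[1,0,0,0,0,0],[0,1,0,0,0,0],[0,0,1,0,0,0],[0,0,1,1,0,0],[0,0,0,0,1,0],[0,0,0,0,0,1]]⟩,
  ⟨none, [(0, true), (30, true), (0, false)], [[1,0,0,0,0,0],[0,1,0,0,0,0],[0,0,1,0,0,0],[0,0,0,1,0,0],[0,0,0,0,1,1],[0,0,0,0,0,1]],
   [[1,0,0,0,0,0],[0,1,0,0,0,0],[0,0,1,0,0,0],[0,0,0,1,0,0],[0,0,0,0,1,-1],[0,0,0,0,0,1]]⟩,
  ⟨none, [(1, true), (30, true), (1, false)], [[1,0,0,0,0,0],[0,1,0,0,0,0],[0,0,1,0,0,0],[0,0,0,1,0,0],[0,0,0,0,1,0],[0,0,0,0,-1,1]],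
   [[1,0,0,0,0,0],[0,1,0,0,0,0],[0,0,1,0,0,0],[0,0,0,1,0,0],[0,0,0,0,1,0],[0,0,0,0,1,1]]⟩]

theorem chkC3 : check 6 [] [(aC3, aC3'), (bC3, bC3'), (cC3, cC3'), (negL 6, negL 6)] stepsC3 = true := by decide +kernel

theorem tgtC3 : hasAll stepsC3 (targetsC 3) = true := by decide +kernel

theorem vaC3 (G : Subgroup (Matrix (WP 3) (WP 3) ℤ)ˣ) (hF : FullC G) :
    Mem G (emb (sgC (segC 3 0 3 (by norm_num))) (toMat 6 aC3)) :=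
  hF.word (r := 3) (segC_inj _) [(2, some 4), (3, some 5), (2, none), (3, none)]
    [(0, false), (1, false), (0, false), (2, false), (3, true), (2, false), (2, false), (3, true), (2, false)] (M' := aC3')
    (by decide +kernel) (by decide +kernel) (by decide +kernel)

theorem vbC3 (G : Subgroup (Matrix (WP 3) (WP 3) ℤ)ˣ) (hF : FullC G) :
    Mem G (emb (sgC (segC 3 0 3 (by norm_num))) (toMat 6 bC3)) :=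
  hF.word (r := 3) (segC_inj _) [(0, none), (1, none), (2, some 5), (3, some 4)]
    [(0, true), (1, false), (0, true), (2, false), (3, true), (2, false), (0, false), (1, false)] (M' := bC3')
    (by decide +kernel) (by decide +kernel) (by decide +kernel)

theorem vcC3 (G : Subgroup (Matrix (WP 3) (WP 3) ℤ)ˣ) (hF : FullC G) :
    Mem G (emb (sgC (segC 3 0 3 (by norm_num))) (toMat 6 cC3)) :=
  hF.word (r := 3) (segC_inj _) [(0, some 4), (0, some 2), (1, some 3), (4, none), (5, none)]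
    [(0, false), (1, false), (2, false), (1, false), (3, true), (4, false), (3, true), (0, true)] (M' := cC3')
    (by decide +kernel) (by decide +kernel) (by decide +kernel)

theorem resC3 {K L : Type*} [Field K] [CharZero K] [LieRing L] [LieAlgebra K L]
    {H : LieSubalgebra K L} (B : LieAlgebra.Basis (Fin 3) H) [LieAlgebra.IsSimple K L]
    (hB : B.A = CartanMatrix.C 3) : ThreeInvolutions (Gad B) :=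
  smallC B (by norm_num) hB aC3 bC3 cC3 aC3' bC3' cC3' stepsC3 (by decide +kernel)
    (by decide +kernel) (by decide +kernel) (by decide +kernel) (by decide +kernel)
    (by decide +kernel) (by decide +kernel) vaC3 vbC3 vcC3 (by decide +kernel) chkC3 tgtC3

end MP9bf44d
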