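import Pool.Agent.Lib.H68.SmallC3

/-! # Certificate for type C_4 (computer found) -/

namespace MP9bf44d

open Matrix

set_option maxRecDepth 100000

def aC4 : LM := [[0,0,1,0,0,0,0,0],[0,0,0,1,0,0,0,0],[1,0,0,0,0,0,0,0],[0,1,0,0,0,0,0,0],[0,0,0,0,0,0,0,1],[0,0,0,0,0,0,-1,0],[0,0,0,0,0,-1,0,0],[0,0,0,0,1,0,0,0]]
def aC4' : LM := [[0,0,1,0,0,0,0,0],[0,0,0,1,0,0,0,0],[1,0,0,0,0,0,0,0],[0,1,0,0,0,0,0,0],[0,0,0,0,0,0,0,1],[0,0,0,0,0,0,-1,0],[0,0,0,0,0,-1,0,0],[0,0,0,0,1,0,0,0]]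
def bC4 : LM := [[1,0,0,1,0,0,0,0],[0,1,0,0,0,0,0,0],[0,-1,-1,0,0,0,0,0],[0,0,0,-1,0,0,0,0],[0,0,0,0,1,0,0,0],[0,0,0,0,0,1,0,0],[0,0,0,0,0,0,-1,0],[0,0,0,0,0,0,0,-1]]
def bC4' : LM := [[1,0,0,1,0,0,0,0],[0,1,0,0,0,0,0,0],[0,-1,-1,0,0,0,0,0],[0,0,0,-1,0,0,0,0],[0,0,0,0,1,0,0,0],[0,0,0,0,0,1,0,0],[0,0,0,0,0,0,-1,0],[0,0,0,0,0,0,0,-1]]
def cC4 : LM := [[0,1,0,0,0,0,0,0],[-1,0,0,0,0,0,0,0],[0,0,0,0,-1,1,0,0],[0,0,0,0,0,-1,0,0],[0,0,1,1,0,0,0,0],[0,0,0,1,0,0,0,0],[0,0,0,0,0,0,0,-1],[0,0,0,0,0,0,1,0]]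
def cC4' : LM := [[0,-1,0,0,0,0,0,0],[1,0,0,0,0,0,0,0],[0,0,0,0,1,-1,0,0],[0,0,0,0,0,1,0,0],[0,0,-1,-1,0,0,0,0],[0,0,0,-1,0,0,0,0],[0,0,0,0,0,0,0,1],[0,0,0,0,0,0,-1,0]]

def stepsC4 : List Step := [
  ⟨none, [(2, true), (0, true), (2, true), (1, true), (0, true), (2, true), (2, true), (0, true), (2, true), (1, true), (0, true), (2, true), (2, true), (0, true), (2, true), (1, true), (0, true), (2, true), (2, true), (0, true), (2, true), (1, true), (0, true), (2, true)], [[1,0,0,0,0,0,0,0],[0,1,0,0,0,0,0,1],[0,0,1,0,0,0,0,0],[0,0,0,1,0,0,0,0],[0,0,0,0,1,0,0,0],[0,0,0,0,0,1,0,0],[-1,0,0,0,0,0,1,0],[0,0,0,0,0,0,0,1]],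
   [[1,0,0,0,0,0,0,0],[0,1,0,0,0,0,0,-1],[0,0,1,0,0,0,0,0],[0,0,0,1,0,0,0,0],[0,0,0,0,1,0,0,0],[0,0,0,0,0,1,0,0],[1,0,0,0,0,0,1,0],[0,0,0,0,0,0,0,1]]⟩,
  ⟨none, [(2, true), (1, true), (2, true), (1, true), (2, true), (1, true), (2, true), (0, true), (2, true), (1, true), (2, true), (1, true), (0, true), (2, true), (1, true), (2, true), (1, true), (2, true), (1, true), (2, true), (0, true), (2, true), (1, true), (2, true), (1, true), (0, true)], [[1,0,0,0,0,0,0,0],[0,1,0,0,0,0,0,0],[0,0,1,0,0,0,0,0],[0,0,0,1,0,0,0,0],[0,0,0,0,1,0,-1,0],[0,0,0,0,0,1,0,0],[0,0,0,0,0,0,1,0],[0,0,0,0,0,1,0,1]],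
   [[1,0,0,0,0,0,0,0],[0,1,0,0,0,0,0,0],[0,0,1,0,0,0,0,0],[0,0,0,1,0,0,0,0],[0,0,0,0,1,0,1,0],[0,0,0,0,0,1,0,0],[0,0,0,0,0,0,1,0],[0,0,0,0,0,-1,0,1]]⟩,
  ⟨none, [(0, true), (2, true), (1, true), (2, true), (1, true), (2, true), (0, true), (2, true), (1, true), (2, true), (1, true), (0, true), (2, true), (1, true), (0, true), (0, true), (2, true), (1, true), (2, true), (1, true), (2, true), (0, true), (2, true), (1, true), (2, true), (1, true), (0, true), (2, true), (1, true), (0, true)], [[1,0,0,0,1,0,0,0],[0,1,0,0,0,0,0,0],[0,0,1,0,0,0,0,0],[0,0,0,1,0,0,0,0],[0,0,0,0,1,0,0,0],[0,-1,0,0,0,1,0,0],[0,0,0,0,0,0,1,0],[0,0,0,0,0,0,0,1]],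
   [[1,0,0,0,-1,0,0,0],[0,1,0,0,0,0,0,0],[0,0,1,0,0,0,0,0],[0,0,0,1,0,0,0,0],[0,0,0,0,1,0,0,0],[0,1,0,0,0,1,0,0],[0,0,0,0,0,0,1,0],[0,0,0,0,0,0,0,1]]⟩,
  ⟨none, [(0, true), (2, true), (0, true), (2, true), (1, true), (0, true), (2, true), (0, true), (0, true), (2, true), (0, true), (2, true), (1, true), (0, true), (2, true), (0, true), (0, true), (2, true), (0, true), (2, true), (1, true), (0, true), (2, true), (0, true), (0, true), (2, true), (0, true), (2, true), (1, true), (0, true), (2, true), (0, true)], [[1,0,0,0,0,0,0,0],[0,1,0,0,0,0,0,0],[0,0,1,0,0,0,0,0],[0,0,0,1,1,0,0,0],[0,0,0,0,1,0,0,0],[0,0,1,0,0,1,0,0],[0,0,0,0,0,0,1,0],[0,0,0,0,0,0,0,1]],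
   [[1,0,0,0,0,0,0,0],[0,1,0,0,0,0,0,0],[0,0,1,0,0,0,0,0],[0,0,0,1,-1,0,0,0],[0,0,0,0,1,0,0,0],[0,0,-1,0,0,1,0,0],[0,0,0,0,0,0,1,0],[0,0,0,0,0,0,0,1]]⟩,
  ⟨none, [(2, true), (0, true), (2, true), (0, true), (2, true), (1, true), (2, true), (0, true), (2, true), (0, true), (2, true), (1, true), (2, true), (0, true), (2, true), (0, true), (2, true), (1, true), (2, true), (0, true), (2, true), (0, true), (2, true), (1, true)], [[1,0,0,0,0,0,-1,1],[0,1,0,0,0,0,0,0],[0,0,1,0,0,0,0,0],[0,0,0,1,0,0,0,0],[0,0,0,0,1,0,0,0],[0,0,0,0,0,1,0,0],[0,1,0,0,0,0,1,0],[0,1,0,0,0,0,0,1]],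
   [[1,0,0,0,0,0,1,-1],[0,1,0,0,0,0,0,0],[0,0,1,0,0,0,0,0],[0,0,0,1,0,0,0,0],[0,0,0,0,1,0,0,0],[0,0,0,0,0,1,0,0],[0,-1,0,0,0,0,1,0],[0,-1,0,0,0,0,0,1]]⟩,
  ⟨none, [(0, true), (2, true), (1, true), (2, true), (0, true), (2, true), (1, true), (0, true), (2, true), (1, true), (2, true), (0, true), (0, true), (2, true), (1, true), (2, true), (0, true), (2, true), (1, true), (0, true), (2, true), (1, true), (2, true), (0, true), (0, true), (2, true), (1, true), (2, true), (0, true), (2, true), (1, true), (0, true), (2, true), (1, true), (2, true), (0, true), (0, true), (2, true), (1, true), (2, true), (0, true), (2, true), (1, true), (0, true), (2, true), (1, true), (2, true), (0, true)], [[1,0,0,0,0,0,0,0],[0,1,0,0,0,0,0,0],[0,0,1,0,0,-1,0,0],[0,0,0,1,0,0,0,0],[0,0,0,-1,1,0,-1,0],[0,0,0,0,0,1,0,0],[0,0,0,0,0,0,1,0],[0,0,0,0,0,1,0,1]],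
   [[1,0,0,0,0,0,0,0],[0,1,0,0,0,0,0,0],[0,0,1,0,0,1,0,0],[0,0,0,1,0,0,0,0],[0,0,0,1,1,0,1,0],[0,0,0,0,0,1,0,0],[0,0,0,0,0,0,1,0],[0,0,0,0,0,-1,0,1]]⟩,
  ⟨none, [(2, true), (1, true), (2, true), (0, true), (2, true), (0, true), (2, true), (1, true), (0, true), (2, true), (0, true), (2, true), (1, true), (2, true), (2, true), (1, true), (2, true), (0, true), (2, true), (0, true), (2, true), (1, true), (0, true), (2, true), (0, true), (2, true), (1, true), (2, true), (2, true), (1, true), (2, true), (0, true), (2, true), (0, true), (2, true), (1, true), (0, true), (2, true), (0, true), (2, true), (1, true), (2, true), (2, true), (1, true), (2, true), (0, true), (2, true), (0, true), (2, true), (1, true), (0, true), (2, true), (0, true), (2, true), (1, true), (2, true)], [[1,0,0,0,0,0,0,0],[0,1,-1,0,0,0,0,0],[0,0,1,0,0,0,0,0],[-1,0,0,1,-1,0,0,0],[0,0,0,0,1,0,0,0],[0,0,-1,0,0,1,0,0],[0,0,0,0,0,0,1,0],[0,0,0,0,0,0,0,1]],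
   [[1,0,0,0,0,0,0,0],[0,1,1,0,0,0,0,0],[0,0,1,0,0,0,0,0],[1,0,0,1,1,0,0,0],[0,0,0,0,1,0,0,0],[0,0,1,0,0,1,0,0],[0,0,0,0,0,0,1,0],[0,0,0,0,0,0,0,1]]⟩,
  ⟨none, [(6, true), (10, true), (6, false)], [[1,0,0,0,0,0,0,0],[0,1,-1,0,0,0,0,0],[0,0,1,0,0,0,0,0],[-1,0,0,1,0,0,0,0],[0,0,0,0,1,0,0,0],[0,0,0,0,0,1,0,0],[0,0,0,0,0,0,1,0],[0,0,0,0,0,0,0,1]],
   [[1,0,0,0,0,0,0,0],[0,1,1,0,0,0,0,0],[0,0,1,0,0,0,0,0],[1,0,0,1,0,0,0,0],[0,0,0,0,1,0,0,0],[0,0,0,0,0,1,0,0],[0,0,0,0,0,0,1,0],[0,0,0,0,0,0,0,1]]⟩,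
  ⟨none, [(4, true), (6, true), (4, false), (6, false)], [[1,0,0,0,0,0,0,0],[0,1,0,0,0,0,0,0],[0,0,1,0,0,0,0,0],[0,0,0,1,0,0,0,0],[0,0,0,0,1,0,0,0],[0,0,0,0,0,1,0,1],[0,0,0,0,-1,0,1,0],[0,0,0,0,0,0,0,1]],
   [[1,0,0,0,0,0,0,0],[0,1,0,0,0,0,0,0],[0,0,1,0,0,0,0,0],[0,0,0,1,0,0,0,0],[0,0,0,0,1,0,0,0],[0,0,0,0,0,1,0,-1],[0,0,0,0,1,0,1,0],[0,0,0,0,0,0,0,1]]⟩,
  ⟨none, [(9, true), (8, true), (1, true), (9, true), (8, true), (1, true)], [[1,0,0,0,0,-1,0,0],[0,1,0,0,0,0,0,0],[0,0,1,0,0,0,0,0],[0,0,0,1,0,0,0,0],[0,-1,0,0,1,0,0,0],[0,0,0,0,0,1,0,0],[0,0,0,0,0,0,1,0],[0,0,0,0,0,0,0,1]],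
   [[1,0,0,0,0,1,0,0],[0,1,0,0,0,0,0,0],[0,0,1,0,0,0,0,0],[0,0,0,1,0,0,0,0],[0,1,0,0,1,0,0,0],[0,0,0,0,0,1,0,0],[0,0,0,0,0,0,1,0],[0,0,0,0,0,0,0,1]]⟩,
  ⟨none, [(2, true), (13, true), (2, false)], [[1,0,0,0,0,0,0,0],[0,1,0,-1,0,0,0,0],[1,0,1,0,0,0,0,0],[0,0,0,1,0,0,0,0],[0,0,0,0,1,0,0,0],[0,0,0,0,0,1,0,0],[0,0,0,0,0,0,1,0],[0,0,0,0,0,0,0,1]],
   [[1,0,0,0,0,0,0,0],[0,1,0,1,0,0,0,0],[-1,0,1,0,0,0,0,0],[0,0,0,1,0,0,0,0],[0,0,0,0,1,0,0,0],[0,0,0,0,0,1,0,0],[0,0,0,0,0,0,1,0],[0,0,0,0,0,0,0,1]]⟩,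
  ⟨none, [(6, true), (14, true), (6, false), (14, false)], [[1,0,0,0,0,0,0,0],[0,1,0,0,0,0,0,0],[0,0,1,0,-1,0,0,0],[0,0,0,1,0,0,0,0],[0,0,0,0,1,0,0,0],[0,0,0,1,0,1,0,0],[0,0,0,0,0,0,1,0],[0,0,0,0,0,0,0,1]],
   [[1,0,0,0,0,0,0,0],[0,1,0,0,0,0,0,0],[0,0,1,0,1,0,0,0],[0,0,0,1,0,0,0,0],[0,0,0,0,1,0,0,0],[0,0,0,-1,0,1,0,0],[0,0,0,0,0,0,1,0],[0,0,0,0,0,0,0,1]]⟩,
  ⟨none, [(7, true), (13, true), (7, false), (13, false)], [[1,0,1,0,0,0,0,0],[0,1,0,0,0,0,0,0],[0,0,1,0,0,0,0,0],[0,-1,0,1,0,0,0,0],[0,0,0,0,1,0,0,0],[0,0,0,0,0,1,0,0],[0,0,0,0,0,0,1,0],[0,0,0,0,0,0,0,1]],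
   [[1,0,-1,0,0,0,0,0],[0,1,0,0,0,0,0,0],[0,0,1,0,0,0,0,0],[0,1,0,1,0,0,0,0],[0,0,0,0,1,0,0,0],[0,0,0,0,0,1,0,0],[0,0,0,0,0,0,1,0],[0,0,0,0,0,0,0,1]]⟩,
  ⟨none, [(11, true), (13, true), (11, false), (13, false)], [[1,0,0,0,0,0,0,0],[0,1,0,0,0,0,0,0],[0,0,1,0,0,0,0,0],[0,0,0,1,0,1,0,0],[0,0,-1,0,1,0,0,0],[0,0,0,0,0,1,0,0],[0,0,0,0,0,0,1,0],[0,0,0,0,0,0,0,1]],
   [[1,0,0,0,0,0,0,0],[0,1,0,0,0,0,0,0],[0,0,1,0,0,0,0,0],[0,0,0,1,0,-1,0,0],[0,0,1,0,1,0,0,0],[0,0,0,0,0,1,0,0],[0,0,0,0,0,0,1,0],[0,0,0,0,0,0,0,1]]⟩,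
  ⟨none, [(2, true), (6, true), (2, false), (11, true), (14, true)], [[1,0,0,0,0,0,0,0],[-1,1,0,0,0,0,0,0],[0,0,1,0,0,0,0,0],[0,0,0,1,0,0,0,0],[0,0,0,0,1,0,0,0],[0,0,0,0,0,1,0,0],[0,0,0,0,0,0,1,0],[0,0,0,0,0,0,0,1]],
   [[1,0,0,0,0,0,0,0],[1,1,0,0,0,0,0,0],[0,0,1,0,0,0,0,0],[0,0,0,1,0,0,0,0],[0,0,0,0,1,0,0,0],[0,0,0,0,0,1,0,0],[0,0,0,0,0,0,1,0],[0,0,0,0,0,0,0,1]]⟩,
  ⟨none, [(2, true), (18, true), (2, false)], [[1,1,0,0,0,0,0,0],[0,1,0,0,0,0,0,0],[0,0,1,0,0,0,0,0],[0,0,0,1,0,0,0,0],[0,0,0,0,1,0,0,0],[0,0,0,0,0,1,0,0],[0,0,0,0,0,0,1,0],[0,0,0,0,0,0,0,1]],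
   [[1,-1,0,0,0,0,0,0],[0,1,0,0,0,0,0,0],[0,0,1,0,0,0,0,0],[0,0,0,1,0,0,0,0],[0,0,0,0,1,0,0,0],[0,0,0,0,0,1,0,0],[0,0,0,0,0,0,1,0],[0,0,0,0,0,0,0,1]]⟩,
  ⟨none, [(0, true), (19, true), (0, false)], [[1,0,0,0,0,0,0,0],[0,1,0,0,0,0,0,0],[0,0,1,1,0,0,0,0],[0,0,0,1,0,0,0,0],[0,0,0,0,1,0,0,0],[0,0,0,0,0,1,0,0],[0,0,0,0,0,0,1,0],[0,0,0,0,0,0,0,1]],
   [[1,0,0,0,0,0,0,0],[0,1,0,0,0,0,0,0],[0,0,1,-1,0,0,0,0],[0,0,0,1,0,0,0,0],[0,0,0,0,1,0,0,0],[0,0,0,0,0,1,0,0],[0,0,0,0,0,0,1,0],[0,0,0,0,0,0,0,1]]⟩,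
  ⟨none, [(2, true), (20, true), (2, false)], [[1,0,0,0,0,0,0,0],[0,1,0,0,0,0,0,0],[0,0,1,0,0,0,0,0],[0,0,0,1,0,0,0,0],[0,0,0,0,1,1,0,0],[0,0,0,0,0,1,0,0],[0,0,0,0,0,0,1,0],[0,0,0,0,0,0,0,1]],
   [[1,0,0,0,0,0,0,0],[0,1,0,0,0,0,0,0],[0,0,1,0,0,0,0,0],[0,0,0,1,0,0,0,0],[0,0,0,0,1,-1,0,0],[0,0,0,0,0,1,0,0],[0,0,0,0,0,0,1,0],[0,0,0,0,0,0,0,1]]⟩,
  ⟨none, [(0, true), (21, true), (0, false)], [[1,0,0,0,0,0,0,0],[0,1,0,0,0,0,0,0],[0,0,1,0,0,0,0,0],[0,0,0,1,0,0,0,0],[0,0,0,0,1,0,0,0],[0,0,0,0,0,1,0,0],[0,0,0,0,0,0,1,0],[0,0,0,0,0,0,-1,1]],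
   [[1,0,0,0,0,0,0,0],[0,1,0,0,0,0,0,0],[0,0,1,0,0,0,0,0],[0,0,0,1,0,0,0,0],[0,0,0,0,1,0,0,0],[0,0,0,0,0,1,0,0],[0,0,0,0,0,0,1,0],[0,0,0,0,0,0,1,1]]⟩,
  ⟨none, [(2, true), (22, true), (2, false)], [[1,0,0,0,0,0,0,0],[0,1,0,0,0,0,0,0],[0,0,1,0,0,0,0,0],[0,0,0,1,0,0,0,0],[0,0,0,0,1,0,0,0],[0,0,0,0,0,1,0,0],[0,0,0,0,0,0,1,1],[0,0,0,0,0,0,0,1]],
   [[1,0,0,0,0,0,0,0],[0,1,0,0,0,0,0,0],[0,0,1,0,0,0,0,0],[0,0,0,1,0,0,0,0],[0,0,0,0,1,0,0,0],[0,0,0,0,0,1,0,0],[0,0,0,0,0,0,1,-1],[0,0,0,0,0,0,0,1]]⟩]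

theorem chkC4 : check 8 [] [(aC4, aC4'), (bC4, bC4'), (cC4, cC4'), (negL 8, negL 8)] stepsC4 = true := by decide +kernel

theorem tgtC4 : hasAll stepsC4 (targetsC 4) = true := by decide +kernel

theorem vaC4 (G : Subgroup (Matrix (WP 4) (WP 4) ℤ)ˣ) (hF : FullC G) :
    Mem G (emb (sgC (segC 4 0 4 (by norm_num))) (toMat 8 aC4)) :=
  hF.word (r := 4) (segC_inj _) [(0, some 3), (1, some 2), (2, some 4), (3, some 5), (4, some 6), (5, some 7)]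
    [(0, false), (1, true), (0, false), (2, false), (3, false), (2, false), (2, false), (3, false), (2, false), (4, true), (5, true), (4, true)] (M' := aC4')
    (by decide +kernel) (by decide +kernel) (by decide +kernel)

theorem vbC4 (G : Subgroup (Matrix (WP 4) (WP 4) ℤ)ˣ) (hF : FullC G) :
    Mem G (emb (sgC (segC 4 0 4 (by norm_num))) (toMat 8 bC4)) :=
  hF.word (r := 4) (segC_inj _) [(2, some 6), (3, some 7), (0, some 2)]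
    [(0, false), (1, false), (0, false), (0, false), (1, false), (0, false), (2, false)] (M' := bC4')
    (by decide +kernel) (by decide +kernel) (by decide +kernel)

theorem vcC4 (G : Subgroup (Matrix (WP 4) (WP 4) ℤ)ˣ) (hF : FullC G) :
    Mem G (emb (sgC (segC 4 0 4 (by norm_num))) (toMat 8 cC4)) :=
  hF.word (r := 4) (segC_inj _) [(2, none), (0, none), (1, none), (2, some 5), (3, some 4), (6, none), (7, none)]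
    [(0, false), (1, true), (2, false), (1, true), (3, false), (4, true), (3, false), (5, false), (6, true), (5, false), (0, true)] (M' := cC4')
    (by decide +kernel) (by decide +kernel) (by decide +kernel)

theorem resC4 {K L : Type*} [Field K] [CharZero K] [LieRing L] [LieAlgebra K L]
    {H : LieSubalgebra K L} (B : LieAlgebra.Basis (Fin 4) H) [LieAlgebra.IsSimple K L]
    (hB : B.A = CartanMatrix.C 4) : ThreeInvolutions (Gad B) :=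
  smallC B (by norm_num) hB aC4 bC4 cC4 aC4' bC4' cC4' stepsC4 (by decide +kernel)
    (by decide +kernel) (by decide +kernel) (by decide +kernel) (by decide +kernel)
    (by decide +kernel) (by decide +kernel) vaC4 vbC4 vcC4 (by decide +kernel) chkC4 tgtC4

end MP9bf44d
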