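import Pool.Agent.Lib.H68.SmallC4

/-! # Certificate for type C_5 (computer found) -/

namespace MP9bf44d

open Matrix

set_option maxRecDepth 100000

def aC5 : LM := [[0,1,0,0,0,0,0,0,0,0],[-1,0,0,0,0,0,0,0,0,0],[0,0,0,0,0,0,0,0,-1,0],[0,0,0,0,0,0,0,0,0,-1],[0,0,0,0,0,0,1,0,0,0],[0,0,0,0,0,0,0,1,0,0],[0,0,0,0,-1,0,0,0,0,0],[0,0,0,0,0,-1,0,0,0,0],[0,0,1,0,0,0,0,0,0,0],[0,0,0,1,0,0,0,0,0,0]]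
def aC5' : LM := [[0,-1,0,0,0,0,0,0,0,0],[1,0,0,0,0,0,0,0,0,0],[0,0,0,0,0,0,0,0,1,0],[0,0,0,0,0,0,0,0,0,1],[0,0,0,0,0,0,-1,0,0,0],[0,0,0,0,0,0,0,-1,0,0],[0,0,0,0,1,0,0,0,0,0],[0,0,0,0,0,1,0,0,0,0],[0,0,-1,0,0,0,0,0,0,0],[0,0,0,-1,0,0,0,0,0,0]]
def bC5 : LM := [[0,-1,0,0,0,0,0,0,0,0],[1,0,0,0,0,0,0,0,0,0],[0,0,0,0,0,0,0,0,-1,0],[0,0,0,0,0,0,0,-1,0,-1],[0,0,0,0,0,0,-1,0,1,0],[0,0,0,0,0,0,0,-1,0,0],[0,0,1,0,1,0,0,0,0,0],[0,0,0,0,0,1,0,0,0,0],[0,0,1,0,0,0,0,0,0,0],[0,0,0,1,0,-1,0,0,0,0]]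
def bC5' : LM := [[0,1,0,0,0,0,0,0,0,0],[-1,0,0,0,0,0,0,0,0,0],[0,0,0,0,0,0,0,0,1,0],[0,0,0,0,0,0,0,1,0,1],[0,0,0,0,0,0,1,0,-1,0],[0,0,0,0,0,0,0,1,0,0],[0,0,-1,0,-1,0,0,0,0,0],[0,0,0,0,0,-1,0,0,0,0],[0,0,-1,0,0,0,0,0,0,0],[0,0,0,-1,0,1,0,0,0,0]]
def cC5 : LM := [[0,0,0,0,0,0,-1,0,0,0],[0,0,0,0,0,0,0,-1,0,0],[0,0,0,-1,0,0,0,0,0,0],[0,0,1,0,0,0,0,0,0,0],[0,0,0,0,0,0,0,0,-1,-1],[0,0,0,0,0,0,0,0,1,0],[1,0,0,0,0,0,0,0,0,0],[0,1,0,0,0,0,0,0,0,0],[0,0,0,0,0,-1,0,0,0,0],[0,0,0,0,1,1,0,0,0,0]]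
def cC5' : LM := [[0,0,0,0,0,0,1,0,0,0],[0,0,0,0,0,0,0,1,0,0],[0,0,0,1,0,0,0,0,0,0],[0,0,-1,0,0,0,0,0,0,0],[0,0,0,0,0,0,0,0,1,1],[0,0,0,0,0,0,0,0,-1,0],[-1,0,0,0,0,0,0,0,0,0],[0,-1,0,0,0,0,0,0,0,0],[0,0,0,0,0,1,0,0,0,0],[0,0,0,0,-1,-1,0,0,0,0]]

def stepsC5 : List Step := [
  ⟨none, [(2, true), (1, true), (0, true), (2, true), (1, true), (0, true), (2, true), (1, true), (0, true), (2, true), (1, true), (0, true)], [[1,0,0,0,0,0,0,0,0,0],[0,1,0,0,0,0,0,0,0,0],[0,0,1,0,0,0,0,0,0,0],[0,0,0,1,0,0,0,0,0,0],[0,0,0,0,1,0,0,0,1,0],[0,0,0,0,0,1,0,0,0,0],[0,0,0,0,0,0,1,0,0,0],[0,0,0,0,0,0,0,1,0,0],[0,0,0,0,0,0,0,0,1,0],[0,0,0,0,0,-1,0,0,0,1]],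
   [[1,0,0,0,0,0,0,0,0,0],[0,1,0,0,0,0,0,0,0,0],[0,0,1,0,0,0,0,0,0,0],[0,0,0,1,0,0,0,0,0,0],[0,0,0,0,1,0,0,0,-1,0],[0,0,0,0,0,1,0,0,0,0],[0,0,0,0,0,0,1,0,0,0],[0,0,0,0,0,0,0,1,0,0],[0,0,0,0,0,0,0,0,1,0],[0,0,0,0,0,1,0,0,0,1]]⟩,
  ⟨none, [(1, true), (2, true), (0, true), (1, true), (2, true), (0, true), (1, true), (2, true), (0, true), (1, true), (2, true), (0, true)], [[1,0,0,0,0,0,0,0,0,0],[0,1,0,0,0,0,0,0,0,0],[0,0,1,0,0,0,0,0,0,0],[0,0,0,1,0,0,0,1,0,0],[0,0,0,0,1,0,0,0,0,0],[0,0,0,0,0,1,0,0,0,0],[0,0,-1,0,0,0,1,0,0,0],[0,0,0,0,0,0,0,1,0,0],[0,0,0,0,0,0,0,0,1,0],[0,0,0,0,0,0,0,0,0,1]],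
   [[1,0,0,0,0,0,0,0,0,0],[0,1,0,0,0,0,0,0,0,0],[0,0,1,0,0,0,0,0,0,0],[0,0,0,1,0,0,0,-1,0,0],[0,0,0,0,1,0,0,0,0,0],[0,0,0,0,0,1,0,0,0,0],[0,0,1,0,0,0,1,0,0,0],[0,0,0,0,0,0,0,1,0,0],[0,0,0,0,0,0,0,0,1,0],[0,0,0,0,0,0,0,0,0,1]]⟩,
  ⟨none, [(2, true), (1, true), (2, true), (0, true), (2, true), (2, true), (1, true), (2, true), (0, true), (2, true), (2, true), (1, true), (2, true), (0, true), (2, true), (2, true), (1, true), (2, true), (0, true), (2, true)], [[1,0,0,1,0,0,0,0,0,0],[0,1,0,0,0,0,0,0,0,0],[0,1,1,0,0,0,0,0,0,0],[0,0,0,1,0,0,0,0,0,0],[0,0,0,0,1,0,0,0,0,0],[0,0,0,0,0,1,0,0,0,0],[0,0,0,0,0,0,1,0,0,0],[0,0,0,0,0,0,0,1,0,0],[0,0,0,0,0,0,0,0,1,0],[0,0,0,0,0,0,0,0,0,1]],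
   [[1,0,0,-1,0,0,0,0,0,0],[0,1,0,0,0,0,0,0,0,0],[0,-1,1,0,0,0,0,0,0,0],[0,0,0,1,0,0,0,0,0,0],[0,0,0,0,1,0,0,0,0,0],[0,0,0,0,0,1,0,0,0,0],[0,0,0,0,0,0,1,0,0,0],[0,0,0,0,0,0,0,1,0,0],[0,0,0,0,0,0,0,0,1,0],[0,0,0,0,0,0,0,0,0,1]]⟩,
  ⟨none, [(0, true), (2, true), (1, true), (2, true), (0, true), (2, true), (0, true), (0, true), (2, true), (1, true), (2, true), (0, true), (2, true), (0, true), (0, true), (2, true), (1, true), (2, true), (0, true), (2, true), (0, true), (0, true), (2, true), (1, true), (2, true), (0, true), (2, true), (0, true)], [[1,0,0,0,0,0,0,0,0,0],[0,1,0,0,0,0,0,0,0,-1],[0,0,1,0,0,0,0,0,0,0],[0,0,0,1,0,0,0,0,0,0],[0,0,0,0,1,0,0,0,0,0],[0,0,0,0,0,1,0,0,0,0],[0,0,0,0,0,0,1,0,0,0],[0,0,0,0,0,0,0,1,0,0],[1,0,0,0,0,0,0,0,1,0],[0,0,0,0,0,0,0,0,0,1]],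
   [[1,0,0,0,0,0,0,0,0,0],[0,1,0,0,0,0,0,0,0,1],[0,0,1,0,0,0,0,0,0,0],[0,0,0,1,0,0,0,0,0,0],[0,0,0,0,1,0,0,0,0,0],[0,0,0,0,0,1,0,0,0,0],[0,0,0,0,0,0,1,0,0,0],[0,0,0,0,0,0,0,1,0,0],[-1,0,0,0,0,0,0,0,1,0],[0,0,0,0,0,0,0,0,0,1]]⟩,
  ⟨none, [(1, true), (0, true), (2, true), (1, true), (2, true), (0, true), (2, true), (1, true), (0, true), (1, true), (0, true), (2, true), (1, true), (2, true), (0, true), (2, true), (1, true), (0, true), (1, true), (0, true), (2, true), (1, true), (2, true), (0, true), (2, true), (1, true), (0, true), (1, true), (0, true), (2, true), (1, true), (2, true), (0, true), (2, true), (1, true), (0, true)], [[1,0,0,-1,0,1,0,0,0,0],[0,1,0,0,0,0,0,0,0,0],[0,-1,1,0,0,0,0,0,0,0],[0,0,0,1,0,0,0,0,0,0],[0,1,0,0,1,0,0,0,0,0],[0,0,0,0,0,1,0,0,0,0],[0,0,0,0,0,0,1,0,0,0],[0,0,0,0,0,0,0,1,0,0],[0,0,0,0,0,0,0,0,1,0],[0,0,0,0,0,0,0,0,0,1]],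
   [[1,0,0,1,0,-1,0,0,0,0],[0,1,0,0,0,0,0,0,0,0],[0,1,1,0,0,0,0,0,0,0],[0,0,0,1,0,0,0,0,0,0],[0,-1,0,0,1,0,0,0,0,0],[0,0,0,0,0,1,0,0,0,0],[0,0,0,0,0,0,1,0,0,0],[0,0,0,0,0,0,0,1,0,0],[0,0,0,0,0,0,0,0,1,0],[0,0,0,0,0,0,0,0,0,1]]⟩,
  ⟨none, [(2, true), (0, true), (2, true), (1, true), (2, true), (0, true), (2, true), (0, true), (2, true), (2, true), (0, true), (2, true), (1, true), (2, true), (0, true), (2, true), (0, true), (2, true), (2, true), (0, true), (2, true), (1, true), (2, true), (0, true), (2, true), (0, true), (2, true), (2, true), (0, true), (2, true), (1, true), (2, true), (0, true), (2, true), (0, true), (2, true)], [[1,0,0,0,0,0,0,0,0,0],[0,1,0,0,0,0,0,0,0,0],[0,0,1,0,0,0,0,0,0,0],[0,0,0,1,0,0,0,0,0,0],[0,0,0,0,1,0,-1,0,0,0],[0,0,0,0,0,1,1,0,0,0],[0,0,0,0,0,0,1,0,0,0],[0,0,0,0,1,1,0,1,0,0],[0,0,0,0,0,0,0,0,1,0],[0,0,0,0,0,0,0,0,0,1]],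
   [[1,0,0,0,0,0,0,0,0,0],[0,1,0,0,0,0,0,0,0,0],[0,0,1,0,0,0,0,0,0,0],[0,0,0,1,0,0,0,0,0,0],[0,0,0,0,1,0,1,0,0,0],[0,0,0,0,0,1,-1,0,0,0],[0,0,0,0,0,0,1,0,0,0],[0,0,0,0,-1,-1,0,1,0,0],[0,0,0,0,0,0,0,0,1,0],[0,0,0,0,0,0,0,0,0,1]]⟩,
  ⟨none, [(0, true), (2, true), (0, true), (2, true), (1, true), (2, true), (0, true), (2, true), (0, true), (2, true), (0, true), (0, true), (2, true), (0, true), (2, true), (1, true), (2, true), (0, true), (2, true), (0, true), (2, true), (0, true), (0, true), (2, true), (0, true), (2, true), (1, true), (2, true), (0, true), (2, true), (0, true), (2, true), (0, true), (0, true), (2, true), (0, true), (2, true), (1, true), (2, true), (0, true), (2, true), (0, true), (2, true), (0,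 true)], [[1,0,0,0,0,0,0,0,0,0],[0,1,0,0,0,0,0,0,0,0],[0,0,1,0,0,0,0,0,0,0],[0,0,0,1,0,0,0,0,0,0],[0,0,0,0,1,0,0,0,0,0],[0,0,0,0,0,1,-1,-1,0,0],[0,0,0,0,1,0,1,0,0,0],[0,0,0,0,-1,0,0,1,0,0],[0,0,0,0,0,0,0,0,1,0],[0,0,0,0,0,0,0,0,0,1]],
   [[1,0,0,0,0,0,0,0,0,0],[0,1,0,0,0,0,0,0,0,0],[0,0,1,0,0,0,0,0,0,0],[0,0,0,1,0,0,0,0,0,0],[0,0,0,0,1,0,0,0,0,0],[0,0,0,0,0,1,1,1,0,0],[0,0,0,0,-1,0,1,0,0,0],[0,0,0,0,1,0,0,1,0,0],[0,0,0,0,0,0,0,0,1,0],[0,0,0,0,0,0,0,0,0,1]]⟩,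
  ⟨none, [(2, true), (1, true), (2, true), (1, true), (2, true), (0, true), (2, true), (1, true), (2, true), (2, true), (1, true), (2, true), (1, true), (2, true), (0, true), (2, true), (1, true), (2, true), (2, true), (1, true), (2, true), (1, true), (2, true), (0, true), (2, true), (1, true), (2, true), (2, true), (1, true), (2, true), (1, true), (2, true), (0, true), (2, true), (1, true), (2, true)], [[1,0,0,0,0,0,1,0,0,0],[0,1,0,0,0,0,0,0,0,0],[0,0,1,0,0,0,0,0,0,0],[0,0,0,1,0,0,0,0,0,0],[0,0,0,0,1,0,1,0,0,0],[0,0,0,0,0,1,-1,0,0,0],[0,0,0,0,0,0,1,0,0,0],[0,-1,0,0,-1,-1,0,1,0,0],[0,0,0,0,0,0,0,0,1,0],[0,0,0,0,0,0,0,0,0,1]],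
   [[1,0,0,0,0,0,-1,0,0,0],[0,1,0,0,0,0,0,0,0,0],[0,0,1,0,0,0,0,0,0,0],[0,0,0,1,0,0,0,0,0,0],[0,0,0,0,1,0,-1,0,0,0],[0,0,0,0,0,1,1,0,0,0],[0,0,0,0,0,0,1,0,0,0],[0,1,0,0,1,1,0,1,0,0],[0,0,0,0,0,0,0,0,1,0],[0,0,0,0,0,0,0,0,0,1]]⟩,
  ⟨none, [(0, true), (2, true), (1, true), (2, true), (1, true), (2, true), (0, true), (2, true), (1, true), (2, true), (0, true), (0, true), (2, true), (1, true), (2, true), (1, true), (2, true), (0, true), (2, true), (1, true), (2, true), (0, true), (0, true), (2, true), (1, true), (2, true), (1, true), (2, true), (0, true), (2, true), (1, true), (2, true), (0, true), (0, true), (2, true), (1, true), (2, true), (1, true), (2, true), (0, true), (2, true), (1, true), (2, true), (0,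 true)], [[1,0,0,0,0,0,0,0,0,0],[0,1,0,0,-1,0,0,0,0,0],[0,0,1,0,0,0,0,0,0,0],[0,0,0,1,0,0,0,0,0,0],[0,0,0,0,1,0,0,0,0,0],[-1,0,0,0,0,1,1,1,0,0],[0,0,0,0,-1,0,1,0,0,0],[0,0,0,0,1,0,0,1,0,0],[0,0,0,0,0,0,0,0,1,0],[0,0,0,0,0,0,0,0,0,1]],
   [[1,0,0,0,0,0,0,0,0,0],[0,1,0,0,1,0,0,0,0,0],[0,0,1,0,0,0,0,0,0,0],[0,0,0,1,0,0,0,0,0,0],[0,0,0,0,1,0,0,0,0,0],[1,0,0,0,0,1,-1,-1,0,0],[0,0,0,0,1,0,1,0,0,0],[0,0,0,0,-1,0,0,1,0,0],[0,0,0,0,0,0,0,0,1,0],[0,0,0,0,0,0,0,0,0,1]]⟩,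
  ⟨none, [(4, true), (7, true), (4, false), (7, false)], [[1,0,0,0,0,0,0,0,0,0],[0,1,0,0,0,-1,0,0,0,0],[0,0,1,0,0,0,0,0,0,0],[0,0,0,1,0,0,0,0,0,0],[1,0,0,0,1,0,0,0,0,0],[0,0,0,0,0,1,0,0,0,0],[0,0,0,0,0,0,1,0,0,0],[0,0,0,0,0,0,0,1,0,0],[0,0,0,0,0,0,0,0,1,0],[0,0,0,0,0,0,0,0,0,1]],
   [[1,0,0,0,0,0,0,0,0,0],[0,1,0,0,0,1,0,0,0,0],[0,0,1,0,0,0,0,0,0,0],[0,0,0,1,0,0,0,0,0,0],[-1,0,0,0,1,0,0,0,0,0],[0,0,0,0,0,1,0,0,0,0],[0,0,0,0,0,0,1,0,0,0],[0,0,0,0,0,0,0,1,0,0],[0,0,0,0,0,0,0,0,1,0],[0,0,0,0,0,0,0,0,0,1]]⟩,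
  ⟨none, [(5, true), (6, true), (5, false), (6, false)], [[1,0,0,0,0,0,0,-1,0,0],[0,1,0,0,0,0,0,0,0,0],[0,0,1,0,0,0,0,0,0,0],[0,0,0,1,0,0,0,0,0,0],[0,0,0,0,1,0,0,0,0,0],[0,0,0,0,0,1,0,0,0,0],[0,-1,0,0,0,0,1,0,0,0],[0,0,0,0,0,0,0,1,0,0],[0,0,0,0,0,0,0,0,1,0],[0,0,0,0,0,0,0,0,0,1]],
   [[1,0,0,0,0,0,0,1,0,0],[0,1,0,0,0,0,0,0,0,0],[0,0,1,0,0,0,0,0,0,0],[0,0,0,1,0,0,0,0,0,0],[0,0,0,0,1,0,0,0,0,0],[0,0,0,0,0,1,0,0,0,0],[0,1,0,0,0,0,1,0,0,0],[0,0,0,0,0,0,0,1,0,0],[0,0,0,0,0,0,0,0,1,0],[0,0,0,0,0,0,0,0,0,1]]⟩,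
  ⟨none, [(6, true), (7, true), (6, false), (7, false)], [[1,0,0,0,0,0,0,0,0,0],[0,1,0,0,0,0,0,0,0,0],[0,0,1,0,0,0,0,0,0,-1],[0,0,0,1,0,0,0,0,0,0],[0,0,0,0,1,0,0,0,0,0],[0,0,0,0,0,1,0,0,0,0],[0,0,0,0,0,0,1,0,0,0],[0,0,0,0,0,0,0,1,0,0],[0,0,0,-1,0,0,0,0,1,0],[0,0,0,0,0,0,0,0,0,1]],
   [[1,0,0,0,0,0,0,0,0,0],[0,1,0,0,0,0,0,0,0,0],[0,0,1,0,0,0,0,0,0,1],[0,0,0,1,0,0,0,0,0,0],[0,0,0,0,1,0,0,0,0,0],[0,0,0,0,0,1,0,0,0,0],[0,0,0,0,0,0,1,0,0,0],[0,0,0,0,0,0,0,1,0,0],[0,0,0,1,0,0,0,0,1,0],[0,0,0,0,0,0,0,0,0,1]]⟩,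
  ⟨none, [(2, true), (13, true), (2, false)], [[1,0,0,0,0,0,0,0,0,0],[0,1,0,0,0,0,0,0,0,0],[0,0,1,0,0,0,0,0,0,0],[0,0,0,1,0,0,0,0,0,0],[0,0,0,0,1,0,0,0,0,0],[0,0,0,0,0,1,0,0,0,0],[0,0,0,0,0,0,1,0,0,0],[0,0,0,0,0,0,0,1,1,0],[0,0,0,0,0,0,0,0,1,0],[0,0,0,0,0,0,1,0,0,1]],
   [[1,0,0,0,0,0,0,0,0,0],[0,1,0,0,0,0,0,0,0,0],[0,0,1,0,0,0,0,0,0,0],[0,0,0,1,0,0,0,0,0,0],[0,0,0,0,1,0,0,0,0,0],[0,0,0,0,0,1,0,0,0,0],[0,0,0,0,0,0,1,0,0,0],[0,0,0,0,0,0,0,1,-1,0],[0,0,0,0,0,0,0,0,1,0],[0,0,0,0,0,0,-1,0,0,1]]⟩,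
  ⟨none, [(13, true), (6, true), (13, false), (6, false)], [[1,0,0,0,0,0,0,0,0,0],[0,1,0,0,0,0,0,0,0,0],[0,0,1,0,0,1,0,0,0,0],[0,0,0,1,0,0,0,0,0,0],[0,0,0,1,1,0,0,0,0,0],[0,0,0,0,0,1,0,0,0,0],[0,0,0,0,0,0,1,0,0,0],[0,0,0,0,0,0,0,1,0,0],[0,0,0,0,0,0,0,0,1,0],[0,0,0,0,0,0,0,0,0,1]],
   [[1,0,0,0,0,0,0,0,0,0],[0,1,0,0,0,0,0,0,0,0],[0,0,1,0,0,-1,0,0,0,0],[0,0,0,1,0,0,0,0,0,0],[0,0,0,-1,1,0,0,0,0,0],[0,0,0,0,0,1,0,0,0,0],[0,0,0,0,0,0,1,0,0,0],[0,0,0,0,0,0,0,1,0,0],[0,0,0,0,0,0,0,0,1,0],[0,0,0,0,0,0,0,0,0,1]]⟩,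
  ⟨none, [(14, true), (16, true), (14, false), (16, false)], [[1,0,0,0,0,0,0,0,-1,0],[0,1,0,0,0,0,0,0,0,0],[0,0,1,0,0,0,0,0,0,0],[0,0,0,1,0,0,0,0,0,0],[0,0,0,0,1,0,0,0,0,0],[0,0,0,0,0,1,0,0,0,0],[0,0,0,0,0,0,1,0,0,0],[0,0,0,0,0,0,0,1,0,0],[0,0,0,0,0,0,0,0,1,0],[0,1,0,0,0,0,0,0,0,1]],
   [[1,0,0,0,0,0,0,0,1,0],[0,1,0,0,0,0,0,0,0,0],[0,0,1,0,0,0,0,0,0,0],[0,0,0,1,0,0,0,0,0,0],[0,0,0,0,1,0,0,0,0,0],[0,0,0,0,0,1,0,0,0,0],[0,0,0,0,0,0,1,0,0,0],[0,0,0,0,0,0,0,1,0,0],[0,0,0,0,0,0,0,0,1,0],[0,-1,0,0,0,0,0,0,0,1]]⟩,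
  ⟨none, [(15, true), (16, true), (15, false), (16, false)], [[1,0,0,0,0,0,0,0,0,0],[0,1,0,0,0,0,0,0,0,0],[0,0,1,0,0,0,-1,0,0,0],[0,0,0,1,0,0,0,0,0,0],[0,0,0,0,1,0,0,0,0,0],[0,0,0,0,0,1,0,0,0,0],[0,0,0,0,0,0,1,0,0,0],[0,0,0,1,0,0,0,1,0,0],[0,0,0,0,0,0,0,0,1,0],[0,0,0,0,0,0,0,0,0,1]],
   [[1,0,0,0,0,0,0,0,0,0],[0,1,0,0,0,0,0,0,0,0],[0,0,1,0,0,0,1,0,0,0],[0,0,0,1,0,0,0,0,0,0],[0,0,0,0,1,0,0,0,0,0],[0,0,0,0,0,1,0,0,0,0],[0,0,0,0,0,0,1,0,0,0],[0,0,0,-1,0,0,0,1,0,0],[0,0,0,0,0,0,0,0,1,0],[0,0,0,0,0,0,0,0,0,1]]⟩,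
  ⟨none, [(0, true), (18, true), (0, false)], [[1,0,0,0,0,0,0,0,0,0],[0,1,-1,0,0,0,0,0,0,0],[0,0,1,0,0,0,0,0,0,0],[-1,0,0,1,0,0,0,0,0,0],[0,0,0,0,1,0,0,0,0,0],[0,0,0,0,0,1,0,0,0,0],[0,0,0,0,0,0,1,0,0,0],[0,0,0,0,0,0,0,1,0,0],[0,0,0,0,0,0,0,0,1,0],[0,0,0,0,0,0,0,0,0,1]],
   [[1,0,0,0,0,0,0,0,0,0],[0,1,1,0,0,0,0,0,0,0],[0,0,1,0,0,0,0,0,0,0],[1,0,0,1,0,0,0,0,0,0],[0,0,0,0,1,0,0,0,0,0],[0,0,0,0,0,1,0,0,0,0],[0,0,0,0,0,0,1,0,0,0],[0,0,0,0,0,0,0,1,0,0],[0,0,0,0,0,0,0,0,1,0],[0,0,0,0,0,0,0,0,0,1]]⟩,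
  ⟨none, [(0, true), (19, true), (0, false)], [[1,0,0,0,0,0,0,0,0,0],[0,1,0,0,0,0,0,0,0,0],[0,0,1,0,0,0,0,0,0,0],[0,0,0,1,0,0,0,0,0,0],[0,0,0,0,1,0,0,0,0,0],[0,0,0,0,0,1,0,0,0,1],[0,0,0,0,0,0,1,0,0,0],[0,0,0,0,0,0,0,1,0,0],[0,0,0,0,-1,0,0,0,1,0],[0,0,0,0,0,0,0,0,0,1]],
   [[1,0,0,0,0,0,0,0,0,0],[0,1,0,0,0,0,0,0,0,0],[0,0,1,0,0,0,0,0,0,0],[0,0,0,1,0,0,0,0,0,0],[0,0,0,0,1,0,0,0,0,0],[0,0,0,0,0,1,0,0,0,-1],[0,0,0,0,0,0,1,0,0,0],[0,0,0,0,0,0,0,1,0,0],[0,0,0,0,1,0,0,0,1,0],[0,0,0,0,0,0,0,0,0,1]]⟩,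
  ⟨none, [(16, true), (21, true), (16, false), (21, false)], [[1,0,0,0,0,0,0,0,0,0],[0,1,0,0,0,0,0,0,0,0],[0,0,1,0,0,0,0,0,0,0],[0,0,0,1,0,0,0,0,0,0],[0,0,0,0,1,0,0,0,0,0],[0,0,0,0,0,1,-1,0,0,0],[0,0,0,0,0,0,1,0,0,0],[0,0,0,0,-1,0,0,1,0,0],[0,0,0,0,0,0,0,0,1,0],[0,0,0,0,0,0,0,0,0,1]],
   [[1,0,0,0,0,0,0,0,0,0],[0,1,0,0,0,0,0,0,0,0],[0,0,1,0,0,0,0,0,0,0],[0,0,0,1,0,0,0,0,0,0],[0,0,0,0,1,0,0,0,0,0],[0,0,0,0,0,1,1,0,0,0],[0,0,0,0,0,0,1,0,0,0],[0,0,0,0,1,0,0,1,0,0],[0,0,0,0,0,0,0,0,1,0],[0,0,0,0,0,0,0,0,0,1]]⟩,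
  ⟨none, [(6, true), (8, true)], [[1,0,0,0,0,1,0,0,0,0],[0,1,0,0,0,0,0,0,0,0],[0,0,1,0,0,0,0,0,0,0],[0,0,0,1,0,0,0,0,0,0],[0,1,0,0,1,0,0,0,0,0],[0,0,0,0,0,1,0,0,0,0],[0,0,0,0,0,0,1,0,0,0],[0,0,0,0,0,0,0,1,0,0],[0,0,0,0,0,0,0,0,1,0],[0,0,0,0,0,0,0,0,0,1]],
   [[1,0,0,0,0,-1,0,0,0,0],[0,1,0,0,0,0,0,0,0,0],[0,0,1,0,0,0,0,0,0,0],[0,0,0,1,0,0,0,0,0,0],[0,-1,0,0,1,0,0,0,0,0],[0,0,0,0,0,1,0,0,0,0],[0,0,0,0,0,0,1,0,0,0],[0,0,0,0,0,0,0,1,0,0],[0,0,0,0,0,0,0,0,1,0],[0,0,0,0,0,0,0,0,0,1]]⟩,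
  ⟨none, [(11, true), (9, true)], [[1,0,0,0,0,0,1,0,0,0],[0,1,0,0,0,0,0,0,0,0],[0,0,1,0,0,0,0,0,0,0],[0,0,0,1,0,0,0,0,0,0],[0,0,0,0,1,0,0,0,0,0],[0,0,0,0,0,1,0,0,0,0],[0,0,0,0,0,0,1,0,0,0],[0,-1,0,0,0,0,0,1,0,0],[0,0,0,0,0,0,0,0,1,0],[0,0,0,0,0,0,0,0,0,1]],
   [[1,0,0,0,0,0,-1,0,0,0],[0,1,0,0,0,0,0,0,0,0],[0,0,1,0,0,0,0,0,0,0],[0,0,0,1,0,0,0,0,0,0],[0,0,0,0,1,0,0,0,0,0],[0,0,0,0,0,1,0,0,0,0],[0,0,0,0,0,0,1,0,0,0],[0,1,0,0,0,0,0,1,0,0],[0,0,0,0,0,0,0,0,1,0],[0,0,0,0,0,0,0,0,0,1]]⟩,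
  ⟨none, [(12, true), (10, true)], [[1,0,0,0,0,0,0,0,0,0],[0,1,0,0,-1,0,0,0,0,0],[0,0,1,0,0,0,0,0,0,0],[0,0,0,1,0,0,0,0,0,0],[0,0,0,0,1,0,0,0,0,0],[-1,0,0,0,0,1,0,0,0,0],[0,0,0,0,0,0,1,0,0,0],[0,0,0,0,0,0,0,1,0,0],[0,0,0,0,0,0,0,0,1,0],[0,0,0,0,0,0,0,0,0,1]],
   [[1,0,0,0,0,0,0,0,0,0],[0,1,0,0,1,0,0,0,0,0],[0,0,1,0,0,0,0,0,0,0],[0,0,0,1,0,0,0,0,0,0],[0,0,0,0,1,0,0,0,0,0],[1,0,0,0,0,1,0,0,0,0],[0,0,0,0,0,0,1,0,0,0],[0,0,0,0,0,0,0,1,0,0],[0,0,0,0,0,0,0,0,1,0],[0,0,0,0,0,0,0,0,0,1]]⟩,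
  ⟨none, [(22, true), (9, true)], [[1,0,0,0,0,0,0,0,0,0],[0,1,0,0,0,0,0,0,0,0],[0,0,1,0,0,0,0,0,0,0],[0,0,0,1,0,0,0,0,0,0],[0,0,0,0,1,0,-1,0,0,0],[0,0,0,0,0,1,0,0,0,0],[0,0,0,0,0,0,1,0,0,0],[0,0,0,0,0,1,1,1,0,0],[0,0,0,0,0,0,0,0,1,0],[0,0,0,0,0,0,0,0,0,1]],
   [[1,0,0,0,0,0,0,0,0,0],[0,1,0,0,0,0,0,0,0,0],[0,0,1,0,0,0,0,0,0,0],[0,0,0,1,0,0,0,0,0,0],[0,0,0,0,1,0,1,0,0,0],[0,0,0,0,0,1,0,0,0,0],[0,0,0,0,0,0,1,0,0,0],[0,0,0,0,0,-1,-1,1,0,0],[0,0,0,0,0,0,0,0,1,0],[0,0,0,0,0,0,0,0,0,1]]⟩,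
  ⟨none, [(2, true), (23, true), (2, false)], [[1,0,0,0,0,0,0,0,0,0],[0,1,0,0,0,0,0,0,0,0],[0,0,1,0,0,0,0,0,0,0],[0,0,0,1,0,0,0,0,0,0],[0,0,0,0,1,0,0,0,0,0],[0,0,0,0,0,1,0,0,0,0],[0,0,0,0,0,0,1,0,-1,0],[0,0,0,0,0,0,0,1,0,0],[0,0,0,0,0,0,0,0,1,0],[0,0,0,0,0,0,0,1,0,1]],
   [[1,0,0,0,0,0,0,0,0,0],[0,1,0,0,0,0,0,0,0,0],[0,0,1,0,0,0,0,0,0,0],[0,0,0,1,0,0,0,0,0,0],[0,0,0,0,1,0,0,0,0,0],[0,0,0,0,0,1,0,0,0,0],[0,0,0,0,0,0,1,0,1,0],[0,0,0,0,0,0,0,1,0,0],[0,0,0,0,0,0,0,0,1,0],[0,0,0,0,0,0,0,-1,0,1]]⟩,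
  ⟨none, [(5, true), (24, true), (5, false), (24, false)], [[1,0,1,0,0,0,0,0,0,0],[0,1,0,0,0,0,0,0,0,0],[0,0,1,0,0,0,0,0,0,0],[0,-1,0,1,0,0,0,0,0,0],[0,0,0,0,1,0,0,0,0,0],[0,0,0,0,0,1,0,0,0,0],[0,0,0,0,0,0,1,0,0,0],[0,0,0,0,0,0,0,1,0,0],[0,0,0,0,0,0,0,0,1,0],[0,0,0,0,0,0,0,0,0,1]],
   [[1,0,-1,0,0,0,0,0,0,0],[0,1,0,0,0,0,0,0,0,0],[0,0,1,0,0,0,0,0,0,0],[0,1,0,1,0,0,0,0,0,0],[0,0,0,0,1,0,0,0,0,0],[0,0,0,0,0,1,0,0,0,0],[0,0,0,0,0,0,1,0,0,0],[0,0,0,0,0,0,0,1,0,0],[0,0,0,0,0,0,0,0,1,0],[0,0,0,0,0,0,0,0,0,1]]⟩,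
  ⟨none, [(6, true), (25, true), (6, false), (25, false)], [[1,0,0,0,0,0,0,0,0,0],[0,1,0,0,0,0,0,0,0,0],[0,0,1,0,-1,0,0,0,0,0],[0,0,0,1,0,0,0,0,0,0],[0,0,0,0,1,0,0,0,0,0],[0,0,0,1,0,1,0,0,0,0],[0,0,0,0,0,0,1,0,0,0],[0,0,0,0,0,0,0,1,0,0],[0,0,0,0,0,0,0,0,1,0],[0,0,0,0,0,0,0,0,0,1]],
   [[1,0,0,0,0,0,0,0,0,0],[0,1,0,0,0,0,0,0,0,0],[0,0,1,0,1,0,0,0,0,0],[0,0,0,1,0,0,0,0,0,0],[0,0,0,0,1,0,0,0,0,0],[0,0,0,-1,0,1,0,0,0,0],[0,0,0,0,0,0,1,0,0,0],[0,0,0,0,0,0,0,1,0,0],[0,0,0,0,0,0,0,0,1,0],[0,0,0,0,0,0,0,0,0,1]]⟩,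
  ⟨none, [(7, true), (24, true), (7, false), (24, false)], [[1,0,0,0,0,0,0,0,0,0],[0,1,0,0,0,0,0,0,0,0],[0,0,1,0,0,0,0,0,0,0],[0,0,0,1,0,0,0,0,0,0],[0,0,0,0,1,0,0,0,0,0],[0,0,0,0,0,1,0,0,0,0],[0,0,0,0,0,0,1,0,0,0],[0,0,0,0,0,0,0,1,0,-1],[0,0,0,0,0,0,1,0,1,0],[0,0,0,0,0,0,0,0,0,1]],
   [[1,0,0,0,0,0,0,0,0,0],[0,1,0,0,0,0,0,0,0,0],[0,0,1,0,0,0,0,0,0,0],[0,0,0,1,0,0,0,0,0,0],[0,0,0,0,1,0,0,0,0,0],[0,0,0,0,0,1,0,0,0,0],[0,0,0,0,0,0,1,0,0,0],[0,0,0,0,0,0,0,1,0,1],[0,0,0,0,0,0,-1,0,1,0],[0,0,0,0,0,0,0,0,0,1]]⟩,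
  ⟨none, [(13, true), (24, true), (13, false), (24, false)], [[1,0,0,0,0,0,0,0,0,0],[0,1,0,0,0,0,0,0,0,0],[0,0,1,0,0,0,0,0,0,0],[0,0,0,1,0,0,0,0,0,0],[0,0,0,0,1,0,1,0,0,0],[0,0,0,0,0,1,0,0,0,0],[0,0,0,0,0,0,1,0,0,0],[0,0,0,0,0,-1,0,1,0,0],[0,0,0,0,0,0,0,0,1,0],[0,0,0,0,0,0,0,0,0,1]],
   [[1,0,0,0,0,0,0,0,0,0],[0,1,0,0,0,0,0,0,0,0],[0,0,1,0,0,0,0,0,0,0],[0,0,0,1,0,0,0,0,0,0],[0,0,0,0,1,0,-1,0,0,0],[0,0,0,0,0,1,0,0,0,0],[0,0,0,0,0,0,1,0,0,0],[0,0,0,0,0,1,0,1,0,0],[0,0,0,0,0,0,0,0,1,0],[0,0,0,0,0,0,0,0,0,1]]⟩,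
  ⟨none, [(14, true), (25, true), (14, false), (25, false)], [[1,0,0,0,0,0,0,0,0,0],[0,1,0,0,0,0,0,0,0,0],[0,0,1,0,0,0,0,0,0,0],[0,0,0,1,0,0,0,0,0,0],[0,0,0,0,1,0,0,0,0,0],[0,0,0,0,0,1,0,-1,0,0],[0,0,0,0,1,0,1,0,0,0],[0,0,0,0,0,0,0,1,0,0],[0,0,0,0,0,0,0,0,1,0],[0,0,0,0,0,0,0,0,0,1]],
   [[1,0,0,0,0,0,0,0,0,0],[0,1,0,0,0,0,0,0,0,0],[0,0,1,0,0,0,0,0,0,0],[0,0,0,1,0,0,0,0,0,0],[0,0,0,0,1,0,0,0,0,0],[0,0,0,0,0,1,0,1,0,0],[0,0,0,0,-1,0,1,0,0,0],[0,0,0,0,0,0,0,1,0,0],[0,0,0,0,0,0,0,0,1,0],[0,0,0,0,0,0,0,0,0,1]]⟩,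
  ⟨none, [(17, true), (25, true), (17, false), (25, false)], [[1,0,0,0,0,0,0,0,0,0],[0,1,0,1,0,0,0,0,0,0],[-1,0,1,0,0,0,0,0,0,0],[0,0,0,1,0,0,0,0,0,0],[0,0,0,0,1,0,0,0,0,0],[0,0,0,0,0,1,0,0,0,0],[0,0,0,0,0,0,1,0,0,0],[0,0,0,0,0,0,0,1,0,0],[0,0,0,0,0,0,0,0,1,0],[0,0,0,0,0,0,0,0,0,1]],
   [[1,0,0,0,0,0,0,0,0,0],[0,1,0,-1,0,0,0,0,0,0],[1,0,1,0,0,0,0,0,0,0],[0,0,0,1,0,0,0,0,0,0],[0,0,0,0,1,0,0,0,0,0],[0,0,0,0,0,1,0,0,0,0],[0,0,0,0,0,0,1,0,0,0],[0,0,0,0,0,0,0,1,0,0],[0,0,0,0,0,0,0,0,1,0],[0,0,0,0,0,0,0,0,0,1]]⟩,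
  ⟨none, [(20, true), (23, true), (20, false), (23, false)], [[1,0,0,0,0,0,0,0,0,0],[0,1,0,0,0,0,0,0,0,0],[0,0,1,0,0,0,0,0,0,0],[0,0,0,1,0,-1,0,0,0,0],[0,0,1,0,1,0,0,0,0,0],[0,0,0,0,0,1,0,0,0,0],[0,0,0,0,0,0,1,0,0,0],[0,0,0,0,0,0,0,1,0,0],[0,0,0,0,0,0,0,0,1,0],[0,0,0,0,0,0,0,0,0,1]],
   [[1,0,0,0,0,0,0,0,0,0],[0,1,0,0,0,0,0,0,0,0],[0,0,1,0,0,0,0,0,0,0],[0,0,0,1,0,1,0,0,0,0],[0,0,-1,0,1,0,0,0,0,0],[0,0,0,0,0,1,0,0,0,0],[0,0,0,0,0,0,1,0,0,0],[0,0,0,0,0,0,0,1,0,0],[0,0,0,0,0,0,0,0,1,0],[0,0,0,0,0,0,0,0,0,1]]⟩,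
  ⟨none, [(31, true), (26, true)], [[1,0,0,0,0,0,0,0,0,0],[0,1,0,0,0,0,0,0,0,0],[0,0,1,0,0,0,0,0,0,0],[0,0,0,1,0,0,0,0,0,0],[0,0,0,0,1,0,0,0,0,0],[0,0,0,0,0,1,0,0,0,0],[0,0,0,0,0,0,1,0,0,0],[0,0,0,0,0,0,1,1,0,0],[0,0,0,0,0,0,0,0,1,0],[0,0,0,0,0,0,0,0,0,1]],
   [[1,0,0,0,0,0,0,0,0,0],[0,1,0,0,0,0,0,0,0,0],[0,0,1,0,0,0,0,0,0,0],[0,0,0,1,0,0,0,0,0,0],[0,0,0,0,1,0,0,0,0,0],[0,0,0,0,0,1,0,0,0,0],[0,0,0,0,0,0,1,0,0,0],[0,0,0,0,0,0,-1,1,0,0],[0,0,0,0,0,0,0,0,1,0],[0,0,0,0,0,0,0,0,0,1]]⟩,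
  ⟨none, [(2, true), (35, true), (2, false)], [[1,0,0,0,0,0,0,0,0,0],[1,1,0,0,0,0,0,0,0,0],[0,0,1,0,0,0,0,0,0,0],[0,0,0,1,0,0,0,0,0,0],[0,0,0,0,1,0,0,0,0,0],[0,0,0,0,0,1,0,0,0,0],[0,0,0,0,0,0,1,0,0,0],[0,0,0,0,0,0,0,1,0,0],[0,0,0,0,0,0,0,0,1,0],[0,0,0,0,0,0,0,0,0,1]],
   [[1,0,0,0,0,0,0,0,0,0],[-1,1,0,0,0,0,0,0,0,0],[0,0,1,0,0,0,0,0,0,0],[0,0,0,1,0,0,0,0,0,0],[0,0,0,0,1,0,0,0,0,0],[0,0,0,0,0,1,0,0,0,0],[0,0,0,0,0,0,1,0,0,0],[0,0,0,0,0,0,0,1,0,0],[0,0,0,0,0,0,0,0,1,0],[0,0,0,0,0,0,0,0,0,1]]⟩,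
  ⟨none, [(0, true), (36, true), (0, false)], [[1,-1,0,0,0,0,0,0,0,0],[0,1,0,0,0,0,0,0,0,0],[0,0,1,0,0,0,0,0,0,0],[0,0,0,1,0,0,0,0,0,0],[0,0,0,0,1,0,0,0,0,0],[0,0,0,0,0,1,0,0,0,0],[0,0,0,0,0,0,1,0,0,0],[0,0,0,0,0,0,0,1,0,0],[0,0,0,0,0,0,0,0,1,0],[0,0,0,0,0,0,0,0,0,1]],
   [[1,1,0,0,0,0,0,0,0,0],[0,1,0,0,0,0,0,0,0,0],[0,0,1,0,0,0,0,0,0,0],[0,0,0,1,0,0,0,0,0,0],[0,0,0,0,1,0,0,0,0,0],[0,0,0,0,0,1,0,0,0,0],[0,0,0,0,0,0,1,0,0,0],[0,0,0,0,0,0,0,1,0,0],[0,0,0,0,0,0,0,0,1,0],[0,0,0,0,0,0,0,0,0,1]]⟩,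
  ⟨none, [(2, true), (37, true), (2, false)], [[1,0,0,0,0,0,0,0,0,0],[0,1,0,0,0,0,0,0,0,0],[0,0,1,0,0,0,0,0,0,0],[0,0,0,1,0,0,0,0,0,0],[0,0,0,0,1,0,0,0,0,0],[0,0,0,0,0,1,0,0,0,0],[0,0,0,0,0,0,1,-1,0,0],[0,0,0,0,0,0,0,1,0,0],[0,0,0,0,0,0,0,0,1,0],[0,0,0,0,0,0,0,0,0,1]],
   [[1,0,0,0,0,0,0,0,0,0],[0,1,0,0,0,0,0,0,0,0],[0,0,1,0,0,0,0,0,0,0],[0,0,0,1,0,0,0,0,0,0],[0,0,0,0,1,0,0,0,0,0],[0,0,0,0,0,1,0,0,0,0],[0,0,0,0,0,0,1,1,0,0],[0,0,0,0,0,0,0,1,0,0],[0,0,0,0,0,0,0,0,1,0],[0,0,0,0,0,0,0,0,0,1]]⟩,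
  ⟨none, [(0, true), (38, true), (0, false)], [[1,0,0,0,0,0,0,0,0,0],[0,1,0,0,0,0,0,0,0,0],[0,0,1,0,0,0,0,0,0,0],[0,0,0,1,0,0,0,0,0,0],[0,0,0,0,1,-1,0,0,0,0],[0,0,0,0,0,1,0,0,0,0],[0,0,0,0,0,0,1,0,0,0],[0,0,0,0,0,0,0,1,0,0],[0,0,0,0,0,0,0,0,1,0],[0,0,0,0,0,0,0,0,0,1]],
   [[1,0,0,0,0,0,0,0,0,0],[0,1,0,0,0,0,0,0,0,0],[0,0,1,0,0,0,0,0,0,0],[0,0,0,1,0,0,0,0,0,0],[0,0,0,0,1,1,0,0,0,0],[0,0,0,0,0,1,0,0,0,0],[0,0,0,0,0,0,1,0,0,0],[0,0,0,0,0,0,0,1,0,0],[0,0,0,0,0,0,0,0,1,0],[0,0,0,0,0,0,0,0,0,1]]⟩,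
  ⟨none, [(2, true), (39, true), (2, false)], [[1,0,0,0,0,0,0,0,0,0],[0,1,0,0,0,0,0,0,0,0],[0,0,1,0,0,0,0,0,0,0],[0,0,0,1,0,0,0,0,0,0],[0,0,0,0,1,0,0,0,0,0],[0,0,0,0,0,1,0,0,0,0],[0,0,0,0,0,0,1,0,0,0],[0,0,0,0,0,0,0,1,0,0],[0,0,0,0,0,0,0,0,1,0],[0,0,0,0,0,0,0,0,1,1]],
   [[1,0,0,0,0,0,0,0,0,0],[0,1,0,0,0,0,0,0,0,0],[0,0,1,0,0,0,0,0,0,0],[0,0,0,1,0,0,0,0,0,0],[0,0,0,0,1,0,0,0,0,0],[0,0,0,0,0,1,0,0,0,0],[0,0,0,0,0,0,1,0,0,0],[0,0,0,0,0,0,0,1,0,0],[0,0,0,0,0,0,0,0,1,0],[0,0,0,0,0,0,0,0,-1,1]]⟩,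
  ⟨none, [(0, true), (40, true), (0, false)], [[1,0,0,0,0,0,0,0,0,0],[0,1,0,0,0,0,0,0,0,0],[0,0,1,0,0,0,0,0,0,0],[0,0,1,1,0,0,0,0,0,0],[0,0,0,0,1,0,0,0,0,0],[0,0,0,0,0,1,0,0,0,0],[0,0,0,0,0,0,1,0,0,0],[0,0,0,0,0,0,0,1,0,0],[0,0,0,0,0,0,0,0,1,0],[0,0,0,0,0,0,0,0,0,1]],
   [[1,0,0,0,0,0,0,0,0,0],[0,1,0,0,0,0,0,0,0,0],[0,0,1,0,0,0,0,0,0,0],[0,0,-1,1,0,0,0,0,0,0],[0,0,0,0,1,0,0,0,0,0],[0,0,0,0,0,1,0,0,0,0],[0,0,0,0,0,0,1,0,0,0],[0,0,0,0,0,0,0,1,0,0],[0,0,0,0,0,0,0,0,1,0],[0,0,0,0,0,0,0,0,0,1]]⟩,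
  ⟨none, [(2, true), (41, true), (2, false)], [[1,0,0,0,0,0,0,0,0,0],[0,1,0,0,0,0,0,0,0,0],[0,0,1,-1,0,0,0,0,0,0],[0,0,0,1,0,0,0,0,0,0],[0,0,0,0,1,0,0,0,0,0],[0,0,0,0,0,1,0,0,0,0],[0,0,0,0,0,0,1,0,0,0],[0,0,0,0,0,0,0,1,0,0],[0,0,0,0,0,0,0,0,1,0],[0,0,0,0,0,0,0,0,0,1]],
   [[1,0,0,0,0,0,0,0,0,0],[0,1,0,0,0,0,0,0,0,0],[0,0,1,1,0,0,0,0,0,0],[0,0,0,1,0,0,0,0,0,0],[0,0,0,0,1,0,0,0,0,0],[0,0,0,0,0,1,0,0,0,0],[0,0,0,0,0,0,1,0,0,0],[0,0,0,0,0,0,0,1,0,0],[0,0,0,0,0,0,0,0,1,0],[0,0,0,0,0,0,0,0,0,1]]⟩,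
  ⟨none, [(0, true), (42, true), (0, false)], [[1,0,0,0,0,0,0,0,0,0],[0,1,0,0,0,0,0,0,0,0],[0,0,1,0,0,0,0,0,0,0],[0,0,0,1,0,0,0,0,0,0],[0,0,0,0,1,0,0,0,0,0],[0,0,0,0,0,1,0,0,0,0],[0,0,0,0,0,0,1,0,0,0],[0,0,0,0,0,0,0,1,0,0],[0,0,0,0,0,0,0,0,1,-1],[0,0,0,0,0,0,0,0,0,1]],
   [[1,0,0,0,0,0,0,0,0,0],[0,1,0,0,0,0,0,0,0,0],[0,0,1,0,0,0,0,0,0,0],[0,0,0,1,0,0,0,0,0,0],[0,0,0,0,1,0,0,0,0,0],[0,0,0,0,0,1,0,0,0,0],[0,0,0,0,0,0,1,0,0,0],[0,0,0,0,0,0,0,1,0,0],[0,0,0,0,0,0,0,0,1,1],[0,0,0,0,0,0,0,0,0,1]]⟩]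

theorem chkC5 : check 10 [] [(aC5, aC5'), (bC5, bC5'), (cC5, cC5'), (negL 10, negL 10)] stepsC5 = true := by decide +kernel

theorem tgtC5 : hasAll stepsC5 (targetsC 5) = true := by decide +kernel

theorem vaC5 (G : Subgroup (Matrix (WP 5) (WP 5) ℤ)ˣ) (hF : FullC G) :
    Mem G (emb (sgC (segC 5 0 5 (by norm_num))) (toMat 10 aC5)) :=
  hF.word (r := 5) (segC_inj _) [(0, none), (1, none), (2, some 9), (3, some 8), (4, some 7), (5, some 6)]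
    [(0, true), (1, false), (0, true), (2, false), (3, true), (2, false), (4, true), (5, false), (4, true)] (M' := aC5')
    (by decide +kernel) (by decide +kernel) (by decide +kernel)

theorem vbC5 (G : Subgroup (Matrix (WP 5) (WP 5) ℤ)ˣ) (hF : FullC G) :
    Mem G (emb (sgC (segC 5 0 5 (by norm_num))) (toMat 10 bC5)) :=
  hF.word (r := 5) (segC_inj _) [(6, some 9), (0, none), (1, none), (2, some 9), (3, some 8), (4, some 7), (5, some 6)]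
    [(0, true), (1, false), (2, true), (1, false), (3, false), (4, true), (3, false), (5, false), (6, true), (5, false), (0, false)] (M' := bC5')
    (by decide +kernel) (by decide +kernel) (by decide +kernel)

theorem vcC5 (G : Subgroup (Matrix (WP 5) (WP 5) ℤ)ˣ) (hF : FullC G) :
    Mem G (emb (sgC (segC 5 0 5 (by norm_num))) (toMat 10 cC5)) :=
  hF.word (r := 5) (segC_inj _) [(4, none), (0, some 7), (1, some 6), (2, none), (3, none), (4, some 8), (5, some 9)]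
    [(0, false), (1, false), (2, true), (1, false), (3, false), (4, true), (3, false), (5, true), (6, true), (5, true), (0, true)] (M' := cC5')
    (by decide +kernel) (by decide +kernel) (by decide +kernel)

theorem resC5 {K L : Type*} [Field K] [CharZero K] [LieRing L] [LieAlgebra K L]
    {H : LieSubalgebra K L} (B : LieAlgebra.Basis (Fin 5) H) [LieAlgebra.IsSimple K L]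
    (hB : B.A = CartanMatrix.C 5) : ThreeInvolutions (Gad B) :=
  smallC B (by norm_num) hB aC5 bC5 cC5 aC5' bC5' cC5' stepsC5 (by decide +kernel)
    (by decide +kernel) (by decide +kernel) (by decide +kernel) (by decide +kernel)
    (by decide +kernel) (by decide +kernel) vaC5 vbC5 vcC5 (by decide +kernel) chkC5 tgtC5

end MP9bf44d
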