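import Pool.Agent.Lib.H68.Small

/-! # Certificate for type D_5 (computer found) -/

namespace MP9bf44d

open Matrix

set_option maxRecDepth 100000

def aD5 : LM := [[1,0,0,0,0,0,0,0,0,0],[0,1,0,0,0,0,0,0,0,0],[0,0,0,0,0,0,0,1,0,0],[0,0,0,0,0,0,1,0,0,0],[0,0,0,0,0,0,0,0,-1,0],[0,0,0,0,0,0,0,0,0,-1],[0,0,0,1,0,0,0,0,0,0],[0,0,1,0,0,0,0,0,0,0],[0,0,0,0,-1,0,0,0,0,0],[0,0,0,0,0,-1,0,0,0,0]]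
def bD5 : LM := [[1,0,0,0,0,0,0,0,0,0],[0,1,0,0,0,0,0,0,0,0],[0,0,0,0,1,0,0,0,0,0],[0,0,0,0,0,1,0,-1,0,0],[0,0,1,0,0,0,0,0,0,0],[0,0,0,1,0,0,0,0,-1,0],[0,0,-1,0,0,0,0,0,0,-1],[0,0,0,0,0,0,0,0,-1,0],[0,0,0,0,0,0,0,-1,0,0],[0,0,0,0,-1,0,-1,0,0,0]]
def cD5 : LM := [[0,0,0,-1,0,0,0,0,1,0],[0,0,0,0,0,0,0,0,0,1],[0,-1,1,0,0,0,0,0,0,1],[0,0,0,1,0,0,0,0,0,0],[0,0,0,0,0,0,1,0,0,0],[0,0,0,0,0,0,0,1,0,0],[0,0,0,0,1,0,0,0,0,0],[0,0,0,0,0,1,0,0,0,0],[1,0,0,1,0,0,0,0,0,0],[0,1,0,0,0,0,0,0,0,0]]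

def stepsD5 : List Step := [
  ⟨none, [(1, true), (2, true), (0, true), (2, true), (0, true), (2, true), (1, true), (0, true), (2, true), (0, true), (1, true), (2, true), (0, true), (2, true), (0, true), (2, true), (1, true), (0, true), (2, true), (0, true), (1, true), (2, true), (0, true), (2, true), (0, true), (2, true), (1, true), (0, true), (2, true), (0, true), (1, true), (2, true), (0, true), (2, true), (0, true), (2, true), (1, true), (0, true), (2, true), (0, true)], [[1,0,0,0,0,0,0,0,0,0],[0,1,0,0,0,0,-1,0,0,0],[0,0,1,0,0,0,1,0,0,0],[0,0,0,1,0,0,0,0,0,0],[0,0,0,0,1,0,0,0,0,0],[0,0,0,0,0,1,-1,0,0,0],[0,0,0,0,0,0,1,0,0,0],[1,0,0,-1,1,0,0,1,-1,0],[0,0,0,0,0,0,0,0,1,0],[0,0,0,0,0,0,1,0,0,1]],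
   [[1,0,0,0,0,0,0,0,0,0],[0,1,0,0,0,0,1,0,0,0],[0,0,1,0,0,0,-1,0,0,0],[0,0,0,1,0,0,0,0,0,0],[0,0,0,0,1,0,0,0,0,0],[0,0,0,0,0,1,1,0,0,0],[0,0,0,0,0,0,1,0,0,0],[-1,0,0,1,-1,0,0,1,1,0],[0,0,0,0,0,0,0,0,1,0],[0,0,0,0,0,0,-1,0,0,1]]⟩,
  ⟨none, [(2, true), (1, true), (2, true), (1, true), (0, true), (2, true), (1, true), (0, true), (2, true), (0, true), (2, true), (1, true), (0, true), (2, true), (2, true), (1, true), (2, true), (1, true), (0, true), (2, true), (1, true), (0, true), (2, true), (0, true), (2, true), (1, true), (0, true), (2, true), (2, true), (1, true), (2, true), (1, true), (0, true), (2, true), (1, true), (0, true), (2, true), (0, true), (2, true), (1, true), (0, true), (2, true), (2, true), (1,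 true), (2, true), (1, true), (0, true), (2, true), (1, true), (0, true), (2, true), (0, true), (2, true), (1, true), (0, true), (2, true)], [[1,0,0,0,0,0,0,0,0,0],[0,1,0,0,-1,0,0,0,0,0],[0,0,1,0,1,0,0,0,0,0],[0,0,0,1,0,0,0,0,0,0],[0,0,0,0,1,0,0,0,0,0],[1,0,0,-1,0,1,0,1,0,1],[0,0,0,0,-1,0,1,0,0,0],[0,0,0,0,0,0,0,1,0,0],[0,0,0,0,-1,0,0,0,1,0],[0,0,0,0,0,0,0,0,0,1]],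
   [[1,0,0,0,0,0,0,0,0,0],[0,1,0,0,1,0,0,0,0,0],[0,0,1,0,-1,0,0,0,0,0],[0,0,0,1,0,0,0,0,0,0],[0,0,0,0,1,0,0,0,0,0],[-1,0,0,1,0,1,0,-1,0,-1],[0,0,0,0,1,0,1,0,0,0],[0,0,0,0,0,0,0,1,0,0],[0,0,0,0,1,0,0,0,1,0],[0,0,0,0,0,0,0,0,0,1]]⟩,
  ⟨none, [(1, true), (2, true), (1, true), (0, true), (2, true), (1, true), (2, true), (1, true), (2, true), (0, true), (1, true), (2, true), (1, true), (0, true), (2, true), (1, true), (2, true), (1, true), (2, true), (0, true), (1, true), (2, true), (1, true), (0, true), (2, true), (1, true), (2, true), (1, true), (2, true), (0, true), (1, true), (2, true), (1, true), (0, true), (2, true), (1, true), (2, true), (1, true), (2, true), (0, true)], [[1,0,0,0,0,0,1,0,0,0],[0,1,0,0,0,0,0,0,0,0],[0,0,1,0,0,0,0,0,0,0],[0,0,0,1,0,0,2,0,0,0],[0,0,0,0,1,0,0,0,0,0],[0,0,0,0,0,1,1,0,0,0],[0,0,0,0,0,0,1,0,0,0],[0,-1,-2,0,-1,0,0,1,0,-1],[0,0,0,0,0,0,1,0,1,0],[0,0,0,0,0,0,0,0,0,1]],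
   [[1,0,0,0,0,0,-1,0,0,0],[0,1,0,0,0,0,0,0,0,0],[0,0,1,0,0,0,0,0,0,0],[0,0,0,1,0,0,-2,0,0,0],[0,0,0,0,1,0,0,0,0,0],[0,0,0,0,0,1,-1,0,0,0],[0,0,0,0,0,0,1,0,0,0],[0,1,2,0,1,0,0,1,0,1],[0,0,0,0,0,0,-1,0,1,0],[0,0,0,0,0,0,0,0,0,1]]⟩,
  ⟨none, [(2, true), (1, true), (0, true), (2, true), (1, true), (0, true), (2, true), (1, true), (2, true), (1, true), (2, true), (1, true), (0, true), (2, true), (1, true), (0, true), (2, true), (1, true), (2, true), (1, true), (2, true), (1, true), (0, true), (2, true), (1, true), (0, true), (2, true), (1, true), (2, true), (1, true), (2, true), (1, true), (0, true), (2, true), (1, true), (0, true), (2, true), (1, true), (2, true), (1, true)], [[1,0,0,0,0,0,0,0,0,0],[0,1,0,-1,0,0,0,0,0,0],[1,0,1,0,0,-2,0,1,0,-1],[0,0,0,1,0,0,0,0,0,0],[0,0,0,2,1,0,0,0,0,0],[0,0,0,0,0,1,0,0,0,0],[0,0,0,-1,0,0,1,0,0,0],[0,0,0,0,0,0,0,1,0,0],[0,0,0,1,0,0,0,0,1,0],[0,0,0,0,0,0,0,0,0,1]],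
   [[1,0,0,0,0,0,0,0,0,0],[0,1,0,1,0,0,0,0,0,0],[-1,0,1,0,0,2,0,-1,0,1],[0,0,0,1,0,0,0,0,0,0],[0,0,0,-2,1,0,0,0,0,0],[0,0,0,0,0,1,0,0,0,0],[0,0,0,1,0,0,1,0,0,0],[0,0,0,0,0,0,0,1,0,0],[0,0,0,-1,0,0,0,0,1,0],[0,0,0,0,0,0,0,0,0,1]]⟩,
  ⟨none, [(1, true), (2, true), (0, true), (2, true), (1, true), (0, true), (2, true), (1, true), (0, true), (2, true), (1, true), (0, true), (1, true), (2, true), (0, true), (2, true), (1, true), (0, true), (2, true), (1, true), (0, true), (2, true), (1, true), (0, true), (1, true), (2, true), (0, true), (2, true), (1, true), (0, true), (2, true), (1, true), (0, true), (2, true), (1, true), (0, true), (1, true), (2, true), (0, true), (2, true), (1, true), (0, true), (2, true), (1,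 true), (0, true), (2, true), (1, true), (0, true)], [[1,0,0,1,0,0,0,0,0,0],[0,1,0,0,0,0,0,0,0,0],[0,-1,1,0,1,0,2,0,0,1],[0,0,0,1,0,0,0,0,0,0],[0,0,0,0,1,0,0,0,0,0],[0,0,0,-1,0,1,0,0,0,0],[0,0,0,0,0,0,1,0,0,0],[0,0,0,-2,0,0,0,1,0,0],[0,0,0,-1,0,0,0,0,1,0],[0,0,0,0,0,0,0,0,0,1]],
   [[1,0,0,-1,0,0,0,0,0,0],[0,1,0,0,0,0,0,0,0,0],[0,1,1,0,-1,0,-2,0,0,-1],[0,0,0,1,0,0,0,0,0,0],[0,0,0,0,1,0,0,0,0,0],[0,0,0,1,0,1,0,0,0,0],[0,0,0,0,0,0,1,0,0,0],[0,0,0,2,0,0,0,1,0,0],[0,0,0,1,0,0,0,0,1,0],[0,0,0,0,0,0,0,0,0,1]]⟩,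
  ⟨none, [(2, true), (0, true), (2, true), (1, true), (0, true), (2, true), (1, true), (0, true), (2, true), (1, true), (2, true), (1, true), (0, true), (2, true), (2, true), (0, true), (2, true), (1, true), (0, true), (2, true), (1, true), (0, true), (2, true), (1, true), (2, true), (1, true), (0, true), (2, true), (2, true), (0, true), (2, true), (1, true), (0, true), (2, true), (1, true), (0, true), (2, true), (1, true), (2, true), (1, true), (0, true), (2, true), (2, true), (0, true), (2, true), (1, true), (0, true), (2, true), (1, true), (0, true), (2, true), (1, true), (2, true), (1, true), (0, true), (2, true)], [[1,0,0,0,-1,0,0,0,0,0],[0,1,0,0,0,0,0,0,0,0],[0,0,1,0,1,0,0,0,0,0],[0,0,0,1,-1,0,0,0,0,0],[0,0,0,0,1,0,0,0,0,0],[0,1,1,-1,0,1,0,1,1,1],[0,0,0,0,-1,0,1,0,0,0],[0,0,0,0,0,0,0,1,0,0],[0,0,0,0,-1,0,0,0,1,0],[0,0,0,0,-1,0,0,0,0,1]],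
   [[1,0,0,0,1,0,0,0,0,0],[0,1,0,0,0,0,0,0,0,0],[0,0,1,0,-1,0,0,0,0,0],[0,0,0,1,1,0,0,0,0,0],[0,0,0,0,1,0,0,0,0,0],[0,-1,-1,1,0,1,0,-1,-1,-1],[0,0,0,0,1,0,1,0,0,0],[0,0,0,0,0,0,0,1,0,0],[0,0,0,0,1,0,0,0,1,0],[0,0,0,0,1,0,0,0,0,1]]⟩,
  ⟨none, [(1, true), (8, true), (1, false)], [[1,0,-1,0,0,0,0,0,0,0],[0,1,0,0,0,0,0,0,0,0],[0,0,1,0,0,0,0,0,0,0],[0,1,0,1,0,-1,-1,0,-1,0],[0,0,1,0,1,0,0,0,0,0],[0,0,0,0,0,1,0,0,0,0],[0,0,0,0,0,0,1,0,0,0],[0,0,1,0,0,0,0,1,0,0],[0,0,0,0,0,0,0,0,1,0],[0,0,1,0,0,0,0,0,0,1]],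
   [[1,0,1,0,0,0,0,0,0,0],[0,1,0,0,0,0,0,0,0,0],[0,0,1,0,0,0,0,0,0,0],[0,-1,0,1,0,1,1,0,1,0],[0,0,-1,0,1,0,0,0,0,0],[0,0,0,0,0,1,0,0,0,0],[0,0,0,0,0,0,1,0,0,0],[0,0,-1,0,0,0,0,1,0,0],[0,0,0,0,0,0,0,0,1,0],[0,0,-1,0,0,0,0,0,0,1]]⟩,
  ⟨none, [(3, true), (7, true), (3, false)], [[1,0,0,1,0,0,0,0,0,0],[0,1,0,0,0,0,0,0,0,0],[0,-1,1,0,1,0,0,0,0,1],[0,0,0,1,0,0,0,0,0,0],[0,0,0,0,1,0,0,0,0,0],[0,0,0,-1,0,1,0,0,0,0],[0,0,0,0,0,0,1,0,0,0],[0,0,0,0,0,0,0,1,0,0],[0,0,0,-1,0,0,0,0,1,0],[0,0,0,0,0,0,0,0,0,1]],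
   [[1,0,0,-1,0,0,0,0,0,0],[0,1,0,0,0,0,0,0,0,0],[0,1,1,0,-1,0,0,0,0,-1],[0,0,0,1,0,0,0,0,0,0],[0,0,0,0,1,0,0,0,0,0],[0,0,0,1,0,1,0,0,0,0],[0,0,0,0,0,0,1,0,0,0],[0,0,0,0,0,0,0,1,0,0],[0,0,0,1,0,0,0,0,1,0],[0,0,0,0,0,0,0,0,0,1]]⟩,
  ⟨none, [(9, true), (5, true), (9, false)], [[1,0,0,0,0,0,1,0,0,0],[0,1,0,0,0,0,0,0,0,0],[0,0,1,0,0,0,0,0,0,0],[0,0,0,1,0,0,0,0,0,0],[0,0,0,0,1,0,0,0,0,0],[0,0,0,0,0,1,1,0,0,0],[0,0,0,0,0,0,1,0,0,0],[0,-1,0,0,-1,0,0,1,0,-1],[0,0,0,0,0,0,1,0,1,0],[0,0,0,0,0,0,0,0,0,1]],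
   [[1,0,0,0,0,0,-1,0,0,0],[0,1,0,0,0,0,0,0,0,0],[0,0,1,0,0,0,0,0,0,0],[0,0,0,1,0,0,0,0,0,0],[0,0,0,0,1,0,0,0,0,0],[0,0,0,0,0,1,-1,0,0,0],[0,0,0,0,0,0,1,0,0,0],[0,1,0,0,1,0,0,1,0,1],[0,0,0,0,0,0,-1,0,1,0],[0,0,0,0,0,0,0,0,0,1]]⟩,
  ⟨none, [(10, false), (4, true), (10, true)], [[1,0,0,0,0,0,0,0,0,0],[0,1,0,0,-1,0,0,0,0,0],[0,0,1,0,0,0,0,0,0,0],[0,0,0,1,0,0,0,0,0,0],[0,0,0,0,1,0,0,0,0,0],[1,0,0,0,0,1,0,1,0,1],[0,0,0,0,-1,0,1,0,0,0],[0,0,0,0,0,0,0,1,0,0],[0,0,0,0,-1,0,0,0,1,0],[0,0,0,0,0,0,0,0,0,1]],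
   [[1,0,0,0,0,0,0,0,0,0],[0,1,0,0,1,0,0,0,0,0],[0,0,1,0,0,0,0,0,0,0],[0,0,0,1,0,0,0,0,0,0],[0,0,0,0,1,0,0,0,0,0],[-1,0,0,0,0,1,0,-1,0,-1],[0,0,0,0,1,0,1,0,0,0],[0,0,0,0,0,0,0,1,0,0],[0,0,0,0,1,0,0,0,1,0],[0,0,0,0,0,0,0,0,0,1]]⟩,
  ⟨none, [(0, true), (9, true), (0, true)], [[1,0,0,0,0,0,0,-1,0,0],[0,1,0,0,0,0,0,0,0,0],[0,0,1,0,0,0,0,1,0,0],[0,0,0,1,0,0,0,0,0,0],[0,0,0,0,1,0,0,0,0,0],[0,0,0,0,0,1,0,-1,0,0],[0,1,0,-1,1,0,1,0,0,1],[0,0,0,0,0,0,0,1,0,0],[0,0,0,0,0,0,0,-1,1,0],[0,0,0,0,0,0,0,0,0,1]],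
   [[1,0,0,0,0,0,0,1,0,0],[0,1,0,0,0,0,0,0,0,0],[0,0,1,0,0,0,0,-1,0,0],[0,0,0,1,0,0,0,0,0,0],[0,0,0,0,1,0,0,0,0,0],[0,0,0,0,0,1,0,1,0,0],[0,-1,0,1,-1,0,1,0,0,-1],[0,0,0,0,0,0,0,1,0,0],[0,0,0,0,0,0,0,1,1,0],[0,0,0,0,0,0,0,0,0,1]]⟩,
  ⟨none, [(12, false), (13, true), (12, true)], [[1,0,0,0,0,0,0,-1,0,0],[0,1,0,0,0,0,0,0,0,0],[0,0,1,0,0,0,0,1,0,0],[0,0,0,1,0,0,0,0,0,0],[0,0,0,0,1,0,0,0,0,0],[0,0,0,0,0,1,0,0,0,0],[0,1,0,-1,0,0,1,0,0,1],[0,0,0,0,0,0,0,1,0,0],[0,0,0,0,0,0,0,-1,1,0],[0,0,0,0,0,0,0,0,0,1]],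
   [[1,0,0,0,0,0,0,1,0,0],[0,1,0,0,0,0,0,0,0,0],[0,0,1,0,0,0,0,-1,0,0],[0,0,0,1,0,0,0,0,0,0],[0,0,0,0,1,0,0,0,0,0],[0,0,0,0,0,1,0,0,0,0],[0,-1,0,1,0,0,1,0,0,-1],[0,0,0,0,0,0,0,1,0,0],[0,0,0,0,0,0,0,1,1,0],[0,0,0,0,0,0,0,0,0,1]]⟩,
  ⟨none, [(3, true), (4, true), (3, false)], [[1,0,0,0,0,0,0,0,0,0],[0,1,0,0,0,0,0,0,0,0],[0,0,1,0,0,0,0,0,0,0],[0,0,0,1,0,0,0,0,0,0],[0,0,0,0,1,0,0,0,0,0],[0,0,0,0,0,1,-1,1,1,1],[0,0,0,0,-1,0,1,0,0,0],[0,0,0,0,1,0,0,1,0,0],[0,0,0,0,-1,0,0,0,1,0],[0,0,0,0,-1,0,0,0,0,1]],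
   [[1,0,0,0,0,0,0,0,0,0],[0,1,0,0,0,0,0,0,0,0],[0,0,1,0,0,0,0,0,0,0],[0,0,0,1,0,0,0,0,0,0],[0,0,0,0,1,0,0,0,0,0],[0,0,0,0,0,1,1,-1,-1,-1],[0,0,0,0,1,0,1,0,0,0],[0,0,0,0,-1,0,0,1,0,0],[0,0,0,0,1,0,0,0,1,0],[0,0,0,0,1,0,0,0,0,1]]⟩,
  ⟨none, [(11, false), (15, true), (11, true)], [[1,0,0,0,1,0,0,0,0,0],[0,1,0,0,0,0,0,0,0,0],[0,0,1,0,0,0,0,0,0,0],[0,0,0,1,0,0,0,0,0,0],[0,0,0,0,1,0,0,0,0,0],[0,-1,0,0,0,1,0,1,1,0],[0,0,0,0,-1,0,1,0,0,0],[0,0,0,0,0,0,0,1,0,0],[0,0,0,0,0,0,0,0,1,0],[0,0,0,0,-1,0,0,0,0,1]],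
   [[1,0,0,0,-1,0,0,0,0,0],[0,1,0,0,0,0,0,0,0,0],[0,0,1,0,0,0,0,0,0,0],[0,0,0,1,0,0,0,0,0,0],[0,0,0,0,1,0,0,0,0,0],[0,1,0,0,0,1,0,-1,-1,0],[0,0,0,0,1,0,1,0,0,0],[0,0,0,0,0,0,0,1,0,0],[0,0,0,0,0,0,0,0,1,0],[0,0,0,0,1,0,0,0,0,1]]⟩,
  ⟨none, [(14, false), (16, true), (14, true)], [[1,0,0,0,1,0,0,0,0,0],[0,1,0,0,0,0,0,0,0,0],[0,0,1,0,0,0,0,0,0,0],[0,0,0,1,0,0,0,0,0,0],[0,0,0,0,1,0,0,0,0,0],[0,-1,0,0,0,1,0,0,1,0],[0,0,0,0,0,0,1,0,0,0],[0,0,0,0,0,0,0,1,0,0],[0,0,0,0,0,0,0,0,1,0],[0,0,0,0,-1,0,0,0,0,1]],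
   [[1,0,0,0,-1,0,0,0,0,0],[0,1,0,0,0,0,0,0,0,0],[0,0,1,0,0,0,0,0,0,0],[0,0,0,1,0,0,0,0,0,0],[0,0,0,0,1,0,0,0,0,0],[0,1,0,0,0,1,0,0,-1,0],[0,0,0,0,0,0,1,0,0,0],[0,0,0,0,0,0,0,1,0,0],[0,0,0,0,0,0,0,0,1,0],[0,0,0,0,1,0,0,0,0,1]]⟩,
  ⟨none, [(7, false), (6, true), (9, true), (7, false), (6, true), (9, true), (7, false), (6, true), (9, true)], [[1,0,0,-1,0,0,0,0,0,0],[0,1,0,0,0,0,0,0,0,0],[0,1,1,0,0,-1,-1,0,-1,0],[0,0,0,1,0,0,0,0,0,0],[0,0,0,1,1,0,0,0,0,0],[0,0,0,0,0,1,0,0,0,0],[0,0,0,0,0,0,1,0,0,0],[0,0,0,1,0,0,0,1,0,0],[0,0,0,0,0,0,0,0,1,0],[0,0,0,1,0,0,0,0,0,1]],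
   [[1,0,0,1,0,0,0,0,0,0],[0,1,0,0,0,0,0,0,0,0],[0,-1,1,0,0,1,1,0,1,0],[0,0,0,1,0,0,0,0,0,0],[0,0,0,-1,1,0,0,0,0,0],[0,0,0,0,0,1,0,0,0,0],[0,0,0,0,0,0,1,0,0,0],[0,0,0,-1,0,0,0,1,0,0],[0,0,0,0,0,0,0,0,1,0],[0,0,0,-1,0,0,0,0,0,1]]⟩,
  ⟨none, [(17, true), (18, true), (17, false)], [[1,0,0,0,0,0,0,0,0,0],[0,1,0,0,0,0,0,0,0,0],[0,0,1,0,0,-1,-1,0,0,0],[0,0,0,1,0,0,0,0,0,0],[0,0,0,1,1,0,0,0,0,0],[0,0,0,0,0,1,0,0,0,0],[0,0,0,0,0,0,1,0,0,0],[0,0,0,1,0,0,0,1,0,0],[0,0,0,0,0,0,0,0,1,0],[0,0,0,0,0,0,0,0,0,1]],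
   [[1,0,0,0,0,0,0,0,0,0],[0,1,0,0,0,0,0,0,0,0],[0,0,1,0,0,1,1,0,0,0],[0,0,0,1,0,0,0,0,0,0],[0,0,0,-1,1,0,0,0,0,0],[0,0,0,0,0,1,0,0,0,0],[0,0,0,0,0,0,1,0,0,0],[0,0,0,-1,0,0,0,1,0,0],[0,0,0,0,0,0,0,0,1,0],[0,0,0,0,0,0,0,0,0,1]]⟩,
  ⟨none, [(11, true), (19, true), (11, false)], [[1,0,0,0,0,0,0,0,0,0],[0,1,0,0,0,0,0,0,0,0],[0,0,1,0,0,-1,0,0,0,0],[0,0,0,1,0,0,0,0,0,0],[0,0,0,1,1,0,0,0,0,0],[0,0,0,0,0,1,0,0,0,0],[0,0,0,0,0,0,1,0,0,0],[0,0,0,0,0,0,0,1,0,0],[0,0,0,0,0,0,0,0,1,0],[0,0,0,0,0,0,0,0,0,1]],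
   [[1,0,0,0,0,0,0,0,0,0],[0,1,0,0,0,0,0,0,0,0],[0,0,1,0,0,1,0,0,0,0],[0,0,0,1,0,0,0,0,0,0],[0,0,0,-1,1,0,0,0,0,0],[0,0,0,0,0,1,0,0,0,0],[0,0,0,0,0,0,1,0,0,0],[0,0,0,0,0,0,0,1,0,0],[0,0,0,0,0,0,0,0,1,0],[0,0,0,0,0,0,0,0,0,1]]⟩,
  ⟨none, [(0, true), (20, true), (0, false)], [[1,0,0,0,0,0,0,0,0,0],[0,1,0,0,0,0,0,0,0,0],[0,0,1,0,0,0,0,0,0,0],[0,0,0,1,0,0,0,0,0,0],[0,0,0,0,1,0,0,0,0,0],[0,0,0,0,0,1,0,0,0,0],[0,0,0,0,0,0,1,0,0,0],[0,0,0,0,0,0,0,1,0,1],[0,0,0,0,0,0,-1,0,1,0],[0,0,0,0,0,0,0,0,0,1]],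
   [[1,0,0,0,0,0,0,0,0,0],[0,1,0,0,0,0,0,0,0,0],[0,0,1,0,0,0,0,0,0,0],[0,0,0,1,0,0,0,0,0,0],[0,0,0,0,1,0,0,0,0,0],[0,0,0,0,0,1,0,0,0,0],[0,0,0,0,0,0,1,0,0,0],[0,0,0,0,0,0,0,1,0,-1],[0,0,0,0,0,0,1,0,1,0],[0,0,0,0,0,0,0,0,0,1]]⟩,
  ⟨none, [(2, true), (20, true), (2, false)], [[1,0,0,0,0,0,0,0,0,0],[0,1,0,0,0,0,0,0,0,0],[0,0,1,0,0,0,0,-1,0,0],[0,0,0,1,0,0,0,0,0,0],[0,0,0,0,1,0,0,0,0,0],[0,0,0,0,0,1,0,0,0,0],[0,0,0,1,0,0,1,0,0,0],[0,0,0,0,0,0,0,1,0,0],[0,0,0,0,0,0,0,0,1,0],[0,0,0,0,0,0,0,0,0,1]],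
   [[1,0,0,0,0,0,0,0,0,0],[0,1,0,0,0,0,0,0,0,0],[0,0,1,0,0,0,0,1,0,0],[0,0,0,1,0,0,0,0,0,0],[0,0,0,0,1,0,0,0,0,0],[0,0,0,0,0,1,0,0,0,0],[0,0,0,-1,0,0,1,0,0,0],[0,0,0,0,0,0,0,1,0,0],[0,0,0,0,0,0,0,0,1,0],[0,0,0,0,0,0,0,0,0,1]]⟩,
  ⟨none, [(2, true), (21, true), (2, false)], [[1,0,0,0,-1,0,0,0,0,0],[0,1,0,0,0,0,0,0,0,0],[0,0,1,0,0,0,0,0,0,0],[0,0,0,1,0,0,0,0,0,0],[0,0,0,0,1,0,0,0,0,0],[0,1,0,0,0,1,0,0,0,0],[0,0,0,0,0,0,1,0,0,0],[0,0,0,0,0,0,0,1,0,0],[0,0,0,0,0,0,0,0,1,0],[0,0,0,0,0,0,0,0,0,1]],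
   [[1,0,0,0,1,0,0,0,0,0],[0,1,0,0,0,0,0,0,0,0],[0,0,1,0,0,0,0,0,0,0],[0,0,0,1,0,0,0,0,0,0],[0,0,0,0,1,0,0,0,0,0],[0,-1,0,0,0,1,0,0,0,0],[0,0,0,0,0,0,1,0,0,0],[0,0,0,0,0,0,0,1,0,0],[0,0,0,0,0,0,0,0,1,0],[0,0,0,0,0,0,0,0,0,1]]⟩,
  ⟨none, [(0, true), (22, true), (0, false)], [[1,0,0,0,0,0,0,0,0,0],[0,1,0,0,0,0,0,0,0,0],[0,0,1,0,0,0,0,0,0,0],[0,0,0,1,0,0,1,0,0,0],[0,0,0,0,1,0,0,0,0,0],[0,0,0,0,0,1,0,0,0,0],[0,0,0,0,0,0,1,0,0,0],[0,0,-1,0,0,0,0,1,0,0],[0,0,0,0,0,0,0,0,1,0],[0,0,0,0,0,0,0,0,0,1]],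
   [[1,0,0,0,0,0,0,0,0,0],[0,1,0,0,0,0,0,0,0,0],[0,0,1,0,0,0,0,0,0,0],[0,0,0,1,0,0,-1,0,0,0],[0,0,0,0,1,0,0,0,0,0],[0,0,0,0,0,1,0,0,0,0],[0,0,0,0,0,0,1,0,0,0],[0,0,1,0,0,0,0,1,0,0],[0,0,0,0,0,0,0,0,1,0],[0,0,0,0,0,0,0,0,0,1]]⟩,
  ⟨none, [(21, true), (22, true), (21, false), (22, false)], [[1,0,0,0,0,0,0,0,0,0],[0,1,0,0,0,0,0,0,0,0],[0,0,1,0,0,0,0,0,0,1],[0,0,0,1,0,0,0,0,0,0],[0,0,0,0,1,0,0,0,0,0],[0,0,0,0,0,1,0,0,0,0],[0,0,0,0,0,0,1,0,0,0],[0,0,0,0,0,0,0,1,0,0],[0,0,0,-1,0,0,0,0,1,0],[0,0,0,0,0,0,0,0,0,1]],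
   [[1,0,0,0,0,0,0,0,0,0],[0,1,0,0,0,0,0,0,0,0],[0,0,1,0,0,0,0,0,0,-1],[0,0,0,1,0,0,0,0,0,0],[0,0,0,0,1,0,0,0,0,0],[0,0,0,0,0,1,0,0,0,0],[0,0,0,0,0,0,1,0,0,0],[0,0,0,0,0,0,0,1,0,0],[0,0,0,1,0,0,0,0,1,0],[0,0,0,0,0,0,0,0,0,1]]⟩,
  ⟨none, [(0, true), (23, true), (0, false)], [[1,0,0,0,0,0,0,0,1,0],[0,1,0,0,0,0,0,0,0,0],[0,0,1,0,0,0,0,0,0,0],[0,0,0,1,0,0,0,0,0,0],[0,0,0,0,1,0,0,0,0,0],[0,0,0,0,0,1,0,0,0,0],[0,0,0,0,0,0,1,0,0,0],[0,0,0,0,0,0,0,1,0,0],[0,0,0,0,0,0,0,0,1,0],[0,-1,0,0,0,0,0,0,0,1]],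
   [[1,0,0,0,0,0,0,0,-1,0],[0,1,0,0,0,0,0,0,0,0],[0,0,1,0,0,0,0,0,0,0],[0,0,0,1,0,0,0,0,0,0],[0,0,0,0,1,0,0,0,0,0],[0,0,0,0,0,1,0,0,0,0],[0,0,0,0,0,0,1,0,0,0],[0,0,0,0,0,0,0,1,0,0],[0,0,0,0,0,0,0,0,1,0],[0,1,0,0,0,0,0,0,0,1]]⟩,
  ⟨none, [(1, true), (23, true), (1, false)], [[1,0,-1,0,0,0,0,0,0,0],[0,1,0,0,0,0,0,0,0,0],[0,0,1,0,0,0,0,0,0,0],[0,1,0,1,0,0,0,0,0,0],[0,0,0,0,1,0,0,0,0,0],[0,0,0,0,0,1,0,0,0,0],[0,0,0,0,0,0,1,0,0,0],[0,0,0,0,0,0,0,1,0,0],[0,0,0,0,0,0,0,0,1,0],[0,0,0,0,0,0,0,0,0,1]],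
   [[1,0,1,0,0,0,0,0,0,0],[0,1,0,0,0,0,0,0,0,0],[0,0,1,0,0,0,0,0,0,0],[0,-1,0,1,0,0,0,0,0,0],[0,0,0,0,1,0,0,0,0,0],[0,0,0,0,0,1,0,0,0,0],[0,0,0,0,0,0,1,0,0,0],[0,0,0,0,0,0,0,1,0,0],[0,0,0,0,0,0,0,0,1,0],[0,0,0,0,0,0,0,0,0,1]]⟩,
  ⟨none, [(0, true), (25, true), (0, false)], [[1,0,0,0,0,0,0,0,0,0],[0,1,0,0,0,0,0,0,0,0],[0,0,1,0,0,0,0,0,0,0],[0,0,0,1,0,0,0,0,0,0],[0,0,0,0,1,0,1,0,0,0],[0,0,0,0,0,1,0,0,0,0],[0,0,0,0,0,0,1,0,0,0],[0,0,0,0,0,-1,0,1,0,0],[0,0,0,0,0,0,0,0,1,0],[0,0,0,0,0,0,0,0,0,1]],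
   [[1,0,0,0,0,0,0,0,0,0],[0,1,0,0,0,0,0,0,0,0],[0,0,1,0,0,0,0,0,0,0],[0,0,0,1,0,0,0,0,0,0],[0,0,0,0,1,0,-1,0,0,0],[0,0,0,0,0,1,0,0,0,0],[0,0,0,0,0,0,1,0,0,0],[0,0,0,0,0,1,0,1,0,0],[0,0,0,0,0,0,0,0,1,0],[0,0,0,0,0,0,0,0,0,1]]⟩,
  ⟨none, [(23, true), (28, true), (23, false), (28, false)], [[1,0,0,0,0,0,-1,0,0,0],[0,1,0,0,0,0,0,0,0,0],[0,0,1,0,0,0,0,0,0,0],[0,0,0,1,0,0,0,0,0,0],[0,0,0,0,1,0,0,0,0,0],[0,0,0,0,0,1,0,0,0,0],[0,0,0,0,0,0,1,0,0,0],[0,1,0,0,0,0,0,1,0,0],[0,0,0,0,0,0,0,0,1,0],[0,0,0,0,0,0,0,0,0,1]],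
   [[1,0,0,0,0,0,1,0,0,0],[0,1,0,0,0,0,0,0,0,0],[0,0,1,0,0,0,0,0,0,0],[0,0,0,1,0,0,0,0,0,0],[0,0,0,0,1,0,0,0,0,0],[0,0,0,0,0,1,0,0,0,0],[0,0,0,0,0,0,1,0,0,0],[0,-1,0,0,0,0,0,1,0,0],[0,0,0,0,0,0,0,0,1,0],[0,0,0,0,0,0,0,0,0,1]]⟩,
  ⟨none, [(25, true), (27, true), (25, false), (27, false)], [[1,0,0,0,0,0,0,0,0,1],[0,1,0,0,0,0,0,0,0,0],[0,0,1,0,0,0,0,0,0,0],[0,0,0,1,0,0,0,0,0,0],[0,0,0,0,1,0,0,0,0,0],[0,0,0,0,0,1,0,0,0,0],[0,0,0,0,0,0,1,0,0,0],[0,0,0,0,0,0,0,1,0,0],[0,-1,0,0,0,0,0,0,1,0],[0,0,0,0,0,0,0,0,0,1]],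
   [[1,0,0,0,0,0,0,0,0,-1],[0,1,0,0,0,0,0,0,0,0],[0,0,1,0,0,0,0,0,0,0],[0,0,0,1,0,0,0,0,0,0],[0,0,0,0,1,0,0,0,0,0],[0,0,0,0,0,1,0,0,0,0],[0,0,0,0,0,0,1,0,0,0],[0,0,0,0,0,0,0,1,0,0],[0,1,0,0,0,0,0,0,1,0],[0,0,0,0,0,0,0,0,0,1]]⟩,
  ⟨none, [(1, true), (26, true), (1, false)], [[1,0,0,0,0,0,0,-1,0,0],[0,1,0,0,0,0,0,0,0,0],[0,0,1,0,0,0,0,0,0,0],[0,0,0,1,0,0,0,0,0,0],[0,0,0,0,1,0,0,0,0,0],[0,0,0,0,0,1,0,0,0,0],[0,1,0,0,0,0,1,0,0,0],[0,0,0,0,0,0,0,1,0,0],[0,0,0,0,0,0,0,0,1,0],[0,0,0,0,0,0,0,0,0,1]],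
   [[1,0,0,0,0,0,0,1,0,0],[0,1,0,0,0,0,0,0,0,0],[0,0,1,0,0,0,0,0,0,0],[0,0,0,1,0,0,0,0,0,0],[0,0,0,0,1,0,0,0,0,0],[0,0,0,0,0,1,0,0,0,0],[0,-1,0,0,0,0,1,0,0,0],[0,0,0,0,0,0,0,1,0,0],[0,0,0,0,0,0,0,0,1,0],[0,0,0,0,0,0,0,0,0,1]]⟩,
  ⟨none, [(2, true), (28, true), (2, false)], [[1,0,0,0,0,0,0,0,0,0],[0,1,0,0,0,0,0,0,0,0],[0,0,1,0,0,0,0,0,0,0],[0,0,0,1,0,0,0,0,0,0],[0,0,0,0,1,0,0,0,0,0],[0,0,0,0,0,1,0,-1,0,0],[0,0,0,0,1,0,1,0,0,0],[0,0,0,0,0,0,0,1,0,0],[0,0,0,0,0,0,0,0,1,0],[0,0,0,0,0,0,0,0,0,1]],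
   [[1,0,0,0,0,0,0,0,0,0],[0,1,0,0,0,0,0,0,0,0],[0,0,1,0,0,0,0,0,0,0],[0,0,0,1,0,0,0,0,0,0],[0,0,0,0,1,0,0,0,0,0],[0,0,0,0,0,1,0,1,0,0],[0,0,0,0,-1,0,1,0,0,0],[0,0,0,0,0,0,0,1,0,0],[0,0,0,0,0,0,0,0,1,0],[0,0,0,0,0,0,0,0,0,1]]⟩,
  ⟨none, [(2, true), (29, true), (2, false)], [[1,0,0,0,0,0,0,0,0,0],[0,1,0,0,0,0,0,0,0,0],[0,0,1,0,0,0,0,0,0,0],[0,0,0,1,0,0,0,0,0,0],[0,0,0,0,1,0,0,0,0,0],[0,0,0,0,0,1,0,0,0,1],[0,0,0,0,0,0,1,0,0,0],[0,0,0,0,0,0,0,1,0,0],[0,0,0,0,-1,0,0,0,1,0],[0,0,0,0,0,0,0,0,0,1]],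
   [[1,0,0,0,0,0,0,0,0,0],[0,1,0,0,0,0,0,0,0,0],[0,0,1,0,0,0,0,0,0,0],[0,0,0,1,0,0,0,0,0,0],[0,0,0,0,1,0,0,0,0,0],[0,0,0,0,0,1,0,0,0,-1],[0,0,0,0,0,0,1,0,0,0],[0,0,0,0,0,0,0,1,0,0],[0,0,0,0,1,0,0,0,1,0],[0,0,0,0,0,0,0,0,0,1]]⟩,
  ⟨none, [(0, true), (30, true), (0, false)], [[1,0,0,0,0,-1,0,0,0,0],[0,1,0,0,0,0,0,0,0,0],[0,0,1,0,0,0,0,0,0,0],[0,0,0,1,0,0,0,0,0,0],[0,1,0,0,1,0,0,0,0,0],[0,0,0,0,0,1,0,0,0,0],[0,0,0,0,0,0,1,0,0,0],[0,0,0,0,0,0,0,1,0,0],[0,0,0,0,0,0,0,0,1,0],[0,0,0,0,0,0,0,0,0,1]],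
   [[1,0,0,0,0,1,0,0,0,0],[0,1,0,0,0,0,0,0,0,0],[0,0,1,0,0,0,0,0,0,0],[0,0,0,1,0,0,0,0,0,0],[0,-1,0,0,1,0,0,0,0,0],[0,0,0,0,0,1,0,0,0,0],[0,0,0,0,0,0,1,0,0,0],[0,0,0,0,0,0,0,1,0,0],[0,0,0,0,0,0,0,0,1,0],[0,0,0,0,0,0,0,0,0,1]]⟩,
  ⟨none, [(2, true), (31, true), (2, false)], [[1,0,0,0,0,0,0,0,0,0],[0,1,0,0,0,0,0,0,0,0],[0,0,1,0,0,0,0,0,0,0],[0,0,0,1,0,0,0,0,0,0],[0,0,0,0,1,0,0,0,0,1],[0,0,0,0,0,1,0,0,0,0],[0,0,0,0,0,0,1,0,0,0],[0,0,0,0,0,0,0,1,0,0],[0,0,0,0,0,-1,0,0,1,0],[0,0,0,0,0,0,0,0,0,1]],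
   [[1,0,0,0,0,0,0,0,0,0],[0,1,0,0,0,0,0,0,0,0],[0,0,1,0,0,0,0,0,0,0],[0,0,0,1,0,0,0,0,0,0],[0,0,0,0,1,0,0,0,0,-1],[0,0,0,0,0,1,0,0,0,0],[0,0,0,0,0,0,1,0,0,0],[0,0,0,0,0,0,0,1,0,0],[0,0,0,0,0,1,0,0,1,0],[0,0,0,0,0,0,0,0,0,1]]⟩,
  ⟨none, [(0, true), (33, true), (0, false)], [[1,0,0,0,0,0,0,0,0,0],[0,1,0,0,0,0,0,0,0,0],[0,0,1,0,0,0,0,0,0,0],[0,0,0,1,0,0,0,0,0,0],[0,0,0,0,1,0,0,0,-1,0],[0,0,0,0,0,1,0,0,0,0],[0,0,0,0,0,0,1,0,0,0],[0,0,0,0,0,0,0,1,0,0],[0,0,0,0,0,0,0,0,1,0],[0,0,0,0,0,1,0,0,0,1]],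
   [[1,0,0,0,0,0,0,0,0,0],[0,1,0,0,0,0,0,0,0,0],[0,0,1,0,0,0,0,0,0,0],[0,0,0,1,0,0,0,0,0,0],[0,0,0,0,1,0,0,0,1,0],[0,0,0,0,0,1,0,0,0,0],[0,0,0,0,0,0,1,0,0,0],[0,0,0,0,0,0,0,1,0,0],[0,0,0,0,0,0,0,0,1,0],[0,0,0,0,0,-1,0,0,0,1]]⟩,
  ⟨none, [(2, true), (34, true), (2, false)], [[1,0,0,0,0,0,0,0,0,0],[0,1,0,0,0,0,0,0,0,0],[0,0,1,0,0,0,0,0,0,0],[0,0,0,1,0,0,0,0,0,0],[0,0,0,0,1,0,0,0,0,0],[0,0,0,0,0,1,0,0,0,0],[0,0,0,0,0,0,1,0,0,1],[0,0,0,0,0,0,0,1,0,0],[0,0,0,0,0,0,0,-1,1,0],[0,0,0,0,0,0,0,0,0,1]],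
   [[1,0,0,0,0,0,0,0,0,0],[0,1,0,0,0,0,0,0,0,0],[0,0,1,0,0,0,0,0,0,0],[0,0,0,1,0,0,0,0,0,0],[0,0,0,0,1,0,0,0,0,0],[0,0,0,0,0,1,0,0,0,0],[0,0,0,0,0,0,1,0,0,-1],[0,0,0,0,0,0,0,1,0,0],[0,0,0,0,0,0,0,1,1,0],[0,0,0,0,0,0,0,0,0,1]]⟩,
  ⟨none, [(32, true), (24, true), (32, false), (24, false)], [[1,0,0,0,0,0,0,0,0,0],[0,1,0,0,0,0,0,0,0,0],[0,0,1,0,0,0,0,0,0,0],[0,0,0,1,-1,0,0,0,0,0],[0,0,0,0,1,0,0,0,0,0],[0,0,1,0,0,1,0,0,0,0],[0,0,0,0,0,0,1,0,0,0],[0,0,0,0,0,0,0,1,0,0],[0,0,0,0,0,0,0,0,1,0],[0,0,0,0,0,0,0,0,0,1]],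
   [[1,0,0,0,0,0,0,0,0,0],[0,1,0,0,0,0,0,0,0,0],[0,0,1,0,0,0,0,0,0,0],[0,0,0,1,1,0,0,0,0,0],[0,0,0,0,1,0,0,0,0,0],[0,0,-1,0,0,1,0,0,0,0],[0,0,0,0,0,0,1,0,0,0],[0,0,0,0,0,0,0,1,0,0],[0,0,0,0,0,0,0,0,1,0],[0,0,0,0,0,0,0,0,0,1]]⟩,
  ⟨none, [(32, true), (36, true), (32, false), (36, false)], [[1,0,0,0,0,0,0,0,0,0],[0,1,0,0,0,0,0,0,0,0],[0,0,1,0,0,0,0,0,0,0],[0,0,0,1,0,0,0,0,0,0],[0,0,0,0,1,0,0,0,0,0],[0,0,0,0,0,1,0,0,0,0],[0,0,0,0,0,0,1,0,-1,0],[0,0,0,0,0,0,0,1,0,0],[0,0,0,0,0,0,0,0,1,0],[0,0,0,0,0,0,0,1,0,1]],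
   [[1,0,0,0,0,0,0,0,0,0],[0,1,0,0,0,0,0,0,0,0],[0,0,1,0,0,0,0,0,0,0],[0,0,0,1,0,0,0,0,0,0],[0,0,0,0,1,0,0,0,0,0],[0,0,0,0,0,1,0,0,0,0],[0,0,0,0,0,0,1,0,1,0],[0,0,0,0,0,0,0,1,0,0],[0,0,0,0,0,0,0,0,1,0],[0,0,0,0,0,0,0,-1,0,1]]⟩,
  ⟨none, [(0, true), (37, true), (0, false)], [[1,0,0,0,0,0,0,0,0,0],[0,1,0,0,0,0,0,0,0,0],[0,0,1,0,0,0,0,0,0,0],[0,0,0,1,0,-1,0,0,0,0],[0,0,1,0,1,0,0,0,0,0],[0,0,0,0,0,1,0,0,0,0],[0,0,0,0,0,0,1,0,0,0],[0,0,0,0,0,0,0,1,0,0],[0,0,0,0,0,0,0,0,1,0],[0,0,0,0,0,0,0,0,0,1]],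
   [[1,0,0,0,0,0,0,0,0,0],[0,1,0,0,0,0,0,0,0,0],[0,0,1,0,0,0,0,0,0,0],[0,0,0,1,0,1,0,0,0,0],[0,0,-1,0,1,0,0,0,0,0],[0,0,0,0,0,1,0,0,0,0],[0,0,0,0,0,0,1,0,0,0],[0,0,0,0,0,0,0,1,0,0],[0,0,0,0,0,0,0,0,1,0],[0,0,0,0,0,0,0,0,0,1]]⟩,
  ⟨none, [(35, true), (38, true), (35, false), (38, false)], [[1,0,0,0,0,0,0,0,0,0],[0,1,0,0,0,0,0,0,0,0],[0,0,1,0,0,0,0,0,0,0],[0,0,0,1,0,0,0,0,0,1],[0,0,0,0,1,0,0,0,0,0],[0,0,0,0,0,1,0,0,0,0],[0,0,0,0,0,0,1,0,0,0],[0,0,0,0,0,0,0,1,0,0],[0,0,-1,0,0,0,0,0,1,0],[0,0,0,0,0,0,0,0,0,1]],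
   [[1,0,0,0,0,0,0,0,0,0],[0,1,0,0,0,0,0,0,0,0],[0,0,1,0,0,0,0,0,0,0],[0,0,0,1,0,0,0,0,0,-1],[0,0,0,0,1,0,0,0,0,0],[0,0,0,0,0,1,0,0,0,0],[0,0,0,0,0,0,1,0,0,0],[0,0,0,0,0,0,0,1,0,0],[0,0,1,0,0,0,0,0,1,0],[0,0,0,0,0,0,0,0,0,1]]⟩,
  ⟨none, [(35, true), (39, true), (35, false), (39, false)], [[1,0,0,0,0,0,0,0,0,0],[0,1,0,0,0,0,0,0,0,0],[0,0,1,0,0,0,0,0,0,0],[0,0,0,1,0,0,0,0,0,0],[0,0,0,0,1,0,0,1,0,0],[0,0,0,0,0,1,0,0,0,0],[0,0,0,0,0,-1,1,0,0,0],[0,0,0,0,0,0,0,1,0,0],[0,0,0,0,0,0,0,0,1,0],[0,0,0,0,0,0,0,0,0,1]],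
   [[1,0,0,0,0,0,0,0,0,0],[0,1,0,0,0,0,0,0,0,0],[0,0,1,0,0,0,0,0,0,0],[0,0,0,1,0,0,0,0,0,0],[0,0,0,0,1,0,0,-1,0,0],[0,0,0,0,0,1,0,0,0,0],[0,0,0,0,0,1,1,0,0,0],[0,0,0,0,0,0,0,1,0,0],[0,0,0,0,0,0,0,0,1,0],[0,0,0,0,0,0,0,0,0,1]]⟩,
  ⟨none, [(1, true), (41, true), (1, false)], [[1,0,0,0,0,0,0,0,0,0],[0,1,0,0,0,0,0,0,0,0],[0,0,1,0,0,0,0,0,0,0],[0,0,0,1,0,0,0,0,0,0],[0,0,0,0,1,0,0,0,0,0],[0,0,0,0,0,1,-1,0,0,0],[0,0,0,0,0,0,1,0,0,0],[0,0,0,0,1,0,0,1,0,0],[0,0,0,0,0,0,0,0,1,0],[0,0,0,0,0,0,0,0,0,1]],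
   [[1,0,0,0,0,0,0,0,0,0],[0,1,0,0,0,0,0,0,0,0],[0,0,1,0,0,0,0,0,0,0],[0,0,0,1,0,0,0,0,0,0],[0,0,0,0,1,0,0,0,0,0],[0,0,0,0,0,1,1,0,0,0],[0,0,0,0,0,0,1,0,0,0],[0,0,0,0,-1,0,0,1,0,0],[0,0,0,0,0,0,0,0,1,0],[0,0,0,0,0,0,0,0,0,1]]⟩,
  ⟨none, [(1, true), (42, true), (1, false)], [[1,0,0,0,0,0,0,0,0,0],[0,1,0,0,0,0,0,0,0,0],[0,0,1,0,0,0,0,0,-1,0],[0,0,0,1,0,0,0,0,0,0],[0,0,0,0,1,0,0,0,0,0],[0,0,0,0,0,1,0,0,0,0],[0,0,0,0,0,0,1,0,0,0],[0,0,0,0,0,0,0,1,0,0],[0,0,0,0,0,0,0,0,1,0],[0,0,0,1,0,0,0,0,0,1]],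
   [[1,0,0,0,0,0,0,0,0,0],[0,1,0,0,0,0,0,0,0,0],[0,0,1,0,0,0,0,0,1,0],[0,0,0,1,0,0,0,0,0,0],[0,0,0,0,1,0,0,0,0,0],[0,0,0,0,0,1,0,0,0,0],[0,0,0,0,0,0,1,0,0,0],[0,0,0,0,0,0,0,1,0,0],[0,0,0,0,0,0,0,0,1,0],[0,0,0,-1,0,0,0,0,0,1]]⟩,
  ⟨none, [(2, true), (44, true), (2, false)], [[1,0,0,0,0,0,0,0,0,0],[0,1,0,1,0,0,0,0,0,0],[-1,0,1,0,0,0,0,0,0,0],[0,0,0,1,0,0,0,0,0,0],[0,0,0,0,1,0,0,0,0,0],[0,0,0,0,0,1,0,0,0,0],[0,0,0,0,0,0,1,0,0,0],[0,0,0,0,0,0,0,1,0,0],[0,0,0,0,0,0,0,0,1,0],[0,0,0,0,0,0,0,0,0,1]],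
   [[1,0,0,0,0,0,0,0,0,0],[0,1,0,-1,0,0,0,0,0,0],[1,0,1,0,0,0,0,0,0,0],[0,0,0,1,0,0,0,0,0,0],[0,0,0,0,1,0,0,0,0,0],[0,0,0,0,0,1,0,0,0,0],[0,0,0,0,0,0,1,0,0,0],[0,0,0,0,0,0,0,1,0,0],[0,0,0,0,0,0,0,0,1,0],[0,0,0,0,0,0,0,0,0,1]]⟩,
  ⟨none, [(43, true), (22, true), (43, false), (22, false)], [[1,0,0,0,0,0,0,0,0,0],[0,1,0,0,0,0,0,0,0,0],[0,0,1,0,1,0,0,0,0,0],[0,0,0,1,0,0,0,0,0,0],[0,0,0,0,1,0,0,0,0,0],[0,0,0,-1,0,1,0,0,0,0],[0,0,0,0,0,0,1,0,0,0],[0,0,0,0,0,0,0,1,0,0],[0,0,0,0,0,0,0,0,1,0],[0,0,0,0,0,0,0,0,0,1]],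
   [[1,0,0,0,0,0,0,0,0,0],[0,1,0,0,0,0,0,0,0,0],[0,0,1,0,-1,0,0,0,0,0],[0,0,0,1,0,0,0,0,0,0],[0,0,0,0,1,0,0,0,0,0],[0,0,0,1,0,1,0,0,0,0],[0,0,0,0,0,0,1,0,0,0],[0,0,0,0,0,0,0,1,0,0],[0,0,0,0,0,0,0,0,1,0],[0,0,0,0,0,0,0,0,0,1]]⟩,
  ⟨none, [(43, true), (36, true), (43, false), (36, false)], [[1,0,0,0,0,0,0,0,0,0],[0,1,0,0,0,0,0,0,0,0],[0,0,1,0,0,0,0,0,0,0],[0,0,0,1,0,0,0,0,0,0],[0,0,0,0,1,0,0,0,0,0],[0,0,0,0,0,1,0,0,0,0],[0,0,0,0,0,0,1,0,0,0],[0,0,0,0,0,0,0,1,-1,0],[0,0,0,0,0,0,0,0,1,0],[0,0,0,0,0,0,1,0,0,1]],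
   [[1,0,0,0,0,0,0,0,0,0],[0,1,0,0,0,0,0,0,0,0],[0,0,1,0,0,0,0,0,0,0],[0,0,0,1,0,0,0,0,0,0],[0,0,0,0,1,0,0,0,0,0],[0,0,0,0,0,1,0,0,0,0],[0,0,0,0,0,0,1,0,0,0],[0,0,0,0,0,0,0,1,1,0],[0,0,0,0,0,0,0,0,1,0],[0,0,0,0,0,0,-1,0,0,1]]⟩]

theorem chkD5 : check 10 [] [(aD5, aD5), (bD5, bD5), (cD5, cD5)] stepsD5 = true := by decide +kernel

theorem tgtD5 : hasAll stepsD5 (targetsD 5) = true := by decide +kernel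

theorem vaD5 (G : Subgroup (Matrix (VB 5) (VB 5) ℤ)ˣ) (hF : Full G 5) :
    Mem G (emb (sg (seg 5 0 5 (by norm_num))) (toMat 10 aD5)) :=
  mem_word_sg (r := 5) (seg_inj _) hF [(2, some 6), (3, some 7), (4, some 6), (5, some 7), (4, some 9), (5, some 8)]
    [(0, true), (1, true), (0, true), (2, false), (3, false), (2, false), (2, false), (3, false), (2, false), (4, false), (5, false), (4, false)] (M' := aD5)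
    (by decide +kernel) (by decide +kernel) (by decide +kernel)

theorem vbD5 (G : Subgroup (Matrix (VB 5) (VB 5) ℤ)ˣ) (hF : Full G 5) :
    Mem G (emb (sg (seg 5 0 5 (by norm_num))) (toMat 10 bD5)) :=
  mem_word_sg (r := 5) (seg_inj _) hF [(3, some 9), (2, some 5), (3, some 4), (4, some 6), (5, some 7), (6, some 8), (7, some 9)]
    [(0, false), (1, true), (2, true), (1, true), (3, false), (4, false), (3, false), (3, false), (4, false), (3, false), (5, false), (6, false), (5, false), (0, true)] (M' := bD5)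
    (by decide +kernel) (by decide +kernel) (by decide +kernel)

theorem vcD5 (G : Subgroup (Matrix (VB 5) (VB 5) ℤ)ˣ) (hF : Full G 5) :
    Mem G (emb (sg (seg 5 0 5 (by norm_num))) (toMat 10 cD5)) :=
  mem_word_sg (r := 5) (seg_inj _) hF [(0, some 2), (0, some 9), (1, some 8), (4, some 7), (5, some 6), (4, some 8), (5, some 9)]
    [(0, true), (1, true), (2, true), (1, true), (3, false), (4, false), (3, false), (5, false), (6, false), (5, false), (5, false), (6, false), (5, false), (0, false)] (M' := cD5)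
    (by decide +kernel) (by decide +kernel) (by decide +kernel)

theorem resD5 {K L : Type*} [Field K] [CharZero K] [LieRing L] [LieAlgebra K L]
    {H : LieSubalgebra K L} (B : LieAlgebra.Basis (Fin 5) H) [LieAlgebra.IsSimple K L]
    (hB : B.A = CartanMatrix.D 5) : ThreeInvolutions (Gad B) :=
  smallD B (by norm_num) hB aD5 bD5 cD5 stepsD5 (by decide +kernel)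
    (by decide +kernel) (by decide +kernel) (by decide +kernel) (by decide +kernel)
    (by decide +kernel) (by decide +kernel) vaD5 vbD5 vcD5 chkD5 tgtD5

end MP9bf44d
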