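import Pool.Agent.Lib.H68.Local

/-! # Terminal steps for types B and D -/

namespace MP9bf44d

open Matrix

set_option linter.unusedSectionVars false

/-- the involution mixing the last two planes -/
def tauL : LM := [[0, -2, 0, 1], [-1, 0, -1, 0], [0, 1, 0, -1], [-1, 0, -2, 0]]

/-- involutions on the last plane and `v_0` -/
def T1L : LM := [[1, -1, 2], [-4, 1, -4], [-2, 1, -3]]
def T2L : LM := [[-1, 1, 2], [0, -1, 0], [0, 1, 1]]

variable {l : ℕ} {G : Subgroup (Matrix (VB l) (VB l) ℤ)ˣ}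

lemma sg_pair_shift (u p q : WP l) : sg ![p, q] = sg ![u, p, q] ∘ shiftF 6 2 4 (by norm_num) := by
  funext k
  fin_cases k <;> rfl

lemma sgB_shift (u q : WP l) : sgB ![q] = sgB ![u, q] ∘ shiftF 5 2 3 (by norm_num) := by
  funext k
  fin_cases k <;> rfl

lemma planeP_vec3 (π : Equiv.Perm (Fin l)) (u p q : WP l) :
    planeP π ∘ sg ![u, p, q] = sg ![actW π u, actW π p, actW π q] := by
  rw [planeP_sg]
  congr 1
  funext i
  fin_cases i <;> rfl

lemma planeP_vecB2 (π : Equiv.Perm (Fin l)) (u q : WP l) :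
    planeP π ∘ sgB ![u, q] = sgB ![actW π u, actW π q] := by
  rw [planeP_sgB]
  congr 1
  funext i
  fin_cases i <;> rfl

lemma forall_mem3 {α : Type*} {p : α → Prop} {a b c : α} (ha : p a) (hb : p b) (hc : p c) :
    ∀ x ∈ [a, b, c], p x := by
  intro x hx
  simp only [List.mem_cons, List.not_mem_nil, or_false] at hx
  rcases hx with rfl | rfl | rfl <;> assumption

lemma forall_mem4 {α : Type*} {p : α → Prop} {a b c d : α} (ha : p a) (hb : p b) (hc : p c)
    (hd : p d) : ∀ x ∈ [a, b, c, d], p x := by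
  intro x hx
  simp only [List.mem_cons, List.not_mem_nil, or_false] at hx
  rcases hx with rfl | rfl | rfl | rfl <;> assumption

lemma forall_mem2 {α : Type*} {p : α → Prop} {a b : α} (ha : p a) (hb : p b) :
    ∀ x ∈ [a, b], p x := by
  intro x hx
  simp only [List.mem_cons, List.not_mem_nil, or_false] at hx
  rcases hx with rfl | rfl <;> assumption

/-- root lists -/
lemma mem_rootL3 {u v w : WP l} (a b c d : ℕ) {x y : WP l} (ha : a < 6) (hb : b < 6) (hc : c < 6)
    (hd : d < 6) (ea : sg ![u, v, w] ⟨a, ha⟩ = some y) (eb : sg ![u, v, w] ⟨b, hb⟩ = some (opp x))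
    (ec : sg ![u, v, w] ⟨c, hc⟩ = some x) (ed : sg ![u, v, w] ⟨d, hd⟩ = some (opp y)) :
    Mem G (emb (sg ![u, v, w]) (toMat 6 (rootL 6 a b 1 c d (-1)))) ↔ Mem G (xB x y 1) := by
  have := xB_eq_emb ![u, v, w] a b c d ha hb hc hd ea eb ec ed 1 (-1) rfl
  rw [← this]

theorem tau_step (hl : 4 ≤ l) (hF : Full G (l - 1)) {π : Equiv.Perm (Fin l)}
    (hinv : ∀ i, π (π i) = i) (hlt : ∀ i : Fin l, (i : ℕ) < l - 2 → ((π i : Fin l) : ℕ) < l - 2)
    {p q : WP l} (hp : (p.1 : ℕ) = l - 2) (hq : (q.1 : ℕ) = l - 1)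
    (hfp : π p.1 = p.1) (hfq : π q.1 = q.1)
    (hg : Mem G (pmat (planeP π) * emb (sg ![p, q]) (toMat 4 tauL))) : Full G l := by
  -- from planes `< l - 2` to the last plane
  have h1 : ∀ u v : WP l, (u.1 : ℕ) < l - 2 → (v.1 : ℕ) = l - 1 → Mem G (xB u v 1) := by
    intro u v hu hv
    set u0 := actW π u with hu0
    have hu0' : (u0.1 : ℕ) < l - 2 := hlt _ hu
    have huu : actW π u0 = u := by
      rw [hu0]; unfold actW; simp only [hinv]
    have hpp : actW π p = p := by unfold actW; rw [hfp]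
    have hqq : actW π q = q := by unfold actW; rw [hfq]
    have n1 : u0.1 ≠ p.1 := by intro h; have := congrArg Fin.val h; omega
    have n2 : u0.1 ≠ q.1 := by intro h; have := congrArg Fin.val h; omega
    have n3 : p.1 ≠ q.1 := by intro h; have := congrArg Fin.val h; omega
    have n4 : u.1 ≠ p.1 := by intro h; have := congrArg Fin.val h; omega
    have n5 : u.1 ≠ q.1 := by intro h; have := congrArg Fin.val h; omega
    have hσ0 := sg_injective (inj3 n1 n2 n3)
    have hσ1 := sg_injective (inj3 n4 n5 n3)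
    have hT : toMat 6 (extL 6 2 4 tauL) * toMat 6 (extL 6 2 4 tauL) = 1 := by
      rw [← mulL_toMat (by decide +kernel) (by decide +kernel), ← oneL_toMat]
      congr 1
    have hZ : emb (sg ![p, q]) (toMat 4 tauL) =
        emb (sg ![u0, p, q]) (toMat 6 (extL 6 2 4 tauL)) := by
      rw [toMat_extL (by norm_num), emb_comp, ← sg_pair_shift]
    rw [hZ] at hg
    have key : ∀ M : LM, WF 6 M = true → Mem G (emb (sg ![u0, p, q]) (toMat 6 M)) →
        Mem G (emb (sg ![u, p, q]) (toMat 6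
          (mulL 6 (mulL 6 (extL 6 2 4 tauL) M) (extL 6 2 4 tauL)))) := by
      intro M hM hm
      have := Mem.conj_local hσ0 hT hg hm
      rw [planeP_vec3, huu, hpp, hqq] at this
      have h2 : WF 6 (extL 6 2 4 tauL) = true := by decide +kernel
      rw [mulL_toMat (mulL_WF h2 hM) h2, mulL_toMat h2 hM]
      exact this
    have m0 : Mem G (emb (sg ![u, p, q]) (toMat 6 (rootL 6 2 1 1 0 3 (-1)))) :=
      (mem_rootL3 2 1 0 3 (x := u) (y := p) (by norm_num) (by norm_num) (by norm_num)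
        (by norm_num) rfl rfl rfl rfl).mpr (hF u p n4 (by omega) (by omega))
    have m1 : Mem G (emb (sg ![u, p, q]) (toMat 6 (rootL 6 3 1 1 0 2 (-1)))) :=
      (mem_rootL3 3 1 0 2 (x := u) (y := opp p) (by norm_num) (by norm_num) (by norm_num)
        (by norm_num) rfl rfl rfl (by simp [sg])).mpr
        (hF u (opp p) n4 (by omega) (by simp only [opp_fst]; omega))
    have m0' : Mem G (emb (sg ![u0, p, q]) (toMat 6 (rootL 6 2 1 1 0 3 (-1)))) :=
      (mem_rootL3 2 1 0 3 (x := u0) (y := p) (by norm_num) (by norm_num) (by norm_num)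
        (by norm_num) rfl rfl rfl rfl).mpr (hF u0 p n1 (by omega) (by omega))
    have m1' : Mem G (emb (sg ![u0, p, q]) (toMat 6 (rootL 6 3 1 1 0 2 (-1)))) :=
      (mem_rootL3 3 1 0 2 (x := u0) (y := opp p) (by norm_num) (by norm_num) (by norm_num)
        (by norm_num) rfl rfl rfl (by simp [sg])).mpr
        (hF u0 (opp p) n1 (by omega) (by simp only [opp_fst]; omega))
    have m2 := key _ (by decide +kernel) m0'
    have m3 := key _ (by decide +kernel) m1'
    have hgens : ∀ x ∈ ([(rootL 6 2 1 1 0 3 (-1), rootL 6 2 1 (-1) 0 3 1),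
        (rootL 6 3 1 1 0 2 (-1), rootL 6 3 1 (-1) 0 2 1),
        (mulL 6 (mulL 6 (extL 6 2 4 tauL) (rootL 6 2 1 1 0 3 (-1))) (extL 6 2 4 tauL),
          mulL 6 (mulL 6 (extL 6 2 4 tauL) (rootL 6 2 1 (-1) 0 3 1)) (extL 6 2 4 tauL)),
        (mulL 6 (mulL 6 (extL 6 2 4 tauL) (rootL 6 3 1 1 0 2 (-1))) (extL 6 2 4 tauL),
          mulL 6 (mulL 6 (extL 6 2 4 tauL) (rootL 6 3 1 (-1) 0 2 1)) (extL 6 2 4 tauL))] :
        List (LM × LM)), Mem G (emb (sg ![u, p, q]) (toMat 6 x.1)) := by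
      exact forall_mem4 (p := fun x : LM × LM => Mem G (emb (sg ![u, p, q]) (toMat 6 x.1)))
        m0 m1 m2 m3
    have r1 := Mem.word hσ1 (by decide +kernel) hgens [(2, false), (1, false)]
      (M := rootL 6 5 1 1 0 4 (-1)) (M' := rootL 6 5 1 (-1) 0 4 1) (by decide +kernel)
    have r2 := Mem.word hσ1 (by decide +kernel) hgens [(0, true), (0, true), (3, true)]
      (M := rootL 6 4 1 1 0 5 (-1)) (M' := rootL 6 4 1 (-1) 0 5 1) (by decide +kernel)
    rw [mem_rootL3 5 1 0 4 (x := u) (y := opp q) (by norm_num) (by norm_num) (by norm_num)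
        (by norm_num) rfl rfl rfl (by simp [sg])] at r1
    rw [mem_rootL3 4 1 0 5 (x := u) (y := q) (by norm_num) (by norm_num) (by norm_num)
        (by norm_num) rfl rfl rfl rfl] at r2
    have hvq : v.1 = q.1 := Fin.ext (by omega)
    have : v = q ∨ v = opp q := by
      rcases v with ⟨i, s⟩
      rcases q with ⟨j, t⟩
      simp only at hvq
      subst hvq
      cases s <;> cases t <;> simp [opp]
    rcases this with rfl | rfl
    · exact r2
    · exact r1
  have h2 : ∀ u v : WP l, u.1 ≠ v.1 → (u.1 : ℕ) < l - 1 → (v.1 : ℕ) = l - 1 →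
      Mem G (xB u v 1) := by
    intro u v huv hu hv
    by_cases hu1 : (u.1 : ℕ) < l - 2
    · exact h1 u v hu1 hv
    · let w : WP l := (⟨0, by omega⟩, true)
      have huw : u.1 ≠ w.1 := by
        intro h; have := congrArg Fin.val h; simp only [w] at this; omega
      have hwv : w.1 ≠ v.1 := by
        intro h; have := congrArg Fin.val h; simp only [w] at this; omega
      exact Mem.xB_trans huw huv hwv (hF u w huw (by omega) (by simp only [w]; omega))
        (h1 (opp w) v (by simp only [opp_fst, w]; omega) hv)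
  intro u v huv hu hv
  rcases Nat.lt_or_ge (u.1 : ℕ) (l - 1) with hu | hu
  · rcases Nat.lt_or_ge (v.1 : ℕ) (l - 1) with hv | hv
    · exact hF u v huv hu hv
    · exact h2 u v huv hu (by omega)
  · rcases Nat.lt_or_ge (v.1 : ℕ) (l - 1) with hv | hv
    · exact (h2 v u huv.symm hv (by omega)).xB_symm huv.symm
    · exact absurd (Fin.ext (by omega)) huv

/-- producing a short root element from the modification `T` on the last plane -/
theorem v0_step (hF : Full G l) {π : Equiv.Perm (Fin l)} (hinv : ∀ i, π (π i) = i)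
    {u q : WP l} (hu : u.1 ≠ q.1) (hfq : π q.1 = q.1) (T : LM) (w : List (ℕ × Bool))
    (hT : WF 3 T = true) (hTT : mulL 5 (extL 5 2 3 T) (extL 5 2 3 T) = oneL 5)
    (hTW : WF 5 (extL 5 2 3 T) = true)
    (hg : Mem G (pmat (planeP π) * emb (sgB ![q]) (toMat 3 T)))
    (hc : checkGens 5 [(rootL 5 2 1 1 0 3 (-1), rootL 5 2 1 (-1) 0 3 1),
        (rootL 5 3 1 1 0 2 (-1), rootL 5 3 1 (-1) 0 2 1),
        (mulL 5 (mulL 5 (extL 5 2 3 T) (rootL 5 3 1 1 0 2 (-1))) (extL 5 2 3 T),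
          mulL 5 (mulL 5 (extL 5 2 3 T) (rootL 5 3 1 (-1) 0 2 1)) (extL 5 2 3 T))] = true)
    (hw : checkStep 5 [] [(rootL 5 2 1 1 0 3 (-1), rootL 5 2 1 (-1) 0 3 1),
        (rootL 5 3 1 1 0 2 (-1), rootL 5 3 1 (-1) 0 2 1),
        (mulL 5 (mulL 5 (extL 5 2 3 T) (rootL 5 3 1 1 0 2 (-1))) (extL 5 2 3 T),
          mulL 5 (mulL 5 (extL 5 2 3 T) (rootL 5 3 1 (-1) 0 2 1)) (extL 5 2 3 T))]
        ⟨none, w, shortL 5 4 0 1 1, shortL 5 4 0 1 (-1)⟩ = true) : Mem G (xS u 1) := by
  set u0 := actW π u with hu0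
  have huu : actW π u0 = u := by
    rw [hu0]; unfold actW; simp only [hinv]
  have hqq : actW π q = q := by unfold actW; rw [hfq]
  have n1 : u0.1 ≠ q.1 := by
    intro h
    apply hu
    have : π u0.1 = π q.1 := by rw [h]
    rw [hfq] at this
    rw [← this]
    simp [hu0, actW, hinv]
  have hσ0 := sgB_injective (inj2 n1)
  have hσ1 := sgB_injective (inj2 hu)
  have hTm : toMat 5 (extL 5 2 3 T) * toMat 5 (extL 5 2 3 T) = 1 := by
    rw [← mulL_toMat hTW hTW, hTT, oneL_toMat]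
  have hZ : emb (sgB ![q]) (toMat 3 T) = emb (sgB ![u0, q]) (toMat 5 (extL 5 2 3 T)) := by
    rw [toMat_extL (by norm_num), emb_comp, ← sgB_shift]
  rw [hZ] at hg
  have r0 : ∀ u' : WP l, u'.1 ≠ q.1 →
      Mem G (emb (sgB ![u', q]) (toMat 5 (rootL 5 2 1 1 0 3 (-1)))) := by
    intro u' hu'
    have := xB_eq_embB ![u', q] 2 1 0 3 (u := u') (v := q) (by norm_num) (by norm_num)
      (by norm_num) (by norm_num) rfl rfl rfl rfl 1 (-1) rfl
    exact this.symm ▸ hF u' q hu' u'.1.2 q.1.2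
  have r1 : ∀ u' : WP l, u'.1 ≠ q.1 →
      Mem G (emb (sgB ![u', q]) (toMat 5 (rootL 5 3 1 1 0 2 (-1)))) := by
    intro u' hu'
    have := xB_eq_embB ![u', q] 3 1 0 2 (u := u') (v := opp q) (by norm_num) (by norm_num)
      (by norm_num) (by norm_num) rfl rfl rfl (by simp [sg]) 1 (-1) rfl
    exact this.symm ▸ hF u' (opp q) hu' u'.1.2 q.1.2
  have m2 : Mem G (emb (sgB ![u, q]) (toMat 5
      (mulL 5 (mulL 5 (extL 5 2 3 T) (rootL 5 3 1 1 0 2 (-1))) (extL 5 2 3 T)))) := by
    have := Mem.conj_local hσ0 hTm hg (r1 u0 n1)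
    rw [planeP_vecB2, huu, hqq] at this
    have h3 : WF 5 (rootL 5 3 1 1 0 2 (-1)) = true := by decide +kernel
    rw [mulL_toMat (mulL_WF hTW h3) hTW, mulL_toMat hTW h3]
    exact this
  have hgens : ∀ x ∈ ([(rootL 5 2 1 1 0 3 (-1), rootL 5 2 1 (-1) 0 3 1),
        (rootL 5 3 1 1 0 2 (-1), rootL 5 3 1 (-1) 0 2 1),
        (mulL 5 (mulL 5 (extL 5 2 3 T) (rootL 5 3 1 1 0 2 (-1))) (extL 5 2 3 T),
          mulL 5 (mulL 5 (extL 5 2 3 T) (rootL 5 3 1 (-1) 0 2 1)) (extL 5 2 3 T))] :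
        List (LM × LM)), Mem G (emb (sgB ![u, q]) (toMat 5 x.1)) := by
    exact forall_mem3 (p := fun x : LM × LM => Mem G (emb (sgB ![u, q]) (toMat 5 x.1)))
      (r0 u hu) (r1 u hu) m2
  have := Mem.word hσ1 hc hgens w hw
  have h4 := xS_eq_emb' ![u, q] 0 1 (u := u) (by norm_num) (by norm_num) rfl rfl 1
  exact h4 ▸ this

theorem v0_step1 (hF : Full G l) {π : Equiv.Perm (Fin l)} (hinv : ∀ i, π (π i) = i)
    {u q : WP l} (hu : u.1 ≠ q.1) (hfq : π q.1 = q.1)
    (hg : Mem G (pmat (planeP π) * emb (sgB ![q]) (toMat 3 T1L))) : Mem G (xS u 1) :=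
  v0_step hF hinv hu hfq T1L [(0, true), (1, false), (2, true)] (by decide +kernel)
    (by decide +kernel) (by decide +kernel) hg (by decide +kernel) (by decide +kernel)

theorem v0_step2 (hF : Full G l) {π : Equiv.Perm (Fin l)} (hinv : ∀ i, π (π i) = i)
    {u q : WP l} (hu : u.1 ≠ q.1) (hfq : π q.1 = q.1)
    (hg : Mem G (pmat (planeP π) * emb (sgB ![q]) (toMat 3 T2L))) : Mem G (xS u 1) :=
  v0_step hF hinv hu hfq T2L [(0, false), (1, true), (2, true)] (by decide +kernel)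
    (by decide +kernel) (by decide +kernel) hg (by decide +kernel) (by decide +kernel)

end MP9bf44d
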