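import Pool.Agent.Lib.H68.Defs

/-! # The graph subalgebra -/

namespace MP9bf44d

open LieAlgebra LieSubalgebra Set

section Graph

variable {ι K L M : Type*} [Finite ι] [Field K] [LieRing L] [LieAlgebra K L]
  [LieRing M] [LieAlgebra K M] {H : LieSubalgebra K L} (B : LieAlgebra.Basis ι H)
  (e' f' : ι → M)

/-- The relations satisfied by Chevalley generators. -/
structure ChevRel (A : Matrix ι ι ℤ) (e' f' : ι → M) : Prop where
  ne : ∀ i, e' i ≠ 0
  ef : ∀ i j, i ≠ j → ⁅e' i, f' j⁆ = 0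
  he : ∀ i j, ⁅⁅e' j, f' j⁆, e' i⁆ = A i j • e' i
  hf : ∀ i j, ⁅⁅e' j, f' j⁆, f' i⁆ = -(A i j • f' i)
  hh : ∀ i j, ⁅⁅e' i, f' i⁆, ⁅e' j, f' j⁆⁆ = 0

/-- The graph subalgebra of `L × M`. -/
def graph : LieSubalgebra K (L × M) :=
  lieSpan K (L × M) (range (fun i => (B.e i, e' i)) ∪ range (fun i => (B.f i, f' i)))

lemma graph_e (i : ι) : (B.e i, e' i) ∈ graph B e' f' :=
  subset_lieSpan (Or.inl ⟨i, rfl⟩)

lemma graph_f (i : ι) : (B.f i, f' i) ∈ graph B e' f' :=
  subset_lieSpan (Or.inr ⟨i, rfl⟩)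

lemma graph_h (i : ι) : (B.h i, ⁅e' i, f' i⁆) ∈ graph B e' f' := by
  have := (graph B e' f').lie_mem (graph_e B e' f' i) (graph_f B e' f' i)
  simpa [(B.sl2 i).lie_e_f] using this

lemma graph_surj (y : L) : ∃ z, (y, z) ∈ graph B e' f' := by
  have hy : y ∈ lieSpan K L (range B.e ∪ range B.f) := by simp [B.span_ef]
  induction hy using lieSpan_induction with
  | mem u hu =>
    rcases hu with ⟨i, rfl⟩ | ⟨i, rfl⟩
    · exact ⟨_, graph_e B e' f' i⟩
    · exact ⟨_, graph_f B e' f' i⟩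
  | zero => exact ⟨0, (graph B e' f').zero_mem⟩
  | add u v _ _ hu hv =>
    obtain ⟨z, hz⟩ := hu
    obtain ⟨w, hw⟩ := hv
    exact ⟨z + w, (graph B e' f').add_mem hz hw⟩
  | smul t u _ hu =>
    obtain ⟨z, hz⟩ := hu
    exact ⟨t • z, (graph B e' f').smul_mem t hz⟩
  | lie u v _ _ hu hv =>
    obtain ⟨z, hz⟩ := hu
    obtain ⟨w, hw⟩ := hv
    exact ⟨⁅z, w⁆, (graph B e' f').lie_mem hz hw⟩

/-- The Cartan part of the graph algebra. -/
def graphH : LieSubalgebra K (graph B e' f') :=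
  lieSpan K _ (range fun i => (⟨_, graph_h B e' f' i⟩ : graph B e' f'))

variable [CharZero K]

/-- The basis of the graph algebra. -/
def graphBasis {e' f' : ι → M} (R : ChevRel B.A e' f') :
    LieAlgebra.Basis ι (graphH B e' f') where
  A := B.A
  h i := ⟨_, graph_h B e' f' i⟩
  e i := ⟨_, graph_e B e' f' i⟩
  f i := ⟨_, graph_f B e' f' i⟩
  cartan_eq_lieSpan := rfl
  span_ef := by
    have hr : range (fun i => (⟨_, graph_e B e' f' i⟩ : graph B e' f')) ∪
        range (fun i => (⟨_, graph_f B e' f' i⟩ : graph B e' f')) =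
        Subtype.val ⁻¹' (range (fun i => (B.e i, e' i)) ∪ range (fun i => (B.f i, f' i))) := by
      ext x; simp [Subtype.ext_iff]
    rw [hr]
    exact lieSpan_lieSpan_coe_preimage
  linInd := .of_comp (graph B e' f').subtype <| .of_comp (LinearMap.fst K L M) B.linInd
  nondegen := B.nondegen
  sl2 i :=
    { h_ne_zero := by simp [Subtype.ext_iff, (B.sl2 i).h_ne_zero]
      lie_e_f := by simp [Subtype.ext_iff, (B.sl2 i).lie_e_f]
      lie_h_e_nsmul := by
        have : IsAddTorsionFree L := .of_isTorsionFree K L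
        have h2 := R.he i i
        rw [B.A_diag_eq_two] at h2
        have h3 : ⁅⁅e' i, f' i⁆, e' i⁆ = (2 : ℕ) • e' i := by rw [h2]; simp [two_smul]
        simp only [Subtype.ext_iff]
        simp [(B.sl2 i).lie_h_e_nsmul, h3]
      lie_h_f_nsmul := by
        have : IsAddTorsionFree L := .of_isTorsionFree K L
        have h2 := R.hf i i
        rw [B.A_diag_eq_two] at h2
        have h3 : ⁅⁅e' i, f' i⁆, f' i⁆ = -((2 : ℕ) • f' i) := by rw [h2]; simp [two_smul]
        simp only [Subtype.ext_iff]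
        simp [(B.sl2 i).lie_h_f_nsmul, h3] }
  lie_h_h i j := by
    simp only [Subtype.ext_iff]
    simp [B.lie_h_h, R.hh]
  lie_h_e i j := by
    simp only [Subtype.ext_iff]
    simp [B.lie_h_e, R.he]
  lie_h_f i j := by
    simp only [Subtype.ext_iff]
    simp [B.lie_h_f, R.hf]
  lie_e_f_ne i j hij := by
    simp only [Subtype.ext_iff]
    simp [B.lie_e_f_ne i j hij, R.ef i j hij]

end Graph

end MP9bf44d
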