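import Pool.Agent.Lib.H68.Transfer1

/-! # The graph subalgebra meets `L × 0` trivially -/

namespace MP9bf44d

open LieAlgebra LieSubalgebra Set

section Graph

variable {ι K L M : Type*} [Finite ι] [Field K] [LieRing L] [LieAlgebra K L]
  [LieRing M] [LieAlgebra K M] {H : LieSubalgebra K L} (B : LieAlgebra.Basis ι H)
  {e' f' : ι → M}

variable [CharZero K]

/-- The ideal of all `x` with `(x, 0)` in the graph. -/
def kerIdeal (e' f' : ι → M) : LieIdeal K L where
  carrier := {x | (x, 0) ∈ graph B e' f'}
  add_mem' {x y} hx hy := by
    have := (graph B e' f').add_mem hx hy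
    simpa using this
  zero_mem' := (graph B e' f').zero_mem
  smul_mem' t x hx := by
    have := (graph B e' f').smul_mem t hx
    simpa using this
  lie_mem {x y} hy := by
    obtain ⟨z, hz⟩ := graph_surj B e' f' x
    have := (graph B e' f').lie_mem hz hy
    simpa using this

lemma h'_ne_zero [Nonempty ι] (R : ChevRel B.A e' f') (i : ι) : ⁅e' i, f' i⁆ ≠ 0 := by
  intro h
  have := R.he i i
  rw [h, zero_lie] at this
  have h2 : IsAddTorsionFree L := .of_isTorsionFree K L
  rw [B.A_diag_eq_two] at this
  have h3 : IsAddTorsionFree M := .of_isTorsionFree K M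
  have h4 : (2 : ℤ) • e' i = 0 := this.symm
  rw [smul_eq_zero] at h4
  rcases h4 with h4 | h4
  · norm_num at h4
  · exact R.ne i h4

lemma eq_zero_of_mem_graph [IsSimple K L] (R : ChevRel B.A e' f') {x : L}
    (hx : (x, (0 : M)) ∈ graph B e' f') : x = 0 := by
  classical
  have := Fintype.ofFinite ι
  rcases IsSimple.eq_bot_or_eq_top (R := K) (kerIdeal B e' f') with h | h
  · have : x ∈ kerIdeal B e' f' := hx
    rw [h] at this
    simpa using this
  · exfalso
    -- pick an index
    have hne : Nonempty ι := by
      by_contra hem
      rw [not_nonempty_iff] at hem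
      apply IsSimple.non_abelian (R := K) (L := L)
      have h1 : lieSpan K L (range B.e ∪ range B.f) = ⊤ := B.span_ef
      have h2 : (range B.e ∪ range B.f : Set L) = ∅ := by simp [hem]
      rw [h2] at h1
      have h3 : (⊥ : LieSubalgebra K L) = ⊤ := by
        rw [← h1]; simp
      constructor
      intro a b
      have ha : a ∈ (⊥ : LieSubalgebra K L) := by rw [h3]; trivial
      have : a = 0 := by simpa using ha
      simp [this]
    obtain ⟨i⟩ := hne
    have : Nonempty ι := ⟨i⟩
    have hi : (B.h i, (0 : M)) ∈ graph B e' f' := by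
      have : B.h i ∈ kerIdeal B e' f' := by rw [h]; trivial
      exact this
    set G := graphBasis B R with hG
    have hab := G.isLieAbelian_cartan
    have hc := G.cartan_eq
    have hmem : (⟨(B.h i, 0), hi⟩ : graph B e' f') ∈ (graphH B e' f').toLieSubmodule := by
      rw [hc, LieModule.mem_genWeightSpace]
      rintro ⟨y, hy⟩
      refine ⟨1, ?_⟩
      have hy' : y ∈ Submodule.span K (range G.h) := by
        rw [← mem_toSubmodule, G.coe_cartan_eq_span] at hy
        exact hy
      have key : ⁅y, (⟨(B.h i, 0), hi⟩ : graph B e' f')⁆ = 0 := by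
        clear hy
        induction hy' using Submodule.span_induction with
        | mem u hu =>
          obtain ⟨j, rfl⟩ := hu
          simp only [Subtype.ext_iff]
          change ⁅(B.h j, ⁅e' j, f' j⁆), (B.h i, (0 : M))⁆ = 0
          simp [B.lie_h_h]
        | zero => simp
        | add u v _ _ hu hv => rw [add_lie, hu, hv, add_zero]
        | smul t u _ hu => rw [smul_lie, hu, smul_zero]
      simpa using key
    rw [LieSubalgebra.mem_toLieSubmodule, ← mem_toSubmodule, G.coe_cartan_eq_span,
      Submodule.mem_span_range_iff_exists_fun] at hmem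
    obtain ⟨c, hc⟩ := hmem
    have h1 : ∑ j, c j • (B.h j, ⁅e' j, f' j⁆) = (B.h i, (0 : M)) := by
      have := congrArg (Subtype.val) hc
      refine Eq.trans ?_ this
      simp [hG, graphBasis]
    have h2 : ∑ j, c j • B.h j = B.h i := by
      have := congrArg Prod.fst h1
      simpa [Prod.fst_sum] using this
    have h3 : ∑ j, c j • ⁅e' j, f' j⁆ = 0 := by
      have := congrArg Prod.snd h1
      simpa [Prod.snd_sum] using this
    have h4 : c = Pi.single i 1 := by
      have := B.linInd
      rw [Fintype.linearIndependent_iff] at this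
      have h5 := this (c - Pi.single i 1) (by
        simp only [Pi.sub_apply, sub_smul, Finset.sum_sub_distrib, h2]
        simp [Pi.single_apply])
      funext j
      exact sub_eq_zero.mp (h5 j)
    rw [h4] at h3
    apply h'_ne_zero B R i
    simpa [Pi.single_apply] using h3

end Graph

end MP9bf44d
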