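import Pool.Agent.Lib.H68.Transfer2

/-! # Exponentials and compatible pairs -/

namespace MP9bf44d

open LieAlgebra LieSubalgebra Set

lemma two_inv_comm {G : Type*} [Group G] {p q : G} (hp : p * p = 1) (hq : q * q = 1) {x y : G}
    (hx : x ∈ Subgroup.closure {p, q}) (hy : y ∈ Subgroup.closure {p, q})
    (hx2 : x * x ≠ 1) (hy2 : y * y ≠ 1) : x * y = y * x := by
  have hp' : p⁻¹ = p := inv_eq_of_mul_eq_one_left hp
  have hq' : q⁻¹ = q := inv_eq_of_mul_eq_one_left hq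
  have hinv : ∀ k : ℤ, p * (p * q) ^ k = (p * q) ^ (-k) * p := by
    intro k
    have h1 : p * (p * q) * p⁻¹ = (p * q)⁻¹ := by
      rw [mul_inv_rev, hp', hq', ← mul_assoc, hp, one_mul]
    have h2 : p * (p * q) ^ k * p⁻¹ = (p * q) ^ (-k) := by
      rw [← conj_zpow, h1, inv_zpow, zpow_neg]
    rw [← h2]; group
  have key : ∀ z ∈ Subgroup.closure {p, q}, (∃ k : ℤ, z = (p * q) ^ k) ∨
      (∃ k : ℤ, z = (p * q) ^ k * p) := by
    intro z hz
    induction hz using Subgroup.closure_induction with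
    | mem w hw =>
      rcases hw with rfl | hw
      · exact Or.inr ⟨0, by simp⟩
      · rw [Set.mem_singleton_iff] at hw
        subst hw
        refine Or.inr ⟨-1, ?_⟩
        rw [zpow_neg, zpow_one, mul_inv_rev, hp', hq', mul_assoc, hp, mul_one]
    | one => exact Or.inl ⟨0, by simp⟩
    | mul u v _ _ hu hv =>
      rcases hu with ⟨k, rfl⟩ | ⟨k, rfl⟩ <;> rcases hv with ⟨m, rfl⟩ | ⟨m, rfl⟩
      · exact Or.inl ⟨k + m, by rw [zpow_add]⟩
      · exact Or.inr ⟨k + m, by rw [zpow_add]; group⟩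
      · refine Or.inr ⟨k - m, ?_⟩
        rw [mul_assoc, hinv, ← mul_assoc, ← zpow_add, sub_eq_add_neg]
      · refine Or.inl ⟨k - m, ?_⟩
        rw [mul_assoc, ← mul_assoc p, hinv, mul_assoc, hp, mul_one, ← zpow_add, sub_eq_add_neg]
    | inv u _ hu =>
      rcases hu with ⟨k, rfl⟩ | ⟨k, rfl⟩
      · exact Or.inl ⟨-k, by rw [zpow_neg]⟩
      · refine Or.inr ⟨k, ?_⟩
        rw [mul_inv_rev, hp', ← zpow_neg, hinv, neg_neg]
  have sq : ∀ k : ℤ, ((p * q) ^ k * p) * ((p * q) ^ k * p) = 1 := by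
    intro k
    rw [mul_assoc, ← mul_assoc p, hinv, mul_assoc, hp, mul_one, ← zpow_add]
    simp
  rcases key x hx with ⟨k, rfl⟩ | ⟨k, rfl⟩
  · rcases key y hy with ⟨m, rfl⟩ | ⟨m, rfl⟩
    · rw [← zpow_add, ← zpow_add, add_comm]
    · exact absurd (sq m) hy2
  · exact absurd (sq k) hx2

section Exp

variable {K L : Type*} [Field K] [LieRing L] [LieAlgebra K L]

lemma expAd_eq {x : L} (hx : (ad K L x) ^ 5 = 0) :
    expAd K x = ∑ k ∈ Finset.range 5, ((k.factorial : K)⁻¹) • (ad K L x) ^ k := by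
  unfold expAd
  apply Finset.sum_subset
  · apply Finset.range_subset_range.mpr
    exact Nat.sInf_le hx
  · intro k _ hk
    have : nilpotencyClass (ad K L x) ≤ k := by simpa using hk
    rw [pow_eq_zero_of_le this (pow_nilpotencyClass ⟨5, hx⟩), smul_zero]

lemma expAd_apply {x : L} (hx : (ad K L x) ^ 5 = 0) (y : L) :
    expAd K x y = y + ⁅x, y⁆ + (2 : K)⁻¹ • ⁅x, ⁅x, y⁆⁆ + (6 : K)⁻¹ • ⁅x, ⁅x, ⁅x, y⁆⁆⁆
      + (24 : K)⁻¹ • ⁅x, ⁅x, ⁅x, ⁅x, y⁆⁆⁆⁆ := by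
  rw [expAd_eq hx]
  simp [Finset.sum_range_succ, Nat.factorial, pow_succ, Module.End.mul_apply]

end Exp

section Mat

variable {K n : Type*} [Field K] [CharZero K] [Fintype n] [DecidableEq n]

/-- `1 + z + z²/2`. -/
noncomputable def E2 (z : Matrix n n K) : Matrix n n K := 1 + z + (2 : K)⁻¹ • (z * z)

attribute [local instance] LieRing.ofAssociativeRing

lemma lie4 (z : Matrix n n K) (hz : z * z * z = 0) (w : Matrix n n K) :
    ⁅z, ⁅z, ⁅z, ⁅z, w⁆⁆⁆⁆ = (6 : K) • (z * (z * (w * (z * z)))) := by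
  have hz' : z * (z * z) = 0 := by rw [← mul_assoc, hz]
  have hz1 : ∀ v : Matrix n n K, z * (z * (z * v)) = 0 := by
    intro v; rw [← mul_assoc, ← mul_assoc, hz, zero_mul]
  have e2 : ⁅z, ⁅z, w⁆⁆ = z * (z * w) - (2 : K) • (z * (w * z)) + w * (z * z) := by
    rw [Ring.lie_def, Ring.lie_def, two_smul]; noncomm_ring
  have e3 : ⁅z, ⁅z, ⁅z, w⁆⁆⁆ = - (3 : K) • (z * (z * (w * z))) + (3 : K) • (z * (w * (z * z))) := by
    rw [e2, Ring.lie_def]
    simp only [mul_sub, mul_add, sub_mul, add_mul, smul_mul_assoc, mul_smul_comm, mul_assoc,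
      hz1, hz', mul_zero]
    module
  rw [e3, Ring.lie_def]
  simp only [mul_add, add_mul, smul_mul_assoc, mul_smul_comm, mul_assoc,
      hz1, hz', mul_zero, smul_zero]
  module

lemma conj_E2 (z : Matrix n n K) (hz : z * z * z = 0) (w : Matrix n n K) :
    E2 z * w * E2 (-z) = w + ⁅z, w⁆ + (2 : K)⁻¹ • ⁅z, ⁅z, w⁆⁆ + (6 : K)⁻¹ • ⁅z, ⁅z, ⁅z, w⁆⁆⁆
      + (24 : K)⁻¹ • ⁅z, ⁅z, ⁅z, ⁅z, w⁆⁆⁆⁆ := by
  have hz' : z * (z * z) = 0 := by rw [← mul_assoc, hz]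
  have hz1 : ∀ v : Matrix n n K, z * (z * (z * v)) = 0 := by
    intro v; rw [← mul_assoc, ← mul_assoc, hz, zero_mul]
  have e1 : ⁅z, w⁆ = z * w - w * z := rfl
  have e2 : ⁅z, ⁅z, w⁆⁆ = z * (z * w) - (2 : K) • (z * (w * z)) + w * (z * z) := by
    rw [Ring.lie_def, Ring.lie_def, two_smul]; noncomm_ring
  have e3 : ⁅z, ⁅z, ⁅z, w⁆⁆⁆ = - (3 : K) • (z * (z * (w * z))) + (3 : K) • (z * (w * (z * z))) := by
    rw [e2, Ring.lie_def]
    simp only [mul_sub, mul_add, sub_mul, add_mul, smul_mul_assoc, mul_smul_comm, mul_assoc,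
      hz1, hz', mul_zero]
    module
  rw [lie4 z hz, e3, e2, e1]
  unfold E2
  simp only [mul_add, add_mul, mul_one, one_mul, smul_mul_assoc, mul_smul_comm,
    mul_assoc, mul_neg, neg_mul, smul_neg, neg_neg, smul_smul]
  module

lemma lie5 (z : Matrix n n K) (hz : z * z * z = 0) (w : Matrix n n K) :
    ⁅z, ⁅z, ⁅z, ⁅z, ⁅z, w⁆⁆⁆⁆⁆ = 0 := by
  have hz' : z * (z * z) = 0 := by rw [← mul_assoc, hz]
  have hz1 : ∀ v : Matrix n n K, z * (z * (z * v)) = 0 := by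
    intro v; rw [← mul_assoc, ← mul_assoc, hz, zero_mul]
  have h := lie4 z hz w
  have : ⁅z, ⁅z, ⁅z, ⁅z, ⁅z, w⁆⁆⁆⁆⁆ = ⁅z, (6 : K) • (z * (z * (w * (z * z))))⁆ := by
    rw [lie4 z hz ⁅z, w⁆, Ring.lie_def, Ring.lie_def]
    simp only [mul_sub, sub_mul, smul_mul_assoc, mul_smul_comm, mul_assoc,
      hz1, hz', mul_zero, smul_zero, sub_zero, zero_sub, neg_zero]
  rw [this, Ring.lie_def]
  simp only [smul_mul_assoc, mul_smul_comm, mul_assoc,
      hz1, hz', mul_zero, smul_zero, sub_zero]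

lemma E2_mul {z : Matrix n n K} (hz : z * z * z = 0) (s t : K) :
    E2 (s • z) * E2 (t • z) = E2 ((s + t) • z) := by
  have hz' : z * (z * z) = 0 := by rw [← mul_assoc, hz]
  have hz1 : ∀ v : Matrix n n K, z * (z * (z * v)) = 0 := by
    intro v; rw [← mul_assoc, ← mul_assoc, hz, zero_mul]
  unfold E2
  simp only [mul_add, add_mul, mul_one, one_mul, smul_mul_assoc, mul_smul_comm,
    mul_assoc, smul_smul, hz', hz1, smul_zero, add_zero, mul_zero]
  module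

end Mat

end MP9bf44d
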