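import Pool.Agent.Lib.H68.Transfer3

/-! # The transfer theorem -/

namespace MP9bf44d

open LieAlgebra LieSubalgebra Set

attribute [local instance] LieRing.ofAssociativeRing

section Compat

variable {ι K L n : Type*} [Finite ι] [Field K] [CharZero K] [LieRing L] [LieAlgebra K L]
  [Fintype n] [DecidableEq n]
  {H : LieSubalgebra K L} (B : LieAlgebra.Basis ι H)
  {e' f' : ι → Matrix n n K}

lemma ad_pow_five [IsSimple K L] (R : ChevRel B.A e' f') {x : L} {z : Matrix n n K}
    (hxz : (x, z) ∈ graph B e' f') (hz : z * z * z = 0) : (ad K L x) ^ 5 = 0 := by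
  ext y
  obtain ⟨w, hw⟩ := graph_surj B e' f' y
  have h5 : (((ad K L x) ^ 5) y, ⁅z, ⁅z, ⁅z, ⁅z, ⁅z, w⁆⁆⁆⁆⁆) ∈ graph B e' f' := by
    have := (graph B e' f').lie_mem hxz ((graph B e' f').lie_mem hxz
      ((graph B e' f').lie_mem hxz ((graph B e' f').lie_mem hxz
      ((graph B e' f').lie_mem hxz hw))))
    simpa [pow_succ, Module.End.mul_apply] using this
  rw [lie5 z hz] at h5
  simpa using eq_zero_of_mem_graph B R h5

lemma graph_unique [IsSimple K L] (R : ChevRel B.A e' f') {x y : L} {z : Matrix n n K}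
    (hx : (x, z) ∈ graph B e' f') (hy : (y, z) ∈ graph B e' f') : x = y := by
  have := (graph B e' f').sub_mem hx hy
  rw [Prod.mk_sub_mk, sub_self] at this
  exact sub_eq_zero.mp (eq_zero_of_mem_graph B R this)

lemma graph_exp [IsSimple K L] (R : ChevRel B.A e' f') {x y : L} {z w : Matrix n n K}
    (hxz : (x, z) ∈ graph B e' f') (hz : z * z * z = 0) (hyw : (y, w) ∈ graph B e' f') :
    (expAd K x y, E2 z * w * E2 (-z)) ∈ graph B e' f' := by
  rw [expAd_apply (ad_pow_five B R hxz hz), conj_E2 z hz]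
  have h1 := (graph B e' f').lie_mem hxz hyw
  have h2 := (graph B e' f').lie_mem hxz h1
  have h3 := (graph B e' f').lie_mem hxz h2
  have h4 := (graph B e' f').lie_mem hxz h3
  have := (graph B e' f').add_mem ((graph B e' f').add_mem ((graph B e' f').add_mem
    ((graph B e' f').add_mem hyw h1) ((graph B e' f').smul_mem (2 : K)⁻¹ h2))
    ((graph B e' f').smul_mem (6 : K)⁻¹ h3)) ((graph B e' f').smul_mem (24 : K)⁻¹ h4)
  simpa using this

lemma E2_neg_mul {z : Matrix n n K} (hz : z * z * z = 0) : E2 (-z) * E2 z = 1 := by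
  have := E2_mul hz (-1) 1
  simpa [E2] using this

lemma E2_mul_neg {z : Matrix n n K} (hz : z * z * z = 0) : E2 z * E2 (-z) = 1 := by
  have := E2_mul hz 1 (-1)
  simpa [E2] using this

lemma expAd_mul_neg [IsSimple K L] (R : ChevRel B.A e' f') {x : L} {z : Matrix n n K}
    (hxz : (x, z) ∈ graph B e' f') (hz : z * z * z = 0) :
    expAd K x * expAd K (-x) = 1 := by
  ext y
  obtain ⟨w, hw⟩ := graph_surj B e' f' y
  have hxz' : (-x, -z) ∈ graph B e' f' := by
    have := (graph B e' f').neg_mem hxz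
    simpa using this
  have hz' : -z * -z * -z = 0 := by simp [hz]
  have h1 := graph_exp B R hxz' hz' hw
  have h2 := graph_exp B R hxz hz h1
  have h3 : E2 z * (E2 (-z) * w * E2 (- -z)) * E2 (-z) = w := by
    rw [neg_neg]
    calc E2 z * (E2 (-z) * w * E2 z) * E2 (-z) = (E2 z * E2 (-z)) * w * (E2 z * E2 (-z)) := by
          noncomm_ring
      _ = w := by rw [E2_mul_neg hz]; simp
  rw [h3] at h2
  exact graph_unique B R h2 hw

/-- The unit of `End L` given by the exponential. -/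
noncomputable def uexp [IsSimple K L] (R : ChevRel B.A e' f') {x : L} {z : Matrix n n K}
    (hxz : (x, z) ∈ graph B e' f') (hz : z * z * z = 0) : (L →ₗ[K] L)ˣ where
  val := expAd K x
  inv := expAd K (-x)
  val_inv := expAd_mul_neg B R hxz hz
  inv_val := by
    have hxz' : (-x, -z) ∈ graph B e' f' := by
      have := (graph B e' f').neg_mem hxz
      simpa using this
    have hz' : -z * -z * -z = 0 := by simp [hz]
    have := expAd_mul_neg B R hxz' hz'
    simpa using this

/-- The subgroup of compatible pairs. -/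
def compat (e' f' : ι → Matrix n n K) : Subgroup ((Matrix n n K)ˣ × (L →ₗ[K] L)ˣ) where
  carrier := {p | ∀ y w, ((y, w) ∈ graph B e' f' ↔
    ((p.2 : L →ₗ[K] L) y, (p.1 : Matrix n n K) * w * ((p.1⁻¹ : (Matrix n n K)ˣ) : Matrix n n K))
      ∈ graph B e' f')}
  mul_mem' {p q} hp hq := by
    intro y w
    rw [hq y w, hp]
    simp only [Prod.snd_mul, Prod.fst_mul, Units.val_mul, Module.End.mul_apply, mul_inv_rev,
      mul_assoc]
  one_mem' := by intro y w; simp
  inv_mem' {p} hp := by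
    intro y w
    simp only [Prod.snd_inv, Prod.fst_inv, inv_inv]
    have h1 : (p.2 : L →ₗ[K] L) (((p.2⁻¹ : (L →ₗ[K] L)ˣ) : L →ₗ[K] L) y) = y := by
      rw [← Module.End.mul_apply, Units.mul_inv]; rfl
    have h2 : (p.1 : Matrix n n K) * (((p.1⁻¹ : (Matrix n n K)ˣ) : Matrix n n K) * w *
        (p.1 : Matrix n n K)) * ((p.1⁻¹ : (Matrix n n K)ˣ) : Matrix n n K) = w := by
      simp only [mul_assoc, Units.mul_inv, mul_one]
      rw [← mul_assoc, Units.mul_inv, one_mul]
    have h3 := hp (((p.2⁻¹ : (L →ₗ[K] L)ˣ) : L →ₗ[K] L) y)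
      (((p.1⁻¹ : (Matrix n n K)ˣ) : Matrix n n K) * w * (p.1 : Matrix n n K))
    rw [h1, h2] at h3
    exact h3.symm

lemma compat_unique [IsSimple K L] (R : ChevRel B.A e' f') {g : (Matrix n n K)ˣ}
    {θ θ' : (L →ₗ[K] L)ˣ} (h : (g, θ) ∈ compat B e' f') (h' : (g, θ') ∈ compat B e' f') :
    θ = θ' := by
  ext y
  obtain ⟨w, hw⟩ := graph_surj B e' f' y
  exact graph_unique B R ((h y w).mp hw) ((h' y w).mp hw)

lemma compat_neg_one : ((-1 : (Matrix n n K)ˣ), (1 : (L →ₗ[K] L)ˣ)) ∈ compat B e' f' := by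
  intro y w
  simp

lemma compat_exp [IsSimple K L] (R : ChevRel B.A e' f') {x : L} {z : Matrix n n K}
    (hxz : (x, z) ∈ graph B e' f') (hz : z * z * z = 0) (g : (Matrix n n K)ˣ)
    (hg : (g : Matrix n n K) = E2 z) : (g, uexp B R hxz hz) ∈ compat B e' f' := by
  have hginv : ((g⁻¹ : (Matrix n n K)ˣ) : Matrix n n K) = E2 (-z) := by
    rw [Units.inv_eq_of_mul_eq_one_right]
    rw [hg]
    exact E2_mul_neg hz
  have hxz' : (-x, -z) ∈ graph B e' f' := by
    have := (graph B e' f').neg_mem hxz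
    simpa using this
  have hz' : -z * -z * -z = 0 := by simp [hz]
  intro y w
  constructor
  · intro h
    have := graph_exp B R hxz hz h
    rw [hginv, hg]
    exact this
  · intro h
    rw [hginv, hg] at h
    have h2 := graph_exp B R hxz' hz' h
    rw [neg_neg] at h2
    have h3 : E2 (-z) * (E2 z * w * E2 (-z)) * E2 z = w := by
      calc E2 (-z) * (E2 z * w * E2 (-z)) * E2 z = (E2 (-z) * E2 z) * w * (E2 (-z) * E2 z) := by
            noncomm_ring
        _ = w := by rw [E2_neg_mul hz]; simp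
    rw [h3] at h2
    have h4 : expAd K (-x) (((uexp B R hxz hz : (L →ₗ[K] L)ˣ) : L →ₗ[K] L) y) = y := by
      change (((uexp B R hxz hz)⁻¹ : (L →ₗ[K] L)ˣ) : L →ₗ[K] L)
        (((uexp B R hxz hz : (L →ₗ[K] L)ˣ) : L →ₗ[K] L) y) = y
      rw [← Module.End.mul_apply, Units.inv_mul]; rfl
    change (expAd K (-x) (((uexp B R hxz hz : (L →ₗ[K] L)ˣ) : L →ₗ[K] L) y), w) ∈ _ at h2
    rwa [h4] at h2

end Compat

end MP9bf44d
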