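import Pool.Agent.Lib.H68.Defs

/-! # The types left open -/

namespace MP9bf44d

/-- `A` is, up to a renumbering of the simple roots, the Cartan matrix of one of the types
`B_l` (`l ≥ 3`), `C_l` (`l ≥ 3`), `D_l` (`l ≥ 4`), `E₆`, `E₇`, `E₈`, `F₄`, `G₂`. -/
inductive IsOpenType {ι : Type*} (A : Matrix ι ι ℤ) : Prop
  | B (l : ℕ) (hl : 3 ≤ l) (σ : ι ≃ Fin l) (h : A = (CartanMatrix.B l).submatrix σ σ)
  | C (l : ℕ) (hl : 3 ≤ l) (σ : ι ≃ Fin l) (h : A = (CartanMatrix.C l).submatrix σ σ)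
  | D (l : ℕ) (hl : 4 ≤ l) (σ : ι ≃ Fin l) (h : A = (CartanMatrix.D l).submatrix σ σ)
  | E₆ (σ : ι ≃ Fin 6) (h : A = CartanMatrix.E₆.submatrix σ σ)
  | E₇ (σ : ι ≃ Fin 7) (h : A = CartanMatrix.E₇.submatrix σ σ)
  | E₈ (σ : ι ≃ Fin 8) (h : A = CartanMatrix.E₈.submatrix σ σ)
  | F₄ (σ : ι ≃ Fin 4) (h : A = CartanMatrix.F₄.submatrix σ σ)
  | G₂ (σ : ι ≃ Fin 2) (h : A = CartanMatrix.G₂.submatrix σ σ)

end MP9bf44d
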