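import Pool.Agent.Lib.H68.TypeDefs
import Pool.Agent.Lib.H68.FamB2
import Pool.Agent.Lib.H68.FamC
import Pool.Agent.Lib.H68.FamD2
import Pool.Agent.Lib.H68.SmallB3
import Pool.Agent.Lib.H68.SmallB4
import Pool.Agent.Lib.H68.SmallB5
import Pool.Agent.Lib.H68.SmallB6
import Pool.Agent.Lib.H68.SmallB7
import Pool.Agent.Lib.H68.SmallC3
import Pool.Agent.Lib.H68.SmallC4
import Pool.Agent.Lib.H68.SmallC5
import Pool.Agent.Lib.H68.SmallC6
import Pool.Agent.Lib.H68.SmallC7
import Pool.Agent.Lib.H68.SmallD5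
import Pool.Agent.Lib.H68.SmallD6
import Pool.Agent.Lib.H68.SmallD7
import Pool.Agent.Lib.H74.Chev.D4
import Pool.Agent.Lib.H74.Chev.Except

/-! # All open types -/

namespace MP9bf44d

open LieAlgebra LieSubalgebra Set

variable {ι ι' K L : Type*} [Finite ι] [Finite ι'] [Field K] [LieRing L] [LieAlgebra K L]
  {H : LieSubalgebra K L}

/-- Renumbering a `LieAlgebra.Basis`. -/
def reB (B : LieAlgebra.Basis ι H) (σ : ι' ≃ ι) : LieAlgebra.Basis ι' H where
  A := B.A.submatrix σ σ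
  h := B.h ∘ σ
  e := B.e ∘ σ
  f := B.f ∘ σ
  cartan_eq_lieSpan := by
    rw [σ.surjective.range_comp]; exact B.cartan_eq_lieSpan
  span_ef := by
    rw [σ.surjective.range_comp, σ.surjective.range_comp]; exact B.span_ef
  linInd := B.linInd.comp _ σ.injective
  nondegen := by
    classical
    have := Fintype.ofFinite ι
    have := Fintype.ofFinite ι'
    have h := B.nondegen
    rw [Matrix.nondegenerate_iff_det_ne_zero] at h ⊢
    rwa [Matrix.det_submatrix_equiv_self]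
  sl2 i := B.sl2 (σ i)
  lie_h_h i j := B.lie_h_h (σ i) (σ j)
  lie_h_e i j := B.lie_h_e (σ i) (σ j)
  lie_h_f i j := B.lie_h_f (σ i) (σ j)
  lie_e_f_ne i j hij := B.lie_e_f_ne (σ i) (σ j) (fun h => hij (σ.injective h))

lemma Gad_reB (B : LieAlgebra.Basis ι H) (σ : ι' ≃ ι) : Gad (reB B σ) = Gad B := by
  unfold Gad
  congr 1
  ext g
  constructor
  · rintro ⟨t, i, h⟩
    exact ⟨t, σ i, h⟩
  · rintro ⟨t, i, h⟩
    refine ⟨t, σ.symm i, ?_⟩
    simpa [reB] using h

lemma threeInvolutions_reB (B : LieAlgebra.Basis ι H) (σ : ι' ≃ ι)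
    (h : ThreeInvolutions (Gad (reB B σ))) : ThreeInvolutions (Gad B) := by
  rwa [Gad_reB] at h

section

variable [CharZero K] [LieAlgebra.IsSimple K L]

theorem typeB (l : ℕ) (hl : 3 ≤ l) (B : LieAlgebra.Basis (Fin l) H)
    (hB : B.A = CartanMatrix.B l) : ThreeInvolutions (Gad B) := by
  rcases (by omega : l = 3 ∨ l = 4 ∨ l = 5 ∨ l = 6 ∨ l = 7 ∨ 8 ≤ l) with
    rfl | rfl | rfl | rfl | rfl | h8
  · exact resB3 B hB
  · exact resB4 B hB
  · exact resB5 B hB
  · exact resB6 B hB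
  · exact resB7 B hB
  · exact familyB B h8 hB

theorem typeC (l : ℕ) (hl : 3 ≤ l) (B : LieAlgebra.Basis (Fin l) H)
    (hB : B.A = CartanMatrix.C l) : ThreeInvolutions (Gad B) := by
  rcases (by omega : l = 3 ∨ l = 4 ∨ l = 5 ∨ l = 6 ∨ l = 7 ∨ 8 ≤ l) with
    rfl | rfl | rfl | rfl | rfl | h8
  · exact resC3 B hB
  · exact resC4 B hB
  · exact resC5 B hB
  · exact resC6 B hB
  · exact resC7 B hB
  · exact familyC B h8 hB

theorem typeD (l : ℕ) (hl : 4 ≤ l) (B : LieAlgebra.Basis (Fin l) H)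
    (hB : B.A = CartanMatrix.D l) : ThreeInvolutions (Gad B) := by
  rcases (by omega : l = 4 ∨ l = 5 ∨ l = 6 ∨ l = 7 ∨ 8 ≤ l) with
    rfl | rfl | rfl | rfl | h8
  · exact threeInvolutions_of_goodModel B (hB ▸ goodModel_D4)
  · exact resD5 B hB
  · exact resD6 B hB
  · exact resD7 B hB
  · exact familyD B h8 hB

lemma reB_A {l : ℕ} (B : LieAlgebra.Basis ι H) (σ : ι ≃ Fin l) {M : Matrix (Fin l) (Fin l) ℤ}
    (h : B.A = M.submatrix σ σ) : (reB B σ.symm).A = M := by
  change B.A.submatrix σ.symm σ.symm = M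
  rw [h]
  ext i j
  simp

/-- All the types left open, for the group generated by the simple root elements. -/
theorem openTypes (B : LieAlgebra.Basis ι H) (h : IsOpenType B.A) :
    ThreeInvolutions (Gad B) := by
  cases h with
  | B l hl σ h => exact threeInvolutions_reB B σ.symm (typeB l hl _ (reB_A B σ h))
  | C l hl σ h => exact threeInvolutions_reB B σ.symm (typeC l hl _ (reB_A B σ h))
  | D l hl σ h => exact threeInvolutions_reB B σ.symm (typeD l hl _ (reB_A B σ h))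
  | E₆ σ h => have : Nonempty ι := ⟨σ.symm 0⟩; exact threeInvolutions_E6 B σ h
  | E₇ σ h => have : Nonempty ι := ⟨σ.symm 0⟩; exact threeInvolutions_E7 B σ h
  | E₈ σ h => have : Nonempty ι := ⟨σ.symm 0⟩; exact threeInvolutions_E8 B σ h
  | F₄ σ h => have : Nonempty ι := ⟨σ.symm 0⟩; exact threeInvolutions_F4 B σ h
  | G₂ σ h => have : Nonempty ι := ⟨σ.symm 0⟩; exact threeInvolutions_G2 B σ h

end

end MP9bf44d
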